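import Pool.Agent.H14.SR.Basic

open MeasureTheory Set Filter Topology
noncomputable section
namespace Pool.H14.SR


/-! Closure properties of `H^∞`, `H²` (boundary functions).

All products: use Fourier expansion / density.  Suggested proof of `Hinf.mul`: for `f ∈ H^∞`, `g ∈ H²`
show `∫ e^{i(n+1)x} f g = 0`: `g` is the `L²` limit of its partial Fourier sums `Σ_{k<m} coef g k e^{ikx}`
(Mathlib: `fourierBasis` / `hasSum_fourier_series_L2` on `AddCircle (2π)`, transported to `(0,2π]` by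
`AddCircle.liftIoc`, `AddCircle.integral_preimage` …; the negative coefficients vanish by `HA`), and for
`g = e^{ikx}` the claim is `HA f`; pass to the limit (`f` bounded, Cauchy-Schwarz on the finite measure `mu`). -/

theorem HB_cexp_cont (c : ℂ) : Continuous (fun x : ℝ => Complex.exp (c * (x : ℂ))) := by
  fun_prop

theorem HB_norm_exp (n : ℕ) (x : ℝ) :
    ‖Complex.exp (((n : ℂ) + 1) * Complex.I * (x : ℂ))‖ = 1 := by
  rw [Complex.norm_exp]
  have : ((((n : ℂ) + 1) * Complex.I * (x : ℂ))).re = 0 := by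
    simp
  rw [this, Real.exp_zero]

theorem HB_norm_expz (n : ℤ) (x : ℝ) :
    ‖Complex.exp (-((n : ℂ) * Complex.I * (x : ℂ)))‖ = 1 := by
  rw [Complex.norm_exp]
  have : (-((n : ℂ) * Complex.I * (x : ℂ))).re = 0 := by
    simp
  rw [this, Real.exp_zero]

theorem HB_int {f : ℝ → ℂ} (hf : Integrable f mu) (n : ℕ) :
    Integrable (fun x : ℝ => Complex.exp (((n : ℂ) + 1) * Complex.I * (x : ℂ)) * f x) mu := by
  apply hf.bdd_mul (c := 1)
  · exact (HB_cexp_cont _).aestronglyMeasurable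
  · exact Filter.Eventually.of_forall fun x => (HB_norm_exp n x).le

theorem HB_ha_add {f g : ℝ → ℂ} (hf : Integrable f mu) (hg : Integrable g mu) (h1 : HA f) (h2 : HA g) :
    HA (fun x => f x + g x) := by
  intro n
  have h3 : (∫ x, Complex.exp (((n : ℂ) + 1) * Complex.I * (x : ℂ)) * (f x + g x) ∂mu)
      = (∫ x, Complex.exp (((n : ℂ) + 1) * Complex.I * (x : ℂ)) * f x ∂mu)
      + (∫ x, Complex.exp (((n : ℂ) + 1) * Complex.I * (x : ℂ)) * g x ∂mu) := by
    rw [← integral_add (HB_int hf n) (HB_int hg n)]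
    congr 1
    ext x
    ring
  have h4 : (∫ x, Complex.exp (((n : ℂ) + 1) * Complex.I * (x : ℂ)) * f x ∂mu) = 0 := h1 n
  have h5 : (∫ x, Complex.exp (((n : ℂ) + 1) * Complex.I * (x : ℂ)) * g x ∂mu) = 0 := h2 n
  rw [h4, h5, add_zero] at h3
  exact h3

theorem HB_ha_smul {f : ℝ → ℂ} (h1 : HA f) (c : ℂ) : HA (fun x => c * f x) := by
  intro n
  have h3 : (∫ x in Set.Ioc 0 (2 * Real.pi),
      Complex.exp (((n : ℂ) + 1) * Complex.I * (x : ℂ)) * (c * f x))
      = c * (∫ x in Set.Ioc 0 (2 * Real.pi), Complex.exp (((n : ℂ) + 1) * Complex.I * (x : ℂ)) * f x) := by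
    rw [← integral_const_mul]
    congr 1
    ext x
    ring
  rw [h3, h1 n, mul_zero]

theorem Hinf_const (c : ℂ) : Hinf (fun _ => c) := by
  refine ⟨memLp_const c, fun n => ?_⟩
  have h0 : (((n : ℂ) + 1) * Complex.I) ≠ 0 := by
    apply mul_ne_zero
    · exact Nat.cast_add_one_ne_zero n
    · exact Complex.I_ne_zero
  rw [← intervalIntegral.integral_of_le (by positivity)]
  rw [intervalIntegral.integral_mul_const]
  rw [integral_exp_mul_complex h0]
  have h1 : Complex.exp (((n : ℂ) + 1) * Complex.I * ((2 * Real.pi : ℝ) : ℂ)) = 1 := by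
    have h2 := Complex.exp_int_mul_two_pi_mul_I ((n : ℤ) + 1)
    have h3 : ((n : ℂ) + 1) * Complex.I * ((2 * Real.pi : ℝ) : ℂ)
        = (((n : ℤ) + 1 : ℤ) : ℂ) * (2 * Real.pi * Complex.I) := by
      push_cast
      ring
    rw [h3]
    exact h2
  rw [h1]
  simp

theorem Hinf.int {f : ℝ → ℂ} (hf : Hinf f) : Integrable f mu :=
  (hf.mem.mono_exponent le_top : MemLp f 1 mu).integrable le_rfl

theorem Htwo.int {f : ℝ → ℂ} (hf : Htwo f) : Integrable f mu :=
  (hf.mem.mono_exponent (by norm_num) : MemLp f 1 mu).integrable le_rfl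

theorem Hinf.add {f g : ℝ → ℂ} (hf : Hinf f) (hg : Hinf g) : Hinf (fun x => f x + g x) :=
  ⟨hf.mem.add hg.mem, HB_ha_add hf.int hg.int hf.ha hg.ha⟩

theorem Hinf.smul {f : ℝ → ℂ} (hf : Hinf f) (c : ℂ) : Hinf (fun x => c * f x) :=
  ⟨hf.mem.const_mul c, HB_ha_smul hf.ha c⟩

theorem Hinf.toHtwo {f : ℝ → ℂ} (hf : Hinf f) : Htwo f :=
  ⟨hf.mem.mono_exponent le_top, hf.ha⟩

theorem Htwo.add {f g : ℝ → ℂ} (hf : Htwo f) (hg : Htwo g) : Htwo (fun x => f x + g x) :=
  ⟨hf.mem.add hg.mem, HB_ha_add hf.int hg.int hf.ha hg.ha⟩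

theorem Htwo.smul {f : ℝ → ℂ} (hf : Htwo f) (c : ℂ) : Htwo (fun x => c * f x) :=
  ⟨hf.mem.const_mul c, HB_ha_smul hf.ha c⟩

/-! ### Fourier coefficients over `ℤ` -/

theorem HB_pos : (0 : ℝ) < 2 * Real.pi := by positivity

/-- The `n`-th Fourier integral, `n ∈ ℤ`. -/
def HB_F (f : ℝ → ℂ) (n : ℤ) : ℂ :=
  ∫ x in Set.Ioc 0 (2 * Real.pi), Complex.exp (-((n : ℂ) * Complex.I * (x : ℂ))) * f x

theorem HB_fc (f : ℝ → ℂ) (n : ℤ) :
    fourierCoeffOn HB_pos f n = ((1 / (2 * Real.pi) : ℝ) : ℂ) * HB_F f n := by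
  rw [fourierCoeffOn_eq_integral]
  unfold HB_F
  rw [intervalIntegral.integral_of_le HB_pos.le]
  rw [sub_zero, Complex.real_smul]
  congr 1
  apply setIntegral_congr_fun measurableSet_Ioc
  intro x _
  show _ • _ = _ * _
  rw [smul_eq_mul]
  congr 1
  rw [fourier_coe_apply]
  congr 1
  have : (Real.pi : ℂ) ≠ 0 := by exact_mod_cast Real.pi_ne_zero
  push_cast
  field_simp

theorem HB_parseval {f : ℝ → ℂ} (hf : MemLp f 2 mu) :
    HasSum (fun n : ℤ => ‖HB_F f n‖ ^ 2) ((2 * Real.pi) * ∫ x, ‖f x‖ ^ 2 ∂mu) := by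
  have h := hasSum_sq_fourierCoeffOn HB_pos hf
  have h2 := h.mul_left ((2 * Real.pi) ^ 2)
  have hpi : (2 * Real.pi) ≠ 0 := HB_pos.ne'
  have e1 : (fun n : ℤ => ‖HB_F f n‖ ^ 2)
      = fun n : ℤ => (2 * Real.pi) ^ 2 * ‖fourierCoeffOn HB_pos f n‖ ^ 2 := by
    ext n
    rw [HB_fc, norm_mul, mul_pow, Complex.norm_real, Real.norm_eq_abs, abs_of_pos (by positivity)]
    field_simp
  have e2 : (2 * Real.pi) * ∫ x, ‖f x‖ ^ 2 ∂mu
      = (2 * Real.pi) ^ 2 * ((2 * Real.pi - 0)⁻¹ • ∫ x in (0)..(2 * Real.pi), ‖f x‖ ^ 2) := by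
    rw [intervalIntegral.integral_of_le HB_pos.le, sub_zero, smul_eq_mul]
    unfold mu
    field_simp
  rw [e1, e2]
  exact h2

theorem HB_F_add {f g : ℝ → ℂ} (hf : Integrable f mu) (hg : Integrable g mu) (n : ℤ) :
    HB_F (fun x => f x + g x) n = HB_F f n + HB_F g n := by
  unfold HB_F
  have hi : ∀ {f : ℝ → ℂ}, Integrable f mu →
      Integrable (fun x : ℝ => Complex.exp (-((n : ℂ) * Complex.I * (x : ℂ))) * f x)
        (volume.restrict (Set.Ioc 0 (2 * Real.pi))) := by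
    intro f hf
    apply Integrable.bdd_mul (c := 1) hf
    · have : Continuous (fun x : ℝ => Complex.exp (-((n : ℂ) * Complex.I * (x : ℂ)))) := by fun_prop
      exact this.aestronglyMeasurable
    · exact Filter.Eventually.of_forall fun x => (HB_norm_expz n x).le
  rw [← integral_add (hi hf) (hi hg)]
  congr 1
  ext x
  ring

theorem HB_F_smul (f : ℝ → ℂ) (c : ℂ) (n : ℤ) :
    HB_F (fun x => c * f x) n = c * HB_F f n := by
  unfold HB_F
  rw [← integral_const_mul]
  congr 1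
  ext x
  ring

theorem HB_int_mul {u v : ℝ → ℂ} (hu : MemLp u 2 mu) (hv : MemLp v 2 mu) :
    Integrable (fun x => u x * v x) mu :=
  hu.integrable_mul hv

theorem HB_orth {u v : ℝ → ℂ} (hu : MemLp u 2 mu) (hv : MemLp v 2 mu)
    (h : ∀ n : ℤ, HB_F u n = 0 ∨ HB_F v n = 0) :
    ∫ x, (starRingEnd ℂ) (u x) * v x ∂mu = 0 := by
  have hui : Integrable u mu := (hu.mono_exponent (by norm_num) : MemLp u 1 mu).integrable le_rfl
  have hvi : Integrable v mu := (hv.mono_exponent (by norm_num) : MemLp v 1 mu).integrable le_rfl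
  have hstar : MemLp (fun x => (starRingEnd ℂ) (u x)) 2 mu := hu.star
  have hprod : Integrable (fun x => (starRingEnd ℂ) (u x) * v x) mu := HB_int_mul hstar hv
  have key : ∀ c : ℂ, (∫ x, (c * ((starRingEnd ℂ) (u x) * v x)) ∂mu).re = 0 := by
    intro c
    have hcv : MemLp (fun x => c * v x) 2 mu := hv.const_mul c
    have h1 := HB_parseval hu
    have h2 := HB_parseval hcv
    have h3 := HB_parseval (hu.add hcv)
    have h4 : (fun n : ℤ => ‖HB_F (u + fun x => c * v x) n‖ ^ 2)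
        = fun n : ℤ => ‖HB_F u n‖ ^ 2 + ‖HB_F (fun x => c * v x) n‖ ^ 2 := by
      ext n
      have : HB_F (u + fun x => c * v x) n = HB_F u n + HB_F (fun x => c * v x) n :=
        HB_F_add hui (hvi.const_mul c) n
      rw [this]
      rcases h n with h0 | h0
      · rw [h0]; simp
      · rw [HB_F_smul, h0]; simp
    rw [h4] at h3
    have h5 := h3.unique (h1.add h2)
    have h6 : ∫ x, ‖(u + fun x => c * v x) x‖ ^ 2 ∂mu
        = ∫ x, ‖u x‖ ^ 2 ∂mu + ∫ x, ‖c * v x‖ ^ 2 ∂mu := by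
      have := HB_pos
      nlinarith [mul_left_cancel₀ this.ne' (h5.trans (mul_add _ _ _).symm)]
    have i1 : Integrable (fun x => ‖u x‖ ^ 2) mu := hu.integrable_norm_pow (by norm_num)
    have i2 : Integrable (fun x => ‖c * v x‖ ^ 2) mu := hcv.integrable_norm_pow (by norm_num)
    have h7 : ∀ x, ‖(u + fun x => c * v x) x‖ ^ 2
        = (‖u x‖ ^ 2 + ‖c * v x‖ ^ 2) + 2 * (c * ((starRingEnd ℂ) (u x) * v x)).re := by
      intro x
      simp only [Pi.add_apply]
      rw [← Complex.normSq_eq_norm_sq, ← Complex.normSq_eq_norm_sq, ← Complex.normSq_eq_norm_sq]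
      rw [Complex.normSq_add]
      have : (u x * (starRingEnd ℂ) (c * v x)).re = (c * ((starRingEnd ℂ) (u x) * v x)).re := by
        rw [← Complex.conj_re]
        congr 1
        rw [map_mul, Complex.conj_conj]
        ring
      rw [this]
    simp_rw [h7] at h6
    have i3 : Integrable (fun x => 2 * (c * ((starRingEnd ℂ) (u x) * v x)).re) mu :=
      ((hprod.const_mul c).re).const_mul 2
    have i12 : Integrable (fun x => ‖u x‖ ^ 2 + ‖c * v x‖ ^ 2) mu := i1.add i2
    rw [integral_add i12 i3, integral_add i1 i2, integral_const_mul] at h6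
    have h8 : ∫ x, (c * ((starRingEnd ℂ) (u x) * v x)).re ∂mu = 0 := by linarith
    rw [← h8]
    exact (integral_re (hprod.const_mul c)).symm
  have k1 := key 1
  have k2 := key (-Complex.I)
  simp only [one_mul] at k1
  rw [integral_const_mul] at k2
  apply Complex.ext
  · exact k1
  · simpa using k2

theorem HB_F_neg (f : ℝ → ℂ) (n : ℕ) :
    HB_F f (-((n : ℤ) + 1)) = ∫ x in Set.Ioc 0 (2 * Real.pi),
      Complex.exp (((n : ℂ) + 1) * Complex.I * (x : ℂ)) * f x := by
  unfold HB_F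
  congr 1
  ext x
  congr 2
  push_cast
  ring

theorem Hinf.mul_Htwo {f g : ℝ → ℂ} (hf : Hinf f) (hg : Htwo g) : Htwo (fun x => f x * g x) := by
  refine ⟨hg.mem.mul hf.mem, fun n => ?_⟩
  -- u = conj (e^{i(n+1)x} f)
  have hfe : MemLp (fun x : ℝ => Complex.exp (((n : ℂ) + 1) * Complex.I * (x : ℂ)) * f x) 2 mu := by
    have h1 : MemLp (fun x : ℝ => Complex.exp (((n : ℂ) + 1) * Complex.I * (x : ℂ))) ⊤ mu :=
      memLp_top_of_bound (HB_cexp_cont _).aestronglyMeasurable 1
        (Filter.Eventually.of_forall fun x => (HB_norm_exp n x).le)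
    exact hf.toHtwo.mem.mul h1
  have hu : MemLp (fun x : ℝ => (starRingEnd ℂ)
      (Complex.exp (((n : ℂ) + 1) * Complex.I * (x : ℂ)) * f x)) 2 mu := hfe.star
  have h := HB_orth hu hg.mem ?_
  · rw [← h]
    unfold mu
    congr 1
    ext x
    rw [Complex.conj_conj]
    ring
  · intro m
    rcases lt_or_ge m 0 with hm | hm
    · right
      obtain ⟨k, rfl⟩ : ∃ k : ℕ, m = -((k : ℤ) + 1) := ⟨(-m - 1).toNat, by omega⟩
      rw [HB_F_neg]
      exact hg.ha k
    · left
      obtain ⟨k, rfl⟩ := Int.eq_ofNat_of_zero_le hm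
      have h2 : (starRingEnd ℂ) (HB_F (fun x : ℝ => (starRingEnd ℂ)
          (Complex.exp (((n : ℂ) + 1) * Complex.I * (x : ℂ)) * f x)) k) = 0 := by
        unfold HB_F
        rw [← integral_conj]
        have h3 := hf.ha (n + k)
        rw [← h3]
        congr 1
        ext x
        rw [map_mul, Complex.conj_conj, ← Complex.exp_conj, ← mul_assoc, ← Complex.exp_add]
        congr 2
        simp only [map_neg, map_mul, Complex.conj_I, Complex.conj_ofReal, map_intCast]
        push_cast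
        ring
      exact (map_eq_zero _).1 h2

theorem Hinf.mul {f g : ℝ → ℂ} (hf : Hinf f) (hg : Hinf g) : Hinf (fun x => f x * g x) :=
  ⟨hg.mem.mul hf.mem, (hf.mul_Htwo hg.toHtwo).ha⟩

/-- Bounded functions have an explicit bound and conversely. -/
theorem memLp_top_iff {f : ℝ → ℂ} :
    MemLp f ⊤ mu ↔ AEStronglyMeasurable f mu ∧ ∃ C : ℝ, 0 ≤ C ∧ BD f C := by
  constructor
  · intro h
    refine ⟨h.1, (eLpNorm f ⊤ mu).toReal, ENNReal.toReal_nonneg, ?_⟩
    have h1 : ∀ᵐ x ∂mu, ‖f x‖ₑ ≤ eLpNorm f ⊤ mu := by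
      rw [eLpNorm_exponent_top]
      exact enorm_ae_le_eLpNormEssSup f mu
    filter_upwards [h1] with x hx
    have h2 : (‖f x‖ₑ).toReal ≤ (eLpNorm f ⊤ mu).toReal :=
      ENNReal.toReal_mono h.2.ne hx
    simpa using h2
  · rintro ⟨h1, C, _, h2⟩
    exact memLp_top_of_bound h1 C h2

/-- Uniform limits of `H^∞` functions. -/
theorem Hinf_lim {f : ℝ → ℂ} (hf : AEStronglyMeasurable f mu) (u : ℕ → ℝ → ℂ)
    (hu : ∀ n, Hinf (u n)) (e : ℕ → ℝ) (he : Tendsto e atTop (𝓝 0))
    (h : ∀ n, BD (fun x => u n x - f x) (e n)) : Hinf f := by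
  have hmem : MemLp f ⊤ mu := by
    obtain ⟨_, C, _, hC⟩ := memLp_top_iff.1 (hu 0).mem
    refine memLp_top_of_bound hf (C + e 0) ?_
    filter_upwards [hC, h 0] with x h1 h2
    have : f x = u 0 x - (u 0 x - f x) := by ring
    rw [this]
    exact (norm_sub_le _ _).trans (add_le_add h1 h2)
  refine ⟨hmem, fun n => ?_⟩
  have hfi : Integrable f mu := (hmem.mono_exponent le_top : MemLp f 1 mu).integrable le_rfl
  set I := ∫ x in Set.Ioc 0 (2 * Real.pi), Complex.exp (((n : ℂ) + 1) * Complex.I * (x : ℂ)) * f x with hI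
  have hb : ∀ m, ‖I‖ ≤ e m * (2 * Real.pi) := by
    intro m
    have h1 : I = ∫ x : ℝ, Complex.exp (((n : ℂ) + 1) * Complex.I * (x : ℂ)) * (f x - u m x) ∂mu := by
      have h2 := integral_sub (HB_int hfi n) (HB_int (hu m).int n)
      have h3 : (∫ x, Complex.exp (((n : ℂ) + 1) * Complex.I * (x : ℂ)) * u m x ∂mu) = 0 := (hu m).ha n
      rw [h3, sub_zero] at h2
      have h4 : I = ∫ x, Complex.exp (((n : ℂ) + 1) * Complex.I * (x : ℂ)) * f x ∂mu := rfl
      rw [h4, ← h2]
      congr 1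
      ext x
      ring
    rw [h1]
    have h5 : ∀ᵐ x : ℝ ∂mu,
        ‖Complex.exp (((n : ℂ) + 1) * Complex.I * (x : ℂ)) * (f x - u m x)‖ ≤ e m := by
      have := h m
      unfold BD at this
      filter_upwards [this] with x hx
      rw [norm_mul, HB_norm_exp, one_mul, norm_sub_rev]
      exact hx
    refine (norm_integral_le_of_norm_le_const h5).trans ?_
    apply le_of_eq
    congr 1
    unfold mu
    rw [Measure.real, Measure.restrict_apply MeasurableSet.univ, Set.univ_inter, Real.volume_Ioc, sub_zero,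
      ENNReal.toReal_ofReal HB_pos.le]
  have h0 : ‖I‖ ≤ 0 * (2 * Real.pi) := ge_of_tendsto' (he.mul_const _) hb
  rw [zero_mul] at h0
  exact norm_le_zero_iff.1 h0

theorem Hinf.pow {f : ℝ → ℂ} (hf : Hinf f) (k : ℕ) : Hinf (fun x => f x ^ k) := by
  induction k with
  | zero => simpa using Hinf_const 1
  | succ k ih => simpa [pow_succ] using ih.mul hf

theorem HB_sum {f : ℝ → ℂ} (hf : Hinf f) (a : ℕ → ℂ) (m : ℕ) :
    Hinf (fun x => ∑ k ∈ Finset.range m, a k * f x ^ k) := by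
  induction m with
  | zero => simpa using Hinf_const 0
  | succ m ih =>
    simp only [Finset.sum_range_succ]
    exact ih.add ((hf.pow m).smul (a m))

/-- Entire functions of `H^∞` functions (uniform limits of polynomials in `f`: Taylor series converge
uniformly on the disc of radius `‖f‖_∞`). -/
theorem Hinf_entire {f : ℝ → ℂ} (hf : Hinf f) (g : ℂ → ℂ) (hg : Differentiable ℂ g) :
    Hinf (fun x => g (f x)) := by
  obtain ⟨hm, C, hC0, hC⟩ := memLp_top_iff.1 hf.mem
  obtain ⟨a, hs⟩ : ∃ a : ℕ → ℂ, ∀ z : ℂ, HasSum (fun k => a k * z ^ k) (g z) := by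
    refine ⟨fun k => ((k.factorial : ℂ))⁻¹ * iteratedDeriv k g 0, fun z => ?_⟩
    have h0 := Complex.hasSum_taylorSeries_of_entire hg 0 z
    have h1 : (fun k : ℕ => ((k.factorial : ℂ))⁻¹ * iteratedDeriv k g 0 * z ^ k)
        = fun n : ℕ => ((n.factorial : ℂ))⁻¹ • (z - 0) ^ n • iteratedDeriv n g 0 := by
      funext k
      simp only [sub_zero, smul_eq_mul]
      ring
    rw [h1]
    exact h0
  have hsum : Summable (fun k => ‖a k‖ * C ^ k) := by
    have h0 := (hs (C : ℂ)).summable.norm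
    have h1 : (fun k => ‖a k‖ * C ^ k) = fun k => ‖a k * (C : ℂ) ^ k‖ := by
      funext k
      rw [norm_mul, norm_pow, Complex.norm_real, Real.norm_eq_abs, abs_of_nonneg hC0]
    rw [h1]
    exact h0
  refine Hinf_lim (hg.continuous.comp_aestronglyMeasurable hm)
    (fun m x => ∑ k ∈ Finset.range m, a k * f x ^ k) (fun m => HB_sum hf a m)
    (fun m => ∑' k, ‖a (k + m)‖ * C ^ (k + m)) (_root_.tendsto_sum_nat_add (fun k => ‖a k‖ * C ^ k)) ?_
  intro m
  unfold BD
  filter_upwards [hC] with x hx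
  have h1 := (hs (f x)).summable.sum_add_tsum_nat_add m
  rw [(hs (f x)).tsum_eq] at h1
  have h2 : (∑ k ∈ Finset.range m, a k * f x ^ k) - g (f x) = -∑' k, a (k + m) * f x ^ (k + m) := by
    rw [← h1]; ring
  rw [h2, norm_neg]
  have h3 : Summable (fun k => ‖a (k + m)‖ * C ^ (k + m)) :=
    (summable_nat_add_iff m).2 hsum
  have h4 : ∀ k, ‖a (k + m) * f x ^ (k + m)‖ ≤ ‖a (k + m)‖ * C ^ (k + m) := by
    intro k
    rw [norm_mul, norm_pow]
    exact mul_le_mul_of_nonneg_left (pow_le_pow_left₀ (norm_nonneg _) hx _) (norm_nonneg _)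
  exact tsum_of_norm_bounded h3.hasSum h4

/-- `H²` functions with equal Fourier coefficients are equal a.e. -/
theorem coef_inj {f g : ℝ → ℂ} (hf : Htwo f) (hg : Htwo g) (h : ∀ n, coef f n = coef g n) :
    f =ᵐ[mu] g := by
  have hd : Htwo (fun x => f x + (-1) * g x) := hf.add (hg.smul (-1))
  have hz : ∀ n : ℤ, HB_F (fun x => f x + (-1) * g x) n = 0 := by
    intro n
    rcases lt_or_ge n 0 with hn | hn
    · obtain ⟨k, rfl⟩ : ∃ k : ℕ, n = -((k : ℤ) + 1) := ⟨(-n - 1).toNat, by omega⟩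
      rw [HB_F_neg]
      exact hd.ha k
    · obtain ⟨k, rfl⟩ := Int.eq_ofNat_of_zero_le hn
      rw [HB_F_add hf.int (hg.int.const_mul _), HB_F_smul]
      have h1 := h k
      unfold coef at h1
      have h2 : ((1 / (2 * Real.pi) : ℝ) : ℂ) ≠ 0 := by
        have := HB_pos
        exact_mod_cast (by positivity : (1 / (2 * Real.pi) : ℝ) ≠ 0)
      have h3 := mul_left_cancel₀ h2 h1
      unfold HB_F
      simp only [Int.cast_natCast]
      rw [h3]
      ring
  have hp := HB_parseval hd.mem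
  have h0 : (fun n : ℤ => ‖HB_F (fun x => f x + (-1) * g x) n‖ ^ 2) = fun _ => 0 := by
    ext n; rw [hz n]; simp
  rw [h0] at hp
  have h1 := hp.unique hasSum_zero
  have h2 : ∫ x, ‖f x + (-1) * g x‖ ^ 2 ∂mu = 0 := by
    rcases mul_eq_zero.1 h1 with h | h
    · exact absurd h HB_pos.ne'
    · exact h
  have h3 := (integral_eq_zero_iff_of_nonneg (fun x => by positivity)
    (hd.mem.integrable_norm_pow (by norm_num))).1 h2
  filter_upwards [h3] with x hx
  have h4 : ‖f x + (-1) * g x‖ ^ 2 = 0 := hx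
  have h5 : f x + (-1) * g x = 0 := by
    have := pow_eq_zero_iff (two_ne_zero) |>.1 h4
    exact norm_eq_zero.1 this
  have h6 : f x - g x = 0 := by rw [← h5]; ring
  exact sub_eq_zero.1 h6

end Pool.H14.SR
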