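import Pool.Agent.H14.SR.Basic
import Pool.Agent.H14.SR.HB
open MeasureTheory Set Filter Topology
noncomputable section
namespace Pool.H14.SR


variable {D : Set (ℝ → ℂ)}

theorem Doug.const (hD : Doug D) (c : ℂ) : (fun _ => c) ∈ D := hD.hinf _ (Hinf_const c)

/-- Uniform limits, in convenient form. -/
theorem Doug.unif (hD : Doug D) (f : ℝ → ℂ) (hf : AEStronglyMeasurable f mu) (u : ℕ → ℝ → ℂ)
    (hu : ∀ n, u n ∈ D) (e : ℕ → ℝ) (he : Tendsto e atTop (𝓝 0))
    (h : ∀ n, BD (fun x => u n x - f x) (e n)) : f ∈ D := by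
  have hmem : MemLp f ⊤ mu := by
    rw [memLp_top_iff]
    obtain ⟨-, C, hC, hB⟩ := memLp_top_iff.1 (hD.mem _ (hu 0))
    refine ⟨hf, C + |e 0|, by positivity, ?_⟩
    have h0 := h 0
    unfold BD at *
    filter_upwards [hB, h0] with x h1 h2
    have : ‖f x‖ ≤ ‖u 0 x‖ + ‖u 0 x - f x‖ := by
      calc ‖f x‖ = ‖u 0 x - (u 0 x - f x)‖ := by congr 1; ring
        _ ≤ _ := norm_sub_le _ _
    linarith [le_abs_self (e 0)]
  refine hD.lim f hmem u hu ?_
  have hle : ∀ n, eLpNorm (u n - f) ⊤ mu ≤ ENNReal.ofReal (e n) := by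
    intro n
    rw [eLpNorm_exponent_top]
    exact eLpNormEssSup_le_of_ae_bound (h n)
  refine tendsto_of_tendsto_of_tendsto_of_le_of_le tendsto_const_nhds ?_ (fun n => zero_le) hle
  have := ENNReal.tendsto_ofReal he
  rwa [ENNReal.ofReal_zero] at this

/-- Approximation form: `f ∈ D` as soon as for every `e > 0` there is `g ∈ D` with `|g - f| ≤ e`. -/
theorem Doug.approx (hD : Doug D) (f : ℝ → ℂ) (hf : AEStronglyMeasurable f mu)
    (h : ∀ e : ℝ, 0 < e → ∃ g ∈ D, BD (fun x => g x - f x) e) : f ∈ D := by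
  choose g hg hb using fun n : ℕ => h (1 / ((n : ℝ) + 1)) (by positivity)
  exact hD.unif f hf g hg _ tendsto_one_div_add_atTop_nhds_zero_nat hb

theorem a1_poly (hD : Doug D) (q : ℝ → ℝ) (hq : (fun x => (q x : ℂ)) ∈ D) (p : Polynomial ℝ) :
    (fun x => ((p.eval (q x) : ℝ) : ℂ)) ∈ D := by
  induction p using Polynomial.induction_on' with
  | add p r hp hr =>
    have := hD.add _ hp _ hr
    convert this using 1
    funext x
    simp
  | monomial n a =>
    have hpow : ∀ n : ℕ, (fun x => ((q x : ℂ)) ^ n) ∈ D := by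
      intro n
      induction n with
      | zero => simpa using hD.const 1
      | succ n ih =>
        have := hD.mul _ ih _ hq
        convert this using 1
        funext x
        simp [pow_succ]
    have := hD.smul (a : ℂ) _ (hpow n)
    convert this using 1
    funext x
    simp

/-- Continuous functional calculus for real valued elements of `D` (Weierstrass). -/
theorem Doug.fc (hD : Doug D) (q : ℝ → ℝ) (hq : (fun x => (q x : ℂ)) ∈ D) (g : ℝ → ℝ)
    (hg : Continuous g) : (fun x => (g (q x) : ℂ)) ∈ D := by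
  obtain ⟨hm, C, hC, hB⟩ := memLp_top_iff.1 (hD.mem _ hq)
  have hqm : AEStronglyMeasurable q mu := by
    have := Complex.continuous_re.comp_aestronglyMeasurable hm
    simpa [Function.comp_def] using this
  have hgm : AEStronglyMeasurable (fun x => (g (q x) : ℂ)) mu :=
    Complex.continuous_ofReal.comp_aestronglyMeasurable (hg.comp_aestronglyMeasurable hqm)
  refine hD.approx _ hgm ?_
  intro e he
  obtain ⟨p, hp⟩ := exists_polynomial_near_of_continuousOn (-C) C g hg.continuousOn e he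
  refine ⟨_, a1_poly hD q hq p, ?_⟩
  unfold BD at *
  filter_upwards [hB] with x hx
  have hx' : |q x| ≤ C := by simpa using hx
  have := hp (q x) (abs_le.1 hx')
  rw [← Complex.ofReal_sub, Complex.norm_real, Real.norm_eq_abs]
  exact this.le

/-- Real valued elements of `D` are in `QD`. -/
theorem Doug.qd_real (hD : Doug D) (q : ℝ → ℝ) (hq : (fun x => (q x : ℂ)) ∈ D) :
    QD D (fun x => (q x : ℂ)) := by
  refine ⟨hq, ?_⟩
  simpa using hq

/-- `g(|b|) ∈ D` for `b ∈ QD` (`|b|² = b conj b`, then functional calculus with `g ∘ sqrt`). -/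
theorem Doug.fc_norm (hD : Doug D) (b : ℝ → ℂ) (hb : QD D b) (g : ℝ → ℝ) (hg : Continuous g) :
    (fun x => (g ‖b x‖ : ℂ)) ∈ D := by
  have h1 : (fun x => ((‖b x‖ ^ 2 : ℝ) : ℂ)) ∈ D := by
    have := hD.mul _ hb.1 _ hb.2
    convert this using 1
    funext x
    simp [Complex.mul_conj, Complex.normSq_eq_norm_sq]
  have h2 := hD.fc (fun x => ‖b x‖ ^ 2) h1 (fun t => g (Real.sqrt t))
    (hg.comp Real.continuous_sqrt)
  convert h2 using 1
  funext x
  simp [Real.sqrt_sq (norm_nonneg (b x))]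

theorem QD.add (hD : Doug D) {f g : ℝ → ℂ} (hf : QD D f) (hg : QD D g) :
    QD D (fun x => f x + g x) := by
  refine ⟨hD.add _ hf.1 _ hg.1, ?_⟩
  have := hD.add _ hf.2 _ hg.2
  convert this using 1
  funext x
  simp

theorem QD.mul (hD : Doug D) {f g : ℝ → ℂ} (hf : QD D f) (hg : QD D g) :
    QD D (fun x => f x * g x) := by
  refine ⟨hD.mul _ hf.1 _ hg.1, ?_⟩
  have := hD.mul _ hf.2 _ hg.2
  convert this using 1
  funext x
  simp

theorem QD.conj {f : ℝ → ℂ} (hf : QD D f) : QD D (fun x => starRingEnd ℂ (f x)) := by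
  refine ⟨hf.2, ?_⟩
  simpa using hf.1

theorem QDA.hinf (hD : Doug D) {f : ℝ → ℂ} (hf : QDA D f) : Hinf f :=
  ⟨hD.mem _ hf.1.1, hf.2⟩

theorem QDA.add (hD : Doug D) {f g : ℝ → ℂ} (hf : QDA D f) (hg : QDA D g) :
    QDA D (fun x => f x + g x) :=
  ⟨QD.add hD hf.1 hg.1, ((QDA.hinf hD hf).add (QDA.hinf hD hg)).ha⟩

theorem QDA.mul (hD : Doug D) {f g : ℝ → ℂ} (hf : QDA D f) (hg : QDA D g) :
    QDA D (fun x => f x * g x) :=
  ⟨QD.mul hD hf.1 hg.1, ((QDA.hinf hD hf).mul (QDA.hinf hD hg)).ha⟩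

/-- Uniform limits of `QDA` functions are in `QDA`. -/
theorem QDA.approx (hD : Doug D) (f : ℝ → ℂ) (hf : AEStronglyMeasurable f mu)
    (h : ∀ e : ℝ, 0 < e → ∃ g, QDA D g ∧ BD (fun x => g x - f x) e) : QDA D f := by
  refine ⟨⟨?_, ?_⟩, ?_⟩
  · refine hD.approx f hf ?_
    intro e he
    obtain ⟨g, hg, hb⟩ := h e he
    exact ⟨g, hg.1.1, hb⟩
  · refine hD.approx _ (Complex.continuous_conj.comp_aestronglyMeasurable hf) ?_
    intro e he
    obtain ⟨g, hg, hb⟩ := h e he
    refine ⟨_, hg.1.2, ?_⟩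
    unfold BD at *
    filter_upwards [hb] with x hx
    rw [← map_sub, RCLike.norm_conj]
    exact hx
  · choose g hg hb using fun n : ℕ => h (1 / ((n : ℝ) + 1)) (by positivity)
    exact (Hinf_lim hf g (fun n => QDA.hinf hD (hg n)) _ tendsto_one_div_add_atTop_nhds_zero_nat
      hb).ha

end Pool.H14.SR
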