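import Pool.Agent.H14.SR.Basic
import Pool.Agent.H14.SR.A1
open MeasureTheory Set Filter Topology
noncomputable section
namespace Pool.H14.SR


variable {D : Set (ℝ → ℂ)}

/-- (A2) If `F ∈ (H^∞)^{-1}` (inverse `G`) and `|F| ∈ D` then `F, G ∈ QDA`:
`conj F = |F|² G`, `conj G = F / |F|²` and `1/|F|² = g(|F|)` with `g` continuous (`|F| ≥ c > 0` a.e.). -/
theorem A2 (hD : Doug D) (F G : ℝ → ℂ) (hF : Hinf F) (hG : Hinf G)
    (hFG : ∀ᵐ x ∂mu, F x * G x = 1) (h : (fun x => (‖F x‖ : ℂ)) ∈ D) : QDA D F ∧ QDA D G := by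
  have hFD := hD.hinf _ hF
  have hGD := hD.hinf _ hG
  obtain ⟨-, C, hC, hB⟩ := memLp_top_iff.1 hG.mem
  unfold BD at hB
  refine ⟨⟨⟨hFD, ?_⟩, hF.ha⟩, ⟨⟨hGD, ?_⟩, hG.ha⟩⟩
  · have h1 := hD.mul _ (hD.mul _ h _ h) _ hGD
    refine hD.ae _ h1 _ ?_
    filter_upwards [hFG] with x hx
    have h2 : starRingEnd ℂ (F x) * F x = (‖F x‖ : ℂ) * (‖F x‖ : ℂ) := by
      rw [mul_comm, Complex.mul_conj, Complex.normSq_eq_norm_sq]
      push_cast
      ring
    show starRingEnd ℂ (F x) = (‖F x‖ : ℂ) * (‖F x‖ : ℂ) * G x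
    rw [← h2, mul_assoc, hx, mul_one]
  · set c : ℝ := 1 / (C + 1) with hc
    have hc0 : 0 < c := by positivity
    have hcont : Continuous (fun t : ℝ => 1 / (max t c) ^ 2) := by
      refine continuous_const.div ((continuous_id.max continuous_const).pow 2) ?_
      intro t
      have : 0 < max t c := lt_max_of_lt_right hc0
      positivity
    have h1 := hD.fc (fun x => ‖F x‖) h _ hcont
    have h2 := hD.mul _ hFD _ h1
    refine hD.ae _ h2 _ ?_
    filter_upwards [hFG, hB] with x hx hb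
    have hn : ‖F x‖ * ‖G x‖ = 1 := by rw [← norm_mul, hx, norm_one]
    have hF0 : F x ≠ 0 := by
      intro h0; rw [h0, zero_mul] at hx; exact zero_ne_one hx
    have hge : c ≤ ‖F x‖ := by
      rw [hc, div_le_iff₀ (by positivity)]
      have : ‖F x‖ * ‖G x‖ ≤ ‖F x‖ * (C + 1) :=
        mul_le_mul_of_nonneg_left (by linarith) (norm_nonneg _)
      linarith
    show starRingEnd ℂ (G x) = F x * ((1 / (max ‖F x‖ c) ^ 2 : ℝ) : ℂ)
    rw [max_eq_left hge]
    have hFn : (‖F x‖ : ℂ) ≠ 0 := by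
      exact_mod_cast (norm_ne_zero_iff.2 hF0)
    have h3 : F x * starRingEnd ℂ (F x) = (‖F x‖ : ℂ) ^ 2 := by
      rw [Complex.mul_conj, Complex.normSq_eq_norm_sq]
      push_cast
      rfl
    have h4 : starRingEnd ℂ (F x) * starRingEnd ℂ (G x) = 1 := by
      rw [← map_mul, hx, map_one]
    push_cast
    field_simp
    rw [← h3]
    linear_combination (F x) * h4

/-- (A3) If `U ∈ D`, `|U| = 1`, `|U - h| ≤ 1/8` for an invertible `h ∈ H^∞` (inverse `g`), then
`conj U ∈ D`: `|h| ≥ 7/8`, `X = gU ∈ D`, `|X - 1| = |g||U - h| ≤ 1/7`, so `X^{-1} = Σ (1-X)^n ∈ D` and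
`conj U = U^{-1} = X^{-1} g`. -/
theorem A3 (hD : Doug D) (U h g : ℝ → ℂ) (hU : U ∈ D) (hU1 : ∀ᵐ x ∂mu, ‖U x‖ = 1)
    (hh : Hinf h) (hg : Hinf g) (hhg : ∀ᵐ x ∂mu, h x * g x = 1)
    (hUh : BD (fun x => U x - h x) (1 / 8)) : QD D U := by
  refine ⟨hU, ?_⟩
  have hgD := hD.hinf _ hg
  have hX := hD.mul _ hgD _ hU
  have hbd : ∀ᵐ x ∂mu, ‖1 - g x * U x‖ ≤ 1 / 7 := by
    unfold BD at hUh
    filter_upwards [hU1, hhg, hUh] with x h1 h2 h3
    have h4 : 1 ≤ ‖U x - h x‖ + ‖h x‖ := by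
      calc (1 : ℝ) = ‖(U x - h x) + h x‖ := by rw [sub_add_cancel, h1]
        _ ≤ _ := norm_add_le _ _
    have h5 : 7 / 8 ≤ ‖h x‖ := by linarith
    have h6 : ‖h x‖ * ‖g x‖ = 1 := by rw [← norm_mul, h2, norm_one]
    have h7 : ‖g x‖ ≤ 8 / 7 := by
      nlinarith [norm_nonneg (g x)]
    have h8 : 1 - g x * U x = -(g x * (U x - h x)) := by
      linear_combination -h2
    rw [h8, norm_neg, norm_mul]
    calc ‖g x‖ * ‖U x - h x‖ ≤ 8 / 7 * (1 / 8) :=
          mul_le_mul h7 h3 (norm_nonneg _) (by norm_num)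
      _ = 1 / 7 := by norm_num
  have hY : (fun x => 1 - g x * U x) ∈ D := by
    have := hD.add _ (hD.const 1) _ (hD.smul (-1) _ hX)
    convert this using 1
    funext x
    simp [sub_eq_add_neg]
  have hYpow : ∀ n : ℕ, (fun x => (1 - g x * U x) ^ n) ∈ D := by
    intro n
    induction n with
    | zero => simpa using hD.const 1
    | succ n ih =>
      have := hD.mul _ ih _ hY
      convert this using 1
      funext x
      simp [pow_succ]
  have hsum : ∀ n : ℕ, (fun x => ∑ k ∈ Finset.range n, (1 - g x * U x) ^ k) ∈ D := by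
    intro n
    induction n with
    | zero => simpa using hD.const 0
    | succ n ih =>
      have := hD.add _ ih _ (hYpow n)
      convert this using 1
      funext x
      simp [Finset.sum_range_succ]
  have hgm : AEStronglyMeasurable g mu := hg.mem.1
  have hUm : AEStronglyMeasurable U mu := (hD.mem _ hU).1
  have hfm : AEStronglyMeasurable (fun x => (g x * U x)⁻¹) mu := by
    have := (hgm.mul hUm).aemeasurable.inv.aestronglyMeasurable
    exact this
  have hinv : (fun x => (g x * U x)⁻¹) ∈ D := by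
    refine hD.unif _ hfm _ hsum (fun n => 7 / 6 * (1 / 7) ^ n) ?_ ?_
    · have := (tendsto_pow_atTop_nhds_zero_of_lt_one (r := (1 / 7 : ℝ)) (by norm_num)
        (by norm_num)).const_mul (7 / 6)
      simpa using this
    · intro n
      unfold BD
      filter_upwards [hbd] with x hx
      set X := g x * U x with hXd
      have h1 : 6 / 7 ≤ ‖X‖ := by
        have : (1 : ℝ) ≤ ‖1 - X‖ + ‖X‖ := by
          calc (1 : ℝ) = ‖(1 - X) + X‖ := by rw [sub_add_cancel, norm_one]
            _ ≤ _ := norm_add_le _ _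
        linarith
      have hX0 : X ≠ 0 := by
        intro h0; rw [h0, norm_zero] at h1; norm_num at h1
      have h2 : X * ∑ k ∈ Finset.range n, (1 - X) ^ k = 1 - (1 - X) ^ n := by
        have := mul_neg_geom_sum (1 - X) n
        rw [← this]
        congr 1
        ring
      have h3 : ∑ k ∈ Finset.range n, (1 - X) ^ k - X⁻¹ = -((1 - X) ^ n * X⁻¹) := by
        have : ∑ k ∈ Finset.range n, (1 - X) ^ k = (1 - (1 - X) ^ n) * X⁻¹ := by
          rw [← h2]; field_simp
        rw [this]; ring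
      rw [h3, norm_neg, norm_mul, norm_pow, norm_inv, mul_comm]
      refine mul_le_mul ?_ (pow_le_pow_left₀ (norm_nonneg _) hx n) (by positivity) (by norm_num)
      rw [inv_le_comm₀ (by linarith) (by norm_num)]
      norm_num
      linarith
  refine hD.ae _ (hD.mul _ hinv _ hgD) _ ?_
  filter_upwards [hU1, hhg] with x h1 h2
  show starRingEnd ℂ (U x) = (g x * U x)⁻¹ * g x
  have hg0 : g x ≠ 0 := by
    intro h0; rw [h0, mul_zero] at h2; exact zero_ne_one h2
  have hU0 : U x ≠ 0 := by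
    intro h0; rw [h0, norm_zero] at h1; exact zero_ne_one h1
  have h3 : U x * starRingEnd ℂ (U x) = 1 := by
    rw [Complex.mul_conj, Complex.normSq_eq_norm_sq, h1]; simp
  field_simp
  linear_combination h3

end Pool.H14.SR
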