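import Pool.Agent.H14.SR.Basic
import Pool.Agent.H14.SR.HB
open MeasureTheory Set Filter Topology
noncomputable section
namespace Pool.H14.SR

/-- integral against `e^{ikx}` -/
def hjI (f : ℝ → ℂ) (k : ℤ) : ℂ :=
  ∫ x, Complex.exp ((k : ℂ) * Complex.I * (x : ℂ)) * f x ∂mu

/-- the character `e^{ikx}` -/
def hjE (k : ℤ) : ℝ → ℂ := fun x => Complex.exp ((k : ℂ) * Complex.I * (x : ℂ))

theorem hj_conj_int (k : ℤ) : starRingEnd ℂ (k : ℂ) = (k : ℂ) := by
  have : (k : ℂ) = ((k : ℝ) : ℂ) := by push_cast; rfl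
  rw [this, Complex.conj_ofReal]

theorem hj_norm_exp (k : ℤ) (x : ℝ) : ‖Complex.exp ((k : ℂ) * Complex.I * (x : ℂ))‖ = 1 := by
  have : (k : ℂ) * Complex.I * (x : ℂ) = ((k * x : ℝ) : ℂ) * Complex.I := by push_cast; ring
  rw [this, Complex.norm_exp_ofReal_mul_I]

theorem hj_cont (k : ℤ) : Continuous (hjE k) := by
  unfold hjE
  fun_prop

theorem hj_memLp (k : ℤ) (p : ENNReal) : MemLp (hjE k) p mu :=
  MemLp.of_bound (hj_cont k).aestronglyMeasurable 1 (ae_of_all _ fun x => (hj_norm_exp k x).le)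

theorem hj_int {f : ℝ → ℂ} (hf : MemLp f 2 mu) (k : ℤ) :
    Integrable (fun x : ℝ => Complex.exp ((k : ℂ) * Complex.I * (x : ℂ)) * f x) mu :=
  (hf.integrable one_le_two).bdd_mul (c := 1) (hj_cont k).aestronglyMeasurable
    (ae_of_all _ fun x => (hj_norm_exp k x).le)

theorem hj_congr {f g : ℝ → ℂ} (h : f =ᵐ[mu] g) (k : ℤ) : hjI f k = hjI g k := by
  unfold hjI
  apply integral_congr_ae
  filter_upwards [h] with x hx
  rw [hx]

theorem hj_add {f g : ℝ → ℂ} (hf : MemLp f 2 mu) (hg : MemLp g 2 mu) (k : ℤ) :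
    hjI (fun x => f x + g x) k = hjI f k + hjI g k := by
  unfold hjI
  rw [← integral_add (hj_int hf k) (hj_int hg k)]
  congr 1
  ext x
  ring

theorem hj_sub {f g : ℝ → ℂ} (hf : MemLp f 2 mu) (hg : MemLp g 2 mu) (k : ℤ) :
    hjI (fun x => f x - g x) k = hjI f k - hjI g k := by
  unfold hjI
  rw [← integral_sub (hj_int hf k) (hj_int hg k)]
  congr 1
  ext x
  ring

theorem hj_smul (c : ℂ) (f : ℝ → ℂ) (k : ℤ) :
    hjI (fun x => c * f x) k = c * hjI f k := by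
  unfold hjI
  rw [← integral_const_mul]
  congr 1
  ext x
  ring

theorem hj_conj (f : ℝ → ℂ) (k : ℤ) :
    hjI (fun x => starRingEnd ℂ (f x)) k = starRingEnd ℂ (hjI f (-k)) := by
  unfold hjI
  rw [← integral_conj]
  congr 1
  ext x
  rw [map_mul, ← Complex.exp_conj]
  congr 2
  rw [map_mul, map_mul, Complex.conj_I, Complex.conj_ofReal]
  push_cast
  rw [map_neg, hj_conj_int]
  ring

theorem hj_one (k : ℤ) : hjI (fun _ => 1) k = if k = 0 then ((2 * Real.pi : ℝ) : ℂ) else 0 := by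
  unfold hjI mu
  rw [← intervalIntegral.integral_of_le (by positivity)]
  by_cases hk : k = 0
  · rw [if_pos hk, hk]
    simp
  · rw [if_neg hk]
    have h1 : (k : ℂ) * Complex.I ≠ 0 :=
      mul_ne_zero (by exact_mod_cast hk) Complex.I_ne_zero
    have h2 : (∫ x in (0 : ℝ)..(2 * Real.pi), Complex.exp ((k : ℂ) * Complex.I * (x : ℂ)) * 1)
        = ∫ x in (0 : ℝ)..(2 * Real.pi), Complex.exp (((k : ℂ) * Complex.I) * (x : ℂ)) := by
      congr 1
      ext x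
      rw [mul_one]
    rw [h2, integral_exp_mul_complex h1]
    have h3 : (k : ℂ) * Complex.I * ((2 * Real.pi : ℝ) : ℂ) = (k : ℂ) * (2 * Real.pi * Complex.I) := by
      push_cast
      ring
    rw [h3, Complex.exp_int_mul_two_pi_mul_I]
    simp

theorem hj_const (c : ℂ) (k : ℤ) :
    hjI (fun _ => c) k = if k = 0 then c * ((2 * Real.pi : ℝ) : ℂ) else 0 := by
  have h := hj_smul c (fun _ => 1) k
  simp only [mul_one] at h
  rw [h, hj_one]
  split_ifs <;> simp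

theorem hj_HA (f : ℝ → ℂ) : HA f ↔ ∀ n : ℕ, hjI f ((n : ℤ) + 1) = 0 := by
  unfold HA hjI mu
  constructor
  · intro h n
    have := h n
    push_cast
    exact this
  · intro h n
    have := h n
    push_cast at this
    exact this

theorem hj_coef (f : ℝ → ℂ) (n : ℕ) :
    coef f n = ((1 / (2 * Real.pi) : ℝ) : ℂ) * hjI f (-(n : ℤ)) := by
  unfold coef hjI mu
  congr 1
  congr 1
  ext x
  congr 2
  push_cast
  ring

/-- the characters in `L²` -/
def hjL (k : ℤ) : Lp ℂ 2 mu := (hj_memLp k 2).toLp (hjE k)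

theorem hj_inner (k : ℤ) (f : Lp ℂ 2 mu) :
    inner ℂ (hjL k) f = hjI (f : ℝ → ℂ) (-k) := by
  rw [L2.inner_def]
  unfold hjI
  apply integral_congr_ae
  filter_upwards [(hj_memLp k 2).coeFn_toLp] with x hx
  show inner ℂ ((hjL k : ℝ → ℂ) x) ((f : ℝ → ℂ) x) = _
  have hx' : (hjL k : ℝ → ℂ) x = hjE k x := hx
  rw [hx']
  unfold hjE
  rw [RCLike.inner_apply, mul_comm]
  congr 1
  rw [← Complex.exp_conj]
  congr 1
  rw [map_mul, map_mul, Complex.conj_I, Complex.conj_ofReal, hj_conj_int]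
  push_cast
  ring

/-- `H²` as a subspace of `L²` -/
def hjK : Submodule ℂ (Lp ℂ 2 mu) :=
  (Submodule.span ℂ (Set.range fun n : ℕ => hjL (-((n : ℤ) + 1))))ᗮ

instance : hjK.HasOrthogonalProjection := by
  unfold hjK
  infer_instance

theorem hj_mem_K (f : Lp ℂ 2 mu) : f ∈ hjK ↔ HA (f : ℝ → ℂ) := by
  rw [hj_HA]
  unfold hjK
  rw [Submodule.mem_orthogonal]
  constructor
  · intro h n
    have := h _ (Submodule.subset_span ⟨n, rfl⟩)
    rw [hj_inner, neg_neg] at this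
    exact this
  · intro h u hu
    induction hu using Submodule.span_induction with
    | mem x hx =>
      obtain ⟨n, rfl⟩ := hx
      simp only
      rw [hj_inner, neg_neg]
      exact h n
    | zero => exact inner_zero_left _
    | add x y _ _ hx hy => rw [inner_add_left, hx, hy, add_zero]
    | smul a x _ hx => rw [inner_smul_left, hx, mul_zero]

theorem hj_L_mem (n : ℕ) : hjL (n : ℤ) ∈ hjK := by
  rw [hj_mem_K, hj_HA]
  intro m
  have h1 : hjI (hjL (n : ℤ) : ℝ → ℂ) ((m : ℤ) + 1) = hjI (hjE n) ((m : ℤ) + 1) :=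
    hj_congr (hj_memLp (n : ℤ) 2).coeFn_toLp _
  rw [h1]
  have h2 : hjI (hjE n) ((m : ℤ) + 1) = hjI (fun _ => 1) ((n : ℤ) + ((m : ℤ) + 1)) := by
    unfold hjI hjE
    congr 1
    ext x
    rw [← Complex.exp_add, mul_one]
    congr 1
    push_cast
    ring
  rw [h2, hj_one, if_neg]
  omega

theorem hj_memLp_coe (f : Lp ℂ 2 mu) : MemLp (f : ℝ → ℂ) 2 mu := Lp.memLp f

/-- complexification -/
def hjC : Lp ℝ 2 mu →L[ℝ] Lp ℂ 2 mu := Complex.ofRealCLM.compLpL 2 mu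

theorem hj_C (u : Lp ℝ 2 mu) : (hjC u : ℝ → ℂ) =ᵐ[mu] fun x => (((u : ℝ → ℝ) x : ℝ) : ℂ) :=
  Complex.ofRealCLM.coeFn_compLpL u

theorem hj_C_norm (u : Lp ℝ 2 mu) : ‖hjC u‖ ≤ ‖u‖ := by
  have h := Complex.ofRealCLM.norm_compLp_le u
  rw [Complex.ofRealCLM_norm, one_mul] at h
  exact h

/-- the zeroth Fourier coefficient of a real function is real -/
theorem hj_c_real (u : Lp ℝ 2 mu) :
    starRingEnd ℂ (coef (hjC u : ℝ → ℂ) 0) = coef (hjC u : ℝ → ℂ) 0 := by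
  rw [hj_coef, map_mul, Complex.conj_ofReal]
  congr 1
  have h1 := hj_conj (hjC u : ℝ → ℂ) 0
  have h2 : hjI (fun x => starRingEnd ℂ ((hjC u : ℝ → ℂ) x)) 0 = hjI (hjC u : ℝ → ℂ) 0 := by
    apply hj_congr
    filter_upwards [hj_C u] with x hx
    rw [hx, Complex.conj_ofReal]
  rw [h2] at h1
  simp only [neg_zero, Nat.cast_zero] at h1 ⊢
  exact h1.symm

theorem hj_conj_real (u : Lp ℝ 2 mu) (k : ℤ) :
    starRingEnd ℂ (hjI (hjC u : ℝ → ℂ) (-k)) = hjI (hjC u : ℝ → ℂ) k := by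
  have h1 := hj_conj (hjC u : ℝ → ℂ) k
  have h2 : hjI (fun x => starRingEnd ℂ ((hjC u : ℝ → ℂ) x)) k = hjI (hjC u : ℝ → ℂ) k := by
    apply hj_congr
    filter_upwards [hj_C u] with x hx
    rw [hx, Complex.conj_ofReal]
  rw [h2] at h1
  exact h1.symm

/-- positive coefficients of the projection -/
theorem hj_P_coef (v : Lp ℂ 2 mu) (n : ℕ) :
    hjI (hjK.starProjection v : ℝ → ℂ) (-(n : ℤ)) = hjI (v : ℝ → ℂ) (-(n : ℤ)) := by
  rw [← hj_inner, ← hj_inner]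
  have h1 := hjK.starProjection_inner_eq_zero v (hjL n) (hj_L_mem n)
  rw [inner_sub_left, sub_eq_zero] at h1
  rw [← inner_conj_symm, ← h1, inner_conj_symm]

theorem hj_P_HA (v : Lp ℂ 2 mu) : HA (hjK.starProjection v : ℝ → ℂ) :=
  (hj_mem_K _).1 (hjK.starProjection_apply_mem v)

theorem hj_conj_memLp {f : ℝ → ℂ} (hf : MemLp f 2 mu) :
    MemLp (fun x => starRingEnd ℂ (f x)) 2 mu := hf.star

/-- key identity: `v = P v + conj (P v) - c` -/
theorem hj_key (u : Lp ℝ 2 mu) :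
    ∀ᵐ x ∂mu, (((u : ℝ → ℝ) x : ℝ) : ℂ) = (hjK.starProjection (hjC u) : ℝ → ℂ) x
      + starRingEnd ℂ ((hjK.starProjection (hjC u) : ℝ → ℂ) x)
      - coef (hjC u : ℝ → ℂ) 0 := by
  set v := hjC u with hv
  set p := hjK.starProjection v with hp
  set c := coef (v : ℝ → ℂ) 0 with hc
  have mv := hj_memLp_coe v
  have mp := hj_memLp_coe p
  have mcp := hj_conj_memLp mp
  have mc : MemLp (fun _ : ℝ => c) 2 mu := memLp_const c
  have m1 : MemLp (fun x => (v : ℝ → ℂ) x - (p : ℝ → ℂ) x) 2 mu := mv.sub mp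
  have m2 : MemLp (fun x => ((v : ℝ → ℂ) x - (p : ℝ → ℂ) x)
      - starRingEnd ℂ ((p : ℝ → ℂ) x)) 2 mu := m1.sub mcp
  have m3 : MemLp (fun x => (((v : ℝ → ℂ) x - (p : ℝ → ℂ) x)
      - starRingEnd ℂ ((p : ℝ → ℂ) x)) + c) 2 mu := m2.add mc
  have hI : ∀ k : ℤ, hjI (fun x => (((v : ℝ → ℂ) x - (p : ℝ → ℂ) x)
      - starRingEnd ℂ ((p : ℝ → ℂ) x)) + c) k
      = hjI (v : ℝ → ℂ) k - hjI (p : ℝ → ℂ) k - starRingEnd ℂ (hjI (p : ℝ → ℂ) (-k))
        + hjI (fun _ => c) k := by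
    intro k
    rw [hj_add m2 mc, hj_sub m1 mcp, hj_sub mv mp, hj_conj]
  have hpos : ∀ n : ℕ, hjI (p : ℝ → ℂ) (-(n : ℤ)) = hjI (v : ℝ → ℂ) (-(n : ℤ)) :=
    fun n => hj_P_coef v n
  have hneg : ∀ n : ℕ, hjI (p : ℝ → ℂ) ((n : ℤ) + 1) = 0 := (hj_HA _).1 (hj_P_HA v)
  have hw : (fun x => (((v : ℝ → ℂ) x - (p : ℝ → ℂ) x)
      - starRingEnd ℂ ((p : ℝ → ℂ) x)) + c) =ᵐ[mu] fun _ => (0 : ℂ) := by
    apply coef_inj
    · refine ⟨m3, ?_⟩
      rw [hj_HA]
      intro n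
      rw [hI, hneg n]
      have h1 : -((n : ℤ) + 1) = -((n + 1 : ℕ) : ℤ) := by push_cast; ring
      rw [h1, hpos (n + 1), ← h1, hj_conj_real u ((n : ℤ) + 1), hj_const, if_neg (by omega)]
      ring
    · refine ⟨memLp_const 0, ?_⟩
      rw [hj_HA]
      intro n
      rw [hj_const]
      split_ifs <;> simp
    · intro n
      rw [hj_coef, hj_coef, hj_const, hI, hpos n, hj_const]
      by_cases hn : n = 0
      · subst hn
        have h2 : hjI (p : ℝ → ℂ) (- -(((0 : ℕ) : ℤ))) = hjI (v : ℝ → ℂ) 0 := by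
          have := hpos 0
          simpa using this
        rw [h2]
        have h3 : starRingEnd ℂ (hjI (v : ℝ → ℂ) 0) = hjI (v : ℝ → ℂ) 0 := by
          have := hj_conj_real u 0
          simpa using this
        rw [h3]
        have h4 : c = ((1 / (2 * Real.pi) : ℝ) : ℂ) * hjI (v : ℝ → ℂ) 0 := by
          rw [hc, hj_coef]
          simp
        have hpi : (Real.pi : ℂ) ≠ 0 := by exact_mod_cast Real.pi_ne_zero
        simp only [Nat.cast_zero, neg_zero, if_true]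
        rw [h4]
        push_cast
        field_simp
        ring
      · obtain ⟨m, rfl⟩ := Nat.exists_eq_succ_of_ne_zero hn
        have h2 : - -(((m.succ : ℕ) : ℤ)) = (m : ℤ) + 1 := by push_cast; ring
        rw [h2, hneg m]
        have h3 : -((m.succ : ℕ) : ℤ) ≠ 0 := by
          push_cast
          omega
        rw [if_neg h3, if_neg h3]
        simp
  filter_upwards [hw, hj_C u] with x hx hx2
  rw [← hx2]
  have : (v : ℝ → ℂ) x - (p : ℝ → ℂ) x - starRingEnd ℂ ((p : ℝ → ℂ) x) + c = 0 := hx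
  linear_combination this

/-- the complex linear part of `J` -/
def hjA : Lp ℂ 2 mu →L[ℂ] Lp ℂ 2 mu :=
  (2 : ℂ) • hjK.starProjection
    - ((1 / (2 * Real.pi) : ℝ) : ℂ) • (innerSL ℂ (hjL 0)).smulRight (hjL 0)

/-- the conjugation operator -/
def hjJ : Lp ℝ 2 mu →L[ℝ] Lp ℂ 2 mu := (hjA.restrictScalars ℝ).comp hjC

theorem hj_J_eq (u : Lp ℝ 2 mu) :
    hjJ u = (2 : ℂ) • hjK.starProjection (hjC u) - coef (hjC u : ℝ → ℂ) 0 • hjL 0 := by
  show hjA (hjC u) = _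
  unfold hjA
  rw [_root_.sub_apply, _root_.smul_apply,
    _root_.smul_apply, ContinuousLinearMap.smulRight_apply, innerSL_apply_apply,
    hj_inner, smul_smul, hj_coef]
  simp

theorem hj_L0 : (hjL 0 : ℝ → ℂ) =ᵐ[mu] fun _ => (1 : ℂ) := by
  filter_upwards [(hj_memLp 0 2).coeFn_toLp] with x hx
  show (hjL 0 : ℝ → ℂ) x = 1
  have hx' : (hjL 0 : ℝ → ℂ) x = hjE 0 x := hx
  rw [hx']
  unfold hjE
  simp

theorem hj_J_ae (u : Lp ℝ 2 mu) :
    (hjJ u : ℝ → ℂ) =ᵐ[mu] fun x => 2 * (hjK.starProjection (hjC u) : ℝ → ℂ) x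
      - coef (hjC u : ℝ → ℂ) 0 := by
  rw [hj_J_eq]
  filter_upwards [Lp.coeFn_sub ((2 : ℂ) • hjK.starProjection (hjC u))
    (coef (hjC u : ℝ → ℂ) 0 • hjL 0), Lp.coeFn_smul (2 : ℂ) (hjK.starProjection (hjC u)),
    Lp.coeFn_smul (coef (hjC u : ℝ → ℂ) 0) (hjL 0), hj_L0] with x h1 h2 h3 h4
  rw [h1, Pi.sub_apply, h2, h3, Pi.smul_apply, Pi.smul_apply, h4]
  simp

/-- **The conjugation operator**: `J u = u + i ũ`.

Proof: for `u ∈ L²` real with Fourier coefficients `û(n)` (`n ∈ ℤ`, `û(-n) = conj û(n)`), put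
`J u = û(0) + 2 Σ_{n≥1} û(n) e^{inx}` (`L²` convergent, Parseval).  `Re (J u) = u`, and
`‖J u‖² = 2π(|û(0)|² + 4 Σ_{n≥1} |û(n)|²) ≤ 2 ‖u‖²`. -/
theorem conjOp : ∃ J : Lp ℝ 2 mu →L[ℝ] Lp ℂ 2 mu,
    (∀ u : Lp ℝ 2 mu, ∀ᵐ x ∂mu, ((J u : ℝ → ℂ) x).re = (u : ℝ → ℝ) x) ∧
    (∀ u : Lp ℝ 2 mu, HA (J u : ℝ → ℂ)) ∧
    (∀ u : Lp ℝ 2 mu, ‖J u‖ ≤ Real.sqrt 2 * ‖u‖) ∧
    (∀ (u : Lp ℝ 2 mu) (n : ℕ), coef (J u : ℝ → ℂ) n
      = (if n = 0 then 1 else 2) * coef (fun x => ((u : ℝ → ℝ) x : ℂ)) n) := by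
  have hJI : ∀ (u : Lp ℝ 2 mu) (k : ℤ), hjI (hjJ u : ℝ → ℂ) k
      = 2 * hjI (hjK.starProjection (hjC u) : ℝ → ℂ) k
        - hjI (fun _ => coef (hjC u : ℝ → ℂ) 0) k := by
    intro u k
    rw [hj_congr (hj_J_ae u) k]
    rw [hj_sub (f := fun x => 2 * (hjK.starProjection (hjC u) : ℝ → ℂ) x)
      (g := fun _ => coef (hjC u : ℝ → ℂ) 0)
      ((hj_memLp_coe _).const_mul 2) (memLp_const _), hj_smul]
  refine ⟨hjJ, ?_, ?_, ?_, ?_⟩
  · intro u
    filter_upwards [hj_J_ae u, hj_key u] with x h1 h2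
    rw [h1]
    have h3 := congrArg Complex.re h2
    rw [Complex.ofReal_re, Complex.sub_re, Complex.add_re, Complex.conj_re] at h3
    rw [Complex.sub_re, Complex.mul_re]
    simp only [Complex.re_ofNat, Complex.im_ofNat, zero_mul, sub_zero]
    linarith
  · intro u
    rw [hj_HA]
    intro n
    rw [hJI, (hj_HA _).1 (hj_P_HA (hjC u)) n, hj_const, if_neg (by omega)]
    ring
  · intro u
    set v := hjC u with hv
    set p := hjK.starProjection v with hp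
    set c := coef (v : ℝ → ℂ) 0 with hc
    have hpyth : ‖v‖ ^ 2 = ‖p‖ ^ 2 + ‖v - p‖ ^ 2 := by
      have h1 := hjK.starProjection_inner_eq_zero v p (hjK.starProjection_apply_mem v)
      have h2 : inner ℂ p (v - p) = 0 := by
        rw [← inner_conj_symm, h1, map_zero]
      have h3 := norm_add_sq_eq_norm_sq_add_norm_sq_of_inner_eq_zero p (v - p) h2
      rw [add_sub_cancel] at h3
      nlinarith [h3]
    have hs : ‖v - p‖ = ‖p - c • hjL 0‖ := by
      have h1 : ∀ᵐ x ∂mu, ‖((v - p : Lp ℂ 2 mu) : ℝ → ℂ) x‖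
          = ‖((p - c • hjL 0 : Lp ℂ 2 mu) : ℝ → ℂ) x‖ := by
        filter_upwards [Lp.coeFn_sub v p, Lp.coeFn_sub p (c • hjL 0),
          Lp.coeFn_smul c (hjL 0), hj_L0, hj_key u, hj_C u] with x h1 h2 h3 h4 h5 h6
        rw [h1, h2, Pi.sub_apply, Pi.sub_apply, h3, Pi.smul_apply, h4]
        have h7 : (v : ℝ → ℂ) x - (p : ℝ → ℂ) x
            = starRingEnd ℂ ((p : ℝ → ℂ) x - c • (1 : ℂ)) := by
          rw [h6, h5, smul_eq_mul, mul_one, map_sub]
          rw [hc, hj_c_real u]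
          ring
        rw [h7, RCLike.norm_conj]
      apply le_antisymm
      · exact Lp.norm_le_norm_of_ae_le (h1.mono fun x hx => hx.le)
      · exact Lp.norm_le_norm_of_ae_le (h1.mono fun x hx => hx.ge)
    have hJ : hjJ u = p + (p - c • hjL 0) := by
      rw [hj_J_eq, two_smul]
      abel
    have hpar := parallelogram_law_with_norm ℂ p (p - c • hjL 0)
    have h4 : ‖hjJ u‖ ^ 2 ≤ 2 * ‖u‖ ^ 2 := by
      rw [hJ]
      have h5 : ‖v‖ ^ 2 ≤ ‖u‖ ^ 2 := by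
        have := hj_C_norm u
        gcongr
      have h6 : 0 ≤ ‖p - (p - c • hjL 0)‖ ^ 2 := by positivity
      rw [hs] at hpyth
      nlinarith
    have h5 : ‖hjJ u‖ = Real.sqrt (‖hjJ u‖ ^ 2) := (Real.sqrt_sq (norm_nonneg _)).symm
    have h6 : Real.sqrt 2 * ‖u‖ = Real.sqrt (2 * ‖u‖ ^ 2) := by
      rw [Real.sqrt_mul (by norm_num), Real.sqrt_sq (norm_nonneg _)]
    rw [h5, h6]
    exact Real.sqrt_le_sqrt h4
  · intro u n
    have h0 : coef (fun x => ((u : ℝ → ℝ) x : ℂ)) n = coef (hjC u : ℝ → ℂ) n := by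
      rw [hj_coef, hj_coef, hj_congr (hj_C u)]
    rw [h0, hj_coef, hJI, hj_P_coef, hj_const, hj_coef]
    by_cases hn : n = 0
    · subst hn
      rw [if_pos (by simp), if_pos rfl, hj_coef]
      have hpi : (Real.pi : ℂ) ≠ 0 := by exact_mod_cast Real.pi_ne_zero
      push_cast
      field_simp
      ring
    · rw [if_neg (by omega), if_neg hn, hj_coef]
      ring

/-- An `H²` function is determined by its real part up to an imaginary constant:
coefficients. (If `V ∈ H²` has real part `u` then `coef V n = 2 coef u n` for `n ≥ 1` and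
`Re coef V 0 = coef u 0`, because `u = (V + conj V)/2` and `conj V` has no positive frequencies.) -/
theorem hj_re (V : ℝ → ℂ) (hV : Htwo V) (k : ℤ) :
    hjI (fun x => ((V x).re : ℂ)) k = (1 / 2 : ℂ) * (hjI V k + starRingEnd ℂ (hjI V (-k))) := by
  rw [← hj_conj, ← hj_add hV.mem (hj_conj_memLp hV.mem), ← hj_smul]
  congr 1
  ext x
  rw [Complex.re_eq_add_conj]
  ring

theorem coef_of_re (V : ℝ → ℂ) (hV : Htwo V) (n : ℕ) (hn : n ≠ 0) :
    coef V n = 2 * coef (fun x => ((V x).re : ℂ)) n := by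
  obtain ⟨m, rfl⟩ := Nat.exists_eq_succ_of_ne_zero hn
  rw [hj_coef, hj_coef, hj_re V hV]
  have h1 : - -(((m.succ : ℕ) : ℤ)) = (m : ℤ) + 1 := by push_cast; ring
  rw [h1, (hj_HA V).1 hV.ha m, map_zero]
  ring

theorem coef_zero_re (V : ℝ → ℂ) (hV : Htwo V) :
    ((coef V 0).re : ℂ) = coef (fun x => ((V x).re : ℂ)) 0 := by
  rw [hj_coef, hj_coef, hj_re V hV, Complex.re_eq_add_conj, map_mul, Complex.conj_ofReal]
  simp only [Nat.cast_zero, neg_zero]
  ring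

end Pool.H14.SR
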