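import Pool.Agent.H14.SR.Basic
import Pool.Agent.H14.SR.HB
open MeasureTheory Set Filter Topology
noncomputable section
namespace Pool.H14.SR

theorem hx_pos : (0 : ℝ) < 2 * Real.pi := by positivity

/-- the integral of `e^{ijx}` over a period -/
theorem hx_int_exp (j : ℤ) : ∫ x in Set.Ioc 0 (2 * Real.pi), Complex.exp ((j : ℂ) * Complex.I * (x : ℂ)) =
    if j = 0 then (2 * Real.pi : ℂ) else 0 := by
  rw [← intervalIntegral.integral_of_le hx_pos.le]
  by_cases hj : j = 0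
  · subst hj
    simp
  · rw [if_neg hj]
    have hc : (j : ℂ) * Complex.I ≠ 0 := mul_ne_zero (by exact_mod_cast hj) Complex.I_ne_zero
    rw [integral_exp_mul_complex hc]
    have h1 : (j : ℂ) * Complex.I * ((2 * Real.pi : ℝ) : ℂ) = (j : ℂ) * (2 * Real.pi * Complex.I) := by
      push_cast; ring
    rw [h1, Complex.exp_int_mul_two_pi_mul_I]
    simp

theorem hx_cont_exp (c : ℂ) : Continuous fun x : ℝ => Complex.exp (c * (x : ℂ)) := by fun_prop

theorem hx_norm_exp (j : ℤ) (x : ℝ) : ‖Complex.exp ((j : ℂ) * Complex.I * (x : ℂ))‖ = 1 := by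
  rw [Complex.norm_exp]
  simp

theorem hx_norm_exp_nat (n : ℕ) (x : ℝ) : ‖Complex.exp (-((n : ℂ) * Complex.I * (x : ℂ)))‖ = 1 := by
  rw [Complex.norm_exp]
  simp

theorem hx_integrable_mul (f : ℝ → ℂ) (hf : Integrable f mu) (g : ℝ → ℂ) (hg : Continuous g) (C : ℝ)
    (hC : ∀ x, ‖g x‖ ≤ C) : Integrable (fun x => g x * f x) mu :=
  hf.bdd_mul hg.aestronglyMeasurable (Eventually.of_forall hC)

/-- bound of the coefficients -/
theorem hx_coef_le (f : ℝ → ℂ) (n : ℕ) : ‖coef f n‖ ≤ (1 / (2 * Real.pi)) * ∫ x, ‖f x‖ ∂mu := by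
  unfold coef
  rw [norm_mul]
  have h1 : ‖((1 / (2 * Real.pi) : ℝ) : ℂ)‖ = 1 / (2 * Real.pi) := by
    rw [Complex.norm_real, Real.norm_eq_abs, abs_of_pos (by positivity)]
  rw [h1]
  refine mul_le_mul_of_nonneg_left ?_ (by positivity)
  refine (norm_integral_le_integral_norm _).trans (le_of_eq ?_)
  refine integral_congr_ae (Eventually.of_forall fun x => ?_)
  show ‖_ * _‖ = _
  rw [norm_mul, hx_norm_exp_nat, one_mul]

theorem hx_integrable (f : ℝ → ℂ) (hf : Htwo f) : Integrable f mu :=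
  hf.mem.integrable (by norm_num)

theorem hx_summable (a : ℕ → ℂ) (C : ℝ) (hC : ∀ n, ‖a n‖ ≤ C) (w : ℂ) (hw : ‖w‖ < 1) :
    Summable fun n => a n * w ^ n := by
  refine Summable.of_norm_bounded ((summable_geometric_of_lt_one (norm_nonneg w) hw).mul_left C)
    fun n => ?_
  rw [norm_mul, norm_pow]
  exact mul_le_mul_of_nonneg_right (hC n) (by positivity)

theorem hx_tsum_diff (a : ℕ → ℂ) (C : ℝ) (hC : ∀ n, ‖a n‖ ≤ C) :
    DifferentiableOn ℂ (fun w => ∑' n : ℕ, a n * w ^ n) (Metric.ball 0 1) := by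
  intro w hw
  rw [mem_ball_zero_iff] at hw
  obtain ⟨r, hr1, hr2⟩ := exists_between hw
  have hr0 : 0 ≤ r := (norm_nonneg w).trans hr1.le
  have h := Complex.differentiableOn_tsum_of_summable_norm (F := fun (n : ℕ) (w : ℂ) => a n * w ^ n)
    (U := Metric.ball 0 r) (u := fun n => C * r ^ n)
    ((summable_geometric_of_lt_one hr0 hr2).mul_left C) (fun n => by fun_prop) Metric.isOpen_ball
    (fun n z hz => by
      rw [mem_ball_zero_iff] at hz
      rw [norm_mul, norm_pow]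
      exact mul_le_mul (hC n) (pow_le_pow_left₀ (norm_nonneg z) hz.le n) (by positivity)
        ((norm_nonneg _).trans (hC n)))
  exact ((h w (mem_ball_zero_iff.2 hr1)).differentiableAt (Metric.isOpen_ball.mem_nhds
    (mem_ball_zero_iff.2 hr1))).differentiableWithinAt

/-- the Poisson kernel -/
def pk (w : ℂ) (x : ℝ) : ℝ := (1 - ‖w‖ ^ 2) / ‖1 - w * Complex.exp (-(Complex.I * (x : ℂ)))‖ ^ 2

theorem hx_one_sub_ne (w : ℂ) (hw : ‖w‖ < 1) (x : ℝ) :
    1 - w * Complex.exp (-(Complex.I * (x : ℂ))) ≠ 0 := by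
  intro h
  have h1 : w * Complex.exp (-(Complex.I * (x : ℂ))) = 1 := (sub_eq_zero.1 h).symm
  have h2 : ‖w * Complex.exp (-(Complex.I * (x : ℂ)))‖ = ‖w‖ := by
    rw [norm_mul, Complex.norm_exp]; simp
  rw [h1, norm_one] at h2
  linarith

theorem pk_nonneg (w : ℂ) (hw : ‖w‖ < 1) (x : ℝ) : 0 ≤ pk w x := by
  unfold pk
  have : ‖w‖ ^ 2 ≤ 1 := by nlinarith [norm_nonneg w]
  exact div_nonneg (by linarith) (by positivity)

theorem pk_cont (w : ℂ) (hw : ‖w‖ < 1) : Continuous (pk w) := by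
  unfold pk
  refine continuous_const.div (by fun_prop) fun x => ?_
  exact pow_ne_zero 2 (norm_ne_zero_iff.2 (hx_one_sub_ne w hw x))

theorem pk_bdd (w : ℂ) (hw : ‖w‖ < 1) : ∃ C, ∀ x, ‖pk w x‖ ≤ C := by
  refine ⟨1 / (1 - ‖w‖) ^ 2, fun x => ?_⟩
  rw [Real.norm_eq_abs, abs_of_nonneg (pk_nonneg w hw x)]
  unfold pk
  have h1 : 1 - ‖w‖ ≤ ‖1 - w * Complex.exp (-(Complex.I * (x : ℂ)))‖ := by
    have h2 : ‖w * Complex.exp (-(Complex.I * (x : ℂ)))‖ = ‖w‖ := by
      rw [norm_mul, Complex.norm_exp]; simp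
    have h3 := norm_sub_norm_le (1 : ℂ) (w * Complex.exp (-(Complex.I * (x : ℂ))))
    rw [norm_one, h2] at h3
    exact h3
  have h4 : 0 < 1 - ‖w‖ := by linarith
  refine div_le_div₀ zero_le_one ?_ (by positivity) (pow_le_pow_left₀ h4.le h1 2)
  nlinarith [norm_nonneg w]

theorem pk_id (w : ℂ) (hw : ‖w‖ < 1) (x : ℝ) : ((pk w x : ℝ) : ℂ) =
    (1 - w * Complex.exp (-(Complex.I * (x : ℂ))))⁻¹ +
      (starRingEnd ℂ w * Complex.exp (Complex.I * (x : ℂ))) *
        (1 - starRingEnd ℂ w * Complex.exp (Complex.I * (x : ℂ)))⁻¹ := by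
  set u : ℂ := w * Complex.exp (-(Complex.I * (x : ℂ))) with hu
  have hcu : starRingEnd ℂ w * Complex.exp (Complex.I * (x : ℂ)) = starRingEnd ℂ u := by
    rw [hu, map_mul, ← Complex.exp_conj, map_neg, map_mul, Complex.conj_I, Complex.conj_ofReal]
    congr 2; ring
  rw [hcu]
  have h1 : (1 : ℂ) - u ≠ 0 := hx_one_sub_ne w hw x
  have h2 : (1 : ℂ) - starRingEnd ℂ u ≠ 0 := by
    intro h
    apply h1
    have := congrArg (starRingEnd ℂ) h
    simpa using this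
  have h3 : ‖w‖ = ‖u‖ := by
    rw [hu, norm_mul, Complex.norm_exp]; simp
  unfold pk
  rw [h3, ← hu]
  have h4 : (((‖(1 : ℂ) - u‖) ^ 2 : ℝ) : ℂ) = (1 - u) * (1 - starRingEnd ℂ u) := by
    rw [← Complex.normSq_eq_norm_sq, ← Complex.mul_conj, map_sub, map_one]
  have h5 : (((‖u‖) ^ 2 : ℝ) : ℂ) = u * starRingEnd ℂ u := by
    rw [← Complex.normSq_eq_norm_sq, ← Complex.mul_conj]
  rw [Complex.ofReal_div, h4, Complex.ofReal_sub, h5, Complex.ofReal_one]
  field_simp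
  ring

theorem hx_poisson (f : ℝ → ℂ) (hf : Integrable f mu) (ha : HA f) (w : ℂ) (hw : ‖w‖ < 1) :
    ext f w = (1 / (2 * Real.pi) : ℝ) * ∫ x in Set.Ioc 0 (2 * Real.pi), ((pk w x : ℝ) : ℂ) * f x := by
  have hu : ∀ x : ℝ, ‖w * Complex.exp (-(Complex.I * (x : ℂ)))‖ = ‖w‖ := fun x => by
    rw [norm_mul, Complex.norm_exp]; simp
  have hv : ∀ x : ℝ, ‖starRingEnd ℂ w * Complex.exp (Complex.I * (x : ℂ))‖ = ‖w‖ := fun x => by
    rw [norm_mul, Complex.norm_exp]; simp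
  have hc1 : ∀ n : ℕ, Continuous fun x : ℝ => (w * Complex.exp (-(Complex.I * (x : ℂ)))) ^ n :=
    fun n => by fun_prop
  have hc2 : ∀ n : ℕ, Continuous fun x : ℝ =>
      (starRingEnd ℂ w * Complex.exp (Complex.I * (x : ℂ))) ^ (n + 1) := fun n => by fun_prop
  have hi1 : ∀ n : ℕ, Integrable (fun x : ℝ => (w * Complex.exp (-(Complex.I * (x : ℂ)))) ^ n * f x) mu :=
    fun n => hx_integrable_mul f hf _ (hc1 n) (‖w‖ ^ n) fun x => by rw [norm_pow, hu]
  have hi2 : ∀ n : ℕ, Integrable (fun x : ℝ =>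
      (starRingEnd ℂ w * Complex.exp (Complex.I * (x : ℂ))) ^ (n + 1) * f x) mu :=
    fun n => hx_integrable_mul f hf _ (hc2 n) (‖w‖ ^ (n + 1)) fun x => by rw [norm_pow, hv]
  have hs1 : Summable fun n : ℕ => ∫ x : ℝ, ‖(w * Complex.exp (-(Complex.I * (x : ℂ)))) ^ n * f x‖ ∂mu := by
    have : (fun n : ℕ => ∫ x : ℝ, ‖(w * Complex.exp (-(Complex.I * (x : ℂ)))) ^ n * f x‖ ∂mu) =
        fun n => ‖w‖ ^ n * ∫ x, ‖f x‖ ∂mu := by
      funext n
      rw [← integral_const_mul]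
      congr 1
      funext x
      rw [norm_mul, norm_pow, hu]
    rw [this]
    exact (summable_geometric_of_lt_one (norm_nonneg w) hw).mul_right _
  have hs2 : Summable fun n : ℕ => ∫ x : ℝ, ‖(starRingEnd ℂ w * Complex.exp (Complex.I * (x : ℂ))) ^ (n + 1)
      * f x‖ ∂mu := by
    have : (fun n : ℕ => ∫ x : ℝ, ‖(starRingEnd ℂ w * Complex.exp (Complex.I * (x : ℂ))) ^ (n + 1) *
        f x‖ ∂mu) = fun n => ‖w‖ ^ n * (‖w‖ * ∫ x, ‖f x‖ ∂mu) := by
      funext n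
      rw [← mul_assoc, ← pow_succ, ← integral_const_mul]
      congr 1
      funext x
      rw [norm_mul, norm_pow, hv]
    rw [this]
    exact (summable_geometric_of_lt_one (norm_nonneg w) hw).mul_right _
  have h1 := hasSum_integral_of_summable_integral_norm hi1 hs1
  have h2 := hasSum_integral_of_summable_integral_norm hi2 hs2
  have e1 : ∀ n : ℕ, ∫ x : ℝ, (w * Complex.exp (-(Complex.I * (x : ℂ)))) ^ n * f x ∂mu =
      (2 * Real.pi : ℂ) * (coef f n * w ^ n) := by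
    intro n
    have h3 : ∀ x : ℝ, (w * Complex.exp (-(Complex.I * (x : ℂ)))) ^ n * f x =
        w ^ n * (Complex.exp (-((n : ℂ) * Complex.I * (x : ℂ))) * f x) := by
      intro x
      rw [mul_pow, ← Complex.exp_nat_mul, mul_assoc]
      congr 3
      ring
    simp_rw [h3]
    rw [integral_const_mul]
    have h4 : ∫ x : ℝ, Complex.exp (-((n : ℂ) * Complex.I * (x : ℂ))) * f x ∂mu =
        (2 * Real.pi : ℂ) * coef f n := by
      unfold coef mu
      rw [← mul_assoc]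
      have hpi : (Real.pi : ℂ) ≠ 0 := by exact_mod_cast Real.pi_ne_zero
      have : (2 * Real.pi : ℂ) * ((1 / (2 * Real.pi) : ℝ) : ℂ) = 1 := by
        push_cast
        field_simp
      rw [this, one_mul]
    rw [h4]; ring
  have e2 : ∀ n : ℕ, ∫ x : ℝ, (starRingEnd ℂ w * Complex.exp (Complex.I * (x : ℂ))) ^ (n + 1) * f x ∂mu =
      0 := by
    intro n
    have h3 : ∀ x : ℝ, (starRingEnd ℂ w * Complex.exp (Complex.I * (x : ℂ))) ^ (n + 1) * f x =
        (starRingEnd ℂ w) ^ (n + 1) * (Complex.exp (((n : ℂ) + 1) * Complex.I * (x : ℂ)) * f x) := by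
      intro x
      rw [mul_pow, ← Complex.exp_nat_mul, mul_assoc]
      congr 3
      push_cast
      ring
    simp_rw [h3]
    rw [integral_const_mul]
    have h4 : ∫ x : ℝ, Complex.exp (((n : ℂ) + 1) * Complex.I * (x : ℂ)) * f x ∂mu = 0 := ha n
    rw [h4, mul_zero]
  have t1 : ∀ x : ℝ, ∑' n : ℕ, (w * Complex.exp (-(Complex.I * (x : ℂ)))) ^ n * f x =
      (1 - w * Complex.exp (-(Complex.I * (x : ℂ))))⁻¹ * f x := by
    intro x
    rw [tsum_mul_right, tsum_geometric_of_norm_lt_one (by rw [hu]; exact hw)]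
  have t2 : ∀ x : ℝ, ∑' n : ℕ, (starRingEnd ℂ w * Complex.exp (Complex.I * (x : ℂ))) ^ (n + 1) * f x =
      (starRingEnd ℂ w * Complex.exp (Complex.I * (x : ℂ))) *
        (1 - starRingEnd ℂ w * Complex.exp (Complex.I * (x : ℂ)))⁻¹ * f x := by
    intro x
    rw [tsum_mul_right]
    congr 1
    simp_rw [pow_succ']
    rw [tsum_mul_left, tsum_geometric_of_norm_lt_one (by rw [hv]; exact hw)]
  simp_rw [e1, t1] at h1
  simp_rw [e2, t2] at h2
  have h5 := h1.tsum_eq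
  have h6 := h2.tsum_eq
  rw [tsum_zero] at h6
  rw [tsum_mul_left] at h5
  have h7 : ∀ x : ℝ, ((pk w x : ℝ) : ℂ) * f x = (1 - w * Complex.exp (-(Complex.I * (x : ℂ))))⁻¹ * f x +
      (starRingEnd ℂ w * Complex.exp (Complex.I * (x : ℂ))) *
        (1 - starRingEnd ℂ w * Complex.exp (Complex.I * (x : ℂ)))⁻¹ * f x := by
    intro x
    rw [pk_id w hw x]
    ring
  have h8 : ∫ x : ℝ, ((pk w x : ℝ) : ℂ) * f x ∂mu = (2 * Real.pi : ℂ) * ext f w := by
    simp_rw [h7]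
    have hd : ∀ x : ℝ, 1 - ‖w‖ ≤ ‖1 - w * Complex.exp (-(Complex.I * (x : ℂ)))‖ := by
      intro x
      have h3 := norm_sub_norm_le (1 : ℂ) (w * Complex.exp (-(Complex.I * (x : ℂ))))
      rw [norm_one, hu] at h3
      exact h3
    have hd' : ∀ x : ℝ, 1 - ‖w‖ ≤ ‖1 - starRingEnd ℂ w * Complex.exp (Complex.I * (x : ℂ))‖ := by
      intro x
      have h3 := norm_sub_norm_le (1 : ℂ) (starRingEnd ℂ w * Complex.exp (Complex.I * (x : ℂ)))
      rw [norm_one, hv] at h3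
      exact h3
    have hw1 : 0 < 1 - ‖w‖ := by linarith
    have hne : ∀ x : ℝ, 1 - w * Complex.exp (-(Complex.I * (x : ℂ))) ≠ 0 := fun x =>
      norm_pos_iff.1 (hw1.trans_le (hd x))
    have hne' : ∀ x : ℝ, 1 - starRingEnd ℂ w * Complex.exp (Complex.I * (x : ℂ)) ≠ 0 := fun x =>
      norm_pos_iff.1 (hw1.trans_le (hd' x))
    rw [integral_add]
    · rw [← h5, ← h6, add_zero]
      rfl
    · refine hx_integrable_mul f hf _ ?_ ((1 - ‖w‖)⁻¹) fun x => ?_
      · exact Continuous.inv₀ (by fun_prop) hne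
      · rw [norm_inv]
        exact inv_anti₀ hw1 (hd x)
    · refine hx_integrable_mul f hf _ ?_ (‖w‖ * (1 - ‖w‖)⁻¹) fun x => ?_
      · exact Continuous.mul (by fun_prop) (Continuous.inv₀ (by fun_prop) hne')
      · rw [norm_mul, norm_inv, hv]
        exact mul_le_mul_of_nonneg_left (inv_anti₀ hw1 (hd' x)) (norm_nonneg w)
  have h9 : ∫ x in Set.Ioc 0 (2 * Real.pi), ((pk w x : ℝ) : ℂ) * f x = (2 * Real.pi : ℂ) * ext f w := h8
  rw [h9, ← mul_assoc]
  have hpi : (Real.pi : ℂ) ≠ 0 := by exact_mod_cast Real.pi_ne_zero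
  have : ((1 / (2 * Real.pi) : ℝ) : ℂ) * (2 * Real.pi : ℂ) = 1 := by
    push_cast
    field_simp
  rw [this, one_mul]

theorem hx_coef_one (n : ℕ) : coef (fun _ => (1 : ℂ)) n = if n = 0 then 1 else 0 := by
  have h := hx_int_exp (-(n : ℤ))
  unfold coef
  have h1 : ∫ x in Set.Ioc 0 (2 * Real.pi), Complex.exp (-((n : ℂ) * Complex.I * (x : ℂ))) * (1 : ℂ) =
      if n = 0 then (2 * Real.pi : ℂ) else 0 := by
    simp only [mul_one]
    have h2 : (fun x : ℝ => Complex.exp (-((n : ℂ) * Complex.I * (x : ℂ)))) =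
        fun x : ℝ => Complex.exp (((-(n : ℤ) : ℤ) : ℂ) * Complex.I * (x : ℂ)) := by
      funext x
      congr 1
      push_cast
      ring
    rw [h2, h]
    by_cases hn : n = 0
    · simp [hn]
    · simp [hn]
  rw [h1]
  by_cases hn : n = 0
  · rw [if_pos hn, if_pos hn]
    have hpi : (Real.pi : ℂ) ≠ 0 := by exact_mod_cast Real.pi_ne_zero
    push_cast
    field_simp
  · rw [if_neg hn, if_neg hn, mul_zero]

theorem hx_ext_one (w : ℂ) : ext (fun _ => (1 : ℂ)) w = 1 := by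
  unfold ext
  simp_rw [hx_coef_one]
  rw [tsum_eq_single 0]
  · simp
  · intro n hn
    simp [hn]

theorem pk_integrable (w : ℂ) (hw : ‖w‖ < 1) : Integrable (pk w) mu := by
  obtain ⟨C, hC⟩ := pk_bdd w hw
  exact (integrable_const C).mono' (pk_cont w hw).aestronglyMeasurable (Eventually.of_forall hC)

theorem pk_integral (w : ℂ) (hw : ‖w‖ < 1) : ∫ x, pk w x ∂mu = 2 * Real.pi := by
  have h := hx_poisson (fun _ => (1 : ℂ)) (integrable_const _) (Hinf_const 1).ha w hw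
  rw [hx_ext_one] at h
  have h1 : ∫ x in Set.Ioc 0 (2 * Real.pi), ((pk w x : ℝ) : ℂ) * (1 : ℂ) =
      ((∫ x, pk w x ∂mu : ℝ) : ℂ) := by
    simp only [mul_one]
    exact integral_ofReal
  rw [h1, ← Complex.ofReal_mul] at h
  have h2 : (1 : ℝ) = 1 / (2 * Real.pi) * ∫ x, pk w x ∂mu := by exact_mod_cast h
  have h3 : (0 : ℝ) < 2 * Real.pi := hx_pos
  field_simp at h2
  linarith

theorem pk_mul_integrable (w : ℂ) (hw : ‖w‖ < 1) (g : ℝ → ℝ) (hg : Integrable g mu) :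
    Integrable (fun x => pk w x * g x) mu := by
  obtain ⟨C, hC⟩ := pk_bdd w hw
  exact hg.bdd_mul (pk_cont w hw).aestronglyMeasurable (Eventually.of_forall hC)

theorem pk_mul_integrable' (w : ℂ) (hw : ‖w‖ < 1) (g : ℝ → ℂ) (hg : Integrable g mu) :
    Integrable (fun x => ((pk w x : ℝ) : ℂ) * g x) mu := by
  obtain ⟨C, hC⟩ := pk_bdd w hw
  refine hg.bdd_mul (Complex.continuous_ofReal.comp (pk_cont w hw)).aestronglyMeasurable
    (Eventually.of_forall fun x => ?_) (c := C)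
  show ‖((pk w x : ℝ) : ℂ)‖ ≤ C
  rw [Complex.norm_real]
  exact hC x

theorem hx_half : ‖((1 / (2 * Real.pi) : ℝ) : ℂ)‖ = 1 / (2 * Real.pi) := by
  rw [Complex.norm_real, Real.norm_eq_abs, abs_of_pos (by positivity)]

theorem ext_bd (f : ℝ → ℂ) (hf : Hinf f) (C : ℝ) (hC : BD f C) :
    DifferentiableOn ℂ (ext f) (Metric.ball 0 1) ∧ ∀ w ∈ Metric.ball (0 : ℂ) 1, ‖ext f w‖ ≤ C := by
  refine ⟨hx_tsum_diff (coef f) _ (hx_coef_le f), fun w hw => ?_⟩
  rw [mem_ball_zero_iff] at hw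
  have hfi : Integrable f mu := hf.mem.integrable le_top
  rw [hx_poisson f hfi hf.ha w hw, norm_mul, hx_half]
  have h1 : ‖∫ x in Set.Ioc 0 (2 * Real.pi), ((pk w x : ℝ) : ℂ) * f x‖ ≤ ∫ x, pk w x * C ∂mu := by
    refine norm_integral_le_of_norm_le ((pk_integrable w hw).mul_const C) ?_
    filter_upwards [hC] with x hx
    rw [norm_mul, Complex.norm_real, Real.norm_eq_abs, abs_of_nonneg (pk_nonneg w hw x)]
    exact mul_le_mul_of_nonneg_left hx (pk_nonneg w hw x)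
  rw [integral_mul_const, pk_integral w hw] at h1
  have h3 : (0 : ℝ) < 2 * Real.pi := hx_pos
  calc 1 / (2 * Real.pi) * _ ≤ 1 / (2 * Real.pi) * (2 * Real.pi * C) :=
        mul_le_mul_of_nonneg_left h1 (by positivity)
    _ = C := by field_simp

theorem ext_diff (f : ℝ → ℂ) (hf : Htwo f) : DifferentiableOn ℂ (ext f) (Metric.ball 0 1) :=
  hx_tsum_diff (coef f) _ (hx_coef_le f)

theorem hx_re (V : ℝ → ℂ) (hV : Integrable V mu) (ha : HA V) (w : ℂ) (hw : ‖w‖ < 1) :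
    (ext V w).re = 1 / (2 * Real.pi) * ∫ x, pk w x * (V x).re ∂mu := by
  rw [hx_poisson V hV ha w hw, Complex.re_ofReal_mul]
  congr 1
  have h := integral_re (𝕜 := ℂ) (pk_mul_integrable' w hw V hV)
  have h2 : RCLike.re (∫ x, ((pk w x : ℝ) : ℂ) * V x ∂mu) =
      (∫ x in Set.Ioc 0 (2 * Real.pi), ((pk w x : ℝ) : ℂ) * V x).re := rfl
  rw [← h2, ← h]
  refine integral_congr_ae (Eventually.of_forall fun x => ?_)
  show (((pk w x : ℝ) : ℂ) * V x).re = _
  rw [Complex.re_ofReal_mul]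

theorem ext_re (V : ℝ → ℂ) (hV : Htwo V) (m M : ℝ)
    (h : ∀ᵐ x ∂mu, m ≤ (V x).re ∧ (V x).re ≤ M) :
    ∀ w ∈ Metric.ball (0 : ℂ) 1, m ≤ (ext V w).re ∧ (ext V w).re ≤ M := by
  intro w hw
  rw [mem_ball_zero_iff] at hw
  have hVi := hx_integrable V hV
  rw [hx_re V hVi hV.ha w hw]
  have hre : Integrable (fun x => (V x).re) mu := hVi.re
  have h3 : (0 : ℝ) < 2 * Real.pi := hx_pos
  have h1 : ∫ x, pk w x * m ∂mu ≤ ∫ x, pk w x * (V x).re ∂mu :=
    integral_mono_ae ((pk_integrable w hw).mul_const m) (pk_mul_integrable w hw _ hre) (by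
      filter_upwards [h] with x hx
      exact mul_le_mul_of_nonneg_left hx.1 (pk_nonneg w hw x))
  have h2 : ∫ x, pk w x * (V x).re ∂mu ≤ ∫ x, pk w x * M ∂mu :=
    integral_mono_ae (pk_mul_integrable w hw _ hre) ((pk_integrable w hw).mul_const M) (by
      filter_upwards [h] with x hx
      exact mul_le_mul_of_nonneg_left hx.2 (pk_nonneg w hw x))
  rw [integral_mul_const, pk_integral w hw] at h1 h2
  constructor
  · calc m = 1 / (2 * Real.pi) * (2 * Real.pi * m) := by field_simp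
      _ ≤ _ := mul_le_mul_of_nonneg_left h1 (by positivity)
  · calc _ ≤ 1 / (2 * Real.pi) * (2 * Real.pi * M) := mul_le_mul_of_nonneg_left h2 (by positivity)
      _ = M := by field_simp

theorem hx_sq_integrable (a : ℝ → ℂ) (ha : Htwo a) : Integrable (fun x => ‖a x‖ ^ 2) mu :=
  (memLp_two_iff_integrable_sq_norm ha.mem.aestronglyMeasurable).1 ha.mem

theorem hx_jensen (a : ℝ → ℂ) (ha : Htwo a) (w : ℂ) (hw : ‖w‖ < 1) :
    ‖ext a w‖ ^ 2 ≤ 1 / (2 * Real.pi) * ∫ x, pk w x * ‖a x‖ ^ 2 ∂mu := by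
  have hai := hx_integrable a ha
  have hsq := hx_sq_integrable a ha
  set A : ℂ := ext a w with hA
  have h3 : (0 : ℝ) < 2 * Real.pi := hx_pos
  -- the integral of `pk * a`
  have h1 : ∫ x, ((pk w x : ℝ) : ℂ) * a x ∂mu = (2 * Real.pi : ℝ) * A := by
    have h := hx_poisson a hai ha.ha w hw
    have h' : A = ((1 / (2 * Real.pi) : ℝ) : ℂ) * ∫ x, ((pk w x : ℝ) : ℂ) * a x ∂mu := h
    rw [h', ← mul_assoc, ← Complex.ofReal_mul]
    have : 2 * Real.pi * (1 / (2 * Real.pi)) = 1 := by field_simp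
    rw [this]; simp
  have h2 : ∫ x, pk w x * (starRingEnd ℂ A * a x).re ∂mu = 2 * Real.pi * ‖A‖ ^ 2 := by
    have h4 : Integrable (fun x => starRingEnd ℂ A * (((pk w x : ℝ) : ℂ) * a x)) mu :=
      (pk_mul_integrable' w hw a hai).const_mul _
    have h5 := integral_re (𝕜 := ℂ) h4
    have h6 : ∀ x, RCLike.re (starRingEnd ℂ A * (((pk w x : ℝ) : ℂ) * a x)) =
        pk w x * (starRingEnd ℂ A * a x).re := by
      intro x
      have : starRingEnd ℂ A * (((pk w x : ℝ) : ℂ) * a x) =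
          ((pk w x : ℝ) : ℂ) * (starRingEnd ℂ A * a x) := by ring
      rw [this]
      exact Complex.re_ofReal_mul _ _
    simp_rw [h6] at h5
    rw [h5, integral_const_mul, h1]
    have h7 : starRingEnd ℂ A * (((2 * Real.pi : ℝ) : ℂ) * A) = ((2 * Real.pi * ‖A‖ ^ 2 : ℝ) : ℂ) := by
      have : starRingEnd ℂ A * A = ((‖A‖ ^ 2 : ℝ) : ℂ) := by
        rw [mul_comm, Complex.mul_conj, Complex.normSq_eq_norm_sq]
      calc starRingEnd ℂ A * (((2 * Real.pi : ℝ) : ℂ) * A) =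
            ((2 * Real.pi : ℝ) : ℂ) * (starRingEnd ℂ A * A) := by ring
        _ = _ := by rw [this, ← Complex.ofReal_mul]
    rw [h7]
    exact Complex.ofReal_re _
  have h4 : 0 ≤ ∫ x, pk w x * ‖a x - A‖ ^ 2 ∂mu :=
    integral_nonneg fun x => mul_nonneg (pk_nonneg w hw x) (by positivity)
  have h5 : ∀ x, pk w x * ‖a x - A‖ ^ 2 = pk w x * ‖a x‖ ^ 2 -
      2 * (pk w x * (starRingEnd ℂ A * a x).re) + pk w x * ‖A‖ ^ 2 := by
    intro x
    have h6 : ‖a x - A‖ ^ 2 = ‖a x‖ ^ 2 - 2 * (starRingEnd ℂ A * a x).re + ‖A‖ ^ 2 := by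
      rw [← Complex.normSq_eq_norm_sq, ← Complex.normSq_eq_norm_sq, ← Complex.normSq_eq_norm_sq,
        Complex.normSq_sub]
      have : (a x * starRingEnd ℂ A).re = (starRingEnd ℂ A * a x).re := by rw [mul_comm]
      rw [this]; ring
    rw [h6]; ring
  simp_rw [h5] at h4
  have i1 := pk_mul_integrable w hw _ hsq
  have i2 : Integrable (fun x => pk w x * (starRingEnd ℂ A * a x).re) mu :=
    pk_mul_integrable w hw _ (hai.const_mul (starRingEnd ℂ A)).re
  have i3 : Integrable (fun x => pk w x * ‖A‖ ^ 2) mu := (pk_integrable w hw).mul_const _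
  have i12 : Integrable (fun x => pk w x * ‖a x‖ ^ 2 -
      2 * (pk w x * (starRingEnd ℂ A * a x).re)) mu := i1.sub (i2.const_mul 2)
  rw [integral_add i12 i3, integral_sub i1 (i2.const_mul 2),
    integral_const_mul, integral_mul_const, h2, pk_integral w hw] at h4
  have h6 : 2 * Real.pi * ‖A‖ ^ 2 ≤ ∫ x, pk w x * ‖a x‖ ^ 2 ∂mu := by linarith
  calc ‖A‖ ^ 2 = 1 / (2 * Real.pi) * (2 * Real.pi * ‖A‖ ^ 2) := by field_simp
    _ ≤ _ := mul_le_mul_of_nonneg_left h6 (by positivity)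

theorem ext_convex (F a b : ℝ → ℂ) (hF : Htwo F) (ha : Hinf a) (hb : Hinf b)
    (h : ∀ᵐ x ∂mu, (F x).re = ‖a x‖ ^ 2 + ‖b x‖ ^ 2) :
    ∀ w ∈ Metric.ball (0 : ℂ) 1, ‖ext a w‖ ^ 2 + ‖ext b w‖ ^ 2 ≤ (ext F w).re := by
  intro w hw
  rw [mem_ball_zero_iff] at hw
  have h1 := hx_jensen a ha.toHtwo w hw
  have h2 := hx_jensen b hb.toHtwo w hw
  rw [hx_re F (hx_integrable F hF) hF.ha w hw]
  have h3 : ∫ x, pk w x * (F x).re ∂mu = ∫ x, pk w x * ‖a x‖ ^ 2 ∂mu + ∫ x, pk w x * ‖b x‖ ^ 2 ∂mu := by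
    rw [← integral_add (pk_mul_integrable w hw _ (hx_sq_integrable a ha.toHtwo))
      (pk_mul_integrable w hw _ (hx_sq_integrable b hb.toHtwo))]
    refine integral_congr_ae ?_
    filter_upwards [h] with x hx
    rw [hx]; ring
  rw [h3, mul_add]
  exact add_le_add h1 h2

/-! ### `L²` convergence -/

theorem hx_coef_nat (f : ℝ → ℂ) (n : ℕ) : fourierCoeffOn hx_pos f (n : ℤ) = coef f n := by
  rw [fourierCoeffOn_eq_integral]
  unfold coef
  rw [intervalIntegral.integral_of_le hx_pos.le, sub_zero, Complex.real_smul]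
  congr 1
  refine integral_congr_ae (Eventually.of_forall fun x => ?_)
  show fourier (-(n : ℤ)) ((x : ℝ) : AddCircle (2 * Real.pi)) • f x = _
  rw [fourier_coe_apply, smul_eq_mul]
  congr 2
  have hpi : (Real.pi : ℂ) ≠ 0 := by exact_mod_cast Real.pi_ne_zero
  push_cast
  field_simp

theorem hx_coef_neg (f : ℝ → ℂ) (hf : HA f) (n : ℕ) :
    fourierCoeffOn hx_pos f (-((n : ℤ) + 1)) = 0 := by
  rw [fourierCoeffOn_eq_integral]
  rw [intervalIntegral.integral_of_le hx_pos.le]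
  have h1 : ∫ x in Set.Ioc 0 (2 * Real.pi),
      fourier (-(-((n : ℤ) + 1))) ((x : ℝ) : AddCircle (2 * Real.pi - 0)) • f x = 0 := by
    rw [← hf n]
    refine integral_congr_ae (Eventually.of_forall fun x => ?_)
    show fourier (-(-((n : ℤ) + 1))) ((x : ℝ) : AddCircle (2 * Real.pi - 0)) • f x = _
    rw [fourier_coe_apply, smul_eq_mul]
    congr 2
    have hpi : (Real.pi : ℂ) ≠ 0 := by exact_mod_cast Real.pi_ne_zero
    push_cast
    rw [sub_zero]
    field_simp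
  rw [h1, smul_zero]

theorem hx_parseval (g : ℝ → ℂ) (hg : Htwo g) :
    HasSum (fun n : ℕ => ‖coef g n‖ ^ 2)
      ((2 * Real.pi)⁻¹ * ∫ x in Set.Ioc 0 (2 * Real.pi), ‖g x‖ ^ 2) := by
  have h := hasSum_sq_fourierCoeffOn hx_pos hg.mem
  rw [sub_zero, smul_eq_mul, intervalIntegral.integral_of_le hx_pos.le] at h
  have h1 : (fun n : ℕ => ‖coef g n‖ ^ 2) =
      (fun i : ℤ => ‖fourierCoeffOn hx_pos g i‖ ^ 2) ∘ (fun n : ℕ => (n : ℤ)) := by
    funext n
    rw [Function.comp_apply, hx_coef_nat]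
  rw [h1]
  refine (Function.Injective.hasSum_iff Nat.cast_injective ?_).2 h
  intro i hi
  have h2 : ∃ n : ℕ, i = -((n : ℤ) + 1) := by
    refine ⟨(-i - 1).toNat, ?_⟩
    have h3 : i < 0 := by
      by_contra h4
      exact hi ⟨i.toNat, Int.toNat_of_nonneg (not_lt.1 h4)⟩
    rw [Int.toNat_of_nonneg (by omega)]
    ring
  obtain ⟨n, rfl⟩ := h2
  rw [hx_coef_neg g hg.ha n]
  simp

/-- the function `x ↦ Σ a_n r^n e^{inx}` -/
def hxS (a : ℕ → ℂ) (r : ℝ) (x : ℝ) : ℂ := ∑' n : ℕ, a n * ((r : ℂ) * E (x, 0)) ^ n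

theorem hx_norm_rE (r x : ℝ) (hr : 0 ≤ r) : ‖(r : ℂ) * E (x, 0)‖ = r := by
  rw [norm_mul, norm_E, Complex.norm_real, Real.norm_eq_abs, abs_of_nonneg hr]
  simp

theorem hx_S_cont (a : ℕ → ℂ) (C : ℝ) (hC : ∀ n, ‖a n‖ ≤ C) (r : ℝ) (hr : 0 ≤ r) (hr1 : r < 1) :
    Continuous (hxS a r) := by
  refine continuous_tsum (u := fun n => C * r ^ n) (fun n => ?_)
    ((summable_geometric_of_lt_one hr hr1).mul_left C) fun n x => ?_
  · have : Continuous fun x : ℝ => E (x, 0) := continuous_E.comp (by fun_prop)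
    fun_prop
  · rw [norm_mul, norm_pow, hx_norm_rE r x hr]
    exact mul_le_mul_of_nonneg_right (hC n) (by positivity)

theorem hx_S_bdd (a : ℕ → ℂ) (C : ℝ) (hC : ∀ n, ‖a n‖ ≤ C) (r : ℝ) (hr : 0 ≤ r) (hr1 : r < 1) (x : ℝ) :
    ‖hxS a r x‖ ≤ ∑' n : ℕ, C * r ^ n := by
  refine tsum_of_norm_bounded ((summable_geometric_of_lt_one hr hr1).mul_left C).hasSum fun n => ?_
  rw [norm_mul, norm_pow, hx_norm_rE r x hr]
  exact mul_le_mul_of_nonneg_right (hC n) (by positivity)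

theorem hx_S_int (a : ℕ → ℂ) (C : ℝ) (hC : ∀ n, ‖a n‖ ≤ C) (r : ℝ) (hr : 0 ≤ r) (hr1 : r < 1) (m : ℤ) :
    ∫ x in Set.Ioc 0 (2 * Real.pi), Complex.exp (-((m : ℂ) * Complex.I * (x : ℂ))) * hxS a r x =
      ∑' n : ℕ, a n * (r : ℂ) ^ n * (if (n : ℤ) = m then (2 * Real.pi : ℂ) else 0) := by
  have h1 : ∀ (n : ℕ) (x : ℝ), Complex.exp (-((m : ℂ) * Complex.I * (x : ℂ))) *
      (a n * ((r : ℂ) * E (x, 0)) ^ n) =
      a n * (r : ℂ) ^ n * Complex.exp ((((n : ℤ) - m : ℤ) : ℂ) * Complex.I * (x : ℂ)) := by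
    intro n x
    rw [E_zero, mul_pow, ← Complex.exp_nat_mul]
    have : Complex.exp ((((n : ℤ) - m : ℤ) : ℂ) * Complex.I * (x : ℂ)) =
        Complex.exp (-((m : ℂ) * Complex.I * (x : ℂ))) * Complex.exp ((n : ℂ) * (Complex.I * (x : ℂ))) := by
      rw [← Complex.exp_add]
      congr 1
      push_cast
      ring
    rw [this]; ring
  have hint : ∀ n : ℕ, Integrable (fun x : ℝ => Complex.exp (-((m : ℂ) * Complex.I * (x : ℂ))) *
      (a n * ((r : ℂ) * E (x, 0)) ^ n)) mu := by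
    intro n
    simp_rw [h1]
    refine Integrable.mono' (integrable_const (‖a n * (r : ℂ) ^ n‖))
      (Continuous.aestronglyMeasurable (by fun_prop)) (Eventually.of_forall fun x => ?_)
    rw [norm_mul, hx_norm_exp, mul_one]
  have hnorm : ∀ (n : ℕ) (x : ℝ), ‖Complex.exp (-((m : ℂ) * Complex.I * (x : ℂ))) *
      (a n * ((r : ℂ) * E (x, 0)) ^ n)‖ = ‖a n‖ * r ^ n := by
    intro n x
    rw [h1, norm_mul, hx_norm_exp, mul_one, norm_mul, norm_pow, Complex.norm_real, Real.norm_eq_abs,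
      abs_of_nonneg hr]
  have hsum : Summable fun n : ℕ => ∫ x : ℝ, ‖Complex.exp (-((m : ℂ) * Complex.I * (x : ℂ))) *
      (a n * ((r : ℂ) * E (x, 0)) ^ n)‖ ∂mu := by
    simp_rw [hnorm]
    simp_rw [integral_const, smul_eq_mul]
    refine Summable.mul_left _ ?_
    refine Summable.of_nonneg_of_le (fun n => by positivity)
      (fun n => mul_le_mul_of_nonneg_right (hC n) (by positivity))
      ((summable_geometric_of_lt_one hr hr1).mul_left C)
  have h2 := (hasSum_integral_of_summable_integral_norm hint hsum).tsum_eq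
  have h3 : ∫ x, ∑' n : ℕ, Complex.exp (-((m : ℂ) * Complex.I * (x : ℂ))) *
      (a n * ((r : ℂ) * E (x, 0)) ^ n) ∂mu =
      ∫ x in Set.Ioc 0 (2 * Real.pi), Complex.exp (-((m : ℂ) * Complex.I * (x : ℂ))) * hxS a r x := by
    unfold mu
    congr 1
    funext x
    rw [tsum_mul_left]
    rfl
  rw [← h3, ← h2]
  congr 1
  funext n
  simp_rw [h1]
  rw [integral_const_mul]
  congr 1
  have h4 := hx_int_exp ((n : ℤ) - m)
  have h5 : ∫ x : ℝ, Complex.exp ((((n : ℤ) - m : ℤ) : ℂ) * Complex.I * (x : ℂ)) ∂mu =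
      if (n : ℤ) - m = 0 then (2 * Real.pi : ℂ) else 0 := h4
  rw [h5]
  simp only [sub_eq_zero]

theorem hx_S_coef (a : ℕ → ℂ) (C : ℝ) (hC : ∀ n, ‖a n‖ ≤ C) (r : ℝ) (hr : 0 ≤ r) (hr1 : r < 1) (m : ℕ) :
    coef (hxS a r) m = a m * (r : ℂ) ^ m := by
  have h := hx_S_int a C hC r hr hr1 (m : ℤ)
  unfold coef
  have h1 : ∫ x in Set.Ioc 0 (2 * Real.pi), Complex.exp (-((m : ℂ) * Complex.I * (x : ℂ))) * hxS a r x =
      a m * (r : ℂ) ^ m * (2 * Real.pi : ℂ) := by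
    have h2 : ∫ x in Set.Ioc 0 (2 * Real.pi), Complex.exp (-((((m : ℤ) : ℂ)) * Complex.I * (x : ℂ))) *
        hxS a r x = ∫ x in Set.Ioc 0 (2 * Real.pi),
          Complex.exp (-((m : ℂ) * Complex.I * (x : ℂ))) * hxS a r x := by simp
    rw [← h2, h, tsum_eq_single m]
    · simp
    · intro n hn
      rw [if_neg (by exact_mod_cast hn), mul_zero]
  rw [h1]
  have hpi : (Real.pi : ℂ) ≠ 0 := by exact_mod_cast Real.pi_ne_zero
  push_cast
  field_simp

theorem hx_S_HA (a : ℕ → ℂ) (C : ℝ) (hC : ∀ n, ‖a n‖ ≤ C) (r : ℝ) (hr : 0 ≤ r) (hr1 : r < 1) :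
    HA (hxS a r) := by
  intro n
  have h := hx_S_int a C hC r hr hr1 (-((n : ℤ) + 1))
  have h1 : ∀ k : ℕ, a k * (r : ℂ) ^ k *
      (if (k : ℤ) = -((n : ℤ) + 1) then (2 * Real.pi : ℂ) else 0) = 0 := by
    intro k
    rw [if_neg (by omega), mul_zero]
  simp_rw [h1] at h
  rw [tsum_zero] at h
  rw [← h]
  congr 1
  funext x
  congr 2
  push_cast
  ring

theorem hx_S_Htwo (a : ℕ → ℂ) (C : ℝ) (hC : ∀ n, ‖a n‖ ≤ C) (r : ℝ) (hr : 0 ≤ r) (hr1 : r < 1) :
    Htwo (hxS a r) :=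
  ⟨MemLp.of_bound (hx_S_cont a C hC r hr hr1).aestronglyMeasurable _
    (Eventually.of_forall (hx_S_bdd a C hC r hr hr1)), hx_S_HA a C hC r hr hr1⟩

theorem hx_coef_sub (f g : ℝ → ℂ) (hf : Htwo f) (hg : Htwo g) (n : ℕ) :
    coef (fun x => f x - g x) n = coef f n - coef g n := by
  unfold coef
  rw [← mul_sub]
  congr 1
  have hc : Continuous fun x : ℝ => Complex.exp (-((n : ℂ) * Complex.I * (x : ℂ))) := by fun_prop
  have i1 := hx_integrable_mul f (hx_integrable f hf) _ hc 1 fun x => (hx_norm_exp_nat n x).le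
  have i2 := hx_integrable_mul g (hx_integrable g hg) _ hc 1 fun x => (hx_norm_exp_nat n x).le
  have h := integral_sub i1 i2
  have h2 : ∫ x, (Complex.exp (-((n : ℂ) * Complex.I * (x : ℂ))) * f x -
      Complex.exp (-((n : ℂ) * Complex.I * (x : ℂ))) * g x) ∂mu =
      ∫ x in Set.Ioc 0 (2 * Real.pi), Complex.exp (-((n : ℂ) * Complex.I * (x : ℂ))) * (f x - g x) := by
    unfold mu
    congr 1
    funext x
    ring
  rw [← h2]
  exact h

theorem ext_L2 (f : ℝ → ℂ) (hf : Htwo f) :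
    Tendsto (fun r : ℝ => ∫ x in Set.Ioc 0 (2 * Real.pi), ‖ext f ((r : ℂ) * E (x, 0)) - f x‖ ^ 2)
      (𝓝[<] 1) (𝓝 0) := by
  have hsum := (hx_parseval f hf).summable
  have hev : ∀ᶠ r : ℝ in 𝓝[<] 1, 0 ≤ r ∧ r < 1 := by
    have h1 : ∀ᶠ r : ℝ in 𝓝[<] 1, r < 1 := self_mem_nhdsWithin
    have h2 : ∀ᶠ r : ℝ in 𝓝[<] 1, 0 < r :=
      (lt_mem_nhds (show (0 : ℝ) < 1 from one_pos)).filter_mono nhdsWithin_le_nhds
    filter_upwards [h1, h2] with r h3 h4
    exact ⟨h4.le, h3⟩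
  have hkey : ∀ r : ℝ, 0 ≤ r → r < 1 →
      ∫ x in Set.Ioc 0 (2 * Real.pi), ‖ext f ((r : ℂ) * E (x, 0)) - f x‖ ^ 2 =
        (2 * Real.pi) * ∑' n : ℕ, ‖coef f n‖ ^ 2 * (1 - r ^ n) ^ 2 := by
    intro r hr hr1
    have hS := hx_S_Htwo (coef f) _ (hx_coef_le f) r hr hr1
    have hg : Htwo (fun x => hxS (coef f) r x - f x) := by
      have := hS.add (hf.smul (-1))
      refine ⟨?_, ?_⟩
      · convert this.mem using 1
        funext x; ring
      · intro n
        have h1 := this.ha n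
        rw [← h1]
        congr 1
        funext x
        ring
    have h1 := (hx_parseval _ hg).tsum_eq
    have h2 : ∀ n, coef (fun x => hxS (coef f) r x - f x) n = -(coef f n * (1 - (r : ℂ) ^ n)) := by
      intro n
      rw [hx_coef_sub _ _ hS hf, hx_S_coef (coef f) _ (hx_coef_le f) r hr hr1]
      ring
    have h3 : ∀ n, ‖coef (fun x => hxS (coef f) r x - f x) n‖ ^ 2 = ‖coef f n‖ ^ 2 * (1 - r ^ n) ^ 2 := by
      intro n
      rw [h2, norm_neg, norm_mul, mul_pow]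
      congr 1
      have : (1 : ℂ) - (r : ℂ) ^ n = ((1 - r ^ n : ℝ) : ℂ) := by push_cast; ring
      rw [this, Complex.norm_real, Real.norm_eq_abs, sq_abs]
    simp_rw [h3] at h1
    rw [h1]
    have h4 : ∀ x, ext f ((r : ℂ) * E (x, 0)) = hxS (coef f) r x := fun x => rfl
    simp_rw [h4]
    have h5 : (2 * Real.pi : ℝ) ≠ 0 := hx_pos.ne'
    field_simp
  have hlim : Tendsto (fun r : ℝ => ∑' n : ℕ, ‖coef f n‖ ^ 2 * (1 - r ^ n) ^ 2) (𝓝[<] 1)
      (𝓝 (∑' n : ℕ, ‖coef f n‖ ^ 2 * (1 - (1 : ℝ) ^ n) ^ 2)) := by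
    refine tendsto_tsum_of_dominated_convergence (bound := fun n => ‖coef f n‖ ^ 2) hsum
      (fun n => ?_) ?_
    · have hc : Continuous fun r : ℝ => ‖coef f n‖ ^ 2 * (1 - r ^ n) ^ 2 := by fun_prop
      exact (hc.tendsto 1).mono_left nhdsWithin_le_nhds
    · filter_upwards [hev] with r hr n
      have h1 : 0 ≤ r ^ n := pow_nonneg hr.1 n
      have h2 : r ^ n ≤ 1 := pow_le_one₀ hr.1 hr.2.le
      rw [Real.norm_eq_abs, abs_of_nonneg (by positivity)]
      have h3 : (1 - r ^ n) ^ 2 ≤ 1 := by nlinarith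
      calc ‖coef f n‖ ^ 2 * (1 - r ^ n) ^ 2 ≤ ‖coef f n‖ ^ 2 * 1 :=
            mul_le_mul_of_nonneg_left h3 (by positivity)
        _ = _ := mul_one _
  have h0 : ∑' n : ℕ, ‖coef f n‖ ^ 2 * (1 - (1 : ℝ) ^ n) ^ 2 = 0 := by simp
  rw [h0] at hlim
  have h1 := hlim.const_mul (2 * Real.pi)
  rw [mul_zero] at h1
  refine h1.congr' ?_
  filter_upwards [hev] with r hr
  exact (hkey r hr.1 hr.2).symm

theorem ext_zero (f : ℝ → ℂ) : ext f 0 = coef f 0 := by
  unfold ext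
  rw [tsum_eq_single 0]
  · simp
  · intro n hn
    simp [hn]

theorem coef_of_ext (f g : ℝ → ℂ) (hf : Htwo f) (hg : Htwo g)
    (h : ∀ w ∈ Metric.ball (0 : ℂ) 1, ext f w = ext g w) : ∀ n, coef f n = coef g n := by
  have key : ∀ f : ℝ → ℂ, HasFPowerSeriesAt (ext f) (FormalMultilinearSeries.ofScalars ℂ (coef f)) 0 := by
    intro f
    rw [hasFPowerSeriesAt_iff]
    filter_upwards [Metric.ball_mem_nhds (0 : ℂ) one_pos] with z hz
    rw [mem_ball_zero_iff] at hz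
    have h1 := (hx_summable (coef f) _ (hx_coef_le f) z hz).hasSum
    rw [zero_add]
    have h2 : (fun n => z ^ n • (FormalMultilinearSeries.ofScalars ℂ (coef f)).coeff n) =
        fun n => coef f n * z ^ n := by
      funext n
      rw [FormalMultilinearSeries.coeff_ofScalars, smul_eq_mul, mul_comm]
    rw [h2]
    exact h1
  have h1 : ext f =ᶠ[𝓝 0] ext g := by
    filter_upwards [Metric.ball_mem_nhds (0 : ℂ) one_pos] with z hz
    exact h z hz
  have h2 := (key f).congr h1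
  have h3 := h2.eq_formalMultilinearSeries (key g)
  intro n
  have h4 := congrArg (fun p => FormalMultilinearSeries.coeff p n) h3
  simpa using h4

end Pool.H14.SR
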