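import Pool.Agent.H14.SR.Basic
import Pool.Agent.H14.SR.HB
import Pool.Agent.H14.SR.HX
open MeasureTheory Set Filter Topology
noncomputable section
namespace Pool.H14.SR


/-! ### auxiliary lemmas -/

theorem hm_orth (j : ℤ) : ∫ x, Complex.exp ((j : ℂ) * Complex.I * (x : ℂ)) ∂mu
    = if j = 0 then (2 * Real.pi : ℂ) else 0 := by
  change ∫ x in Set.Ioc 0 (2 * Real.pi), Complex.exp ((j : ℂ) * Complex.I * (x : ℂ)) = _
  rw [← intervalIntegral.integral_of_le (by positivity)]
  by_cases hj : j = 0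
  · simp [hj]
  · rw [if_neg hj]
    have hc : (j : ℂ) * Complex.I ≠ 0 := mul_ne_zero (by exact_mod_cast hj) Complex.I_ne_zero
    rw [integral_exp_mul_complex hc]
    have h1 : Complex.exp ((j : ℂ) * Complex.I * ((2 * Real.pi : ℝ) : ℂ)) = 1 := by
      have h2 : (j : ℂ) * Complex.I * ((2 * Real.pi : ℝ) : ℂ) = (j : ℂ) * (2 * Real.pi * Complex.I) := by
        push_cast; ring
      rw [h2]
      exact Complex.exp_int_mul_two_pi_mul_I j
    rw [h1]
    simp

theorem hm_norm_exp (t x : ℝ) : ‖Complex.exp ((t : ℂ) * Complex.I * (x : ℂ))‖ = 1 := by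
  have h : (t : ℂ) * Complex.I * (x : ℂ) = ((t * x : ℝ) : ℂ) * Complex.I := by push_cast; ring
  rw [h, Complex.norm_exp_ofReal_mul_I]

theorem hm_cont_exp (t : ℂ) : Continuous (fun x : ℝ => Complex.exp (t * (x : ℂ))) := by fun_prop

theorem hm_int_exp_mul (t : ℝ) {h : ℝ → ℂ} (hh : Integrable h mu) :
    Integrable (fun x : ℝ => Complex.exp ((t : ℂ) * Complex.I * (x : ℂ)) * h x) mu := by
  refine Integrable.mono' hh.norm ((hm_cont_exp _).aestronglyMeasurable.mul hh.1)
    (Filter.Eventually.of_forall fun x => ?_)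
  rw [norm_mul, hm_norm_exp, one_mul]

theorem hm_series (a : ℕ → ℂ) (ha : Summable fun k => ‖a k‖) {h : ℝ → ℂ} (hh : Integrable h mu) :
    ∫ x : ℝ, (∑' k : ℕ, a k * Complex.exp ((k : ℂ) * Complex.I * (x : ℂ))) * h x ∂mu
      = ∑' k : ℕ, a k * ∫ x : ℝ, Complex.exp ((k : ℂ) * Complex.I * (x : ℂ)) * h x ∂mu := by
  have h1 : ∀ k : ℕ, Integrable
      (fun x : ℝ => a k * (Complex.exp ((k : ℂ) * Complex.I * (x : ℂ)) * h x)) mu := by
    intro k
    have := (hm_int_exp_mul (k : ℝ) hh).const_mul (a k)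
    simpa using this
  have hn : ∀ k : ℕ, ∀ x : ℝ, ‖a k * (Complex.exp ((k : ℂ) * Complex.I * (x : ℂ)) * h x)‖
      = ‖a k‖ * ‖h x‖ := by
    intro k x
    have h3 := hm_norm_exp (k : ℝ) x
    rw [Complex.ofReal_natCast] at h3
    rw [norm_mul, norm_mul, h3, one_mul]
  have h2 : Summable (fun k : ℕ =>
      ∫ x : ℝ, ‖a k * (Complex.exp ((k : ℂ) * Complex.I * (x : ℂ)) * h x)‖ ∂mu) := by
    simp only [hn, integral_const_mul]
    exact ha.mul_right _
  have h3 := hasSum_integral_of_summable_integral_norm h1 h2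
  have h4 : ∀ x : ℝ, ∑' k : ℕ, a k * (Complex.exp ((k : ℂ) * Complex.I * (x : ℂ)) * h x)
      = (∑' k : ℕ, a k * Complex.exp ((k : ℂ) * Complex.I * (x : ℂ))) * h x := by
    intro x
    rw [← tsum_mul_right]
    exact tsum_congr (fun k => by ring)
  simp only [h4] at h3
  rw [← h3.tsum_eq]
  exact tsum_congr (fun k => by rw [integral_const_mul])

theorem hm_coef_bound {f : ℝ → ℂ} (n : ℕ) :
    ‖coef f n‖ ≤ (1 / (2 * Real.pi)) * ∫ x, ‖f x‖ ∂mu := by
  unfold coef
  rw [norm_mul, Complex.norm_real, Real.norm_of_nonneg (by positivity)]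
  refine mul_le_mul_of_nonneg_left ?_ (by positivity)
  refine (norm_integral_le_integral_norm _).trans (le_of_eq ?_)
  refine integral_congr_ae (Filter.Eventually.of_forall fun x => ?_)
  change ‖Complex.exp (-((n : ℂ) * Complex.I * (x : ℂ))) * f x‖ = ‖f x‖
  have h : -((n : ℂ) * Complex.I * (x : ℂ)) = ((-(n : ℝ) : ℝ) : ℂ) * Complex.I * (x : ℂ) := by
    push_cast; ring
  rw [norm_mul, h, hm_norm_exp, one_mul]

theorem hm_summable (f : ℝ → ℂ) {w : ℂ} (hw : ‖w‖ < 1) : Summable (fun k => ‖coef f k * w ^ k‖) := by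
  have h1 : Summable (fun k : ℕ => ((1 / (2 * Real.pi)) * ∫ x, ‖f x‖ ∂mu) * ‖w‖ ^ k) :=
    (summable_geometric_of_lt_one (norm_nonneg _) hw).mul_left _
  refine Summable.of_nonneg_of_le (fun k => norm_nonneg _) (fun k => ?_) h1
  rw [norm_mul, norm_pow]
  exact mul_le_mul_of_nonneg_right (hm_coef_bound k) (by positivity)

theorem hm_circle (f : ℝ → ℂ) (r x : ℝ) : ext f ((r : ℂ) * E (x, 0))
    = ∑' k : ℕ, (coef f k * (r : ℂ) ^ k) * Complex.exp ((k : ℂ) * Complex.I * (x : ℂ)) := by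
  unfold ext
  refine tsum_congr (fun k => ?_)
  rw [E_zero, mul_pow, ← Complex.exp_nat_mul]
  ring_nf

theorem hm_neg_exp (n : ℕ) (x : ℝ) : Complex.exp (-((n : ℂ) * Complex.I * (x : ℂ)))
    = Complex.exp (((-(n : ℝ) : ℝ) : ℂ) * Complex.I * (x : ℂ)) := by
  congr 1; push_cast; ring

/-- `L²` smallness implies `L¹` smallness -/
theorem hm_L1 {l : Filter ℝ} (D : ℝ → ℝ → ℂ) (hD : ∀ᶠ r in l, MemLp (D r) 2 mu)
    (h : Tendsto (fun r => ∫ x, ‖D r x‖ ^ 2 ∂mu) l (𝓝 0)) :
    Tendsto (fun r => ∫ x, ‖D r x‖ ∂mu) l (𝓝 0) := by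
  rw [Metric.tendsto_nhds]
  intro ε hε
  have hpi := Real.pi_pos
  have hmu : mu.real Set.univ = 2 * Real.pi := by
    unfold mu
    rw [Measure.real, Measure.restrict_apply_univ, Real.volume_Ioc, sub_zero,
      ENNReal.toReal_ofReal (by positivity)]
  obtain ⟨t, ht⟩ : ∃ t, t = ε / (2 * Real.pi) := ⟨_, rfl⟩
  have ht0 : 0 < t := by rw [ht]; positivity
  have h2 := (Metric.tendsto_nhds.1 h) (t * ε) (by positivity)
  filter_upwards [hD, h2] with r hr hr2
  rw [Real.dist_eq, sub_zero] at hr2 ⊢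
  have hi1 : Integrable (fun x => ‖D r x‖) mu := (hr.integrable (by norm_num)).norm
  have hi2 : Integrable (fun x => ‖D r x‖ ^ 2) mu := by
    have := hr.integrable_norm_pow (by norm_num)
    simpa using this
  have hnn : 0 ≤ ∫ x, ‖D r x‖ ∂mu := integral_nonneg (fun x => norm_nonneg _)
  have hnn2 : 0 ≤ ∫ x, ‖D r x‖ ^ 2 ∂mu := integral_nonneg (fun x => by positivity)
  rw [abs_of_nonneg hnn2] at hr2
  rw [abs_of_nonneg hnn]
  have h3 : ∫ x, ‖D r x‖ ∂mu ≤ ∫ x, (t / 2 + (1 / (2 * t)) * ‖D r x‖ ^ 2) ∂mu := by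
    refine integral_mono hi1 ((integrable_const _).add (hi2.const_mul _)) (fun x => ?_)
    have h4 : t / 2 + (1 / (2 * t)) * ‖D r x‖ ^ 2 - ‖D r x‖ = (1 / (2 * t)) * (t - ‖D r x‖) ^ 2 := by
      field_simp; ring
    have h5 : 0 ≤ (1 / (2 * t)) * (t - ‖D r x‖) ^ 2 := by positivity
    change ‖D r x‖ ≤ t / 2 + (1 / (2 * t)) * ‖D r x‖ ^ 2
    linarith
  rw [integral_add (integrable_const _) (hi2.const_mul _), integral_const, integral_const_mul,
    hmu, smul_eq_mul] at h3
  have h6 : (1 / (2 * t)) * ∫ x, ‖D r x‖ ^ 2 ∂mu < ε / 2 := by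
    have h7 : (1 / (2 * t)) * ∫ x, ‖D r x‖ ^ 2 ∂mu < (1 / (2 * t)) * (t * ε) :=
      mul_lt_mul_of_pos_left hr2 (by positivity)
    have h8 : (1 / (2 * t)) * (t * ε) = ε / 2 := by field_simp
    linarith
  have h9 : 2 * Real.pi * (t / 2) = ε / 2 := by rw [ht]; field_simp
  linarith

theorem hm_ball (r : ℝ) (h0 : 0 ≤ r) (h1 : r < 1) (x : ℝ) :
    (r : ℂ) * E (x, 0) ∈ Metric.ball (0 : ℂ) 1 := by
  rw [mem_ball_zero_iff, norm_mul, norm_E, Complex.norm_real, Real.norm_of_nonneg h0]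
  simpa using h1

theorem hm_circle_memLp {G : ℂ → ℂ} (hG : ContinuousOn G (Metric.ball 0 1)) (r : ℝ) (h0 : 0 ≤ r)
    (h1 : r < 1) : MemLp (fun x => G ((r : ℂ) * E (x, 0))) 2 mu := by
  have hsub : Metric.closedBall (0 : ℂ) r ⊆ Metric.ball 0 1 := Metric.closedBall_subset_ball h1
  obtain ⟨C, hC⟩ := (isCompact_closedBall (0 : ℂ) r).exists_bound_of_continuousOn (hG.mono hsub)
  have hE : Continuous (fun x : ℝ => (r : ℂ) * E (x, 0)) := by
    have := continuous_E
    fun_prop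
  have hcont : Continuous (fun x : ℝ => G ((r : ℂ) * E (x, 0))) :=
    hG.comp_continuous hE (fun x => hm_ball r h0 h1 x)
  refine MemLp.of_bound hcont.aestronglyMeasurable C (Filter.Eventually.of_forall fun x => ?_)
  apply hC
  rw [mem_closedBall_zero_iff, norm_mul, norm_E, Complex.norm_real, Real.norm_of_nonneg h0]
  simp

theorem hm_ev : ∀ᶠ r : ℝ in 𝓝[<] (1:ℝ), 0 ≤ r ∧ r < 1 := by
  have h1 : ∀ᶠ r : ℝ in 𝓝[<] (1:ℝ), 0 < r :=
    nhdsWithin_le_nhds (lt_mem_nhds (by norm_num))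
  filter_upwards [h1, self_mem_nhdsWithin] with r hr hr2
  exact ⟨hr.le, hr2⟩

/-- convergence of integrals against bounded functions -/
theorem hm_conv (F : ℝ → ℝ → ℂ) (F0 h : ℝ → ℂ) (C : ℝ) (hh : AEStronglyMeasurable h mu)
    (hC : ∀ᵐ x ∂mu, ‖h x‖ ≤ C) (hF : ∀ᶠ r : ℝ in 𝓝[<] (1:ℝ), Integrable (F r) mu) (hF0 : Integrable F0 mu)
    (hl : Tendsto (fun r => ∫ x, ‖F r x - F0 x‖ ∂mu) (𝓝[<] 1) (𝓝 0)) :
    Tendsto (fun r => ∫ x, h x * F r x ∂mu) (𝓝[<] 1) (𝓝 (∫ x, h x * F0 x ∂mu)) := by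
  have hint : ∀ {k : ℝ → ℂ}, Integrable k mu → Integrable (fun x => h x * k x) mu := by
    intro k hk
    refine Integrable.mono' (hk.norm.const_mul C) (hh.mul hk.1) ?_
    filter_upwards [hC] with x hx
    rw [norm_mul]
    exact mul_le_mul_of_nonneg_right hx (norm_nonneg _)
  rw [tendsto_iff_norm_sub_tendsto_zero]
  have h0 : Tendsto (fun r => C * ∫ x, ‖F r x - F0 x‖ ∂mu) (𝓝[<] 1) (𝓝 0) := by
    simpa using hl.const_mul C
  refine squeeze_zero' (Filter.Eventually.of_forall fun r => norm_nonneg _) ?_ h0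
  filter_upwards [hF] with r hr
  rw [← integral_sub (hint hr) (hint hF0), ← integral_const_mul]
  refine (norm_integral_le_integral_norm _).trans ?_
  refine integral_mono_ae ((hint hr).sub (hint hF0)).norm ((hr.sub hF0).norm.const_mul C) ?_
  filter_upwards [hC] with x hx
  change ‖h x * F r x - h x * F0 x‖ ≤ C * ‖F r x - F0 x‖
  rw [← mul_sub, norm_mul]
  exact mul_le_mul_of_nonneg_right hx (norm_nonneg _)

theorem hm_two_pi_coef (g : ℝ → ℂ) (n : ℕ) :
    ∫ x : ℝ, Complex.exp (-((n : ℂ) * Complex.I * (x : ℂ))) * g x ∂mu = 2 * Real.pi * coef g n := by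
  unfold coef
  have h : ((2 * Real.pi : ℝ) : ℂ) ≠ 0 := by
    have := Real.pi_pos
    exact_mod_cast (by positivity : (2 * Real.pi : ℝ) ≠ 0)
  have h2 : (2 * Real.pi : ℂ) * (((1 / (2 * Real.pi) : ℝ) : ℂ)) = 1 := by
    push_cast
    push_cast at h
    field_simp
  rw [← mul_assoc, h2, one_mul]
  rfl

theorem hm_bd {g : ℝ → ℂ} (hg : Hinf g) : ∃ C : ℝ, ∀ᵐ x ∂mu, ‖g x‖ ≤ C := by
  obtain ⟨_, C, _, hC⟩ := memLp_top_iff.1 hg.mem
  exact ⟨C, hC⟩

/-- coefficients of a product -/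
theorem hm_coef_mul (f g : ℝ → ℂ) (hf : Htwo f) (hg : Hinf g) (n : ℕ) :
    coef (fun x => f x * g x) n = ∑ k ∈ Finset.range (n + 1), coef f k * coef g (n - k) := by
  obtain ⟨C, hC⟩ := hm_bd hg
  have hgi : Integrable g mu := hg.mem.integrable (by simp)
  obtain ⟨h, hh⟩ : ∃ h : ℝ → ℂ, h = fun x : ℝ => Complex.exp (-((n : ℂ) * Complex.I * (x : ℂ))) * g x :=
    ⟨_, rfl⟩
  have hhi : Integrable h mu := by
    have h1 := hm_int_exp_mul (-(n : ℝ)) hgi
    rw [hh]
    simpa only [hm_neg_exp] using h1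
  have hhC : ∀ᵐ x ∂mu, ‖h x‖ ≤ C := by
    filter_upwards [hC] with x hx
    rw [hh]
    change ‖Complex.exp (-((n : ℂ) * Complex.I * (x : ℂ))) * g x‖ ≤ C
    rw [norm_mul, hm_neg_exp, hm_norm_exp, one_mul]
    exact hx
  have hfi : Integrable f mu := hf.mem.integrable (by norm_num)
  have hec := (ext_diff f hf).continuousOn
  have hD : ∀ᶠ r : ℝ in 𝓝[<] (1:ℝ), MemLp (fun x => ext f ((r : ℂ) * E (x, 0)) - f x) 2 mu := by
    filter_upwards [hm_ev] with r hr
    exact (hm_circle_memLp hec r hr.1 hr.2).sub hf.mem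
  have hL1 := hm_L1 (fun r x => ext f ((r : ℂ) * E (x, 0)) - f x) hD (ext_L2 f hf)
  have hFi : ∀ᶠ r : ℝ in 𝓝[<] (1:ℝ), Integrable (fun x => ext f ((r : ℂ) * E (x, 0))) mu := by
    filter_upwards [hm_ev] with r hr
    exact (hm_circle_memLp hec r hr.1 hr.2).integrable (by norm_num)
  have hlim := hm_conv (fun r x => ext f ((r : ℂ) * E (x, 0))) f h C hhi.1 hhC hFi hfi hL1
  -- evaluate for r < 1
  have hval : ∀ᶠ r : ℝ in 𝓝[<] (1:ℝ), ∫ x, h x * ext f ((r : ℂ) * E (x, 0)) ∂mu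
      = ∑ k ∈ Finset.range (n + 1), coef f k * (r : ℂ) ^ k * (2 * Real.pi * coef g (n - k)) := by
    filter_upwards [hm_ev] with r hr
    have hs : Summable (fun k => ‖coef f k * (r : ℂ) ^ k‖) := hm_summable f (by
      rw [Complex.norm_real, Real.norm_of_nonneg hr.1]; exact hr.2)
    have h1 := hm_series (fun k => coef f k * (r : ℂ) ^ k) hs hhi
    have h2 : ∀ x : ℝ, h x * ext f ((r : ℂ) * E (x, 0))
        = (∑' k : ℕ, (coef f k * (r : ℂ) ^ k) * Complex.exp ((k : ℂ) * Complex.I * (x : ℂ))) * h x := by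
      intro x
      rw [hm_circle, mul_comm]
    simp only [h2]
    rw [h1]
    have h3 : ∀ k : ℕ, ∫ x : ℝ, Complex.exp ((k : ℂ) * Complex.I * (x : ℂ)) * h x ∂mu
        = if k ∈ Finset.range (n + 1) then 2 * Real.pi * coef g (n - k) else 0 := by
      intro k
      rw [hh]
      by_cases hk : k ∈ Finset.range (n + 1)
      · rw [if_pos hk, ← hm_two_pi_coef]
        have hk' : k ≤ n := by simpa [Nat.lt_succ_iff] using hk
        refine integral_congr_ae (Filter.Eventually.of_forall fun x => ?_)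
        change Complex.exp ((k : ℂ) * Complex.I * (x : ℂ)) *
          (Complex.exp (-((n : ℂ) * Complex.I * (x : ℂ))) * g x)
          = Complex.exp (-(((n - k : ℕ) : ℂ) * Complex.I * (x : ℂ))) * g x
        rw [← mul_assoc, ← Complex.exp_add]
        congr 2
        rw [Nat.cast_sub hk']
        ring
      · rw [if_neg hk]
        have hk' : n < k := by
          simp only [Finset.mem_range, not_lt] at hk
          omega
        have h4 := hg.ha (k - n - 1)
        refine Eq.trans ?_ h4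
        change _ = ∫ x : ℝ, Complex.exp ((((k - n - 1 : ℕ) : ℂ) + 1) * Complex.I * (x : ℂ)) * g x ∂mu
        refine integral_congr_ae (Filter.Eventually.of_forall fun x => ?_)
        change Complex.exp ((k : ℂ) * Complex.I * (x : ℂ)) *
          (Complex.exp (-((n : ℂ) * Complex.I * (x : ℂ))) * g x)
          = Complex.exp ((((k - n - 1 : ℕ) : ℂ) + 1) * Complex.I * (x : ℂ)) * g x
        rw [← mul_assoc, ← Complex.exp_add]
        congr 2
        have h5 : ((k - n - 1 : ℕ) : ℂ) + 1 = (k : ℂ) - n := by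
          have h6 : (k - n - 1 : ℕ) + 1 + n = k := by omega
          have h7 : (((k - n - 1 : ℕ) + 1 + n : ℕ) : ℂ) = (k : ℂ) := by rw [h6]
          push_cast at h7
          linear_combination h7
        rw [h5]
        ring
    simp only [h3]
    rw [tsum_eq_sum (s := Finset.range (n + 1))]
    · refine Finset.sum_congr rfl (fun k hk => ?_)
      rw [if_pos hk]
    · intro k hk
      rw [if_neg hk, mul_zero]
  have hlim2 : Tendsto (fun r : ℝ =>
      ∑ k ∈ Finset.range (n + 1), coef f k * (r : ℂ) ^ k * (2 * Real.pi * coef g (n - k)))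
      (𝓝[<] 1) (𝓝 (∑ k ∈ Finset.range (n + 1), coef f k * ((1 : ℝ) : ℂ) ^ k *
        (2 * Real.pi * coef g (n - k)))) := by
    have hcont : Continuous (fun r : ℝ =>
      ∑ k ∈ Finset.range (n + 1), coef f k * (r : ℂ) ^ k * (2 * Real.pi * coef g (n - k))) := by
      fun_prop
    exact (hcont.tendsto 1).mono_left nhdsWithin_le_nhds
  have heq := tendsto_nhds_unique (hlim.congr' hval) hlim2
  have h1 : ∫ x, h x * f x ∂mu = 2 * Real.pi * coef (fun x => f x * g x) n := by
    rw [← hm_two_pi_coef, hh]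
    refine integral_congr_ae (Filter.Eventually.of_forall fun x => ?_)
    change Complex.exp (-((n : ℂ) * Complex.I * (x : ℂ))) * g x * f x
      = Complex.exp (-((n : ℂ) * Complex.I * (x : ℂ))) * (f x * g x)
    ring
  rw [h1] at heq
  have h2 : ∑ k ∈ Finset.range (n + 1), coef f k * ((1 : ℝ) : ℂ) ^ k * (2 * Real.pi * coef g (n - k))
      = 2 * Real.pi * ∑ k ∈ Finset.range (n + 1), coef f k * coef g (n - k) := by
    rw [Finset.mul_sum]
    refine Finset.sum_congr rfl (fun k _ => ?_)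
    rw [Complex.ofReal_one, one_pow]
    ring
  rw [h2] at heq
  have hpi : (2 * Real.pi : ℂ) ≠ 0 := by
    have := Real.pi_pos
    exact_mod_cast (by positivity : (2 * Real.pi : ℝ) ≠ 0)
  exact mul_left_cancel₀ hpi heq

theorem hm_exp_lip (M : ℝ) (z w : ℂ) (hz : z.re ≤ M) (hw : w.re ≤ M) :
    ‖Complex.exp z - Complex.exp w‖ ≤ Real.exp M * ‖z - w‖ := by
  have hconv : Convex ℝ {u : ℂ | u.re ≤ M} := convex_halfSpace_re_le M
  refine hconv.norm_image_sub_le_of_norm_deriv_le (𝕜 := ℂ) (f := Complex.exp) (fun u _ => ?_)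
    (fun u hu => ?_) hw hz
  · exact Complex.differentiable_exp u
  · rw [Complex.deriv_exp, Complex.norm_exp]
    exact Real.exp_le_exp.2 hu

/-- Fourier coefficients of an analytic function on a circle -/
theorem hm_taylor (G : ℂ → ℂ) (hG : DifferentiableOn ℂ G (Metric.ball 0 1)) :
    ∃ c : ℕ → ℂ, (∀ w ∈ Metric.ball (0 : ℂ) 1, HasSum (fun n => c n * w ^ n) (G w)) ∧
      ∀ (j : ℤ) (r : ℝ), 0 ≤ r → r < 1 →
        ∫ x : ℝ, Complex.exp ((j : ℂ) * Complex.I * (x : ℂ)) * G ((r : ℂ) * E (x, 0)) ∂mu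
          = if j ≤ 0 then 2 * Real.pi * (c j.natAbs * (r : ℂ) ^ j.natAbs) else 0 := by
  obtain ⟨c, hc⟩ : ∃ c : ℕ → ℂ, c = fun n => (n.factorial : ℂ)⁻¹ * iteratedDeriv n G 0 := ⟨_, rfl⟩
  have hcs : ∀ w ∈ Metric.ball (0 : ℂ) 1, HasSum (fun n => c n * w ^ n) (G w) := by
    intro w hw
    have h := Complex.hasSum_taylorSeries_on_ball hG hw
    rw [hc]
    refine h.congr_fun ?_
    intro n
    simp only [sub_zero, smul_eq_mul]
    ring
  refine ⟨c, hcs, ?_⟩
  · intro j r h0 h1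
    have hrb : (r : ℂ) ∈ Metric.ball (0 : ℂ) 1 := by
      rw [mem_ball_zero_iff, Complex.norm_real, Real.norm_of_nonneg h0]; exact h1
    have hs : Summable (fun k => ‖c k * (r : ℂ) ^ k‖) := (hcs _ hrb).summable.norm
    have hi : Integrable (fun x : ℝ => Complex.exp ((j : ℂ) * Complex.I * (x : ℂ))) mu := by
      have := hm_int_exp_mul (j : ℝ) (integrable_const (μ := mu) (1 : ℂ))
      simpa using this
    have h2 := hm_series (fun k => c k * (r : ℂ) ^ k) hs hi
    have h3 : ∀ x : ℝ, Complex.exp ((j : ℂ) * Complex.I * (x : ℂ)) * G ((r : ℂ) * E (x, 0))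
        = (∑' k : ℕ, (c k * (r : ℂ) ^ k) * Complex.exp ((k : ℂ) * Complex.I * (x : ℂ)))
          * Complex.exp ((j : ℂ) * Complex.I * (x : ℂ)) := by
      intro x
      rw [← (hcs _ (hm_ball r h0 h1 x)).tsum_eq, mul_comm]
      congr 1
      refine tsum_congr (fun k => ?_)
      rw [E_zero, mul_pow, ← Complex.exp_nat_mul]
      ring_nf
    have h4 : ∀ k : ℕ, ∫ x : ℝ, Complex.exp ((k : ℂ) * Complex.I * (x : ℂ)) *
        Complex.exp ((j : ℂ) * Complex.I * (x : ℂ)) ∂mu
        = if (k : ℤ) + j = 0 then (2 * Real.pi : ℂ) else 0 := by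
      intro k
      rw [← hm_orth]
      refine integral_congr_ae (Filter.Eventually.of_forall fun x => ?_)
      change Complex.exp ((k : ℂ) * Complex.I * (x : ℂ)) *
        Complex.exp ((j : ℂ) * Complex.I * (x : ℂ)) = Complex.exp ((((k : ℤ) + j : ℤ) : ℂ) * Complex.I * (x : ℂ))
      rw [← Complex.exp_add]
      congr 1
      push_cast
      ring
    simp only [h3]
    rw [h2]
    simp only [h4]
    by_cases hj : j ≤ 0
    · rw [if_pos hj, tsum_eq_single j.natAbs]
      · have h5 : ((j.natAbs : ℕ) : ℤ) + j = 0 := by omega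
        rw [if_pos h5]
        ring
      · intro k hk
        have h5 : ¬ ((k : ℤ) + j = 0) := by
          intro h
          apply hk
          omega
        rw [if_neg h5, mul_zero]
    · rw [if_neg hj]
      have h5 : ∀ k : ℕ, (c k * (r : ℂ) ^ k) * (if (k : ℤ) + j = 0 then (2 * Real.pi : ℂ) else 0) = 0 := by
        intro k
        have h6 : ¬ ((k : ℤ) + j = 0) := by omega
        rw [if_neg h6, mul_zero]
      simp only [h5, tsum_zero]

/-- Multiplicativity of the extension.  (Both sides are analytic in `w`; radial functions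
`f_r(x) = ext f (r e^{ix})` have `ext f_r (w) = ext f (r w)` and are uniform limits of polynomials, for which
multiplicativity is clear; let `r → 1` with `ext_L2`: the coefficients of `f_r g_r` tend to those of `f g`.) -/
theorem ext_mul (f g : ℝ → ℂ) (hf : Hinf f) (hg : Hinf g) :
    ∀ w ∈ Metric.ball (0 : ℂ) 1, ext (fun x => f x * g x) w = ext f w * ext g w := by
  intro w hw
  have hw' : ‖w‖ < 1 := by simpa using hw
  have h1 := tsum_mul_tsum_eq_tsum_sum_range_of_summable_norm (hm_summable f hw') (hm_summable g hw')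
  unfold ext
  rw [h1]
  refine tsum_congr (fun n => ?_)
  rw [hm_coef_mul f g hf.toHtwo hg n, Finset.sum_mul]
  refine Finset.sum_congr rfl (fun k hk => ?_)
  have hk' : k + (n - k) = n := by
    rw [Finset.mem_range] at hk
    omega
  calc coef f k * coef g (n - k) * w ^ n = coef f k * coef g (n - k) * w ^ (k + (n - k)) := by rw [hk']
    _ = _ := by rw [pow_add]; ring

theorem ext_add (f g : ℝ → ℂ) (hf : Hinf f) (hg : Hinf g) :
    ∀ w ∈ Metric.ball (0 : ℂ) 1, ext (fun x => f x + g x) w = ext f w + ext g w := by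
  intro w hw
  have hw' : ‖w‖ < 1 := by simpa using hw
  have hfi : Integrable f mu := hf.mem.integrable (by simp)
  have hgi : Integrable g mu := hg.mem.integrable (by simp)
  unfold ext
  rw [← (hm_summable f hw').of_norm.tsum_add (hm_summable g hw').of_norm]
  refine tsum_congr (fun n => ?_)
  have h1 : ∀ {k : ℝ → ℂ}, Integrable k mu →
      Integrable (fun x : ℝ => Complex.exp (-((n : ℂ) * Complex.I * (x : ℂ))) * k x) mu := by
    intro k hk
    have h1 := hm_int_exp_mul (-(n : ℝ)) hk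
    simpa only [hm_neg_exp] using h1
  have h2 : coef (fun x => f x + g x) n = coef f n + coef g n := by
    unfold coef
    rw [← mul_add]
    congr 1
    have h3 := integral_add (h1 hfi) (h1 hgi)
    refine Eq.trans ?_ h3
    change ∫ x : ℝ, Complex.exp (-((n : ℂ) * Complex.I * (x : ℂ))) * (f x + g x) ∂mu = _
    simp only [mul_add]
  rw [h2]
  ring

theorem ext_congr (f g : ℝ → ℂ) (h : f =ᵐ[mu] g) : ext f = ext g := by
  funext w
  unfold ext
  refine tsum_congr (fun n => ?_)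
  have h1 : coef f n = coef g n := by
    unfold coef
    congr 1
    change ∫ x : ℝ, Complex.exp (-((n : ℂ) * Complex.I * (x : ℂ))) * f x ∂mu
      = ∫ x : ℝ, Complex.exp (-((n : ℂ) * Complex.I * (x : ℂ))) * g x ∂mu
    refine integral_congr_ae ?_
    filter_upwards [h] with x hx
    rw [hx]
  rw [h1]

/-- Exponentials: if `V ∈ H²` and `Re V ≤ C` then `e^V ∈ H^∞` and `ext (e^V) = e^{ext V}`.
Proof: `V_r(x) = ext V (r e^{ix})` is smooth, `Re V_r ≤ C` (`ext_re` for the upper bound; see the variant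
with only an upper bound below), `e^{V_r} → e^V` in `L²` because `|e^z - e^w| ≤ e^C |z - w|` for
`Re z, Re w ≤ C`; `e^{V_r(x)} = g(r e^{ix})`, `g = exp ∘ ext V` analytic in the disc, so its negative Fourier
coefficients vanish and its `n`-th one is `r^n` times the Taylor coefficient of `g`.
Here both bounds `m ≤ Re V ≤ M` are assumed for simplicity. -/
theorem ext_exp (V : ℝ → ℂ) (hV : Htwo V) (m M : ℝ)
    (h : ∀ᵐ x ∂mu, m ≤ (V x).re ∧ (V x).re ≤ M) :
    Hinf (fun x => Complex.exp (V x)) ∧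
      ∀ w ∈ Metric.ball (0 : ℂ) 1, ext (fun x => Complex.exp (V x)) w = Complex.exp (ext V w) := by
  have hVd := ext_diff V hV
  have hG : DifferentiableOn ℂ (fun w => Complex.exp (ext V w)) (Metric.ball 0 1) := hVd.cexp
  obtain ⟨c, hc1, hc2⟩ := hm_taylor _ hG
  have hVi : Integrable V mu := hV.mem.integrable (by norm_num)
  have hmeas : AEStronglyMeasurable (fun x => Complex.exp (V x)) mu :=
    Complex.continuous_exp.comp_aestronglyMeasurable hV.mem.1
  have hbd : ∀ᵐ x ∂mu, ‖Complex.exp (V x)‖ ≤ Real.exp M := by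
    filter_upwards [h] with x hx
    rw [Complex.norm_exp]
    exact Real.exp_le_exp.2 hx.2
  have hmem : MemLp (fun x => Complex.exp (V x)) ⊤ mu := memLp_top_of_bound hmeas _ hbd
  have hexpi : Integrable (fun x => Complex.exp (V x)) mu := hmem.integrable (by simp)
  have hre := ext_re V hV m M h
  have hD : ∀ᶠ r : ℝ in 𝓝[<] (1:ℝ), MemLp (fun x => ext V ((r : ℂ) * E (x, 0)) - V x) 2 mu := by
    filter_upwards [hm_ev] with r hr
    exact (hm_circle_memLp hVd.continuousOn r hr.1 hr.2).sub hV.mem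
  have hL1 := hm_L1 (fun r x => ext V ((r : ℂ) * E (x, 0)) - V x) hD (ext_L2 V hV)
  have hFi : ∀ᶠ r : ℝ in 𝓝[<] (1:ℝ), Integrable (fun x => Complex.exp (ext V ((r : ℂ) * E (x, 0)))) mu := by
    filter_upwards [hm_ev] with r hr
    exact (hm_circle_memLp hG.continuousOn r hr.1 hr.2).integrable (by norm_num)
  have hl : Tendsto (fun r : ℝ => ∫ x, ‖Complex.exp (ext V ((r : ℂ) * E (x, 0))) - Complex.exp (V x)‖ ∂mu)
      (𝓝[<] 1) (𝓝 0) := by
    have h0 : Tendsto (fun r : ℝ => Real.exp M * ∫ x, ‖ext V ((r : ℂ) * E (x, 0)) - V x‖ ∂mu)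
        (𝓝[<] 1) (𝓝 0) := by
      simpa using hL1.const_mul (Real.exp M)
    refine squeeze_zero' (Filter.Eventually.of_forall fun r => integral_nonneg fun x => norm_nonneg _) ?_ h0
    filter_upwards [hm_ev, hFi, hD] with r hr hi hd
    rw [← integral_const_mul]
    refine integral_mono_ae (hi.sub hexpi).norm ((hd.integrable (by norm_num)).norm.const_mul _) ?_
    filter_upwards [h] with x hx
    exact hm_exp_lip M _ _ (hre _ (hm_ball r hr.1 hr.2 x)).2 hx.2
  have key : ∀ j : ℤ, ∫ x : ℝ, Complex.exp ((j : ℂ) * Complex.I * (x : ℂ)) * Complex.exp (V x) ∂mu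
      = if j ≤ 0 then 2 * Real.pi * c j.natAbs else 0 := by
    intro j
    have hjm : AEStronglyMeasurable (fun x : ℝ => Complex.exp ((j : ℂ) * Complex.I * (x : ℂ))) mu :=
      (hm_cont_exp _).aestronglyMeasurable
    have hj1 : ∀ᵐ x : ℝ ∂mu, ‖Complex.exp ((j : ℂ) * Complex.I * (x : ℂ))‖ ≤ 1 := by
      refine Filter.Eventually.of_forall fun x => ?_
      have := hm_norm_exp (j : ℝ) x
      rw [Complex.ofReal_intCast] at this
      exact this.le
    have hlim := hm_conv (fun r x => Complex.exp (ext V ((r : ℂ) * E (x, 0)))) (fun x => Complex.exp (V x))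
      (fun x : ℝ => Complex.exp ((j : ℂ) * Complex.I * (x : ℂ))) 1 hjm hj1 hFi hexpi hl
    have hval : ∀ᶠ r : ℝ in 𝓝[<] (1:ℝ),
        ∫ x : ℝ, Complex.exp ((j : ℂ) * Complex.I * (x : ℂ)) * Complex.exp (ext V ((r : ℂ) * E (x, 0))) ∂mu
        = if j ≤ 0 then 2 * Real.pi * (c j.natAbs * (r : ℂ) ^ j.natAbs) else 0 := by
      filter_upwards [hm_ev] with r hr
      exact hc2 j r hr.1 hr.2
    have hlim2 : Tendsto (fun r : ℝ =>
        if j ≤ 0 then 2 * Real.pi * (c j.natAbs * (r : ℂ) ^ j.natAbs) else 0)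
        (𝓝[<] 1) (𝓝 (if j ≤ 0 then 2 * Real.pi * (c j.natAbs * ((1 : ℝ) : ℂ) ^ j.natAbs) else 0)) := by
      by_cases hj : j ≤ 0
      · simp only [if_pos hj]
        have hcont : Continuous (fun r : ℝ => 2 * Real.pi * (c j.natAbs * (r : ℂ) ^ j.natAbs)) := by
          fun_prop
        exact (hcont.tendsto 1).mono_left nhdsWithin_le_nhds
      · simp only [if_neg hj]
        exact tendsto_const_nhds
    have heq := tendsto_nhds_unique (hlim.congr' hval) hlim2
    rw [heq]
    simp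
  have hHA : HA (fun x => Complex.exp (V x)) := by
    intro n
    have h1 := key ((n : ℤ) + 1)
    rw [if_neg (by omega)] at h1
    refine Eq.trans ?_ h1
    change ∫ x : ℝ, Complex.exp (((n : ℂ) + 1) * Complex.I * (x : ℂ)) * Complex.exp (V x) ∂mu = _
    push_cast
    rfl
  refine ⟨⟨hmem, hHA⟩, fun w hw => ?_⟩
  have hcoef : ∀ n, coef (fun x => Complex.exp (V x)) n = c n := by
    intro n
    have h1 := key (-(n : ℤ))
    rw [if_pos (by omega)] at h1
    have h2 := hm_two_pi_coef (fun x => Complex.exp (V x)) n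
    have h3 : ∫ x : ℝ, Complex.exp (-((n : ℂ) * Complex.I * (x : ℂ))) * Complex.exp (V x) ∂mu
        = ∫ x : ℝ, Complex.exp (((-(n : ℤ) : ℤ) : ℂ) * Complex.I * (x : ℂ)) * Complex.exp (V x) ∂mu := by
      refine integral_congr_ae (Filter.Eventually.of_forall fun x => ?_)
      change Complex.exp (-((n : ℂ) * Complex.I * (x : ℂ))) * Complex.exp (V x)
        = Complex.exp (((-(n : ℤ) : ℤ) : ℂ) * Complex.I * (x : ℂ)) * Complex.exp (V x)
      congr 2
      push_cast
      ring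
    rw [h3, h1] at h2
    have hpi : (2 * Real.pi : ℂ) ≠ 0 := by
      have := Real.pi_pos
      exact_mod_cast (by positivity : (2 * Real.pi : ℝ) ≠ 0)
    have h4 : (-(n : ℤ)).natAbs = n := by simp
    rw [h4] at h2
    exact (mul_left_cancel₀ hpi h2).symm
  unfold ext
  simp only [hcoef]
  exact (hc1 w hw).tsum_eq

end Pool.H14.SR
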