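import Pool.Agent.H14.SR.Basic
import Pool.Agent.H14.SR.HB
import Pool.Agent.H14.SR.HJ
import Pool.Agent.H14.SR.HM
open MeasureTheory Set Filter Topology
noncomputable section
namespace Pool.H14.SR



theorem hp4_exp_lip {V₁ V₂ : ℂ} (h1 : -Real.log 2 ≤ V₁.re) (h2 : -Real.log 2 ≤ V₂.re) :
    ‖Complex.exp (-V₁) - Complex.exp (-V₂)‖ ≤ 2 * ‖V₁ - V₂‖ := by
  have hconv : Convex ℝ {z : ℂ | z.re ≤ Real.log 2} :=
    convex_halfSpace_re_le (Real.log 2)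
  have h := Convex.norm_image_sub_le_of_norm_deriv_le (𝕜 := ℂ) (f := Complex.exp)
    (s := {z : ℂ | z.re ≤ Real.log 2}) (x := -V₂) (y := -V₁) (C := 2)
    (fun z _ => Complex.differentiable_exp z)
    (fun z hz => by
      rw [Complex.deriv_exp, Complex.norm_exp]
      calc Real.exp z.re ≤ Real.exp (Real.log 2) := Real.exp_le_exp.2 hz
        _ = 2 := Real.exp_log (by norm_num)) hconv
    (by show (-V₂).re ≤ Real.log 2; rw [Complex.neg_re]; linarith)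
    (by show (-V₁).re ≤ Real.log 2; rw [Complex.neg_re]; linarith)
  have h3 : -V₁ - -V₂ = -(V₁ - V₂) := by ring
  rw [h3, norm_neg] at h
  exact h

theorem hp4_small {w V : ℂ} (hw : ‖w‖ ≤ 1 / 8) (h : -Real.log 2 ≤ V.re) :
    ‖w * Complex.exp (-V)‖ ≤ 1 / 4 := by
  rw [norm_mul, Complex.norm_exp, Complex.neg_re]
  have h1 : Real.exp (-V.re) ≤ 2 := by
    calc Real.exp (-V.re) ≤ Real.exp (Real.log 2) := Real.exp_le_exp.2 (by linarith)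
      _ = 2 := Real.exp_log (by norm_num)
  calc ‖w‖ * Real.exp (-V.re) ≤ 1 / 8 * 2 :=
        mul_le_mul hw h1 (Real.exp_pos _).le (by norm_num)
    _ = 1 / 4 := by norm_num

theorem hp4_low {z : ℂ} (h : ‖z‖ ≤ 1 / 4) : 3 / 4 ≤ ‖1 + z‖ := by
  have h1 : ‖(1 : ℂ)‖ ≤ ‖1 + z‖ + ‖z‖ := by
    calc ‖(1 : ℂ)‖ = ‖(1 + z) - z‖ := by congr 1; ring
      _ ≤ ‖1 + z‖ + ‖z‖ := norm_sub_le _ _
  rw [norm_one] at h1
  linarith

theorem hp4_up {z : ℂ} (h : ‖z‖ ≤ 1 / 4) : ‖1 + z‖ ≤ 5 / 4 := by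
  calc ‖1 + z‖ ≤ ‖(1 : ℂ)‖ + ‖z‖ := norm_add_le _ _
    _ ≤ 5 / 4 := by rw [norm_one]; linarith

theorem hp4_log_le {a b : ℝ} (ha : 0 < a) (hb : 3 / 4 ≤ b) :
    Real.log a - Real.log b ≤ 4 / 3 * |a - b| := by
  have hb0 : 0 < b := by linarith
  rw [← Real.log_div ha.ne' hb0.ne']
  have h1 := Real.log_le_sub_one_of_pos (div_pos ha hb0)
  have h2 : a / b - 1 = (a - b) / b := by field_simp
  rw [h2] at h1
  refine h1.trans ?_
  rw [div_le_iff₀ hb0]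
  have h3 : a - b ≤ |a - b| := le_abs_self _
  nlinarith [abs_nonneg (a - b)]

theorem hp4_log_lip {z₁ z₂ : ℂ} (h1 : ‖z₁‖ ≤ 1 / 4) (h2 : ‖z₂‖ ≤ 1 / 4) :
    |(-Real.log ‖1 + z₁‖) - (-Real.log ‖1 + z₂‖)| ≤ 4 / 3 * ‖z₁ - z₂‖ := by
  have l1 := hp4_low h1
  have l2 := hp4_low h2
  have h3 : |‖1 + z₁‖ - ‖1 + z₂‖| ≤ ‖z₁ - z₂‖ := by
    refine (abs_norm_sub_norm_le _ _).trans (le_of_eq ?_)
    congr 1
    ring
  have e1 := hp4_log_le (a := ‖1 + z₁‖) (b := ‖1 + z₂‖) (by linarith) l2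
  have e2 := hp4_log_le (a := ‖1 + z₂‖) (b := ‖1 + z₁‖) (by linarith) l1
  rw [abs_sub_comm ‖1 + z₂‖ ‖1 + z₁‖] at e2
  rw [abs_le]
  constructor
  · linarith
  · linarith

theorem hp4_log_bd {z : ℂ} (h : ‖z‖ ≤ 1 / 4) : |(-Real.log ‖1 + z‖)| ≤ Real.log 2 := by
  have l := hp4_low h
  have u := hp4_up h
  have h1 : Real.log ‖1 + z‖ ≤ Real.log 2 := Real.log_le_log (by linarith) (by linarith)
  have h2 : Real.log (1 / 2) ≤ Real.log ‖1 + z‖ := Real.log_le_log (by norm_num) (by linarith)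
  have h3 : Real.log (1 / 2) = -Real.log 2 := by
    rw [one_div, Real.log_inv]
  rw [abs_le]
  constructor
  · linarith
  · linarith

theorem hp4_fix (w : ℝ → ℂ) (hw : AEStronglyMeasurable w mu) (hw8 : BD w (1 / 8))
    (J : Lp ℝ 2 mu →L[ℝ] Lp ℂ 2 mu)
    (hJre : ∀ u : Lp ℝ 2 mu, ∀ᵐ x ∂mu, ((J u : ℝ → ℂ) x).re = (u : ℝ → ℝ) x)
    (hJn : ∀ u : Lp ℝ 2 mu, ‖J u‖ ≤ Real.sqrt 2 * ‖u‖) :
    ∃ u : Lp ℝ 2 mu, (∀ᵐ x ∂mu, |(u : ℝ → ℝ) x| ≤ Real.log 2) ∧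
      ∀ᵐ x ∂mu, (u : ℝ → ℝ) x = -Real.log ‖1 + w x * Complex.exp (-((J u : ℝ → ℂ) x))‖ := by
  classical
  set K : Set (Lp ℝ 2 mu) := {u | ∀ᵐ x ∂mu, |(u : ℝ → ℝ) x| ≤ Real.log 2} with hK
  have hKc : IsClosed K := by
    rw [← isSeqClosed_iff_isClosed]
    intro un u hun hu
    obtain ⟨ns, -, hns⟩ := (tendstoInMeasure_of_tendsto_Lp hu).exists_seq_tendsto_ae
    have hall : ∀ᵐ x ∂mu, ∀ n, |(un n : ℝ → ℝ) x| ≤ Real.log 2 := ae_all_iff.2 (fun n => hun n)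
    filter_upwards [hns, hall] with x hx hxa
    exact le_of_tendsto hx.abs (Filter.Eventually.of_forall (fun i => hxa (ns i)))
  set φ : Lp ℝ 2 mu → ℝ → ℝ := fun u x => -Real.log ‖1 + w x * Complex.exp (-((J u : ℝ → ℂ) x))‖
    with hφ
  have hsm : ∀ u ∈ K, ∀ᵐ x ∂mu, ‖w x * Complex.exp (-((J u : ℝ → ℂ) x))‖ ≤ 1 / 4 := by
    intro u hu
    have hu' : ∀ᵐ x ∂mu, |(u : ℝ → ℝ) x| ≤ Real.log 2 := hu
    filter_upwards [hw8, hJre u, hu'] with x h1 h2 h3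
    apply hp4_small h1
    rw [h2]
    exact (abs_le.1 h3).1
  have hmeas : ∀ u, AEStronglyMeasurable (φ u) mu := by
    intro u
    have h1 : AEStronglyMeasurable (fun x => 1 + w x * Complex.exp (-((J u : ℝ → ℂ) x))) mu := by
      refine aestronglyMeasurable_const.add (hw.mul ?_)
      exact Complex.continuous_exp.comp_aestronglyMeasurable (Lp.aestronglyMeasurable (J u)).neg
    have h2 := h1.norm.aemeasurable
    exact (Real.measurable_log.comp_aemeasurable h2).neg.aestronglyMeasurable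
  have hmem : ∀ u ∈ K, MemLp (φ u) 2 mu := by
    intro u hu
    refine MemLp.of_bound (hmeas u) (Real.log 2) ?_
    filter_upwards [hsm u hu] with x hx
    rw [Real.norm_eq_abs]
    exact hp4_log_bd hx
  set f : Lp ℝ 2 mu → Lp ℝ 2 mu := fun u => if h : MemLp (φ u) 2 mu then h.toLp (φ u) else 0
    with hf
  have hfe : ∀ u ∈ K, (f u : ℝ → ℝ) =ᵐ[mu] φ u := by
    intro u hu
    rw [hf]
    simp only [dif_pos (hmem u hu)]
    exact (hmem u hu).coeFn_toLp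
  have hmaps : Set.MapsTo f K K := by
    intro u hu
    show ∀ᵐ x ∂mu, |(f u : ℝ → ℝ) x| ≤ Real.log 2
    filter_upwards [hfe u hu, hsm u hu] with x h1 h2
    rw [h1]
    exact hp4_log_bd h2
  have hlip : ∀ u₁ ∈ K, ∀ u₂ ∈ K, ‖f u₁ - f u₂‖ ≤ 1 / 2 * ‖u₁ - u₂‖ := by
    intro u₁ hu₁ u₂ hu₂
    have hu₁' : ∀ᵐ x ∂mu, |(u₁ : ℝ → ℝ) x| ≤ Real.log 2 := hu₁
    have hu₂' : ∀ᵐ x ∂mu, |(u₂ : ℝ → ℝ) x| ≤ Real.log 2 := hu₂
    have h1 : ‖f u₁ - f u₂‖ ≤ 1 / 3 * ‖J u₁ - J u₂‖ := by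
      apply Lp.norm_le_mul_norm_of_ae_le_mul
      filter_upwards [Lp.coeFn_sub (f u₁) (f u₂), Lp.coeFn_sub (J u₁) (J u₂), hfe u₁ hu₁,
        hfe u₂ hu₂, hsm u₁ hu₁, hsm u₂ hu₂, hw8, hJre u₁, hJre u₂, hu₁', hu₂'] with x e1 e2 e3 e4
        s1 s2 wx r1 r2 b1 b2
      rw [e1, e2, Pi.sub_apply, Pi.sub_apply, e3, e4, Real.norm_eq_abs]
      refine (hp4_log_lip s1 s2).trans ?_
      have h5 : w x * Complex.exp (-((J u₁ : ℝ → ℂ) x)) - w x * Complex.exp (-((J u₂ : ℝ → ℂ) x)) =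
          w x * (Complex.exp (-((J u₁ : ℝ → ℂ) x)) - Complex.exp (-((J u₂ : ℝ → ℂ) x))) := by ring
      rw [h5, norm_mul]
      have h6 := hp4_exp_lip (V₁ := (J u₁ : ℝ → ℂ) x) (V₂ := (J u₂ : ℝ → ℂ) x)
        (by rw [r1]; exact (abs_le.1 b1).1) (by rw [r2]; exact (abs_le.1 b2).1)
      have h7 : ‖w x‖ * ‖Complex.exp (-((J u₁ : ℝ → ℂ) x)) - Complex.exp (-((J u₂ : ℝ → ℂ) x))‖ ≤
          1 / 8 * (2 * ‖(J u₁ : ℝ → ℂ) x - (J u₂ : ℝ → ℂ) x‖) :=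
        mul_le_mul wx h6 (norm_nonneg _) (by norm_num)
      linarith
    have h2 : ‖J u₁ - J u₂‖ ≤ Real.sqrt 2 * ‖u₁ - u₂‖ := by
      rw [← map_sub]
      exact hJn _
    have h3 : Real.sqrt 2 ≤ 3 / 2 := by
      rw [Real.sqrt_le_left (by norm_num)]
      norm_num
    have h4 : Real.sqrt 2 * ‖u₁ - u₂‖ ≤ 3 / 2 * ‖u₁ - u₂‖ :=
      mul_le_mul_of_nonneg_right h3 (norm_nonneg _)
    linarith
  have hcontr : ContractingWith (1 / 2 : NNReal) (Set.MapsTo.restrict f K K hmaps) := by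
    constructor
    · rw [← NNReal.coe_lt_coe]
      norm_num
    · apply LipschitzWith.of_dist_le_mul
      intro a b
      rw [Subtype.dist_eq, Subtype.dist_eq, dist_eq_norm, dist_eq_norm]
      have := hlip a.1 a.2 b.1 b.2
      simpa using this
  have h0K : (0 : Lp ℝ 2 mu) ∈ K := by
    show ∀ᵐ x ∂mu, |((0 : Lp ℝ 2 mu) : ℝ → ℝ) x| ≤ Real.log 2
    filter_upwards [Lp.coeFn_zero ℝ 2 mu] with x hx
    rw [hx]
    simp
    exact Real.log_nonneg (by norm_num)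
  obtain ⟨u, huK, hufix, -⟩ := ContractingWith.exists_fixedPoint' hKc.isComplete hmaps hcontr h0K
    (edist_ne_top _ _)
  refine ⟨u, huK, ?_⟩
  have h1 := hfe u huK
  rw [hufix] at h1
  exact h1

/-- **Lemma M'**: if `|w| ≤ 1/8` a.e. there is an invertible `h ∈ H^∞` with `|w + h| = 1` a.e.

Proof: `h = e^V`, `V = J u`, `u` real with `|u| ≤ log 2`.  `|w + e^V| = e^u |1 + w e^{-V}|`, so we need
`u = Φ(u) := -log |1 + w e^{-J u}|`.  If `|u| ≤ log 2` then `|w e^{-Ju}| ≤ 1/4`, so `|Φ(u)| ≤ log (4/3) ≤ log 2`.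
`|log|1+z₁| - log|1+z₂|| ≤ (4/3)|z₁ - z₂|` for `|z_i| ≤ 1/4`, `|e^{-V₁} - e^{-V₂}| ≤ 2|V₁ - V₂|` for
`Re V_i ≥ -log 2`, so `‖Φ u₁ - Φ u₂‖₂ ≤ (4/3)(1/8)2 √2 ‖u₁-u₂‖₂ < (1/2)‖u₁ - u₂‖₂`; the set
`{u ∈ L²(mu,ℝ) : |u| ≤ log 2 a.e.}` is closed in `L²`, Banach fixed point theorem.  Then `e^V, e^{-V} ∈ H^∞` by
`ext_exp`. -/
theorem Mprime (w : ℝ → ℂ) (hw : AEStronglyMeasurable w mu) (hw8 : BD w (1 / 8)) :
    ∃ h g : ℝ → ℂ, Hinf h ∧ Hinf g ∧ (∀ᵐ x ∂mu, h x * g x = 1) ∧ ∀ᵐ x ∂mu, ‖w x + h x‖ = 1 := by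
  obtain ⟨J, hJre, hJha, hJn, -⟩ := conjOp
  obtain ⟨u, hub, hu⟩ := hp4_fix w hw hw8 J hJre hJn
  have hV : Htwo (J u : ℝ → ℂ) := ⟨Lp.memLp (J u), hJha u⟩
  have hVn : Htwo (fun x => -((J u : ℝ → ℂ) x)) := by
    have := hV.smul (-1)
    simpa using this
  have hb1 : ∀ᵐ x ∂mu, -Real.log 2 ≤ ((J u : ℝ → ℂ) x).re ∧ ((J u : ℝ → ℂ) x).re ≤ Real.log 2 := by
    filter_upwards [hJre u, hub] with x h1 h2
    rw [h1]
    exact abs_le.1 h2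
  have hb2 : ∀ᵐ x ∂mu, -Real.log 2 ≤ (-((J u : ℝ → ℂ) x)).re ∧
      (-((J u : ℝ → ℂ) x)).re ≤ Real.log 2 := by
    filter_upwards [hb1] with x h1
    rw [Complex.neg_re]
    constructor
    · linarith [h1.2]
    · linarith [h1.1]
  refine ⟨fun x => Complex.exp ((J u : ℝ → ℂ) x), fun x => Complex.exp (-((J u : ℝ → ℂ) x)),
    (ext_exp _ hV _ _ hb1).1, (ext_exp _ hVn _ _ hb2).1, ?_, ?_⟩
  · refine Filter.Eventually.of_forall (fun x => ?_)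
    show Complex.exp ((J u : ℝ → ℂ) x) * Complex.exp (-((J u : ℝ → ℂ) x)) = 1
    rw [← Complex.exp_add, add_neg_cancel, Complex.exp_zero]
  · filter_upwards [hJre u, hub, hu, hw8, hb1] with x h1 h2 h3 h4 h5
    have hs := hp4_small h4 h5.1
    have hl := hp4_low hs
    have e1 : w x + Complex.exp ((J u : ℝ → ℂ) x) =
        Complex.exp ((J u : ℝ → ℂ) x) * (1 + w x * Complex.exp (-((J u : ℝ → ℂ) x))) := by
      have : Complex.exp ((J u : ℝ → ℂ) x) * Complex.exp (-((J u : ℝ → ℂ) x)) = 1 := by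
        rw [← Complex.exp_add, add_neg_cancel, Complex.exp_zero]
      calc w x + Complex.exp ((J u : ℝ → ℂ) x) = Complex.exp ((J u : ℝ → ℂ) x) + w x * 1 := by ring
        _ = Complex.exp ((J u : ℝ → ℂ) x) + w x *
            (Complex.exp ((J u : ℝ → ℂ) x) * Complex.exp (-((J u : ℝ → ℂ) x))) := by rw [this]
        _ = _ := by ring
    rw [e1, norm_mul, Complex.norm_exp, h1, h3]
    have h6 : 0 < ‖1 + w x * Complex.exp (-((J u : ℝ → ℂ) x))‖ := by linarith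
    rw [Real.exp_neg, Real.exp_log h6, inv_mul_cancel₀ h6.ne']

/-- Outer functions: for real bounded `q` there is `V ∈ H²` with `Re V = q` a.e. (`V = J q`); `e^V`, `e^{-V}`
are in `H^∞`. -/
theorem outer (q : ℝ → ℝ) (hq : AEStronglyMeasurable q mu) (C : ℝ) (hC : ∀ᵐ x ∂mu, |q x| ≤ C) :
    ∃ V : ℝ → ℂ, Htwo V ∧ (∀ᵐ x ∂mu, (V x).re = q x) ∧
      Hinf (fun x => Complex.exp (V x)) ∧ Hinf (fun x => Complex.exp (-(V x))) := by
  obtain ⟨J, hJre, hJha, hJn, -⟩ := conjOp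
  have hm : MemLp q 2 mu := MemLp.of_bound hq C (by simpa [Real.norm_eq_abs] using hC)
  set u : Lp ℝ 2 mu := hm.toLp q with hu
  have hue : (u : ℝ → ℝ) =ᵐ[mu] q := hm.coeFn_toLp
  have hV : Htwo (J u : ℝ → ℂ) := ⟨Lp.memLp (J u), hJha u⟩
  have hVn : Htwo (fun x => -((J u : ℝ → ℂ) x)) := by
    have := hV.smul (-1)
    simpa using this
  have hre : ∀ᵐ x ∂mu, ((J u : ℝ → ℂ) x).re = q x := by
    filter_upwards [hJre u, hue] with x h1 h2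
    rw [h1, h2]
  have hb1 : ∀ᵐ x ∂mu, -C ≤ ((J u : ℝ → ℂ) x).re ∧ ((J u : ℝ → ℂ) x).re ≤ C := by
    filter_upwards [hre, hC] with x h1 h2
    rw [h1]
    exact abs_le.1 h2
  have hb2 : ∀ᵐ x ∂mu, -C ≤ (-((J u : ℝ → ℂ) x)).re ∧ (-((J u : ℝ → ℂ) x)).re ≤ C := by
    filter_upwards [hb1] with x h1
    rw [Complex.neg_re]
    constructor
    · linarith [h1.2]
    · linarith [h1.1]
  exact ⟨(J u : ℝ → ℂ), hV, hre, (ext_exp _ hV _ _ hb1).1, (ext_exp _ hVn _ _ hb2).1⟩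

end Pool.H14.SR
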