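import Pool.Agent.H14.SR.Basic
import Pool.Agent.H14.SR.A2
import Pool.Agent.H14.SR.HP4
open MeasureTheory Set Filter Topology
noncomputable section
namespace Pool.H14.SR


variable {D : Set (ℝ → ℂ)}

theorem a5_smul (hD : Doug D) {f : ℝ → ℂ} (hf : QD D f) (c : ℂ) : QD D (fun x => c * f x) := by
  refine ⟨hD.smul c _ hf.1, ?_⟩
  have := hD.smul (starRingEnd ℂ c) _ hf.2
  convert this using 1
  funext x
  simp

/-- (A5a) Every `w ∈ D` is `lam • U - s` with `lam ≥ 0` real, `U ∈ QD`, `s ∈ H^∞`.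
(`lam = 8 ‖w‖_∞ + 1`, `Mprime` for `w/lam`: `U = w/lam + h`, `|U| = 1`, `U - h = w/lam`, `A3`; `s = lam h`.) -/
theorem A5a (hD : Doug D) (w : ℝ → ℂ) (hw : w ∈ D) :
    ∃ (lam : ℝ) (U s : ℝ → ℂ), 0 < lam ∧ QD D U ∧ Hinf s ∧ ∀ᵐ x ∂mu, w x = lam * U x - s x := by
  obtain ⟨hm, C, hC, hB⟩ := memLp_top_iff.1 (hD.mem _ hw)
  unfold BD at hB
  set lam : ℝ := 8 * C + 1 with hlam
  have hl0 : 0 < lam := by positivity
  have hlc : (lam : ℂ) ≠ 0 := by exact_mod_cast hl0.ne'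
  have hwl : (fun x => (lam : ℂ)⁻¹ * w x) ∈ D := hD.smul _ _ hw
  have hwm : AEStronglyMeasurable (fun x => (lam : ℂ)⁻¹ * w x) mu := (hD.mem _ hwl).1
  have hw8 : BD (fun x => (lam : ℂ)⁻¹ * w x) (1 / 8) := by
    unfold BD
    filter_upwards [hB] with x hx
    rw [norm_mul, norm_inv, Complex.norm_real, Real.norm_eq_abs, abs_of_pos hl0,
      inv_mul_le_iff₀ hl0]
    linarith
  obtain ⟨h, g, hh, hg, hhg, h1⟩ := Mprime _ hwm hw8
  refine ⟨lam, fun x => (lam : ℂ)⁻¹ * w x + h x, fun x => (lam : ℂ) * h x, hl0, ?_, hh.smul _,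
    Filter.Eventually.of_forall fun x => ?_⟩
  · refine A3 hD _ h g (hD.add _ hwl _ (hD.hinf _ hh)) h1 hh hg hhg ?_
    unfold BD at hw8 ⊢
    simpa using hw8
  · show w x = (lam : ℂ) * ((lam : ℂ)⁻¹ * w x + h x) - (lam : ℂ) * h x
    field_simp
    ring

/-- (A5b) `ψ ∈ QD`, `s₀ ∈ H^∞`, `|ψ - s₀| ≤ η`: there is `s ∈ QDA` with `|ψ - s| ≤ 8η`.
(`Mprime` for `(ψ - s₀)/(8η)`: `U = (ψ-s₀)/(8η) + h`, `U ∈ QD` by `A3`, `s = ψ - 8ηU = s₀ - 8ηh`.) -/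
theorem A5b (hD : Doug D) (ψ s0 : ℝ → ℂ) (η : ℝ) (hη : 0 < η) (hψ : QD D ψ) (hs0 : Hinf s0)
    (h : BD (fun x => ψ x - s0 x) η) : ∃ s : ℝ → ℂ, QDA D s ∧ BD (fun x => ψ x - s x) (8 * η) := by
  unfold BD at h
  have he0 : (0 : ℝ) < 8 * η := by positivity
  have hec : ((8 * η : ℝ) : ℂ) ≠ 0 := by exact_mod_cast he0.ne'
  have hwD : (fun x => ((8 * η : ℝ) : ℂ)⁻¹ * (ψ x - s0 x)) ∈ D := by
    have := hD.smul ((8 * η : ℝ) : ℂ)⁻¹ _
      (hD.add _ hψ.1 _ (hD.smul (-1) _ (hD.hinf _ hs0)))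
    convert this using 1
    funext x
    simp [sub_eq_add_neg]
  have hwm := (hD.mem _ hwD).1
  have hw8 : BD (fun x => ((8 * η : ℝ) : ℂ)⁻¹ * (ψ x - s0 x)) (1 / 8) := by
    unfold BD
    filter_upwards [h] with x hx
    rw [norm_mul, norm_inv, Complex.norm_real, Real.norm_eq_abs, abs_of_pos he0,
      inv_mul_le_iff₀ he0]
    linarith
  obtain ⟨k, g, hk, hg, hkg, h1⟩ := Mprime _ hwm hw8
  have hU : QD D (fun x => ((8 * η : ℝ) : ℂ)⁻¹ * (ψ x - s0 x) + k x) := by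
    refine A3 hD _ k g (hD.add _ hwD _ (hD.hinf _ hk)) h1 hk hg hkg ?_
    unfold BD at hw8 ⊢
    simpa using hw8
  set s : ℝ → ℂ := fun x => ψ x + (-((8 * η : ℝ) : ℂ)) *
    (((8 * η : ℝ) : ℂ)⁻¹ * (ψ x - s0 x) + k x) with hs
  have hs' : s = fun x => s0 x + (-((8 * η : ℝ) : ℂ)) * k x := by
    funext x
    simp only [hs]
    rw [mul_add, ← mul_assoc, neg_mul, mul_inv_cancel₀ hec]
    ring
  refine ⟨s, ⟨QD.add hD hψ (a5_smul hD hU _), ?_⟩, ?_⟩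
  · rw [hs']
    exact (hs0.add (hk.smul _)).ha
  · unfold BD
    filter_upwards [h1] with x hx
    have e1 : ψ x - s x = ((8 * η : ℝ) : ℂ) * (((8 * η : ℝ) : ℂ)⁻¹ * (ψ x - s0 x) + k x) := by
      simp only [hs]; ring
    rw [e1, norm_mul, hx, Complex.norm_real, Real.norm_eq_abs, abs_of_pos he0, mul_one]

end Pool.H14.SR
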