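import Pool.Agent.H14.SR.Basic
import Pool.Agent.H14.SR.A5
open MeasureTheory Set Filter Topology
noncomputable section
namespace Pool.H14.SR


variable {D : Set (ℝ → ℂ)}

/-- (A6) **Lemma L**: `b ∈ QDA`, `t₀ ∈ H^∞`, `b t₀ ∈ QDA`, `η > 0`: there is `t ∈ QDA` with `|b(t - t₀)| ≤ η`.

Proof: `τ > 0` with `9 τ ‖t₀‖_∞ ≤ η`; `p` outer with `|p| = max(|b|, τ)` (`outer` with
`q = log max(|b|,τ)`), `|p| ∈ D` by `Doug.fc_norm`, so `p, 1/p ∈ QDA` (`A2`); `β = b/p ∈ QDA`, `|β| ≤ 1` and `|β| = 1`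
where `|b| ≥ τ`; `s₀ = p t₀`, `ψ = conj β · b t₀ ∈ QD`; `ψ - s₀ = (|β|² - 1) s₀`, which is `0` where `|b| ≥ τ` and
bounded by `|s₀| = τ|t₀|` elsewhere; `A5b` gives `s ∈ QDA`, `|ψ - s| ≤ 8τ‖t₀‖`; `t = s/p`,
`b(t - t₀) = β(s - s₀)`. -/
theorem A6 (hD : Doug D) (b t0 : ℝ → ℂ) (hb : QDA D b) (ht0 : Hinf t0)
    (hbt : QDA D (fun x => b x * t0 x)) (η : ℝ) (hη : 0 < η) :
    ∃ t : ℝ → ℂ, QDA D t ∧ BD (fun x => b x * (t x - t0 x)) η := by
  obtain ⟨-, C, hC0, hC⟩ := memLp_top_iff.1 ht0.mem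
  obtain ⟨hbm, B, hB0, hB⟩ := memLp_top_iff.1 (hD.mem _ hb.1.1)
  set τ : ℝ := η / (9 * (C + 1)) with hτdef
  have hτ : 0 < τ := by positivity
  have hτη : 9 * (τ * (C + 1)) = η := by
    rw [hτdef]; field_simp
  set q : ℝ → ℝ := fun x => Real.log (max ‖b x‖ τ) with hq
  have hmaxpos : ∀ x, 0 < max ‖b x‖ τ := fun x => lt_max_of_lt_right hτ
  have hqm : AEStronglyMeasurable q mu := by
    have h1 : AEStronglyMeasurable (fun x => ‖b x‖) mu := hbm.norm
    have h2 : Continuous (fun r : ℝ => Real.log (max r τ)) := by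
      apply Continuous.log (by fun_prop)
      intro r
      exact (lt_max_of_lt_right hτ).ne'
    exact h2.comp_aestronglyMeasurable h1
  have hqb : ∀ᵐ x ∂mu, |q x| ≤ |Real.log τ| + |Real.log (max B τ)| := by
    filter_upwards [hB] with x hx
    have h1 : Real.log τ ≤ q x := Real.log_le_log hτ (le_max_right _ _)
    have h2 : q x ≤ Real.log (max B τ) := Real.log_le_log (hmaxpos x) (max_le_max hx le_rfl)
    rw [abs_le]
    constructor
    · have := neg_abs_le (Real.log τ)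
      have := abs_nonneg (Real.log (max B τ))
      linarith
    · have := le_abs_self (Real.log (max B τ))
      have := abs_nonneg (Real.log τ)
      linarith
  obtain ⟨V, hV, hVre, hp, hpi⟩ := outer q hqm _ hqb
  set p : ℝ → ℂ := fun x => Complex.exp (V x) with hpdef
  set r : ℝ → ℂ := fun x => Complex.exp (-(V x)) with hrdef
  have hpr : ∀ x, p x * r x = 1 := by
    intro x
    simp only [hpdef, hrdef]
    rw [← Complex.exp_add, add_neg_cancel, Complex.exp_zero]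
  have hpn : ∀ᵐ x ∂mu, ‖p x‖ = max ‖b x‖ τ := by
    filter_upwards [hVre] with x hx
    simp only [hpdef]
    rw [Complex.norm_exp, hx, hq]
    exact Real.exp_log (hmaxpos x)
  have hpD : (fun x => (‖p x‖ : ℂ)) ∈ D := by
    have h1 := hD.fc_norm b hb.1 (fun s => max s τ) (by fun_prop)
    refine hD.ae _ h1 _ ?_
    filter_upwards [hpn] with x hx
    rw [hx]
  obtain ⟨hpQ, hrQ⟩ := A2 hD p r hp hpi (Filter.Eventually.of_forall hpr) hpD
  have hβ : QDA D (fun x => b x * r x) := QDA.mul hD hb hrQ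
  have hψ : QD D (fun x => starRingEnd ℂ (b x * r x) * (b x * t0 x)) :=
    QD.mul hD (QD.conj hβ.1) hbt.1
  have hs0 : Hinf (fun x => p x * t0 x) := hp.mul ht0
  have hβn : ∀ᵐ x ∂mu, ‖b x * r x‖ = ‖b x‖ / max ‖b x‖ τ := by
    filter_upwards [hpn] with x hx
    have h1 : ‖p x‖ * ‖r x‖ = 1 := by rw [← norm_mul, hpr, norm_one]
    rw [norm_mul, eq_div_iff (hmaxpos x).ne', ← hx]
    calc ‖b x‖ * ‖r x‖ * ‖p x‖ = ‖b x‖ * (‖p x‖ * ‖r x‖) := by ring
      _ = ‖b x‖ := by rw [h1, mul_one]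
  have hdiff : BD (fun x => starRingEnd ℂ (b x * r x) * (b x * t0 x) - p x * t0 x) (τ * (C + 1)) := by
    unfold BD
    filter_upwards [hpn, hβn, hC] with x h1 h2 h3
    have e1 : b x = (b x * r x) * p x := by
      calc b x = b x * (p x * r x) := by rw [hpr, mul_one]
        _ = _ := by ring
    have e2 : starRingEnd ℂ (b x * r x) * (b x * t0 x) - p x * t0 x
        = (((‖b x * r x‖ ^ 2 - 1 : ℝ)) : ℂ) * (p x * t0 x) := by
      have e3 : starRingEnd ℂ (b x * r x) * (b x * r x) = ((‖b x * r x‖ ^ 2 : ℝ) : ℂ) := by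
        rw [mul_comm, Complex.mul_conj, Complex.normSq_eq_norm_sq]
      calc starRingEnd ℂ (b x * r x) * (b x * t0 x) - p x * t0 x
          = starRingEnd ℂ (b x * r x) * (((b x * r x) * p x) * t0 x) - p x * t0 x := by rw [← e1]
        _ = (starRingEnd ℂ (b x * r x) * (b x * r x)) * (p x * t0 x) - p x * t0 x := by ring
        _ = _ := by rw [e3]; push_cast; ring
    show ‖starRingEnd ℂ (b x * r x) * (b x * t0 x) - p x * t0 x‖ ≤ _
    rw [e2, norm_mul, Complex.norm_real, norm_mul (p x) (t0 x), h1, h2]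
    rcases le_total τ ‖b x‖ with hc | hc
    · rw [max_eq_left hc, div_self (by linarith : ‖b x‖ ≠ 0)]
      norm_num
      positivity
    · rw [max_eq_right hc]
      have h4 : ‖(‖b x‖ / τ) ^ 2 - 1‖ ≤ 1 := by
        rw [Real.norm_eq_abs, abs_le]
        have h5 : 0 ≤ ‖b x‖ / τ := by positivity
        have h6 : ‖b x‖ / τ ≤ 1 := (div_le_one hτ).2 hc
        constructor
        · nlinarith
        · nlinarith
      calc ‖(‖b x‖ / τ) ^ 2 - 1‖ * (τ * ‖t0 x‖) ≤ 1 * (τ * (C + 1)) := by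
            apply mul_le_mul h4 _ (by positivity) zero_le_one
            exact mul_le_mul_of_nonneg_left (by linarith) hτ.le
        _ = _ := one_mul _
  obtain ⟨s, hs, hsb⟩ := A5b hD _ _ (τ * (C + 1)) (by positivity) hψ hs0 hdiff
  refine ⟨fun x => s x * r x, QDA.mul hD hs hrQ, ?_⟩
  unfold BD at hdiff hsb ⊢
  filter_upwards [hdiff, hsb, hβn] with x h1 h2 h3
  have e1 : b x * (s x * r x - t0 x) = (b x * r x) * (s x - p x * t0 x) := by
    have := hpr x
    calc b x * (s x * r x - t0 x) = (b x * r x) * s x - b x * (1 * t0 x) := by ring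
      _ = (b x * r x) * s x - b x * ((p x * r x) * t0 x) := by rw [this]
      _ = _ := by ring
  rw [e1, norm_mul, h3]
  have h4 : ‖b x‖ / max ‖b x‖ τ ≤ 1 := (div_le_one (hmaxpos x)).2 (le_max_left _ _)
  have h5 : ‖s x - p x * t0 x‖ ≤ 9 * (τ * (C + 1)) := by
    have e2 : s x - p x * t0 x = (starRingEnd ℂ (b x * r x) * (b x * t0 x) - p x * t0 x)
        - (starRingEnd ℂ (b x * r x) * (b x * t0 x) - s x) := by ring
    rw [e2]
    refine (norm_sub_le _ _).trans ?_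
    linarith
  rw [hτη] at h5
  calc ‖b x‖ / max ‖b x‖ τ * ‖s x - p x * t0 x‖ ≤ 1 * η :=
        mul_le_mul h4 h5 (norm_nonneg _) zero_le_one
    _ = η := one_mul _

end Pool.H14.SR
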