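import Pool.Agent.H14.SR.Basic
import Pool.Agent.H14.SR.A6
open MeasureTheory Set Filter Topology
noncomputable section
namespace Pool.H14.SR


variable {D : Set (ℝ → ℂ)}

theorem a7_smul (hD : Doug D) {f : ℝ → ℂ} (hf : QDA D f) (c : ℂ) : QDA D (fun x => c * f x) :=
  ⟨a5_smul hD hf.1 c, ((QDA.hinf hD hf).smul c).ha⟩

theorem a7_const (hD : Doug D) (c : ℂ) : QDA D (fun _ => c) :=
  ⟨⟨hD.const c, hD.const _⟩, (Hinf_const c).ha⟩

theorem a7_pow (hD : Doug D) {f : ℝ → ℂ} (hf : QDA D f) (n : ℕ) : QDA D (fun x => f x ^ n) := by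
  induction n with
  | zero => simpa using a7_const hD 1
  | succ n ih => simpa [pow_succ] using QDA.mul hD ih hf

theorem a7_geom (hD : Doug D) {f : ℝ → ℂ} (hf : QDA D f) (n : ℕ) :
    QDA D (fun x => ∑ k ∈ Finset.range n, f x ^ k) := by
  induction n with
  | zero => simpa using a7_const hD 0
  | succ n ih => simpa [Finset.sum_range_succ] using QDA.add hD ih (a7_pow hD hf n)

/-- Neumann series. -/
theorem a7_neumann (hD : Doug D) {r : ℝ → ℂ} (hr : QDA D r) (hb : BD r (1 / 2)) :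
    QDA D (fun x => (1 + r x)⁻¹) := by
  have hm : AEStronglyMeasurable (fun x => (1 + r x)⁻¹) mu := by
    have h1 : AEStronglyMeasurable (fun x => 1 + r x) mu :=
      aestronglyMeasurable_const.add (QDA.hinf hD hr).mem.1
    exact h1.aemeasurable.inv.aestronglyMeasurable
  refine QDA.approx hD _ hm ?_
  intro e he
  have hlim := (tendsto_pow_atTop_nhds_zero_of_lt_one (r := (1 / 2 : ℝ)) (by norm_num)
    (by norm_num)).const_mul 2
  rw [mul_zero] at hlim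
  obtain ⟨n, hn⟩ := ((hlim.eventually (gt_mem_nhds he))).exists
  refine ⟨_, a7_geom hD (a7_smul hD hr (-1)) n, ?_⟩
  unfold BD at hb ⊢
  filter_upwards [hb] with x hx
  refine le_trans ?_ hn.le
  set X := 1 + r x with hX
  have hX1 : (-1 : ℂ) * r x = 1 - X := by rw [hX]; ring
  rw [hX1]
  have h1 : 1 / 2 ≤ ‖X‖ := by
    have : (1 : ℝ) ≤ ‖X‖ + ‖r x‖ := by
      calc (1 : ℝ) = ‖X - r x‖ := by rw [hX, add_sub_cancel_right, norm_one]
        _ ≤ _ := norm_sub_le _ _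
    linarith
  have hX0 : X ≠ 0 := by
    intro h0; rw [h0, norm_zero] at h1; norm_num at h1
  have h2 : X * ∑ k ∈ Finset.range n, (1 - X) ^ k = 1 - (1 - X) ^ n := by
    have := mul_neg_geom_sum (1 - X) n
    rw [← this]
    congr 1
    ring
  have h3 : ∑ k ∈ Finset.range n, (1 - X) ^ k - X⁻¹ = -((1 - X) ^ n * X⁻¹) := by
    have : ∑ k ∈ Finset.range n, (1 - X) ^ k = (1 - (1 - X) ^ n) * X⁻¹ := by
      rw [← h2]; field_simp
    rw [this]; ring
  rw [h3, norm_neg, norm_mul, norm_pow, norm_inv, mul_comm]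
  have h4 : ‖1 - X‖ ≤ 1 / 2 := by
    rw [← hX1, neg_one_mul, norm_neg]; exact hx
  refine mul_le_mul ?_ (pow_le_pow_left₀ (norm_nonneg _) h4 n) (by positivity) (by norm_num)
  rw [inv_le_comm₀ (by linarith) (by norm_num)]
  norm_num
  linarith

/-- (A7) `a, b ∈ QDA`, `e ∈ H^∞` invertible (inverse `e'`), `|e| ∈ D`, `e = a + b c₀` with `c₀ ∈ H^∞`: then
`a + t b` is invertible in `QDA` for some `t ∈ QDA`.
Proof: `e, e' ∈ QDA` (`A2`), `b c₀ = e - a ∈ QDA`, `A6` with `η = 1/(2(‖e'‖_∞+1))`: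
`e'(a + tb) = 1 + e' b (t - c₀) =: 1 + r`, `r ∈ QDA`, `|r| ≤ 1/2`, `Σ (-r)^n ∈ QDA` (`QDA.approx`),
`u = e' Σ(-r)^n`. -/
theorem A7 (hD : Doug D) (a b e e' c0 : ℝ → ℂ) (ha : QDA D a) (hb : QDA D b)
    (he : Hinf e) (he' : Hinf e') (hee : ∀ᵐ x ∂mu, e x * e' x = 1)
    (heD : (fun x => (‖e x‖ : ℂ)) ∈ D) (hc0 : Hinf c0)
    (h : ∀ᵐ x ∂mu, e x = a x + b x * c0 x) :
    ∃ t u : ℝ → ℂ, QDA D t ∧ QDA D u ∧ ∀ᵐ x ∂mu, (a x + t x * b x) * u x = 1 := by
  obtain ⟨heQ, heQ'⟩ := A2 hD e e' he he' hee heD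
  have hbc : QDA D (fun x => b x * c0 x) := by
    have h1 := QDA.add hD heQ (a7_smul hD ha (-1))
    refine ⟨⟨hD.ae _ h1.1.1 _ ?_, hD.ae _ h1.1.2 _ ?_⟩, ((QDA.hinf hD hb).mul hc0).ha⟩
    · filter_upwards [h] with x hx
      rw [hx]; ring
    · filter_upwards [h] with x hx
      rw [hx]
      congr 1
      ring
  obtain ⟨-, C, hC, hB⟩ := memLp_top_iff.1 he'.mem
  obtain ⟨t, ht, htb⟩ := A6 hD b c0 hb hc0 hbc (1 / (2 * (C + 1))) (by positivity)
  set r : ℝ → ℂ := fun x => e' x * (b x * t x + (-1) * (b x * c0 x)) with hr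
  have hrQ : QDA D r := QDA.mul hD heQ' (QDA.add hD (QDA.mul hD hb ht) (a7_smul hD hbc (-1)))
  have hrb : BD r (1 / 2) := by
    unfold BD at hB htb ⊢
    filter_upwards [hB, htb] with x h1 h2
    have h3 : r x = e' x * (b x * (t x - c0 x)) := by simp only [hr]; ring
    rw [h3, norm_mul]
    calc ‖e' x‖ * ‖b x * (t x - c0 x)‖ ≤ (C + 1) * (1 / (2 * (C + 1))) :=
          mul_le_mul (by linarith) h2 (norm_nonneg _) (by positivity)
      _ = 1 / 2 := by field_simp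
  have hf := a7_neumann hD hrQ hrb
  refine ⟨t, fun x => e' x * (1 + r x)⁻¹, ht, QDA.mul hD heQ' hf, ?_⟩
  unfold BD at hrb
  filter_upwards [hee, h, hrb] with x h1 h2 h3
  have h4 : 1 + r x ≠ 0 := by
    intro h0
    have : r x = -1 := by linear_combination h0
    rw [this, norm_neg, norm_one] at h3
    norm_num at h3
  have h5 : (a x + t x * b x) * e' x = 1 + r x := by
    simp only [hr]
    linear_combination h1 - e' x * h2
  rw [← mul_assoc, h5, mul_inv_cancel₀ h4]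

end Pool.H14.SR
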