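import Pool.Agent.H14.SR.Basic
import Pool.Agent.H14.SR.A7
import Pool.Agent.H14.SR.HM
open MeasureTheory Set Filter Topology
noncomputable section
namespace Pool.H14.SR


variable {D : Set (ℝ → ℂ)}

/-- (A8) The reduction.
Proof: `w = lam U - s` (`A5a`), `V' = V - b s ∈ H²` (`Htwo.add`, `Hinf.mul_Htwo` …),
`Re V' = Θ(|a|²) - Re(bw) - Re(bs) = Θ(|a|²) - lam Re(bU)`, which is in `D` and bounded (`Doug.fc`, real part
`= (f + conj f)/2`); `e = e^{V'}`, `e' = e^{-V'}` are in `H^∞` (`ext_exp`), `|e| = exp(Re V') ∈ D` (`Doug.fc` with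
`exp`).  `e = e^V e^{-bs} = (a + bc)e^{-bs} = a + b c'`, `c' = c e^{-bs} - a s ε(bs)`, where
`ε(t) = (1 - e^{-t})/t` is entire (`ε(0) = 1`; `Hinf_entire`).  Then `A7`. -/
theorem A8 (hD : Doug D) (a b w V c : ℝ → ℂ) (Θ : ℝ → ℝ) (hΘ : Continuous Θ)
    (ha : QDA D a) (hb : QDA D b) (hw : w ∈ D) (hV : Htwo V)
    (hRe : ∀ᵐ x ∂mu, (V x).re = Θ (‖a x‖ ^ 2) - (b x * w x).re) (hc : Hinf c)
    (he : ∀ᵐ x ∂mu, Complex.exp (V x) = a x + b x * c x) :
    ∃ t u : ℝ → ℂ, QDA D t ∧ QDA D u ∧ ∀ᵐ x ∂mu, (a x + t x * b x) * u x = 1 := by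
  obtain ⟨lam, U, s, hlam, hU, hs, hws⟩ := A5a hD w hw
  have haH := QDA.hinf hD ha
  have hbH := QDA.hinf hD hb
  have hbs : Hinf (fun x => b x * s x) := hbH.mul hs
  set V' : ℝ → ℂ := fun x => V x + (-1) * (b x * s x) with hV'
  have hV'2 : Htwo V' := hV.add (hbs.toHtwo.smul (-1))
  set q : ℝ → ℝ := fun x => Θ (‖a x‖ ^ 2) - lam * (b x * U x).re with hq
  -- `q ∈ D`
  have hqD : (fun x => (q x : ℂ)) ∈ D := by
    have h1 : (fun x => ((Θ (‖a x‖ ^ 2) : ℝ) : ℂ)) ∈ D :=
      Doug.fc_norm hD a ha.1 (fun t => Θ (t ^ 2)) (by fun_prop)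
    have h2 : QD D (fun x => b x * U x) := QD.mul hD hb.1 hU
    have h3 := hD.smul (-(lam / 2 : ℂ)) _ (hD.add _ h2.1 _ h2.2)
    have h4 := hD.add _ h1 _ h3
    convert h4 using 1
    funext x
    simp only [hq, Pi.add_apply, Pi.smul_apply, smul_eq_mul, Complex.ofReal_sub,
      Complex.ofReal_mul]
    rw [Complex.add_conj]
    push_cast
    ring
  have hReV' : ∀ᵐ x ∂mu, (V' x).re = q x := by
    filter_upwards [hRe, hws] with x h1 h2
    have h3 : b x * w x = (lam : ℂ) * (b x * U x) - b x * s x := by rw [h2]; ring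
    simp only [hV', hq]
    rw [Complex.add_re, h1, h3, Complex.sub_re, Complex.re_ofReal_mul]
    simp only [neg_mul, one_mul, Complex.neg_re]
    ring
  obtain ⟨-, C, hC, hB⟩ := memLp_top_iff.1 (hD.mem _ hqD)
  have hbd : ∀ᵐ x ∂mu, -C ≤ (V' x).re ∧ (V' x).re ≤ C := by
    unfold BD at hB
    filter_upwards [hReV', hB] with x h1 h2
    rw [h1]
    rw [Complex.norm_real, Real.norm_eq_abs] at h2
    exact abs_le.1 h2
  have heH := (ext_exp V' hV'2 (-C) C hbd).1
  have heH' := (ext_exp (fun x => (-1) * V' x) (hV'2.smul (-1)) (-C) C (by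
    filter_upwards [hbd] with x h1
    have h2 : ((-1) * V' x).re = -(V' x).re := by simp
    rw [h2]
    constructor <;> linarith [h1.1, h1.2])).1
  -- the entire function
  have hg : Differentiable ℂ (dslope (fun t : ℂ => Complex.exp (-t)) 0) := by
    rw [← differentiableOn_univ]
    rw [Complex.differentiableOn_dslope Filter.univ_mem]
    have : Differentiable ℂ (fun t : ℂ => Complex.exp (-t)) := by fun_prop
    exact this.differentiableOn
  have hexp : Differentiable ℂ (fun t : ℂ => Complex.exp (-t)) := by fun_prop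
  have hc0 : Hinf (fun x => c x * Complex.exp (-(b x * s x)) +
      a x * s x * dslope (fun t : ℂ => Complex.exp (-t)) 0 (b x * s x)) :=
    (hc.mul (Hinf_entire hbs _ hexp)).add ((haH.mul hs).mul (Hinf_entire hbs _ hg))
  refine A7 hD a b (fun x => Complex.exp (V' x)) (fun x => Complex.exp ((-1) * V' x)) _ ha hb
    heH heH' ?_ ?_ hc0 ?_
  · refine Filter.Eventually.of_forall fun x => ?_
    rw [← Complex.exp_add]
    simp
  · have h1 := Doug.fc hD q hqD Real.exp Real.continuous_exp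
    refine hD.ae _ h1 _ ?_
    filter_upwards [hReV'] with x hx
    rw [Complex.norm_exp, hx]
  · filter_upwards [he] with x hx
    have h1 : Complex.exp (V' x) = Complex.exp (V x) * Complex.exp (-(b x * s x)) := by
      rw [← Complex.exp_add]
      congr 1
      simp only [hV']
      ring
    have h2 : b x * s x * dslope (fun t : ℂ => Complex.exp (-t)) 0 (b x * s x) =
        Complex.exp (-(b x * s x)) - 1 := by
      have h3 := sub_smul_dslope (fun t : ℂ => Complex.exp (-t)) 0 (b x * s x)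
      simp only [sub_zero, smul_eq_mul, neg_zero, Complex.exp_zero] at h3
      exact h3
    rw [h1, hx]
    linear_combination (a x) * (-h2)

end Pool.H14.SR
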