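import Pool.Agent.H14.SR.Basic

open MeasureTheory Set Filter Topology
noncomputable section
namespace Pool.H14.SR

/-- derivative of `ζ ↦ f (e^{iζ})` -/
theorem ce_hasDerivAt (f : ℂ → ℂ) (ρ : ℝ) (hρ : 0 < ρ)
    (hf : DifferentiableOn ℂ f (Metric.ball 0 ρ)) (ζ : ℂ) (h : -Real.log ρ < ζ.im) :
    HasDerivAt (fun ζ : ℂ => f (Complex.exp (Complex.I * ζ))) (hp (Dz f) (ζ.re, ζ.im)) ζ := by
  have hE : E (ζ.re, ζ.im) = Complex.exp (Complex.I * ζ) := by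
    unfold E
    rw [Complex.re_add_im]
  have hm := E_mem_ball (p := (ζ.re, ζ.im)) hρ h
  rw [hE] at hm
  have hd : HasDerivAt f (deriv f (Complex.exp (Complex.I * ζ))) (Complex.exp (Complex.I * ζ)) :=
    (hf.differentiableAt (Metric.isOpen_ball.mem_nhds hm)).hasDerivAt
  have h1 : HasDerivAt (fun ζ : ℂ => Complex.exp (Complex.I * ζ))
      (Complex.exp (Complex.I * ζ) * (Complex.I * 1)) ζ :=
    ((hasDerivAt_id ζ).const_mul Complex.I).cexp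
  have h2 := HasDerivAt.comp_of_eq ζ hd h1 rfl
  unfold hp Dz
  rw [hE]
  refine h2.congr_deriv ?_
  ring

theorem ce_norm_le (f : ℂ → ℂ) (ρ : ℝ) (hρ : 0 < ρ)
    (h1 : ∀ w ∈ Metric.ball (0 : ℂ) ρ, ‖f w‖ ≤ 1) (ζ : ℂ) (h : -Real.log ρ < ζ.im) :
    ‖f (Complex.exp (Complex.I * ζ))‖ ≤ 1 := by
  have hE : E (ζ.re, ζ.im) = Complex.exp (Complex.I * ζ) := by
    unfold E
    rw [Complex.re_add_im]
  have hm := E_mem_ball (p := (ζ.re, ζ.im)) hρ h
  rw [hE] at hm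
  exact h1 _ hm

/-- Cauchy's estimate in the half plane coordinate: `|f| ≤ 1` on `|w| < ρ` gives `|f'(ζ)| ≤ 1/(y + log ρ)`
(the disc of radius `y + log ρ` around `ζ` is in the half plane `y > -log ρ`). -/
theorem hp_cauchy (f : ℂ → ℂ) (ρ : ℝ) (hρ : 0 < ρ) (hf : DifferentiableOn ℂ f (Metric.ball 0 ρ))
    (h1 : ∀ w ∈ Metric.ball (0 : ℂ) ρ, ‖f w‖ ≤ 1) (p : ℝ × ℝ) (hy : -Real.log ρ < p.2) :
    ‖hp (Dz f) p‖ ≤ 1 / (p.2 + Real.log ρ) := by
  set ζ : ℂ := ⟨p.1, p.2⟩ with hζ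
  have hR : 0 < p.2 + Real.log ρ := by linarith
  have hder := ce_hasDerivAt f ρ hρ hf ζ hy
  have hkey : ∀ r : ℝ, 0 < r → r < p.2 + Real.log ρ → ‖hp (Dz f) p‖ ≤ 1 / r := by
    intro r hr0 hr
    have him : ∀ z ∈ Metric.closedBall ζ r, -Real.log ρ < z.im := by
      intro z hz
      rw [Metric.mem_closedBall, dist_eq_norm] at hz
      have h3 := (Complex.abs_im_le_norm (z - ζ)).trans hz
      rw [Complex.sub_im] at h3
      have h4 := (abs_le.1 h3).1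
      have h5 : ζ.im = p.2 := rfl
      linarith
    have hdc : DiffContOnCl ℂ (fun ζ : ℂ => f (Complex.exp (Complex.I * ζ))) (Metric.ball ζ r) := by
      apply DifferentiableOn.diffContOnCl
      rw [closure_ball _ hr0.ne']
      intro z hz
      exact (ce_hasDerivAt f ρ hρ hf z (him z hz)).differentiableAt.differentiableWithinAt
    have h6 := Complex.norm_deriv_le_of_forall_mem_sphere_norm_le hr0 hdc
      (fun z hz => ce_norm_le f ρ hρ h1 z (him z (Metric.sphere_subset_closedBall hz)))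
    rwa [hder.deriv] at h6
  by_contra hcon
  push Not at hcon
  have hpos : 0 < ‖hp (Dz f) p‖ := lt_trans (by positivity) hcon
  have h7 : 1 / ‖hp (Dz f) p‖ < p.2 + Real.log ρ := by
    rw [div_lt_iff₀ hR] at hcon
    rw [div_lt_iff₀ hpos]
    linarith
  obtain ⟨r, hr1, hr2⟩ := exists_between h7
  have hr0 : 0 < r := lt_trans (by positivity) hr1
  have h8 := hkey r hr0 hr2
  rw [le_div_iff₀ hr0] at h8
  rw [div_lt_iff₀ hpos] at hr1
  linarith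

/-- Schwarz lemma: `|f(w) - f(0)| ≤ 2|w|` if `|f| ≤ 1` on the unit disc. -/
theorem near_zero (f : ℂ → ℂ) (hf : DifferentiableOn ℂ f (Metric.ball 0 1))
    (h1 : ∀ w ∈ Metric.ball (0 : ℂ) 1, ‖f w‖ ≤ 1) (w : ℂ) (hw : w ∈ Metric.ball (0 : ℂ) 1) :
    ‖f w - f 0‖ ≤ 2 * ‖w‖ := by
  have h2 : MapsTo f (Metric.ball 0 1) (Metric.closedBall (f 0) 2) := by
    intro z hz
    rw [Metric.mem_closedBall, dist_eq_norm]
    have h3 := h1 z hz
    have h4 := h1 0 (Metric.mem_ball_self one_pos)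
    calc ‖f z - f 0‖ ≤ ‖f z‖ + ‖f 0‖ := norm_sub_le _ _
      _ ≤ 2 := by linarith
  have h5 := Complex.dist_le_div_mul_dist_of_mapsTo_ball hf h2 hw
  rw [dist_eq_norm, dist_eq_norm, sub_zero, div_one] at h5
  exact h5

/-- Variation of `f` along a segment: for two points of `y > -log ρ` with heights `≥ y₀ > -log ρ`,
`|f(p) - f(q)| ≤ (|p.1-q.1| + |p.2-q.2|)/(y₀ + log ρ)`. -/
theorem hp_lip (f : ℂ → ℂ) (ρ : ℝ) (hρ : 0 < ρ) (hf : DifferentiableOn ℂ f (Metric.ball 0 ρ))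
    (h1 : ∀ w ∈ Metric.ball (0 : ℂ) ρ, ‖f w‖ ≤ 1) (y0 : ℝ) (hy0 : -Real.log ρ < y0)
    (p q : ℝ × ℝ) (h2 : y0 ≤ p.2) (h3 : y0 ≤ q.2) :
    ‖hp f p - hp f q‖ ≤ (|p.1 - q.1| + |p.2 - q.2|) / (y0 + Real.log ρ) := by
  have hR : 0 < y0 + Real.log ρ := by linarith
  have hconv : Convex ℝ {z : ℂ | y0 ≤ z.im} := convex_halfSpace_im_ge y0
  have hmv := hconv.norm_image_sub_le_of_norm_deriv_le (𝕜 := ℂ)
    (f := fun ζ : ℂ => f (Complex.exp (Complex.I * ζ))) (C := 1 / (y0 + Real.log ρ))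
    (fun z hz => (ce_hasDerivAt f ρ hρ hf z (lt_of_lt_of_le hy0 hz)).differentiableAt)
    (fun z hz => by
      have hz' : y0 ≤ z.im := hz
      rw [(ce_hasDerivAt f ρ hρ hf z (lt_of_lt_of_le hy0 hz)).deriv]
      refine (hp_cauchy f ρ hρ hf h1 (z.re, z.im) (lt_of_lt_of_le hy0 hz)).trans ?_
      apply one_div_le_one_div_of_le hR
      show y0 + Real.log ρ ≤ z.im + Real.log ρ
      linarith)
    (x := (⟨q.1, q.2⟩ : ℂ)) (y := (⟨p.1, p.2⟩ : ℂ)) h3 h2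
  have e : ∀ p : ℝ × ℝ, hp f p = f (Complex.exp (Complex.I * (⟨p.1, p.2⟩ : ℂ))) := by
    intro p
    unfold hp E
    rw [Complex.mk_eq_add_mul_I]
  rw [e p, e q]
  refine hmv.trans ?_
  rw [div_mul_eq_mul_div, one_mul]
  apply div_le_div_of_nonneg_right _ hR.le
  exact Complex.norm_le_abs_re_add_abs_im _

end Pool.H14.SR
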