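import Pool.Agent.H14.SR.Basic
import Pool.Agent.H14.SR.CE
open MeasureTheory Set Filter Topology
noncomputable section
namespace Pool.H14.SR

namespace BFaux

theorem ofReal_integral_le {α : Type*} [MeasurableSpace α] (μ : Measure α) (f : α → ℝ)
    (h : ∀ x, 0 ≤ f x) : ENNReal.ofReal (∫ x, f x ∂μ) ≤ ∫⁻ x, ENNReal.ofReal (f x) ∂μ := by
  by_cases hi : Integrable f μ
  · rw [ofReal_integral_eq_lintegral_ofReal hi (ae_of_all _ h)]
  · rw [integral_undef hi]; simp

theorem X2_le (s : ℝ) (hs : 0 < s) (m : ℝ × ℝ → ℝ) (m0 : ∀ p, 0 ≤ m p) (X2 : ℝ × ℝ → ℝ)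
    (hX2 : ∀ p : ℝ × ℝ, 0 ≤ X2 p ∧
        X2 p ≤ 2 / s * ∫ t in Set.Icc (p.1 - s) (p.1 + s), ∫ y in Set.Ioi p.2, m (t, y))
    (p : ℝ × ℝ) :
    ENNReal.ofReal (X2 p) ≤ ENNReal.ofReal (2 / s) *
      ∫⁻ t in Icc (p.1 - s) (p.1 + s), ∫⁻ y, ENNReal.ofReal (m (t, y)) := by
  refine (ENNReal.ofReal_le_ofReal (hX2 p).2).trans ?_
  rw [ENNReal.ofReal_mul (by positivity)]
  gcongr
  refine (ofReal_integral_le _ _ fun t => integral_nonneg fun y => m0 _).trans ?_
  refine lintegral_mono fun t => ?_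
  refine (ofReal_integral_le _ _ fun y => m0 _).trans ?_
  exact setLIntegral_le_lintegral _ _

theorem cauchy (c w : ℝ) (hw : 0 < w) :
    Integrable (fun x : ℝ => 1 / ((x - c) ^ 2 + w ^ 2)) ∧
      ∫ x : ℝ, 1 / ((x - c) ^ 2 + w ^ 2) = Real.pi / w := by
  have h1 : (fun x : ℝ => 1 / ((x - c) ^ 2 + w ^ 2)) =
      fun x => (w ^ 2)⁻¹ * (fun t : ℝ => (1 + t ^ 2)⁻¹) ((x - c) / w) := by
    ext x
    have : (x - c) ^ 2 + w ^ 2 ≠ 0 := by positivity
    field_simp
    ring
  constructor
  · rw [h1]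
    apply Integrable.const_mul
    have h2 := (integrable_inv_one_add_sq.comp_div hw.ne').comp_sub_right c
    exact h2
  · rw [h1, integral_const_mul]
    rw [integral_sub_right_eq_self (μ := volume) (fun x => (fun t : ℝ => (1 + t ^ 2)⁻¹) (x / w)) c]
    rw [Measure.integral_comp_div (fun t : ℝ => (1 + t ^ 2)⁻¹) w, integral_univ_inv_one_add_sq,
      abs_of_pos hw, smul_eq_mul]
    field_simp

theorem log_le (u : ℝ) (hu : 0 ≤ u) : Real.log (1 + u) ≤ Real.sqrt u := by
  set v := Real.sqrt u with hv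
  have hv0 : 0 ≤ v := Real.sqrt_nonneg _
  have e : u = v ^ 2 := (Real.sq_sqrt hu).symm
  rw [Real.log_le_iff_le_exp (by positivity), e]
  have h1 := Real.quadratic_le_exp_of_nonneg (x := v / 2) (by positivity)
  have h2 : Real.exp v = Real.exp (v / 2) ^ 2 := by
    rw [← Real.exp_nat_mul]; congr 1; push_cast; ring
  rw [h2]
  have h3 : (1 + v / 2 + (v / 2) ^ 2 / 2) ^ 2 ≤ Real.exp (v / 2) ^ 2 :=
    pow_le_pow_left₀ (by positivity) h1 2
  refine le_trans ?_ h3
  nlinarith [mul_nonneg hv0 (sq_nonneg (v - 2)), mul_nonneg hv0 hv0, pow_nonneg hv0 4]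

theorem qk_meas (z : ℝ × ℝ) : Measurable (qk z) := by
  unfold qk
  exact Measurable.div (by fun_prop) (by fun_prop)

theorem qk_nonneg (z : ℝ × ℝ) (hz : 0 < z.2) (p : ℝ × ℝ) : 0 ≤ qk z p := by
  unfold qk
  positivity

theorem strip_set (c : ℝ) : HP ∩ {p : ℝ × ℝ | p.2 < c} = univ ×ˢ Ioo 0 c := by
  ext p
  simp [HP]

theorem qk_int (z : ℝ × ℝ) (hz : 0 < z.2) (c : ℝ) (hc : 0 < c) :
    ∫⁻ p in HP ∩ {p | p.2 < c}, ENNReal.ofReal (qk z p) ≤
      ENNReal.ofReal (4 * Real.pi * z.2 * Real.sqrt (c / z.2)) := by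
  have hpi := Real.pi_pos
  rw [strip_set, Measure.volume_eq_prod, ← Measure.prod_restrict, Measure.restrict_univ]
  rw [lintegral_prod_symm _ (by exact (qk_meas z).ennreal_ofReal.aemeasurable)]
  have h1 : ∀ y ∈ Ioo 0 c, ∫⁻ x, ENNReal.ofReal (qk z (x, y)) =
      ENNReal.ofReal (4 * Real.pi * z.2 * (1 / (y + z.2))) := by
    intro y hy
    have hw : 0 < y + z.2 := by linarith [hy.1]
    obtain ⟨a1, a2⟩ := cauchy z.1 (y + z.2) hw
    have e : ∀ x, qk z (x, y) = 4 * z.2 * (1 / ((x - z.1) ^ 2 + (y + z.2) ^ 2)) := by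
      intro x; unfold qk; ring
    simp_rw [e]
    rw [← ofReal_integral_eq_lintegral_ofReal (a1.const_mul _)
      (ae_of_all _ fun x => by simp only [Pi.zero_apply]; positivity), integral_const_mul, a2]
    congr 1
    ring
  rw [setLIntegral_congr_fun measurableSet_Ioo h1]
  have hcont : ContinuousOn (fun y : ℝ => 4 * Real.pi * z.2 * (1 / (y + z.2))) (Icc 0 c) := by
    apply ContinuousOn.mul continuousOn_const
    apply ContinuousOn.div continuousOn_const (by fun_prop)
    intro y hy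
    have := hy.1
    positivity
  have hint : IntegrableOn (fun y : ℝ => 4 * Real.pi * z.2 * (1 / (y + z.2))) (Ioo 0 c) :=
    (hcont.integrableOn_compact isCompact_Icc).mono_set Ioo_subset_Icc_self
  rw [← ofReal_integral_eq_lintegral_ofReal hint]
  · apply ENNReal.ofReal_le_ofReal
    rw [← integral_Ioc_eq_integral_Ioo, ← intervalIntegral.integral_of_le hc.le,
      intervalIntegral.integral_const_mul]
    have h2 : ∫ y in (0 : ℝ)..c, 1 / (y + z.2) = Real.log (c + z.2) - Real.log (0 + z.2) := by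
      rw [intervalIntegral.integral_eq_sub_of_hasDerivAt (f := fun y => Real.log (y + z.2))]
      · intro y hy
        rw [uIcc_of_le hc.le] at hy
        have : y + z.2 ≠ 0 := by have := hy.1; positivity
        have h3 := ((hasDerivAt_id y).add_const z.2).log this
        simpa using h3
      · apply ContinuousOn.intervalIntegrable
        rw [uIcc_of_le hc.le]
        apply ContinuousOn.div continuousOn_const (by fun_prop)
        intro y hy
        have := hy.1
        positivity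
    rw [h2, zero_add, ← Real.log_div (by positivity) hz.ne']
    have h4 : (c + z.2) / z.2 = 1 + c / z.2 := by field_simp; ring
    rw [h4]
    exact mul_le_mul_of_nonneg_left (log_le _ (by positivity)) (by positivity)
  · rw [EventuallyLE, ae_restrict_iff' measurableSet_Ioo]
    refine ae_of_all _ fun y hy => ?_
    have := hy.1
    simp only [Pi.zero_apply]
    positivity

end BFaux

/-- **(BF1)** Far part of the potential of one band, seen from below (`z_y ≤ h`).
Proof: `m ≤ Cm|a'|² ≤ 4Cm/h²` on `y ≥ h/2` (`hp_cauchy`), so `X₂ ≤ (2/s)(2s)(3h/2)(4Cm/h²) = 24Cm/h`, and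
`∬_{0<y<θh} q_z = ∫_0^{θh} 4π z_y/(y+z_y) dy = 4π z_y log(1+θh/z_y) ≤ 4π z_y (θh/z_y)^{1/2}`; `96π ≤ 320`. -/
theorem BF1 (ρ : ℝ) (hρ : 1 < ρ) (a : ℂ → ℂ) (ha : DifferentiableOn ℂ a (Metric.ball 0 ρ))
    (ha1 : ∀ w ∈ Metric.ball (0 : ℂ) ρ, ‖a w‖ ≤ 1) (Cm h s θ : ℝ) (hCm : 0 ≤ Cm) (hh : 0 < h)
    (hs : 0 < s) (hθ : 0 < θ) (m : ℝ × ℝ → ℝ) (hm : Continuous m) (m0 : ∀ p, 0 ≤ m p)
    (hma : ∀ p : ℝ × ℝ, 0 < p.2 → m p ≤ Cm * ‖hp (Dz a) p‖ ^ 2)
    (hsupp : ∀ p : ℝ × ℝ, m p ≠ 0 → h / 2 ≤ p.2 ∧ p.2 ≤ 2 * h)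
    (X2 : ℝ × ℝ → ℝ) (hX2c : Measurable X2)
    (hX2 : ∀ p : ℝ × ℝ, 0 ≤ X2 p ∧
        X2 p ≤ 2 / s * ∫ t in Set.Icc (p.1 - s) (p.1 + s), ∫ y in Set.Ioi p.2, m (t, y))
    (z : ℝ × ℝ) (hz : 0 < z.2) :
    ∫⁻ p in HP ∩ {p | p.2 < θ * h}, ENNReal.ofReal (X2 p * qk z p)
      ≤ ENNReal.ofReal (320 * Cm * Real.sqrt θ * Real.sqrt (z.2 / h)) := by
  have hpi := Real.pi_pos
  have hlog : 0 < Real.log ρ := Real.log_pos hρ
  -- bound of m
  have hmb : ∀ p, m p ≤ 4 * Cm / h ^ 2 := by
    intro p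
    by_cases hne : m p = 0
    · rw [hne]; positivity
    · obtain ⟨h1, h2⟩ := hsupp p hne
      have hp0 : 0 < p.2 := by linarith
      have h3 := hp_cauchy a ρ (by linarith) ha ha1 p (by linarith)
      have h4 : ‖hp (Dz a) p‖ ≤ 2 / h := by
        refine h3.trans ?_
        rw [div_le_div_iff₀ (by linarith) hh]
        linarith
      have h5 : ‖hp (Dz a) p‖ ^ 2 ≤ (2 / h) ^ 2 := pow_le_pow_left₀ (norm_nonneg _) h4 2
      calc m p ≤ Cm * ‖hp (Dz a) p‖ ^ 2 := hma p hp0
        _ ≤ Cm * (2 / h) ^ 2 := mul_le_mul_of_nonneg_left h5 hCm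
        _ = _ := by ring
  have hmi : ∀ t, ∫⁻ y, ENNReal.ofReal (m (t, y)) ≤ ENNReal.ofReal (6 * Cm / h) := by
    intro t
    calc ∫⁻ y, ENNReal.ofReal (m (t, y))
        ≤ ∫⁻ y, (Icc (h / 2) (2 * h)).indicator (fun _ => ENNReal.ofReal (4 * Cm / h ^ 2)) y := by
          refine lintegral_mono fun y => ?_
          by_cases hy : y ∈ Icc (h / 2) (2 * h)
          · rw [indicator_of_mem hy]
            exact ENNReal.ofReal_le_ofReal (hmb _)
          · rw [indicator_of_notMem hy]
            have : m (t, y) = 0 := by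
              by_contra hne
              exact hy (hsupp _ hne)
            rw [this]; simp
      _ = ENNReal.ofReal (4 * Cm / h ^ 2) * ENNReal.ofReal (2 * h - h / 2) := by
          rw [lintegral_indicator measurableSet_Icc, setLIntegral_const, Real.volume_Icc]
      _ = ENNReal.ofReal (6 * Cm / h) := by
          rw [← ENNReal.ofReal_mul (by positivity)]
          congr 1
          field_simp
          ring
  have hX : ∀ p, ENNReal.ofReal (X2 p) ≤ ENNReal.ofReal (24 * Cm / h) := by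
    intro p
    refine (BFaux.X2_le s hs m m0 X2 hX2 p).trans ?_
    calc ENNReal.ofReal (2 / s) * ∫⁻ t in Icc (p.1 - s) (p.1 + s), ∫⁻ y, ENNReal.ofReal (m (t, y))
        ≤ ENNReal.ofReal (2 / s) * ∫⁻ t in Icc (p.1 - s) (p.1 + s), ENNReal.ofReal (6 * Cm / h) := by
          gcongr with t
          exact hmi t
      _ = ENNReal.ofReal (24 * Cm / h) := by
          rw [setLIntegral_const, Real.volume_Icc, ← ENNReal.ofReal_mul (by positivity),
            ← ENNReal.ofReal_mul (by positivity)]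
          congr 1
          field_simp
          ring
  calc ∫⁻ p in HP ∩ {p | p.2 < θ * h}, ENNReal.ofReal (X2 p * qk z p)
      ≤ ∫⁻ p in HP ∩ {p | p.2 < θ * h}, ENNReal.ofReal (24 * Cm / h) * ENNReal.ofReal (qk z p) := by
        refine lintegral_mono fun p => ?_
        rw [ENNReal.ofReal_mul (hX2 p).1]
        exact mul_le_mul' (hX p) le_rfl
    _ = ENNReal.ofReal (24 * Cm / h) * ∫⁻ p in HP ∩ {p | p.2 < θ * h}, ENNReal.ofReal (qk z p) :=
        lintegral_const_mul _ (BFaux.qk_meas z).ennreal_ofReal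
    _ ≤ ENNReal.ofReal (24 * Cm / h) *
        ENNReal.ofReal (4 * Real.pi * z.2 * Real.sqrt (θ * h / z.2)) := by
        gcongr
        exact BFaux.qk_int z hz _ (by positivity)
    _ ≤ ENNReal.ofReal (320 * Cm * Real.sqrt θ * Real.sqrt (z.2 / h)) := by
        rw [← ENNReal.ofReal_mul (by positivity)]
        apply ENNReal.ofReal_le_ofReal
        have e1 : Real.sqrt (θ * h / z.2) = Real.sqrt θ * (h / z.2 * Real.sqrt (z.2 / h)) := by
          have e2 : θ * h / z.2 = θ * ((h / z.2) ^ 2 * (z.2 / h)) := by field_simp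
          rw [e2, Real.sqrt_mul hθ.le, Real.sqrt_mul (by positivity), Real.sqrt_sq (by positivity)]
        rw [e1]
        have e3 : 24 * Cm / h * (4 * Real.pi * z.2 * (Real.sqrt θ * (h / z.2 * Real.sqrt (z.2 / h)))) =
            (96 * Real.pi) * (Cm * Real.sqrt θ * Real.sqrt (z.2 / h)) := by
          field_simp
          ring
        rw [e3]
        have e4 : 96 * Real.pi ≤ 320 := by nlinarith [Real.pi_lt_d2]
        calc (96 * Real.pi) * (Cm * Real.sqrt θ * Real.sqrt (z.2 / h))
            ≤ 320 * (Cm * Real.sqrt θ * Real.sqrt (z.2 / h)) :=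
              mul_le_mul_of_nonneg_right e4 (by positivity)
          _ = _ := by ring

/-- **(BF2)** Far part of the potential of one band, seen from above (`h ≤ z_y`).
Proof: Tonelli; for `0 < y < θh ≤ h/4`, `h/2 ≤ σ ≤ 2h ≤ 2z_y`, `|x-t'| ≤ s ≤ h/4`: `q_z(x,y) ≤ 10 q_z(t',σ)`
(`(x_z-t')²+(z_y+σ)² ≤ 2(x_z-x)²+2s²+9z_y² ≤ 10((x_z-x)²+(y+z_y)²)`), so the integral is
`≤ (2/s)(2s)(θh)·10 ∬ m q_z ≤ 80 θ ∬ m σ q_z`. -/
theorem BF2 (h s θ : ℝ) (hh : 0 < h)
    (hs : 0 < s) (hs2 : s ≤ h / 4) (hθ : 0 < θ) (hθ1 : θ ≤ 1 / 4)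
    (m : ℝ × ℝ → ℝ) (hm : Continuous m) (m0 : ∀ p, 0 ≤ m p)
    (hsupp : ∀ p : ℝ × ℝ, m p ≠ 0 → h / 2 ≤ p.2 ∧ p.2 ≤ 2 * h)
    (X2 : ℝ × ℝ → ℝ) (hX2c : Measurable X2)
    (hX2 : ∀ p : ℝ × ℝ, 0 ≤ X2 p ∧
        X2 p ≤ 2 / s * ∫ t in Set.Icc (p.1 - s) (p.1 + s), ∫ y in Set.Ioi p.2, m (t, y))
    (z : ℝ × ℝ) (hz : h ≤ z.2) :
    ∫⁻ p in HP ∩ {p | p.2 < θ * h}, ENNReal.ofReal (X2 p * qk z p)
      ≤ ENNReal.ofReal (80 * θ) * ∫⁻ p in HP, ENNReal.ofReal (m p * (p.2 * qk z p)) := by
  have hz0 : 0 < z.2 := by linarith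
  set W : ℝ → ENNReal := fun t => ∫⁻ y, ENNReal.ofReal (m (t, y) * qk z (t, y)) with hW
  have hmq : Measurable fun p : ℝ × ℝ => ENNReal.ofReal (m p * qk z p) :=
    (hm.measurable.mul (BFaux.qk_meas z)).ennreal_ofReal
  have hWm : Measurable W := hmq.lintegral_prod_right'
  -- kernel comparison
  have hker : ∀ x y t σ : ℝ, 0 < y → |x - t| ≤ s → h / 2 ≤ σ → σ ≤ 2 * h →
      qk z (x, y) ≤ 10 * qk z (t, σ) := by
    intro x y t σ hy hxt h1 h2
    unfold qk
    simp only
    have hD1 : 0 < (x - z.1) ^ 2 + (y + z.2) ^ 2 := by positivity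
    have hD2 : 0 < (t - z.1) ^ 2 + (σ + z.2) ^ 2 := by
      have : 0 < σ + z.2 := by linarith
      positivity
    have h3 : (t - z.1) ^ 2 + (σ + z.2) ^ 2 ≤ 10 * ((x - z.1) ^ 2 + (y + z.2) ^ 2) := by
      have g1 : (x - t) ^ 2 ≤ s ^ 2 := by
        rw [← sq_abs (x - t)]
        exact pow_le_pow_left₀ (abs_nonneg _) hxt 2
      have g2 : s ^ 2 ≤ (z.2 / 4) ^ 2 := pow_le_pow_left₀ hs.le (by linarith) 2
      have g3 : (σ + z.2) ^ 2 ≤ (3 * z.2) ^ 2 := pow_le_pow_left₀ (by linarith) (by linarith) 2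
      have g4 : z.2 ^ 2 ≤ (y + z.2) ^ 2 := pow_le_pow_left₀ hz0.le (by linarith) 2
      have g5 : (t - z.1) ^ 2 ≤ 2 * (x - z.1) ^ 2 + 2 * (x - t) ^ 2 := by
        nlinarith [sq_nonneg ((x - z.1) + (x - t))]
      nlinarith [sq_nonneg (x - z.1)]
    rw [← mul_div_assoc, div_le_div_iff₀ hD1 hD2]
    calc 4 * z.2 * ((t - z.1) ^ 2 + (σ + z.2) ^ 2)
        ≤ 4 * z.2 * (10 * ((x - z.1) ^ 2 + (y + z.2) ^ 2)) :=
          mul_le_mul_of_nonneg_left h3 (by positivity)
      _ = _ := by ring
  -- pointwise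
  have hpt : ∀ p : ℝ × ℝ, 0 < p.2 → ENNReal.ofReal (X2 p * qk z p) ≤
      ENNReal.ofReal (20 / s) * ∫⁻ t in Icc (p.1 - s) (p.1 + s), W t := by
    intro p hp0
    rw [ENNReal.ofReal_mul (hX2 p).1]
    have e1 : ENNReal.ofReal (X2 p) * ENNReal.ofReal (qk z p) ≤
        ENNReal.ofReal (2 / s) * (∫⁻ t in Icc (p.1 - s) (p.1 + s), ∫⁻ y, ENNReal.ofReal (m (t, y)))
          * ENNReal.ofReal (qk z p) := by
      gcongr
      exact BFaux.X2_le s hs m m0 X2 hX2 p
    refine e1.trans ?_
    have e2 : (∫⁻ t in Icc (p.1 - s) (p.1 + s), ∫⁻ y, ENNReal.ofReal (m (t, y)))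
          * ENNReal.ofReal (qk z p) ≤ 10 * ∫⁻ t in Icc (p.1 - s) (p.1 + s), W t := by
      rw [← lintegral_mul_const' _ _ ENNReal.ofReal_ne_top, ← lintegral_const_mul' _ _ (by norm_num)]
      refine setLIntegral_mono' measurableSet_Icc fun t ht => ?_
      rw [← lintegral_mul_const' _ _ ENNReal.ofReal_ne_top, ← lintegral_const_mul' _ _ (by norm_num)]
      refine lintegral_mono fun y => ?_
      by_cases hne : m (t, y) = 0
      · rw [hne]; simp
      · obtain ⟨h1, h2⟩ := hsupp _ hne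
        have h3 := hker p.1 p.2 t y hp0 (by rw [abs_le]; constructor <;> linarith [ht.1, ht.2]) h1 h2
        rw [← ENNReal.ofReal_mul (m0 _)]
        have h4 : (10 : ENNReal) = ENNReal.ofReal 10 := by norm_num
        rw [h4, ← ENNReal.ofReal_mul (by norm_num)]
        apply ENNReal.ofReal_le_ofReal
        calc m (t, y) * qk z p ≤ m (t, y) * (10 * qk z (t, y)) :=
              mul_le_mul_of_nonneg_left h3 (m0 _)
          _ = _ := by ring
    calc ENNReal.ofReal (2 / s) * (∫⁻ t in Icc (p.1 - s) (p.1 + s), ∫⁻ y, ENNReal.ofReal (m (t, y)))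
          * ENNReal.ofReal (qk z p)
        = ENNReal.ofReal (2 / s) * ((∫⁻ t in Icc (p.1 - s) (p.1 + s), ∫⁻ y, ENNReal.ofReal (m (t, y)))
          * ENNReal.ofReal (qk z p)) := by rw [mul_assoc]
      _ ≤ ENNReal.ofReal (2 / s) * (10 * ∫⁻ t in Icc (p.1 - s) (p.1 + s), W t) := by gcongr
      _ = ENNReal.ofReal (20 / s) * ∫⁻ t in Icc (p.1 - s) (p.1 + s), W t := by
          rw [← mul_assoc]
          congr 1
          have h4 : (10 : ENNReal) = ENNReal.ofReal 10 := by norm_num
          rw [h4, ← ENNReal.ofReal_mul (by positivity)]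
          congr 1
          ring
  -- Tonelli in x
  have hTon : ∫⁻ x, ∫⁻ t in Icc (x - s) (x + s), W t = ENNReal.ofReal (2 * s) * ∫⁻ t, W t := by
    have e1 : ∀ x, ∫⁻ t in Icc (x - s) (x + s), W t =
        ∫⁻ t, W t * ({q : ℝ × ℝ | |q.1 - q.2| ≤ s}.indicator (fun _ => (1 : ENNReal)) (x, t)) := by
      intro x
      rw [← lintegral_indicator measurableSet_Icc]
      refine lintegral_congr fun t => ?_
      by_cases ht : t ∈ Icc (x - s) (x + s)
      · rw [indicator_of_mem ht, indicator_of_mem, mul_one]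
        show |x - t| ≤ s
        rw [abs_le]
        constructor <;> linarith [ht.1, ht.2]
      · rw [indicator_of_notMem ht, indicator_of_notMem, mul_zero]
        intro h
        have h' : |x - t| ≤ s := h
        rw [abs_le] at h'
        exact ht ⟨by linarith [h'.2], by linarith [h'.1]⟩
    simp_rw [e1]
    have hmeas : MeasurableSet {q : ℝ × ℝ | |q.1 - q.2| ≤ s} :=
      measurableSet_le (by fun_prop) measurable_const
    have hind : Measurable ({q : ℝ × ℝ | |q.1 - q.2| ≤ s}.indicator (fun _ => (1 : ENNReal))) :=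
      measurable_const.indicator hmeas
    rw [lintegral_lintegral_swap]
    · rw [← lintegral_const_mul _ hWm]
      refine lintegral_congr fun t => ?_
      have e2 : ∫⁻ x, ({q : ℝ × ℝ | |q.1 - q.2| ≤ s}.indicator (fun _ => (1 : ENNReal)) (x, t)) =
          ENNReal.ofReal (2 * s) := by
        have e3 : (fun x => ({q : ℝ × ℝ | |q.1 - q.2| ≤ s}.indicator (fun _ => (1 : ENNReal)) (x, t)))
            = (Icc (t - s) (t + s)).indicator (fun _ => (1 : ENNReal)) := by
          ext x
          by_cases hx : x ∈ Icc (t - s) (t + s)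
          · rw [indicator_of_mem hx, indicator_of_mem]
            show |x - t| ≤ s
            rw [abs_le]
            constructor <;> linarith [hx.1, hx.2]
          · rw [indicator_of_notMem hx, indicator_of_notMem]
            intro h
            have h' : |x - t| ≤ s := h
            rw [abs_le] at h'
            exact hx ⟨by linarith [h'.1], by linarith [h'.2]⟩
        rw [e3, lintegral_indicator measurableSet_Icc, setLIntegral_const, Real.volume_Icc, one_mul]
        congr 1
        ring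
      have hmt : Measurable fun x : ℝ =>
          ({q : ℝ × ℝ | |q.1 - q.2| ≤ s}.indicator (fun _ => (1 : ENNReal)) (x, t)) :=
        hind.comp (measurable_id.prodMk measurable_const)
      rw [lintegral_const_mul _ hmt, e2, mul_comm]
    · exact ((hWm.comp measurable_snd).mul hind).aemeasurable
  calc ∫⁻ p in HP ∩ {p | p.2 < θ * h}, ENNReal.ofReal (X2 p * qk z p)
      ≤ ∫⁻ p in HP ∩ {p | p.2 < θ * h},
          ENNReal.ofReal (20 / s) * ∫⁻ t in Icc (p.1 - s) (p.1 + s), W t := by
        refine setLIntegral_mono' ?_ fun p hp => hpt p hp.1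
        rw [BFaux.strip_set]
        exact MeasurableSet.univ.prod measurableSet_Ioo
    _ = ENNReal.ofReal (θ * h) * (ENNReal.ofReal (20 / s) * (ENNReal.ofReal (2 * s) * ∫⁻ t, W t)) := by
        rw [lintegral_const_mul' _ _ ENNReal.ofReal_ne_top]
        rw [BFaux.strip_set, Measure.volume_eq_prod, ← Measure.prod_restrict, Measure.restrict_univ]
        have hm1 : Measurable fun x : ℝ => ∫⁻ t in Icc (x - s) (x + s), W t := by
          have e4 : (fun x : ℝ => ∫⁻ t in Icc (x - s) (x + s), W t) = fun x =>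
              ∫⁻ t, ({q : ℝ × ℝ | |q.1 - q.2| ≤ s}.indicator (fun q => W q.2) (x, t)) := by
            ext x
            rw [← lintegral_indicator measurableSet_Icc]
            refine lintegral_congr fun t => ?_
            by_cases ht : t ∈ Icc (x - s) (x + s)
            · rw [indicator_of_mem ht, indicator_of_mem]
              show |x - t| ≤ s
              rw [abs_le]
              constructor <;> linarith [ht.1, ht.2]
            · rw [indicator_of_notMem ht, indicator_of_notMem]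
              intro h
              have h' : |x - t| ≤ s := h
              rw [abs_le] at h'
              exact ht ⟨by linarith [h'.2], by linarith [h'.1]⟩
          rw [e4]
          have hmeas : MeasurableSet {q : ℝ × ℝ | |q.1 - q.2| ≤ s} :=
            measurableSet_le (by fun_prop) measurable_const
          exact ((hWm.comp measurable_snd).indicator hmeas).lintegral_prod_right'
        rw [lintegral_prod _ (by exact (hm1.comp measurable_fst).aemeasurable)]
        simp only [lintegral_const, Measure.restrict_apply MeasurableSet.univ, univ_inter,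
          Real.volume_Ioo, sub_zero]
        rw [lintegral_mul_const _ hm1, hTon]
        ring
    _ = ∫⁻ t, ∫⁻ y, ENNReal.ofReal (40 * θ * h) * ENNReal.ofReal (m (t, y) * qk z (t, y)) := by
        rw [← mul_assoc, ← mul_assoc, ← ENNReal.ofReal_mul (by positivity),
          ← ENNReal.ofReal_mul (by positivity)]
        have e5 : θ * h * (20 / s) * (2 * s) = 40 * θ * h := by field_simp; ring
        rw [e5, ← lintegral_const_mul _ hWm]
        refine lintegral_congr fun t => ?_
        rw [lintegral_const_mul' _ _ ENNReal.ofReal_ne_top]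
    _ ≤ ∫⁻ t, ∫⁻ y, ENNReal.ofReal (80 * θ) *
          HP.indicator (fun p => ENNReal.ofReal (m p * (p.2 * qk z p))) (t, y) := by
        refine lintegral_mono fun t => lintegral_mono fun y => ?_
        by_cases hne : m (t, y) = 0
        · simp only
          rw [hne]; simp
        · obtain ⟨h1, h2⟩ := hsupp _ hne
          simp only at h1 h2
          have hmem : (t, y) ∈ HP := by
            show 0 < y
            linarith
          simp only
          rw [indicator_of_mem hmem, ← ENNReal.ofReal_mul (by positivity),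
            ← ENNReal.ofReal_mul (by positivity)]
          apply ENNReal.ofReal_le_ofReal
          have h3 := mul_nonneg (m0 (t, y)) (BFaux.qk_nonneg z hz0 (t, y))
          calc 40 * θ * h * (m (t, y) * qk z (t, y)) ≤ 40 * θ * (2 * y) * (m (t, y) * qk z (t, y)) := by
                apply mul_le_mul_of_nonneg_right _ h3
                apply mul_le_mul_of_nonneg_left (by linarith) (by positivity)
            _ = _ := by ring
    _ = ENNReal.ofReal (80 * θ) * ∫⁻ p in HP, ENNReal.ofReal (m p * (p.2 * qk z p)) := by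
        have hHP : MeasurableSet HP := measurableSet_lt measurable_const measurable_snd
        have hmm : Measurable fun p : ℝ × ℝ => ENNReal.ofReal (m p * (p.2 * qk z p)) :=
          (hm.measurable.mul (measurable_snd.mul (BFaux.qk_meas z))).ennreal_ofReal
        rw [← lintegral_indicator hHP, Measure.volume_eq_prod, lintegral_prod]
        · rw [← lintegral_const_mul']
          · refine lintegral_congr fun t => ?_
            rw [lintegral_const_mul' _ _ ENNReal.ofReal_ne_top]
          · exact ENNReal.ofReal_ne_top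
        · exact (hmm.indicator hHP).aemeasurable

end Pool.H14.SR
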