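import Pool.Agent.H14.SR.Basic

open MeasureTheory Set Filter Topology
noncomputable section
namespace Pool.H14.SR


/-- The mollified Green kernel at `z = (x,y)` with pole `(s,t)`:
`(1/2) log ((|z-ζ|² + 4 y t)/(|z-ζ|²+r²))`, `|z-ζ|² = (x-s)²+(y-t)²`. -/
def gk (r : ℝ) (ζ z : ℝ × ℝ) : ℝ :=
  (1 / 2) * Real.log ((((z.1 - ζ.1) ^ 2 + (z.2 - ζ.2) ^ 2) + 4 * z.2 * ζ.2)
    / (((z.1 - ζ.1) ^ 2 + (z.2 - ζ.2) ^ 2) + r ^ 2))

namespace HallKAux

theorem comb {n : ℕ} (j : Fin n → ℤ) (hj : Function.Injective j) (J : ℤ) (b : ℕ → ℝ)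
    (hb : ∀ k, 0 ≤ b k) (C : ℝ) (hC : ∀ N, ∑ k ∈ Finset.range N, b k ≤ C) :
    ∑ i, b (j i - J).natAbs ≤ 2 * C := by
  classical
  obtain ⟨N, hN⟩ : ∃ N : ℕ, ∀ i, (j i - J).natAbs < N := by
    refine ⟨(∑ i, (j i - J).natAbs) + 1, fun i => ?_⟩
    exact Nat.lt_succ_of_le (Finset.single_le_sum (f := fun i => (j i - J).natAbs)
      (fun _ _ => Nat.zero_le _) (Finset.mem_univ i))
  rw [← Finset.sum_fiberwise_of_maps_to (s := Finset.univ) (t := Finset.range N)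
    (g := fun i => (j i - J).natAbs) (fun i _ => Finset.mem_range.2 (hN i))]
  have hcard : ∀ k ∈ Finset.range N,
      ∑ i ∈ Finset.univ.filter (fun i => (j i - J).natAbs = k), b (j i - J).natAbs ≤ 2 * b k := by
    intro k _
    have h1 : ∑ i ∈ Finset.univ.filter (fun i => (j i - J).natAbs = k), b (j i - J).natAbs
        = ∑ i ∈ Finset.univ.filter (fun i => (j i - J).natAbs = k), b k := by
      apply Finset.sum_congr rfl
      intro i hi
      rw [(Finset.mem_filter.1 hi).2]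
    rw [h1, Finset.sum_const, nsmul_eq_mul]
    apply mul_le_mul_of_nonneg_right _ (hb k)
    have h2 : (Finset.univ.filter (fun i => (j i - J).natAbs = k)).card ≤ 2 := by
      calc (Finset.univ.filter (fun i => (j i - J).natAbs = k)).card
          ≤ ({J + k, J - k} : Finset ℤ).card := by
            apply Finset.card_le_card_of_injOn j
            · intro i hi
              have hi' : (j i - J).natAbs = k := by simpa using hi
              simp only [Finset.coe_insert, Finset.coe_singleton, Set.mem_insert_iff,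
                Set.mem_singleton_iff]
              omega
            · exact hj.injOn
        _ ≤ 2 := Finset.card_le_two
    exact_mod_cast h2
  calc _ ≤ ∑ k ∈ Finset.range N, 2 * b k := Finset.sum_le_sum hcard
    _ = 2 * ∑ k ∈ Finset.range N, b k := by rw [Finset.mul_sum]
    _ ≤ 2 * C := by linarith [hC N]

theorem dist_cell {r x x0 : ℝ} (hr : 0 < r) :
    (((⌊x / r⌋ - ⌊x0 / r⌋).natAbs : ℝ) - 1) * r ≤ |x0 - x| := by
  have a1 : (⌊x / r⌋ : ℝ) * r ≤ x := by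
    have := Int.floor_le (x / r)
    calc (⌊x / r⌋ : ℝ) * r ≤ x / r * r := by gcongr
      _ = x := by field_simp
  have a2 : x < ((⌊x / r⌋ : ℝ) + 1) * r := by
    have := Int.lt_floor_add_one (x / r)
    calc x = x / r * r := by field_simp
      _ < _ := by gcongr
  have b1 : (⌊x0 / r⌋ : ℝ) * r ≤ x0 := by
    have := Int.floor_le (x0 / r)
    calc (⌊x0 / r⌋ : ℝ) * r ≤ x0 / r * r := by gcongr
      _ = x0 := by field_simp
  have b2 : x0 < ((⌊x0 / r⌋ : ℝ) + 1) * r := by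
    have := Int.lt_floor_add_one (x0 / r)
    calc x0 = x0 / r * r := by field_simp
      _ < _ := by gcongr
  have hk : ((⌊x / r⌋ - ⌊x0 / r⌋).natAbs : ℝ) = |(⌊x / r⌋ : ℝ) - (⌊x0 / r⌋ : ℝ)| := by
    rw [← Int.cast_sub, ← Int.cast_abs, Int.abs_eq_natAbs]
    simp
  rw [hk]
  rcases le_total 0 ((⌊x / r⌋ : ℝ) - (⌊x0 / r⌋ : ℝ)) with h | h
  · rw [abs_of_nonneg h]
    have := neg_le_abs (x0 - x)
    nlinarith
  · rw [abs_of_nonpos h]
    have := le_abs_self (x0 - x)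
    nlinarith

theorem log_sq_le {v : ℝ} (hv : 0 ≤ v) : Real.log (1 + v ^ 2) ≤ v := by
  rw [Real.log_le_iff_le_exp (by positivity)]
  have h := Real.sum_le_exp_of_nonneg hv 4
  simp only [Finset.sum_range_succ, Finset.sum_range_zero, Nat.factorial, pow_zero, pow_one] at h
  norm_num at h
  nlinarith [mul_nonneg hv (sq_nonneg (v - 3 / 2)), mul_nonneg hv (sq_nonneg v)]

/-- The primitive of `log (1 + c²/D²)`. -/
def G (c D : ℝ) : ℝ := D * Real.log (1 + c ^ 2 / D ^ 2) + 2 * c * Real.arctan (D / c)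

theorem G_deriv {c D : ℝ} (hc : 0 < c) (hD : 0 < D) :
    HasDerivAt (G c) (Real.log (1 + c ^ 2 / D ^ 2)) D := by
  unfold G
  have h1 : HasDerivAt (fun D : ℝ => 1 + c ^ 2 / D ^ 2) (-(2 * c ^ 2) / D ^ 3) D := by
    have a := ((hasDerivAt_const D (c ^ 2)).div (hasDerivAt_pow 2 D) (pow_pos hD 2).ne').const_add 1
    refine a.congr_deriv ?_
    field_simp
    simp
    ring
  have h2 := h1.log (by positivity)
  have h3 := (hasDerivAt_id D).mul h2
  have h4 : HasDerivAt (fun D : ℝ => D / c) (1 / c) D := (hasDerivAt_id D).div_const c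
  have h5 := (h4.arctan).const_mul (2 * c)
  have h6 := h3.add h5
  refine h6.congr_deriv ?_
  simp only [id]
  field_simp
  ring

theorem G_step {c a b : ℝ} (hc : 0 < c) (ha : 0 < a) (hab : a < b) :
    (b - a) * Real.log (1 + c ^ 2 / b ^ 2) ≤ G c b - G c a := by
  obtain ⟨ξ, hξ, h⟩ := exists_hasDerivAt_eq_slope (G c) (fun D => Real.log (1 + c ^ 2 / D ^ 2)) hab
    (fun x hx => (G_deriv hc (lt_of_lt_of_le ha hx.1)).continuousAt.continuousWithinAt)
    (fun x hx => G_deriv hc (ha.trans hx.1))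
  have hξ0 : 0 < ξ := ha.trans hξ.1
  have hb0 : 0 < b := ha.trans hab
  have h' : G c b - G c a = (b - a) * Real.log (1 + c ^ 2 / ξ ^ 2) := by
    rw [h, mul_div_cancel₀]
    exact (sub_pos.2 hab).ne'
  rw [h']
  apply mul_le_mul_of_nonneg_left _ (by linarith)
  apply Real.log_le_log (by positivity)
  have : c ^ 2 / b ^ 2 ≤ c ^ 2 / ξ ^ 2 := by
    apply div_le_div_of_nonneg_left (by positivity) (by positivity)
    exact pow_le_pow_left₀ hξ0.le hξ.2.le 2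
  linarith

theorem G_nonneg {c D : ℝ} (hc : 0 < c) (hD : 0 < D) : 0 ≤ G c D := by
  unfold G
  have h1 : 0 ≤ Real.log (1 + c ^ 2 / D ^ 2) := Real.log_nonneg (by
    have : 0 < c ^ 2 / D ^ 2 := by positivity
    linarith)
  have h2 : 0 ≤ Real.arctan (D / c) := Real.arctan_nonneg.2 (by positivity)
  positivity

theorem G_le {c D : ℝ} (hc : 0 < c) (hD : 0 < D) : G c D ≤ (1 + Real.pi) * c := by
  unfold G
  have h1 : Real.log (1 + c ^ 2 / D ^ 2) ≤ c / D := by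
    rw [← div_pow]; exact log_sq_le (by positivity)
  have h2 := (Real.arctan_lt_pi_div_two (D / c)).le
  have h3 : D * Real.log (1 + c ^ 2 / D ^ 2) ≤ c := by
    calc D * Real.log (1 + c ^ 2 / D ^ 2) ≤ D * (c / D) := by gcongr
      _ = c := by field_simp
  nlinarith

/-- far part -/
def b1 (r y : ℝ) (k : ℕ) : ℝ :=
  if k ≤ 1 then 2 / 5 else r * (2 * y / ((((k : ℝ) - 1) * r) ^ 2 + y ^ 2 / 4))

theorem b1_nonneg {r y : ℝ} (hr : 0 < r) (hy : 0 < y) (k : ℕ) : 0 ≤ b1 r y k := by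
  unfold b1
  split_ifs
  · norm_num
  · positivity

theorem b1_sum {r y : ℝ} (hr : 0 < r) (hy : 20 * r ≤ y) (N : ℕ) :
    ∑ k ∈ Finset.range N, b1 r y k ≤ 44 / 5 := by
  have hy0 : 0 < y := by linarith
  have key : ∀ n : ℕ, ∑ k ∈ Finset.range (n + 2), b1 r y k
      ≤ 44 / 5 - 4 * y / ((n : ℝ) * r + y / 2) := by
    intro n
    induction n with
    | zero =>
      simp only [Nat.cast_zero, zero_mul, zero_add]
      rw [Finset.sum_range_succ, Finset.sum_range_succ, Finset.sum_range_zero]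
      have e : 4 * y / (y / 2) = 8 := by field_simp; norm_num
      rw [e]
      unfold b1
      norm_num
    | succ n ih =>
      rw [Finset.sum_range_succ]
      have e : b1 r y (n + 2) ≤ 4 * y / ((n : ℝ) * r + y / 2) - 4 * y / (((n : ℝ) + 1) * r + y / 2) := by
        unfold b1
        rw [if_neg (by omega)]
        push_cast
        have e1 : ((n : ℝ) + 2 - 1) = (n : ℝ) + 1 := by ring
        rw [e1]
        set t : ℝ := (n : ℝ) * r + y / 2 with ht
        have ht0 : 0 < t := by positivity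
        have ht1 : ((n : ℝ) + 1) * r + y / 2 = t + r := by rw [ht]; ring
        have hq : (((n : ℝ) + 1) * r) ^ 2 + y ^ 2 / 4 ≥ (t + r) ^ 2 / 2 := by
          rw [← ht1]
          nlinarith [sq_nonneg (((n : ℝ) + 1) * r - y / 2)]
        rw [ht1]
        have hq0 : 0 < (t + r) ^ 2 / 2 := by positivity
        calc r * (2 * y / ((((n : ℝ) + 1) * r) ^ 2 + y ^ 2 / 4))
            ≤ r * (2 * y / ((t + r) ^ 2 / 2)) := by gcongr
          _ = 4 * y * (r / ((t + r) * (t + r))) := by field_simp; ring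
          _ ≤ 4 * y * (r / (t * (t + r))) := by gcongr; linarith
          _ = 4 * y / t - 4 * y / (t + r) := by field_simp; ring
      push_cast
      linarith
  rcases lt_or_ge N 2 with h | h
  · calc ∑ k ∈ Finset.range N, b1 r y k ≤ ∑ k ∈ Finset.range 2, b1 r y k :=
        Finset.sum_le_sum_of_subset_of_nonneg (Finset.range_mono h.le)
          (fun k _ _ => b1_nonneg hr hy0 k)
      _ ≤ _ := by
        have := key 0
        have h2 : 0 ≤ 4 * y / (((0 : ℕ) : ℝ) * r + y / 2) := by positivity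
        simp only [zero_add] at this
        linarith
  · obtain ⟨n, rfl⟩ := Nat.exists_eq_add_of_le' h
    have := key n
    have h2 : 0 ≤ 4 * y / ((n : ℝ) * r + y / 2) := by positivity
    linarith

/-- near part -/
def b2 (r y : ℝ) (k : ℕ) : ℝ :=
  if k ≤ 2 then Real.sqrt 2 else r / y * Real.log (1 + 2 * y ^ 2 / (((k : ℝ) - 1) * r) ^ 2)

theorem b2_nonneg {r y : ℝ} (hr : 0 < r) (hy : 0 < y) (k : ℕ) : 0 ≤ b2 r y k := by
  unfold b2
  split_ifs
  · positivity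
  · apply mul_nonneg (by positivity)
    apply Real.log_nonneg
    have : 0 ≤ 2 * y ^ 2 / (((k : ℝ) - 1) * r) ^ 2 := by positivity
    linarith

theorem b2_sum {r y : ℝ} (hr : 0 < r) (hy : 0 < y) (N : ℕ) :
    ∑ k ∈ Finset.range N, b2 r y k ≤ (4 + Real.pi) * Real.sqrt 2 := by
  set c : ℝ := Real.sqrt 2 * y with hc
  have h2 : (0 : ℝ) < Real.sqrt 2 := by positivity
  have hc0 : 0 < c := by positivity
  have hcc : c ^ 2 = 2 * y ^ 2 := by
    rw [hc, mul_pow, Real.sq_sqrt (by norm_num)]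
  have key : ∀ n : ℕ, ∑ k ∈ Finset.range (n + 3), b2 r y k
      ≤ 3 * Real.sqrt 2 + 1 / y * (G c (((n : ℝ) + 1) * r) - G c r) := by
    intro n
    induction n with
    | zero =>
      simp only [Nat.cast_zero, zero_add, one_mul, sub_self, mul_zero, add_zero]
      rw [Finset.sum_range_succ, Finset.sum_range_succ, Finset.sum_range_succ,
        Finset.sum_range_zero]
      unfold b2
      norm_num
      linarith
    | succ n ih =>
      rw [Finset.sum_range_succ]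
      have e : b2 r y (n + 3) ≤ 1 / y * (G c (((n : ℝ) + 1 + 1) * r) - G c (((n : ℝ) + 1) * r)) := by
        unfold b2
        rw [if_neg (by omega)]
        push_cast
        have e1 : ((n : ℝ) + 3 - 1) = (n : ℝ) + 1 + 1 := by ring
        rw [e1]
        have := G_step (c := c) (a := ((n : ℝ) + 1) * r) (b := ((n : ℝ) + 1 + 1) * r) hc0
          (by positivity) (by nlinarith)
        rw [hcc] at this
        have e2 : ((n : ℝ) + 1 + 1) * r - ((n : ℝ) + 1) * r = r := by ring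
        rw [e2] at this
        calc r / y * Real.log (1 + 2 * y ^ 2 / (((n : ℝ) + 1 + 1) * r) ^ 2)
            = 1 / y * (r * Real.log (1 + 2 * y ^ 2 / (((n : ℝ) + 1 + 1) * r) ^ 2)) := by ring
          _ ≤ _ := by gcongr
      push_cast
      have e3 : 1 / y * (G c (((n : ℝ) + 1 + 1) * r) - G c r)
          = 1 / y * (G c (((n : ℝ) + 1 + 1) * r) - G c (((n : ℝ) + 1) * r))
            + 1 / y * (G c (((n : ℝ) + 1) * r) - G c r) := by ring
      rw [e3]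
      linarith
  have fin : ∀ n : ℕ, ∑ k ∈ Finset.range (n + 3), b2 r y k ≤ (4 + Real.pi) * Real.sqrt 2 := by
    intro n
    refine (key n).trans ?_
    have g1 := G_le (c := c) (D := ((n : ℝ) + 1) * r) hc0 (by positivity)
    have g2 := G_nonneg (c := c) (D := r) hc0 hr
    have : 1 / y * (G c (((n : ℝ) + 1) * r) - G c r) ≤ 1 / y * ((1 + Real.pi) * c) := by
      gcongr
      linarith
    have e : 1 / y * ((1 + Real.pi) * c) = (1 + Real.pi) * Real.sqrt 2 := by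
      rw [hc]; field_simp
    rw [e] at this
    linarith
  calc ∑ k ∈ Finset.range N, b2 r y k ≤ ∑ k ∈ Finset.range (N + 3), b2 r y k :=
        Finset.sum_le_sum_of_subset_of_nonneg (Finset.range_mono (by omega))
          (fun k _ _ => b2_nonneg hr hy k)
    _ ≤ _ := fin N

/-- the two bounds of a single term -/
theorem term_le {r : ℝ} (hr : 0 < r) {ζ z : ℝ × ℝ} (hζ : 0 < ζ.2) (hz : 0 < z.2) :
    r / ζ.2 * gk r ζ z ≤ r / (2 * ζ.2) * Real.log (1 + 4 * z.2 * ζ.2 /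
      (((z.1 - ζ.1) ^ 2 + (z.2 - ζ.2) ^ 2) + r ^ 2)) := by
  unfold gk
  have hA : 0 < ((z.1 - ζ.1) ^ 2 + (z.2 - ζ.2) ^ 2) + r ^ 2 := by positivity
  have e : r / ζ.2 * (1 / 2 * Real.log ((((z.1 - ζ.1) ^ 2 + (z.2 - ζ.2) ^ 2) + 4 * z.2 * ζ.2)
    / (((z.1 - ζ.1) ^ 2 + (z.2 - ζ.2) ^ 2) + r ^ 2))) = r / (2 * ζ.2) *
      Real.log ((((z.1 - ζ.1) ^ 2 + (z.2 - ζ.2) ^ 2) + 4 * z.2 * ζ.2)
    / (((z.1 - ζ.1) ^ 2 + (z.2 - ζ.2) ^ 2) + r ^ 2)) := by
    field_simp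
  rw [e]
  apply mul_le_mul_of_nonneg_left _ (by positivity)
  apply Real.log_le_log (by positivity)
  rw [div_le_iff₀ hA, add_mul, div_mul_cancel₀ _ hA.ne']
  nlinarith [sq_nonneg r]

theorem term1 {r : ℝ} (hr : 0 < r) {ζ z : ℝ × ℝ} (hζ : 0 < ζ.2) (hz : 0 < z.2)
    (h : ζ.2 ≤ z.2 / 2) :
    r / ζ.2 * gk r ζ z ≤ r * (2 * z.2 / ((z.1 - ζ.1) ^ 2 + z.2 ^ 2 / 4)) := by
  refine (term_le hr hζ hz).trans ?_
  have hA : 0 < ((z.1 - ζ.1) ^ 2 + (z.2 - ζ.2) ^ 2) + r ^ 2 := by positivity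
  have hB : 0 < (z.1 - ζ.1) ^ 2 + z.2 ^ 2 / 4 := by positivity
  have h1 : Real.log (1 + 4 * z.2 * ζ.2 / (((z.1 - ζ.1) ^ 2 + (z.2 - ζ.2) ^ 2) + r ^ 2))
      ≤ 4 * z.2 * ζ.2 / (((z.1 - ζ.1) ^ 2 + (z.2 - ζ.2) ^ 2) + r ^ 2) := by
    have hp : 0 < 4 * z.2 * ζ.2 / (((z.1 - ζ.1) ^ 2 + (z.2 - ζ.2) ^ 2) + r ^ 2) := by positivity
    have := Real.log_le_sub_one_of_pos (by linarith : 0 < 1 + 4 * z.2 * ζ.2 /
      (((z.1 - ζ.1) ^ 2 + (z.2 - ζ.2) ^ 2) + r ^ 2))
    linarith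
  have h2 : 4 * z.2 * ζ.2 / (((z.1 - ζ.1) ^ 2 + (z.2 - ζ.2) ^ 2) + r ^ 2)
      ≤ 4 * z.2 * ζ.2 / ((z.1 - ζ.1) ^ 2 + z.2 ^ 2 / 4) := by
    apply div_le_div_of_nonneg_left (by positivity) hB
    nlinarith [sq_nonneg r]
  calc _ ≤ r / (2 * ζ.2) * (4 * z.2 * ζ.2 / ((z.1 - ζ.1) ^ 2 + z.2 ^ 2 / 4)) := by
        apply mul_le_mul_of_nonneg_left (h1.trans h2) (by positivity)
    _ = _ := by field_simp; ring

theorem term2 {r : ℝ} (hr : 0 < r) {ζ z : ℝ × ℝ} (hζ : 0 < ζ.2) (hz : 0 < z.2)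
    (h : z.2 / 2 ≤ ζ.2) :
    r / ζ.2 * gk r ζ z ≤ r / z.2 * Real.log (1 + 2 * z.2 ^ 2 / ((z.1 - ζ.1) ^ 2 + r ^ 2)) := by
  refine (term_le hr hζ hz).trans ?_
  have hA : 0 < ((z.1 - ζ.1) ^ 2 + (z.2 - ζ.2) ^ 2) + r ^ 2 := by positivity
  have hB : 0 < (z.1 - ζ.1) ^ 2 + r ^ 2 := by positivity
  set s : ℝ := 2 * z.2 ^ 2 / ((z.1 - ζ.1) ^ 2 + r ^ 2) with hs
  have hs0 : 0 < s := by positivity
  set lam : ℝ := 2 * ζ.2 / z.2 with hl
  have hl1 : 1 ≤ lam := by rw [hl, le_div_iff₀ hz]; linarith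
  have h1 : 1 + 4 * z.2 * ζ.2 / (((z.1 - ζ.1) ^ 2 + (z.2 - ζ.2) ^ 2) + r ^ 2) ≤ 1 + lam * s := by
    have e : lam * s = 4 * z.2 * ζ.2 / ((z.1 - ζ.1) ^ 2 + r ^ 2) := by
      rw [hl, hs]; field_simp; ring
    rw [e]
    have : 4 * z.2 * ζ.2 / (((z.1 - ζ.1) ^ 2 + (z.2 - ζ.2) ^ 2) + r ^ 2)
      ≤ 4 * z.2 * ζ.2 / ((z.1 - ζ.1) ^ 2 + r ^ 2) := by
      apply div_le_div_of_nonneg_left (by positivity) hB
      nlinarith [sq_nonneg (z.2 - ζ.2)]
    linarith
  have h2 : 1 + lam * s ≤ (1 + s) ^ lam :=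
    one_add_mul_self_le_rpow_one_add (by linarith) hl1
  have h3 : Real.log (1 + 4 * z.2 * ζ.2 / (((z.1 - ζ.1) ^ 2 + (z.2 - ζ.2) ^ 2) + r ^ 2))
      ≤ lam * Real.log (1 + s) := by
    rw [← Real.log_rpow (by linarith)]
    apply Real.log_le_log (by positivity) (h1.trans h2)
  calc _ ≤ r / (2 * ζ.2) * (lam * Real.log (1 + s)) := by
        apply mul_le_mul_of_nonneg_left h3 (by positivity)
    _ = _ := by rw [hl]; field_simp

theorem b1_bound {r y D : ℝ} (hr : 0 < r) (hy : 20 * r ≤ y) (k : ℕ) (h : ((k : ℝ) - 1) * r ≤ |D|) :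
    r * (2 * y / (D ^ 2 + y ^ 2 / 4)) ≤ b1 r y k := by
  have hy0 : 0 < y := by linarith
  unfold b1
  split_ifs with hk
  · calc r * (2 * y / (D ^ 2 + y ^ 2 / 4)) ≤ r * (2 * y / (y ^ 2 / 4)) := by
          gcongr; nlinarith [sq_nonneg D]
      _ = 8 * r / y := by field_simp; ring
      _ ≤ 2 / 5 := by rw [div_le_iff₀ hy0]; linarith
  · have hk1 : (1 : ℝ) ≤ (k : ℝ) - 1 := by
      have : (2 : ℝ) ≤ (k : ℝ) := by exact_mod_cast (by omega : 2 ≤ k)
      linarith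
    have : (((k : ℝ) - 1) * r) ^ 2 ≤ D ^ 2 := by
      rw [← sq_abs D]
      exact pow_le_pow_left₀ (by positivity) h 2
    have hp : 0 < (((k : ℝ) - 1) * r) ^ 2 + y ^ 2 / 4 := by positivity
    gcongr

theorem b2_bound {r y D : ℝ} (hr : 0 < r) (hy : 0 < y) (k : ℕ) (h : ((k : ℝ) - 1) * r ≤ |D|) :
    r / y * Real.log (1 + 2 * y ^ 2 / (D ^ 2 + r ^ 2)) ≤ b2 r y k := by
  unfold b2
  split_ifs with hk
  · have h1 : Real.log (1 + 2 * y ^ 2 / (D ^ 2 + r ^ 2)) ≤ Real.sqrt 2 * y / r := by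
      calc Real.log (1 + 2 * y ^ 2 / (D ^ 2 + r ^ 2)) ≤ Real.log (1 + (Real.sqrt 2 * y / r) ^ 2) := by
            apply Real.log_le_log (by positivity)
            rw [div_pow, mul_pow, Real.sq_sqrt (by norm_num)]
            have : 2 * y ^ 2 / (D ^ 2 + r ^ 2) ≤ 2 * y ^ 2 / r ^ 2 := by
              apply div_le_div_of_nonneg_left (by positivity) (by positivity)
              nlinarith [sq_nonneg D]
            linarith
        _ ≤ _ := log_sq_le (by positivity)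
    calc r / y * Real.log (1 + 2 * y ^ 2 / (D ^ 2 + r ^ 2)) ≤ r / y * (Real.sqrt 2 * y / r) := by
          gcongr
      _ = Real.sqrt 2 := by field_simp
  · have hk1 : (1 : ℝ) ≤ (k : ℝ) - 1 := by
      have : (2 : ℝ) ≤ (k : ℝ) := by exact_mod_cast (by omega : 2 ≤ k)
      linarith
    have : (((k : ℝ) - 1) * r) ^ 2 ≤ D ^ 2 := by
      rw [← sq_abs D]
      exact pow_le_pow_left₀ (by positivity) h 2
    have hp : 0 < (((k : ℝ) - 1) * r) ^ 2 := by positivity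
    apply mul_le_mul_of_nonneg_left _ (by positivity)
    apply Real.log_le_log (by positivity)
    have : 2 * y ^ 2 / (D ^ 2 + r ^ 2) ≤ 2 * y ^ 2 / (((k : ℝ) - 1) * r) ^ 2 := by
      apply div_le_div_of_nonneg_left (by positivity) hp
      nlinarith [sq_nonneg r]
    linarith

end HallKAux

open HallKAux in
/-- **(HallK)** Points `ζ_i = (x_i, y_i)`, `y_i ≥ m > 0`, the `x_i` in different cells `[jr,(j+1)r)`, `0 < r ≤ m/10`.
Then `Σ (r/y_i) gk r ζ_i z ≤ 40` for all `z` with `z_y ≥ 0`.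

Proof: with `A = |z-ζ|²`, `(A+4yη)/(A+r²) ≤ 1 + 4yη/(A+r²)`, so the `i`-th term is at most `r F(D_i)`,
`D_i = |z_x - x_i|`, where (`η = y_i`, `y = z_y`; if `y = 0` the terms are `≤ 0`)
`F(D) = sup_{η ≥ m} (1/2η) log(1 + 4yη/(D²+(y-η)²+r²))`.  Cases:
`η ≤ y/2` (then `y ≥ 2m`): `≤ 2y/(D²+y²/4)`;  `η ≥ 2y`: `(y-η)² ≥ η²/4`, `≤ 2y/(D²+η²/4) ≤ 2y/(D² + max(y,m/2)²)`;
`y/2 ≤ η ≤ 2y` (then `y ≥ m/2`): `≤ (1/y) log(1+8y²/(D²+r²))`.
So `F(D) ≤ F₁(D) := 2y/(D²+ max(y,m)²/4) + 1_{y ≥ m/2} (1/y) log(1+8y²/(D²+r²))`, decreasing in `D`.  At most one `x_i` in each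
cell: `Σ r F₁(D_i) ≤ 3 r F₁(0) + 2∫_0^∞ F₁`.  `2∫_0^∞ 2y/(D²+y²/4)dD = 4π`, `2∫_0^∞ (1/y)log(1+8y²/D²)dD = 2π√8`
(`∫_0^∞ log(1+c²/D²)dD = πc`), total `≤ 30.4`; and `3rF₁(0) ≤ 3r·8/m + 3 (r/y) log(1+8y²/r²) ≤ 2.4 + 7`
(`log(1+8u²)/u ≤ 2.33` for `u>0`).  Any bound better than `40` by cruder estimates is fine. -/
theorem HallK (n : ℕ) (ζ : Fin n → ℝ × ℝ) (m r : ℝ) (hm : 0 < m) (hr : 0 < r) (hrm : r ≤ m / 10)
    (hy : ∀ i, m ≤ (ζ i).2) (hcell : ∀ i j, i ≠ j → ⌊(ζ i).1 / r⌋ ≠ ⌊(ζ j).1 / r⌋)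
    (z : ℝ × ℝ) (hz : 0 ≤ z.2) :
    ∑ i, r / (ζ i).2 * gk r (ζ i) z ≤ 40 := by
  rcases hz.eq_or_lt with h0 | hz0
  · -- y = 0
    have : ∀ i ∈ Finset.univ, r / (ζ i).2 * gk r (ζ i) z ≤ 0 := by
      intro i _
      have hi : 0 < (ζ i).2 := lt_of_lt_of_le hm (hy i)
      apply mul_nonpos_of_nonneg_of_nonpos (by positivity)
      unfold gk
      apply mul_nonpos_of_nonneg_of_nonpos (by norm_num)
      rw [← h0]
      apply Real.log_nonpos
      · positivity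
      · rw [div_le_one (by positivity)]
        nlinarith [sq_nonneg r]
    linarith [Finset.sum_nonpos this]
  · have hinj : Function.Injective (fun i => ⌊(ζ i).1 / r⌋) := by
      intro i j h
      by_contra hne
      exact hcell i j hne h
    have s2 := comb (fun i => ⌊(ζ i).1 / r⌋) hinj ⌊z.1 / r⌋ (b2 r z.2) (b2_nonneg hr hz0) _
      (b2_sum hr hz0)
    have hpi : Real.pi < 3.15 := Real.pi_lt_d2
    have hsq : Real.sqrt 2 < 1.415 := by
      rw [Real.sqrt_lt' (by norm_num)]; norm_num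
    have hsq0 : 0 < Real.sqrt 2 := by positivity
    have hpi0 := Real.pi_pos
    have hnum : (4 + Real.pi) * Real.sqrt 2 ≤ 10.2 := by nlinarith
    by_cases hym : 2 * m ≤ z.2
    · have h20 : 20 * r ≤ z.2 := by linarith
      have s1 := comb (fun i => ⌊(ζ i).1 / r⌋) hinj ⌊z.1 / r⌋ (b1 r z.2) (b1_nonneg hr hz0) _
        (b1_sum hr h20)
      have : ∑ i, r / (ζ i).2 * gk r (ζ i) z ≤
          ∑ i, (b1 r z.2 (⌊(ζ i).1 / r⌋ - ⌊z.1 / r⌋).natAbs
            + b2 r z.2 (⌊(ζ i).1 / r⌋ - ⌊z.1 / r⌋).natAbs) := by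
        apply Finset.sum_le_sum
        intro i _
        have hi : 0 < (ζ i).2 := lt_of_lt_of_le hm (hy i)
        have hd := dist_cell (x := (ζ i).1) (x0 := z.1) hr
        rcases le_total (ζ i).2 (z.2 / 2) with hc | hc
        · have := (term1 hr hi hz0 hc).trans (b1_bound hr h20 _ hd)
          linarith [b2_nonneg hr hz0 (⌊(ζ i).1 / r⌋ - ⌊z.1 / r⌋).natAbs]
        · have := (term2 hr hi hz0 hc).trans (b2_bound hr hz0 _ hd)
          linarith [b1_nonneg hr hz0 (⌊(ζ i).1 / r⌋ - ⌊z.1 / r⌋).natAbs]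
      rw [Finset.sum_add_distrib] at this
      linarith
    · have : ∑ i, r / (ζ i).2 * gk r (ζ i) z ≤
          ∑ i, b2 r z.2 (⌊(ζ i).1 / r⌋ - ⌊z.1 / r⌋).natAbs := by
        apply Finset.sum_le_sum
        intro i _
        have hi : 0 < (ζ i).2 := lt_of_lt_of_le hm (hy i)
        have hd := dist_cell (x := (ζ i).1) (x0 := z.1) hr
        have hc : z.2 / 2 ≤ (ζ i).2 := by
          have := hy i
          have := not_le.1 hym
          linarith
        exact (term2 hr hi hz0 hc).trans (b2_bound hr hz0 _ hd)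
      linarith

end Pool.H14.SR
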