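import Pool.Agent.H14.SR.Basic

open MeasureTheory Set Filter Topology
noncomputable section
namespace Pool.H14.SR

/-- second derivative test at a local minimum -/
theorem HallM_aux {f g : ℝ → ℝ} {x c : ℝ} (h1 : ∀ᶠ t in 𝓝 x, HasDerivAt f (g t) t)
    (h2 : HasDerivAt g c x) (hmin : ∀ᶠ t in 𝓝 x, f x ≤ f t) : 0 ≤ c := by
  by_contra hc
  push Not at hc
  have hg0 : g x = 0 := IsLocalMin.hasDerivAt_eq_zero hmin h1.self_of_nhds
  have hs := h2.tendsto_slope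
  have hs2 : ∀ᶠ t in 𝓝[≠] x, slope g x t < 0 := hs.eventually (Iio_mem_nhds hc)
  have hs3 : ∀ᶠ t in 𝓝 x, t ≠ x → slope g x t < 0 := by
    rwa [eventually_nhdsWithin_iff] at hs2
  obtain ⟨ε, hε, hball⟩ := Metric.eventually_nhds_iff_ball.1 ((h1.and hmin).and hs3)
  set t := x + ε / 2 with ht
  have hxt : x < t := by rw [ht]; linarith
  have hmem : ∀ s, x ≤ s → s ≤ t → s ∈ Metric.ball x ε := by
    intro s h1 h2
    rw [Metric.mem_ball, Real.dist_eq, abs_of_nonneg (by linarith)]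
    rw [ht] at h2; linarith
  obtain ⟨s, hs, hseq⟩ := exists_hasDerivAt_eq_slope f g hxt
    (fun s hs => (hball s (hmem s hs.1 hs.2)).1.1.continuousAt.continuousWithinAt)
    (fun s hs => (hball s (hmem s hs.1.le hs.2.le)).1.1)
  have h3 := (hball s (hmem s hs.1.le hs.2.le)).2 hs.1.ne'
  rw [slope_def_field, hg0, sub_zero] at h3
  have h4 : g s < 0 := by
    by_contra h5
    push Not at h5
    exact absurd h3 (not_lt.2 (div_nonneg h5 (by linarith [hs.1])))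
  have h6 := (hball t (hmem t hxt.le le_rfl)).1.2
  rw [hseq] at h4
  have h7 : 0 ≤ (f t - f x) / (t - x) := div_nonneg (by linarith) (by linarith)
  linarith

/-- **(HallM)** A minimum principle.  `W` continuous on `y ≥ 0`, `W ≥ 0` on `y = 0`, on the set `Bs` and for
`‖p‖ ≥ R`; `Wxx + Wyy < 0` at the other points of `y > 0`.  Then `W ≥ 0` on `y ≥ 0`.

Proof: otherwise `W` attains a negative minimum on the compact set `{0 ≤ y, ‖p‖ ≤ R}` (sup norm of `ℝ × ℝ`), at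
a point with `y > 0`, `‖p‖ < R`, not in `Bs`; it is a local minimum in `x` and in `y`, so `Wxx ≥ 0`, `Wyy ≥ 0`
(second derivative test; only the existence of the derivatives at that point and of the first derivatives near it
is used), a contradiction. -/
theorem HallM (W Wx Wxx Wy Wyy : ℝ × ℝ → ℝ)
    (dx : ∀ p : ℝ × ℝ, 0 < p.2 → HasDerivAt (fun x : ℝ => W (x, p.2)) (Wx p) p.1)
    (dxx : ∀ p : ℝ × ℝ, 0 < p.2 → HasDerivAt (fun x : ℝ => Wx (x, p.2)) (Wxx p) p.1)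
    (dy : ∀ p : ℝ × ℝ, 0 < p.2 → HasDerivAt (fun y : ℝ => W (p.1, y)) (Wy p) p.2)
    (dyy : ∀ p : ℝ × ℝ, 0 < p.2 → HasDerivAt (fun y : ℝ => Wy (p.1, y)) (Wyy p) p.2)
    (hc : ContinuousOn W {p | 0 ≤ p.2}) (Bs : Set (ℝ × ℝ)) (R : ℝ)
    (hbd : ∀ x : ℝ, 0 ≤ W (x, 0)) (hBs : ∀ p ∈ Bs, 0 ≤ p.2 → 0 ≤ W p)
    (hfar : ∀ p : ℝ × ℝ, 0 ≤ p.2 → R ≤ ‖p‖ → 0 ≤ W p)
    (hlap : ∀ p : ℝ × ℝ, 0 < p.2 → p ∉ Bs → ‖p‖ < R → Wxx p + Wyy p < 0) :
    ∀ p : ℝ × ℝ, 0 ≤ p.2 → 0 ≤ W p := by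
  by_contra hcon
  push Not at hcon
  obtain ⟨p0, hp0, hneg⟩ := hcon
  have hp0R : ‖p0‖ < R := by
    by_contra h
    exact absurd (hfar p0 hp0 (not_lt.1 h)) (not_le.2 hneg)
  set K : Set (ℝ × ℝ) := {p | 0 ≤ p.2} ∩ Metric.closedBall 0 R with hK
  have hKc : IsCompact K :=
    (isCompact_closedBall (0 : ℝ × ℝ) R).inter_left (isClosed_le continuous_const continuous_snd)
  have hp0K : p0 ∈ K := ⟨hp0, by rw [mem_closedBall_zero_iff]; exact hp0R.le⟩
  obtain ⟨p1, hp1K, hp1⟩ := hKc.exists_isMinOn ⟨p0, hp0K⟩ (hc.mono inter_subset_left)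
  have h1 : W p1 < 0 := lt_of_le_of_lt (hp1 hp0K) hneg
  have h2 : 0 ≤ p1.2 := hp1K.1
  have h3 : 0 < p1.2 := by
    rcases h2.lt_or_eq with h | h
    · exact h
    · exfalso
      have := hbd p1.1
      rw [show (p1.1, (0 : ℝ)) = p1 from Prod.ext rfl h] at this
      linarith
  have h4 : ‖p1‖ < R := by
    by_contra h
    exact absurd (hfar p1 h2 (not_lt.1 h)) (not_le.2 h1)
  have h5 : p1 ∉ Bs := fun h => absurd (hBs p1 h h2) (not_le.2 h1)
  have hlap1 := hlap p1 h3 h5 h4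
  -- neighbourhood
  have hU : {p : ℝ × ℝ | 0 < p.2} ∩ Metric.ball 0 R ∈ 𝓝 p1 := by
    refine inter_mem ((isOpen_lt continuous_const continuous_snd).mem_nhds h3)
      (Metric.isOpen_ball.mem_nhds (by rw [mem_ball_zero_iff]; exact h4))
  have hloc : ∀ᶠ p in 𝓝 p1, W p1 ≤ W p := by
    filter_upwards [hU] with p hp
    have hp1' : 0 < p.2 := hp.1
    have hp2' : ‖p‖ < R := by
      have := hp.2
      rwa [mem_ball_zero_iff] at this
    have hpK : p ∈ K := ⟨hp1'.le, by rw [mem_closedBall_zero_iff]; exact hp2'.le⟩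
    exact hp1 hpK
  have cx : Tendsto (fun x : ℝ => ((x, p1.2) : ℝ × ℝ)) (𝓝 p1.1) (𝓝 p1) := by
    have : Continuous (fun x : ℝ => ((x, p1.2) : ℝ × ℝ)) := by fun_prop
    exact this.tendsto p1.1
  have cy : Tendsto (fun y : ℝ => ((p1.1, y) : ℝ × ℝ)) (𝓝 p1.2) (𝓝 p1) := by
    have : Continuous (fun y : ℝ => ((p1.1, y) : ℝ × ℝ)) := by fun_prop
    exact this.tendsto p1.2
  have e1 : 0 ≤ Wxx p1 := by
    refine HallM_aux (f := fun x => W (x, p1.2)) (g := fun x => Wx (x, p1.2)) ?_ (dxx p1 h3) ?_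
    · exact Eventually.of_forall fun t => dx (t, p1.2) h3
    · exact cx.eventually hloc
  have e2 : 0 ≤ Wyy p1 := by
    refine HallM_aux (f := fun y => W (p1.1, y)) (g := fun y => Wy (p1.1, y)) ?_ (dyy p1 h3) ?_
    · filter_upwards [Ioi_mem_nhds h3] with t ht
      exact dy (p1.1, t) ht
    · exact cy.eventually hloc
  linarith

end Pool.H14.SR
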