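import Pool.Agent.H14.SR.Basic
import Pool.Agent.H14.SR.HallK
import Pool.Agent.H14.SR.HallM
open MeasureTheory Set Filter Topology
noncomputable section
namespace Pool.H14.SR


/-! ### derivatives of the kernel -/

/-- the squared distance to the reflected pole -/
def hall_N (ζ z : ℝ × ℝ) : ℝ := ((z.1 - ζ.1) ^ 2 + (z.2 - ζ.2) ^ 2) + 4 * z.2 * ζ.2

/-- the mollified squared distance to the pole -/
def hall_D (r : ℝ) (ζ z : ℝ × ℝ) : ℝ := ((z.1 - ζ.1) ^ 2 + (z.2 - ζ.2) ^ 2) + r ^ 2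

theorem hall_gk_eq (r : ℝ) (ζ z : ℝ × ℝ) : gk r ζ z = (1 / 2) * Real.log (hall_N ζ z / hall_D r ζ z) := rfl

theorem hall_N_eq (ζ z : ℝ × ℝ) : hall_N ζ z = (z.1 - ζ.1) ^ 2 + (z.2 + ζ.2) ^ 2 := by
  unfold hall_N; ring

theorem hall_N_pos (ζ z : ℝ × ℝ) (ht : 0 < ζ.2) (hz : 0 ≤ z.2) : 0 < hall_N ζ z := by
  rw [hall_N_eq]; positivity

theorem hall_D_pos (r : ℝ) (ζ z : ℝ × ℝ) (hr : 0 < r) : 0 < hall_D r ζ z := by
  unfold hall_D; positivity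

/-- derivative of half the logarithm of a quotient -/
theorem hall_log_quot (N D : ℝ → ℝ) (N' D' x : ℝ) (hN : HasDerivAt N N' x) (hD : HasDerivAt D D' x)
    (hN0 : 0 < N x) (hD0 : 0 < D x) :
    HasDerivAt (fun y => (1 / 2) * Real.log (N y / D y)) ((1 / 2) * (N' / N x - D' / D x)) x := by
  have h := ((hN.fun_div hD hD0.ne').log (div_pos hN0 hD0).ne').const_mul (1 / 2)
  refine h.congr_deriv ?_
  field_simp

theorem hall_sq (c x : ℝ) : HasDerivAt (fun y : ℝ => (y - c) ^ 2) (2 * (x - c)) x := by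
  have h := ((hasDerivAt_id x).sub_const c).fun_pow 2
  refine h.congr_deriv ?_
  simp

theorem hall_dx (r : ℝ) (ζ z : ℝ × ℝ) (hr : 0 < r) (ht : 0 < ζ.2) (hz : 0 ≤ z.2) :
    HasDerivAt (fun x : ℝ => gk r ζ (x, z.2))
      ((z.1 - ζ.1) / hall_N ζ z - (z.1 - ζ.1) / hall_D r ζ z) z.1 := by
  have h1 : HasDerivAt (fun x : ℝ => (x - ζ.1) ^ 2) (2 * (z.1 - ζ.1)) z.1 := hall_sq _ _
  have hN : HasDerivAt (fun x : ℝ => hall_N ζ (x, z.2)) (2 * (z.1 - ζ.1)) z.1 := by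
    have := (h1.add_const ((z.2 - ζ.2) ^ 2)).add_const (4 * z.2 * ζ.2)
    exact this
  have hD : HasDerivAt (fun x : ℝ => hall_D r ζ (x, z.2)) (2 * (z.1 - ζ.1)) z.1 := by
    have := (h1.add_const ((z.2 - ζ.2) ^ 2)).add_const (r ^ 2)
    exact this
  have h := hall_log_quot _ _ _ _ _ hN hD (hall_N_pos ζ z ht hz) (hall_D_pos r ζ z hr)
  refine h.congr_deriv ?_
  change (1 / 2) * (2 * (z.1 - ζ.1) / hall_N ζ z - 2 * (z.1 - ζ.1) / hall_D r ζ z) = _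
  ring

theorem hall_dy (r : ℝ) (ζ z : ℝ × ℝ) (hr : 0 < r) (ht : 0 < ζ.2) (hz : 0 ≤ z.2) :
    HasDerivAt (fun y : ℝ => gk r ζ (z.1, y))
      ((z.2 + ζ.2) / hall_N ζ z - (z.2 - ζ.2) / hall_D r ζ z) z.2 := by
  have h1 : HasDerivAt (fun y : ℝ => (y - ζ.2) ^ 2) (2 * (z.2 - ζ.2)) z.2 := hall_sq _ _
  have h2 : HasDerivAt (fun y : ℝ => 4 * y * ζ.2) (4 * ζ.2) z.2 := by
    have := ((hasDerivAt_id z.2).const_mul 4).mul_const ζ.2
    simpa using this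
  have hN : HasDerivAt (fun y : ℝ => hall_N ζ (z.1, y)) (2 * (z.2 - ζ.2) + 4 * ζ.2) z.2 :=
    (h1.const_add ((z.1 - ζ.1) ^ 2)).add h2
  have hD : HasDerivAt (fun y : ℝ => hall_D r ζ (z.1, y)) (2 * (z.2 - ζ.2)) z.2 :=
    (h1.const_add ((z.1 - ζ.1) ^ 2)).add_const (r ^ 2)
  have h := hall_log_quot _ _ _ _ _ hN hD (hall_N_pos ζ z ht hz) (hall_D_pos r ζ z hr)
  refine h.congr_deriv ?_
  change (1 / 2) * ((2 * (z.2 - ζ.2) + 4 * ζ.2) / hall_N ζ z - 2 * (z.2 - ζ.2) / hall_D r ζ z) = _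
  ring

theorem hall_dxx (r : ℝ) (ζ z : ℝ × ℝ) (hr : 0 < r) (ht : 0 < ζ.2) (hz : 0 ≤ z.2) :
    HasDerivAt (fun x : ℝ => (x - ζ.1) / hall_N ζ (x, z.2) - (x - ζ.1) / hall_D r ζ (x, z.2))
      ((1 / hall_N ζ z - 2 * (z.1 - ζ.1) ^ 2 / hall_N ζ z ^ 2)
        - (1 / hall_D r ζ z - 2 * (z.1 - ζ.1) ^ 2 / hall_D r ζ z ^ 2)) z.1 := by
  have h0 : HasDerivAt (fun x : ℝ => x - ζ.1) 1 z.1 := (hasDerivAt_id z.1).sub_const ζ.1
  have h1 : HasDerivAt (fun x : ℝ => (x - ζ.1) ^ 2) (2 * (z.1 - ζ.1)) z.1 := hall_sq _ _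
  have hN : HasDerivAt (fun x : ℝ => hall_N ζ (x, z.2)) (2 * (z.1 - ζ.1)) z.1 :=
    (h1.add_const ((z.2 - ζ.2) ^ 2)).add_const (4 * z.2 * ζ.2)
  have hD : HasDerivAt (fun x : ℝ => hall_D r ζ (x, z.2)) (2 * (z.1 - ζ.1)) z.1 :=
    (h1.add_const ((z.2 - ζ.2) ^ 2)).add_const (r ^ 2)
  have hNp := hall_N_pos ζ z ht hz
  have hDp := hall_D_pos r ζ z hr
  have h := (h0.div hN (show hall_N ζ (z.1, z.2) ≠ 0 from hNp.ne')).sub
    (h0.div hD (show hall_D r ζ (z.1, z.2) ≠ 0 from hDp.ne'))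
  refine h.congr_deriv ?_
  change (1 * hall_N ζ z - (z.1 - ζ.1) * (2 * (z.1 - ζ.1))) / hall_N ζ z ^ 2
    - (1 * hall_D r ζ z - (z.1 - ζ.1) * (2 * (z.1 - ζ.1))) / hall_D r ζ z ^ 2 = _
  field_simp

theorem hall_dyy (r : ℝ) (ζ z : ℝ × ℝ) (hr : 0 < r) (ht : 0 < ζ.2) (hz : 0 ≤ z.2) :
    HasDerivAt (fun y : ℝ => (y + ζ.2) / hall_N ζ (z.1, y) - (y - ζ.2) / hall_D r ζ (z.1, y))
      ((1 / hall_N ζ z - 2 * (z.2 + ζ.2) ^ 2 / hall_N ζ z ^ 2)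
        - (1 / hall_D r ζ z - 2 * (z.2 - ζ.2) ^ 2 / hall_D r ζ z ^ 2)) z.2 := by
  have h0 : HasDerivAt (fun y : ℝ => y - ζ.2) 1 z.2 := (hasDerivAt_id z.2).sub_const ζ.2
  have h0' : HasDerivAt (fun y : ℝ => y + ζ.2) 1 z.2 := (hasDerivAt_id z.2).add_const ζ.2
  have h1 : HasDerivAt (fun y : ℝ => (y - ζ.2) ^ 2) (2 * (z.2 - ζ.2)) z.2 := hall_sq _ _
  have h2 : HasDerivAt (fun y : ℝ => 4 * y * ζ.2) (4 * ζ.2) z.2 := by
    have := ((hasDerivAt_id z.2).const_mul 4).mul_const ζ.2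
    simpa using this
  have hN : HasDerivAt (fun y : ℝ => hall_N ζ (z.1, y)) (2 * (z.2 - ζ.2) + 4 * ζ.2) z.2 :=
    (h1.const_add ((z.1 - ζ.1) ^ 2)).add h2
  have hD : HasDerivAt (fun y : ℝ => hall_D r ζ (z.1, y)) (2 * (z.2 - ζ.2)) z.2 :=
    (h1.const_add ((z.1 - ζ.1) ^ 2)).add_const (r ^ 2)
  have hNp := hall_N_pos ζ z ht hz
  have hDp := hall_D_pos r ζ z hr
  have h := (h0'.div hN (show hall_N ζ (z.1, z.2) ≠ 0 from hNp.ne')).sub
    (h0.div hD (show hall_D r ζ (z.1, z.2) ≠ 0 from hDp.ne'))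
  refine h.congr_deriv ?_
  change (1 * hall_N ζ z - (z.2 + ζ.2) * (2 * (z.2 - ζ.2) + 4 * ζ.2)) / hall_N ζ z ^ 2
    - (1 * hall_D r ζ z - (z.2 - ζ.2) * (2 * (z.2 - ζ.2))) / hall_D r ζ z ^ 2 = _
  field_simp
  ring

theorem hall_lap (r : ℝ) (ζ z : ℝ × ℝ) (hr : 0 < r) (ht : 0 < ζ.2) (hz : 0 ≤ z.2) :
    ((1 / hall_N ζ z - 2 * (z.1 - ζ.1) ^ 2 / hall_N ζ z ^ 2)
        - (1 / hall_D r ζ z - 2 * (z.1 - ζ.1) ^ 2 / hall_D r ζ z ^ 2))
      + ((1 / hall_N ζ z - 2 * (z.2 + ζ.2) ^ 2 / hall_N ζ z ^ 2)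
        - (1 / hall_D r ζ z - 2 * (z.2 - ζ.2) ^ 2 / hall_D r ζ z ^ 2))
      = - (2 * r ^ 2 / hall_D r ζ z ^ 2) := by
  have hNp := hall_N_pos ζ z ht hz
  have hDp := hall_D_pos r ζ z hr
  have e1 : (z.1 - ζ.1) ^ 2 = hall_N ζ z - (z.2 + ζ.2) ^ 2 := by rw [hall_N_eq]; ring
  have e2 : (z.1 - ζ.1) ^ 2 = hall_D r ζ z - (z.2 - ζ.2) ^ 2 - r ^ 2 := by unfold hall_D; ring
  have e3 : 1 / hall_N ζ z - 2 * (z.1 - ζ.1) ^ 2 / hall_N ζ z ^ 2
      + (1 / hall_N ζ z - 2 * (z.2 + ζ.2) ^ 2 / hall_N ζ z ^ 2) = 0 := by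
    rw [e1]; field_simp; ring
  have e4 : (1 / hall_D r ζ z - 2 * (z.1 - ζ.1) ^ 2 / hall_D r ζ z ^ 2)
      + (1 / hall_D r ζ z - 2 * (z.2 - ζ.2) ^ 2 / hall_D r ζ z ^ 2) = 2 * r ^ 2 / hall_D r ζ z ^ 2 := by
    rw [e2]; field_simp; ring
  linarith

theorem hall_cont (r : ℝ) (ζ : ℝ × ℝ) (hr : 0 < r) (ht : 0 < ζ.2) :
    ContinuousOn (gk r ζ) {p | 0 ≤ p.2} := by
  have h1 : Continuous (fun z : ℝ × ℝ => hall_N ζ z) := by unfold hall_N; fun_prop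
  have h2 : Continuous (fun z : ℝ × ℝ => hall_D r ζ z) := by unfold hall_D; fun_prop
  have h3 : ContinuousOn (fun z : ℝ × ℝ => Real.log (hall_N ζ z / hall_D r ζ z)) {p | 0 ≤ p.2} := by
    apply ContinuousOn.log
    · exact h1.continuousOn.div h2.continuousOn (fun z _ => (hall_D_pos r ζ z hr).ne')
    · intro z hz
      exact (div_pos (hall_N_pos ζ z ht hz) (hall_D_pos r ζ z hr)).ne'
  exact continuousOn_const.mul h3

/-- upper bound far away -/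
theorem hall_gk_le (r : ℝ) (ζ z : ℝ × ℝ) (hr : 0 < r) (ht : 0 < ζ.2) (hz : 0 ≤ z.2) :
    gk r ζ z ≤ 2 * z.2 * ζ.2 / hall_D r ζ z := by
  have hNp := hall_N_pos ζ z ht hz
  have hDp := hall_D_pos r ζ z hr
  have h1 := Real.log_le_sub_one_of_pos (div_pos hNp hDp)
  have h2 : hall_N ζ z / hall_D r ζ z - 1 ≤ 4 * z.2 * ζ.2 / hall_D r ζ z := by
    rw [div_sub_one hDp.ne']
    apply div_le_div_of_nonneg_right _ hDp.le
    unfold hall_N hall_D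
    nlinarith [sq_nonneg r]
  rw [hall_gk_eq]
  have h3 : 2 * z.2 * ζ.2 / hall_D r ζ z = (1 / 2) * (4 * z.2 * ζ.2 / hall_D r ζ z) := by ring
  rw [h3]
  linarith

/-- the kernel is nonpositive on the boundary -/
theorem hall_gk_bd (r : ℝ) (ζ : ℝ × ℝ) (x : ℝ) (hr : 0 < r) (ht : 0 < ζ.2) : gk r ζ (x, 0) ≤ 0 := by
  have h := hall_gk_le r ζ (x, 0) hr ht le_rfl
  simpa using h

/-- lower bound -/
theorem hall_gk_ge (r : ℝ) (ζ z : ℝ × ℝ) (hr : 0 < r) (ht : 0 < ζ.2) (hz : 0 < z.2)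
    (hr2 : r ^ 2 ≤ z.2 * ζ.2) (hx : (z.1 - ζ.1) ^ 2 ≤ z.2 ^ 2) (hy : ζ.2 ≤ 4 * z.2) :
    3 * ζ.2 / (52 * z.2) ≤ gk r ζ z := by
  have hNp := hall_N_pos ζ z ht hz.le
  have hDp := hall_D_pos r ζ z hr
  have h1 := Real.one_sub_inv_le_log_of_pos (div_pos hNp hDp)
  have h2 : 1 - (hall_N ζ z / hall_D r ζ z)⁻¹ = (hall_N ζ z - hall_D r ζ z) / hall_N ζ z := by
    field_simp
  have h3 : 3 * z.2 * ζ.2 ≤ hall_N ζ z - hall_D r ζ z := by
    unfold hall_N hall_D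
    linarith
  have h4 : hall_N ζ z ≤ 26 * z.2 ^ 2 := by
    rw [hall_N_eq]
    nlinarith
  have h5 : 3 * ζ.2 / (26 * z.2) ≤ (hall_N ζ z - hall_D r ζ z) / hall_N ζ z := by
    rw [div_le_div_iff₀ (by positivity) hNp]
    have h6 : 3 * ζ.2 * hall_N ζ z ≤ 3 * ζ.2 * (26 * z.2 ^ 2) :=
      mul_le_mul_of_nonneg_left h4 (by positivity)
    have h7 : 3 * z.2 * ζ.2 * (26 * z.2) ≤ (hall_N ζ z - hall_D r ζ z) * (26 * z.2) :=
      mul_le_mul_of_nonneg_right h3 (by positivity)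
    nlinarith
  rw [hall_gk_eq]
  have h8 : 3 * ζ.2 / (52 * z.2) = (1 / 2) * (3 * ζ.2 / (26 * z.2)) := by
    field_simp; norm_num
  rw [h8]
  rw [h2] at h1
  linarith

theorem hall_dist (p q : ℝ × ℝ) : dist p q ^ 2 ≤ (p.1 - q.1) ^ 2 + (p.2 - q.2) ^ 2 := by
  rw [Prod.dist_eq, Real.dist_eq, Real.dist_eq]
  rcases le_total |p.1 - q.1| |p.2 - q.2| with h | h
  · rw [max_eq_right h, sq_abs]; nlinarith [sq_nonneg (p.1 - q.1)]
  · rw [max_eq_left h, sq_abs]; nlinarith [sq_nonneg (p.2 - q.2)]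

theorem hall_core (σ : ℝ) (hσ : 0 < σ) (U Ux Uxx Uy Uyy : ℝ × ℝ → ℝ)
    (dx : ∀ p : ℝ × ℝ, -σ < p.2 → HasDerivAt (fun x : ℝ => U (x, p.2)) (Ux p) p.1)
    (dxx : ∀ p : ℝ × ℝ, -σ < p.2 → HasDerivAt (fun x : ℝ => Ux (x, p.2)) (Uxx p) p.1)
    (dy : ∀ p : ℝ × ℝ, -σ < p.2 → HasDerivAt (fun y : ℝ => U (p.1, y)) (Uy p) p.2)
    (dyy : ∀ p : ℝ × ℝ, -σ < p.2 → HasDerivAt (fun y : ℝ => Uy (p.1, y)) (Uyy p) p.2)
    (hc : ContinuousOn U {p | -σ < p.2})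
    (h0 : ∀ p : ℝ × ℝ, 0 ≤ p.2 → 0 ≤ U p)
    (sup : ∀ p : ℝ × ℝ, 0 < p.2 → Uxx p + Uyy p ≤ 0)
    (z₀ : ℝ × ℝ) (hz : 0 < z₀.2) (u v : ℝ) (hu : u ≤ z₀.1) (hv : z₀.1 ≤ v) (huv : v - u ≤ z₀.2)
    (m L : ℝ) (hm : 0 < m) (hL : 0 < L) (η₀ : ℝ) (hη : 0 < η₀) :
    volume {x : ℝ | x ∈ Set.Icc u v ∧ ∃ y ∈ Set.Icc m (4 * z₀.2), L ≤ U (x, y)}
      ≤ ENNReal.ofReal (700 * z₀.2 * U z₀ / L + 1400 * z₀.2 * η₀) := by
  classical
  obtain ⟨L', hL'⟩ : ∃ L', L' = 0.995 * L := ⟨_, rfl⟩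
  have hL'0 : 0 < L' := by rw [hL']; positivity
  have hL'L : L' < L := by rw [hL']; linarith
  -- the compact set of high points
  obtain ⟨K, hK⟩ : ∃ K : Set (ℝ × ℝ), K = (Icc u v ×ˢ Icc m (4 * z₀.2)) ∩ U ⁻¹' (Ici L) := ⟨_, rfl⟩
  have hsub : Icc u v ×ˢ Icc m (4 * z₀.2) ⊆ {p : ℝ × ℝ | -σ < p.2} := by
    rintro p ⟨_, hp⟩
    have := hp.1
    change -σ < p.2
    linarith
  have hKc : IsCompact K := by
    have h1 : IsCompact (Icc u v ×ˢ Icc m (4 * z₀.2)) := isCompact_Icc.prod isCompact_Icc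
    have h2 : IsClosed ((Icc u v ×ˢ Icc m (4 * z₀.2)) ∩ U ⁻¹' (Ici L)) :=
      (hc.mono hsub).preimage_isClosed_of_isClosed h1.isClosed isClosed_Ici
    rw [hK]
    exact h1.of_isClosed_subset h2 inter_subset_left
  have hKmem : ∀ p ∈ K, u ≤ p.1 ∧ p.1 ≤ v ∧ m ≤ p.2 ∧ p.2 ≤ 4 * z₀.2 ∧ L ≤ U p := by
    intro p hp
    rw [hK] at hp
    exact ⟨hp.1.1.1, hp.1.1.2, hp.1.2.1, hp.1.2.2, hp.2⟩
  -- the open set where U is large
  have hO : IsOpen ({p : ℝ × ℝ | -σ < p.2} ∩ U ⁻¹' (Ioi L')) :=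
    hc.isOpen_inter_preimage (isOpen_lt continuous_const continuous_snd) isOpen_Ioi
  have hKO : K ⊆ {p : ℝ × ℝ | -σ < p.2} ∩ U ⁻¹' (Ioi L') := by
    intro p hp
    obtain ⟨_, _, h3, _, h5⟩ := hKmem p hp
    refine ⟨?_, ?_⟩
    · change -σ < p.2
      linarith
    · change L' < U p
      linarith
  obtain ⟨d, hd, hdK⟩ := hKc.exists_thickening_subset_open hO hKO
  obtain ⟨R₀, hR₀⟩ := hKc.isBounded.exists_norm_le
  obtain ⟨R, hR⟩ : ∃ R, R = 2 * |R₀| + (z₀.2 + 2) / (5 * η₀) + 1 := ⟨_, rfl⟩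
  have hR1 : 2 * |R₀| ≤ R := by rw [hR]; have : 0 < (z₀.2 + 2) / (5 * η₀) := by positivity
                                linarith
  have hR2 : (z₀.2 + 2) / (5 * η₀) ≤ R := by rw [hR]; have := abs_nonneg R₀; linarith
  have hRpos : 0 < R := by
    have : 0 < (z₀.2 + 2) / (5 * η₀) := by positivity
    linarith
  -- the mesh
  obtain ⟨r₁, hr₁⟩ : ∃ r₁, r₁ = η₀ * Real.exp (-R) * (10 * m * d ^ 4) / (z₀.2 + 2) := ⟨_, rfl⟩
  have hr₁0 : 0 < r₁ := by rw [hr₁]; positivity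
  obtain ⟨r, hr⟩ : ∃ r, r = min 1 (min (m / 10) (min (z₀.2 * m) r₁)) := ⟨_, rfl⟩
  have hr0 : 0 < r := by rw [hr]; positivity
  have hr1 : r ≤ 1 := by rw [hr]; exact min_le_left _ _
  have hrm : r ≤ m / 10 := by rw [hr]; exact (min_le_right _ _).trans (min_le_left _ _)
  have hrz : r ≤ z₀.2 * m := by
    rw [hr]; exact (min_le_right _ _).trans ((min_le_right _ _).trans (min_le_left _ _))
  have hrr : r ≤ r₁ := by
    rw [hr]; exact (min_le_right _ _).trans ((min_le_right _ _).trans (min_le_right _ _))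
  have hrsq : r ^ 2 ≤ r := by rw [pow_two]; exact mul_le_of_le_one_left hr0.le hr1
  -- the points
  obtain ⟨J, hJ⟩ : ∃ J : Finset ℤ, J = (Finset.Icc ⌊u / r⌋ ⌊v / r⌋).filter
      (fun j => ∃ p ∈ K, ⌊p.1 / r⌋ = j) := ⟨_, rfl⟩
  have hch0 : ∀ j ∈ J, ∃ p ∈ K, ⌊p.1 / r⌋ = j := by
    intro j hj
    rw [hJ, Finset.mem_filter] at hj
    exact hj.2
  have hch : ∀ j : J, ∃ p ∈ K, ⌊p.1 / r⌋ = (j : ℤ) := fun j => hch0 j j.2
  choose P hPK hPf using hch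
  obtain ⟨n, hn⟩ : ∃ n, n = J.card := ⟨_, rfl⟩
  obtain ⟨e⟩ : Nonempty (J ≃ Fin n) := ⟨hn ▸ J.equivFin⟩
  obtain ⟨ζ, hζ⟩ : ∃ ζ : Fin n → ℝ × ℝ, ζ = fun i => P (e.symm i) := ⟨_, rfl⟩
  have hζK : ∀ i, ζ i ∈ K := fun i => by rw [hζ]; exact hPK _
  have hζm : ∀ i, m ≤ (ζ i).2 := fun i => (hKmem _ (hζK i)).2.2.1
  have hζ0 : ∀ i, 0 < (ζ i).2 := fun i => lt_of_lt_of_le hm (hζm i)
  have hcell : ∀ i j, i ≠ j → ⌊(ζ i).1 / r⌋ ≠ ⌊(ζ j).1 / r⌋ := by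
    intro i j hij h
    rw [hζ] at h
    simp only [hPf] at h
    exact hij (e.symm.injective (Subtype.ext h))
  -- number of points
  have hnr : (n : ℝ) * r ≤ z₀.2 + 2 := by
    have h1 : n ≤ (⌊v / r⌋ + 1 - ⌊u / r⌋).toNat := by
      rw [hn, hJ, ← Int.card_Icc]
      exact Finset.card_filter_le _ _
    have h2 : ⌊u / r⌋ ≤ ⌊v / r⌋ := Int.floor_le_floor (div_le_div_of_nonneg_right (hu.trans hv) hr0.le)
    have h3 : (n : ℤ) ≤ ⌊v / r⌋ + 1 - ⌊u / r⌋ := by omega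
    have h4 : (n : ℝ) ≤ ⌊v / r⌋ + 1 - ⌊u / r⌋ := by exact_mod_cast h3
    have h5 := Int.floor_le (v / r)
    have h6 := Int.sub_one_lt_floor (u / r)
    have h7 : (n : ℝ) ≤ (v - u) / r + 2 := by rw [sub_div]; linarith
    calc (n : ℝ) * r ≤ ((v - u) / r + 2) * r := mul_le_mul_of_nonneg_right h7 hr0.le
      _ = (v - u) + 2 * r := by field_simp
      _ ≤ z₀.2 + 2 := by linarith
  -- measure of E
  have hE : volume {x : ℝ | x ∈ Set.Icc u v ∧ ∃ y ∈ Set.Icc m (4 * z₀.2), L ≤ U (x, y)}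
      ≤ ENNReal.ofReal (n * r) := by
    have h1 : {x : ℝ | x ∈ Set.Icc u v ∧ ∃ y ∈ Set.Icc m (4 * z₀.2), L ≤ U (x, y)}
        ⊆ ⋃ j ∈ J, Set.Ico ((j : ℝ) * r) (((j : ℝ) + 1) * r) := by
      rintro x ⟨hx, y, hy, hU⟩
      have hxK : ((x, y) : ℝ × ℝ) ∈ K := by rw [hK]; exact ⟨⟨hx, hy⟩, hU⟩
      have hj : ⌊x / r⌋ ∈ J := by
        rw [hJ, Finset.mem_filter, Finset.mem_Icc]
        exact ⟨⟨Int.floor_le_floor (div_le_div_of_nonneg_right hx.1 hr0.le),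
          Int.floor_le_floor (div_le_div_of_nonneg_right hx.2 hr0.le)⟩, (x, y), hxK, rfl⟩
      refine Set.mem_biUnion (x := ⌊x / r⌋) hj ⟨?_, ?_⟩
      · rw [← le_div_iff₀ hr0]; exact Int.floor_le _
      · rw [← div_lt_iff₀ hr0]; exact Int.lt_floor_add_one _
    refine (measure_mono h1).trans ((measure_biUnion_finset_le _ _).trans ?_)
    have h2 : ∀ j ∈ J, volume (Set.Ico ((j : ℝ) * r) (((j : ℝ) + 1) * r)) = ENNReal.ofReal r := by
      intro j _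
      rw [Real.volume_Ico]
      congr 1; ring
    rw [Finset.sum_congr rfl h2, Finset.sum_const, ← hn, ENNReal.ofReal_mul (by positivity),
      ENNReal.ofReal_natCast, nsmul_eq_mul]
  -- the comparison function
  obtain ⟨V, hV⟩ : ∃ V : ℝ × ℝ → ℝ, V = fun p => ∑ i, r / (ζ i).2 * gk r (ζ i) p := ⟨_, rfl⟩
  obtain ⟨Vx, hVx⟩ : ∃ Vx : ℝ × ℝ → ℝ, Vx = fun p => ∑ i, r / (ζ i).2 *
      ((p.1 - (ζ i).1) / hall_N (ζ i) p - (p.1 - (ζ i).1) / hall_D r (ζ i) p) := ⟨_, rfl⟩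
  obtain ⟨Vy, hVy⟩ : ∃ Vy : ℝ × ℝ → ℝ, Vy = fun p => ∑ i, r / (ζ i).2 *
      ((p.2 + (ζ i).2) / hall_N (ζ i) p - (p.2 - (ζ i).2) / hall_D r (ζ i) p) := ⟨_, rfl⟩
  obtain ⟨Vxx, hVxx⟩ : ∃ Vxx : ℝ × ℝ → ℝ, Vxx = fun p => ∑ i, r / (ζ i).2 *
      ((1 / hall_N (ζ i) p - 2 * (p.1 - (ζ i).1) ^ 2 / hall_N (ζ i) p ^ 2)
        - (1 / hall_D r (ζ i) p - 2 * (p.1 - (ζ i).1) ^ 2 / hall_D r (ζ i) p ^ 2)) := ⟨_, rfl⟩
  obtain ⟨Vyy, hVyy⟩ : ∃ Vyy : ℝ × ℝ → ℝ, Vyy = fun p => ∑ i, r / (ζ i).2 *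
      ((1 / hall_N (ζ i) p - 2 * (p.2 + (ζ i).2) ^ 2 / hall_N (ζ i) p ^ 2)
        - (1 / hall_D r (ζ i) p - 2 * (p.2 - (ζ i).2) ^ 2 / hall_D r (ζ i) p ^ 2)) := ⟨_, rfl⟩
  have hVdx : ∀ p : ℝ × ℝ, 0 < p.2 → HasDerivAt (fun x : ℝ => V (x, p.2)) (Vx p) p.1 := by
    intro p hp
    rw [hV, hVx]
    exact HasDerivAt.fun_sum (fun i _ => (hall_dx r (ζ i) p hr0 (hζ0 i) hp.le).const_mul _)
  have hVdy : ∀ p : ℝ × ℝ, 0 < p.2 → HasDerivAt (fun y : ℝ => V (p.1, y)) (Vy p) p.2 := by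
    intro p hp
    rw [hV, hVy]
    exact HasDerivAt.fun_sum (fun i _ => (hall_dy r (ζ i) p hr0 (hζ0 i) hp.le).const_mul _)
  have hVdxx : ∀ p : ℝ × ℝ, 0 < p.2 → HasDerivAt (fun x : ℝ => Vx (x, p.2)) (Vxx p) p.1 := by
    intro p hp
    rw [hVx, hVxx]
    exact HasDerivAt.fun_sum (fun i _ => (hall_dxx r (ζ i) p hr0 (hζ0 i) hp.le).const_mul _)
  have hVdyy : ∀ p : ℝ × ℝ, 0 < p.2 → HasDerivAt (fun y : ℝ => Vy (p.1, y)) (Vyy p) p.2 := by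
    intro p hp
    rw [hVy, hVyy]
    exact HasDerivAt.fun_sum (fun i _ => (hall_dyy r (ζ i) p hr0 (hζ0 i) hp.le).const_mul _)
  have hVlap : ∀ p : ℝ × ℝ, 0 < p.2 →
      Vxx p + Vyy p = - ∑ i, r / (ζ i).2 * (2 * r ^ 2 / hall_D r (ζ i) p ^ 2) := by
    intro p hp
    rw [hVxx, hVyy]
    simp only
    rw [← Finset.sum_add_distrib, ← Finset.sum_neg_distrib]
    refine Finset.sum_congr rfl (fun i _ => ?_)
    rw [← mul_add, hall_lap r (ζ i) p hr0 (hζ0 i) hp.le]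
    ring
  have hVc : ContinuousOn V {p | 0 ≤ p.2} := by
    rw [hV]
    exact continuousOn_finsetSum _ (fun i _ => continuousOn_const.mul (hall_cont r (ζ i) hr0 (hζ0 i)))
  have hV40 : ∀ p : ℝ × ℝ, 0 ≤ p.2 → V p ≤ 40 := by
    intro p hp
    rw [hV]
    exact HallK n ζ m r hm hr0 hrm hζm hcell p hp
  have hVbd : ∀ x : ℝ, V (x, 0) ≤ 0 := by
    intro x
    rw [hV]
    refine Finset.sum_nonpos (fun i _ => ?_)
    exact mul_nonpos_of_nonneg_of_nonpos (div_nonneg hr0.le (hζ0 i).le)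
      (hall_gk_bd r (ζ i) x hr0 (hζ0 i))
  have hVfar : ∀ p : ℝ × ℝ, 0 ≤ p.2 → R ≤ ‖p‖ → V p ≤ 40 * η₀ := by
    intro p hp hpR
    have hpp : 0 < ‖p‖ := lt_of_lt_of_le hRpos hpR
    have h1 : ∀ i, r / (ζ i).2 * gk r (ζ i) p ≤ 8 * r / R := by
      intro i
      have h2 : ‖p‖ / 2 ≤ dist p (ζ i) := by
        rw [dist_eq_norm]
        have h3 := norm_sub_norm_le p (ζ i)
        have h4 := hR₀ _ (hζK i)
        have h5 := le_abs_self R₀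
        linarith
      have h6 : (‖p‖ / 2) ^ 2 ≤ hall_D r (ζ i) p := by
        have h7 := pow_le_pow_left₀ (by positivity) h2 2
        have h8 := hall_dist p (ζ i)
        unfold hall_D
        have := sq_nonneg r
        linarith
      have h9 : p.2 ≤ ‖p‖ := by
        have := norm_snd_le p
        rw [Real.norm_eq_abs] at this
        exact (le_abs_self _).trans this
      have h10 := hall_gk_le r (ζ i) p hr0 (hζ0 i) hp
      have h11 : 2 * p.2 * (ζ i).2 / hall_D r (ζ i) p ≤ 2 * ‖p‖ * (ζ i).2 / (‖p‖ / 2) ^ 2 := by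
        apply div_le_div₀
        · have := (hζ0 i).le; positivity
        · exact mul_le_mul_of_nonneg_right (by linarith) (hζ0 i).le
        · positivity
        · exact h6
      calc r / (ζ i).2 * gk r (ζ i) p
          ≤ r / (ζ i).2 * (2 * ‖p‖ * (ζ i).2 / (‖p‖ / 2) ^ 2) :=
            mul_le_mul_of_nonneg_left (h10.trans h11) (div_nonneg hr0.le (hζ0 i).le)
        _ = 8 * r / ‖p‖ := by
            have := (hζ0 i).ne'
            field_simp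
            norm_num
        _ ≤ 8 * r / R := div_le_div_of_nonneg_left (by positivity) hRpos hpR
    rw [hV]
    calc ∑ i, r / (ζ i).2 * gk r (ζ i) p ≤ ∑ _i : Fin n, 8 * r / R :=
          Finset.sum_le_sum (fun i _ => h1 i)
      _ = 8 * (n * r) / R := by
          rw [Finset.sum_const, Finset.card_univ, Fintype.card_fin, nsmul_eq_mul]; ring
      _ ≤ 8 * (z₀.2 + 2) / R := by
          apply div_le_div_of_nonneg_right _ hRpos.le
          linarith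
      _ ≤ 40 * η₀ := by
          rw [div_le_iff₀ hRpos]
          have h12 := (div_le_iff₀ (by positivity)).1 hR2
          linarith
  -- apply the minimum principle
  have hW := HallM (fun p => U p / L' - V p / 40 + η₀ * (2 - Real.exp (-p.2)))
    (fun p => Ux p / L' - Vx p / 40) (fun p => Uxx p / L' - Vxx p / 40)
    (fun p => Uy p / L' - Vy p / 40 + η₀ * Real.exp (-p.2))
    (fun p => Uyy p / L' - Vyy p / 40 - η₀ * Real.exp (-p.2))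
    (fun p hp => by
      have h1 := ((dx p (by linarith)).div_const L').fun_sub ((hVdx p hp).div_const 40)
      exact h1.add_const (η₀ * (2 - Real.exp (-p.2))))
    (fun p hp => by
      exact ((dxx p (by linarith)).div_const L').sub ((hVdxx p hp).div_const 40))
    (fun p hp => by
      have h1 := ((dy p (by linarith)).div_const L').sub ((hVdy p hp).div_const 40)
      have h2 : HasDerivAt (fun y : ℝ => η₀ * (2 - Real.exp (-y))) (η₀ * Real.exp (-p.2)) p.2 := by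
        have h3 := ((hasDerivAt_id p.2).neg.exp.const_sub 2).const_mul η₀
        refine h3.congr_deriv ?_
        simp
      exact h1.add h2)
    (fun p hp => by
      have h1 := ((dyy p (by linarith)).div_const L').sub ((hVdyy p hp).div_const 40)
      have h2 : HasDerivAt (fun y : ℝ => η₀ * Real.exp (-y)) (-(η₀ * Real.exp (-p.2))) p.2 := by
        have h3 := ((hasDerivAt_id p.2).neg.exp).const_mul η₀
        refine h3.congr_deriv ?_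
        simp
      exact (h1.add h2).congr_deriv (by ring))
    (by
      have hcU : ContinuousOn U {p : ℝ × ℝ | 0 ≤ p.2} := hc.mono (by
        intro p hp
        have : 0 ≤ p.2 := hp
        change -σ < p.2
        linarith)
      have hex : Continuous (fun p : ℝ × ℝ => η₀ * (2 - Real.exp (-p.2))) := by fun_prop
      exact ((hcU.div_const L').sub (hVc.div_const 40)).add hex.continuousOn)
    {p | ∃ i, dist p (ζ i) < d} R
    (by
      intro x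
      have h1 := h0 (x, 0) le_rfl
      have h2 := hVbd x
      have h3 : 0 ≤ U (x, 0) / L' := div_nonneg h1 hL'0.le
      simp only [neg_zero, Real.exp_zero]
      linarith)
    (by
      rintro p ⟨i, hi⟩ hp
      have h1 : p ∈ Metric.thickening d K := by
        rw [Metric.mem_thickening_iff]
        exact ⟨ζ i, hζK i, hi⟩
      have h2 : L' < U p := (hdK h1).2
      have h3 : 1 ≤ U p / L' := by rw [le_div_iff₀ hL'0]; linarith
      have h4 := hV40 p hp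
      have h5 : Real.exp (-p.2) ≤ 1 := Real.exp_le_one_iff.2 (by linarith)
      have h6 : 0 ≤ η₀ * (2 - Real.exp (-p.2)) := mul_nonneg hη.le (by linarith)
      linarith)
    (by
      intro p hp hpR
      have h1 := div_nonneg (h0 p hp) hL'0.le
      have h4 := hVfar p hp hpR
      have h5 : Real.exp (-p.2) ≤ 1 := Real.exp_le_one_iff.2 (by linarith)
      have h6 : η₀ * 1 ≤ η₀ * (2 - Real.exp (-p.2)) := mul_le_mul_of_nonneg_left (by linarith) hη.le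
      linarith)
    (by
      intro p hp hpB hpR
      have h1 : (Uxx p + Uyy p) / L' ≤ 0 := div_nonpos_of_nonpos_of_nonneg (sup p hp) hL'0.le
      have h2 := hVlap p hp
      have h3 : ∑ i, r / (ζ i).2 * (2 * r ^ 2 / hall_D r (ζ i) p ^ 2)
          ≤ (z₀.2 + 2) * (2 * r ^ 2) / (m * d ^ 4) := by
        have h4 : ∀ i, r / (ζ i).2 * (2 * r ^ 2 / hall_D r (ζ i) p ^ 2)
            ≤ r / m * (2 * r ^ 2 / d ^ 4) := by
          intro i
          have h5 : d ≤ dist p (ζ i) := by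
            by_contra hlt
            push Not at hlt
            exact hpB ⟨i, hlt⟩
          have h6 : d ^ 2 ≤ hall_D r (ζ i) p := by
            have h7 := pow_le_pow_left₀ hd.le h5 2
            have h8 := hall_dist p (ζ i)
            unfold hall_D
            have := sq_nonneg r
            linarith
          have h9 : d ^ 4 ≤ hall_D r (ζ i) p ^ 2 := by
            have := pow_le_pow_left₀ (by positivity) h6 2
            calc d ^ 4 = (d ^ 2) ^ 2 := by ring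
              _ ≤ _ := this
          apply mul_le_mul
          · exact div_le_div_of_nonneg_left hr0.le hm (hζm i)
          · exact div_le_div_of_nonneg_left (by positivity) (by positivity) h9
          · positivity
          · positivity
        calc ∑ i, r / (ζ i).2 * (2 * r ^ 2 / hall_D r (ζ i) p ^ 2)
            ≤ ∑ _i : Fin n, r / m * (2 * r ^ 2 / d ^ 4) := Finset.sum_le_sum (fun i _ => h4 i)
          _ = (n * r) * (2 * r ^ 2) / (m * d ^ 4) := by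
              rw [Finset.sum_const, Finset.card_univ, Fintype.card_fin, nsmul_eq_mul]
              field_simp
          _ ≤ (z₀.2 + 2) * (2 * r ^ 2) / (m * d ^ 4) := by
              apply div_le_div_of_nonneg_right _ (by positivity)
              exact mul_le_mul_of_nonneg_right hnr (by positivity)
      have h4 : (z₀.2 + 2) * (2 * r ^ 2) / (m * d ^ 4) ≤ 20 * (η₀ * Real.exp (-R)) := by
        rw [div_le_iff₀ (by positivity)]
        have h5 : (z₀.2 + 2) * r ≤ η₀ * Real.exp (-R) * (10 * m * d ^ 4) := by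
          have h6 := mul_le_mul_of_nonneg_left hrr (show (0:ℝ) ≤ z₀.2 + 2 by linarith)
          rw [hr₁] at h6
          have h7 : (z₀.2 + 2) * (η₀ * Real.exp (-R) * (10 * m * d ^ 4) / (z₀.2 + 2))
              = η₀ * Real.exp (-R) * (10 * m * d ^ 4) := by field_simp
          rwa [h7] at h6
        have h8 := mul_le_mul_of_nonneg_left hrsq (show (0:ℝ) ≤ 2 * (z₀.2 + 2) by linarith)
        linarith
      have h5 : Real.exp (-R) < Real.exp (-p.2) := by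
        apply Real.exp_lt_exp.2
        have := norm_snd_le p
        rw [Real.norm_eq_abs] at this
        have h6 := le_abs_self p.2
        linarith
      have h6 : η₀ * Real.exp (-R) < η₀ * Real.exp (-p.2) := mul_lt_mul_of_pos_left h5 hη
      have h7 : Uxx p / L' - Vxx p / 40 + (Uyy p / L' - Vyy p / 40 - η₀ * Real.exp (-p.2))
          = (Uxx p + Uyy p) / L' - (Vxx p + Vyy p) / 40 - η₀ * Real.exp (-p.2) := by ring
      rw [h7, h2]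
      have h8 : 0 < η₀ * Real.exp (-R) := by positivity
      linarith)
    z₀ hz.le
  -- lower bound of V at z₀
  have hVlow : 3 * (n * r) / (52 * z₀.2) ≤ V z₀ := by
    have h1 : ∀ i, 3 * r / (52 * z₀.2) ≤ r / (ζ i).2 * gk r (ζ i) z₀ := by
      intro i
      obtain ⟨k1, k2, k3, k4, _⟩ := hKmem _ (hζK i)
      have h2 := hall_gk_ge r (ζ i) z₀ hr0 (hζ0 i) hz
        (hrsq.trans (hrz.trans (mul_le_mul_of_nonneg_left k3 hz.le)))
        (by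
          apply sq_le_sq'
          · linarith
          · linarith) k4
      have h3 := mul_le_mul_of_nonneg_left h2 (div_nonneg hr0.le (hζ0 i).le)
      have h4 : r / (ζ i).2 * (3 * (ζ i).2 / (52 * z₀.2)) = 3 * r / (52 * z₀.2) := by
        have := (hζ0 i).ne'
        field_simp
      rwa [h4] at h3
    rw [hV]
    calc 3 * (n * r) / (52 * z₀.2) = ∑ _i : Fin n, 3 * r / (52 * z₀.2) := by
          rw [Finset.sum_const, Finset.card_univ, Fintype.card_fin, nsmul_eq_mul]; ring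
      _ ≤ _ := Finset.sum_le_sum (fun i _ => h1 i)
  refine hE.trans (ENNReal.ofReal_le_ofReal ?_)
  have h1 : 0 < Real.exp (-z₀.2) := Real.exp_pos _
  have h2 : η₀ * (2 - Real.exp (-z₀.2)) ≤ η₀ * 2 := mul_le_mul_of_nonneg_left (by linarith) hη.le
  have h3 : 3 * (n * r) / (52 * z₀.2) ≤ 40 * (U z₀ / L' + 2 * η₀) := by linarith
  rw [div_le_iff₀ (by positivity)] at h3
  have hU0 := h0 z₀ hz.le
  have h4 : U z₀ / L' = U z₀ / L / 0.995 := by rw [hL']; field_simp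
  rw [h4] at h3
  have h5 : 700 * z₀.2 * U z₀ / L = 700 * (z₀.2 * (U z₀ / L)) := by ring
  have h6 : 0 ≤ z₀.2 * (U z₀ / L) := by positivity
  have h7 : 0 ≤ z₀.2 * η₀ := by positivity
  rw [h5]
  have h8 : 40 * (U z₀ / L / 0.995 + 2 * η₀) * (52 * z₀.2)
      = 2080 / 0.995 * (z₀.2 * (U z₀ / L)) + 4160 * (z₀.2 * η₀) := by ring
  rw [h8] at h3
  norm_num at h3
  linarith

/-- **(Hall)** Hall's lemma.  `U ≥ 0` is `C²` near `y ≥ 0` (pure second derivatives) and superharmonic,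
`z₀ = (x₀,y₀)`, `x₀ ∈ [u,v]`, `v - u ≤ y₀`, `0 < m`.
`E = {x ∈ [u,v] : U(x,y) ≥ L for some y ∈ [m,4y₀]}` satisfies `|E| ≤ 700 y₀ U(z₀)/L`.

Proof.  `E` is compact (`U` continuous).  Let `0 < L' < L`, `η₀ > 0`.  By uniform continuity of `U` on
`[u-1,v+1]×[m/2,4y₀+1]` there is `d ∈ (0,m/2)` with `U ≥ L'` on the `d`-balls around the points of
`E' = {(x,y) : x ∈ [u,v], y ∈ [m,4y₀], U(x,y) ≥ L}`.  For `r` small (`r ≤ m/10`, `r² ≤ m y₀`, …) choose in each cell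
`[jr,(j+1)r)` meeting `E` one point `x_i ∈ E` and `y_i ∈ [m,4y₀]` with `U(x_i,y_i) ≥ L`; let `n` be their number,
`n r ≥ |E|`, `n ≤ y₀/r + 2`.  `V(z) = Σ (r/y_i) gk r ζ_i z` (finite sum, smooth on `y ≥ 0`).  `V ≤ 40` (`HallK`), `V ≤ 0`
on `y = 0`, `V(z) ≤ Σ 2 r y/(|z-ζ_i|²+r²) → 0` as `|z| → ∞`; `ΔV = -Σ (r/y_i) 2r²/(|z-ζ_i|²+r²)²`
(`log|z - conj ζ|²` harmonic, `Δ (1/2)log(|w|²+r²) = 2r²/(|w|²+r²)²`).
`W = U/L' - V/40 + η₀(2 - e^{-y})`: `W ≥ 0` on `y=0`, near the `ζ_i` (within `d`), and for `|z| ≥ R` large; elsewhere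
`ΔW ≤ (1/40) n (r/m) 2r²/d⁴ - η₀ e^{-y} < 0` for `|z| ≤ R` if `r` is small (`R` can be chosen before `r`: the bound
`V(z) ≤ 2(y₀+1)·|z|/(|z|-R₀)²·…` is uniform in `r ≤ 1`).  `HallM`: `W(z₀) ≥ 0`, `V(z₀) ≤ 40(U(z₀)/L' + 2η₀)`.
Lower bound: `gk ≥ (1/2) q/(1+q)`, `q = (4y₀y_i - r²)/(|z₀-ζ_i|²+r²)`, i.e. `≥ (1/2)(4y₀y_i - r²)/(|z₀-ζ_i|²+4y₀y_i)
≥ (1/2) 3 y₀ y_i/(26 y₀²)` (`|z₀-ζ_i|² ≤ y₀² + 9y₀²`, `y_i ≤ 4y₀`), so `V(z₀) ≥ n r · 3/(52 y₀) ≥ 0.0576 |E|/y₀`.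
Let `η₀ → 0`, `L' → L`: `|E| ≤ 40/0.0576 · y₀U(z₀)/L ≤ 700 y₀ U(z₀)/L`. -/
theorem Hall (σ : ℝ) (hσ : 0 < σ) (U Ux Uxx Uy Uyy : ℝ × ℝ → ℝ)
    (dx : ∀ p : ℝ × ℝ, -σ < p.2 → HasDerivAt (fun x : ℝ => U (x, p.2)) (Ux p) p.1)
    (dxx : ∀ p : ℝ × ℝ, -σ < p.2 → HasDerivAt (fun x : ℝ => Ux (x, p.2)) (Uxx p) p.1)
    (dy : ∀ p : ℝ × ℝ, -σ < p.2 → HasDerivAt (fun y : ℝ => U (p.1, y)) (Uy p) p.2)
    (dyy : ∀ p : ℝ × ℝ, -σ < p.2 → HasDerivAt (fun y : ℝ => Uy (p.1, y)) (Uyy p) p.2)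
    (hc : ContinuousOn U {p | -σ < p.2})
    (h0 : ∀ p : ℝ × ℝ, 0 ≤ p.2 → 0 ≤ U p)
    (sup : ∀ p : ℝ × ℝ, 0 < p.2 → Uxx p + Uyy p ≤ 0)
    (z₀ : ℝ × ℝ) (hz : 0 < z₀.2) (u v : ℝ) (hu : u ≤ z₀.1) (hv : z₀.1 ≤ v) (huv : v - u ≤ z₀.2)
    (m L : ℝ) (hm : 0 < m) (hL : 0 < L) :
    volume {x : ℝ | x ∈ Set.Icc u v ∧ ∃ y ∈ Set.Icc m (4 * z₀.2), L ≤ U (x, y)}
      ≤ ENNReal.ofReal (700 * z₀.2 * U z₀ / L) := by
  have hU0 := h0 z₀ hz.le
  apply ENNReal.le_of_forall_pos_le_add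
  intro ε hε _
  have hε' : (0:ℝ) < ε := hε
  have h := hall_core σ hσ U Ux Uxx Uy Uyy dx dxx dy dyy hc h0 sup z₀ hz u v hu hv huv m L hm hL
    (ε / (1400 * z₀.2)) (by positivity)
  refine h.trans ?_
  rw [ENNReal.ofReal_add (by positivity) (by positivity)]
  have h1 : 1400 * z₀.2 * ((ε : ℝ) / (1400 * z₀.2)) = ε := by field_simp
  rw [h1, ENNReal.ofReal_coe_nnreal]

end Pool.H14.SR
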