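import Pool.Agent.H14.SR.Basic

open MeasureTheory Set Filter Topology
noncomputable section
namespace Pool.H14.SR

theorem OS_re_dx {g : ℝ → ℂ} {g' : ℂ} {x : ℝ} (h : HasDerivAt g g' x) :
    HasDerivAt (fun t => (g t).re) g'.re x :=
  Complex.reCLM.hasFDerivAt.comp_hasDerivAt x h

theorem OS_P2_re {ρ : ℝ} {f : ℂ → ℂ} (hρ : 1 < ρ) (hf : DifferentiableOn ℂ f (Metric.ball 0 ρ)) :
    P2 (Real.log ρ) (fun p => (hp f p).re) (fun p => (hp (Dz f) p).re)
      (fun p => (hp (Dz (Dz f)) p).re) (fun p => (Complex.I * hp (Dz f) p).re)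
      (fun p => (Complex.I * (Complex.I * hp (Dz (Dz f)) p)).re) where
  dx := fun p h => OS_re_dx (hp_dx (by linarith) hf p h)
  dxx := fun p h => OS_re_dx (hp_dx (by linarith) (Dz_diff hf) p h)
  dy := fun p h => OS_re_dx (hp_dy (by linarith) hf p h)
  dyy := fun p h => OS_re_dx ((hp_dy (by linarith) (Dz_diff hf) p h).const_mul _)
  c := Complex.continuous_re.comp_continuousOn (hp_cont (by linarith) hf.continuousOn)
  cx := Complex.continuous_re.comp_continuousOn (hp_cont (by linarith) (Dz_diff hf).continuousOn)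
  cxx := Complex.continuous_re.comp_continuousOn
    (hp_cont (by linarith) (Dz_diff (Dz_diff hf)).continuousOn)
  cy := Complex.continuous_re.comp_continuousOn
    (continuousOn_const.mul (hp_cont (by linarith) (Dz_diff hf).continuousOn))
  cyy := Complex.continuous_re.comp_continuousOn (continuousOn_const.mul
    (continuousOn_const.mul (hp_cont (by linarith) (Dz_diff (Dz_diff hf)).continuousOn)))
  per := fun p _ => by rw [hp_per]

theorem OS_P2_nsq {ρ : ℝ} {f : ℂ → ℂ} (hρ : 1 < ρ) (hf : DifferentiableOn ℂ f (Metric.ball 0 ρ)) :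
    P2 (Real.log ρ) (fun p => ‖hp f p‖ ^ 2) (fun p => 2 * inner ℝ (hp f p) (hp (Dz f) p))
      (fun p => 2 * (inner ℝ (hp f p) (hp (Dz (Dz f)) p) + inner ℝ (hp (Dz f) p) (hp (Dz f) p)))
      (fun p => 2 * inner ℝ (hp f p) (Complex.I * hp (Dz f) p))
      (fun p => 2 * (inner ℝ (hp f p) (Complex.I * (Complex.I * hp (Dz (Dz f)) p))
        + inner ℝ (Complex.I * hp (Dz f) p) (Complex.I * hp (Dz f) p))) := by
  have c0 := hp_cont (ρ := ρ) (by linarith) hf.continuousOn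
  have c1 := hp_cont (ρ := ρ) (by linarith) (Dz_diff hf).continuousOn
  have c2 := hp_cont (ρ := ρ) (by linarith) (Dz_diff (Dz_diff hf)).continuousOn
  have d1 : ContinuousOn (fun p => Complex.I * hp (Dz f) p) {p | -Real.log ρ < p.2} :=
    continuousOn_const.mul c1
  have d2 : ContinuousOn (fun p => Complex.I * (Complex.I * hp (Dz (Dz f)) p)) {p | -Real.log ρ < p.2} :=
    continuousOn_const.mul (continuousOn_const.mul c2)
  exact
  { dx := fun p h => (hp_dx (by linarith) hf p h).norm_sq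
    dxx := fun p h => ((hp_dx (by linarith) hf p h).inner ℝ
      (hp_dx (by linarith) (Dz_diff hf) p h)).const_mul 2
    dy := fun p h => (hp_dy (by linarith) hf p h).norm_sq
    dyy := fun p h => ((hp_dy (by linarith) hf p h).inner ℝ
      ((hp_dy (by linarith) (Dz_diff hf) p h).const_mul Complex.I)).const_mul 2
    c := c0.norm.pow 2
    cx := continuousOn_const.mul (c0.inner c1)
    cxx := continuousOn_const.mul ((c0.inner c2).add (c1.inner c1))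
    cy := continuousOn_const.mul (c0.inner d1)
    cyy := continuousOn_const.mul ((c0.inner d2).add (d1.inner d1))
    per := fun p _ => by rw [hp_per] }

theorem OS_lap_nsq (f : ℂ → ℂ) (p : ℝ × ℝ) :
    2 * (inner ℝ (hp f p) (hp (Dz (Dz f)) p) + inner ℝ (hp (Dz f) p) (hp (Dz f) p))
      + 2 * (inner ℝ (hp f p) (Complex.I * (Complex.I * hp (Dz (Dz f)) p))
        + inner ℝ (Complex.I * hp (Dz f) p) (Complex.I * hp (Dz f) p))
      = 4 * ‖hp (Dz f) p‖ ^ 2 := by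
  have h1 : Complex.I * (Complex.I * hp (Dz (Dz f)) p) = -hp (Dz (Dz f)) p := by
    rw [← mul_assoc, Complex.I_mul_I]; ring
  rw [h1, inner_neg_right, real_inner_self_eq_norm_sq, real_inner_self_eq_norm_sq, norm_mul,
    Complex.norm_I]
  ring

theorem OS_Uy_bound {ρ : ℝ} {f : ℂ → ℂ} (hρ : 1 < ρ)
    (hf : DifferentiableOn ℂ f (Metric.ball 0 ρ)) :
    ∃ B : ℝ, 0 ≤ B ∧ ∀ p : ℝ × ℝ, 0 ≤ p.2 →
      |2 * inner ℝ (hp f p) (Complex.I * hp (Dz f) p)| ≤ B * Real.exp (-p.2) := by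
  obtain ⟨B1, hB1, h1⟩ := hp_bdd (hf.continuousOn.mono (Metric.closedBall_subset_ball hρ))
  obtain ⟨B2, hB2, h2⟩ := hp_decay hρ hf
  refine ⟨2 * (B1 * B2), by positivity, fun p h => ?_⟩
  rw [abs_mul, abs_two]
  have h3 := abs_real_inner_le_norm (hp f p) (Complex.I * hp (Dz f) p)
  rw [norm_mul, Complex.norm_I, one_mul] at h3
  have h4 : ‖hp f p‖ * ‖hp (Dz f) p‖ ≤ B1 * (B2 * Real.exp (-p.2)) :=
    mul_le_mul (h1 p h) (h2 p h) (norm_nonneg _) hB1
  linarith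

theorem OS_P2_sub {U Ux Uxx Uy Uyy V Vx Vxx Vy Vyy : ℝ × ℝ → ℝ} {σ : ℝ}
    (h : P2 σ U Ux Uxx Uy Uyy) (k : P2 σ V Vx Vxx Vy Vyy) :
    P2 σ (fun p => U p - V p) (fun p => Ux p - Vx p) (fun p => Uxx p - Vxx p)
      (fun p => Uy p - Vy p) (fun p => Uyy p - Vyy p) where
  dx := fun p hp => (h.dx p hp).sub (k.dx p hp)
  dxx := fun p hp => (h.dxx p hp).sub (k.dxx p hp)
  dy := fun p hp => (h.dy p hp).sub (k.dy p hp)
  dyy := fun p hp => (h.dyy p hp).sub (k.dyy p hp)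
  c := h.c.sub k.c
  cx := h.cx.sub k.cx
  cxx := h.cxx.sub k.cxx
  cy := h.cy.sub k.cy
  cyy := h.cyy.sub k.cyy
  per := fun p hp => by rw [h.per p hp, k.per p hp]

/-- `O` is `C²` with `ΔO = -4(|a'|²+|b'|²)`, and `|∂y O| ≤ B e^{-y}` on `y ≥ 0`.
(`∂x f = f'`, `∂y f = i f'` with `f' = hp (Dz f)`; `Re F` is harmonic, `Δ|f|² = 4|f'|²`; `hp_decay`.) -/
theorem Osc_P2 {δ ρ : ℝ} {a b F : ℂ → ℂ} (h : Dat δ ρ a b F) :
    ∃ Ox Oxx Oy Oyy : ℝ × ℝ → ℝ, P2 (Real.log ρ) (Osc a b F) Ox Oxx Oy Oyy ∧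
      (∀ p : ℝ × ℝ, -Real.log ρ < p.2 →
        Oxx p + Oyy p = -4 * (‖hp (Dz a) p‖ ^ 2 + ‖hp (Dz b) p‖ ^ 2)) ∧
      ∃ B : ℝ, 0 ≤ B ∧ ∀ p : ℝ × ℝ, 0 ≤ p.2 → |Oy p| ≤ B * Real.exp (-p.2) := by
  refine ⟨_, _, _, _, OS_P2_sub (OS_P2_sub (OS_P2_re h.hρ h.hF) (OS_P2_nsq h.hρ h.ha))
    (OS_P2_nsq h.hρ h.hb), fun p _ => ?_, ?_⟩
  · have h1 := OS_lap_nsq a p
    have h2 := OS_lap_nsq b p
    have h3 : (hp (Dz (Dz F)) p).re + (Complex.I * (Complex.I * hp (Dz (Dz F)) p)).re = 0 := by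
      rw [← mul_assoc, Complex.I_mul_I]; simp
    linarith
  · obtain ⟨B1, hB1, h1⟩ := OS_Uy_bound h.hρ h.ha
    obtain ⟨B2, hB2, h2⟩ := OS_Uy_bound h.hρ h.hb
    obtain ⟨B3, hB3, h3⟩ := hp_decay h.hρ h.hF
    refine ⟨B3 + B1 + B2, by positivity, fun p hp0 => ?_⟩
    have e1 := h1 p hp0
    have e2 := h2 p hp0
    have e3 : |(Complex.I * hp (Dz F) p).re| ≤ B3 * Real.exp (-p.2) := by
      refine (Complex.abs_re_le_norm _).trans ?_
      rw [norm_mul, Complex.norm_I, one_mul]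
      exact h3 p hp0
    refine (abs_sub _ _).trans ?_
    have e4 := abs_sub ((Complex.I * hp (Dz F) p).re) (2 * inner ℝ (hp a p) (Complex.I * hp (Dz a) p))
    nlinarith

theorem Osc_nonneg {δ ρ : ℝ} {a b F : ℂ → ℂ} (h : Dat δ ρ a b F) (p : ℝ × ℝ)
    (hp : -Real.log ρ < p.2) : 0 ≤ Osc a b F p ∧ Osc a b F p ≤ 2 := by
  have h1 := h.hO (E p) (E_mem_ball (by linarith [h.hρ]) hp)
  have h2 := h.hO2 (E p) (E_mem_ball (by linarith [h.hρ]) hp)
  unfold Osc Pool.H14.SR.hp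
  constructor
  · linarith
  · nlinarith [sq_nonneg ‖a (E p)‖, sq_nonneg ‖b (E p)‖]

end Pool.H14.SR
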