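import Pool.Agent.H14.SR.Basic
import Pool.Agent.H14.SR.Hall
import Pool.Agent.H14.SR.OS
open MeasureTheory Set Filter Topology
noncomputable section
namespace Pool.H14.SR

namespace HallBaux

/-- `|∇|b|²|² = 4|b|²|b'|²` -/
theorem grad_sq (b c : ℂ) :
    (2 * inner ℝ b c) ^ 2 + (2 * inner ℝ b (Complex.I * c)) ^ 2 = 4 * ‖b‖ ^ 2 * ‖c‖ ^ 2 := by
  rw [Complex.inner, Complex.inner, Complex.sq_norm, Complex.sq_norm, Complex.normSq_apply,
    Complex.normSq_apply]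
  simp only [Complex.mul_re, Complex.conj_re, Complex.conj_im, Complex.mul_im, Complex.I_re,
    Complex.I_im]
  ring

def U (b : ℂ → ℂ) (ε : ℝ) (p : ℝ × ℝ) : ℝ :=
  (1 / 2) * (Real.log (1 + ε ^ 2) - Real.log (‖hp b p‖ ^ 2 + ε ^ 2))

theorem dlog {f : ℝ → ℝ} {f' x c ε : ℝ} (hε : 0 < ε) (hf0 : 0 ≤ f x) (hf : HasDerivAt f f' x) :
    HasDerivAt (fun t => (1 / 2) * (c - Real.log (f t + ε ^ 2))) (-(1 / 2) * (f' / (f x + ε ^ 2))) x := by
  have h1 : f x + ε ^ 2 ≠ 0 := by positivity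
  have h2 := (((hf.add_const (ε ^ 2)).log h1).const_sub c).const_mul (1 / 2)
  refine h2.congr_deriv ?_
  ring

theorem dlog2 {f g : ℝ → ℝ} {f' g' x ε : ℝ} (hε : 0 < ε) (hf0 : 0 ≤ f x) (hf : HasDerivAt f f' x)
    (hg : HasDerivAt g g' x) :
    HasDerivAt (fun t => -(1 / 2) * (g t / (f t + ε ^ 2)))
      (-(1 / 2) * ((g' * (f x + ε ^ 2) - g x * f') / (f x + ε ^ 2) ^ 2)) x := by
  have h1 : f x + ε ^ 2 ≠ 0 := by positivity
  exact (hg.fun_div (hf.add_const (ε ^ 2)) h1).const_mul _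

end HallBaux

/-- **(HallB)** Good vertical segments for a bounded analytic function `b`.
`0 < σ < σ₁ < log ρ`, `σ₁ ≤ h`, `z₀ = (x₀,y₀)` with `h/2 ≤ y₀ ≤ 2h`, `|b(z₀)| ≥ 2δ`, `x₀ ∈ [u,v]`, `v-u ≤ h/4`,
`0 < ε < 1/3`.  The set of `x ∈ [u,v]` such that the segment `{x} × [-σ,2h]` meets `{|b| ≤ ε}` has measure
`≤ 2100 h log(1/δ)/(log(1/ε) - 1)`.

Proof: `Hall` for `U(x,y) = (1/2) log((1+ε²)/(|b|²+ε²))` at `(x, y-σ₁)` (half plane `y ≥ 0` after the shift by `σ₁`):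
`U` is smooth, `U ≥ 0` (`|b| ≤ 1`), `ΔU = -2ε²|b'|²/(|b|²+ε²)² ≤ 0`; on `|b| ≤ ε`:
`U ≥ (1/2)log((1+ε²)/(2ε²)) ≥ log(1/ε) - 1 > 0`; `U(z₀) ≤ (1/2) log((1+ε²)/(4δ²)) ≤ log(1/δ)`.
Shifted height of `z₀`: `y₀+σ₁ ∈ [h/2, 3h]`, `4(y₀+σ₁) ≥ 2h+σ₁`, `v-u ≤ h/4 ≤ y₀+σ₁`, `m = σ₁ - σ`. -/
theorem HallB (δ ρ : ℝ) (hδ : 0 < δ) (hδ2 : δ ≤ 1 / 2) (hρ : 1 < ρ) (b : ℂ → ℂ)
    (hb : DifferentiableOn ℂ b (Metric.ball 0 ρ)) (hb1 : ∀ w ∈ Metric.ball (0 : ℂ) ρ, ‖b w‖ ≤ 1)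
    (σ σ₁ h ε : ℝ) (hσ : 0 < σ) (hσ₁ : σ < σ₁) (hσρ : σ₁ < Real.log ρ) (hσh : σ₁ ≤ h)
    (hε : 0 < ε) (hε1 : ε < 1 / 3) (z₀ : ℝ × ℝ) (hz1 : h / 2 ≤ z₀.2) (hz2 : z₀.2 ≤ 2 * h)
    (hbz : 2 * δ ≤ ‖hp b z₀‖) (u v : ℝ) (hu : u ≤ z₀.1) (hv : z₀.1 ≤ v) (huv : v - u ≤ h / 4) :
    volume {x : ℝ | x ∈ Set.Icc u v ∧ ∃ y ∈ Set.Icc (-σ) (2 * h), ‖hp b (x, y)‖ ≤ ε}
      ≤ ENNReal.ofReal (2100 * h * Real.log (1 / δ) / (Real.log (1 / ε) - 1)) := by
  have hP := OS_P2_nsq hρ hb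
  set n : ℝ × ℝ → ℝ := fun p => ‖hp b p‖ ^ 2 with hn
  set nx : ℝ × ℝ → ℝ := fun p => 2 * inner ℝ (hp b p) (hp (Dz b) p) with hnx
  set nxx : ℝ × ℝ → ℝ := fun p =>
    2 * (inner ℝ (hp b p) (hp (Dz (Dz b)) p) + inner ℝ (hp (Dz b) p) (hp (Dz b) p)) with hnxx
  set ny : ℝ × ℝ → ℝ := fun p => 2 * inner ℝ (hp b p) (Complex.I * hp (Dz b) p) with hny
  set nyy : ℝ × ℝ → ℝ := fun p => 2 * (inner ℝ (hp b p) (Complex.I * (Complex.I * hp (Dz (Dz b)) p))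
        + inner ℝ (Complex.I * hp (Dz b) p) (Complex.I * hp (Dz b) p)) with hnyy
  have n0 : ∀ p, 0 ≤ n p := fun p => by positivity
  have hlapA : ∀ p, nxx p + nyy p = 4 * ‖hp (Dz b) p‖ ^ 2 := fun p => OS_lap_nsq b p
  have hgrA : ∀ p, nx p ^ 2 + ny p ^ 2 = 4 * n p * ‖hp (Dz b) p‖ ^ 2 := fun p =>
    HallBaux.grad_sq (hp b p) (hp (Dz b) p)
  clear_value nx nxx ny nyy
  set sh : ℝ × ℝ → ℝ × ℝ := fun p => (p.1, p.2 - σ₁) with hsh
  have hdom : ∀ p : ℝ × ℝ, -(Real.log ρ - σ₁) < p.2 → -Real.log ρ < (sh p).2 := by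
    intro p hp
    simp only [hsh]
    linarith
  have hh : 0 < h := by linarith
  have hL : 0 < Real.log (1 / ε) - 1 := by
    have h1 : (3 : ℝ) ≤ 1 / ε := by
      rw [le_div_iff₀ hε]; linarith
    have h2 : Real.exp 1 < 3 := by have := Real.exp_one_lt_d9; linarith
    have h3 : (1 : ℝ) < Real.log (1 / ε) := by
      rw [Real.lt_log_iff_exp_lt (by positivity)]
      linarith
    linarith
  have hH := Hall (Real.log ρ - σ₁) (by linarith) (fun p => HallBaux.U b ε (sh p))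
    (fun p => -(1 / 2) * (nx (sh p) / (n (sh p) + ε ^ 2)))
    (fun p => -(1 / 2) * ((nxx (sh p) * (n (sh p) + ε ^ 2) - nx (sh p) * nx (sh p)) /
      (n (sh p) + ε ^ 2) ^ 2))
    (fun p => -(1 / 2) * (ny (sh p) / (n (sh p) + ε ^ 2)))
    (fun p => -(1 / 2) * ((nyy (sh p) * (n (sh p) + ε ^ 2) - ny (sh p) * ny (sh p)) /
      (n (sh p) + ε ^ 2) ^ 2))
    (fun p hp => HallBaux.dlog (f := fun x => n (x, (sh p).2)) hε (n0 _) (hP.dx (sh p) (hdom p hp)))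
    (fun p hp => HallBaux.dlog2 (f := fun x => n (x, (sh p).2)) (g := fun x => nx (x, (sh p).2)) hε
      (n0 _) (hP.dx (sh p) (hdom p hp)) (hP.dxx (sh p) (hdom p hp)))
    (fun p hp => ?_) (fun p hp => ?_) ?_ (fun p hp0 => ?_) (fun p hp0 => ?_)
    (z₀.1, z₀.2 + σ₁) (by simp only; linarith) u v hu hv (by simp only; linarith)
    (σ₁ - σ) (Real.log (1 / ε) - 1) (by linarith) hL
  · have hz : sh (z₀.1, z₀.2 + σ₁) = z₀ := by
      simp only [hsh]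
      ext
      · rfl
      · simp
    refine (measure_mono ?_).trans (hH.trans (ENNReal.ofReal_le_ofReal ?_))
    · rintro x ⟨hx, y, hy, hbe⟩
      refine ⟨hx, y + σ₁, ⟨by linarith [hy.1], ?_⟩, ?_⟩
      · simp only
        linarith [hy.2]
      · simp only [HallBaux.U, hsh]
        have e1 : (x, y + σ₁ - σ₁) = (x, y) := by simp
        rw [e1]
        have e2 : ‖hp b (x, y)‖ ^ 2 ≤ ε ^ 2 := pow_le_pow_left₀ (norm_nonneg _) hbe 2
        have e3 : Real.log (‖hp b (x, y)‖ ^ 2 + ε ^ 2) ≤ Real.log (2 * ε ^ 2) :=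
          Real.log_le_log (by positivity) (by linarith)
        have e4 : 0 ≤ Real.log (1 + ε ^ 2) := Real.log_nonneg (by nlinarith)
        have e5 : Real.log (2 * ε ^ 2) = Real.log 2 + 2 * Real.log ε := by
          rw [Real.log_mul (by norm_num) (by positivity), Real.log_pow]
          push_cast; ring
        have e6 : Real.log (1 / ε) = -Real.log ε := by rw [one_div, Real.log_inv]
        have e7 : Real.log 2 < 1 := by have := Real.log_two_lt_d9; linarith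
        rw [e6]
        linarith
    · simp only
      rw [hz]
      have hU0 : HallBaux.U b ε z₀ ≤ Real.log (1 / δ) := by
        unfold HallBaux.U
        have e1 : (2 * δ) ^ 2 ≤ ‖hp b z₀‖ ^ 2 := pow_le_pow_left₀ (by positivity) hbz 2
        have e2 : Real.log ((2 * δ) ^ 2 + ε ^ 2) ≤ Real.log (‖hp b z₀‖ ^ 2 + ε ^ 2) :=
          Real.log_le_log (by positivity) (by linarith)
        have e3 : Real.log (δ ^ 2 * (1 + ε ^ 2)) ≤ Real.log ((2 * δ) ^ 2 + ε ^ 2) := by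
          apply Real.log_le_log (by positivity)
          nlinarith [mul_nonneg hδ.le hε.le, sq_nonneg δ, sq_nonneg ε, mul_self_nonneg (δ * ε),
            mul_le_mul hδ2 hδ2 hδ.le (by norm_num)]
        have e4 : Real.log (δ ^ 2 * (1 + ε ^ 2)) = 2 * Real.log δ + Real.log (1 + ε ^ 2) := by
          rw [Real.log_mul (by positivity) (by positivity), Real.log_pow]
          push_cast; ring
        have e5 : Real.log (1 / δ) = -Real.log δ := by rw [one_div, Real.log_inv]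
        rw [e5]
        linarith
      have hl0 : 0 ≤ Real.log (1 / δ) := by
        apply Real.log_nonneg
        rw [le_div_iff₀ hδ]; linarith
      apply div_le_div_of_nonneg_right _ hL.le
      have h3 : z₀.2 + σ₁ ≤ 3 * h := by linarith
      calc 700 * (z₀.2 + σ₁) * HallBaux.U b ε z₀ ≤ 700 * (z₀.2 + σ₁) * Real.log (1 / δ) :=
            mul_le_mul_of_nonneg_left hU0 (by linarith)
        _ ≤ 700 * (3 * h) * Real.log (1 / δ) := by
            apply mul_le_mul_of_nonneg_right _ hl0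
            linarith
        _ = _ := by ring
  · have h1 := HallBaux.dlog (f := fun y => n ((sh p).1, y)) (c := Real.log (1 + ε ^ 2)) hε (n0 _)
      (hP.dy (sh p) (hdom p hp))
    exact h1.comp_sub_const p.2 σ₁
  · have h1 := HallBaux.dlog2 (f := fun y => n ((sh p).1, y)) (g := fun y => ny ((sh p).1, y)) hε
      (n0 _) (hP.dy (sh p) (hdom p hp)) (hP.dyy (sh p) (hdom p hp))
    exact h1.comp_sub_const p.2 σ₁
  · have h1 : ContinuousOn (HallBaux.U b ε) {p | -Real.log ρ < p.2} := by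
      unfold HallBaux.U
      refine continuousOn_const.mul (continuousOn_const.sub (ContinuousOn.log ?_ ?_))
      · exact hP.c.add continuousOn_const
      · intro p _
        have := n0 p
        positivity
    exact h1.comp (by fun_prop) fun p hp => hdom p hp
  · unfold HallBaux.U
    have hmem : ‖hp b (sh p)‖ ≤ 1 := by
      apply hb1
      apply E_mem_ball (by linarith)
      exact hdom p (by linarith)
    have h1 : ‖hp b (sh p)‖ ^ 2 ≤ 1 := pow_le_one₀ (norm_nonneg _) hmem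
    have h2 : Real.log (‖hp b (sh p)‖ ^ 2 + ε ^ 2) ≤ Real.log (1 + ε ^ 2) :=
      Real.log_le_log (by positivity) (by linarith)
    linarith
  · have hl : nxx (sh p) + nyy (sh p) = 4 * ‖hp (Dz b) (sh p)‖ ^ 2 := hlapA _
    have hg : nx (sh p) ^ 2 + ny (sh p) ^ 2 = 4 * n (sh p) * ‖hp (Dz b) (sh p)‖ ^ 2 := hgrA _
    have hn0 := n0 (sh p)
    have hpos : 0 < n (sh p) + ε ^ 2 := by positivity
    have e : -(1 / 2) * ((nxx (sh p) * (n (sh p) + ε ^ 2) - nx (sh p) * nx (sh p)) /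
      (n (sh p) + ε ^ 2) ^ 2) + -(1 / 2) * ((nyy (sh p) * (n (sh p) + ε ^ 2) - ny (sh p) * ny (sh p)) /
      (n (sh p) + ε ^ 2) ^ 2) = -((1 / 2) * (((nxx (sh p) + nyy (sh p)) * (n (sh p) + ε ^ 2) -
        (nx (sh p) ^ 2 + ny (sh p) ^ 2)) / (n (sh p) + ε ^ 2) ^ 2)) := by ring
    rw [e, hl, hg]
    have e2 : 4 * ‖hp (Dz b) (sh p)‖ ^ 2 * (n (sh p) + ε ^ 2) -
      4 * n (sh p) * ‖hp (Dz b) (sh p)‖ ^ 2 = 4 * ‖hp (Dz b) (sh p)‖ ^ 2 * ε ^ 2 := by ring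
    rw [e2]
    have : 0 ≤ 1 / 2 * (4 * ‖hp (Dz b) (sh p)‖ ^ 2 * ε ^ 2 / (n (sh p) + ε ^ 2) ^ 2) := by positivity
    linarith

end Pool.H14.SR
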