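import Pool.Agent.H14.SR.Basic

open MeasureTheory Set Filter Topology
noncomputable section
namespace Pool.H14.SR

namespace OBaux

theorem cont_of_all {u : ℝ × ℝ → ℝ} (h : ∀ σ : ℝ, ContinuousOn u {p | -σ < p.2}) :
    Continuous u := by
  rw [continuous_iff_continuousAt]
  intro p
  have ho : IsOpen {q : ℝ × ℝ | -(1 - p.2) < q.2} := isOpen_lt continuous_const continuous_snd
  exact (h (1 - p.2)).continuousAt (ho.mem_nhds (by simp))

/-- periodization -/
def per (g : ℝ → ℝ) (x : ℝ) : ℝ := g (x - 2 * Real.pi * (⌊x / (2 * Real.pi)⌋ : ℤ))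

theorem per_add (g : ℝ → ℝ) (x : ℝ) : per g (x + 2 * Real.pi) = per g x := by
  unfold per
  have hpi := Real.pi_pos
  have h : (x + 2 * Real.pi) / (2 * Real.pi) = x / (2 * Real.pi) + 1 := by field_simp
  rw [h, Int.floor_add_one]
  push_cast
  congr 1
  ring

theorem per_eq (g : ℝ → ℝ) {x : ℝ} (h0 : 0 ≤ x) (h1 : x < 2 * Real.pi) : per g x = g x := by
  unfold per
  have hpi := Real.pi_pos
  have : ⌊x / (2 * Real.pi)⌋ = 0 := by
    rw [Int.floor_eq_zero_iff]
    constructor
    · positivity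
    · rw [div_lt_one (by positivity)]; exact h1
  rw [this]; simp

theorem per_eq' (g : ℝ → ℝ) (hz : g 0 = 0) (hz' : g (2 * Real.pi) = 0) {x : ℝ} (h0 : 0 ≤ x)
    (h1 : x ≤ 2 * Real.pi) : per g x = g x := by
  rcases h1.lt_or_eq with h | h
  · exact per_eq g h0 h
  · have := per_add g 0
    rw [zero_add] at this
    rw [h, this, per_eq g le_rfl (by positivity), hz, hz']

theorem per_local {a b : ℝ} (ha : 0 < a) (hb : b < 2 * Real.pi) (x : ℝ) :
    ∃ k : ℤ, ∀ᶠ x' in 𝓝 x, ∀ g : ℝ → ℝ, (∀ t, t ∉ Icc a b → g t = 0) →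
      per g x' = g (x' - 2 * Real.pi * k) := by
  have hpi := Real.pi_pos
  have h2 : 0 < 2 * Real.pi := by positivity
  refine ⟨⌊x / (2 * Real.pi)⌋, ?_⟩
  set k := ⌊x / (2 * Real.pi)⌋ with hk
  have hk1 : (k : ℝ) ≤ x / (2 * Real.pi) := Int.floor_le _
  have hk2 : x / (2 * Real.pi) < k + 1 := Int.lt_floor_add_one _
  rw [le_div_iff₀ h2] at hk1
  rw [div_lt_iff₀ h2] at hk2
  have hfl : ∀ x' : ℝ, 2 * Real.pi * k ≤ x' → x' < 2 * Real.pi * (k + 1) →
      ⌊x' / (2 * Real.pi)⌋ = k := by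
    intro x' h3 h4
    rw [Int.floor_eq_iff, le_div_iff₀ h2, div_lt_iff₀ h2]
    constructor <;> linarith
  rcases hk1.lt_or_eq with h | h
  · have h3 : ∀ᶠ x' in 𝓝 x, 2 * Real.pi * k < x' := Ioi_mem_nhds (by linarith)
    have h4 : ∀ᶠ x' in 𝓝 x, x' < 2 * Real.pi * (k + 1) := Iio_mem_nhds (by linarith)
    filter_upwards [h3, h4] with x' h5 h6 g _
    unfold per
    rw [hfl x' h5.le h6]
  · set d := min (min a (2 * Real.pi - b)) (2 * Real.pi) with hd
    have hd0 : 0 < d := lt_min (lt_min ha (by linarith)) h2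
    have hd1 : d ≤ a := (min_le_left _ _).trans (min_le_left _ _)
    have hd2 : d ≤ 2 * Real.pi - b := (min_le_left _ _).trans (min_le_right _ _)
    have hd3 : d ≤ 2 * Real.pi := min_le_right _ _
    have h3 : ∀ᶠ x' in 𝓝 x, x - d < x' := Ioi_mem_nhds (by linarith)
    have h4 : ∀ᶠ x' in 𝓝 x, x' < x + d := Iio_mem_nhds (by linarith)
    filter_upwards [h3, h4] with x' h5 h6 g hg
    unfold per
    by_cases h7 : x ≤ x'
    · rw [hfl x' (by linarith) (by linarith)]
    · push Not at h7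
      have h8 : ⌊x' / (2 * Real.pi)⌋ = k - 1 := by
        rw [Int.floor_eq_iff, le_div_iff₀ h2, div_lt_iff₀ h2]
        push_cast
        constructor <;> linarith
      rw [h8]
      push_cast
      rw [hg, hg]
      · intro h9; linarith [h9.1]
      · intro h9; linarith [h9.2]

theorem per_hasDeriv {a b : ℝ} (ha : 0 < a) (hb : b < 2 * Real.pi) {g g' : ℝ → ℝ}
    (hd : ∀ x, HasDerivAt g (g' x) x) (hz : ∀ t, t ∉ Icc a b → g t = 0)
    (hz' : ∀ t, t ∉ Icc a b → g' t = 0) (x : ℝ) : HasDerivAt (per g) (per g' x) x := by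
  obtain ⟨k, hk⟩ := per_local ha hb x
  rw [hk.self_of_nhds g' hz']
  have h1 : HasDerivAt (fun x' => g (x' - 2 * Real.pi * k)) (g' (x - 2 * Real.pi * k)) x :=
    (hd _).comp_sub_const _ _
  refine h1.congr_of_eventuallyEq ?_
  filter_upwards [hk] with x' hx' using hx' g hz

theorem per_cont {a b : ℝ} (ha : 0 < a) (hb : b < 2 * Real.pi) {g : ℝ → ℝ}
    (hc : Continuous g) (hz : ∀ t, t ∉ Icc a b → g t = 0) : Continuous (per g) := by
  rw [continuous_iff_continuousAt]
  intro x
  obtain ⟨k, hk⟩ := per_local ha hb x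
  have h1 : ContinuousAt (fun x' => g (x' - 2 * Real.pi * k)) x := by fun_prop
  refine h1.congr ?_
  filter_upwards [hk] with x' hx' using (hx' g hz).symm

theorem bump (s : ℝ) (hs : 0 < s) (c : ℝ) (U : Set ℝ) (hU : IsOpen U)
    (hv : ENNReal.ofReal (3 / 4 * s) ≤ volume (U ∩ Ioo c (c + s))) :
    ∃ g g' : ℝ → ℝ, (∀ x, HasDerivAt g (g' x) x) ∧ Continuous g' ∧ (∀ x, 0 ≤ g x) ∧
      (∀ x, g x ≤ 2 / s) ∧
      (∃ a b : ℝ, c < a ∧ b < c + s ∧ ∀ x, x ∉ Icc a b → g x = 0 ∧ g' x = 0) ∧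
      (∀ x, g x ≠ 0 → x ∈ U) ∧ ∫ x in c..(c + s), g x = 1 := by
  have hW : IsOpen (U ∩ Ioo c (c + s)) := hU.inter isOpen_Ioo
  have hr : ENNReal.ofReal (s / 2) < volume (U ∩ Ioo c (c + s)) := by
    refine lt_of_lt_of_le ?_ hv
    rw [ENNReal.ofReal_lt_ofReal_iff (by positivity)]
    linarith
  obtain ⟨K, hKW, hK, hKr⟩ := hW.exists_lt_isCompact hr
  obtain ⟨V, hVo, hKV, hVW, hVc⟩ := exists_open_between_and_isCompact_closure hK hW hKW
  obtain ⟨f, hf0, hf1, hf⟩ := exists_contMDiffMap_zero_one_of_isClosed (n := ⊤)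
    (modelWithCornersSelf ℝ ℝ) (s := Vᶜ) (t := K) hVo.isClosed_compl hK.isClosed
    (disjoint_left.2 fun x hx hxK => hx (hKV hxK))
  have hfs : ContDiff ℝ 1 (f : ℝ → ℝ) := by
    have := f.contMDiff.contDiff
    exact this.of_le (by simp)
  have hfd : ∀ x, HasDerivAt (f : ℝ → ℝ) (deriv f x) x := fun x =>
    ((hfs.differentiable (by simp)) x).hasDerivAt
  have hfc : Continuous (f : ℝ → ℝ) := hfs.continuous
  have hfc' : Continuous (deriv (f : ℝ → ℝ)) := hfs.continuous_deriv (by simp)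
  have hfz : ∀ x, x ∉ closure V → f x = 0 := fun x hx => hf0 (fun h => hx (subset_closure h))
  have hfz' : ∀ x, x ∉ closure V → deriv f x = 0 := by
    intro x hx
    have : (f : ℝ → ℝ) =ᶠ[𝓝 x] fun _ => 0 := by
      filter_upwards [isClosed_closure.isOpen_compl.mem_nhds hx] with y hy using hfz y hy
    rw [this.deriv_eq]; simp
  have hKne : K.Nonempty := by
    rcases K.eq_empty_or_nonempty with h | h
    · rw [h] at hKr; simp at hKr
    · exact h
  have hVne : (closure V).Nonempty := hKne.mono (hKV.trans subset_closure)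
  have ha := hVW (hVc.sInf_mem hVne)
  have hb := hVW (hVc.sSup_mem hVne)
  set I := ∫ x in c..(c + s), f x with hI
  have hI2 : s / 2 ≤ I := by
    rw [hI, intervalIntegral.integral_of_le (by linarith)]
    have h1 : ∫ x in K, f x ≤ ∫ x in Ioc c (c + s), f x := by
      apply setIntegral_mono_set
      · exact (hfc.integrableOn_Icc (a := c) (b := c + s)).mono_set Ioc_subset_Icc_self
      · exact ae_of_all _ fun x => (hf x).1
      · apply LE.le.eventuallyLE
        exact hKW.trans (inter_subset_right.trans Ioo_subset_Ioc_self)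
    have h2 : ∫ x in K, f x = ∫ x in K, (1 : ℝ) :=
      setIntegral_congr_fun hK.measurableSet (fun x hx => hf1 hx)
    rw [h2] at h1
    simp only [integral_const, MeasurableSet.univ, measureReal_restrict_apply, univ_inter,
      smul_eq_mul, mul_one] at h1
    refine le_trans ?_ h1
    rw [measureReal_def]
    have h3 : volume K ≠ ⊤ := hK.measure_ne_top
    rw [← ENNReal.ofReal_le_iff_le_toReal h3]
    exact hKr.le
  have hI0 : 0 < I := by linarith [hs]
  refine ⟨fun x => f x / I, fun x => deriv f x / I, fun x => (hfd x).div_const _,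
    hfc'.div_const _, fun x => div_nonneg (hf x).1 hI0.le, fun x => ?_,
    ⟨sInf (closure V), sSup (closure V), ha.2.1, hb.2.2, fun x hx => ?_⟩, fun x hx => ?_, ?_⟩
  · rw [div_le_div_iff₀ hI0 hs]
    nlinarith [(hf x).2]
  · have hx' : x ∉ closure V := fun h => hx ⟨csInf_le hVc.bddBelow h, le_csSup hVc.bddAbove h⟩
    simp [hfz x hx', hfz' x hx']
  · by_contra hxU
    apply hx
    have : x ∉ closure V := fun h => hxU (hVW h).1
    simp [hfz x this]
  · rw [intervalIntegral.integral_div, ← hI, div_self hI0.ne']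

theorem param_deriv {u uy : ℝ × ℝ → ℝ} (hu : Continuous u) (huy : Continuous uy)
    (hd : ∀ p : ℝ × ℝ, HasDerivAt (fun y => u (p.1, y)) (uy p) p.2) (a b y : ℝ) :
    HasDerivAt (fun y => ∫ t in a..b, u (t, y)) (∫ t in a..b, uy (t, y)) y := by
  obtain ⟨C, hC⟩ := (isCompact_uIcc.prod (isCompact_Icc : IsCompact (Icc (y - 1) (y + 1)))).exists_bound_of_continuousOn
    (f := uy) (s := uIcc a b ×ˢ Icc (y - 1) (y + 1)) huy.continuousOn
  refine (intervalIntegral.hasDerivAt_integral_of_dominated_loc_of_deriv_le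
    (F := fun y t => u (t, y)) (F' := fun y t => uy (t, y)) (bound := fun _ => C)
    (s := Icc (y - 1) (y + 1)) (Icc_mem_nhds (by linarith) (by linarith)) ?_ ?_ ?_ ?_ ?_ ?_).2
  · exact Eventually.of_forall fun x =>
      (hu.comp (continuous_id.prodMk continuous_const)).aestronglyMeasurable
  · exact (hu.comp (continuous_id.prodMk continuous_const)).intervalIntegrable _ _
  · exact (huy.comp (continuous_id.prodMk continuous_const)).aestronglyMeasurable
  · exact ae_of_all _ fun t ht x hx => hC (t, x) ⟨uIoc_subset_uIcc ht, hx⟩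
  · exact intervalIntegrable_const
  · exact ae_of_all _ fun t _ x _ => hd (t, x)


theorem mk_C1 {u ux uy : ℝ × ℝ → ℝ}
    (dx : ∀ p : ℝ × ℝ, HasDerivAt (fun x : ℝ => u (x, p.2)) (ux p) p.1)
    (dy : ∀ p : ℝ × ℝ, HasDerivAt (fun y : ℝ => u (p.1, y)) (uy p) p.2)
    (c : Continuous u) (cx : Continuous ux) (cy : Continuous uy)
    (per : ∀ p : ℝ × ℝ, u (p.1 + 2 * Real.pi, p.2) = u p) (σ : ℝ) : C1 σ u ux uy where
  dx := fun p _ => dx p
  dy := fun p _ => dy p
  c := c.continuousOn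
  cx := cx.continuousOn
  cy := cy.continuousOn
  per := fun p _ => per p

/-- everything on `[0,2π)` first -/
theorem core (N : ℕ) (hN : 1 ≤ N) (s : ℝ) (hs : s = 2 * Real.pi / N) (m my : ℝ × ℝ → ℝ)
    (cm : Continuous m) (cmy : Continuous my)
    (dmy : ∀ p : ℝ × ℝ, HasDerivAt (fun y : ℝ => m (p.1, y)) (my p) p.2)
    (pm : ∀ p : ℝ × ℝ, m (p.1 + 2 * Real.pi, p.2) = m p) (m0 : ∀ p, 0 ≤ m p) (y1 y2 : ℝ)
    (hsupp : ∀ p : ℝ × ℝ, m p ≠ 0 → y1 ≤ p.2 ∧ p.2 ≤ y2)
    (Good : Set ℝ) (hGo : IsOpen Good)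
    (hG : ∀ l : ℤ, (∃ p : ℝ × ℝ, l * s ≤ p.1 ∧ p.1 < (l + 1) * s ∧ m p ≠ 0) →
      ENNReal.ofReal (3 / 4 * s) ≤ volume (Good ∩ Set.Ioo (l * s) ((l + 1) * s))) :
    ∃ X1 X1x X1y X2 X2x X2y : ℝ × ℝ → ℝ,
      (∀ σ : ℝ, C1 σ X1 X1x X1y) ∧ (∀ σ : ℝ, C1 σ X2 X2x X2y) ∧
      (∀ p, X1x p - X2y p = m p) ∧
      (∀ x y : ℝ, 0 ≤ x → x < 2 * Real.pi →
        (|X1 (x, y)| ≤ ∫ t in Set.Icc (x - s) (x + s), m (t, y)) ∧
        (0 ≤ X2 (x, y) ∧
          X2 (x, y) ≤ 2 / s * ∫ t in Set.Icc (x - s) (x + s), ∫ y in Set.Ioi y, m (t, y)) ∧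
        (X1 (x, y) ≠ 0 → ∃ t : ℝ, |t - x| ≤ s ∧ m (t, y) ≠ 0) ∧
        (X2 (x, y) ≠ 0 → x ∈ Good ∧ y ≤ y2)) := by
  classical
  have hpi := Real.pi_pos
  have hNr : (0 : ℝ) < N := by exact_mod_cast hN
  have hs0 : 0 < s := by rw [hs]; positivity
  have hNs : (N : ℝ) * s = 2 * Real.pi := by rw [hs]; field_simp
  set M : ℕ → ℝ → ℝ := fun l y => ∫ t in ((l : ℝ) * s)..((l : ℝ) * s + s), m (t, y) with hM
  set M' : ℕ → ℝ → ℝ := fun l y => ∫ t in ((l : ℝ) * s)..((l : ℝ) * s + s), my (t, y) with hM'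
  have cmt : ∀ y, Continuous fun t => m (t, y) := fun y =>
    cm.comp (continuous_id.prodMk continuous_const)
  have cMM : ∀ l, Continuous (M l) := by
    intro l
    have : Continuous (Function.uncurry fun (y t : ℝ) => m (t, y)) :=
      cm.comp (continuous_snd.prodMk continuous_fst)
    exact intervalIntegral.continuous_parametric_intervalIntegral_of_continuous' this _ _
  have cMM' : ∀ l, Continuous (M' l) := by
    intro l
    have : Continuous (Function.uncurry fun (y t : ℝ) => my (t, y)) :=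
      cmy.comp (continuous_snd.prodMk continuous_fst)
    exact intervalIntegral.continuous_parametric_intervalIntegral_of_continuous' this _ _
  have dM : ∀ l y, HasDerivAt (M l) (M' l y) y := fun l y => param_deriv cm cmy dmy _ _ y
  have M0 : ∀ l y, 0 ≤ M l y := fun l y =>
    intervalIntegral.integral_nonneg (by linarith) fun t _ => m0 _
  -- the bumps
  have hb : ∀ l : ℕ, ∃ g g' : ℝ → ℝ, (∀ x, HasDerivAt g (g' x) x) ∧ Continuous g' ∧
      (∀ x, 0 ≤ g x) ∧ (∀ x, g x ≤ 2 / s) ∧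
      (∃ a b : ℝ, (l : ℝ) * s < a ∧ b < (l : ℝ) * s + s ∧ ∀ x, x ∉ Icc a b → g x = 0 ∧ g' x = 0) ∧
      (∀ x, g x ≠ 0 → x ∈ Good) ∧ ∀ y, M l y * ∫ x in ((l : ℝ) * s)..((l : ℝ) * s + s), g x = M l y := by
    intro l
    by_cases hact : ∃ p : ℝ × ℝ, (l : ℝ) * s ≤ p.1 ∧ p.1 < (l + 1) * s ∧ m p ≠ 0
    · have h1 := hG (l : ℤ) (by simpa using hact)
      have h2 : ((l : ℝ) + 1) * s = (l : ℝ) * s + s := by ring
      simp only [Int.cast_natCast] at h1
      rw [h2] at h1
      obtain ⟨g, g', a1, a2, a3, a4, a5, a6, a7⟩ := bump s hs0 _ Good hGo h1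
      exact ⟨g, g', a1, a2, a3, a4, a5, a6, fun y => by rw [a7, mul_one]⟩
    · push Not at hact
      refine ⟨fun _ => 0, fun _ => 0, fun x => hasDerivAt_const _ _, continuous_const,
        fun _ => le_rfl, fun _ => by positivity, ⟨(l : ℝ) * s + s, (l : ℝ) * s, by linarith,
          by linarith, fun _ _ => ⟨rfl, rfl⟩⟩, fun x h => absurd rfl h, fun y => ?_⟩
      have : M l y = 0 := by
        simp only [hM]
        rw [intervalIntegral.integral_of_le (by linarith), ← integral_Ico_eq_integral_Ioc]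
        rw [setIntegral_congr_fun (g := fun _ => (0 : ℝ)) measurableSet_Ico]
        · simp
        · intro t ht
          exact hact (t, y) ht.1 (by simpa [add_mul] using ht.2)
      rw [this, zero_mul]
  choose g g' dg cg' g0 gle hab gG gI using hb
  choose a b ha hbb hz using hab
  have cg : ∀ l, Continuous (g l) := fun l =>
    continuous_iff_continuousAt.2 fun x => (dg l x).continuousAt
  have hla : ∀ l : ℕ, 0 < a l := fun l => lt_of_le_of_lt (by positivity) (ha l)
  have hlN : ∀ l : ℕ, l < N → (l : ℝ) * s + s ≤ 2 * Real.pi := by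
    intro l hl
    have : (l : ℝ) + 1 ≤ N := by exact_mod_cast hl
    nlinarith
  have hlb : ∀ l : ℕ, l < N → b l < 2 * Real.pi := fun l hl => lt_of_lt_of_le (hbb l) (hlN l hl)
  have gz : ∀ (l : ℕ) (t : ℝ), t ≤ (l : ℝ) * s → g l t = 0 := fun l t ht =>
    (hz l t fun h => by linarith [h.1, ha l]).1
  have gz2 : ∀ (l : ℕ) (t : ℝ), (l : ℝ) * s + s ≤ t → g l t = 0 := fun l t ht =>
    (hz l t fun h => by linarith [h.2, hbb l]).1
  have hzg : ∀ l t, t ∉ Icc (a l) (b l) → g l t = 0 := fun l t ht => (hz l t ht).1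
  have hzg' : ∀ l t, t ∉ Icc (a l) (b l) → g' l t = 0 := fun l t ht => (hz l t ht).2
  set R := Finset.range N with hR
  have mR : ∀ l, l ∈ R → l < N := fun l hl => Finset.mem_range.1 hl
  set Y := max y2 0 with hY
  set T : ℕ → ℝ → ℝ := fun l y => -∫ σ in Y..y, M l σ with hT
  have dT : ∀ l y, HasDerivAt (T l) (-(M l y)) y := fun l y =>
    (intervalIntegral.integral_hasDerivAt_right ((cMM l).intervalIntegrable _ _)
      ((cMM l).stronglyMeasurableAtFilter _ _) (cMM l).continuousAt).neg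
  have cT : ∀ l, Continuous (T l) := fun l =>
    continuous_iff_continuousAt.2 fun y => (dT l y).continuousAt
  set f : ℝ × ℝ → ℝ := fun p => m p - ∑ l ∈ R, M l p.2 * per (g l) p.1 with hf
  set fy : ℝ × ℝ → ℝ := fun p => my p - ∑ l ∈ R, M' l p.2 * per (g l) p.1 with hfy
  have cper : ∀ l ∈ R, Continuous (per (g l)) := fun l hl =>
    per_cont (hla l) (hlb l (mR l hl)) (cg l) (hzg l)
  have cper' : ∀ l ∈ R, Continuous (per (g' l)) := fun l hl =>
    per_cont (hla l) (hlb l (mR l hl)) (cg' l) (hzg' l)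
  have cf : Continuous f := by
    refine cm.sub (continuous_finsetSum _ fun l hl => ?_)
    exact ((cMM l).comp continuous_snd).mul ((cper l hl).comp continuous_fst)
  have cfy : Continuous fy := by
    refine cmy.sub (continuous_finsetSum _ fun l hl => ?_)
    exact ((cMM' l).comp continuous_snd).mul ((cper l hl).comp continuous_fst)
  have dfy : ∀ p : ℝ × ℝ, HasDerivAt (fun y => f (p.1, y)) (fy p) p.2 := by
    intro p
    refine (dmy p).sub (HasDerivAt.fun_sum fun l _ => ?_)
    exact (dM l p.2).mul_const (per (g l) p.1)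
  -- f on [0,2π]
  have f_on : ∀ l : ℕ, l < N → ∀ t y : ℝ, (l : ℝ) * s ≤ t → t ≤ (l : ℝ) * s + s →
      ∀ c : ℕ → ℝ, ∑ l' ∈ R, c l' * per (g l') t = c l * g l t := by
    intro l hl t y h1 h2 c
    have h3 : 0 ≤ t := le_trans (by positivity) h1
    have h4 : t ≤ 2 * Real.pi := h2.trans (hlN l hl)
    have h5 : ∀ l' ∈ R, per (g l') t = g l' t := fun l' hl' =>
      per_eq' _ (gz l' 0 (by positivity)) (gz2 l' _ (hlN l' (mR l' hl'))) h3 h4
    rw [Finset.sum_congr rfl fun l' hl' => by rw [h5 l' hl'], Finset.sum_eq_single l]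
    · intro l' _ hne
      rcases lt_or_gt_of_ne hne with h | h
      · have : (l' : ℝ) + 1 ≤ l := by exact_mod_cast h
        rw [gz2 l' t (by nlinarith), mul_zero]
      · have : (l : ℝ) + 1 ≤ l' := by exact_mod_cast h
        rw [gz l' t (by nlinarith), mul_zero]
    · intro h; exact absurd (Finset.mem_range.2 hl) h
  have f_on' : ∀ l : ℕ, l < N → ∀ t y : ℝ, (l : ℝ) * s ≤ t → t ≤ (l : ℝ) * s + s →
      f (t, y) = m (t, y) - M l y * g l t := by
    intro l hl t y h1 h2
    simp only [hf]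
    rw [f_on l hl t y h1 h2 (fun l => M l y)]
  have cfi : ∀ y, Continuous fun t => f (t, y) := fun y =>
    cf.comp (continuous_id.prodMk continuous_const)
  have piece : ∀ l : ℕ, l < N → ∀ x y : ℝ, (l : ℝ) * s ≤ x → x ≤ (l : ℝ) * s + s →
      ∫ t in ((l : ℝ) * s)..x, f (t, y) =
        (∫ t in ((l : ℝ) * s)..x, m (t, y)) - M l y * ∫ t in ((l : ℝ) * s)..x, g l t := by
    intro l hl x y h1 h2
    rw [← intervalIntegral.integral_const_mul, ← intervalIntegral.integral_sub
      ((cmt y).intervalIntegrable _ _) (((cg l).const_mul _).intervalIntegrable _ _)]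
    apply intervalIntegral.integral_congr
    intro t ht
    rw [uIcc_of_le h1] at ht
    exact f_on' l hl t y ht.1 (ht.2.trans h2)
  have full : ∀ l : ℕ, l < N → ∀ y : ℝ, ∫ t in ((l : ℝ) * s)..((l : ℝ) * s + s), f (t, y) = 0 := by
    intro l hl y
    rw [piece l hl _ y (by linarith) le_rfl, gI l y]
    simp [hM]
  have pre : ∀ l : ℕ, l ≤ N → ∀ y : ℝ, ∫ t in (0 : ℝ)..((l : ℝ) * s), f (t, y) = 0 := by
    intro l
    induction l with
    | zero => intro _ y; simp
    | succ l ih =>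
      intro hl y
      have h1 := ih (by omega) y
      have h2 := full l (by omega) y
      have h3 : ((l + 1 : ℕ) : ℝ) * s = (l : ℝ) * s + s := by push_cast; ring
      rw [h3, ← intervalIntegral.integral_add_adjacent_intervals
        ((cfi y).intervalIntegrable 0 ((l : ℝ) * s)) ((cfi y).intervalIntegrable _ _), h1, h2,
        add_zero]
  have pf : ∀ p : ℝ × ℝ, f (p.1 + 2 * Real.pi, p.2) = f p := by
    intro p
    simp only [hf]
    rw [pm p]
    congr 1
    exact Finset.sum_congr rfl fun l _ => by rw [per_add]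
  have pfy : ∀ y, Function.Periodic (fun t => f (t, y)) (2 * Real.pi) := fun y t => pf (t, y)
  have hX1 : ∀ l : ℕ, l < N → ∀ x y : ℝ, (l : ℝ) * s ≤ x → x ≤ (l : ℝ) * s + s →
      ∫ t in (0 : ℝ)..x, f (t, y) =
        (∫ t in ((l : ℝ) * s)..x, m (t, y)) - M l y * ∫ t in ((l : ℝ) * s)..x, g l t := by
    intro l hl x y h1 h2
    rw [← piece l hl x y h1 h2, ← intervalIntegral.integral_add_adjacent_intervals
        ((cfi y).intervalIntegrable 0 ((l : ℝ) * s)) ((cfi y).intervalIntegrable _ _),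
        pre l hl.le y, zero_add]
  have hidx : ∀ x : ℝ, 0 ≤ x → x < 2 * Real.pi → ∃ l : ℕ, l < N ∧ (l : ℝ) * s ≤ x ∧
      x < (l : ℝ) * s + s := by
    intro x h0 h1
    have h2 := Nat.floor_le (div_nonneg h0 hs0.le)
    have h3 := Nat.lt_floor_add_one (x / s)
    rw [le_div_iff₀ hs0] at h2
    rw [div_lt_iff₀ hs0] at h3
    refine ⟨⌊x / s⌋₊, ?_, h2, by linarith⟩
    have h4 : (⌊x / s⌋₊ : ℝ) * s < N * s := by rw [hNs]; linarith
    exact_mod_cast lt_of_mul_lt_mul_right h4 hs0.le
  -- the half-line integral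
  have tail : ∀ l y, T l y = ∫ σ in y..(max y Y), M l σ := by
    intro l y
    simp only [hT]
    rcases le_total y Y with h | h
    · rw [max_eq_right h, intervalIntegral.integral_symm, neg_neg]
    · rw [max_eq_left h, intervalIntegral.integral_same, neg_eq_zero]
      rw [intervalIntegral.integral_of_le h, setIntegral_congr_fun (g := fun _ => (0 : ℝ)) measurableSet_Ioc]
      · simp
      · intro σ hσ
        simp only [hM]
        have : ∀ t, m (t, σ) = 0 := by
          intro t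
          by_contra hne
          have := (hsupp _ hne).2
          have h5 := le_max_left y2 0
          simp only at this
          linarith [hσ.1]
        simp [this]
  have T0 : ∀ l y, 0 ≤ T l y := by
    intro l y
    rw [tail]
    exact intervalIntegral.integral_nonneg (le_max_left _ _) fun σ _ => M0 l σ
  have hin : ∀ t y, ∫ σ in Ioi y, m (t, σ) = ∫ σ in y..(max y Y), m (t, σ) := by
    intro t y
    rw [intervalIntegral.integral_of_le (le_max_left _ _)]
    refine (setIntegral_eq_of_subset_of_forall_sdiff_eq_zero measurableSet_Ioi Ioc_subset_Ioi_self ?_)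
    intro σ hσ
    by_contra hne
    have h1 := (hsupp _ hne).2
    simp only at h1
    apply hσ.2
    exact ⟨hσ.1, h1.trans ((le_max_left y2 0).trans (le_max_right _ _))⟩
  refine ⟨fun p => ∫ t in (0 : ℝ)..p.1, f (t, p.2), f, fun p => ∫ t in (0 : ℝ)..p.1, fy (t, p.2),
    fun p => ∑ l ∈ R, per (g l) p.1 * T l p.2, fun p => ∑ l ∈ R, per (g' l) p.1 * T l p.2,
    fun p => ∑ l ∈ R, per (g l) p.1 * -(M l p.2), ?_, ?_, ?_, ?_⟩
  · apply mk_C1
    · intro p
      exact intervalIntegral.integral_hasDerivAt_right ((cfi p.2).intervalIntegrable _ _)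
        ((cfi p.2).stronglyMeasurableAtFilter _ _) (cfi p.2).continuousAt
    · intro p
      exact param_deriv cf cfy dfy _ _ _
    · have : Continuous (Function.uncurry fun (q : ℝ × ℝ) (t : ℝ) => f (t, q.2)) :=
        cf.comp (continuous_snd.prodMk (continuous_snd.comp continuous_fst))
      exact intervalIntegral.continuous_parametric_intervalIntegral_of_continuous this continuous_fst
    · exact cf
    · have : Continuous (Function.uncurry fun (q : ℝ × ℝ) (t : ℝ) => fy (t, q.2)) :=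
        cfy.comp (continuous_snd.prodMk (continuous_snd.comp continuous_fst))
      exact intervalIntegral.continuous_parametric_intervalIntegral_of_continuous this continuous_fst
    · intro p
      show ∫ t in (0 : ℝ)..(p.1 + 2 * Real.pi), f (t, p.2) = ∫ t in (0 : ℝ)..p.1, f (t, p.2)
      rw [← intervalIntegral.integral_add_adjacent_intervals
        ((cfi p.2).intervalIntegrable 0 p.1) ((cfi p.2).intervalIntegrable _ _),
        (pfy p.2).intervalIntegral_add_eq p.1 0, zero_add, ← hNs, pre N le_rfl, add_zero]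
  · apply mk_C1
    · intro p
      refine HasDerivAt.fun_sum fun l hl => ?_
      exact (per_hasDeriv (hla l) (hlb l (mR l hl)) (dg l) (hzg l) (hzg' l) p.1).mul_const (T l p.2)
    · intro p
      refine HasDerivAt.fun_sum fun l hl => ?_
      exact (dT l p.2).const_mul (per (g l) p.1)
    · exact continuous_finsetSum _ fun l hl =>
        ((cper l hl).comp continuous_fst).mul ((cT l).comp continuous_snd)
    · exact continuous_finsetSum _ fun l hl =>
        ((cper' l hl).comp continuous_fst).mul ((cT l).comp continuous_snd)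
    · exact continuous_finsetSum _ fun l hl =>
        ((cper l hl).comp continuous_fst).mul ((cMM l).comp continuous_snd).neg
    · intro p
      exact Finset.sum_congr rfl fun l _ => by rw [per_add]
  · intro p
    simp only [hf]
    have : ∑ l ∈ R, per (g l) p.1 * -(M l p.2) = -∑ l ∈ R, M l p.2 * per (g l) p.1 := by
      rw [← Finset.sum_neg_distrib]
      exact Finset.sum_congr rfl fun l _ => by ring
    rw [this]
    ring
  · intro x y hx0 hx1
    obtain ⟨l, hl, hlx, hxl⟩ := hidx x hx0 hx1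
    have hsub : Ioc ((l : ℝ) * s) ((l : ℝ) * s + s) ⊆ Icc (x - s) (x + s) := by
      intro t ht
      exact ⟨by linarith [ht.1], by linarith [ht.2]⟩
    have hA0 : 0 ≤ ∫ t in ((l : ℝ) * s)..x, m (t, y) :=
      intervalIntegral.integral_nonneg hlx fun t _ => m0 _
    have hA1 : ∫ t in ((l : ℝ) * s)..x, m (t, y) ≤ M l y := by
      simp only [hM]
      rw [← intervalIntegral.integral_add_adjacent_intervals
        ((cmt y).intervalIntegrable ((l : ℝ) * s) x) ((cmt y).intervalIntegrable x ((l : ℝ) * s + s))]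
      linarith [intervalIntegral.integral_nonneg (f := fun t => m (t, y)) (μ := volume) hxl.le fun t _ => m0 (t, y)]
    have hB0 : 0 ≤ M l y * ∫ t in ((l : ℝ) * s)..x, g l t :=
      mul_nonneg (M0 l y) (intervalIntegral.integral_nonneg hlx fun t _ => g0 l t)
    have hB1 : M l y * ∫ t in ((l : ℝ) * s)..x, g l t ≤ M l y := by
      calc M l y * ∫ t in ((l : ℝ) * s)..x, g l t
          ≤ M l y * ∫ t in ((l : ℝ) * s)..((l : ℝ) * s + s), g l t := by
            refine mul_le_mul_of_nonneg_left ?_ (M0 l y)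
            rw [← intervalIntegral.integral_add_adjacent_intervals
              ((cg l).intervalIntegrable ((l : ℝ) * s) x)
              ((cg l).intervalIntegrable x ((l : ℝ) * s + s))]
            linarith [intervalIntegral.integral_nonneg (f := g l) (μ := volume) hxl.le fun t _ => g0 l t]
        _ = M l y := gI l y
    have hMm : M l y ≤ ∫ t in Icc (x - s) (x + s), m (t, y) := by
      simp only [hM]
      rw [intervalIntegral.integral_of_le (by linarith)]
      apply setIntegral_mono_set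
      · exact (cmt y).integrableOn_Icc
      · exact ae_of_all _ fun t => m0 _
      · exact LE.le.eventuallyLE hsub
    have hX2 : ∑ l' ∈ R, per (g l') x * T l' y = g l x * T l y := by
      rw [Finset.sum_congr rfl fun l' _ => mul_comm _ _, f_on l hl x y hlx hxl.le (fun l => T l y)]
      ring
    have hTm : T l y ≤ ∫ t in Icc (x - s) (x + s), ∫ σ in Ioi y, m (t, σ) := by
      have h1 : T l y = ∫ t in ((l : ℝ) * s)..((l : ℝ) * s + s), ∫ σ in y..(max y Y), m (t, σ) := by
        rw [tail]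
        simp only [hM]
        rw [MeasureTheory.intervalIntegral_intervalIntegral_swap]
        have hc : Continuous (Function.uncurry fun (σ t : ℝ) => m (t, σ)) :=
          cm.comp (continuous_snd.prodMk continuous_fst)
        refine (hc.continuousOn.integrableOn_compact (isCompact_uIcc.prod isCompact_uIcc)).mono_set
          (prod_mono uIoc_subset_uIcc uIoc_subset_uIcc)
      have h2 : ∀ t, ∫ σ in Ioi y, m (t, σ) = ∫ σ in y..(max y Y), m (t, σ) := fun t => hin t y
      simp_rw [h2]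
      rw [h1, intervalIntegral.integral_of_le (by linarith)]
      have hc : Continuous (Function.uncurry fun (t σ : ℝ) => m (t, σ)) := cm
      have hcc : Continuous fun t => ∫ σ in y..(max y Y), m (t, σ) :=
        intervalIntegral.continuous_parametric_intervalIntegral_of_continuous' hc _ _
      apply setIntegral_mono_set
      · exact hcc.integrableOn_Icc
      · exact ae_of_all _ fun t =>
          intervalIntegral.integral_nonneg (le_max_left _ _) fun σ _ => m0 _
      · exact LE.le.eventuallyLE hsub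
    refine ⟨?_, ⟨?_, ?_⟩, ?_, ?_⟩
    · simp only
      rw [hX1 l hl x y hlx hxl.le, abs_le]
      constructor <;> linarith
    · simp only
      rw [hX2]
      exact mul_nonneg (g0 l x) (T0 l y)
    · simp only
      rw [hX2]
      exact mul_le_mul (gle l x) hTm (T0 l y) (by positivity)
    · simp only
      rw [hX1 l hl x y hlx hxl.le]
      intro hne
      by_contra hcon
      push Not at hcon
      have : M l y = 0 := by
        simp only [hM]
        rw [intervalIntegral.integral_of_le (by linarith),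
          setIntegral_congr_fun (g := fun _ => (0 : ℝ)) measurableSet_Ioc]
        · simp
        · intro t ht
          apply hcon t
          have := hsub ht
          rw [abs_le]
          constructor <;> linarith [this.1, this.2]
      apply hne
      rw [this] at hA1 ⊢
      linarith
    · simp only
      rw [hX2]
      intro hne
      have h1 : g l x ≠ 0 := left_ne_zero_of_mul hne
      have h2 : T l y ≠ 0 := right_ne_zero_of_mul hne
      refine ⟨gG l x h1, ?_⟩
      by_contra hlt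
      push Not at hlt
      apply h2
      rw [tail]
      rw [intervalIntegral.integral_of_le (le_max_left _ _),
          setIntegral_congr_fun (g := fun _ => (0 : ℝ)) measurableSet_Ioc]
      · simp
      · intro σ hσ
        simp only [hM]
        have : ∀ t, m (t, σ) = 0 := by
          intro t
          by_contra hne
          have := (hsupp _ hne).2
          simp only at this
          linarith [hσ.1]
        simp [this]

theorem icc_shift (F : ℝ → ℝ) (s x : ℝ) (c : ℝ) (hF : ∀ t, F (t + c) = F t) (hs : 0 ≤ s) :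
    ∫ t in Icc (x + c - s) (x + c + s), F t = ∫ t in Icc (x - s) (x + s), F t := by
  rw [integral_Icc_eq_integral_Ioc, integral_Icc_eq_integral_Ioc,
    ← intervalIntegral.integral_of_le (by linarith), ← intervalIntegral.integral_of_le (by linarith)]
  have h := intervalIntegral.integral_comp_add_right (a := x - s) (b := x + s) F c
  simp only [hF] at h
  rw [h]
  congr 1 <;> ring

end OBaux

/-- **(OB)** One band of the flow.  `s = 2π/N`; `m ≥ 0` is `C¹`, periodic, supported in `y₁ ≤ y ≤ y₂`, `0 < y₁`;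
`Good` open periodic; every interval `J_l = [ls,(l+1)s)` over which `m` does not vanish identically satisfies
`|Good ∩ J_l°| ≥ (3/4)s`.  Then there are `C¹` periodic `X₁, X₂` with `∂xX₁ - ∂yX₂ = m` and the bounds below.

Proof: for `0 ≤ l < N` with `m ≢ 0` over `J_l` choose a compact `K_l ⊂ Good ∩ J_l°` with `|K_l| ≥ s/2` and a smooth
`0 ≤ g_l ≤ 1`, `g_l = 1` on `K_l`, with compact support in `Good ∩ J_l°`; `ρ_l = g_l/∫g_l ≤ 2/s`, `∫ρ_l = 1`; otherwise
`ρ_l = 0`.  Extend `ρ_l` to be `2π`-periodic (sum over translates, locally finite).  `M_l(y) = ∫_{ls}^{(l+1)s} m(t,y)dt`.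
`f(x,y) = m(x,y) - Σ_l M_l(y)ρ_l(x)`, `X₁(x,y) = ∫_0^x f(t,y)dt`, `X₂(x,y) = Σ_l ρ_l(x) ∫_y^∞ M_l(σ)dσ`.
`X₁` vanishes at all the points `ls` (mass balance on each `J_l`), so on `J_l` (and its translates)
`X₁(x,y) = ∫_{ls}^x m - M_l(y)∫_{ls}^xρ_l`, a difference of two numbers in `[0, M_l(y)]`. -/
theorem OB (N : ℕ) (hN : 1 ≤ N) (s : ℝ) (hs : s = 2 * Real.pi / N) (m mx my : ℝ × ℝ → ℝ)
    (hm : ∀ σ : ℝ, C1 σ m mx my) (m0 : ∀ p, 0 ≤ m p) (y1 y2 : ℝ) (hy : 0 < y1)
    (hsupp : ∀ p : ℝ × ℝ, m p ≠ 0 → y1 ≤ p.2 ∧ p.2 ≤ y2)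
    (Good : Set ℝ) (hGo : IsOpen Good) (hGper : ∀ x, x + 2 * Real.pi ∈ Good ↔ x ∈ Good)
    (hG : ∀ l : ℤ, (∃ p : ℝ × ℝ, l * s ≤ p.1 ∧ p.1 < (l + 1) * s ∧ m p ≠ 0) →
      ENNReal.ofReal (3 / 4 * s) ≤ volume (Good ∩ Set.Ioo (l * s) ((l + 1) * s))) :
    ∃ X1 X1x X1y X2 X2x X2y : ℝ × ℝ → ℝ,
      (∀ σ : ℝ, C1 σ X1 X1x X1y) ∧ (∀ σ : ℝ, C1 σ X2 X2x X2y) ∧
      (∀ p, X1x p - X2y p = m p) ∧
      (∀ p : ℝ × ℝ, |X1 p| ≤ ∫ t in Set.Icc (p.1 - s) (p.1 + s), m (t, p.2)) ∧
      (∀ p : ℝ × ℝ, 0 ≤ X2 p ∧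
        X2 p ≤ 2 / s * ∫ t in Set.Icc (p.1 - s) (p.1 + s), ∫ y in Set.Ioi p.2, m (t, y)) ∧
      (∀ p : ℝ × ℝ, X1 p ≠ 0 → ∃ t : ℝ, |t - p.1| ≤ s ∧ m (t, p.2) ≠ 0) ∧
      (∀ p : ℝ × ℝ, X2 p ≠ 0 → p.1 ∈ Good ∧ p.2 ≤ y2) := by
  have cm : Continuous m := OBaux.cont_of_all fun σ => (hm σ).c
  have cmy : Continuous my := OBaux.cont_of_all fun σ => (hm σ).cy
  have dmy : ∀ p : ℝ × ℝ, HasDerivAt (fun y : ℝ => m (p.1, y)) (my p) p.2 := fun p =>
    (hm (1 - p.2)).dy p (by linarith)
  have pm : ∀ p : ℝ × ℝ, m (p.1 + 2 * Real.pi, p.2) = m p := fun p =>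
    (hm (1 - p.2)).per p (by linarith)
  have hpi := Real.pi_pos
  have hs0 : 0 < s := by
    have : (0 : ℝ) < N := by exact_mod_cast hN
    rw [hs]; positivity
  obtain ⟨X1, X1x, X1y, X2, X2x, X2y, h1, h2, h3, h4⟩ :=
    OBaux.core N hN s hs m my cm cmy dmy pm m0 y1 y2 hsupp Good hGo hG
  refine ⟨X1, X1x, X1y, X2, X2x, X2y, h1, h2, h3, ?_⟩
  have key : ∀ x y : ℝ, ∃ x0 c : ℝ, x = x0 + c ∧ 0 ≤ x0 ∧ x0 < 2 * Real.pi ∧
      (∀ t y', m (t + c, y') = m (t, y')) ∧ X1 (x, y) = X1 (x0, y) ∧ X2 (x, y) = X2 (x0, y) ∧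
      (x ∈ Good ↔ x0 ∈ Good) := by
    intro x y
    have h2pi : 0 < 2 * Real.pi := by positivity
    have e1 := Int.floor_le (x / (2 * Real.pi))
    have e2 := Int.lt_floor_add_one (x / (2 * Real.pi))
    rw [le_div_iff₀ h2pi] at e1
    rw [div_lt_iff₀ h2pi] at e2
    set k := ⌊x / (2 * Real.pi)⌋ with hk
    refine ⟨x - k * (2 * Real.pi), k * (2 * Real.pi), by ring, by linarith, by linarith, ?_, ?_, ?_, ?_⟩
    · intro t y'
      have hp : Function.Periodic (fun t => m (t, y')) (2 * Real.pi) := fun t => pm (t, y')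
      exact hp.int_mul k t
    · have hp : Function.Periodic (fun t => X1 (t, y)) (2 * Real.pi) := fun t =>
        (h1 (1 - y)).per (t, y) (by simp)
      exact (hp.sub_int_mul_eq k).symm
    · have hp : Function.Periodic (fun t => X2 (t, y)) (2 * Real.pi) := fun t =>
        (h2 (1 - y)).per (t, y) (by simp)
      exact (hp.sub_int_mul_eq k).symm
    · have hp : Function.Periodic (fun t => t ∈ Good) (2 * Real.pi) := fun t =>
        propext (hGper t)
      rw [← hp.sub_int_mul_eq k]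
  refine ⟨?_, ?_, ?_, ?_⟩
  · rintro ⟨x, y⟩
    obtain ⟨x0, c, hx, hx0, hx1, hmc, hX1, _, _⟩ := key x y
    simp only
    rw [hX1, hx, OBaux.icc_shift (fun t => m (t, y)) s x0 c (fun t => hmc t y) hs0.le]
    exact (h4 x0 y hx0 hx1).1
  · rintro ⟨x, y⟩
    obtain ⟨x0, c, hx, hx0, hx1, hmc, _, hX2, _⟩ := key x y
    simp only
    rw [hX2, hx, OBaux.icc_shift (fun t => ∫ y in Set.Ioi y, m (t, y)) s x0 c
      (fun t => by simp only [hmc]) hs0.le]
    exact (h4 x0 y hx0 hx1).2.1
  · rintro ⟨x, y⟩ hne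
    obtain ⟨x0, c, hx, hx0, hx1, hmc, hX1, _, _⟩ := key x y
    rw [hX1] at hne
    obtain ⟨t, ht, hmt⟩ := (h4 x0 y hx0 hx1).2.2.1 hne
    refine ⟨t + c, ?_, ?_⟩
    · simp only
      rw [hx]
      rwa [add_sub_add_right_eq_sub]
    · simp only
      rwa [hmc]
  · rintro ⟨x, y⟩ hne
    obtain ⟨x0, c, hx, hx0, hx1, hmc, _, hX2, hgood⟩ := key x y
    rw [hX2] at hne
    have := (h4 x0 y hx0 hx1).2.2.2 hne
    exact ⟨hgood.2 this.1, this.2⟩

end Pool.H14.SR
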