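import Pool.Agent.H14.SR.Basic
import Pool.Agent.H14.SR.OB
import Pool.Agent.H14.SR.HallB
import Pool.Agent.H14.SR.CE
open MeasureTheory Set Filter Topology
noncomputable section
namespace Pool.H14.SR


/-- The threshold `ε₂(δ) = exp(-(2 + 33600 log(1/δ)/δ))`. -/
def eps2 (δ : ℝ) : ℝ := Real.exp (-(2 + 33600 * Real.log (1 / δ) / δ))

theorem eps2_pos (δ : ℝ) : 0 < eps2 δ := Real.exp_pos _

theorem eps2_lt (δ : ℝ) (hδ : 0 < δ) (hδ2 : δ ≤ 1 / 2) : eps2 δ < δ ∧ eps2 δ < 1 / 3 := by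
  have h1 : (1 : ℝ) < 1 / δ := by rw [lt_div_iff₀ hδ]; linarith
  have hl : 0 < Real.log (1 / δ) := Real.log_pos h1
  have h2 : Real.log (1 / δ) ≤ 33600 * Real.log (1 / δ) / δ := by
    rw [le_div_iff₀ hδ]; nlinarith
  constructor
  · have h3 : δ = Real.exp (-Real.log (1 / δ)) := by
      rw [one_div, Real.log_inv, neg_neg, Real.exp_log hδ]
    unfold eps2
    conv_rhs => rw [h3]
    apply Real.exp_lt_exp.2
    linarith
  · have h3 : eps2 δ ≤ Real.exp (-2) := by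
      unfold eps2
      apply Real.exp_le_exp.2
      linarith
    have h4 : (3 : ℝ) < Real.exp 2 := by
      have := Real.add_one_lt_exp (show (2 : ℝ) ≠ 0 by norm_num)
      linarith
    have h5 : Real.exp (-2) < 1 / 3 := by
      rw [Real.exp_neg, ← one_div]
      exact one_div_lt_one_div_of_lt (by norm_num) h4
    linarith

/-- **(BK)** A band of sources at height `h`: flow avoiding `{|b| < ε₂}`.

Proof: `OB` with `Good = {x : ∀ y ∈ [-σ,2h], |b(x,y)| > ε₂}` (complement of a closed set, periodic).  If `m(p) ≠ 0` with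
`p.1 ∈ J_l` then `|b(p)| ≥ 2δ`, `h/2 ≤ p.2 ≤ 2h`, and `HallB` (`s ≤ δh/2 ≤ h/4`) gives
`|J_l \ Good| ≤ 2100 h log(1/δ)/(1 + 33600 log(1/δ)/δ) ≤ δh/16 ≤ s/4`.
`X₁(p) ≠ 0` gives `t`, `|t - p.1| ≤ s`, `m(t,p.2) ≠ 0`, `|b(t,p.2)| ≥ 2δ`, `|b(p)| ≥ 2δ - s/(h/2) ≥ δ > ε₂` (`hp_lip`).
`X₂(p) ≠ 0`, `-σ < p.2` gives `p.1 ∈ Good`, `p.2 ≤ 2h`, so `|b(p)| > ε₂`. -/
theorem BK {δ ρ : ℝ} {a b F : ℂ → ℂ} (H : Dat δ ρ a b F) (h s σ σ₁ : ℝ) (N : ℕ) (hN : 1 ≤ N)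
    (hs : s = 2 * Real.pi / N) (hh : 0 < h) (hs1 : δ * h / 4 ≤ s) (hs2 : s ≤ δ * h / 2)
    (hσ : 0 < σ) (hσ₁ : σ < σ₁) (hσρ : σ₁ < Real.log ρ) (hσh : σ₁ ≤ h)
    (m mx my : ℝ × ℝ → ℝ) (hm : ∀ σ : ℝ, C1 σ m mx my) (m0 : ∀ p, 0 ≤ m p)
    (hsupp : ∀ p : ℝ × ℝ, m p ≠ 0 → h / 2 ≤ p.2 ∧ p.2 ≤ 2 * h ∧ 2 * δ ≤ ‖hp b p‖) :
    ∃ X1 X1x X1y X2 X2x X2y : ℝ × ℝ → ℝ,
      (∀ σ : ℝ, C1 σ X1 X1x X1y) ∧ (∀ σ : ℝ, C1 σ X2 X2x X2y) ∧
      (∀ p, X1x p - X2y p = m p) ∧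
      (∀ p : ℝ × ℝ, |X1 p| ≤ ∫ t in Set.Icc (p.1 - s) (p.1 + s), m (t, p.2)) ∧
      (∀ p : ℝ × ℝ, 0 ≤ X2 p ∧
        X2 p ≤ 2 / s * ∫ t in Set.Icc (p.1 - s) (p.1 + s), ∫ y in Set.Ioi p.2, m (t, y)) ∧
      (∀ p : ℝ × ℝ, -σ < p.2 → ‖hp b p‖ < eps2 δ → X1 p = 0 ∧ X2 p = 0) := by
  have hδ := H.hδ
  have hδ2 := H.hδ2
  have hρ0 : 0 < ρ := by linarith [H.hρ]
  have hspos : 0 < s := by
    have : 0 < δ * h / 4 := by positivity
    linarith
  have hsh : s ≤ h / 4 := by nlinarith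
  obtain ⟨he1, he2⟩ := eps2_lt δ hδ hδ2
  have hepos := eps2_pos δ
  have h1 : (1 : ℝ) < 1 / δ := by rw [lt_div_iff₀ hδ]; linarith
  have hl : 0 < Real.log (1 / δ) := Real.log_pos h1
  set Good : Set ℝ := {x | ∀ y ∈ Set.Icc (-σ) (2 * h), eps2 δ < ‖hp b (x, y)‖} with hGood
  have hbc : ContinuousOn (fun p => ‖hp b p‖) {p : ℝ × ℝ | -Real.log ρ < p.2} :=
    (hp_cont hρ0 H.hb.continuousOn).norm
  have hopen : IsOpen {p : ℝ × ℝ | -Real.log ρ < p.2} := isOpen_lt continuous_const continuous_snd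
  have hGo : IsOpen Good := by
    rw [isOpen_iff_mem_nhds]
    intro x hx
    have hU : IsOpen ({p : ℝ × ℝ | -Real.log ρ < p.2} ∩ (fun p => ‖hp b p‖) ⁻¹' (Set.Ioi (eps2 δ))) :=
      hbc.isOpen_inter_preimage hopen isOpen_Ioi
    obtain ⟨u, v, hu, hv, hxu, hIv, huv⟩ := generalized_tube_lemma (isCompact_singleton (x := x))
      (isCompact_Icc (a := -σ) (b := 2 * h)) hU (by
        rintro ⟨x', y⟩ ⟨hx', hy⟩
        have hx'' : x' = x := hx'
        subst hx''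
        refine ⟨?_, hx y hy⟩
        show -Real.log ρ < y
        have : -σ ≤ y := hy.1
        linarith)
    refine Filter.mem_of_superset (hu.mem_nhds (hxu (mem_singleton x))) ?_
    intro x' hx' y hy
    exact (huv ⟨hx', hIv hy⟩).2
  have hGper : ∀ x, x + 2 * Real.pi ∈ Good ↔ x ∈ Good := by
    intro x
    have : ∀ y : ℝ, hp b (x + 2 * Real.pi, y) = hp b (x, y) := fun y => hp_per b (x, y)
    constructor
    · intro hx y hy
      rw [← this y]; exact hx y hy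
    · intro hx y hy
      rw [this y]; exact hx y hy
  have hG : ∀ l : ℤ, (∃ p : ℝ × ℝ, l * s ≤ p.1 ∧ p.1 < (l + 1) * s ∧ m p ≠ 0) →
      ENNReal.ofReal (3 / 4 * s) ≤ volume (Good ∩ Set.Ioo (l * s) ((l + 1) * s)) := by
    rintro l ⟨p, hp1, hp2, hmp⟩
    obtain ⟨hq1, hq2, hq3⟩ := hsupp p hmp
    have hHall := HallB δ ρ hδ hδ2 H.hρ b H.hb H.hb1 σ σ₁ h (eps2 δ) hσ hσ₁ hσρ hσh hepos he2 p
      hq1 hq2 hq3 (l * s) ((l + 1) * s) hp1 hp2.le (by linarith)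
    set B : Set ℝ := {x : ℝ | x ∈ Set.Icc (l * s) ((l + 1) * s) ∧
      ∃ y ∈ Set.Icc (-σ) (2 * h), ‖hp b (x, y)‖ ≤ eps2 δ} with hB
    have hbound : 2100 * h * Real.log (1 / δ) / (Real.log (1 / eps2 δ) - 1) ≤ s / 4 := by
      have h2 : Real.log (1 / eps2 δ) - 1 = 1 + 33600 * Real.log (1 / δ) / δ := by
        unfold eps2
        rw [one_div, Real.log_inv, Real.log_exp]
        ring
      rw [h2, div_le_iff₀ (by positivity)]
      have h3 : s / 4 * (1 + 33600 * Real.log (1 / δ) / δ)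
          = s / 4 + s * (8400 * Real.log (1 / δ) / δ) := by ring
      have h4 : δ * h / 4 * (8400 * Real.log (1 / δ) / δ) = 2100 * h * Real.log (1 / δ) := by
        field_simp
        norm_num
      have h5 : δ * h / 4 * (8400 * Real.log (1 / δ) / δ) ≤ s * (8400 * Real.log (1 / δ) / δ) :=
        mul_le_mul_of_nonneg_right hs1 (by positivity)
      rw [h3]
      linarith
    have hBs : volume B ≤ ENNReal.ofReal (s / 4) := hHall.trans (ENNReal.ofReal_le_ofReal hbound)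
    have hcov : Set.Ioo (l * s) ((l + 1) * s) ⊆ (Good ∩ Set.Ioo (l * s) ((l + 1) * s)) ∪ B := by
      intro x hx
      by_cases hxG : x ∈ Good
      · exact Or.inl ⟨hxG, hx⟩
      · right
        refine ⟨⟨hx.1.le, hx.2.le⟩, ?_⟩
        by_contra hcon
        apply hxG
        intro y hy
        by_contra hle
        exact hcon ⟨y, hy, not_lt.1 hle⟩
    have hvol : ENNReal.ofReal s ≤ volume (Good ∩ Set.Ioo (l * s) ((l + 1) * s))
        + ENNReal.ofReal (s / 4) := by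
      calc ENNReal.ofReal s = volume (Set.Ioo (l * s) ((l + 1) * s)) := by
            rw [Real.volume_Ioo]; congr 1; ring
        _ ≤ volume ((Good ∩ Set.Ioo (l * s) ((l + 1) * s)) ∪ B) := measure_mono hcov
        _ ≤ volume (Good ∩ Set.Ioo (l * s) ((l + 1) * s)) + volume B := measure_union_le _ _
        _ ≤ _ := add_le_add le_rfl hBs
    have hsplit : ENNReal.ofReal s = ENNReal.ofReal (3 / 4 * s) + ENNReal.ofReal (s / 4) := by
      rw [← ENNReal.ofReal_add (by positivity) (by positivity)]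
      congr 1; ring
    rw [hsplit] at hvol
    exact (ENNReal.add_le_add_iff_right ENNReal.ofReal_ne_top).1 hvol
  obtain ⟨X1, X1x, X1y, X2, X2x, X2y, hX1, hX2, heq, hb1, hb2, hn1, hn2⟩ :=
    OB N hN s hs m mx my hm m0 (h / 2) (2 * h) (by positivity)
      (fun p hp => ⟨(hsupp p hp).1, (hsupp p hp).2.1⟩) Good hGo hGper hG
  refine ⟨X1, X1x, X1y, X2, X2x, X2y, hX1, hX2, heq, hb1, hb2, ?_⟩
  intro p hpσ hbp
  constructor
  · by_contra hne
    obtain ⟨t, ht, hmt⟩ := hn1 p hne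
    obtain ⟨hq1, hq2, hq3⟩ := hsupp (t, p.2) hmt
    have hlρ : 0 < Real.log ρ := Real.log_pos H.hρ
    have hq1' : h / 2 ≤ p.2 := hq1
    have hlip := hp_lip b ρ hρ0 H.hb H.hb1 (h / 2) (by linarith) (t, p.2) p hq1 hq1'
    have hlip2 : ‖hp b (t, p.2) - hp b p‖ ≤ δ := by
      refine hlip.trans ?_
      rw [div_le_iff₀ (by positivity)]
      have h5 : |(t, p.2).1 - p.1| + |(t, p.2).2 - p.2| = |t - p.1| := by
        show |t - p.1| + |p.2 - p.2| = _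
        rw [sub_self, abs_zero, add_zero]
      rw [h5]
      nlinarith
    have h6 : ‖hp b (t, p.2)‖ ≤ ‖hp b (t, p.2) - hp b p‖ + ‖hp b p‖ := by
      have := norm_add_le (hp b (t, p.2) - hp b p) (hp b p)
      rwa [sub_add_cancel] at this
    linarith
  · by_contra hne
    obtain ⟨hq1, hq2⟩ := hn2 p hne
    have h7 := hq1 p.2 ⟨hpσ.le, hq2⟩
    have h8 : eps2 δ < ‖hp b p‖ := h7
    linarith

end Pool.H14.SR
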