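import Pool.Agent.H14.SR.Basic

open MeasureTheory Set Filter Topology
noncomputable section
namespace Pool.H14.SR

/-- The total mass of the Poisson kernel. -/
theorem pr_one (z : ℝ × ℝ) (hz : 0 < z.2) :
    Integrable (fun x : ℝ => z.2 / ((x - z.1) ^ 2 + z.2 ^ 2)) ∧
    ∫ x : ℝ, z.2 / ((x - z.1) ^ 2 + z.2 ^ 2) = Real.pi := by
  have hγ : Real.toNNReal z.2 ≠ 0 := by
    rw [Ne, Real.toNNReal_eq_zero, not_le]
    exact hz
  have hfun : (fun x : ℝ => z.2 / ((x - z.1) ^ 2 + z.2 ^ 2))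
      = fun x => Real.pi * ProbabilityTheory.cauchyPDFReal z.1 (Real.toNNReal z.2) x := by
    funext x
    rw [ProbabilityTheory.cauchyPDFReal_def, Real.coe_toNNReal _ hz.le]
    have hpi := Real.pi_ne_zero
    have : (x - z.1) ^ 2 + z.2 ^ 2 ≠ 0 := by positivity
    field_simp
  rw [hfun]
  refine ⟨(ProbabilityTheory.integrable_cauchyPDFReal z.1).const_mul _, ?_⟩
  rw [integral_const_mul, ProbabilityTheory.integral_cauchyPDFReal_eq_one z.1 hγ, mul_one]

/-- point of the complex plane -/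
def prh (f : ℂ → ℂ) (ζ : ℂ) : ℂ := f (Complex.exp (Complex.I * ζ))

theorem pr_norm_exp (ζ : ℂ) : ‖Complex.exp (Complex.I * ζ)‖ = Real.exp (-ζ.im) := by
  rw [Complex.norm_exp]
  congr 1
  simp

theorem prh_cont (f : ℂ → ℂ) (hfc : ContinuousOn f (Metric.closedBall 0 1)) :
    ContinuousOn (prh f) {ζ | 0 ≤ ζ.im} := by
  unfold prh
  refine hfc.comp (by fun_prop) ?_
  intro ζ hζ
  rw [mem_closedBall_zero_iff, pr_norm_exp]
  exact Real.exp_le_one_iff.2 (by simpa using hζ)

theorem prh_diff (f : ℂ → ℂ) (hf : DifferentiableOn ℂ f (Metric.ball 0 1)) (ζ : ℂ)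
    (hζ : 0 < ζ.im) : DifferentiableAt ℂ (prh f) ζ := by
  unfold prh
  have hm : Complex.exp (Complex.I * ζ) ∈ Metric.ball (0 : ℂ) 1 := by
    rw [mem_ball_zero_iff, pr_norm_exp]
    rw [← Real.exp_zero]; exact Real.exp_lt_exp.2 (by linarith)
  have h1 : DifferentiableAt ℂ f (Complex.exp (Complex.I * ζ)) :=
    hf.differentiableAt (Metric.isOpen_ball.mem_nhds hm)
  exact DifferentiableAt.comp ζ h1 (by fun_prop)

/-- The function that is integrated. -/
def prg (f : ℂ → ℂ) (ζ₀ ζ : ℂ) : ℂ := dslope (prh f) ζ₀ ζ / (ζ - starRingEnd ℂ ζ₀)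

theorem prg_bound (f : ℂ → ℂ) (B : ℝ) (hB : ∀ ζ : ℂ, 0 ≤ ζ.im → ‖prh f ζ‖ ≤ B) (ζ₀ ζ : ℂ)
    (h0 : 0 < ζ₀.im) (hζ : 0 ≤ ζ.im) (R : ℝ) (hR : 0 < R) (h1 : R ≤ ‖ζ - ζ₀‖)
    (h2 : R ≤ ‖ζ - starRingEnd ℂ ζ₀‖) : ‖prg f ζ₀ ζ‖ ≤ 2 * B / R ^ 2 := by
  have hne : ζ ≠ ζ₀ := by
    intro h; rw [h, sub_self, norm_zero] at h1; linarith
  unfold prg
  rw [dslope_of_ne _ hne, slope_def_field, norm_div, norm_div]
  have h3 : ‖prh f ζ - prh f ζ₀‖ ≤ 2 * B := by
    calc _ ≤ ‖prh f ζ‖ + ‖prh f ζ₀‖ := norm_sub_le _ _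
      _ ≤ B + B := add_le_add (hB _ hζ) (hB _ h0.le)
      _ = _ := by ring
  have hB0 : 0 ≤ 2 * B := (norm_nonneg _).trans h3
  rw [div_div]
  have h4 : R ^ 2 ≤ ‖ζ - ζ₀‖ * ‖ζ - starRingEnd ℂ ζ₀‖ := by
    rw [sq]; exact mul_le_mul h1 h2 hR.le (norm_nonneg _)
  exact div_le_div₀ hB0 h3 (by positivity) h4

theorem prg_cont (f : ℂ → ℂ) (hfc : ContinuousOn f (Metric.closedBall 0 1))
    (hf : DifferentiableOn ℂ f (Metric.ball 0 1)) (ζ₀ : ℂ) (h0 : 0 < ζ₀.im) :
    ContinuousOn (prg f ζ₀) {ζ | 0 ≤ ζ.im} := by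
  unfold prg
  refine ContinuousOn.div ?_ (by fun_prop) ?_
  · rw [continuousOn_dslope]
    · exact ⟨prh_cont f hfc, prh_diff f hf ζ₀ h0⟩
    · exact Filter.mem_of_superset ((isOpen_lt continuous_const Complex.continuous_im).mem_nhds h0)
        (fun ζ hζ => (show (0:ℝ) ≤ ζ.im from le_of_lt hζ))
  · intro ζ hζ h
    have := congrArg Complex.im h
    simp at this
    have h2 : (0:ℝ) ≤ ζ.im := hζ
    linarith

theorem prg_diff (f : ℂ → ℂ) (hf : DifferentiableOn ℂ f (Metric.ball 0 1)) (ζ₀ ζ : ℂ)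
    (h0 : 0 < ζ₀.im) (hζ : 0 < ζ.im) (hne : ζ ≠ ζ₀) : DifferentiableAt ℂ (prg f ζ₀) ζ := by
  unfold prg
  refine DifferentiableAt.div ?_ (by fun_prop) ?_
  · exact (differentiableAt_dslope_of_ne hne).2 (prh_diff f hf ζ hζ)
  · intro h
    have := congrArg Complex.im h
    simp at this
    linarith

theorem prg_real (f : ℂ → ℂ) (z : ℝ × ℝ) (hz : 0 < z.2) (x : ℝ) :
    prg f ((z.1 : ℂ) + (z.2 : ℂ) * Complex.I) (x : ℂ)
      = (f (E (x, 0)) - hp f z) * ((1 / ((x - z.1) ^ 2 + z.2 ^ 2) : ℝ) : ℂ) := by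
  have hne : (x : ℂ) ≠ (z.1 : ℂ) + (z.2 : ℂ) * Complex.I := by
    intro h
    have := congrArg Complex.im h
    simp at this
    linarith
  unfold prg
  rw [dslope_of_ne _ hne, slope_def_field]
  have h1 : prh f (x : ℂ) = f (E (x, 0)) := by
    unfold prh; rw [E_zero]
  have h2 : prh f ((z.1 : ℂ) + (z.2 : ℂ) * Complex.I) = hp f z := by
    unfold prh hp E; rfl
  rw [h1, h2, div_div]
  have h3 : ((x : ℂ) - ((z.1 : ℂ) + (z.2 : ℂ) * Complex.I)) *
      ((x : ℂ) - starRingEnd ℂ ((z.1 : ℂ) + (z.2 : ℂ) * Complex.I))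
      = (((x - z.1) ^ 2 + z.2 ^ 2 : ℝ) : ℂ) := by
    simp only [map_add, map_mul, Complex.conj_ofReal, Complex.conj_I]
    push_cast
    have : Complex.I ^ 2 = -1 := Complex.I_sq
    linear_combination (-(z.2 : ℂ) ^ 2) * this
  rw [h3]
  push_cast
  ring

/-- The integral of `prg` over the real line vanishes. -/
theorem prg_int (f : ℂ → ℂ) (hfc : ContinuousOn f (Metric.closedBall 0 1))
    (hf : DifferentiableOn ℂ f (Metric.ball 0 1)) (z : ℝ × ℝ) (hz : 0 < z.2)
    (hI : Integrable (fun x : ℝ => prg f ((z.1 : ℂ) + (z.2 : ℂ) * Complex.I) (x : ℂ))) :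
    ∫ x : ℝ, prg f ((z.1 : ℂ) + (z.2 : ℂ) * Complex.I) (x : ℂ) = 0 := by
  set ζ₀ : ℂ := (z.1 : ℂ) + (z.2 : ℂ) * Complex.I with hζ₀
  have him : ζ₀.im = z.2 := by rw [hζ₀]; simp
  have hre : ζ₀.re = z.1 := by rw [hζ₀]; simp
  have h0 : 0 < ζ₀.im := by rw [him]; exact hz
  obtain ⟨B, hB⟩ := (isCompact_closedBall (0 : ℂ) 1).exists_bound_of_continuousOn hfc
  have hB' : ∀ ζ : ℂ, 0 ≤ ζ.im → ‖prh f ζ‖ ≤ B := by
    intro ζ hζ
    apply hB
    rw [mem_closedBall_zero_iff, pr_norm_exp]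
    exact Real.exp_le_one_iff.2 (by simpa using hζ)
  have hB0 : 0 ≤ B := (norm_nonneg _).trans (hB' ζ₀ h0.le)
  have hT : Tendsto (fun R : ℝ => ∫ x in (z.1 - R)..(z.1 + R), prg f ζ₀ (x : ℂ)) atTop
      (𝓝 (∫ x : ℝ, prg f ζ₀ (x : ℂ))) := by
    apply intervalIntegral_tendsto_integral hI
    · exact tendsto_atBot_add_const_left _ _ tendsto_neg_atTop_atBot
    · exact tendsto_atTop_add_const_left _ _ tendsto_id
  have hbd : ∀ᶠ R : ℝ in atTop, ‖∫ x in (z.1 - R)..(z.1 + R), prg f ζ₀ (x : ℂ)‖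
      ≤ 2 * B / (R - z.2) ^ 2 * (2 * R) + 2 * B / R ^ 2 * R + 2 * B / R ^ 2 * R := by
    filter_upwards [eventually_gt_atTop z.2] with R hR
    have hR0 : 0 < R := hz.trans hR
    have key := Complex.integral_boundary_rect_eq_zero_of_differentiable_on_off_countable
      (prg f ζ₀) (((z.1 - R : ℝ) : ℂ)) (((z.1 + R : ℝ) : ℂ) + (R : ℂ) * Complex.I) {ζ₀}
      (countable_singleton _) ?_ ?_
    · simp only [Complex.ofReal_re, Complex.ofReal_im, Complex.add_re, Complex.add_im,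
        Complex.mul_re, Complex.mul_im, Complex.I_re, Complex.I_im, mul_zero, mul_one, zero_add,
        add_zero, sub_zero, Complex.ofReal_zero, zero_mul, smul_eq_mul] at key
      have e1 : ∫ x in (z.1 - R)..(z.1 + R), prg f ζ₀ (x : ℂ)
          = (∫ x in (z.1 - R)..(z.1 + R), prg f ζ₀ ((x : ℂ) + (R : ℂ) * Complex.I))
            - Complex.I * (∫ y in (0:ℝ)..R, prg f ζ₀ (((z.1 + R : ℝ) : ℂ) + (y : ℂ) * Complex.I))
            + Complex.I * (∫ y in (0:ℝ)..R, prg f ζ₀ (((z.1 - R : ℝ) : ℂ) + (y : ℂ) * Complex.I)) := by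
        linear_combination key
      rw [e1]
      have b1 : ‖∫ x in (z.1 - R)..(z.1 + R), prg f ζ₀ ((x : ℂ) + (R : ℂ) * Complex.I)‖
          ≤ 2 * B / (R - z.2) ^ 2 * (2 * R) := by
        refine (intervalIntegral.norm_integral_le_of_norm_le_const
          (C := 2 * B / (R - z.2) ^ 2) ?_).trans (le_of_eq ?_)
        · intro x _
          refine prg_bound f B hB' ζ₀ _ h0 (by simp; linarith) (R - z.2) (by linarith) ?_ ?_
          · refine le_trans ?_ (Complex.abs_im_le_norm _)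
            simp only [Complex.sub_im, Complex.add_im, Complex.ofReal_im, Complex.mul_im,
              Complex.ofReal_re, Complex.I_im, mul_one, Complex.I_re, mul_zero, add_zero, zero_add,
              him]
            exact le_abs_self _
          · refine le_trans ?_ (Complex.abs_im_le_norm _)
            simp only [Complex.sub_im, Complex.add_im, Complex.ofReal_im, Complex.mul_im,
              Complex.ofReal_re, Complex.I_im, mul_one, Complex.I_re, mul_zero, add_zero, zero_add,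
              Complex.conj_im, him]
            refine le_trans ?_ (le_abs_self _)
            linarith
        · congr 1
          rw [abs_of_nonneg] <;> linarith
      have b2 : ∀ s : ℝ, |s - z.1| = R →
          ‖∫ y in (0:ℝ)..R, prg f ζ₀ ((s : ℂ) + (y : ℂ) * Complex.I)‖ ≤ 2 * B / R ^ 2 * R := by
        intro s hs
        refine (intervalIntegral.norm_integral_le_of_norm_le_const
          (C := 2 * B / R ^ 2) ?_).trans (le_of_eq ?_)
        · intro y hy
          rw [uIoc_of_le hR0.le] at hy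
          refine prg_bound f B hB' ζ₀ _ h0 (by simp; linarith [hy.1]) R hR0 ?_ ?_
          · refine le_trans ?_ (Complex.abs_re_le_norm _)
            simp only [Complex.sub_re, Complex.add_re, Complex.ofReal_re, Complex.mul_re,
              Complex.ofReal_im, Complex.I_im, mul_one, Complex.I_re, mul_zero, sub_self, add_zero,
              hre]
            exact hs.ge
          · refine le_trans ?_ (Complex.abs_re_le_norm _)
            simp only [Complex.sub_re, Complex.add_re, Complex.ofReal_re, Complex.mul_re,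
              Complex.ofReal_im, Complex.I_im, mul_one, Complex.I_re, mul_zero, sub_self, add_zero,
              Complex.conj_re, hre]
            exact hs.ge
        · congr 1
          rw [abs_of_nonneg] <;> linarith
      have b3 := b2 (z.1 + R) (by rw [add_sub_cancel_left, abs_of_pos hR0])
      have b4 := b2 (z.1 - R) (by
        rw [sub_sub_cancel_left, abs_neg, abs_of_pos hR0])
      refine (norm_add_le _ _).trans (add_le_add ((norm_sub_le _ _).trans (add_le_add b1 ?_)) ?_)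
      · rw [norm_mul, Complex.norm_I, one_mul]; exact b3
      · rw [norm_mul, Complex.norm_I, one_mul]; exact b4
    · refine (prg_cont f hfc hf ζ₀ h0).mono ?_
      intro ζ hζ
      have := hζ.2
      simp only [mem_preimage, Complex.ofReal_im, Complex.add_im, Complex.mul_im,
        Complex.ofReal_re, Complex.I_im, mul_one, Complex.I_re, mul_zero, add_zero, zero_add,
        uIcc_of_le hR0.le] at this
      exact this.1
    · intro ζ hζ
      have h1 := hζ.1.2
      simp only [mem_preimage, Complex.ofReal_im, Complex.add_im, Complex.mul_im,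
        Complex.ofReal_re, Complex.I_im, mul_one, Complex.I_re, mul_zero, add_zero, zero_add,
        min_eq_left hR0.le, max_eq_right hR0.le] at h1
      exact prg_diff f hf ζ₀ ζ h0 h1.1 hζ.2
  have hlim : Tendsto (fun R : ℝ => 2 * B / (R - z.2) ^ 2 * (2 * R) + 2 * B / R ^ 2 * R
      + 2 * B / R ^ 2 * R) atTop (𝓝 0) := by
    have t1 : Tendsto (fun R : ℝ => 2 * B / R ^ 2 * R) atTop (𝓝 0) := by
      have : Tendsto (fun R : ℝ => 2 * B * R⁻¹) atTop (𝓝 (2 * B * 0)) :=
        tendsto_inv_atTop_zero.const_mul _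
      rw [mul_zero] at this
      refine this.congr' ?_
      filter_upwards [eventually_gt_atTop 0] with R hR
      field_simp
    have t2 : Tendsto (fun R : ℝ => 2 * B / (R - z.2) ^ 2 * (2 * R)) atTop (𝓝 0) := by
      have t3 : Tendsto (fun R : ℝ => R - z.2) atTop atTop :=
        tendsto_atTop_add_const_right _ _ tendsto_id
      have t4 : Tendsto (fun R : ℝ => 4 * B * (R - z.2)⁻¹ + 4 * B * z.2 * ((R - z.2)⁻¹) ^ 2) atTop
          (𝓝 (4 * B * 0 + 4 * B * z.2 * 0 ^ 2)) :=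
        ((tendsto_inv_atTop_zero.comp t3).const_mul _).add
          (((tendsto_inv_atTop_zero.comp t3).pow 2).const_mul _)
      have : (4 * B * 0 + 4 * B * z.2 * 0 ^ 2 : ℝ) = 0 := by ring
      rw [this] at t4
      refine t4.congr' ?_
      filter_upwards [eventually_gt_atTop z.2] with R hR
      have : R - z.2 ≠ 0 := by linarith
      field_simp
      ring
    have := (t2.add t1).add t1
    simpa using this
  have hT0 : Tendsto (fun R : ℝ => ∫ x in (z.1 - R)..(z.1 + R), prg f ζ₀ (x : ℂ)) atTop (𝓝 0) :=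
    squeeze_zero_norm' hbd hlim
  exact tendsto_nhds_unique hT hT0

/-- **(PR)** Poisson representation in the half plane for functions on the disc.

Proof: it suffices (uniform approximation by polynomials on the closed disc: `f(rw)` with `r → 1`, then Taylor
polynomials; the Poisson kernel has total mass `π`) to treat `f(w) = w^n`:
`∫_ℝ e^{int} y/((x-t)²+y²) dt = π e^{in(x+iy)}` (Fourier transform of the Poisson kernel, or Cauchy's theorem, or
by the disc Poisson formula in Mathlib and periodisation). -/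
theorem PR (f : ℂ → ℂ) (hfc : ContinuousOn f (Metric.closedBall 0 1))
    (hf : DifferentiableOn ℂ f (Metric.ball 0 1)) (z : ℝ × ℝ) (hz : 0 < z.2) :
    Integrable (fun x : ℝ => f (E (x, 0)) * ((z.2 / ((x - z.1) ^ 2 + z.2 ^ 2) : ℝ) : ℂ)) ∧
    ∫ x : ℝ, f (E (x, 0)) * ((z.2 / ((x - z.1) ^ 2 + z.2 ^ 2) : ℝ) : ℂ)
      = (Real.pi : ℂ) * hp f z := by
  obtain ⟨hK, hKi⟩ := pr_one z hz
  have hfE : Continuous (fun x : ℝ => f (E (x, 0))) := by
    have h1 : Continuous (fun x : ℝ => E (x, 0)) := continuous_E.comp (by fun_prop)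
    refine hfc.comp_continuous h1 (fun x => E_mem_closedBall (le_refl _))
  obtain ⟨B, hB⟩ := (isCompact_closedBall (0 : ℂ) 1).exists_bound_of_continuousOn hfc
  have hI : Integrable
      (fun x : ℝ => f (E (x, 0)) * ((z.2 / ((x - z.1) ^ 2 + z.2 ^ 2) : ℝ) : ℂ)) := by
    refine hK.ofReal.bdd_mul (c := B) hfE.aestronglyMeasurable ?_
    filter_upwards with x
    exact hB _ (E_mem_closedBall (le_refl _))
  refine ⟨hI, ?_⟩
  have hI2 : Integrable
      (fun x : ℝ => hp f z * ((z.2 / ((x - z.1) ^ 2 + z.2 ^ 2) : ℝ) : ℂ)) :=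
    hK.ofReal.const_mul _
  have hI3 : Integrable (fun x : ℝ => prg f ((z.1 : ℂ) + (z.2 : ℂ) * Complex.I) (x : ℂ)) := by
    have h := (hI.sub hI2).const_mul ((1 / z.2 : ℝ) : ℂ)
    refine h.congr ?_
    filter_upwards with x
    rw [prg_real f z hz x]
    simp only [Pi.sub_apply]
    have hz' : (z.2 : ℂ) ≠ 0 := by exact_mod_cast hz.ne'
    push_cast
    field_simp
  have h0 := prg_int f hfc hf z hz hI3
  have hsplit : ∫ x : ℝ, f (E (x, 0)) * ((z.2 / ((x - z.1) ^ 2 + z.2 ^ 2) : ℝ) : ℂ)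
      = (∫ x : ℝ, hp f z * ((z.2 / ((x - z.1) ^ 2 + z.2 ^ 2) : ℝ) : ℂ)) +
        ∫ x : ℝ, (z.2 : ℂ) * prg f ((z.1 : ℂ) + (z.2 : ℂ) * Complex.I) (x : ℂ) := by
    rw [← integral_add hI2 (hI3.const_mul _)]
    congr 1
    funext x
    rw [prg_real f z hz x]
    push_cast
    ring
  have hK2 : ∫ x : ℝ, ((z.2 / ((x - z.1) ^ 2 + z.2 ^ 2) : ℝ) : ℂ) = (Real.pi : ℂ) := by
    rw [← hKi]; exact integral_ofReal
  rw [hsplit, integral_const_mul, integral_const_mul, h0, mul_zero, add_zero, hK2, mul_comm]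

/-- The total mass of the Poisson kernel. -/
theorem PR_one (z : ℝ × ℝ) (hz : 0 < z.2) :
    Integrable (fun x : ℝ => z.2 / ((x - z.1) ^ 2 + z.2 ^ 2)) ∧
    ∫ x : ℝ, z.2 / ((x - z.1) ^ 2 + z.2 ^ 2) = Real.pi := pr_one z hz

end Pool.H14.SR
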