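import Pool.Agent.H14.SR.Basic
import Pool.Agent.H14.SR.PR
open MeasureTheory Set Filter Topology
noncomputable section
namespace Pool.H14.SR

/-- real part form of the Poisson formula. -/
theorem e3_re (f : ℂ → ℂ) (hfc : ContinuousOn f (Metric.closedBall 0 1))
    (hf : DifferentiableOn ℂ f (Metric.ball 0 1)) (z : ℝ × ℝ) (hz : 0 < z.2) :
    Integrable (fun x : ℝ => (f (E (x, 0))).re * (z.2 / ((x - z.1) ^ 2 + z.2 ^ 2))) ∧
    ∫ x : ℝ, (f (E (x, 0))).re * (z.2 / ((x - z.1) ^ 2 + z.2 ^ 2))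
      = Real.pi * (hp f z).re := by
  obtain ⟨hI, hE⟩ := PR f hfc hf z hz
  have hre : ∀ x : ℝ, (f (E (x, 0)) * ((z.2 / ((x - z.1) ^ 2 + z.2 ^ 2) : ℝ) : ℂ)).re
      = (f (E (x, 0))).re * (z.2 / ((x - z.1) ^ 2 + z.2 ^ 2)) := fun x =>
    Complex.re_mul_ofReal _ _
  have h1 : Integrable (fun x : ℝ => (f (E (x, 0)) *
      ((z.2 / ((x - z.1) ^ 2 + z.2 ^ 2) : ℝ) : ℂ)).re) := hI.re
  refine ⟨h1.congr (Eventually.of_forall hre), ?_⟩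
  have h2 : ∫ x : ℝ, (f (E (x, 0)) * ((z.2 / ((x - z.1) ^ 2 + z.2 ^ 2) : ℝ) : ℂ)).re
      = (∫ x : ℝ, f (E (x, 0)) * ((z.2 / ((x - z.1) ^ 2 + z.2 ^ 2) : ℝ) : ℂ)).re :=
    integral_re hI
  rw [hE] at h2
  simp_rw [hre] at h2
  rw [h2, Complex.re_ofReal_mul]

/-- the test function -/
def e3f (a b F : ℂ → ℂ) (l m : ℂ) (w : ℂ) : ℂ :=
  F w - 2 * (a w * starRingEnd ℂ l) - 2 * (b w * starRingEnd ℂ m) + ((‖l‖ ^ 2 + ‖m‖ ^ 2 : ℝ) : ℂ)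

theorem e3f_re (a b F : ℂ → ℂ) (l m : ℂ) (w : ℂ) :
    (e3f a b F l m w).re
      = ((F w).re - ‖a w‖ ^ 2 - ‖b w‖ ^ 2) + ‖a w - l‖ ^ 2 + ‖b w - m‖ ^ 2 := by
  unfold e3f
  rw [Complex.add_re, Complex.sub_re, Complex.sub_re, Complex.ofReal_re]
  have h : ∀ u v : ℂ, ‖u - v‖ ^ 2 = ‖u‖ ^ 2 + ‖v‖ ^ 2 - (2 * (u * starRingEnd ℂ v)).re := by
    intro u v
    rw [← Complex.normSq_eq_norm_sq, ← Complex.normSq_eq_norm_sq, ← Complex.normSq_eq_norm_sq,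
      Complex.normSq_sub]
    have : (2 * (u * starRingEnd ℂ v)).re = 2 * (u * starRingEnd ℂ v).re := by
      have h2 : (2 : ℂ) = ((2 : ℝ) : ℂ) := by norm_num
      rw [h2, Complex.re_ofReal_mul]
    rw [this]
  rw [h (a w) l, h (b w) m]
  ring

theorem e3_key {δ ρ : ℝ} {a b F : ℂ → ℂ} (h : Dat δ ρ a b F) (z z' : ℝ × ℝ) (hz : 0 < z.2)
    (hz' : 0 < z'.2) (H : ℝ)
    (hH : ∀ u : ℝ, z.2 / ((u - z.1) ^ 2 + z.2 ^ 2) ≤ H * (z'.2 / ((u - z'.1) ^ 2 + z'.2 ^ 2))) :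
    Osc a b F z ≤ H * Osc a b F z' := by
  set f := e3f a b F (hp a z') (hp b z') with hfdef
  have hsub : Metric.closedBall (0 : ℂ) 1 ⊆ Metric.ball 0 ρ := Metric.closedBall_subset_ball h.hρ
  have hd : DifferentiableOn ℂ f (Metric.ball 0 ρ) := by
    have h1 := h.ha
    have h2 := h.hb
    have h3 := h.hF
    rw [hfdef]
    unfold e3f
    fun_prop
  have hfc : ContinuousOn f (Metric.closedBall 0 1) := hd.continuousOn.mono hsub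
  have hfd : DifferentiableOn ℂ f (Metric.ball 0 1) :=
    hd.mono (Metric.ball_subset_ball h.hρ.le)
  obtain ⟨hI, hE⟩ := e3_re f hfc hfd z hz
  obtain ⟨hI', hE'⟩ := e3_re f hfc hfd z' hz'
  have hpos : ∀ x : ℝ, 0 ≤ (f (E (x, 0))).re := by
    intro x
    rw [hfdef, e3f_re]
    have hm : E (x, 0) ∈ Metric.ball (0 : ℂ) ρ := hsub (E_mem_closedBall (le_refl _))
    have := h.hO _ hm
    have h4 : 0 ≤ (F (E (x, 0))).re - ‖a (E (x, 0))‖ ^ 2 - ‖b (E (x, 0))‖ ^ 2 := by linarith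
    positivity
  have hle : ∫ x : ℝ, (f (E (x, 0))).re * (z.2 / ((x - z.1) ^ 2 + z.2 ^ 2))
      ≤ ∫ x : ℝ, H * ((f (E (x, 0))).re * (z'.2 / ((x - z'.1) ^ 2 + z'.2 ^ 2))) := by
    refine integral_mono hI (hI'.const_mul H) (fun x => ?_)
    have := mul_le_mul_of_nonneg_left (hH x) (hpos x)
    calc _ ≤ _ := this
      _ = _ := by ring
  rw [hE, integral_const_mul, hE'] at hle
  have hpi := Real.pi_pos
  have h5 : (hp f z).re ≤ H * (hp f z').re := by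
    have : Real.pi * (hp f z).re ≤ Real.pi * (H * (hp f z').re) := by
      calc _ ≤ _ := hle
        _ = _ := by ring
    exact le_of_mul_le_mul_left this hpi
  have h6 : (hp f z').re = Osc a b F z' := by
    unfold hp Osc
    rw [hfdef, e3f_re]
    unfold hp
    simp
  have h7 : Osc a b F z ≤ (hp f z).re := by
    unfold Osc
    unfold hp
    rw [hfdef, e3f_re]
    unfold hp
    nlinarith [sq_nonneg (‖a (E z) - a (E z')‖), sq_nonneg (‖b (E z) - b (E z')‖)]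
  rw [h6] at h5
  exact h7.trans h5

/-- **(E3)** Harnack's inequality for `O`: `|x-x'| ≤ s`, `θ s ≤ y ≤ s`:
`O(x',s) ≤ (3/θ) O(x,y)` and `O(x,y) ≤ (3/θ) O(x',s)`.

Proof: by `PR`, for every `z` with `z_y > 0` and every complex `λ, μ`,
`π O(z) ≤ ∫ Φ_{λ,μ}(x) P_z(x) dx` with `Φ_{λ,μ} = (Re F - |a|²-|b|²) + |a-λ|² + |b-μ|² ≥ 0` on `y = 0`, with
equality for `λ = a(z)`, `μ = b(z)`.  For `z, z'` apply this with `λ = a(z'), μ = b(z')`, and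
`P_z ≤ H P_{z'}`.  Ratio of the kernels `P_{(x,y)}(u) = y/((u-x)²+y²)`:
`P_{(x,y)}/P_{(x',s)} = (y/s)((u-x')²+s²)/((u-x)²+y²) ≤ (y/s)(2(u-x)²+3s²)/((u-x)²+y²) ≤ 3s/y ≤ 3/θ`, and
`P_{(x',s)}/P_{(x,y)} = (s/y)((u-x)²+y²)/((u-x')²+s²) ≤ (s/y)(2(u-x')²+2s²+y²)/((u-x')²+s²) ≤ 3s/y ≤ 3/θ`. -/
theorem E3 {δ ρ : ℝ} {a b F : ℂ → ℂ} (h : Dat δ ρ a b F) (θ : ℝ) (hθ : 0 < θ) (hθ1 : θ ≤ 1)
    (x x' y s : ℝ) (hs : 0 < s) (hxx : |x - x'| ≤ s) (hy1 : θ * s ≤ y) (hy2 : y ≤ s) :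
    Osc a b F (x', s) ≤ 3 / θ * Osc a b F (x, y) ∧
    Osc a b F (x, y) ≤ 3 / θ * Osc a b F (x', s) := by
  have hy : 0 < y := lt_of_lt_of_le (by positivity) hy1
  have hxx2 : (x - x') ^ 2 ≤ s ^ 2 := by
    rw [← sq_abs (x - x')]
    exact pow_le_pow_left₀ (abs_nonneg _) hxx 2
  constructor
  · refine e3_key h (x', s) (x, y) hs hy (3 / θ) (fun u => ?_)
    simp only
    rw [div_mul_div_comm, div_le_div_iff₀ (by positivity) (by positivity)]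
    have h1 : (u - x) ^ 2 + y ^ 2 ≤ 3 * ((u - x') ^ 2 + s ^ 2) := by
      nlinarith [sq_nonneg ((u - x') + (x - x'))]
    have h2 : s * (θ * ((u - x) ^ 2 + y ^ 2)) ≤ s * (θ * (3 * ((u - x') ^ 2 + s ^ 2))) := by
      gcongr
    have h3 : θ * s * (3 * ((u - x') ^ 2 + s ^ 2)) ≤ y * (3 * ((u - x') ^ 2 + s ^ 2)) :=
      mul_le_mul_of_nonneg_right hy1 (by positivity)
    nlinarith
  · refine e3_key h (x, y) (x', s) hy hs (3 / θ) (fun u => ?_)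
    simp only
    rw [div_mul_div_comm, div_le_div_iff₀ (by positivity) (by positivity)]
    have h1 : (u - x') ^ 2 + s ^ 2 ≤ 2 * (u - x) ^ 2 + 3 * s ^ 2 := by
      nlinarith [sq_nonneg ((u - x) - (x - x'))]
    have h2 : y * (θ * ((u - x') ^ 2 + s ^ 2)) ≤ y * (θ * (2 * (u - x) ^ 2 + 3 * s ^ 2)) := by
      gcongr
    have h3 : y * θ ≤ s * 1 := mul_le_mul hy2 hθ1 hθ.le hs.le
    have h4 : y * θ * (2 * (u - x) ^ 2) ≤ s * 1 * (3 * (u - x) ^ 2) := by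
      refine mul_le_mul h3 ?_ (by positivity) (by positivity)
      nlinarith [sq_nonneg (u - x)]
    have h5 : (θ * s) * (3 * s * y) ≤ y * (3 * s * y) :=
      mul_le_mul_of_nonneg_right hy1 (by positivity)
    nlinarith

end Pool.H14.SR
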