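import Pool.Agent.H14.SR.Basic
import Pool.Agent.H14.SR.E3
open MeasureTheory Set Filter Topology
noncomputable section
namespace Pool.H14.SR

open scoped ENNReal

/-! ### Tonelli -/

theorem bn_T0 (g : ℝ → ℝ≥0∞) (hg : Measurable g) (s : ℝ) :
    ∫⁻ x, ∫⁻ t in Set.Icc (x - s) (x + s), g t = ENNReal.ofReal (2 * s) * ∫⁻ t, g t := by
  let D : Set (ℝ × ℝ) := {p | p.2 - s ≤ p.1 ∧ p.1 ≤ p.2 + s}
  have hD : MeasurableSet D := by
    have m1 : MeasurableSet {p : ℝ × ℝ | p.2 - s ≤ p.1} :=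
      measurableSet_le (by fun_prop) (by fun_prop)
    have m2 : MeasurableSet {p : ℝ × ℝ | p.1 ≤ p.2 + s} :=
      measurableSet_le (by fun_prop) (by fun_prop)
    exact m1.inter m2
  have h1 : ∀ x, ∫⁻ t in Set.Icc (x - s) (x + s), g t =
      ∫⁻ t, D.indicator (fun p => g p.2) (x, t) := by
    intro x
    rw [← lintegral_indicator measurableSet_Icc]
    refine lintegral_congr fun t => ?_
    by_cases ht : t ∈ Set.Icc (x - s) (x + s)
    · rw [Set.indicator_of_mem ht, Set.indicator_of_mem]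
      exact ⟨by have := ht.2; change t - s ≤ x; linarith,
        by have := ht.1; change x ≤ t + s; linarith⟩
    · rw [Set.indicator_of_notMem ht, Set.indicator_of_notMem]
      rintro ⟨h2, h3⟩
      change t - s ≤ x at h2
      change x ≤ t + s at h3
      exact ht ⟨by linarith, by linarith⟩
  simp_rw [h1]
  rw [lintegral_lintegral_swap]
  · have h2 : ∀ t, ∫⁻ x, D.indicator (fun p => g p.2) (x, t) = ENNReal.ofReal (2 * s) * g t := by
      intro t
      have h3 : ∀ x, D.indicator (fun p => g p.2) (x, t) =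
          (Set.Icc (t - s) (t + s)).indicator (fun _ => g t) x := by
        intro x
        by_cases hx : x ∈ Set.Icc (t - s) (t + s)
        · rw [Set.indicator_of_mem hx, Set.indicator_of_mem]
          exact ⟨hx.1, hx.2⟩
        · rw [Set.indicator_of_notMem hx, Set.indicator_of_notMem]
          rintro ⟨h2, h3⟩
          exact hx ⟨h2, h3⟩
      simp_rw [h3]
      rw [lintegral_indicator measurableSet_Icc, lintegral_const,
        Measure.restrict_apply MeasurableSet.univ, univ_inter, Real.volume_Icc, mul_comm]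
      congr 2
      ring
    simp_rw [h2]
    rw [lintegral_const_mul _ hg]
  · have h4 : Measurable (D.indicator (fun p : ℝ × ℝ => g p.2)) :=
      (hg.comp measurable_snd).indicator hD
    exact h4.aemeasurable

theorem bn_T3 (g : ℝ → ℝ≥0∞) (hg : Measurable g) :
    ∫⁻ y in Set.Ioi (0 : ℝ), ∫⁻ σ in Set.Ioi y, g σ =
      ∫⁻ σ in Set.Ioi (0 : ℝ), ENNReal.ofReal σ * g σ := by
  let D : Set (ℝ × ℝ) := {p | 0 < p.1 ∧ p.1 < p.2}
  have hD : MeasurableSet D := by
    have m1 : MeasurableSet {p : ℝ × ℝ | 0 < p.1} :=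
      measurableSet_lt (by fun_prop) (by fun_prop)
    have m2 : MeasurableSet {p : ℝ × ℝ | p.1 < p.2} :=
      measurableSet_lt (by fun_prop) (by fun_prop)
    exact m1.inter m2
  have h1 : ∫⁻ y in Set.Ioi (0 : ℝ), ∫⁻ σ in Set.Ioi y, g σ =
      ∫⁻ y, ∫⁻ σ, D.indicator (fun p => g p.2) (y, σ) := by
    rw [← lintegral_indicator measurableSet_Ioi]
    refine lintegral_congr fun y => ?_
    by_cases hy : y ∈ Set.Ioi (0 : ℝ)
    · rw [Set.indicator_of_mem hy, ← lintegral_indicator measurableSet_Ioi]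
      refine lintegral_congr fun σ => ?_
      by_cases hσ : σ ∈ Set.Ioi y
      · rw [Set.indicator_of_mem hσ, Set.indicator_of_mem]
        exact ⟨hy, hσ⟩
      · rw [Set.indicator_of_notMem hσ, Set.indicator_of_notMem]
        rintro ⟨_, h3⟩
        exact hσ h3
    · rw [Set.indicator_of_notMem hy]
      symm
      rw [lintegral_eq_zero_of_ae_eq_zero]
      refine Eventually.of_forall fun σ => ?_
      refine Set.indicator_of_notMem ?_ _
      rintro ⟨h3, _⟩
      exact hy h3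
  rw [h1, lintegral_lintegral_swap]
  · rw [← lintegral_indicator measurableSet_Ioi]
    refine lintegral_congr fun σ => ?_
    have h3 : ∀ y, D.indicator (fun p => g p.2) (y, σ) =
        (Set.Ioo 0 σ).indicator (fun _ => g σ) y := by
      intro y
      by_cases hy : y ∈ Set.Ioo 0 σ
      · rw [Set.indicator_of_mem hy, Set.indicator_of_mem]
        exact ⟨hy.1, hy.2⟩
      · rw [Set.indicator_of_notMem hy, Set.indicator_of_notMem]
        rintro ⟨h2, h3⟩
        exact hy ⟨h2, h3⟩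
    simp_rw [h3]
    rw [lintegral_indicator measurableSet_Ioo, lintegral_const,
      Measure.restrict_apply MeasurableSet.univ, univ_inter, Real.volume_Ioo, mul_comm, sub_zero]
    by_cases hσ : σ ∈ Set.Ioi (0 : ℝ)
    · rw [Set.indicator_of_mem hσ]
    · rw [Set.indicator_of_notMem hσ, ENNReal.ofReal_of_nonpos (not_lt.1 hσ), zero_mul]
  · have h4 : Measurable (D.indicator (fun p : ℝ × ℝ => g p.2)) :=
      (hg.comp measurable_snd).indicator hD
    exact h4.aemeasurable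

theorem bn_HP_meas : MeasurableSet HP := by
  unfold HP
  exact measurableSet_lt (by fun_prop) (by fun_prop)

theorem bn_HP_restrict : (volume : Measure (ℝ × ℝ)).restrict HP =
    (volume : Measure ℝ).prod ((volume : Measure ℝ).restrict (Set.Ioi 0)) := by
  have h1 : HP = (Set.univ : Set ℝ) ×ˢ Set.Ioi (0 : ℝ) := by
    ext p
    simp [HP]
  rw [h1]
  have h2 := Measure.prod_restrict (μ := (volume : Measure ℝ)) (ν := (volume : Measure ℝ))
    (Set.univ : Set ℝ) (Set.Ioi (0 : ℝ))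
  rw [Measure.restrict_univ] at h2
  rw [h2]
  rfl

theorem bn_HP (G : ℝ × ℝ → ℝ≥0∞) (hG : Measurable G) :
    ∫⁻ p in HP, G p = ∫⁻ y in Set.Ioi (0 : ℝ), ∫⁻ x, G (x, y) := by
  rw [bn_HP_restrict, lintegral_prod_symm' _ hG]

/-- measurability of the integral over a moving interval -/
theorem bn_meas_Icc (G : ℝ × ℝ → ℝ≥0∞) (hG : Measurable G) (s : ℝ) :
    Measurable (fun p : ℝ × ℝ => ∫⁻ t in Set.Icc (p.1 - s) (p.1 + s), G (t, p.2)) := by
  let D : Set ((ℝ × ℝ) × ℝ) := {q | q.1.1 - s ≤ q.2 ∧ q.2 ≤ q.1.1 + s}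
  have hD : MeasurableSet D := by
    have m1 : MeasurableSet {q : (ℝ × ℝ) × ℝ | q.1.1 - s ≤ q.2} :=
      measurableSet_le (by fun_prop) (by fun_prop)
    have m2 : MeasurableSet {q : (ℝ × ℝ) × ℝ | q.2 ≤ q.1.1 + s} :=
      measurableSet_le (by fun_prop) (by fun_prop)
    exact m1.inter m2
  have h1 : ∀ p : ℝ × ℝ, ∫⁻ t in Set.Icc (p.1 - s) (p.1 + s), G (t, p.2) =
      ∫⁻ t, D.indicator (fun q => G (q.2, q.1.2)) (p, t) := by
    intro p
    rw [← lintegral_indicator measurableSet_Icc]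
    refine lintegral_congr fun t => ?_
    by_cases ht : t ∈ Set.Icc (p.1 - s) (p.1 + s)
    · rw [Set.indicator_of_mem ht, Set.indicator_of_mem]
      exact ⟨ht.1, ht.2⟩
    · rw [Set.indicator_of_notMem ht, Set.indicator_of_notMem]
      rintro ⟨h2, h3⟩
      exact ht ⟨h2, h3⟩
  simp_rw [h1]
  have h4 : Measurable (D.indicator (fun q : (ℝ × ℝ) × ℝ => G (q.2, q.1.2))) :=
    (hG.comp (by fun_prop)).indicator hD
  exact h4.lintegral_prod_right'

theorem bn_meas_Ioi (G : ℝ × ℝ → ℝ≥0∞) (hG : Measurable G) :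
    Measurable (fun p : ℝ × ℝ => ∫⁻ σ in Set.Ioi p.2, G (p.1, σ)) := by
  let D : Set ((ℝ × ℝ) × ℝ) := {q | q.1.2 < q.2}
  have hD : MeasurableSet D := measurableSet_lt (by fun_prop) (by fun_prop)
  have h1 : ∀ p : ℝ × ℝ, ∫⁻ σ in Set.Ioi p.2, G (p.1, σ) =
      ∫⁻ σ, D.indicator (fun q => G (q.1.1, q.2)) (p, σ) := by
    intro p
    rw [← lintegral_indicator measurableSet_Ioi]
    refine lintegral_congr fun t => ?_
    by_cases ht : t ∈ Set.Ioi p.2
    · rw [Set.indicator_of_mem ht, Set.indicator_of_mem]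
      exact ht
    · rw [Set.indicator_of_notMem ht, Set.indicator_of_notMem]
      exact ht
  simp_rw [h1]
  have h4 : Measurable (D.indicator (fun q : (ℝ × ℝ) × ℝ => G (q.1.1, q.2))) :=
    (hG.comp (by fun_prop)).indicator hD
  exact h4.lintegral_prod_right'

theorem bn_T1 (G : ℝ × ℝ → ℝ≥0∞) (hG : Measurable G) (s : ℝ) :
    ∫⁻ p in HP, ∫⁻ t in Set.Icc (p.1 - s) (p.1 + s), G (t, p.2) =
      ENNReal.ofReal (2 * s) * ∫⁻ p in HP, G p := by
  rw [bn_HP _ (bn_meas_Icc G hG s), bn_HP _ hG]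
  have h1 : ∀ y, ∫⁻ x, ∫⁻ t in Set.Icc (x - s) (x + s), G (t, y) =
      ENNReal.ofReal (2 * s) * ∫⁻ x, G (x, y) :=
    fun y => bn_T0 _ (hG.comp (by fun_prop)) s
  simp_rw [h1]
  rw [lintegral_const_mul]
  exact Measurable.lintegral_prod_left' hG

theorem bn_T2 (G : ℝ × ℝ → ℝ≥0∞) (hG : Measurable G) (s : ℝ) :
    ∫⁻ p in HP, ∫⁻ t in Set.Icc (p.1 - s) (p.1 + s), ∫⁻ σ in Set.Ioi p.2, G (t, σ) =
      ENNReal.ofReal (2 * s) * ∫⁻ p in HP, ENNReal.ofReal p.2 * G p := by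
  have h0 := bn_meas_Ioi G hG
  rw [bn_T1 (fun p => ∫⁻ σ in Set.Ioi p.2, G (p.1, σ)) h0 s]
  congr 1
  rw [bn_HP _ h0, bn_HP (fun p => ENNReal.ofReal p.2 * G p)
    ((ENNReal.measurable_ofReal.comp measurable_snd).mul hG)]
  have e1 : ∫⁻ y in Set.Ioi (0 : ℝ), ∫⁻ x, ∫⁻ σ in Set.Ioi y, G (x, σ) =
      ∫⁻ x, ∫⁻ y in Set.Ioi (0 : ℝ), ∫⁻ σ in Set.Ioi y, G (x, σ) :=
    lintegral_lintegral_swap (f := fun y x => ∫⁻ σ in Set.Ioi y, G (x, σ))
      (h0.comp measurable_swap).aemeasurable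
  have e2 : ∫⁻ y in Set.Ioi (0 : ℝ), ∫⁻ x, ENNReal.ofReal y * G (x, y) =
      ∫⁻ x, ∫⁻ y in Set.Ioi (0 : ℝ), ENNReal.ofReal y * G (x, y) :=
    lintegral_lintegral_swap (f := fun y x => ENNReal.ofReal y * G (x, y))
      (((ENNReal.measurable_ofReal.comp measurable_snd).mul hG).comp
        measurable_swap).aemeasurable
  refine e1.trans (Eq.trans ?_ e2.symm)
  refine lintegral_congr fun x => ?_
  exact bn_T3 (fun σ => G (x, σ)) (hG.comp (by fun_prop))

theorem bn_ofReal_le {α : Type} [MeasurableSpace α] (μ : Measure α) (f : α → ℝ)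
    (hf : ∀ x, 0 ≤ f x) : ENNReal.ofReal (∫ x, f x ∂μ) ≤ ∫⁻ x, ENNReal.ofReal (f x) ∂μ := by
  by_cases h : Integrable f μ
  · rw [ofReal_integral_eq_lintegral_ofReal h (Eventually.of_forall hf)]
  · rw [integral_undef h, ENNReal.ofReal_zero]
    exact zero_le

/-! ### kernels -/

theorem bn_qk_nonneg (z p : ℝ × ℝ) (hz : 0 < z.2) : 0 ≤ qk z p := by
  unfold qk
  positivity

theorem bn_qk_le (z p q : ℝ × ℝ) (hz : 0 < z.2) (hp : 0 < p.2) (hq : 0 < q.2) (K : ℝ)
    (hK : (q.1 - z.1) ^ 2 + (q.2 + z.2) ^ 2 ≤ K * ((p.1 - z.1) ^ 2 + (p.2 + z.2) ^ 2)) :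
    qk z p ≤ K * qk z q := by
  unfold qk
  have h1 : 0 < (p.1 - z.1) ^ 2 + (p.2 + z.2) ^ 2 := by positivity
  have h2 : 0 < (q.1 - z.1) ^ 2 + (q.2 + z.2) ^ 2 := by positivity
  rw [mul_div_assoc', div_le_div_iff₀ h1 h2]
  nlinarith [mul_le_mul_of_nonneg_left hK (by positivity : (0 : ℝ) ≤ 4 * z.2)]

theorem bn_near (A D T y s z : ℝ) (hy : 0 < y) (hz : 0 < z) (hD : |D| ≤ s) (hs : s ≤ y / 2)
    (hT : T = A - D) : T ^ 2 + (y + z) ^ 2 ≤ 3 * (A ^ 2 + (y + z) ^ 2) := by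
  have h1 : T ^ 2 ≤ 2 * A ^ 2 + 2 * D ^ 2 := by
    have := sq_nonneg (A + D)
    rw [hT]
    linarith [this, (by ring : (A - D) ^ 2 + (A + D) ^ 2 = 2 * A ^ 2 + 2 * D ^ 2)]
  have h2 : D ^ 2 ≤ (y / 2) ^ 2 := by
    rw [← sq_abs]
    exact pow_le_pow_left₀ (abs_nonneg D) (hD.trans hs) 2
  have h3 : y ^ 2 ≤ (y + z) ^ 2 := pow_le_pow_left₀ hy.le (by linarith) 2
  have h4 : (y / 2) ^ 2 = y ^ 2 / 4 := by ring
  have h5 := sq_nonneg A
  have h6 := sq_nonneg (y + z)
  linarith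

theorem bn_far (θ h s A D T y σ z : ℝ) (hθ : 0 < θ) (hθ1 : θ ≤ 1 / 4) (hh : 0 < h) (hs : 0 < s)
    (hs2 : s ≤ h / 4) (hy : 0 < y) (hz : 0 < z) (hD : |D| ≤ s) (hT : T = A - D)
    (hθh : θ * h ≤ y) (hσ : σ ≤ 2 * h) :
    T ^ 2 + (σ + z) ^ 2 ≤ 12 / θ ^ 2 * (A ^ 2 + (y + z) ^ 2) ∨ σ + z < 0 := by
  rcases lt_or_ge (σ + z) 0 with hneg | hpos
  · exact Or.inr hneg
  left
  rw [div_mul_eq_mul_div, le_div_iff₀ (by positivity)]
  have h1 : T ^ 2 ≤ 2 * A ^ 2 + 2 * D ^ 2 := by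
    have := sq_nonneg (A + D)
    rw [hT]
    linarith [this, (by ring : (A - D) ^ 2 + (A + D) ^ 2 = 2 * A ^ 2 + 2 * D ^ 2)]
  have h2 : θ * |D| ≤ y / 4 := by
    have : θ * |D| ≤ θ * (h / 4) := mul_le_mul_of_nonneg_left (hD.trans hs2) hθ.le
    linarith
  have h3 : θ ^ 2 * D ^ 2 ≤ (y / 4) ^ 2 := by
    have := pow_le_pow_left₀ (mul_nonneg hθ.le (abs_nonneg D)) h2 2
    rwa [mul_pow, sq_abs] at this
  have h4 : θ * (σ + z) ≤ 2 * (y + z) := by
    have h5 : θ * σ ≤ θ * (2 * h) := mul_le_mul_of_nonneg_left hσ hθ.le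
    have h6 : θ * z ≤ 1 * z := mul_le_mul_of_nonneg_right (by linarith) hz.le
    linarith
  have h7 : θ ^ 2 * (σ + z) ^ 2 ≤ 4 * (y + z) ^ 2 := by
    have := pow_le_pow_left₀ (mul_nonneg hθ.le hpos) h4 2
    rw [mul_pow, mul_pow] at this
    linarith
  have h8 : θ ^ 2 * A ^ 2 ≤ 1 * A ^ 2 := by
    have : θ ^ 2 ≤ 1 := pow_le_one₀ hθ.le (by linarith)
    exact mul_le_mul_of_nonneg_right this (sq_nonneg A)
  have h9 : θ ^ 2 * T ^ 2 ≤ θ ^ 2 * (2 * A ^ 2 + 2 * D ^ 2) :=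
    mul_le_mul_of_nonneg_left h1 (by positivity)
  have h10 : y ^ 2 ≤ (y + z) ^ 2 := pow_le_pow_left₀ hy.le (by linarith) 2
  have h11 : (y / 4) ^ 2 = y ^ 2 / 16 := by ring
  have h12 := sq_nonneg A
  have h13 := sq_nonneg (y + z)
  have h14 : (T ^ 2 + (σ + z) ^ 2) * θ ^ 2 = θ ^ 2 * T ^ 2 + θ ^ 2 * (σ + z) ^ 2 := by ring
  rw [h14]
  linarith

theorem bn_osc_cont {δ ρ : ℝ} {a b F : ℂ → ℂ} (H : Dat δ ρ a b F) :
    ContinuousOn (Osc a b F) HP := by
  have hρ : 0 < ρ := lt_trans one_pos H.hρ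
  have hsub : HP ⊆ {p : ℝ × ℝ | -Real.log ρ < p.2} := by
    intro p hp
    have h1 := Real.log_pos H.hρ
    have h2 : 0 < p.2 := hp
    change -Real.log ρ < p.2
    linarith
  have ca := (hp_cont hρ H.ha.continuousOn).mono hsub
  have cb := (hp_cont hρ H.hb.continuousOn).mono hsub
  have cF := (hp_cont hρ H.hF.continuousOn).mono hsub
  unfold Osc
  exact ((Complex.continuous_re.comp_continuousOn cF).sub (ca.norm.pow 2)).sub (cb.norm.pow 2)

theorem bn_osc_nonneg {δ ρ : ℝ} {a b F : ℂ → ℂ} (H : Dat δ ρ a b F) (p : ℝ × ℝ) (hpp : 0 < p.2) :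
    0 ≤ Osc a b F p := by
  have hρ : 0 < ρ := lt_trans one_pos H.hρ
  have h1 := Real.log_pos H.hρ
  have h2 := H.hO (E p) (E_mem_ball hρ (by linarith))
  unfold Osc hp
  linarith


/-- **(BN)** Near part of the potential of one band.

Proof: (`O = Osc a b F`.)  `X₁` part: `m(t',y) ≠ 0` forces `y ≥ h/2 ≥ 2s`; for `|x-t'| ≤ s ≤ y/2`: `O(t',y) ≤ 3O(x,y)` (`E3`,
`θ = 1`, scale `y`), so `e^{-tO(x,y)/2} ≤ e^{-tO(t',y)/6} ≤ e^{-(tθ/12)O(t',y)}`, and `q_z(x,y) ≤ 3q_z(t',y)`; Tonelli and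
`∫_{|x-t'| ≤ s}dx = 2s ≤ y`: contribution `≤ 3∬ m e^{-(tθ/12)O} y q_z`.
`X₂` part (`y ≥ θh`): `X₂(x,y) ≤ (2/s)∬_{|t'-x| ≤ s, σ > y} m(t',σ)`, `h/2 ≤ σ ≤ 2h`, `(θ/2)σ ≤ θh ≤ y ≤ σ`, `|x-t'| ≤ s ≤ σ`:
`O(t',σ) ≤ (6/θ)O(x,y)` (`E3` with `θ/2`), `q_z(x,y) ≤ (12/θ²)q_z(t',σ)`
(`(x_z-t')²+(y_z+σ)² ≤ 2(x_z-x)²+2s²+(y_z+σ)² ≤ (3·4/θ²)((x_z-x)²+(y_z+y)²)`), so the contribution is
`≤ (2/s)(2s)(12/θ²)∬ m(t',σ) e^{-(tθ/12)O} σ q_z = (48/θ²)∬…`.  Sum `≤ 100/θ²`. -/
theorem BN {δ ρ : ℝ} {a b F : ℂ → ℂ} (H : Dat δ ρ a b F) (h s t θ : ℝ) (hh : 0 < h) (hs : 0 < s)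
    (hs2 : s ≤ h / 4) (ht : 0 < t) (hθ : 0 < θ) (hθ1 : θ ≤ 1 / 4)
    (m : ℝ × ℝ → ℝ) (hm : Continuous m) (m0 : ∀ p, 0 ≤ m p)
    (hsupp : ∀ p : ℝ × ℝ, m p ≠ 0 → h / 2 ≤ p.2 ∧ p.2 ≤ 2 * h)
    (X1 X2 : ℝ × ℝ → ℝ) (hX1c : Measurable X1) (hX2c : Measurable X2)
    (hX1 : ∀ p : ℝ × ℝ, |X1 p| ≤ ∫ t in Set.Icc (p.1 - s) (p.1 + s), m (t, p.2))
    (hX2 : ∀ p : ℝ × ℝ, 0 ≤ X2 p ∧
        X2 p ≤ 2 / s * ∫ t in Set.Icc (p.1 - s) (p.1 + s), ∫ y in Set.Ioi p.2, m (t, y))
    (z : ℝ × ℝ) (hz : 0 < z.2) :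
    ∫⁻ p in HP, ENNReal.ofReal (Real.exp (-(t * Osc a b F p / 2))
        * (|X1 p| + (if θ * h ≤ p.2 then X2 p else 0)) * qk z p)
      ≤ ENNReal.ofReal (100 / θ ^ 2) * ∫⁻ p in HP, ENNReal.ofReal
        (m p * Real.exp (-(t * θ / 12 * Osc a b F p)) * (p.2 * qk z p)) := by
  have hh4 : 2 * s ≤ h / 2 := by linarith
  -- the integrand on the right
  let g : ℝ × ℝ → ℝ := fun q => m q * Real.exp (-(t * θ / 12 * Osc a b F q)) * qk z q
  let G : ℝ × ℝ → ℝ≥0∞ := HP.indicator (fun q => ENNReal.ofReal (g q))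
  have hgc : ContinuousOn g HP := by
    have h1 : ContinuousOn (fun q : ℝ × ℝ => Real.exp (-(t * θ / 12 * Osc a b F q))) HP :=
      Real.continuous_exp.comp_continuousOn (continuousOn_const.mul (bn_osc_cont H)).neg
    have h2 : ContinuousOn (fun q : ℝ × ℝ => qk z q) HP := by
      unfold qk
      refine ContinuousOn.div continuousOn_const (by fun_prop) fun q hq => ?_
      have h3 : 0 < q.2 := hq
      positivity
    exact (hm.continuousOn.mul h1).mul h2
  have hg0 : ∀ q, 0 ≤ g q := fun q =>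
    mul_nonneg (mul_nonneg (m0 q) (Real.exp_pos _).le) (bn_qk_nonneg z q hz)
  have hGm : Measurable G := by
    classical
    have h1 := ContinuousOn.measurable_piecewise (s := HP)
      (f := fun q => ENNReal.ofReal (g q)) (g := fun _ => (0 : ℝ≥0∞))
      (ENNReal.continuous_ofReal.comp_continuousOn hgc) continuousOn_const bn_HP_meas
    have h2 : G = HP.piecewise (fun q => ENNReal.ofReal (g q)) (fun _ => (0 : ℝ≥0∞)) := by
      funext q
      by_cases hq : q ∈ HP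
      · rw [Set.piecewise_eq_of_mem _ _ _ hq]
        exact Set.indicator_of_mem hq _
      · rw [Set.piecewise_eq_of_notMem _ _ _ hq]
        exact Set.indicator_of_notMem hq _
    rw [h2]
    exact h1
  have hGp : ∀ q : ℝ × ℝ, 0 < q.2 → G q = ENNReal.ofReal (g q) := fun q hq =>
    Set.indicator_of_mem (s := HP) hq _
  -- the right hand side
  have hR : ∫⁻ p in HP, ENNReal.ofReal
        (m p * Real.exp (-(t * θ / 12 * Osc a b F p)) * (p.2 * qk z p)) =
      ∫⁻ p in HP, ENNReal.ofReal p.2 * G p := by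
    refine setLIntegral_congr_fun bn_HP_meas fun p hp => ?_
    have hp' : 0 < p.2 := hp
    rw [hGp p hp', ← ENNReal.ofReal_mul hp'.le]
    congr 1
    change _ = p.2 * (m p * Real.exp (-(t * θ / 12 * Osc a b F p)) * qk z p)
    ring
  rw [hR]
  -- first part, pointwise
  have hP1 : ∀ p : ℝ × ℝ, 0 < p.2 →
      ENNReal.ofReal (Real.exp (-(t * Osc a b F p / 2)) * |X1 p| * qk z p) ≤
      ENNReal.ofReal 3 * ∫⁻ t' in Set.Icc (p.1 - s) (p.1 + s), G (t', p.2) := by
    intro p hp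
    have hw0 : 0 ≤ Real.exp (-(t * Osc a b F p / 2)) * qk z p :=
      mul_nonneg (Real.exp_pos _).le (bn_qk_nonneg z p hz)
    have e1 : Real.exp (-(t * Osc a b F p / 2)) * |X1 p| * qk z p ≤
        (Real.exp (-(t * Osc a b F p / 2)) * qk z p) *
        ∫ t' in Set.Icc (p.1 - s) (p.1 + s), m (t', p.2) := by
      have := mul_le_mul_of_nonneg_left (hX1 p) hw0
      linarith
    refine (ENNReal.ofReal_le_ofReal e1).trans ?_
    rw [ENNReal.ofReal_mul hw0]
    have e2 := bn_ofReal_le ((volume : Measure ℝ).restrict (Set.Icc (p.1 - s) (p.1 + s)))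
      (fun t' => m (t', p.2)) (fun t' => m0 _)
    refine (mul_le_mul_right e2 _).trans ?_
    rw [← lintegral_const_mul' _ _ ENNReal.ofReal_ne_top,
      ← lintegral_const_mul' _ _ ENNReal.ofReal_ne_top]
    refine setLIntegral_mono' measurableSet_Icc fun t' ht' => ?_
    rw [hGp (t', p.2) hp, ← ENNReal.ofReal_mul hw0, ← ENNReal.ofReal_mul (by norm_num)]
    refine ENNReal.ofReal_le_ofReal ?_
    by_cases hmz : m (t', p.2) = 0
    · rw [hmz, mul_zero]
      exact mul_nonneg (by norm_num) (hg0 _)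
    · have hy := hsupp _ hmz
      simp only at hy
      have hx : |p.1 - t'| ≤ s := by
        rw [abs_le]
        constructor <;> linarith [ht'.1, ht'.2]
      have hsy : s ≤ p.2 / 2 := by linarith
      have hE := (E3 H 1 one_pos le_rfl p.1 t' p.2 p.2 hp (by linarith) (by linarith) le_rfl).1
      rw [div_one] at hE
      have hO := bn_osc_nonneg H (t', p.2) hp
      have hexp : Real.exp (-(t * Osc a b F p / 2)) ≤
          Real.exp (-(t * θ / 12 * Osc a b F (t', p.2))) := by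
        apply Real.exp_le_exp.2
        have h1 : t * Osc a b F (t', p.2) ≤ t * (3 * Osc a b F p) :=
          mul_le_mul_of_nonneg_left hE ht.le
        have h2 : t * θ / 12 * Osc a b F (t', p.2) ≤ t * 1 / 12 * Osc a b F (t', p.2) := by
          have : θ ≤ 1 := by linarith
          gcongr
        have h3 : 0 ≤ t * Osc a b F (t', p.2) := mul_nonneg ht.le hO
        nlinarith
      have hq : qk z p ≤ 3 * qk z (t', p.2) := by
        apply bn_qk_le z p (t', p.2) hz hp hp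
        simp only
        exact bn_near (p.1 - z.1) (p.1 - t') (t' - z.1) p.2 s z.2 hp hz hx hsy (by ring)
      have hq0 := bn_qk_nonneg z p hz
      have hq1 := bn_qk_nonneg z (t', p.2) hz
      calc Real.exp (-(t * Osc a b F p / 2)) * qk z p * m (t', p.2)
          ≤ Real.exp (-(t * θ / 12 * Osc a b F (t', p.2))) * (3 * qk z (t', p.2)) *
            m (t', p.2) := by
            have := m0 (t', p.2)
            gcongr
        _ = 3 * g (t', p.2) := by
            change _ = 3 * (m (t', p.2) * Real.exp (-(t * θ / 12 * Osc a b F (t', p.2))) *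
              qk z (t', p.2))
            ring
  -- second part, pointwise
  have hP2 : ∀ p : ℝ × ℝ, 0 < p.2 →
      ENNReal.ofReal (Real.exp (-(t * Osc a b F p / 2)) * (if θ * h ≤ p.2 then X2 p else 0) *
        qk z p) ≤
      ENNReal.ofReal (2 / s * (12 / θ ^ 2)) *
        ∫⁻ t' in Set.Icc (p.1 - s) (p.1 + s), ∫⁻ σ in Set.Ioi p.2, G (t', σ) := by
    intro p hp
    by_cases hph : θ * h ≤ p.2
    swap
    · rw [if_neg hph, mul_zero, zero_mul, ENNReal.ofReal_zero]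
      exact zero_le
    rw [if_pos hph]
    have hw0 : 0 ≤ Real.exp (-(t * Osc a b F p / 2)) * qk z p :=
      mul_nonneg (Real.exp_pos _).le (bn_qk_nonneg z p hz)
    have e1 : Real.exp (-(t * Osc a b F p / 2)) * X2 p * qk z p ≤
        (2 / s * (Real.exp (-(t * Osc a b F p / 2)) * qk z p)) *
        ∫ t' in Set.Icc (p.1 - s) (p.1 + s), ∫ σ in Set.Ioi p.2, m (t', σ) := by
      have := mul_le_mul_of_nonneg_left (hX2 p).2 hw0
      linarith
    refine (ENNReal.ofReal_le_ofReal e1).trans ?_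
    have h2s : 0 ≤ 2 / s := by positivity
    rw [ENNReal.ofReal_mul (mul_nonneg h2s hw0)]
    have e2 := bn_ofReal_le ((volume : Measure ℝ).restrict (Set.Icc (p.1 - s) (p.1 + s)))
      (fun t' => ∫ σ in Set.Ioi p.2, m (t', σ)) (fun t' => integral_nonneg fun σ => m0 _)
    have e3 : ∫⁻ t' in Set.Icc (p.1 - s) (p.1 + s),
        ENNReal.ofReal (∫ σ in Set.Ioi p.2, m (t', σ)) ≤
        ∫⁻ t' in Set.Icc (p.1 - s) (p.1 + s), ∫⁻ σ in Set.Ioi p.2, ENNReal.ofReal (m (t', σ)) :=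
      lintegral_mono fun t' => bn_ofReal_le _ _ fun σ => m0 _
    refine (mul_le_mul_right (e2.trans e3) _).trans ?_
    rw [← lintegral_const_mul' _ _ ENNReal.ofReal_ne_top,
      ← lintegral_const_mul' _ _ ENNReal.ofReal_ne_top]
    refine setLIntegral_mono' measurableSet_Icc fun t' ht' => ?_
    rw [← lintegral_const_mul' _ _ ENNReal.ofReal_ne_top,
      ← lintegral_const_mul' _ _ ENNReal.ofReal_ne_top]
    refine setLIntegral_mono' measurableSet_Ioi fun σ hσ => ?_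
    have hσp : p.2 < σ := hσ
    have hσ0 : 0 < σ := lt_trans hp hσp
    rw [hGp (t', σ) hσ0, ← ENNReal.ofReal_mul (mul_nonneg h2s hw0),
      ← ENNReal.ofReal_mul (by positivity)]
    refine ENNReal.ofReal_le_ofReal ?_
    by_cases hmz : m (t', σ) = 0
    · rw [hmz, mul_zero]
      exact mul_nonneg (by positivity) (hg0 _)
    · have hy := hsupp _ hmz
      simp only at hy
      have hx : |p.1 - t'| ≤ s := by
        rw [abs_le]
        constructor <;> linarith [ht'.1, ht'.2]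
      have hE := (E3 H (θ / 2) (by positivity) (by linarith) p.1 t' p.2 σ hσ0 (by linarith)
        (by nlinarith) hσp.le).1
      have hO := bn_osc_nonneg H (t', σ) hσ0
      have hexp : Real.exp (-(t * Osc a b F p / 2)) ≤
          Real.exp (-(t * θ / 12 * Osc a b F (t', σ))) := by
        apply Real.exp_le_exp.2
        have h1 : θ / 6 * Osc a b F (t', σ) ≤ Osc a b F p := by
          have h2 : θ / 6 * Osc a b F (t', σ) ≤ θ / 6 * (3 / (θ / 2) * Osc a b F (p.1, p.2)) :=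
            mul_le_mul_of_nonneg_left hE (by positivity)
          have h3 : θ / 6 * (3 / (θ / 2)) = 1 := by
            field_simp
            norm_num
          have h4 : θ / 6 * (3 / (θ / 2) * Osc a b F (p.1, p.2)) = Osc a b F p := by
            rw [← mul_assoc, h3, one_mul]
          linarith
        nlinarith [mul_le_mul_of_nonneg_left h1 ht.le]
      have hq : qk z p ≤ 12 / θ ^ 2 * qk z (t', σ) := by
        apply bn_qk_le z p (t', σ) hz hp hσ0
        simp only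
        rcases bn_far θ h s (p.1 - z.1) (p.1 - t') (t' - z.1) p.2 σ z.2 hθ hθ1 hh hs hs2 hp hz
          hx (by ring) hph hy.2 with h1 | h1
        · exact h1
        · linarith
      have hq0 := bn_qk_nonneg z p hz
      have hq1 := bn_qk_nonneg z (t', σ) hz
      calc 2 / s * (Real.exp (-(t * Osc a b F p / 2)) * qk z p) * m (t', σ)
          ≤ 2 / s * (Real.exp (-(t * θ / 12 * Osc a b F (t', σ))) *
            (12 / θ ^ 2 * qk z (t', σ))) * m (t', σ) := by
            have := m0 (t', σ)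
            gcongr
        _ = 2 / s * (12 / θ ^ 2) * g (t', σ) := by
            change _ = 2 / s * (12 / θ ^ 2) *
              (m (t', σ) * Real.exp (-(t * θ / 12 * Osc a b F (t', σ))) * qk z (t', σ))
            ring
  -- assembling
  have hsum : ∫⁻ p in HP, ENNReal.ofReal (Real.exp (-(t * Osc a b F p / 2))
        * (|X1 p| + (if θ * h ≤ p.2 then X2 p else 0)) * qk z p) ≤
      ∫⁻ p in HP, (ENNReal.ofReal 3 * (∫⁻ t' in Set.Icc (p.1 - s) (p.1 + s), G (t', p.2)) +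
        ENNReal.ofReal (2 / s * (12 / θ ^ 2)) *
        ∫⁻ t' in Set.Icc (p.1 - s) (p.1 + s), ∫⁻ σ in Set.Ioi p.2, G (t', σ)) := by
    refine setLIntegral_mono' bn_HP_meas fun p hp => ?_
    have hp' : 0 < p.2 := hp
    have e1 : Real.exp (-(t * Osc a b F p / 2))
        * (|X1 p| + (if θ * h ≤ p.2 then X2 p else 0)) * qk z p =
        Real.exp (-(t * Osc a b F p / 2)) * |X1 p| * qk z p +
        Real.exp (-(t * Osc a b F p / 2)) * (if θ * h ≤ p.2 then X2 p else 0) * qk z p := by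
      ring
    rw [e1]
    refine ENNReal.ofReal_add_le.trans ?_
    exact add_le_add (hP1 p hp') (hP2 p hp')
  refine hsum.trans ?_
  have hm1 := bn_meas_Icc G hGm s
  have hm2 : Measurable (fun p : ℝ × ℝ => ∫⁻ t' in Set.Icc (p.1 - s) (p.1 + s),
      ∫⁻ σ in Set.Ioi p.2, G (t', σ)) :=
    bn_meas_Icc (fun p => ∫⁻ σ in Set.Ioi p.2, G (p.1, σ)) (bn_meas_Ioi G hGm) s
  rw [lintegral_add_left (hm1.const_mul _), lintegral_const_mul _ hm1, lintegral_const_mul _ hm2,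
    bn_T1 G hGm s, bn_T2 G hGm s]
  have hc1 : ENNReal.ofReal (2 * s) * ∫⁻ p in HP, G p ≤ ∫⁻ p in HP, ENNReal.ofReal p.2 * G p := by
    rw [← lintegral_const_mul _ hGm]
    refine setLIntegral_mono' bn_HP_meas fun p hp => ?_
    have hp' : 0 < p.2 := hp
    by_cases hmz : m p = 0
    · have hG0 : G p = 0 := by
        rw [hGp p hp']
        change ENNReal.ofReal (m p * _ * _) = 0
        rw [hmz, zero_mul, zero_mul, ENNReal.ofReal_zero]
      rw [hG0, mul_zero, mul_zero]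
    · have hy := hsupp _ hmz
      exact mul_le_mul_left (ENNReal.ofReal_le_ofReal (by linarith)) _
  set R := ∫⁻ p in HP, ENNReal.ofReal p.2 * G p with hRR
  calc ENNReal.ofReal 3 * (ENNReal.ofReal (2 * s) * ∫⁻ p in HP, G p) +
        ENNReal.ofReal (2 / s * (12 / θ ^ 2)) * (ENNReal.ofReal (2 * s) * R)
      ≤ ENNReal.ofReal 3 * R + ENNReal.ofReal (2 / s * (12 / θ ^ 2)) *
        (ENNReal.ofReal (2 * s) * R) := by
        gcongr
    _ = ENNReal.ofReal (3 + 2 / s * (12 / θ ^ 2) * (2 * s)) * R := by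
        rw [ENNReal.ofReal_add (by norm_num) (by positivity),
          ENNReal.ofReal_mul (by positivity : (0 : ℝ) ≤ 2 / s * (12 / θ ^ 2)), add_mul, mul_assoc]
    _ ≤ ENNReal.ofReal (100 / θ ^ 2) * R := by
        have h1 : 3 + 2 / s * (12 / θ ^ 2) * (2 * s) ≤ 100 / θ ^ 2 := by
          have h2 : 2 / s * (12 / θ ^ 2) * (2 * s) = 48 / θ ^ 2 := by
            field_simp
            ring
          rw [h2]
          have h3 : 3 ≤ 52 / θ ^ 2 := by
            rw [le_div_iff₀ (by positivity)]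
            nlinarith
          have h4 : 100 / θ ^ 2 = 52 / θ ^ 2 + 48 / θ ^ 2 := by ring
          linarith
        gcongr

end Pool.H14.SR
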