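import Pool.Agent.H14.SR.Basic

open MeasureTheory Set Filter Topology
noncomputable section
namespace Pool.H14.SR

namespace G1aux

/-- Green on a rectangle. -/
theorem rect (F Fx G Gy : ℝ × ℝ → ℝ)
    (hF : ∀ p : ℝ × ℝ, 0 ≤ p.2 → HasDerivAt (fun x => F (x, p.2)) (Fx p) p.1)
    (hG : ∀ p : ℝ × ℝ, 0 ≤ p.2 → HasDerivAt (fun y => G (p.1, y)) (Gy p) p.2)
    (cF : ContinuousOn Fx {p | 0 ≤ p.2}) (cG : ContinuousOn Gy {p | 0 ≤ p.2})
    (a b d : ℝ) (hab : a ≤ b) (hd : 0 ≤ d) :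
    ∫ p in Icc a b ×ˢ Icc 0 d, (Fx p + Gy p) =
      (∫ y in (0 : ℝ)..d, (F (b, y) - F (a, y))) + ∫ x in a..b, (G (x, d) - G (x, 0)) := by
  have hK : IsCompact (Icc a b ×ˢ Icc 0 d) := isCompact_Icc.prod isCompact_Icc
  have hsub : Icc a b ×ˢ Icc 0 d ⊆ {p : ℝ × ℝ | 0 ≤ p.2} := fun p hp => hp.2.1
  have iF : IntegrableOn Fx (Icc a b ×ˢ Icc 0 d) := (cF.mono hsub).integrableOn_compact hK
  have iG : IntegrableOn Gy (Icc a b ×ˢ Icc 0 d) := (cG.mono hsub).integrableOn_compact hK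
  rw [integral_add iF iG]
  congr 1
  · have h1 : ∫ p in Icc a b ×ˢ Icc 0 d, Fx p = ∫ x in a..b, ∫ y in (0 : ℝ)..d, Fx (x, y) := by
      rw [Measure.volume_eq_prod, setIntegral_prod]
      · rw [intervalIntegral.integral_of_le hab, integral_Icc_eq_integral_Ioc]
        congr 1
        ext x
        rw [intervalIntegral.integral_of_le hd, integral_Icc_eq_integral_Ioc]
      · rw [← Measure.volume_eq_prod]; exact iF
    rw [h1, MeasureTheory.intervalIntegral_intervalIntegral_swap]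
    · apply intervalIntegral.integral_congr
      intro y hy
      rw [uIcc_of_le hd] at hy
      simp only
      rw [intervalIntegral.integral_eq_sub_of_hasDerivAt (f := fun x => F (x, y))]
      · intro x _
        exact hF (x, y) hy.1
      · apply ContinuousOn.intervalIntegrable
        have : ContinuousOn (Fx ∘ fun x : ℝ => (x, y)) (uIcc a b) :=
          cF.comp (continuous_id.prodMk continuous_const).continuousOn fun x _ => hy.1
        exact this
    · refine iF.mono_set ?_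
      rw [uIoc_of_le hab, uIoc_of_le hd]
      exact prod_mono Ioc_subset_Icc_self Ioc_subset_Icc_self
  · have h1 : ∫ p in Icc a b ×ˢ Icc 0 d, Gy p = ∫ x in a..b, ∫ y in (0 : ℝ)..d, Gy (x, y) := by
      rw [Measure.volume_eq_prod, setIntegral_prod]
      · rw [intervalIntegral.integral_of_le hab, integral_Icc_eq_integral_Ioc]
        congr 1
        ext x
        rw [intervalIntegral.integral_of_le hd, integral_Icc_eq_integral_Ioc]
      · rw [← Measure.volume_eq_prod]; exact iG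
    rw [h1]
    apply intervalIntegral.integral_congr
    intro x _
    simp only
    rw [intervalIntegral.integral_eq_sub_of_hasDerivAt (f := fun y => G (x, y))]
    · intro y hy
      rw [uIcc_of_le hd] at hy
      exact hG (x, y) hy.1
    · apply ContinuousOn.intervalIntegrable
      have : ContinuousOn (Gy ∘ fun y : ℝ => (x, y)) (uIcc 0 d) :=
        cG.comp (continuous_const.prodMk continuous_id).continuousOn fun y hy => by
          rw [uIcc_of_le hd] at hy
          exact hy.1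
      exact this

/-- Cauchy kernel -/
theorem cauchy (c w : ℝ) (hw : 0 < w) :
    Integrable (fun x : ℝ => 1 / ((x - c) ^ 2 + w ^ 2)) ∧
      ∫ x : ℝ, 1 / ((x - c) ^ 2 + w ^ 2) = Real.pi / w := by
  have h1 : (fun x : ℝ => 1 / ((x - c) ^ 2 + w ^ 2)) =
      fun x => (w ^ 2)⁻¹ * (fun t : ℝ => (1 + t ^ 2)⁻¹) ((x - c) / w) := by
    ext x
    have : (x - c) ^ 2 + w ^ 2 ≠ 0 := by positivity
    field_simp
    ring
  constructor
  · rw [h1]
    apply Integrable.const_mul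
    have h2 := (integrable_inv_one_add_sq.comp_div hw.ne').comp_sub_right c
    exact h2
  · rw [h1, integral_const_mul]
    rw [integral_sub_right_eq_self (μ := volume) (fun x => (fun t : ℝ => (1 + t ^ 2)⁻¹) (x / w)) c]
    rw [Measure.integral_comp_div (fun t : ℝ => (1 + t ^ 2)⁻¹) w, integral_univ_inv_one_add_sq,
      abs_of_pos hw, smul_eq_mul]
    field_simp

def D (z p : ℝ × ℝ) : ℝ := (p.1 - z.1) ^ 2 + (p.2 + z.2) ^ 2
def N (z p : ℝ × ℝ) : ℝ := 4 * z.2 * p.2 / D z p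
def Nx (z p : ℝ × ℝ) : ℝ := -(8 * z.2 * p.2 * (p.1 - z.1)) / D z p ^ 2
def Nxx (z p : ℝ × ℝ) : ℝ := -(8 * z.2 * p.2) / D z p ^ 2 + 32 * z.2 * p.2 * (p.1 - z.1) ^ 2 / D z p ^ 3
def Ny (z p : ℝ × ℝ) : ℝ := 4 * z.2 / D z p - 8 * z.2 * p.2 * (p.2 + z.2) / D z p ^ 2
def Nyy (z p : ℝ × ℝ) : ℝ := -(8 * z.2 * (p.2 + z.2)) / D z p ^ 2 -
  8 * z.2 * (2 * p.2 + z.2) / D z p ^ 2 + 32 * z.2 * p.2 * (p.2 + z.2) ^ 2 / D z p ^ 3

theorem D_pos (z p : ℝ × ℝ) (hz : 0 < z.2) (hp : 0 ≤ p.2) : 0 < D z p := by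
  unfold D; positivity

theorem hNx (z : ℝ × ℝ) (hz : 0 < z.2) (p : ℝ × ℝ) (hp : 0 ≤ p.2) :
    HasDerivAt (fun x => N z (x, p.2)) (Nx z p) p.1 := by
  have hD := D_pos z p hz hp
  have h1 : HasDerivAt (fun x => D z (x, p.2)) (2 * (p.1 - z.1)) p.1 := by
    unfold D
    have := (((hasDerivAt_id p.1).sub_const z.1).pow 2).add_const ((p.2 + z.2) ^ 2)
    simpa using this
  have h2 := (hasDerivAt_const p.1 (4 * z.2 * p.2)).div h1 hD.ne'
  refine h2.congr_deriv ?_
  unfold Nx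
  ring

theorem hNxx (z : ℝ × ℝ) (hz : 0 < z.2) (p : ℝ × ℝ) (hp : 0 ≤ p.2) :
    HasDerivAt (fun x => Nx z (x, p.2)) (Nxx z p) p.1 := by
  have hD := D_pos z p hz hp
  have h1 : HasDerivAt (fun x => D z (x, p.2)) (2 * (p.1 - z.1)) p.1 := by
    unfold D
    have := (((hasDerivAt_id p.1).sub_const z.1).pow 2).add_const ((p.2 + z.2) ^ 2)
    simpa using this
  have h3 : HasDerivAt (fun x => -(8 * z.2 * p.2 * (x - z.1))) (-(8 * z.2 * p.2)) p.1 := by
    have := (((hasDerivAt_id p.1).sub_const z.1).const_mul (8 * z.2 * p.2)).fun_neg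
    simpa using this
  have h2 := h3.div (h1.pow 2) (pow_ne_zero 2 hD.ne')
  refine h2.congr_deriv ?_
  unfold Nxx
  have : D z (p.1, p.2) = D z p := rfl
  rw [this]
  have hD' := hD.ne'
  simp only [Pi.pow_apply, this]
  field_simp
  push_cast
  ring

theorem hNy (z : ℝ × ℝ) (hz : 0 < z.2) (p : ℝ × ℝ) (hp : 0 ≤ p.2) :
    HasDerivAt (fun y => N z (p.1, y)) (Ny z p) p.2 := by
  have hD := D_pos z p hz hp
  have h1 : HasDerivAt (fun y => D z (p.1, y)) (2 * (p.2 + z.2)) p.2 := by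
    unfold D
    have := (((hasDerivAt_id p.2).add_const z.2).pow 2).const_add ((p.1 - z.1) ^ 2)
    simpa using this
  have h3 : HasDerivAt (fun y => 4 * z.2 * y) (4 * z.2) p.2 := by
    simpa using (hasDerivAt_id p.2).const_mul (4 * z.2)
  have h2 := h3.div h1 hD.ne'
  refine h2.congr_deriv ?_
  unfold Ny
  have : D z (p.1, p.2) = D z p := rfl
  rw [this]
  field_simp
  ring

theorem hNyy (z : ℝ × ℝ) (hz : 0 < z.2) (p : ℝ × ℝ) (hp : 0 ≤ p.2) :
    HasDerivAt (fun y => Ny z (p.1, y)) (Nyy z p) p.2 := by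
  have hD := D_pos z p hz hp
  have h1 : HasDerivAt (fun y => D z (p.1, y)) (2 * (p.2 + z.2)) p.2 := by
    unfold D
    have := (((hasDerivAt_id p.2).add_const z.2).pow 2).const_add ((p.1 - z.1) ^ 2)
    simpa using this
  have h3 : HasDerivAt (fun y => 8 * z.2 * y * (y + z.2)) (8 * z.2 * (2 * p.2 + z.2)) p.2 := by
    have h4 : HasDerivAt (fun y => 8 * z.2 * y) (8 * z.2) p.2 := by
      simpa using (hasDerivAt_id p.2).const_mul (8 * z.2)
    have h5 := h4.mul ((hasDerivAt_id p.2).add_const z.2)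
    refine h5.congr_deriv ?_
    simp only [id]
    ring
  have h2 := ((hasDerivAt_const p.2 (4 * z.2)).div h1 hD.ne').sub
    (h3.div (h1.pow 2) (pow_ne_zero 2 hD.ne'))
  refine h2.congr_deriv ?_
  unfold Nyy
  have : D z (p.1, p.2) = D z p := rfl
  simp only [Pi.pow_apply, this]
  have hD' := hD.ne'
  field_simp
  push_cast
  ring

theorem lapN (z : ℝ × ℝ) (hz : 0 < z.2) (p : ℝ × ℝ) (hp : 0 ≤ p.2) :
    Nxx z p + Nyy z p = -(16 * z.2 ^ 2) / D z p ^ 2 := by
  have hD := (D_pos z p hz hp).ne'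
  have e : (p.1 - z.1) ^ 2 = D z p - (p.2 + z.2) ^ 2 := by unfold D; ring
  unfold Nxx Nyy
  rw [e]
  field_simp
  ring

theorem cD (z : ℝ × ℝ) : Continuous (D z) := by unfold D; fun_prop

theorem cont_all (z : ℝ × ℝ) (hz : 0 < z.2) :
    ContinuousOn (N z) {p | 0 ≤ p.2} ∧ ContinuousOn (Nx z) {p | 0 ≤ p.2} ∧
    ContinuousOn (Nxx z) {p | 0 ≤ p.2} ∧ ContinuousOn (Ny z) {p | 0 ≤ p.2} ∧
    ContinuousOn (Nyy z) {p | 0 ≤ p.2} := by
  have hD : ∀ p ∈ {p : ℝ × ℝ | 0 ≤ p.2}, D z p ≠ 0 := fun p hp => (D_pos z p hz hp).ne'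
  have hD2 : ∀ p ∈ {p : ℝ × ℝ | 0 ≤ p.2}, D z p ^ 2 ≠ 0 := fun p hp => pow_ne_zero _ (hD p hp)
  have hD3 : ∀ p ∈ {p : ℝ × ℝ | 0 ≤ p.2}, D z p ^ 3 ≠ 0 := fun p hp => pow_ne_zero _ (hD p hp)
  have c1 := cD z
  refine ⟨?_, ?_, ?_, ?_, ?_⟩
  · exact ContinuousOn.div (by fun_prop) c1.continuousOn hD
  · exact ContinuousOn.div (by fun_prop) (c1.pow 2).continuousOn hD2
  · exact (ContinuousOn.div (by fun_prop) (c1.pow 2).continuousOn hD2).add
      (ContinuousOn.div (by fun_prop) (c1.pow 3).continuousOn hD3)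
  · exact (ContinuousOn.div (by fun_prop) c1.continuousOn hD).sub
      (ContinuousOn.div (by fun_prop) (c1.pow 2).continuousOn hD2)
  · exact ((ContinuousOn.div (by fun_prop) (c1.pow 2).continuousOn hD2).sub
      (ContinuousOn.div (by fun_prop) (c1.pow 2).continuousOn hD2)).add
      (ContinuousOn.div (by fun_prop) (c1.pow 3).continuousOn hD3)


theorem Ux_per {σ : ℝ} {U Ux Uxx Uy Uyy : ℝ × ℝ → ℝ} (h : P2 σ U Ux Uxx Uy Uyy) (p : ℝ × ℝ)
    (hp : -σ < p.2) : Ux (p.1 + 2 * Real.pi, p.2) = Ux p := by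
  have h1 := h.dx (p.1 + 2 * Real.pi, p.2) hp
  have h2 : HasDerivAt (fun x : ℝ => U (x + 2 * Real.pi, p.2)) (Ux (p.1 + 2 * Real.pi, p.2)) p.1 :=
    HasDerivAt.comp_add_const (f := fun x => U (x, p.2)) p.1 (2 * Real.pi) h1
  have h3 : (fun x : ℝ => U (x + 2 * Real.pi, p.2)) = fun x => U (x, p.2) := by
    ext x
    exact h.per (x, p.2) hp
  rw [h3] at h2
  exact h2.unique (h.dx p hp)

theorem per_k {σ : ℝ} {V : ℝ × ℝ → ℝ}
    (hV : ∀ p : ℝ × ℝ, -σ < p.2 → V (p.1 + 2 * Real.pi, p.2) = V p) (y : ℝ) (hy : -σ < y)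
    (x : ℝ) (k : ℕ) : V (x + k * (2 * Real.pi), y) = V (x, y) := by
  have hp : Function.Periodic (fun t => V (t, y)) (2 * Real.pi) := fun t => hV (t, y) hy
  exact hp.nat_mul k x

/-- the estimate on one rectangle -/
theorem one (σ : ℝ) (hσ : 0 < σ) (U Ux Uxx Uy Uyy : ℝ × ℝ → ℝ) (h : P2 σ U Ux Uxx Uy Uyy) (B : ℝ)
    (h0 : ∀ p : ℝ × ℝ, 0 ≤ p.2 → 0 ≤ U p) (hB : ∀ p : ℝ × ℝ, 0 ≤ p.2 → U p ≤ B)
    (hUy : ∀ p : ℝ × ℝ, 0 ≤ p.2 → |Uy p| ≤ B * Real.exp (-p.2))
    (z : ℝ × ℝ) (hz : 0 < z.2) (n : ℕ) (hn : 1 ≤ n) :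
    ∫ p in Icc (z.1 - n ^ 2 * Real.pi) (z.1 + n ^ 2 * Real.pi) ×ˢ Icc 0 (n : ℝ),
        (Uxx p + Uyy p) * N z p ≤
      (∫ x : ℝ, U (x, 0) * (4 * z.2 / ((x - z.1) ^ 2 + z.2 ^ 2))) +
        (16 * B * z.2 * Real.pi + 16 * z.2 * B) / n := by
  have hpi := Real.pi_pos
  have hpi3 := Real.pi_gt_three
  have hn1 : (1 : ℝ) ≤ n := by exact_mod_cast hn
  have hn0 : (0 : ℝ) < n := by linarith
  have hn2 : (1 : ℝ) ≤ (n : ℝ) ^ 2 := one_le_pow₀ hn1
  have hnn : (n : ℝ) ≤ (n : ℝ) ^ 2 := by nlinarith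
  have hnp : 1 ≤ (n : ℝ) ^ 2 * Real.pi := by nlinarith
  have hnp2 : (n : ℝ) ^ 2 ≤ (n : ℝ) ^ 2 * Real.pi := by nlinarith
  have B0 : 0 ≤ B := (h0 (0, 0) le_rfl).trans (hB (0, 0) le_rfl)
  set a := z.1 - n ^ 2 * Real.pi with ha
  set b := z.1 + n ^ 2 * Real.pi with hb
  have hL : 0 < (n : ℝ) ^ 2 * Real.pi := by positivity
  have hab : a ≤ b := by linarith
  obtain ⟨cN, cNx, cNxx, cNy, cNyy⟩ := cont_all z hz
  have hsub0 : {p : ℝ × ℝ | 0 ≤ p.2} ⊆ {p : ℝ × ℝ | -σ < p.2} := fun p hp => by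
    have : (0 : ℝ) ≤ p.2 := hp
    show -σ < p.2
    linarith
  have cU := h.c.mono hsub0
  have cUx := h.cx.mono hsub0
  have cUxx := h.cxx.mono hsub0
  have cUy := h.cy.mono hsub0
  have cUyy := h.cyy.mono hsub0
  have lt0 : ∀ p : ℝ × ℝ, 0 ≤ p.2 → -σ < p.2 := fun p hp => by linarith
  set F : ℝ × ℝ → ℝ := fun p => Ux p * N z p - U p * Nx z p with hF
  set G : ℝ × ℝ → ℝ := fun p => Uy p * N z p - U p * Ny z p with hG
  set Fx : ℝ × ℝ → ℝ := fun p => Uxx p * N z p - U p * Nxx z p with hFx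
  set Gy : ℝ × ℝ → ℝ := fun p => Uyy p * N z p - U p * Nyy z p with hGy
  have dF : ∀ p : ℝ × ℝ, 0 ≤ p.2 → HasDerivAt (fun x => F (x, p.2)) (Fx p) p.1 := by
    intro p hp
    have h1 := ((h.dxx p (lt0 p hp)).mul (hNx z hz p hp)).sub
      ((h.dx p (lt0 p hp)).mul (hNxx z hz p hp))
    refine h1.congr_deriv ?_
    simp only [hFx]
    ring
  have dG : ∀ p : ℝ × ℝ, 0 ≤ p.2 → HasDerivAt (fun y => G (p.1, y)) (Gy p) p.2 := by
    intro p hp
    have h1 := ((h.dyy p (lt0 p hp)).mul (hNy z hz p hp)).sub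
      ((h.dy p (lt0 p hp)).mul (hNyy z hz p hp))
    refine h1.congr_deriv ?_
    simp only [hGy]
    ring
  have cFx : ContinuousOn Fx {p | 0 ≤ p.2} := (cUxx.mul cN).sub (cU.mul cNxx)
  have cGy : ContinuousOn Gy {p | 0 ≤ p.2} := (cUyy.mul cN).sub (cU.mul cNyy)
  have cG : ContinuousOn G {p | 0 ≤ p.2} := (cUy.mul cN).sub (cU.mul cNy)
  have cF : ContinuousOn F {p | 0 ≤ p.2} := (cUx.mul cN).sub (cU.mul cNx)
  have hR := rect F Fx G Gy dF dG cFx cGy a b n hab hn0.le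
  have hK : IsCompact (Icc a b ×ˢ Icc 0 (n : ℝ)) := isCompact_Icc.prod isCompact_Icc
  have hsub : Icc a b ×ˢ Icc 0 (n : ℝ) ⊆ {p : ℝ × ℝ | 0 ≤ p.2} := fun p hp => hp.2.1
  -- step 1
  have s1 : ∫ p in Icc a b ×ˢ Icc 0 (n : ℝ), (Uxx p + Uyy p) * N z p ≤
      ∫ p in Icc a b ×ˢ Icc 0 (n : ℝ), (Fx p + Gy p) := by
    apply setIntegral_mono_on
    · exact (((cUxx.add cUyy).mul cN).mono hsub).integrableOn_compact hK
    · exact ((cFx.add cGy).mono hsub).integrableOn_compact hK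
    · exact hK.measurableSet
    · intro p hp
      have hp0 : 0 ≤ p.2 := hp.2.1
      have e := lapN z hz p hp0
      have e2 : 0 ≤ U p * (16 * z.2 ^ 2 / D z p ^ 2) := mul_nonneg (h0 p hp0) (by positivity)
      have e3 : Fx p + Gy p = (Uxx p + Uyy p) * N z p - U p * (Nxx z p + Nyy z p) := by
        simp only [hFx, hGy]; ring
      rw [e3, e]
      have e4 : U p * (-(16 * z.2 ^ 2) / D z p ^ 2) = -(U p * (16 * z.2 ^ 2 / D z p ^ 2)) := by ring
      rw [e4]
      linarith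
  -- lateral
  have s2 : ∫ y in (0 : ℝ)..n, (F (b, y) - F (a, y)) ≤ 16 * z.2 * B / n := by
    have hcb : ContinuousOn (fun y => F (b, y) - F (a, y)) (uIcc 0 (n : ℝ)) := by
      rw [uIcc_of_le hn0.le]
      refine ContinuousOn.sub ?_ ?_
      · exact cF.comp (continuous_const.prodMk continuous_id).continuousOn fun y hy => hy.1
      · exact cF.comp (continuous_const.prodMk continuous_id).continuousOn fun y hy => hy.1
    calc ∫ y in (0 : ℝ)..n, (F (b, y) - F (a, y)) ≤ ∫ y in (0 : ℝ)..n, 16 * z.2 * B / n ^ 2 := by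
          apply intervalIntegral.integral_mono_on hn0.le hcb.intervalIntegrable
            intervalIntegrable_const
          intro y hy
          have hy0 : -σ < y := by linarith [hy.1]
          have eb : b = a + (n ^ 2 : ℕ) * (2 * Real.pi) := by
            simp only [ha, hb]; push_cast; ring
          have e1 : U (b, y) = U (a, y) := by
            rw [eb]; exact per_k h.per y hy0 a (n ^ 2)
          have e2 : Ux (b, y) = Ux (a, y) := by
            rw [eb]; exact per_k (fun p hp => Ux_per h p hp) y hy0 a (n ^ 2)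
          have e3 : D z (b, y) = D z (a, y) := by unfold D; simp only [ha, hb]; ring
          have e4 : N z (b, y) = N z (a, y) := by unfold N; rw [e3]
          have e5 : Nx z (a, y) = -Nx z (b, y) := by
            unfold Nx; rw [e3]; simp only [ha, hb]; ring
          have e6 : F (b, y) - F (a, y) = U (b, y) * (-2 * Nx z (b, y)) := by
            simp only [hF]; rw [e5, e4, e1, e2]; ring
          rw [e6]
          have hDp := D_pos z (b, y) hz hy.1
          have e7 : -2 * Nx z (b, y) = 16 * z.2 * y * (n ^ 2 * Real.pi) / D z (b, y) ^ 2 := by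
            unfold Nx; simp only [hb]; ring
          have hD : ((n : ℝ) ^ 2) ^ 2 ≤ D z (b, y) := by
            have : D z (b, y) = ((n : ℝ) ^ 2 * Real.pi) ^ 2 + (y + z.2) ^ 2 := by
              unfold D; simp only [hb]; ring
            rw [this]
            have : ((n : ℝ) ^ 2) ^ 2 ≤ ((n : ℝ) ^ 2 * Real.pi) ^ 2 :=
              pow_le_pow_left₀ (by positivity) hnp2 2
            linarith [sq_nonneg (y + z.2)]
          have hD' : ((n : ℝ) ^ 2 * Real.pi) ^ 2 ≤ D z (b, y) := by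
            have : D z (b, y) = ((n : ℝ) ^ 2 * Real.pi) ^ 2 + (y + z.2) ^ 2 := by
              unfold D; simp only [hb]; ring
            rw [this]
            linarith [sq_nonneg (y + z.2)]
          have e8 : 16 * z.2 * y * (n ^ 2 * Real.pi) / D z (b, y) ^ 2 ≤ 16 * z.2 / n ^ 2 := by
            rw [div_le_div_iff₀ (by positivity) (by positivity)]
            have g1 : y * (n ^ 2 * Real.pi) * (n : ℝ) ^ 2 ≤ D z (b, y) ^ 2 := by
              have g2 : y ≤ (n : ℝ) ^ 2 := hy.2.trans hnn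
              have g3 : (n : ℝ) ^ 2 * Real.pi ≤ ((n : ℝ) ^ 2 * Real.pi) ^ 2 := by
                exact le_self_pow₀ hnp (by norm_num)
              calc y * (n ^ 2 * Real.pi) * (n : ℝ) ^ 2
                  ≤ (n : ℝ) ^ 2 * (n ^ 2 * Real.pi) * (n : ℝ) ^ 2 := by gcongr
                _ = (((n : ℝ) ^ 2) ^ 2) * (n ^ 2 * Real.pi) := by ring
                _ ≤ D z (b, y) * D z (b, y) := by
                    apply mul_le_mul hD (g3.trans hD') hL.le hDp.le
                _ = D z (b, y) ^ 2 := by ring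
            calc 16 * z.2 * y * (n ^ 2 * Real.pi) * (n : ℝ) ^ 2
                = 16 * z.2 * (y * (n ^ 2 * Real.pi) * (n : ℝ) ^ 2) := by ring
              _ ≤ 16 * z.2 * D z (b, y) ^ 2 := by
                  apply mul_le_mul_of_nonneg_left g1 (by positivity)
          rw [e7]
          calc U (b, y) * (16 * z.2 * y * (n ^ 2 * Real.pi) / D z (b, y) ^ 2)
              ≤ B * (16 * z.2 / n ^ 2) := by
                apply mul_le_mul (hB _ hy.1) e8 _ B0
                have := hy.1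
                positivity
            _ = 16 * z.2 * B / n ^ 2 := by ring
      _ = 16 * z.2 * B / n := by
          rw [intervalIntegral.integral_const, smul_eq_mul, sub_zero]
          field_simp
  -- top and bottom
  have hcx : ∀ y : ℝ, 0 ≤ y → ContinuousOn (fun x => G (x, y)) (uIcc a b) := by
    intro y hy
    exact cG.comp (continuous_id.prodMk continuous_const).continuousOn fun x _ => hy
  have hG0 : ∀ x, G (x, 0) = -(U (x, 0) * (4 * z.2 / ((x - z.1) ^ 2 + z.2 ^ 2))) := by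
    intro x
    simp only [hG, N, Ny, D]
    simp
  obtain ⟨ci, ciI⟩ := cauchy z.1 (n + z.2) (by positivity)
  obtain ⟨cj, _⟩ := cauchy z.1 z.2 hz
  have hGn : ∀ x, G (x, n) ≤ 16 * B * z.2 * (1 / ((x - z.1) ^ 2 + (n + z.2) ^ 2)) := by
    intro x
    have hDp := D_pos z (x, (n : ℝ)) hz hn0.le
    have eD : (x - z.1) ^ 2 + ((n : ℝ) + z.2) ^ 2 = D z (x, n) := rfl
    rw [eD]
    have hNn : 0 ≤ N z (x, (n : ℝ)) := by unfold N; positivity
    have g1 : Uy (x, n) * N z (x, n) ≤ 4 * B * z.2 * (1 / D z (x, n)) := by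
      have e1 : Uy (x, n) ≤ B * Real.exp (-n) := (le_abs_self _).trans (hUy (x, n) hn0.le)
      have e2 : Real.exp (-(n : ℝ)) * n ≤ 1 := by
        rw [Real.exp_neg, inv_mul_le_iff₀ (Real.exp_pos _), mul_one]
        linarith [Real.add_one_le_exp (n : ℝ)]
      calc Uy (x, n) * N z (x, n) ≤ B * Real.exp (-n) * N z (x, n) :=
            mul_le_mul_of_nonneg_right e1 hNn
        _ = 4 * B * z.2 * (1 / D z (x, n)) * (Real.exp (-(n : ℝ)) * n) := by unfold N; ring
        _ ≤ 4 * B * z.2 * (1 / D z (x, n)) * 1 :=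
            mul_le_mul_of_nonneg_left e2 (by positivity)
        _ = _ := by ring
    have g2 : -(U (x, n) * Ny z (x, n)) ≤ 12 * B * z.2 * (1 / D z (x, n)) := by
      have e1 : -Ny z (x, n) ≤ 12 * z.2 * (1 / D z (x, n)) := by
        unfold Ny
        have e2 : 8 * z.2 * (n : ℝ) * (n + z.2) / D z (x, n) ^ 2 ≤ 8 * z.2 / D z (x, n) := by
          rw [div_le_div_iff₀ (by positivity) hDp]
          have e3 : (n : ℝ) * (n + z.2) ≤ D z (x, n) := by
            unfold D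
            nlinarith [sq_nonneg (x - z.1)]
          have : 8 * z.2 * (n : ℝ) * (n + z.2) * D z (x, n) =
            (8 * z.2 * D z (x, n)) * ((n : ℝ) * (n + z.2)) := by ring
          rw [this]
          calc (8 * z.2 * D z (x, n)) * ((n : ℝ) * (n + z.2)) ≤
            (8 * z.2 * D z (x, n)) * D z (x, n) := mul_le_mul_of_nonneg_left e3 (by positivity)
            _ = _ := by ring
        have e4 : 0 ≤ 4 * z.2 / D z (x, n) := by positivity
        have e5 : 12 * z.2 * (1 / D z (x, n)) = 4 * z.2 / D z (x, n) + 8 * z.2 / D z (x, n) := by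
          ring
        simp only
        rw [e5]
        linarith
      have e6 : -Ny z (x, n) ≤ |12 * z.2 * (1 / D z (x, n))| := e1.trans (le_abs_self _)
      calc -(U (x, n) * Ny z (x, n)) = U (x, n) * (-Ny z (x, n)) := by ring
        _ ≤ U (x, n) * (12 * z.2 * (1 / D z (x, n))) :=
            mul_le_mul_of_nonneg_left e1 (h0 _ hn0.le)
        _ ≤ B * (12 * z.2 * (1 / D z (x, n))) :=
            mul_le_mul_of_nonneg_right (hB _ hn0.le) (by positivity)
        _ = _ := by ring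
    simp only [hG]
    have : 16 * B * z.2 * (1 / D z (x, n)) = 4 * B * z.2 * (1 / D z (x, n)) +
      12 * B * z.2 * (1 / D z (x, n)) := by ring
    rw [this]
    linarith
  have s3 : ∫ x in a..b, (G (x, n) - G (x, 0)) ≤ 16 * B * z.2 * Real.pi / n +
      ∫ x : ℝ, U (x, 0) * (4 * z.2 / ((x - z.1) ^ 2 + z.2 ^ 2)) := by
    rw [intervalIntegral.integral_sub (hcx _ hn0.le).intervalIntegrable
      (hcx 0 le_rfl).intervalIntegrable]
    have t1 : ∫ x in a..b, G (x, n) ≤ 16 * B * z.2 * Real.pi / n := by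
      calc ∫ x in a..b, G (x, n) ≤ ∫ x in a..b, 16 * B * z.2 * (1 / ((x - z.1) ^ 2 + (n + z.2) ^ 2)) :=
            intervalIntegral.integral_mono_on hab (hcx _ hn0.le).intervalIntegrable
              (ci.const_mul _).intervalIntegrable fun x _ => hGn x
        _ ≤ ∫ x : ℝ, 16 * B * z.2 * (1 / ((x - z.1) ^ 2 + (n + z.2) ^ 2)) := by
            rw [intervalIntegral.integral_of_le hab]
            apply setIntegral_le_integral (ci.const_mul _)
            exact ae_of_all _ fun x => by simp only [Pi.zero_apply]; positivity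
        _ = 16 * B * z.2 * (Real.pi / (n + z.2)) := by rw [integral_const_mul, ciI]
        _ ≤ 16 * B * z.2 * (Real.pi / n) := by
            apply mul_le_mul_of_nonneg_left _ (by positivity)
            apply div_le_div_of_nonneg_left hpi.le hn0 (by linarith)
        _ = _ := by ring
    have t2 : -∫ x in a..b, G (x, 0) ≤
        ∫ x : ℝ, U (x, 0) * (4 * z.2 / ((x - z.1) ^ 2 + z.2 ^ 2)) := by
      rw [← intervalIntegral.integral_neg]
      simp_rw [hG0, neg_neg]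
      rw [intervalIntegral.integral_of_le hab]
      apply setIntegral_le_integral
      · have c0 : Continuous fun x : ℝ => U (x, 0) := by
          rw [← continuousOn_univ]
          exact cU.comp (continuous_id.prodMk continuous_const).continuousOn
            fun x _ => (le_refl (0 : ℝ) : (0 : ℝ) ≤ (x, (0 : ℝ)).2)
        have c1 : Integrable fun x : ℝ => U (x, 0) * (1 / ((x - z.1) ^ 2 + z.2 ^ 2)) := by
          refine cj.bdd_mul (c := B) c0.aestronglyMeasurable (ae_of_all _ fun x => ?_)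
          rw [Real.norm_eq_abs, abs_of_nonneg (h0 (x, 0) le_rfl)]
          exact hB (x, 0) le_rfl
        have c2 := c1.const_mul (4 * z.2)
        refine c2.congr (ae_of_all _ fun x => ?_)
        simp only
        ring
      · refine ae_of_all _ fun x => ?_
        simp only [Pi.zero_apply]
        exact mul_nonneg (h0 _ le_rfl) (by positivity)
    linarith
  rw [hR] at s1
  have : (16 * B * z.2 * Real.pi + 16 * z.2 * B) / (n : ℝ) =
    16 * B * z.2 * Real.pi / n + 16 * z.2 * B / n := by ring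
  rw [this]
  linarith

end G1aux

/-- **(G1)** Green's inequality against `N_z = y q_z`.  `U ≥ 0` bounded, periodic, `C²` and subharmonic on a
neighbourhood of `y ≥ 0`, with `|Uy| ≤ B e^{-y}` on `y ≥ 0`:
`∬_{y>0, x∈ℝ} (ΔU) N_z ≤ ∫_ℝ U(x,0) 4z_y/((x-z_x)²+z_y²) dx`.

Proof: `N(x,y) = 4 y z_y /D`, `D = (x-z_x)²+(y+z_y)²`, satisfies `N ≥ 0`, `N = 0` at `y = 0`,
`∂x N = -8 z_y y (x-z_x)/D²`, `∂y N = 4z_y/D - 8 z_y y (y+z_y)/D²`,
`ΔN = -16 z_y²/D² ≤ 0` (`Δ(y/D) = 2∂_y(1/D) + yΔ(1/D) = -4(y+z_y)/D² + 4y/D² = -4z_y/D²`, times `4z_y`).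
`W(y) = ∫_ℝ (Uy N - U ∂yN) dx` is differentiable with `W' = ∫ (ΔU·N - U ΔN) dx` (the `x`-boundary terms vanish:
`U, Ux` are bounded on compact `y`-ranges, `N, ∂xN = O(1/x²)`), `W(0) = -∫ U(x,0) 4z_y/(…) dx`, and
`W(Y) → 0` as `Y → ∞`: `∫ N dx = 4π z_y Y/(Y+z_y)`, `|Uy| ≤ B e^{-Y}`, `∫|∂yN| dx ≤ C/(Y+z_y)`.
Hence `∬ ΔU·N ≤ ∬ (ΔU·N - UΔN) = -W(0)`.  (Alternatively use rectangles and the divergence theorem.) -/
theorem G1 (σ : ℝ) (hσ : 0 < σ) (U Ux Uxx Uy Uyy : ℝ × ℝ → ℝ) (h : P2 σ U Ux Uxx Uy Uyy) (B : ℝ)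
    (h0 : ∀ p : ℝ × ℝ, 0 ≤ p.2 → 0 ≤ U p) (hB : ∀ p : ℝ × ℝ, 0 ≤ p.2 → U p ≤ B)
    (hUy : ∀ p : ℝ × ℝ, 0 ≤ p.2 → |Uy p| ≤ B * Real.exp (-p.2))
    (sub : ∀ p : ℝ × ℝ, 0 < p.2 → 0 ≤ Uxx p + Uyy p) (z : ℝ × ℝ) (hz : 0 < z.2) :
    ∫⁻ p in HP, ENNReal.ofReal ((Uxx p + Uyy p) * (p.2 * qk z p))
      ≤ ENNReal.ofReal (∫ x : ℝ, U (x, 0) * (4 * z.2 / ((x - z.1) ^ 2 + z.2 ^ 2))) := by
  set a : ℕ → Set (ℝ × ℝ) := fun n =>
    Icc (z.1 - n ^ 2 * Real.pi) (z.1 + n ^ 2 * Real.pi) ×ˢ Icc 0 (n : ℝ) with ha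
  have hpi := Real.pi_pos
  have mono : Monotone a := by
    intro n m hnm
    have h1 : (n : ℝ) ≤ m := by exact_mod_cast hnm
    have h2 : (n : ℝ) ^ 2 * Real.pi ≤ (m : ℝ) ^ 2 * Real.pi := by gcongr
    exact prod_mono (Icc_subset_Icc (by linarith) (by linarith)) (Icc_subset_Icc le_rfl h1)
  have cover : HP ⊆ ⋃ n, a n := by
    intro p hp
    obtain ⟨n, hn⟩ := exists_nat_ge (max (p.2) (max 1 |p.1 - z.1|))
    have n1 : p.2 ≤ n := (le_max_left _ _).trans hn
    have n2 : (1 : ℝ) ≤ n := ((le_max_left _ _).trans (le_max_right _ _)).trans hn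
    have n3 : |p.1 - z.1| ≤ n := ((le_max_right _ _).trans (le_max_right _ _)).trans hn
    rw [mem_iUnion]
    have hp' : 0 < p.2 := hp
    have h4 : (n : ℝ) ≤ n ^ 2 * Real.pi := by nlinarith [Real.pi_gt_three]
    rw [abs_le] at n3
    exact ⟨n, ⟨by linarith [n3.1], by linarith [n3.2]⟩, hp'.le, n1⟩
  set f : ℝ × ℝ → ENNReal := fun p => ENNReal.ofReal ((Uxx p + Uyy p) * (p.2 * qk z p)) with hf
  have hNq : ∀ p, p.2 * qk z p = G1aux.N z p := by
    intro p
    unfold qk G1aux.N G1aux.D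
    ring
  set R := ∫ x : ℝ, U (x, 0) * (4 * z.2 / ((x - z.1) ^ 2 + z.2 ^ 2)) with hR
  set C := 16 * B * z.2 * Real.pi + 16 * z.2 * B with hC
  have hsub0 : {p : ℝ × ℝ | 0 ≤ p.2} ⊆ {p : ℝ × ℝ | -σ < p.2} := fun p hp => by
    have : (0 : ℝ) ≤ p.2 := hp
    show -σ < p.2
    linarith
  have each : ∀ n : ℕ, 1 ≤ n → ∫⁻ p in a n, f p ≤ ENNReal.ofReal (R + C / n) := by
    intro n hn
    have hn0 : (0 : ℝ) ≤ n := by positivity
    have hK : IsCompact (a n) := isCompact_Icc.prod isCompact_Icc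
    have hsub : a n ⊆ {p : ℝ × ℝ | 0 ≤ p.2} := fun p hp => hp.2.1
    have hi : IntegrableOn (fun p => (Uxx p + Uyy p) * G1aux.N z p) (a n) :=
      (((h.cxx.mono (hsub.trans hsub0)).add (h.cyy.mono (hsub.trans hsub0))).mul
        ((G1aux.cont_all z hz).1.mono hsub)).integrableOn_compact hK
    simp only [hf, hNq]
    rw [← ofReal_integral_eq_lintegral_ofReal hi]
    · exact ENNReal.ofReal_le_ofReal (G1aux.one σ hσ U Ux Uxx Uy Uyy h B h0 hB hUy z hz n hn)
    · rw [EventuallyLE, ae_restrict_iff' hK.measurableSet]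
      refine ae_of_all _ fun p hp => ?_
      have hp0 : 0 ≤ p.2 := hp.2.1
      simp only [Pi.zero_apply]
      rcases hp0.lt_or_eq with h1 | h1
      · have hD := G1aux.D_pos z p hz hp0
        refine mul_nonneg (sub p h1) ?_
        unfold G1aux.N
        positivity
      · unfold G1aux.N
        rw [← h1]
        simp
  have each' : ∀ n : ℕ, ∫⁻ p in a n, f p ≤ ENNReal.ofReal R := by
    intro n
    have hlim : Tendsto (fun m : ℕ => ENNReal.ofReal (R + C / m)) atTop (𝓝 (ENNReal.ofReal R)) := by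
      apply ENNReal.tendsto_ofReal
      have := (tendsto_const_div_atTop_nhds_zero_nat C).const_add R
      simpa using this
    refine ge_of_tendsto hlim ?_
    filter_upwards [eventually_ge_atTop (max n 1)] with m hm
    exact (lintegral_mono_set (mono ((le_max_left _ _).trans hm))).trans
      (each m ((le_max_right _ _).trans hm))
  calc ∫⁻ p in HP, f p ≤ ∫⁻ p in ⋃ n, a n, f p := lintegral_mono_set cover
    _ = ⨆ n, ∫⁻ p in a n, f p := setLIntegral_iUnion_of_directed f (mono.directed_le)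
    _ ≤ ENNReal.ofReal R := iSup_le each'

end Pool.H14.SR
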