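import Pool.Agent.H14.SR.Basic
import Pool.Agent.H14.SR.G1
import Pool.Agent.H14.SR.PR
import Pool.Agent.H14.SR.OS
open MeasureTheory Set Filter Topology
noncomputable section
namespace Pool.H14.SR

theorem E1_HP_meas : MeasurableSet HP := measurableSet_lt measurable_const measurable_snd

/-- scaling of an lintegral inequality -/
theorem E1_scale (g : ℝ × ℝ → ℝ) (G : ℝ × ℝ → ℝ) (c C : ℝ) (hc : 0 < c)
    (hg : ∀ p : ℝ × ℝ, 0 < p.2 → c * g p ≤ G p)
    (h : ∫⁻ p in HP, ENNReal.ofReal (G p) ≤ ENNReal.ofReal C) :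
    ∫⁻ p in HP, ENNReal.ofReal (g p) ≤ ENNReal.ofReal (C / c) := by
  have h1 : ∫⁻ p in HP, ENNReal.ofReal (g p)
      ≤ ENNReal.ofReal c⁻¹ * ∫⁻ p in HP, ENNReal.ofReal (G p) := by
    rw [← lintegral_const_mul' _ _ ENNReal.ofReal_ne_top]
    refine setLIntegral_mono' E1_HP_meas fun p hp => ?_
    rw [← ENNReal.ofReal_mul (inv_nonneg.2 hc.le)]
    apply ENNReal.ofReal_le_ofReal
    rw [le_inv_mul_iff₀ hc]
    exact hg p hp
  refine h1.trans ((mul_le_mul_right h _).trans ?_)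
  rw [← ENNReal.ofReal_mul (inv_nonneg.2 hc.le)]
  apply ENNReal.ofReal_le_ofReal
  apply le_of_eq
  field_simp

theorem E1_one {ρ : ℝ} {a : ℂ → ℂ} (hρ : 1 < ρ) (ha : DifferentiableOn ℂ a (Metric.ball 0 ρ))
    (z : ℝ × ℝ) (hz : 0 < z.2) :
    Integrable (fun x : ℝ => ‖a (E (x, 0))‖ ^ 2 * (z.2 / ((x - z.1) ^ 2 + z.2 ^ 2))) ∧
    0 ≤ (∫ x : ℝ, ‖a (E (x, 0))‖ ^ 2 * (z.2 / ((x - z.1) ^ 2 + z.2 ^ 2))) - Real.pi * ‖hp a z‖ ^ 2 ∧
    ∫⁻ p in HP, ENNReal.ofReal (‖hp (Dz a) p‖ ^ 2 * (p.2 * qk z p))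
      ≤ ENNReal.ofReal ((∫ x : ℝ, ‖a (E (x, 0))‖ ^ 2 * (z.2 / ((x - z.1) ^ 2 + z.2 ^ 2)))
        - Real.pi * ‖hp a z‖ ^ 2) := by
  have hcb : Metric.closedBall (0:ℂ) 1 ⊆ Metric.ball 0 ρ := Metric.closedBall_subset_ball hρ
  have hac : ContinuousOn a (Metric.closedBall 0 1) := ha.continuousOn.mono hcb
  have had : DifferentiableOn ℂ a (Metric.ball 0 1) := ha.mono (Metric.ball_subset_ball hρ.le)
  set P : ℝ → ℝ := fun x => z.2 / ((x - z.1) ^ 2 + z.2 ^ 2) with hP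
  have hP0 : ∀ x, 0 ≤ P x := fun x => by simp only [hP]; positivity
  obtain ⟨hPi, hPpi⟩ := PR_one z hz
  obtain ⟨hai, haz⟩ := PR a hac had z hz
  obtain ⟨B, hB, hBa⟩ := hp_bdd hac
  have hcont : Continuous (fun x : ℝ => a (E (x, 0))) := by
    have h1 := hp_cont (ρ := ρ) (by linarith) ha.continuousOn
    have h2 : Continuous (fun x : ℝ => ((x, 0) : ℝ × ℝ)) := by fun_prop
    have h3 := h1.comp_continuous h2 (fun x => by
      show -Real.log ρ < 0
      have := Real.log_pos hρ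
      linarith)
    exact h3
  have hPc : Continuous P := by
    simp only [hP]
    refine Continuous.div continuous_const (by fun_prop) (fun x => ?_)
    positivity
  have hnsq : Integrable (fun x : ℝ => ‖a (E (x, 0))‖ ^ 2 * P x) := by
    refine Integrable.mono' (hPi.const_mul (B ^ 2)) ?_ ?_
    · exact ((hcont.norm.pow 2).mul hPc).aestronglyMeasurable
    · refine Filter.Eventually.of_forall fun x => ?_
      rw [Real.norm_of_nonneg (mul_nonneg (by positivity) (hP0 x))]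
      have h1 : ‖a (E (x, 0))‖ ≤ B := hBa (x, 0) le_rfl
      exact mul_le_mul_of_nonneg_right (pow_le_pow_left₀ (norm_nonneg _) h1 2) (hP0 x)
  set c : ℂ := hp a z with hc
  have hdiff : DifferentiableOn ℂ (fun w => a w - c) (Metric.ball 0 ρ) := ha.sub_const c
  have hDz : Dz (fun w => a w - c) = Dz a := by
    ext w
    unfold Dz
    rw [deriv_sub_const]
  have hint : ∫ x : ℝ, ‖a (E (x, 0)) - c‖ ^ 2 * P x
      = (∫ x : ℝ, ‖a (E (x, 0))‖ ^ 2 * P x) - Real.pi * ‖c‖ ^ 2 := by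
    have e1 : ∀ x : ℝ, ‖a (E (x, 0)) - c‖ ^ 2 * P x
        = ‖a (E (x, 0))‖ ^ 2 * P x - 2 * ((a (E (x, 0)) * ((P x : ℝ) : ℂ)) * (starRingEnd ℂ) c).re
          + ‖c‖ ^ 2 * P x := by
      intro x
      rw [← Complex.normSq_eq_norm_sq, Complex.normSq_sub, ← Complex.normSq_eq_norm_sq,
        ← Complex.normSq_eq_norm_sq]
      have : (a (E (x, 0)) * ((P x : ℝ) : ℂ) * (starRingEnd ℂ) c).re
          = P x * (a (E (x, 0)) * (starRingEnd ℂ) c).re := by
        rw [mul_comm (a (E (x, 0))) _, mul_assoc, Complex.re_ofReal_mul]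
      rw [this]
      ring
    simp_rw [e1]
    have hre : Integrable (fun x : ℝ => 2 * ((a (E (x, 0)) * ((P x : ℝ) : ℂ)) * (starRingEnd ℂ) c).re) :=
      ((hai.mul_const _).re).const_mul 2
    have hPi' : Integrable P := hPi
    have hPpi' : ∫ x : ℝ, P x = Real.pi := hPpi
    have s2 : ∫ x : ℝ, (‖a (E (x, 0))‖ ^ 2 * P x
          - 2 * ((a (E (x, 0)) * ((P x : ℝ) : ℂ)) * (starRingEnd ℂ) c).re + ‖c‖ ^ 2 * P x)
        = (∫ x : ℝ, (‖a (E (x, 0))‖ ^ 2 * P x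
          - 2 * ((a (E (x, 0)) * ((P x : ℝ) : ℂ)) * (starRingEnd ℂ) c).re))
          + ∫ x : ℝ, ‖c‖ ^ 2 * P x := integral_add (hnsq.sub hre) (hPi'.const_mul _)
    have s1 : ∫ x : ℝ, (‖a (E (x, 0))‖ ^ 2 * P x
          - 2 * ((a (E (x, 0)) * ((P x : ℝ) : ℂ)) * (starRingEnd ℂ) c).re)
        = (∫ x : ℝ, ‖a (E (x, 0))‖ ^ 2 * P x)
          - ∫ x : ℝ, 2 * ((a (E (x, 0)) * ((P x : ℝ) : ℂ)) * (starRingEnd ℂ) c).re :=
      integral_sub hnsq hre
    rw [s2, s1, integral_const_mul, integral_const_mul]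
    have hre2 : ∫ x : ℝ, ((a (E (x, 0)) * ((P x : ℝ) : ℂ)) * (starRingEnd ℂ) c).re
        = (∫ x : ℝ, (a (E (x, 0)) * ((P x : ℝ) : ℂ)) * (starRingEnd ℂ) c).re :=
      integral_re (hai.mul_const _)
    rw [hre2, integral_mul_const, hPpi']
    have haz' : ∫ x : ℝ, a (E (x, 0)) * ((P x : ℝ) : ℂ) = (Real.pi : ℂ) * c := haz
    rw [haz']
    have : ((Real.pi : ℂ) * c * (starRingEnd ℂ) c).re = Real.pi * ‖c‖ ^ 2 := by
      rw [mul_assoc, Complex.mul_conj, Complex.normSq_eq_norm_sq, ← Complex.ofReal_mul]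
      exact Complex.ofReal_re _
    rw [this]
    ring
  have hnn : 0 ≤ (∫ x : ℝ, ‖a (E (x, 0))‖ ^ 2 * P x) - Real.pi * ‖c‖ ^ 2 := by
    rw [← hint]
    exact integral_nonneg fun x => mul_nonneg (by positivity) (hP0 x)
  refine ⟨hnsq, hnn, ?_⟩
  obtain ⟨B1, hB1, h1⟩ := hp_bdd (hdiff.continuousOn.mono hcb)
  obtain ⟨B2, hB2, h2⟩ := OS_Uy_bound hρ hdiff
  have hG := G1 (Real.log ρ) (Real.log_pos hρ) _ _ _ _ _ (OS_P2_nsq hρ hdiff) (B1 ^ 2 + B2)
    (fun p _ => by positivity)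
    (fun p h => by
      have := pow_le_pow_left₀ (norm_nonneg _) (h1 p h) 2
      linarith)
    (fun p h => (h2 p h).trans (mul_le_mul_of_nonneg_right (by nlinarith) (Real.exp_pos _).le))
    (fun p _ => by
      rw [OS_lap_nsq]
      positivity) z hz
  have h3 := E1_scale (fun p => ‖hp (Dz a) p‖ ^ 2 * (p.2 * qk z p)) _ 4 _ (by norm_num)
    (fun p _ => by
      rw [OS_lap_nsq, hDz]
      apply le_of_eq
      ring) hG
  refine h3.trans (le_of_eq ?_)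
  congr 1
  rw [← hint]
  have e2 : ∀ x : ℝ, ‖hp (fun w => a w - c) (x, 0)‖ ^ 2 * (4 * z.2 / ((x - z.1) ^ 2 + z.2 ^ 2))
      = 4 * (‖a (E (x, 0)) - c‖ ^ 2 * P x) := by
    intro x
    simp only [hP, hp]
    ring
  simp_rw [e2]
  rw [integral_const_mul]
  ring

/-- **(E1)** `∬_{HP} (|a'|²+|b'|²) N_z ≤ π O(z)`.
Proof: `G1` with `U = |a - a(z)|²` (`ΔU = 4|a'|²`, `|Uy| ≤ 2·2·|a'| ≤ B e^{-y}` by `hp_decay`), and
`∫ |a(x) - a(z)|² 4z_y/((x-z_x)²+z_y²) dx = 4(∫|a|² P - π|a(z)|²)` by `PR` (`P` the kernel of `PR`);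
the same for `b`; and `∫ (|a|²+|b|²) P ≤ ∫ Re F P = π Re F(z)`. -/
theorem E1 {δ ρ : ℝ} {a b F : ℂ → ℂ} (h : Dat δ ρ a b F) (z : ℝ × ℝ) (hz : 0 < z.2) :
    ∫⁻ p in HP, ENNReal.ofReal ((‖hp (Dz a) p‖ ^ 2 + ‖hp (Dz b) p‖ ^ 2) * (p.2 * qk z p))
      ≤ ENNReal.ofReal (Real.pi * Osc a b F z) := by
  obtain ⟨ia, na, ea⟩ := E1_one h.hρ h.ha z hz
  obtain ⟨ib, nb, eb⟩ := E1_one h.hρ h.hb z hz
  have hcb : Metric.closedBall (0:ℂ) 1 ⊆ Metric.ball 0 ρ := Metric.closedBall_subset_ball h.hρ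
  obtain ⟨hFi, hFz⟩ := PR F (h.hF.continuousOn.mono hcb)
    (h.hF.mono (Metric.ball_subset_ball h.hρ.le)) z hz
  have hqk : ∀ p : ℝ × ℝ, 0 < p.2 → 0 ≤ p.2 * qk z p := by
    intro p hp
    unfold qk
    positivity
  have hmeas : ∀ f : ℂ → ℂ, DifferentiableOn ℂ f (Metric.ball 0 ρ) →
      AEMeasurable (fun p : ℝ × ℝ => ENNReal.ofReal (‖hp (Dz f) p‖ ^ 2 * (p.2 * qk z p)))
        (volume.restrict HP) := by
    intro f hf
    have h1 : ContinuousOn (fun p : ℝ × ℝ => ‖hp (Dz f) p‖ ^ 2 * (p.2 * qk z p)) HP := by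
      have h2 : ContinuousOn (hp (Dz f)) HP := (hp_cont (ρ := ρ) (by linarith [h.hρ])
        (Dz_diff hf).continuousOn).mono (fun p hp => by
          have := Real.log_pos h.hρ
          have hp' : 0 < p.2 := hp
          show -Real.log ρ < p.2
          linarith)
      have h3 : ContinuousOn (fun p : ℝ × ℝ => qk z p) HP := by
        unfold qk
        refine ContinuousOn.div continuousOn_const (by fun_prop) (fun p hp => ?_)
        have hp' : 0 < p.2 := hp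
        positivity
      exact (h2.norm.pow 2).mul (continuousOn_snd.mul h3)
    exact (ENNReal.continuous_ofReal.comp_continuousOn h1).aemeasurable E1_HP_meas
  have hsum : ∫⁻ p in HP, ENNReal.ofReal ((‖hp (Dz a) p‖ ^ 2 + ‖hp (Dz b) p‖ ^ 2) * (p.2 * qk z p))
      = (∫⁻ p in HP, ENNReal.ofReal (‖hp (Dz a) p‖ ^ 2 * (p.2 * qk z p)))
        + ∫⁻ p in HP, ENNReal.ofReal (‖hp (Dz b) p‖ ^ 2 * (p.2 * qk z p)) := by
    rw [← lintegral_add_left' (hmeas a h.ha)]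
    refine setLIntegral_congr_fun E1_HP_meas fun p hp => ?_
    have hp' := hqk p hp
    rw [← ENNReal.ofReal_add (by positivity) (by positivity)]
    congr 1
    ring
  rw [hsum]
  refine (add_le_add ea eb).trans ?_
  rw [← ENNReal.ofReal_add na nb]
  apply ENNReal.ofReal_le_ofReal
  have hFre : ∫ x : ℝ, (F (E (x, 0))).re * (z.2 / ((x - z.1) ^ 2 + z.2 ^ 2)) = Real.pi * (hp F z).re := by
    have h1 : ∫ x : ℝ, (F (E (x, 0)) * ((z.2 / ((x - z.1) ^ 2 + z.2 ^ 2) : ℝ) : ℂ)).re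
        = (∫ x : ℝ, F (E (x, 0)) * ((z.2 / ((x - z.1) ^ 2 + z.2 ^ 2) : ℝ) : ℂ)).re :=
      integral_re hFi
    rw [hFz, Complex.re_ofReal_mul] at h1
    rw [← h1]
    refine integral_congr_ae (Filter.Eventually.of_forall fun x => ?_)
    show _ = (F (E (x, 0)) * ((z.2 / ((x - z.1) ^ 2 + z.2 ^ 2) : ℝ) : ℂ)).re
    rw [Complex.re_mul_ofReal]
  have hFri : Integrable (fun x : ℝ => (F (E (x, 0))).re * (z.2 / ((x - z.1) ^ 2 + z.2 ^ 2))) := by
    refine (hFi.re).congr (Filter.Eventually.of_forall fun x => ?_)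
    show (F (E (x, 0)) * ((z.2 / ((x - z.1) ^ 2 + z.2 ^ 2) : ℝ) : ℂ)).re = _
    rw [Complex.re_mul_ofReal]
  have hle : (∫ x : ℝ, ‖a (E (x, 0))‖ ^ 2 * (z.2 / ((x - z.1) ^ 2 + z.2 ^ 2)))
      + (∫ x : ℝ, ‖b (E (x, 0))‖ ^ 2 * (z.2 / ((x - z.1) ^ 2 + z.2 ^ 2)))
      ≤ Real.pi * (hp F z).re := by
    rw [← hFre, ← integral_add ia ib]
    refine integral_mono (ia.add ib) hFri fun x => ?_
    simp only
    rw [← add_mul]
    refine mul_le_mul_of_nonneg_right ?_ (by positivity)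
    refine h.hO (E (x, 0)) (hcb (E_mem_closedBall le_rfl))
  unfold Osc
  nlinarith

/-- **(E2)** `∬_{HP} (|a'|²+|b'|²) e^{-sO} N_z ≤ π/s`.
Proof: `G1` with `U = e^{-sO} ∈ [0,1]`, `ΔU = e^{-sO}(s²|∇O|² - sΔO) ≥ 4s(|a'|²+|b'|²)e^{-sO}`, `PR_one`. -/
theorem E2 {δ ρ : ℝ} {a b F : ℂ → ℂ} (h : Dat δ ρ a b F) (s : ℝ) (hs : 0 < s) (z : ℝ × ℝ)
    (hz : 0 < z.2) :
    ∫⁻ p in HP, ENNReal.ofReal ((‖hp (Dz a) p‖ ^ 2 + ‖hp (Dz b) p‖ ^ 2)
        * Real.exp (-(s * Osc a b F p)) * (p.2 * qk z p))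
      ≤ ENNReal.ofReal (Real.pi / s) := by
  obtain ⟨Ox, Oxx, Oy, Oyy, hP, hL, B, hB, hOy⟩ := Osc_P2 h
  have hlog := Real.log_pos h.hρ
  have hE0 : ∀ p : ℝ × ℝ, 0 ≤ p.2 → 0 ≤ Osc a b F p := fun p hp => (Osc_nonneg h p (by linarith)).1
  have hexp : ContinuousOn (fun p => Real.exp (-(s * Osc a b F p))) {p | -Real.log ρ < p.2} :=
    Real.continuous_exp.comp_continuousOn (continuousOn_const.mul hP.c).neg
  have hP2 : P2 (Real.log ρ) (fun p => Real.exp (-(s * Osc a b F p)))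
      (fun p => Real.exp (-(s * Osc a b F p)) * (-(s * Ox p)))
      (fun p => (Real.exp (-(s * Osc a b F p)) * (-(s * Ox p))) * (-(s * Ox p))
        + Real.exp (-(s * Osc a b F p)) * (-(s * Oxx p)))
      (fun p => Real.exp (-(s * Osc a b F p)) * (-(s * Oy p)))
      (fun p => (Real.exp (-(s * Osc a b F p)) * (-(s * Oy p))) * (-(s * Oy p))
        + Real.exp (-(s * Osc a b F p)) * (-(s * Oyy p))) :=
  { dx := fun p hp => ((hP.dx p hp).const_mul s).neg.exp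
    dxx := fun p hp => (((hP.dx p hp).const_mul s).neg.exp).mul ((hP.dxx p hp).const_mul s).neg
    dy := fun p hp => ((hP.dy p hp).const_mul s).neg.exp
    dyy := fun p hp => (((hP.dy p hp).const_mul s).neg.exp).mul ((hP.dyy p hp).const_mul s).neg
    c := hexp
    cx := hexp.mul (continuousOn_const.mul hP.cx).neg
    cxx := ((hexp.mul (continuousOn_const.mul hP.cx).neg).mul (continuousOn_const.mul hP.cx).neg).add
      (hexp.mul (continuousOn_const.mul hP.cxx).neg)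
    cy := hexp.mul (continuousOn_const.mul hP.cy).neg
    cyy := ((hexp.mul (continuousOn_const.mul hP.cy).neg).mul (continuousOn_const.mul hP.cy).neg).add
      (hexp.mul (continuousOn_const.mul hP.cyy).neg)
    per := fun p hp => by rw [hP.per p hp] }
  have hle1 : ∀ p : ℝ × ℝ, 0 ≤ p.2 → Real.exp (-(s * Osc a b F p)) ≤ 1 := by
    intro p hp
    rw [Real.exp_le_one_iff]
    have := mul_nonneg hs.le (hE0 p hp)
    linarith
  have hlap : ∀ p : ℝ × ℝ, 0 < p.2 →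
      4 * s * ((‖hp (Dz a) p‖ ^ 2 + ‖hp (Dz b) p‖ ^ 2) * Real.exp (-(s * Osc a b F p))) ≤
      ((Real.exp (-(s * Osc a b F p)) * (-(s * Ox p))) * (-(s * Ox p))
        + Real.exp (-(s * Osc a b F p)) * (-(s * Oxx p)))
      + ((Real.exp (-(s * Osc a b F p)) * (-(s * Oy p))) * (-(s * Oy p))
        + Real.exp (-(s * Osc a b F p)) * (-(s * Oyy p))) := by
    intro p hpp
    have h1 := hL p (by linarith)
    have h2 : ((Real.exp (-(s * Osc a b F p)) * (-(s * Ox p))) * (-(s * Ox p))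
        + Real.exp (-(s * Osc a b F p)) * (-(s * Oxx p)))
      + ((Real.exp (-(s * Osc a b F p)) * (-(s * Oy p))) * (-(s * Oy p))
        + Real.exp (-(s * Osc a b F p)) * (-(s * Oyy p)))
      = Real.exp (-(s * Osc a b F p)) * (s * Ox p) ^ 2 + Real.exp (-(s * Osc a b F p)) * (s * Oy p) ^ 2
        + Real.exp (-(s * Osc a b F p)) * (-(s * (Oxx p + Oyy p))) := by ring
    rw [h2, h1]
    have h3 : 0 ≤ Real.exp (-(s * Osc a b F p)) * (s * Ox p) ^ 2 := by positivity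
    have h4 : 0 ≤ Real.exp (-(s * Osc a b F p)) * (s * Oy p) ^ 2 := by positivity
    nlinarith
  have hG := G1 (Real.log ρ) hlog _ _ _ _ _ hP2 (1 + s * B)
    (fun p _ => (Real.exp_pos _).le)
    (fun p hp => (hle1 p hp).trans (by nlinarith))
    (fun p hp => by
      rw [abs_mul, abs_neg, abs_mul, abs_of_pos hs, abs_of_pos (Real.exp_pos _)]
      have h1 := hOy p hp
      have h2 := hle1 p hp
      have h3 : 0 ≤ s * |Oy p| := by positivity
      calc Real.exp (-(s * Osc a b F p)) * (s * |Oy p|) ≤ 1 * (s * |Oy p|) :=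
            mul_le_mul_of_nonneg_right h2 h3
        _ ≤ s * (B * Real.exp (-p.2)) := by rw [one_mul]; exact mul_le_mul_of_nonneg_left h1 hs.le
        _ ≤ (1 + s * B) * Real.exp (-p.2) := by
          have := Real.exp_pos (-p.2)
          nlinarith)
    (fun p hp => le_trans (by positivity) (hlap p hp)) z hz
  obtain ⟨hPi, hPpi⟩ := PR_one z hz
  have hR : ∫ x : ℝ, Real.exp (-(s * Osc a b F (x, 0))) * (4 * z.2 / ((x - z.1) ^ 2 + z.2 ^ 2))
      ≤ 4 * Real.pi := by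
    rw [← hPpi, ← integral_const_mul]
    refine integral_mono_of_nonneg (Filter.Eventually.of_forall fun x => by positivity)
      (hPi.const_mul 4) (Filter.Eventually.of_forall fun x => ?_)
    simp only
    have h1 := hle1 (x, 0) le_rfl
    have h2 : 0 ≤ 4 * z.2 / ((x - z.1) ^ 2 + z.2 ^ 2) := by positivity
    calc Real.exp (-(s * Osc a b F (x, 0))) * (4 * z.2 / ((x - z.1) ^ 2 + z.2 ^ 2))
        ≤ 1 * (4 * z.2 / ((x - z.1) ^ 2 + z.2 ^ 2)) := mul_le_mul_of_nonneg_right h1 h2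
      _ = 4 * (z.2 / ((x - z.1) ^ 2 + z.2 ^ 2)) := by ring
  have h3 := E1_scale (fun p => (‖hp (Dz a) p‖ ^ 2 + ‖hp (Dz b) p‖ ^ 2)
        * Real.exp (-(s * Osc a b F p)) * (p.2 * qk z p)) _ (4 * s) (4 * Real.pi) (by positivity)
    (fun p hp => by
      have hq : 0 ≤ p.2 * qk z p := by unfold qk; positivity
      have h1 := mul_le_mul_of_nonneg_right (hlap p hp) hq
      refine le_trans (le_of_eq ?_) h1
      ring) (hG.trans (ENNReal.ofReal_le_ofReal hR))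
  refine h3.trans (le_of_eq ?_)
  congr 1
  field_simp

end Pool.H14.SR
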