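import Pool.Agent.H14.SR.Basic
import Pool.Agent.H14.SR.BN
import Pool.Agent.H14.SR.BF
import Pool.Agent.H14.SR.E1
open MeasureTheory Set Filter Topology
noncomputable section
namespace Pool.H14.SR

namespace BSaux

theorem geo (r : ℝ) (hr : 0 < r) (K : ℕ) :
    (∑ k ∈ Finset.range K, (if r * 2 ^ k ≤ 1 then Real.sqrt (r * 2 ^ k) else 0))
        ≤ (Real.sqrt 2 + 1) * Real.sqrt (r * 2 ^ K) ∧
    (∑ k ∈ Finset.range K, (if r * 2 ^ k ≤ 1 then Real.sqrt (r * 2 ^ k) else 0))
        ≤ (Real.sqrt 2 + 1) * Real.sqrt 2 := by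
  have h2 : Real.sqrt 2 * Real.sqrt 2 = 2 := Real.mul_self_sqrt (by norm_num)
  have h20 : 0 ≤ Real.sqrt 2 := Real.sqrt_nonneg 2
  induction K with
  | zero =>
    simp only [Finset.range_zero, Finset.sum_empty]
    exact ⟨by positivity, by positivity⟩
  | succ K ih =>
    rw [Finset.sum_range_succ]
    have hs : Real.sqrt (r * 2 ^ (K + 1)) = Real.sqrt 2 * Real.sqrt (r * 2 ^ K) := by
      rw [← Real.sqrt_mul (by norm_num)]
      congr 1
      ring
    have hw0 : 0 ≤ Real.sqrt (r * 2 ^ K) := Real.sqrt_nonneg _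
    by_cases hc : r * 2 ^ K ≤ 1
    · rw [if_pos hc]
      have hw1 : Real.sqrt (r * 2 ^ K) ≤ 1 := by
        rw [Real.sqrt_le_one]
        exact hc
      constructor
      · rw [hs]
        nlinarith [ih.1]
      · nlinarith [ih.1]
    · rw [if_neg hc, add_zero]
      refine ⟨?_, ih.2⟩
      rw [hs]
      have h1 : (1 : ℝ) ≤ Real.sqrt 2 := by
        rw [show (1:ℝ) = Real.sqrt 1 by simp]
        exact Real.sqrt_le_sqrt (by norm_num)
      have := ih.1
      nlinarith [mul_nonneg (mul_nonneg (by linarith : (0:ℝ) ≤ Real.sqrt 2 + 1) hw0)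
        (by linarith : (0:ℝ) ≤ Real.sqrt 2 - 1)]

theorem meas_qk (z : ℝ × ℝ) : Measurable (qk z) := by
  unfold qk
  fun_prop

theorem qk_nn (z p : ℝ × ℝ) (hz : 0 < z.2) : 0 ≤ qk z p := by
  unfold qk
  positivity

theorem meas_HP : MeasurableSet HP := by
  unfold HP
  exact measurableSet_lt measurable_const measurable_snd

theorem mem_ball_of_HP {ρ : ℝ} (hρ : 1 < ρ) {p : ℝ × ℝ} (hp : 0 < p.2) :
    E p ∈ Metric.ball (0 : ℂ) ρ := by
  apply E_mem_ball (by linarith)
  have := Real.log_pos hρ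
  linarith

theorem osc_nn {δ ρ : ℝ} {a b F : ℂ → ℂ} (H : Dat δ ρ a b F) {p : ℝ × ℝ} (hp : 0 < p.2) :
    0 ≤ Osc a b F p := by
  have := H.hO (E p) (mem_ball_of_HP H.hρ hp)
  unfold Osc Pool.H14.SR.hp
  linarith

theorem osc_le {δ ρ : ℝ} {a b F : ℂ → ℂ} (H : Dat δ ρ a b F) {p : ℝ × ℝ} (hp : 0 < p.2) :
    Osc a b F p ≤ 2 := by
  have := H.hO2 (E p) (mem_ball_of_HP H.hρ hp)
  unfold Osc Pool.H14.SR.hp
  have h1 : 0 ≤ ‖a (E p)‖ ^ 2 := by positivity
  have h2 : 0 ≤ ‖b (E p)‖ ^ 2 := by positivity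
  linarith

theorem osc_cont {δ ρ : ℝ} {a b F : ℂ → ℂ} (H : Dat δ ρ a b F) :
    ContinuousOn (Osc a b F) HP := by
  have h0 : (HP : Set (ℝ × ℝ)) ⊆ {p | -Real.log ρ < p.2} := by
    intro p hp
    have := Real.log_pos H.hρ
    have hp' : 0 < p.2 := hp
    show -Real.log ρ < p.2
    linarith
  have hF := (hp_cont (by linarith [H.hρ]) H.hF.continuousOn).mono h0
  have ha := (hp_cont (by linarith [H.hρ]) H.ha.continuousOn).mono h0
  have hb := (hp_cont (by linarith [H.hρ]) H.hb.continuousOn).mono h0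
  unfold Osc
  exact ((Complex.continuous_re.comp_continuousOn hF).sub (ha.norm.pow 2)).sub (hb.norm.pow 2)

theorem osc_meas {δ ρ : ℝ} {a b F : ℂ → ℂ} (H : Dat δ ρ a b F) :
    AEMeasurable (Osc a b F) (volume.restrict HP) :=
  (osc_cont H).aemeasurable meas_HP

end BSaux

open BSaux in
/-- **(BS)** The potential of all the bands `k < K`, heights `h_k = Y/2^k`.

Proof: `θ = t^{-1/4}/4 ∈ (0,1/4]`.  Near parts: `BN` for every `k`, `Σ m_k ≤ Cm|a'|²`, `E2` with `s = tθ/12`:
`≤ (100/θ²)Cm·12π/(tθ) = 1200π Cm/(θ³t) = 76800π Cm t^{-1/4} ≤ 242000 Cm t^{-1/8}`.  Far parts: bands with `h_k ≥ z_y`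
(`BF1`): `Σ √(z_y/h_k) ≤ Σ_j 2^{-j/2} ≤ 3.42`, `≤ 320·3.42 Cm √θ ≤ 550 Cm t^{-1/8}`; bands with `h_k < z_y` (`BF2`, `E1`,
`O ≤ 2`): `≤ 80θ·Cm·2π ≤ 130 Cm t^{-1/4}`. -/
theorem BS {δ ρ : ℝ} {a b F : ℂ → ℂ} (H : Dat δ ρ a b F) (Cm Y : ℝ) (hCm : 0 ≤ Cm) (hY : 0 < Y)
    (K : ℕ) (s : ℕ → ℝ) (hs : ∀ k < K, 0 < s k ∧ s k ≤ Y / 2 ^ k / 4)
    (m : ℕ → ℝ × ℝ → ℝ) (hm : ∀ k < K, Continuous (m k)) (m0 : ∀ k < K, ∀ p, 0 ≤ m k p)
    (hma : ∀ p : ℝ × ℝ, 0 < p.2 → ∑ k ∈ Finset.range K, m k p ≤ Cm * ‖hp (Dz a) p‖ ^ 2)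
    (hsupp : ∀ k < K, ∀ p : ℝ × ℝ, m k p ≠ 0 → Y / 2 ^ k / 2 ≤ p.2 ∧ p.2 ≤ 2 * (Y / 2 ^ k))
    (X1 X2 : ℕ → ℝ × ℝ → ℝ) (hX1c : ∀ k < K, Measurable (X1 k)) (hX2c : ∀ k < K, Measurable (X2 k))
    (hX1 : ∀ k < K, ∀ p : ℝ × ℝ, |X1 k p| ≤ ∫ t in Set.Icc (p.1 - s k) (p.1 + s k), m k (t, p.2))
    (hX2 : ∀ k < K, ∀ p : ℝ × ℝ, 0 ≤ X2 k p ∧
        X2 k p ≤ 2 / s k * ∫ t in Set.Icc (p.1 - s k) (p.1 + s k), ∫ y in Set.Ioi p.2, m k (t, y))
    (t : ℝ) (ht : 1 ≤ t) (z : ℝ × ℝ) (hz : 0 < z.2) :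
    ∫⁻ p in HP, ENNReal.ofReal (Real.exp (-(t * Osc a b F p / 2))
        * (∑ k ∈ Finset.range K, (|X1 k p| + X2 k p)) * qk z p)
      ≤ ENNReal.ofReal (250000 * Cm * t ^ (-(1 / 8) : ℝ)) := by
  have ht0 : 0 < t := by linarith
  -- powers of t
  set v : ℝ := t ^ (-(1 / 8) : ℝ) with hv
  have hv0 : 0 < v := Real.rpow_pos_of_pos ht0 _
  have hv1 : v ≤ 1 := by
    rw [hv]
    exact Real.rpow_le_one_of_one_le_of_nonpos ht (by norm_num)
  have hv8 : v ^ 8 * t = 1 := by
    have e1 : v ^ 8 = t ^ (-1 : ℝ) := by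
      rw [hv, ← Real.rpow_natCast, ← Real.rpow_mul ht0.le]
      norm_num
    rw [e1, Real.rpow_neg_one]
    field_simp
  set θ : ℝ := v ^ 2 / 4 with hθd
  have hθ : 0 < θ := by positivity
  have hθ1 : θ ≤ 1 / 4 := by
    have : v ^ 2 ≤ 1 := by nlinarith
    rw [hθd]
    linarith
  have hsθ : Real.sqrt θ = v / 2 := by
    rw [show θ = (v / 2) ^ 2 by rw [hθd]; ring, Real.sqrt_sq (by positivity)]
  have hOm := osc_meas H
  have hqm := meas_qk z
  have hq0 := fun p => qk_nn z p hz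
  have hhk : ∀ k : ℕ, 0 < Y / 2 ^ k := fun k => by positivity
  -- band inequality
  have key : ∀ k ∈ Finset.range K,
      ∫⁻ p in HP, ENNReal.ofReal (Real.exp (-(t * Osc a b F p / 2)) * (|X1 k p| + X2 k p) * qk z p)
      ≤ (ENNReal.ofReal (100 / θ ^ 2) * ∫⁻ p in HP, ENNReal.ofReal
        (m k p * Real.exp (-(t * θ / 12 * Osc a b F p)) * (p.2 * qk z p)))
        + ∫⁻ p in HP ∩ {p | p.2 < θ * (Y / 2 ^ k)}, ENNReal.ofReal (X2 k p * qk z p) := by
    intro k hk
    have hk' : k < K := Finset.mem_range.1 hk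
    have hmC : MeasurableSet {p : ℝ × ℝ | p.2 < θ * (Y / 2 ^ k)} :=
      measurableSet_lt measurable_snd measurable_const
    have hBN := BN H (Y / 2 ^ k) (s k) t θ (hhk k) (hs k hk').1 (hs k hk').2 ht0 hθ hθ1
      (m k) (hm k hk') (m0 k hk') (hsupp k hk') (X1 k) (X2 k) (hX1c k hk') (hX2c k hk')
      (hX1 k hk') (hX2 k hk') z hz
    have h1 : ∫⁻ p in HP, ENNReal.ofReal
          (Real.exp (-(t * Osc a b F p / 2)) * (|X1 k p| + X2 k p) * qk z p)
        ≤ ∫⁻ p in HP, (ENNReal.ofReal (Real.exp (-(t * Osc a b F p / 2))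
        * (|X1 k p| + (if θ * (Y / 2 ^ k) ≤ p.2 then X2 k p else 0)) * qk z p)
          + ({p : ℝ × ℝ | p.2 < θ * (Y / 2 ^ k)}.indicator
            (fun p => ENNReal.ofReal (X2 k p * qk z p))) p) := by
      apply setLIntegral_mono_ae' meas_HP
      filter_upwards with p hp
      have hp' : 0 < p.2 := hp
      by_cases hc : θ * (Y / 2 ^ k) ≤ p.2
      · rw [if_pos hc]
        exact le_self_add
      · rw [if_neg hc, Set.indicator_of_mem (show p ∈ {p : ℝ × ℝ | p.2 < θ * (Y / 2 ^ k)} from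
          not_le.1 hc)]
        have e0 : 0 ≤ Real.exp (-(t * Osc a b F p / 2)) * (|X1 k p| + 0) * qk z p := by
          have := abs_nonneg (X1 k p)
          have := hq0 p
          positivity
        have e1 : 0 ≤ X2 k p * qk z p := mul_nonneg (hX2 k hk' p).1 (hq0 p)
        rw [← ENNReal.ofReal_add e0 e1]
        apply ENNReal.ofReal_le_ofReal
        have e2 : Real.exp (-(t * Osc a b F p / 2)) ≤ 1 := by
          rw [Real.exp_le_one_iff]
          have := osc_nn H hp'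
          have : 0 ≤ t * Osc a b F p := by positivity
          linarith
        have e3 : Real.exp (-(t * Osc a b F p / 2)) * (X2 k p * qk z p) ≤ 1 * (X2 k p * qk z p) :=
          mul_le_mul_of_nonneg_right e2 e1
        nlinarith [e3]
    refine h1.trans ?_
    rw [lintegral_add_left']
    · apply add_le_add hBN
      rw [lintegral_indicator hmC, Measure.restrict_restrict hmC, inter_comm]
    · have e1 : Measurable (fun p : ℝ × ℝ => |X1 k p| + (if θ * (Y / 2 ^ k) ≤ p.2 then X2 k p else 0)) := by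
        apply Measurable.add
        · exact (hX1c k hk').norm
        · exact Measurable.ite (measurableSet_le measurable_const measurable_snd) (hX2c k hk')
            measurable_const
      have e2 : AEMeasurable (fun p : ℝ × ℝ => Real.exp (-(t * Osc a b F p / 2)))
          (volume.restrict HP) := by
        apply Real.measurable_exp.comp_aemeasurable
        exact ((hOm.const_mul t).div_const 2).neg
      exact ((e2.mul e1.aemeasurable).mul hqm.aemeasurable).ennreal_ofReal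
  -- far parts
  have hOz : Osc a b F z ≤ 2 := osc_le H hz
  have hOz0 : 0 ≤ Osc a b F z := osc_nn H hz
  have hfar : ∀ k ∈ Finset.range K,
      ∫⁻ p in HP ∩ {p | p.2 < θ * (Y / 2 ^ k)}, ENNReal.ofReal (X2 k p * qk z p)
      ≤ ENNReal.ofReal (320 * Cm * Real.sqrt θ *
          (if (z.2 / Y) * 2 ^ k ≤ 1 then Real.sqrt ((z.2 / Y) * 2 ^ k) else 0))
        + ENNReal.ofReal (80 * θ) * ∫⁻ p in HP, ENNReal.ofReal (m k p * (p.2 * qk z p)) := by
    intro k hk
    have hk' : k < K := Finset.mem_range.1 hk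
    have hrat : z.2 / (Y / 2 ^ k) = (z.2 / Y) * 2 ^ k := by
      field_simp
    by_cases hc : (z.2 / Y) * 2 ^ k ≤ 1
    · rw [if_pos hc, ← hrat]
      refine le_trans ?_ le_self_add
      apply BF1 ρ H.hρ a H.ha H.ha1 Cm (Y / 2 ^ k) (s k) θ hCm (hhk k) (hs k hk').1 hθ (m k)
        (hm k hk') (m0 k hk') ?_ (hsupp k hk') (X2 k) (hX2c k hk') (hX2 k hk') z hz
      intro p hp
      refine le_trans ?_ (hma p hp)
      exact Finset.single_le_sum (f := fun k => m k p) (fun j hj => m0 j (Finset.mem_range.1 hj) p) hk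
    · refine le_trans ?_ le_add_self
      apply BF2 (Y / 2 ^ k) (s k) θ (hhk k) (hs k hk').1 (hs k hk').2 hθ hθ1 (m k) (hm k hk')
        (m0 k hk') (hsupp k hk') (X2 k) (hX2c k hk') (hX2 k hk') z
      push Not at hc
      rw [← hrat] at hc
      have := (one_lt_div (hhk k)).1 hc
      exact this.le
  -- sums of `m k`
  have hsum : ∀ g : ℝ × ℝ → ℝ, AEMeasurable g (volume.restrict HP) → (∀ p, 0 ≤ g p) →
      ∑ k ∈ Finset.range K, ∫⁻ p in HP, ENNReal.ofReal (m k p * g p * (p.2 * qk z p))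
      ≤ ENNReal.ofReal Cm * ∫⁻ p in HP, ENNReal.ofReal
        ((‖hp (Dz a) p‖ ^ 2 + ‖hp (Dz b) p‖ ^ 2) * g p * (p.2 * qk z p)) := by
    intro g hg hg0
    rw [← lintegral_finsetSum']
    · rw [← lintegral_const_mul' _ _ ENNReal.ofReal_ne_top]
      apply setLIntegral_mono_ae' meas_HP
      filter_upwards with p hpp
      have hp' : 0 < p.2 := hpp
      have hpq : 0 ≤ p.2 * qk z p := mul_nonneg hp'.le (hq0 p)
      rw [← ENNReal.ofReal_mul hCm, ← ENNReal.ofReal_sum_of_nonneg]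
      · apply ENNReal.ofReal_le_ofReal
        rw [← Finset.sum_mul, ← Finset.sum_mul]
        have e1 := hma p hp'
        have e2 : Cm * ‖hp (Dz a) p‖ ^ 2 ≤ Cm * (‖hp (Dz a) p‖ ^ 2 + ‖hp (Dz b) p‖ ^ 2) := by
          apply mul_le_mul_of_nonneg_left _ hCm
          have : 0 ≤ ‖hp (Dz b) p‖ ^ 2 := by positivity
          linarith
        calc (∑ k ∈ Finset.range K, m k p) * g p * (p.2 * qk z p)
            ≤ (Cm * (‖hp (Dz a) p‖ ^ 2 + ‖hp (Dz b) p‖ ^ 2)) * g p * (p.2 * qk z p) := by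
              apply mul_le_mul_of_nonneg_right _ hpq
              exact mul_le_mul_of_nonneg_right (e1.trans e2) (hg0 p)
          _ = _ := by ring
      · intro k hk
        have := m0 k (Finset.mem_range.1 hk) p
        have := hg0 p
        positivity
    · intro k hk
      have hmk := (hm k (Finset.mem_range.1 hk)).measurable
      have e2 : Measurable (fun p : ℝ × ℝ => p.2 * qk z p) := measurable_snd.mul hqm
      exact ((hmk.aemeasurable.mul hg).mul e2.aemeasurable).ennreal_ofReal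
  -- near total
  have hs' : 0 < t * θ / 12 := by positivity
  have hnear : ∑ k ∈ Finset.range K, ∫⁻ p in HP, ENNReal.ofReal
        (m k p * Real.exp (-(t * θ / 12 * Osc a b F p)) * (p.2 * qk z p))
      ≤ ENNReal.ofReal Cm * ENNReal.ofReal (Real.pi / (t * θ / 12)) := by
    refine (hsum (fun p => Real.exp (-(t * θ / 12 * Osc a b F p))) ?_ ?_).trans ?_
    · apply Real.measurable_exp.comp_aemeasurable
      exact (hOm.const_mul _).neg
    · intro p; positivity
    · gcongr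
      exact E2 H (t * θ / 12) hs' z hz
  have hfar2 : ∑ k ∈ Finset.range K, ∫⁻ p in HP, ENNReal.ofReal (m k p * (p.2 * qk z p))
      ≤ ENNReal.ofReal Cm * ENNReal.ofReal (Real.pi * 2) := by
    have h1 := hsum (fun _ => 1) aemeasurable_const (fun _ => zero_le_one)
    simp only [mul_one] at h1
    refine h1.trans ?_
    gcongr
    refine (E1 H z hz).trans ?_
    apply ENNReal.ofReal_le_ofReal
    exact mul_le_mul_of_nonneg_left hOz Real.pi_pos.le
  -- geometric sum
  have hgeo := (geo (z.2 / Y) (by positivity) K).2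
  have hfar1 : ∑ k ∈ Finset.range K, ENNReal.ofReal (320 * Cm * Real.sqrt θ *
          (if (z.2 / Y) * 2 ^ k ≤ 1 then Real.sqrt ((z.2 / Y) * 2 ^ k) else 0))
      ≤ ENNReal.ofReal (320 * Cm * Real.sqrt θ * ((Real.sqrt 2 + 1) * Real.sqrt 2)) := by
    rw [← ENNReal.ofReal_sum_of_nonneg]
    · apply ENNReal.ofReal_le_ofReal
      rw [← Finset.mul_sum]
      apply mul_le_mul_of_nonneg_left hgeo
      positivity
    · intro k _
      split_ifs <;> positivity
  -- assemble
  calc ∫⁻ p in HP, ENNReal.ofReal (Real.exp (-(t * Osc a b F p / 2))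
        * (∑ k ∈ Finset.range K, (|X1 k p| + X2 k p)) * qk z p)
      = ∫⁻ p in HP, ∑ k ∈ Finset.range K, ENNReal.ofReal
          (Real.exp (-(t * Osc a b F p / 2)) * (|X1 k p| + X2 k p) * qk z p) := by
        apply lintegral_congr
        intro p
        rw [← ENNReal.ofReal_sum_of_nonneg]
        · congr 1
          rw [← Finset.sum_mul, ← Finset.mul_sum]
        · intro k hk
          have e1 := abs_nonneg (X1 k p)
          have e2 := (hX2 k (Finset.mem_range.1 hk) p).1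
          have e3 := hq0 p
          positivity
    _ = ∑ k ∈ Finset.range K, ∫⁻ p in HP, ENNReal.ofReal
          (Real.exp (-(t * Osc a b F p / 2)) * (|X1 k p| + X2 k p) * qk z p) := by
        apply lintegral_finsetSum'
        intro k hk
        have hk' := Finset.mem_range.1 hk
        have e1 : Measurable (fun p : ℝ × ℝ => |X1 k p| + X2 k p) :=
          (hX1c k hk').norm.add (hX2c k hk')
        have e2 : AEMeasurable (fun p : ℝ × ℝ => Real.exp (-(t * Osc a b F p / 2)))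
            (volume.restrict HP) := by
          apply Real.measurable_exp.comp_aemeasurable
          exact ((hOm.const_mul t).div_const 2).neg
        exact ((e2.mul e1.aemeasurable).mul hqm.aemeasurable).ennreal_ofReal
    _ ≤ ∑ k ∈ Finset.range K, ((ENNReal.ofReal (100 / θ ^ 2) * ∫⁻ p in HP, ENNReal.ofReal
        (m k p * Real.exp (-(t * θ / 12 * Osc a b F p)) * (p.2 * qk z p)))
        + (ENNReal.ofReal (320 * Cm * Real.sqrt θ *
          (if (z.2 / Y) * 2 ^ k ≤ 1 then Real.sqrt ((z.2 / Y) * 2 ^ k) else 0))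
        + ENNReal.ofReal (80 * θ) * ∫⁻ p in HP, ENNReal.ofReal (m k p * (p.2 * qk z p)))) := by
        apply Finset.sum_le_sum
        intro k hk
        exact (key k hk).trans (add_le_add le_rfl (hfar k hk))
    _ = ENNReal.ofReal (100 / θ ^ 2) * (∑ k ∈ Finset.range K, ∫⁻ p in HP, ENNReal.ofReal
        (m k p * Real.exp (-(t * θ / 12 * Osc a b F p)) * (p.2 * qk z p)))
        + ((∑ k ∈ Finset.range K, ENNReal.ofReal (320 * Cm * Real.sqrt θ *
          (if (z.2 / Y) * 2 ^ k ≤ 1 then Real.sqrt ((z.2 / Y) * 2 ^ k) else 0)))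
        + ENNReal.ofReal (80 * θ) * ∑ k ∈ Finset.range K,
            ∫⁻ p in HP, ENNReal.ofReal (m k p * (p.2 * qk z p))) := by
        rw [Finset.sum_add_distrib, Finset.sum_add_distrib, Finset.mul_sum, Finset.mul_sum]
    _ ≤ ENNReal.ofReal (100 / θ ^ 2) * (ENNReal.ofReal Cm * ENNReal.ofReal (Real.pi / (t * θ / 12)))
        + (ENNReal.ofReal (320 * Cm * Real.sqrt θ * ((Real.sqrt 2 + 1) * Real.sqrt 2))
        + ENNReal.ofReal (80 * θ) * (ENNReal.ofReal Cm * ENNReal.ofReal (Real.pi * 2))) := by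
        gcongr
    _ = ENNReal.ofReal ((100 / θ ^ 2) * (Cm * (Real.pi / (t * θ / 12)))
        + (320 * Cm * Real.sqrt θ * ((Real.sqrt 2 + 1) * Real.sqrt 2)
        + 80 * θ * (Cm * (Real.pi * 2)))) := by
        have p1 := Real.pi_pos
        rw [← ENNReal.ofReal_mul hCm, ← ENNReal.ofReal_mul hCm,
          ← ENNReal.ofReal_mul (by positivity), ← ENNReal.ofReal_mul (by positivity),
          ← ENNReal.ofReal_add (by positivity) (by positivity),
          ← ENNReal.ofReal_add (by positivity) (by positivity)]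
    _ ≤ ENNReal.ofReal (250000 * Cm * v) := by
        apply ENNReal.ofReal_le_ofReal
        have p1 := Real.pi_pos
        have p2 := Real.pi_lt_d2
        have ht8 : t = 1 / v ^ 8 := by
          field_simp
          linarith
        have e1 : (100 / θ ^ 2) * (Cm * (Real.pi / (t * θ / 12))) = 76800 * Real.pi * Cm * v ^ 2 := by
          rw [hθd, ht8]
          field_simp
          ring
        have h2 : Real.sqrt 2 ≤ 1.42 := by
          rw [Real.sqrt_le_left (by norm_num)]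
          norm_num
        have h22 : Real.sqrt 2 * Real.sqrt 2 = 2 := Real.mul_self_sqrt (by norm_num)
        have e2 : (Real.sqrt 2 + 1) * Real.sqrt 2 ≤ 3.42 := by
          nlinarith
        have hv2 : v ^ 2 ≤ v := by nlinarith
        rw [e1, hsθ, hθd]
        have e3 : 320 * Cm * (v / 2) * ((Real.sqrt 2 + 1) * Real.sqrt 2) ≤ 320 * Cm * (v / 2) * 3.42 :=
          mul_le_mul_of_nonneg_left e2 (by positivity)
        have e4 : 76800 * Real.pi * Cm * v ^ 2 ≤ 76800 * 3.15 * (Cm * v) := by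
          have : Cm * v ^ 2 ≤ Cm * v := mul_le_mul_of_nonneg_left hv2 hCm
          have h5 : 0 ≤ Cm * v := by positivity
          have h6 : 0 ≤ Cm * v ^ 2 := by positivity
          calc 76800 * Real.pi * Cm * v ^ 2 = 76800 * (Real.pi * (Cm * v ^ 2)) := by ring
            _ ≤ 76800 * (3.15 * (Cm * v ^ 2)) := by
              have := mul_le_mul_of_nonneg_right p2.le h6
              linarith
            _ ≤ 76800 * 3.15 * (Cm * v) := by nlinarith
        have e5 : 80 * (v ^ 2 / 4) * (Cm * (Real.pi * 2)) ≤ 40 * 3.15 * (Cm * v) := by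
          have : Cm * v ^ 2 ≤ Cm * v := mul_le_mul_of_nonneg_left hv2 hCm
          have h6 : 0 ≤ Cm * v ^ 2 := by positivity
          calc 80 * (v ^ 2 / 4) * (Cm * (Real.pi * 2)) = 40 * (Real.pi * (Cm * v ^ 2)) := by ring
            _ ≤ 40 * (3.15 * (Cm * v ^ 2)) := by
              have := mul_le_mul_of_nonneg_right p2.le h6
              linarith
            _ ≤ 40 * 3.15 * (Cm * v) := by nlinarith
        have h5 : 0 ≤ Cm * v := by positivity
        calc _ ≤ 76800 * 3.15 * (Cm * v) + (320 * Cm * (v / 2) * 3.42 + 40 * 3.15 * (Cm * v)) := by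
              linarith
          _ ≤ 250000 * Cm * v := by
              nlinarith

end Pool.H14.SR
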