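import Pool.Agent.H14.SR.Defs
open MeasureTheory Set Filter Topology
noncomputable section
namespace Pool.H14.SR

theorem norm_E (p : ℝ × ℝ) : ‖E p‖ = Real.exp (-p.2) := by
  unfold E
  rw [Complex.norm_exp]
  congr 1
  simp

theorem E_zero (x : ℝ) : E (x, 0) = Complex.exp (Complex.I * x) := by
  unfold E; simp

theorem E_per (p : ℝ × ℝ) : E (p.1 + 2 * Real.pi, p.2) = E p := by
  unfold E
  have : Complex.I * (((p.1 + 2 * Real.pi : ℝ) : ℂ) + (p.2 : ℂ) * Complex.I)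
      = Complex.I * ((p.1 : ℂ) + (p.2 : ℂ) * Complex.I) + 2 * Real.pi * Complex.I := by
    push_cast; ring
  show Complex.exp (Complex.I * (((p.1 + 2 * Real.pi : ℝ) : ℂ) + (p.2 : ℂ) * Complex.I)) = _
  rw [this]
  exact Complex.exp_periodic _

theorem continuous_E : Continuous E := by
  unfold E; fun_prop

theorem E_mem_ball {ρ : ℝ} (hρ : 0 < ρ) {p : ℝ × ℝ} (h : -Real.log ρ < p.2) :
    E p ∈ Metric.ball (0 : ℂ) ρ := by
  rw [mem_ball_zero_iff, norm_E]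
  calc Real.exp (-p.2) < Real.exp (Real.log ρ) := Real.exp_lt_exp.2 (by linarith)
    _ = ρ := Real.exp_log hρ

theorem E_mem_closedBall {p : ℝ × ℝ} (h : 0 ≤ p.2) : E p ∈ Metric.closedBall (0 : ℂ) 1 := by
  rw [mem_closedBall_zero_iff, norm_E]
  exact Real.exp_le_one_iff.2 (by linarith)

theorem E_mem_ball_one {p : ℝ × ℝ} (h : 0 < p.2) : E p ∈ Metric.ball (0 : ℂ) 1 := by
  rw [mem_ball_zero_iff, norm_E]
  rw [← Real.exp_zero]; exact Real.exp_lt_exp.2 (by linarith)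

theorem E_ne (p : ℝ × ℝ) : E p ≠ 0 := Complex.exp_ne_zero _

theorem Dz_diff {f : ℂ → ℂ} {ρ : ℝ} (hf : DifferentiableOn ℂ f (Metric.ball 0 ρ)) :
    DifferentiableOn ℂ (Dz f) (Metric.ball 0 ρ) := by
  unfold Dz
  have h1 : DifferentiableOn ℂ (deriv f) (Metric.ball 0 ρ) := hf.deriv Metric.isOpen_ball
  have h2 : DifferentiableOn ℂ (fun w : ℂ => Complex.I * w) (Metric.ball 0 ρ) := by fun_prop
  exact h2.mul h1

theorem hasDerivAt_Ex (p : ℝ × ℝ) :
    HasDerivAt (fun x : ℝ => E (x, p.2)) (Complex.I * E p) p.1 := by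
  unfold E
  have h1 : HasDerivAt (fun x : ℝ => Complex.I * ((x : ℂ) + (p.2 : ℂ) * Complex.I))
      (Complex.I * 1) p.1 := by
    apply HasDerivAt.const_mul
    exact (Complex.ofRealCLM.hasDerivAt (x := p.1)).add_const _
  have h2 := h1.cexp
  convert h2 using 1
  ring

theorem hasDerivAt_Ey (p : ℝ × ℝ) :
    HasDerivAt (fun y : ℝ => E (p.1, y)) (-(E p)) p.2 := by
  unfold E
  have h0 : HasDerivAt (fun y : ℝ => (y : ℂ)) 1 p.2 := Complex.ofRealCLM.hasDerivAt (x := p.2)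
  have h1 : HasDerivAt (fun y : ℝ => Complex.I * ((p.1 : ℂ) + (y : ℂ) * Complex.I))
      (Complex.I * (1 * Complex.I)) p.2 := by
    apply HasDerivAt.const_mul
    exact (h0.mul_const _).const_add _
  have h2 := h1.cexp
  convert h2 using 1
  have : Complex.I * (1 * Complex.I) = -1 := by
    rw [one_mul, Complex.I_mul_I]
  rw [this]; ring

theorem hp_dx {f : ℂ → ℂ} {ρ : ℝ} (hρ : 0 < ρ) (hf : DifferentiableOn ℂ f (Metric.ball 0 ρ))
    (p : ℝ × ℝ) (h : -Real.log ρ < p.2) :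
    HasDerivAt (fun x : ℝ => hp f (x, p.2)) (hp (Dz f) p) p.1 := by
  have hm := E_mem_ball hρ h
  have hd : HasDerivAt f (deriv f (E p)) (E p) :=
    (hf.differentiableAt (Metric.isOpen_ball.mem_nhds hm)).hasDerivAt
  have := HasDerivAt.comp_of_eq p.1 hd (hasDerivAt_Ex p) rfl
  unfold hp Dz
  refine this.congr_deriv ?_
  ring

theorem hp_dy {f : ℂ → ℂ} {ρ : ℝ} (hρ : 0 < ρ) (hf : DifferentiableOn ℂ f (Metric.ball 0 ρ))
    (p : ℝ × ℝ) (h : -Real.log ρ < p.2) :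
    HasDerivAt (fun y : ℝ => hp f (p.1, y)) (Complex.I * hp (Dz f) p) p.2 := by
  have hm := E_mem_ball hρ h
  have hd : HasDerivAt f (deriv f (E p)) (E p) :=
    (hf.differentiableAt (Metric.isOpen_ball.mem_nhds hm)).hasDerivAt
  have := HasDerivAt.comp_of_eq p.2 hd (hasDerivAt_Ey p) rfl
  unfold hp Dz
  refine this.congr_deriv ?_
  have hI : Complex.I * (Complex.I * E p * deriv f (E p)) = (Complex.I * Complex.I) * (E p * deriv f (E p)) := by
    ring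
  rw [hI, Complex.I_mul_I]; ring

theorem hp_cont {f : ℂ → ℂ} {ρ : ℝ} (hρ : 0 < ρ) (hf : ContinuousOn f (Metric.ball 0 ρ)) :
    ContinuousOn (hp f) {p | -Real.log ρ < p.2} := by
  unfold hp
  exact hf.comp continuous_E.continuousOn (fun p hp => E_mem_ball hρ hp)

theorem hp_per (f : ℂ → ℂ) (p : ℝ × ℝ) : hp f (p.1 + 2 * Real.pi, p.2) = hp f p := by
  unfold hp; rw [E_per]

theorem C1_hp {f : ℂ → ℂ} {ρ : ℝ} (hρ : 0 < ρ) (hf : DifferentiableOn ℂ f (Metric.ball 0 ρ)) :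
    C1 (Real.log ρ) (hp f) (hp (Dz f)) (fun p => Complex.I * hp (Dz f) p) where
  dx := fun p h => hp_dx hρ hf p h
  dy := fun p h => hp_dy hρ hf p h
  c := hp_cont hρ hf.continuousOn
  cx := hp_cont hρ (Dz_diff hf).continuousOn
  cy := continuousOn_const.mul (hp_cont hρ (Dz_diff hf).continuousOn)
  per := fun p _ => hp_per f p

/-- Decay of the derivative: `|f'(ζ)| ≤ B e^{-y}` on the closed half plane. -/
theorem hp_decay {f : ℂ → ℂ} {ρ : ℝ} (hρ : 1 < ρ) (hf : DifferentiableOn ℂ f (Metric.ball 0 ρ)) :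
    ∃ B : ℝ, 0 ≤ B ∧ ∀ p : ℝ × ℝ, 0 ≤ p.2 → ‖hp (Dz f) p‖ ≤ B * Real.exp (-p.2) := by
  have hc : ContinuousOn (deriv f) (Metric.closedBall 0 1) :=
    ((hf.deriv Metric.isOpen_ball).continuousOn).mono (Metric.closedBall_subset_ball hρ)
  obtain ⟨B, hB⟩ := (isCompact_closedBall (0 : ℂ) 1).exists_bound_of_continuousOn hc
  refine ⟨|B|, abs_nonneg _, fun p h => ?_⟩
  unfold hp Dz
  rw [norm_mul, norm_mul, Complex.norm_I, one_mul, norm_E, mul_comm]
  exact mul_le_mul_of_nonneg_right ((hB _ (E_mem_closedBall h)).trans (le_abs_self B)) (Real.exp_pos _).le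

/-- `f(ζ)` bounded on the closed half plane. -/
theorem hp_bdd {f : ℂ → ℂ} (hf : ContinuousOn f (Metric.closedBall 0 1)) :
    ∃ B : ℝ, 0 ≤ B ∧ ∀ p : ℝ × ℝ, 0 ≤ p.2 → ‖hp f p‖ ≤ B := by
  obtain ⟨B, hB⟩ := (isCompact_closedBall (0 : ℂ) 1).exists_bound_of_continuousOn hf
  exact ⟨|B|, abs_nonneg _, fun p h => (hB _ (E_mem_closedBall h)).trans (le_abs_self B)⟩

end Pool.H14.SR
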