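import Pool.Agent.H14.SR.Basic
import Pool.Agent.H51.Carpet.Cauchy

open MeasureTheory Set Filter Topology
noncomputable section
namespace Pool.H14.SR

/-- **(DB0)** `∂̄` on the plane: for `g : ℂ → ℂ` `C¹` with compact support there is a `C¹` function `u` with
`∂̄u = g`: `u(z) = (1/π) ∫ g(z-ζ)/ζ dA(ζ)` (Mathlib convolution of `g` with the locally integrable `1/(πζ)`);
`∂̄u(z) = (1/π)∫ (∂̄g)(z-ζ)/ζ dA(ζ) = g(z)` in polar coordinates. -/
theorem DB0 (g : ℂ → ℂ) (hg : ContDiff ℝ 1 g) (hc : HasCompactSupport g) :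
    ∃ u : ℂ → ℂ, ContDiff ℝ 1 u ∧
      ∀ z, fderiv ℝ u z 1 + Complex.I * fderiv ℝ u z Complex.I = 2 * g z := by
  obtain ⟨u, hu, h, _⟩ := Pool.Agent.H51.Carpet.exists_solution g hg hc
  refine ⟨u, hu, fun z => ?_⟩
  rw [← h z, Pool.Agent.H51.Carpet.dbar]
  ring

/-- the total derivative -/
theorem DB_hasFDerivAt {σ : ℝ} {G Gx Gy : ℝ × ℝ → ℂ} (h : C1 σ G Gx Gy) (p : ℝ × ℝ) (hp : -σ < p.2) :
    HasFDerivAt G ((ContinuousLinearMap.toSpanSingleton ℝ (Gx p)).coprod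
      (ContinuousLinearMap.toSpanSingleton ℝ (Gy p))) p := by
  have hopen : IsOpen {p : ℝ × ℝ | -σ < p.2} := isOpen_lt continuous_const continuous_snd
  have hn : {p : ℝ × ℝ | -σ < p.2} ∈ 𝓝 p := hopen.mem_nhds hp
  have := hasStrictFDerivAt_uncurry_coprod (𝕜 := ℝ) (u := p) (f := fun x y => G (x, y))
    (f₁ := fun x y => ContinuousLinearMap.toSpanSingleton ℝ (Gx (x, y)))
    (f₂ := fun x y => ContinuousLinearMap.toSpanSingleton ℝ (Gy (x, y)))
    (by
      filter_upwards [hn] with q hq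
      exact (h.dx q hq).hasFDerivAt)
    (by
      filter_upwards [hn] with q hq
      exact (h.dy q hq).hasFDerivAt)
    (by
      have h1 : ContinuousAt Gx p := h.cx.continuousAt hn
      exact (ContinuousLinearMap.toSpanSingletonCLE (𝕜 := ℝ) (E := ℂ)).continuous.continuousAt.comp h1)
    (by
      have h1 : ContinuousAt Gy p := h.cy.continuousAt hn
      exact (ContinuousLinearMap.toSpanSingletonCLE (𝕜 := ℝ) (E := ℂ)).continuous.continuousAt.comp h1)
  exact this.hasFDerivAt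

theorem DB_coprod_cont {X : Type*} [TopologicalSpace X] {A B : X → ℂ} {s : Set X} (hA : ContinuousOn A s)
    (hB : ContinuousOn B s) :
    ContinuousOn (fun q => (ContinuousLinearMap.toSpanSingleton ℝ (A q)).coprod
      (ContinuousLinearMap.toSpanSingleton ℝ (B q))) s := by
  have h1 : ContinuousOn (fun q => ContinuousLinearMap.smulRightL ℝ (ℝ × ℝ) ℂ
      (ContinuousLinearMap.fst ℝ ℝ ℝ) (A q)) s :=
    (ContinuousLinearMap.smulRightL ℝ (ℝ × ℝ) ℂ
      (ContinuousLinearMap.fst ℝ ℝ ℝ)).continuous.comp_continuousOn hA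
  have h2 : ContinuousOn (fun q => ContinuousLinearMap.smulRightL ℝ (ℝ × ℝ) ℂ
      (ContinuousLinearMap.snd ℝ ℝ ℝ) (B q)) s :=
    (ContinuousLinearMap.smulRightL ℝ (ℝ × ℝ) ℂ
      (ContinuousLinearMap.snd ℝ ℝ ℝ)).continuous.comp_continuousOn hB
  refine (h1.add h2).congr ?_
  intro q _
  apply ContinuousLinearMap.ext
  intro v
  simp [ContinuousLinearMap.smulRightL, ContinuousLinearMap.coprod_apply]

theorem DB_contDiffAt {σ : ℝ} {G Gx Gy : ℝ × ℝ → ℂ} (h : C1 σ G Gx Gy) (p : ℝ × ℝ) (hp : -σ < p.2) :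
    ContDiffAt ℝ 1 G p := by
  have hopen : IsOpen {p : ℝ × ℝ | -σ < p.2} := isOpen_lt continuous_const continuous_snd
  have hn : {p : ℝ × ℝ | -σ < p.2} ∈ 𝓝 p := hopen.mem_nhds hp
  rw [contDiffAt_one_iff]
  exact ⟨fun q => (ContinuousLinearMap.toSpanSingleton ℝ (Gx q)).coprod
      (ContinuousLinearMap.toSpanSingleton ℝ (Gy q)), _, hn, DB_coprod_cont h.cx h.cy,
      fun q hq => DB_hasFDerivAt h q hq⟩

/-- the function in the variable `ζ` -/
def DBc (G : ℝ × ℝ → ℂ) (ζ : ℂ) : ℂ := G (ζ.re, ζ.im)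

theorem DBc_contDiffAt {σ : ℝ} {G Gx Gy : ℝ × ℝ → ℂ} (h : C1 σ G Gx Gy) (ζ : ℂ) (hp : -σ < ζ.im) :
    ContDiffAt ℝ 1 (DBc G) ζ := by
  have h1 : ContDiffAt ℝ 1 (fun ζ : ℂ => (ζ.re, ζ.im)) ζ := by
    have := Complex.equivRealProdCLM.contDiff (n := 1)
    exact this.contDiffAt
  exact (DB_contDiffAt h (ζ.re, ζ.im) hp).comp ζ h1

theorem DB_per_nat {σ : ℝ} {G Gx Gy : ℝ × ℝ → ℂ} (h : C1 σ G Gx Gy) (n : ℕ) (p : ℝ × ℝ) (hp : -σ < p.2) :
    G (p.1 + n * (2 * Real.pi), p.2) = G p := by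
  induction n with
  | zero => simp
  | succ n ih =>
    rw [← ih]
    have := h.per (p.1 + n * (2 * Real.pi), p.2) hp
    rw [← this]
    congr 2
    push_cast; ring

theorem DB_per_int {σ : ℝ} {G Gx Gy : ℝ × ℝ → ℂ} (h : C1 σ G Gx Gy) (n : ℤ) (p : ℝ × ℝ) (hp : -σ < p.2) :
    G (p.1 + n * (2 * Real.pi), p.2) = G p := by
  obtain ⟨k, rfl | rfl⟩ := n.eq_nat_or_neg
  · exact DB_per_nat h k p hp
  · have := DB_per_nat h k (p.1 + ((-(k : ℤ) : ℤ) : ℝ) * (2 * Real.pi), p.2) hp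
    rw [← this]
    congr 1
    ext
    · simp
    · rfl

theorem DBc_exp {σ : ℝ} {G Gx Gy : ℝ × ℝ → ℂ} (h : C1 σ G Gx Gy) (ζ ζ' : ℂ) (hζ : -σ < ζ.im)
    (he : Complex.exp (Complex.I * ζ) = Complex.exp (Complex.I * ζ')) : DBc G ζ = DBc G ζ' := by
  rw [Complex.exp_eq_exp_iff_exists_int] at he
  obtain ⟨n, hn⟩ := he
  have h1 : ζ = ζ' + n * (2 * Real.pi) := by
    have hI : Complex.I ≠ 0 := Complex.I_ne_zero
    have : Complex.I * ζ = Complex.I * (ζ' + n * (2 * Real.pi)) := by rw [hn]; ring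
    exact mul_left_cancel₀ hI this
  have hre : ζ.re = ζ'.re + n * (2 * Real.pi) := by
    rw [h1]; simp
  have him : ζ.im = ζ'.im := by
    rw [h1]; simp
  unfold DBc
  rw [hre, him]
  exact DB_per_int h n (ζ'.re, ζ'.im) (by rw [← him]; exact hζ)

/-- the cut-off -/
def DBθ (σ y : ℝ) : ℝ := Real.smoothTransition ((y + 3 * σ / 4) / (σ / 4))

theorem DBθ_one {σ y : ℝ} (hσ : 0 < σ) (hy : -(σ / 2) ≤ y) : DBθ σ y = 1 := by
  unfold DBθ
  apply Real.smoothTransition.one_of_one_le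
  rw [le_div_iff₀ (by positivity)]
  linarith

theorem DBθ_zero {σ y : ℝ} (hσ : 0 < σ) (hy : y ≤ -(3 * σ / 4)) : DBθ σ y = 0 := by
  unfold DBθ
  apply Real.smoothTransition.zero_of_nonpos
  apply div_nonpos_of_nonpos_of_nonneg <;> linarith

theorem DBθ_contDiff (σ : ℝ) : ContDiff ℝ 1 (DBθ σ) := by
  unfold DBθ
  exact Real.smoothTransition.contDiff.comp ((contDiff_id.add contDiff_const).div_const _)

/-- the transplanted function -/
def DBg (σ : ℝ) (G : ℝ × ℝ → ℂ) (w : ℂ) : ℂ :=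
  (DBθ σ (-Real.log ‖w‖) : ℂ) * DBc G (-Complex.I * Complex.log w) / (starRingEnd ℂ) (Complex.I * w)

theorem DB_log_im (w : ℂ) : (-Complex.I * Complex.log w).im = -Real.log ‖w‖ := by
  simp [Complex.log_re]

theorem DBg_zero_out {σ : ℝ} (hσ : 0 < σ) (G : ℝ × ℝ → ℂ) {w : ℂ} (hw : -Real.log ‖w‖ ≤ -(3 * σ / 4)) :
    DBg σ G w = 0 := by
  unfold DBg
  rw [DBθ_zero hσ hw]
  simp

theorem DBg_zero_in {σ Y : ℝ} {G : ℝ × ℝ → ℂ} (hY : ∀ p : ℝ × ℝ, Y ≤ p.2 → G p = 0) {w : ℂ}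
    (hw : ‖w‖ < Real.exp (-Y)) : DBg σ G w = 0 := by
  by_cases h0 : w = 0
  · subst h0; simp [DBg]
  · unfold DBg DBc
    rw [hY _ _]
    · simp
    · change Y ≤ (-Complex.I * Complex.log w).im
      rw [DB_log_im]
      have : Real.log ‖w‖ < -Y := by
        rw [Real.log_lt_iff_lt_exp (norm_pos_iff.2 h0)]; exact hw
      linarith


theorem DBg_contDiffAt_aux {σ : ℝ} {G Gx Gy : ℝ × ℝ → ℂ} (h : C1 σ G Gx Gy) (w₀ : ℂ)
    (hw0 : w₀ ≠ 0) (hσw : -σ < -Real.log ‖w₀‖) (L : ℂ → ℂ) (hL : ContDiffAt ℝ 1 L w₀)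
    (hexp : ∀ᶠ w in 𝓝 w₀, Complex.exp (L w) = w) : ContDiffAt ℝ 1 (DBg σ G) w₀ := by
  have hre : ∀ᶠ w in 𝓝 w₀, (-Complex.I * L w).im = -Real.log ‖w‖ := by
    filter_upwards [hexp] with w hw
    have : ‖w‖ = Real.exp (L w).re := by rw [← Complex.norm_exp, hw]
    rw [this, Real.log_exp]
    simp
  have h1 : ContDiffAt ℝ 1 (fun w => DBc G (-Complex.I * L w)) w₀ := by
    have h2 : ContDiffAt ℝ 1 (fun w => -Complex.I * L w) w₀ := contDiffAt_const.mul hL
    have h3 := DBc_contDiffAt h (-Complex.I * L w₀) (by rw [hre.self_of_nhds]; exact hσw)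
    exact ContDiffAt.comp (g := DBc G) w₀ h3 h2
  have h2 : ContDiffAt ℝ 1 (fun w : ℂ => ((DBθ σ (-Real.log ‖w‖) : ℝ) : ℂ)) w₀ := by
    have h3 : ContDiffAt ℝ 1 (fun w : ℂ => -Real.log ‖w‖) w₀ := by
      apply ContDiffAt.neg
      exact (contDiffAt_norm ℝ hw0).log (norm_ne_zero_iff.2 hw0)
    have h4 : ContDiffAt ℝ 1 (fun w : ℂ => DBθ σ (-Real.log ‖w‖)) w₀ :=
      (DBθ_contDiff σ).contDiffAt.comp w₀ h3
    exact Complex.ofRealCLM.contDiff.contDiffAt.comp w₀ h4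
  have h3 : ContDiffAt ℝ 1 (fun w : ℂ => ((starRingEnd ℂ) (Complex.I * w))⁻¹) w₀ := by
    apply ContDiffAt.inv
    · have h4 : ContDiffAt ℝ 1 (fun w : ℂ => Complex.I * w) w₀ := contDiffAt_const.mul contDiffAt_id
      exact Complex.conjCLE.contDiff.contDiffAt.comp w₀ h4
    · simp [hw0]
  have h4 : ContDiffAt ℝ 1 (fun w : ℂ => ((DBθ σ (-Real.log ‖w‖) : ℝ) : ℂ) * DBc G (-Complex.I * L w) *
      ((starRingEnd ℂ) (Complex.I * w))⁻¹) w₀ := (h2.mul h1).mul h3
  refine h4.congr_of_eventuallyEq ?_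
  have hopen : ∀ᶠ w in 𝓝 w₀, -σ < -Real.log ‖w‖ := by
    have hc : ContinuousAt (fun w : ℂ => -Real.log ‖w‖) w₀ := by
      apply ContinuousAt.neg
      exact (continuous_norm.continuousAt).log (norm_ne_zero_iff.2 hw0)
    exact hc.eventually (lt_mem_nhds hσw)
  filter_upwards [hexp, hre, hopen] with w e1 e2 e3
  unfold DBg
  rw [div_eq_mul_inv]
  congr 2
  have hwne : w ≠ 0 := by rw [← e1]; exact Complex.exp_ne_zero _
  symm
  apply DBc_exp h
  · rw [e2]; exact e3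
  · have hh : ∀ z : ℂ, Complex.I * (-Complex.I * z) = z := by
      intro z
      have : Complex.I * (-Complex.I * z) = -(Complex.I * Complex.I) * z := by ring
      rw [this, Complex.I_mul_I]; ring
    rw [hh, hh, e1, Complex.exp_log hwne]

theorem DBg_contDiff {σ : ℝ} (hσ : 0 < σ) {G Gx Gy : ℝ × ℝ → ℂ} (h : C1 σ G Gx Gy) {Y : ℝ}
    (hY : ∀ p : ℝ × ℝ, Y ≤ p.2 → G p = 0) : ContDiff ℝ 1 (DBg σ G) := by
  rw [contDiff_iff_contDiffAt]
  intro w₀
  by_cases hA : ‖w₀‖ < Real.exp (-Y)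
  · have : ∀ᶠ w in 𝓝 w₀, ‖w‖ < Real.exp (-Y) := (continuous_norm.tendsto w₀).eventually (gt_mem_nhds hA)
    have h0 : (fun _ : ℂ => (0 : ℂ)) =ᶠ[𝓝 w₀] DBg σ G := by
      filter_upwards [this] with w hw
      exact (DBg_zero_in hY hw).symm
    exact contDiffAt_const.congr_of_eventuallyEq h0.symm
  by_cases hB : Real.exp (3 * σ / 4) < ‖w₀‖
  · have : ∀ᶠ w in 𝓝 w₀, Real.exp (3 * σ / 4) < ‖w‖ :=
      (continuous_norm.tendsto w₀).eventually (lt_mem_nhds hB)
    have h0 : (fun _ : ℂ => (0 : ℂ)) =ᶠ[𝓝 w₀] DBg σ G := by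
      filter_upwards [this] with w hw
      refine (DBg_zero_out hσ G ?_).symm
      have : 3 * σ / 4 < Real.log ‖w‖ := by
        rw [Real.lt_log_iff_exp_lt ((Real.exp_pos _).trans hw)]; exact hw
      linarith
    exact contDiffAt_const.congr_of_eventuallyEq h0.symm
  push Not at hA hB
  have hpos : 0 < ‖w₀‖ := (Real.exp_pos _).trans_le hA
  have hw0 : w₀ ≠ 0 := norm_pos_iff.1 hpos
  have hσw : -σ < -Real.log ‖w₀‖ := by
    have : Real.log ‖w₀‖ ≤ 3 * σ / 4 := by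
      rw [Real.log_le_iff_le_exp hpos]; exact hB
    linarith
  by_cases hs : w₀ ∈ Complex.slitPlane
  · refine DBg_contDiffAt_aux h w₀ hw0 hσw Complex.log ?_ ?_
    · exact (Complex.contDiffAt_log (n := 1) hs).restrict_scalars ℝ
    · filter_upwards [isOpen_ne.mem_nhds hw0] with w hw
      exact Complex.exp_log hw
  · refine DBg_contDiffAt_aux h w₀ hw0 hσw (fun w => Complex.log (-w) + Real.pi * Complex.I) ?_ ?_
    · have hs' : -w₀ ∈ Complex.slitPlane := by
        rw [Complex.mem_slitPlane_iff] at hs ⊢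
        push Not at hs
        left
        obtain ⟨a, b⟩ := hs
        rcases lt_or_eq_of_le a with a | a
        · simpa using a
        · exact absurd (Complex.ext a b) hw0
      have h1 := (Complex.contDiffAt_log (n := 1) hs').restrict_scalars ℝ
      have h2 : ContDiffAt ℝ 1 (fun w : ℂ => -w) w₀ := contDiffAt_id.neg
      exact (h1.comp w₀ h2).add contDiffAt_const
    · filter_upwards [isOpen_ne.mem_nhds hw0] with w hw
      rw [Complex.exp_add, Complex.exp_log (neg_ne_zero.2 hw), Complex.exp_pi_mul_I]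
      ring

theorem DBg_compact {σ : ℝ} (hσ : 0 < σ) (G : ℝ × ℝ → ℂ) : HasCompactSupport (DBg σ G) := by
  apply HasCompactSupport.intro (isCompact_closedBall (0 : ℂ) (Real.exp (3 * σ / 4)))
  intro w hw
  rw [mem_closedBall_zero_iff, not_le] at hw
  refine DBg_zero_out hσ G ?_
  have : 3 * σ / 4 < Real.log ‖w‖ := by
    rw [Real.lt_log_iff_exp_lt ((Real.exp_pos _).trans hw)]; exact hw
  linarith

theorem DB_real_lin (D : ℂ →L[ℝ] ℂ) (v : ℂ) :
    D (Complex.I * v) + Complex.I * D (-v) =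
      -Complex.I * (D 1 + Complex.I * D Complex.I) * (starRingEnd ℂ) v := by
  have h1 : ∀ z : ℂ, D z = z.re • D 1 + z.im • D Complex.I := by
    intro z
    have : z = z.re • (1 : ℂ) + z.im • Complex.I := by
      simp [Complex.re_add_im]
    conv_lhs => rw [this]
    rw [map_add, map_smul, map_smul]
  rw [h1 (Complex.I * v), h1 (-v)]
  have h2 : (starRingEnd ℂ) v = (v.re : ℂ) - v.im * Complex.I := by
    apply Complex.ext <;> simp
  rw [h2]
  simp only [Complex.mul_re, Complex.I_re, Complex.I_im, Complex.mul_im, Complex.neg_re, Complex.neg_im,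
    Complex.real_smul]
  push_cast
  generalize D 1 = a
  generalize D Complex.I = b
  linear_combination (-(v.im : ℂ) * a + v.re * b - Complex.I * v.im * b) * Complex.I_sq

/-- **(DB)** Periodic `∂̄` problem on the half plane: `G` is `C¹`, periodic on `y > -σ`, zero for `y ≥ Y`.
There is `w₀`, `C¹` and periodic on `y > -σ/2`, bounded on `y ≥ 0`, with `∂̄w₀ = G` there.

Proof: in the variable `w = e^{iζ}`: `g(w) = θ(y) G(ζ)/conj(iw)`, where `θ` is smooth, `1` for `y > -σ/2`, `0` for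
`y < -3σ/4`; `g` is well defined (periodicity) and `C¹` with compact support in an annulus (use local branches
of the logarithm, `Complex.log w` on the slit plane and `log(-w) + iπ` near the negative axis); `DB0` gives `u`;
`w₀(ζ) = u(e^{iζ})`: `∂_{conj ζ} w₀ = (∂_{conj w}u) conj(iw)`. -/
theorem DB (σ : ℝ) (hσ : 0 < σ) (G Gx Gy : ℝ × ℝ → ℂ) (h : C1 σ G Gx Gy) (Y : ℝ)
    (hY : ∀ p : ℝ × ℝ, Y ≤ p.2 → G p = 0) :
    ∃ w wx wy : ℝ × ℝ → ℂ, C1 (σ / 2) w wx wy ∧
      (∀ p : ℝ × ℝ, -(σ / 2) < p.2 → wx p + Complex.I * wy p = 2 * G p) ∧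
      ∃ B : ℝ, ∀ p : ℝ × ℝ, 0 ≤ p.2 → ‖w p‖ ≤ B := by
  obtain ⟨u, hu, hdu⟩ := DB0 (DBg σ G) (DBg_contDiff hσ h hY) (DBg_compact hσ G)
  have hdiff : ∀ z, HasFDerivAt u (fderiv ℝ u z) z := fun z =>
    ((hu.differentiable (by norm_num)) z).hasFDerivAt
  have hcf : Continuous (fun z => fderiv ℝ u z) := hu.continuous_fderiv (by norm_num)
  refine ⟨fun p => u (E p), fun p => fderiv ℝ u (E p) (Complex.I * E p),
    fun p => fderiv ℝ u (E p) (-(E p)), ⟨?_, ?_, ?_, ?_, ?_, ?_⟩, ?_, ?_⟩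
  · intro p _
    exact (hdiff (E p)).comp_hasDerivAt_of_eq p.1 (hasDerivAt_Ex p) rfl
  · intro p _
    exact (hdiff (E p)).comp_hasDerivAt_of_eq p.2 (hasDerivAt_Ey p) rfl
  · exact (hu.continuous.comp continuous_E).continuousOn
  · exact ((hcf.comp continuous_E).clm_apply (continuous_const.mul continuous_E)).continuousOn
  · exact ((hcf.comp continuous_E).clm_apply continuous_E.neg).continuousOn
  · intro p _
    simp only [E_per]
  · intro p hp
    rw [DB_real_lin, hdu (E p)]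
    have h1 : DBθ σ (-Real.log ‖E p‖) = 1 := by
      rw [norm_E, Real.log_exp, neg_neg]
      exact DBθ_one hσ hp.le
    have h2 : DBc G (-Complex.I * Complex.log (E p)) = G p := by
      have : DBc G ((p.1 : ℂ) + p.2 * Complex.I) = G p := by simp [DBc]
      rw [← this]
      symm
      apply DBc_exp h
      · simp; linarith
      · have hh : ∀ z : ℂ, Complex.I * (-Complex.I * z) = z := by
          intro z
          have : Complex.I * (-Complex.I * z) = -(Complex.I * Complex.I) * z := by ring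
          rw [this, Complex.I_mul_I]; ring
        rw [hh, Complex.exp_log (E_ne p)]
        rfl
    unfold DBg
    rw [h1, h2]
    have h3 : (starRingEnd ℂ) (E p) ≠ 0 := by
      rw [Ne, map_eq_zero]; exact E_ne p
    rw [map_mul, Complex.conj_I]
    have hI : Complex.I ≠ 0 := Complex.I_ne_zero
    push_cast
    field_simp
  · have hc : ContinuousOn u (Metric.closedBall 0 1) := hu.continuous.continuousOn
    obtain ⟨B, hB⟩ := (isCompact_closedBall (0 : ℂ) 1).exists_bound_of_continuousOn hc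
    exact ⟨B, fun p hp => hB _ (E_mem_closedBall hp)⟩

end Pool.H14.SR
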