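import Pool.Agent.H14.SR.Basic
import Pool.Agent.H14.SR.HB
open MeasureTheory Set Filter Topology
noncomputable section
namespace Pool.H14.SR

namespace DUaux

open scoped ENNReal InnerProductSpace

/-- Euclidean space. -/
abbrev En (N : ℕ) := EuclideanSpace ℂ (Fin N)

theorem integrable_Lp2 {N : ℕ} (h : Lp (En N) 2 mu) : Integrable (fun x => h x) mu :=
  (Lp.memLp h).integrable (by norm_num)

/-- The `L¹` seminorm on `L²`. -/
def sn (N : ℕ) : Seminorm ℂ (Lp (En N) 2 mu) :=
  Seminorm.of (fun h => ∫ x, ‖h x‖ ∂mu)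
    (by
      intro h k
      rw [← integral_add (integrable_Lp2 h).norm (integrable_Lp2 k).norm]
      refine integral_mono_ae (integrable_Lp2 (h + k)).norm
        ((integrable_Lp2 h).norm.add (integrable_Lp2 k).norm) ?_
      filter_upwards [Lp.coeFn_add h k] with x hx
      rw [hx]; exact norm_add_le _ _)
    (by
      intro a h
      rw [← integral_const_mul]
      refine integral_congr_ae ?_
      filter_upwards [Lp.coeFn_smul a h] with x hx
      rw [hx, Pi.smul_apply, norm_smul])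

theorem sn_apply {N : ℕ} (h : Lp (En N) 2 mu) : sn N h = ∫ x, ‖h x‖ ∂mu := rfl

theorem snC_apply {N : ℕ} (C : ℝ) (hC : 0 ≤ C) (h : Lp (En N) 2 mu) :
    (Real.toNNReal C • sn N) h = C * sn N h := by
  rw [_root_.smul_apply, NNReal.smul_def, Real.coe_toNNReal _ hC, smul_eq_mul]

theorem sn_continuous (N : ℕ) (C : ℝ) : Continuous (Real.toNNReal C • sn N) := by
  have h0 : ∀ h : Lp (En N) 2 mu, sn N h ≤ ((mu univ ^ (1 / 2 : ℝ)).toReal) * ‖h‖ := by
    intro h
    have h1 := eLpNorm_le_eLpNorm_mul_rpow_measure_univ (μ := mu) (p := 1) (q := 2)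
      (by norm_num) (Lp.aestronglyMeasurable h)
    have h2 : sn N h = (eLpNorm h 1 mu).toReal := by
      rw [sn_apply, integral_norm_eq_lintegral_enorm (Lp.aestronglyMeasurable h),
        eLpNorm_one_eq_lintegral_enorm]
    rw [h2, Lp.norm_def, mul_comm, ← ENNReal.toReal_mul]
    apply ENNReal.toReal_mono
    · apply ENNReal.mul_ne_top (Lp.eLpNorm_ne_top h)
      exact ENNReal.rpow_ne_top_of_nonneg (by norm_num) (measure_ne_top _ _)
    · refine h1.trans (le_of_eq ?_)
      congr 2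
      norm_num
  have h1 : Continuous (sn N) := by
    refine Seminorm.continuous_of_le (q := (mu univ ^ (1 / 2 : ℝ)).toNNReal •
      normSeminorm ℂ (Lp (En N) 2 mu)) ?_ ?_
    · exact continuous_norm.const_smul _
    · intro h
      exact h0 h
  exact h1.const_smul _

/-- The vector polynomials. -/
def hh {N : ℕ} (p : Fin N → Polynomial ℂ) (x : ℝ) : En N :=
  WithLp.toLp 2 (fun i => E (x, 0) * (p i).eval (E (x, 0)))

theorem hh_continuous {N : ℕ} (p : Fin N → Polynomial ℂ) : Continuous (hh p) := by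
  unfold hh
  have hE : Continuous (fun x : ℝ => E (x, 0)) := continuous_E.comp (by fun_prop)
  have h1 : Continuous (fun x : ℝ => (fun i => E (x, 0) * (p i).eval (E (x, 0)) : Fin N → ℂ)) :=
    continuous_pi fun i => hE.mul ((p i).continuous.comp hE)
  exact (PiLp.continuous_toLp 2 _).comp h1

theorem hh_memLp {N : ℕ} (p : Fin N → Polynomial ℂ) : MemLp (hh p) 2 mu := by
  obtain ⟨B, hB⟩ := (isCompact_Icc (a := (0 : ℝ)) (b := 2 * Real.pi)).exists_bound_of_continuousOn
    (hh_continuous p).continuousOn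
  refine MemLp.of_bound (hh_continuous p).aestronglyMeasurable B ?_
  unfold mu
  rw [ae_restrict_iff' measurableSet_Ioc]
  exact ae_of_all _ fun x hx => hB x (Ioc_subset_Icc_self hx)

/-- The vector polynomials as elements of `L²`. -/
def TT (N : ℕ) : (Fin N → Polynomial ℂ) →ₗ[ℂ] Lp (En N) 2 mu where
  toFun p := (hh_memLp p).toLp (hh p)
  map_add' p q := by
    rw [← MemLp.toLp_add]
    apply MemLp.toLp_congr
    refine ae_of_all _ fun x => ?_
    ext i
    simp [hh, mul_add]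
  map_smul' c p := by
    rw [RingHom.id_apply, ← MemLp.toLp_const_smul]
    apply MemLp.toLp_congr
    refine ae_of_all _ fun x => ?_
    ext i
    simp only [hh, Pi.smul_apply, Polynomial.eval_smul, smul_eq_mul, PiLp.smul_apply]
    ring

theorem TT_coe {N : ℕ} (p : Fin N → Polynomial ℂ) : ∀ᵐ x ∂mu, TT N p x = hh p x :=
  MemLp.coeFn_toLp (hh_memLp p)

theorem memLp_vec {N : ℕ} (v : ℝ → Fin N → ℂ) (hv : ∀ i, MemLp (fun x => v x i) 2 mu) :
    MemLp (fun x => (WithLp.toLp 2 (fun i => starRingEnd ℂ (v x i)) : En N)) 2 mu := by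
  have h1 : AEStronglyMeasurable
      (fun x => (WithLp.toLp 2 (fun i => starRingEnd ℂ (v x i)) : En N)) mu := by
    have h2 : AEStronglyMeasurable (fun x => (fun i => starRingEnd ℂ (v x i) : Fin N → ℂ)) mu := by
      have : AEMeasurable (fun x => (fun i => starRingEnd ℂ (v x i) : Fin N → ℂ)) mu :=
        aemeasurable_pi_lambda _ fun i =>
          (Complex.continuous_conj.comp_aestronglyMeasurable (hv i).1).aemeasurable
      exact this.aestronglyMeasurable
    exact (PiLp.continuous_toLp 2 _).comp_aestronglyMeasurable h2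
  have h3 : MemLp (fun x => ∑ i, ‖v x i‖) 2 mu := memLp_finsetSum _ fun i _ => (hv i).norm
  refine h3.mono h1 (ae_of_all _ fun x => ?_)
  rw [EuclideanSpace.norm_eq]
  simp only [RCLike.norm_conj]
  have h4 : 0 ≤ ∑ i, ‖v x i‖ := Finset.sum_nonneg fun i _ => norm_nonneg _
  rw [Real.norm_of_nonneg h4]
  apply Real.sqrt_le_iff.2 ⟨h4, ?_⟩
  exact Finset.sum_sq_le_sq_sum_of_nonneg fun i _ => norm_nonneg _

end DUaux

open scoped ENNReal InnerProductSpace in
open DUaux in
/-- **(DU)** Duality.  Let `v = (v_i)` be an `L²` vector function and `C ≥ 0` with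
`|∫ Σ v_i h_i| ≤ C ∫ (Σ|h_i|²)^{1/2}` for all analytic polynomials `h_i` with `h_i(0) = 0`.  Then there are
`g_i ∈ H²` with `Σ|v_i - g_i|² ≤ C²` a.e.

Proof: on `X = L¹(mu; ℂ^N)` (Euclidean norm) the functional `h ↦ ∫ Σ v_i h_i`, defined on the subspace of
polynomials vanishing at `0`, is bounded by `C`; Hahn-Banach extends it to `Λ ∈ X*`, `‖Λ‖ ≤ C`.  Restrict `Λ` to
`L²(mu;ℂ^N)` (Riesz): `Λ(h) = ∫ Σ r_i h_i` with `r_i ∈ L²`.  Testing with `h = 1_A ξ` (`A` measurable, `ξ ∈ ℂ^N`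
constant) gives `|Σ r_i ξ_i| ≤ C|ξ|` a.e. for `ξ` in a countable dense set, so `Σ|r_i|² ≤ C²` a.e.
`g = v - r` satisfies `∫ g_i e^{i(n+1)x} = 0`. -/
theorem DU (N : ℕ) (v : ℝ → Fin N → ℂ) (hv : ∀ i, MemLp (fun x => v x i) 2 mu) (C : ℝ) (hC : 0 ≤ C)
    (H : ∀ p : Fin N → Polynomial ℂ,
      ‖∫ x in Set.Ioc 0 (2 * Real.pi), ∑ i, v x i * (E (x, 0) * (p i).eval (E (x, 0)))‖
        ≤ C * ∫ x in Set.Ioc 0 (2 * Real.pi),
            Real.sqrt (∑ i, ‖E (x, 0) * (p i).eval (E (x, 0))‖ ^ 2)) :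
    ∃ g : ℝ → Fin N → ℂ, (∀ i, Htwo (fun x => g x i)) ∧
      ∀ᵐ x ∂mu, ∑ i, ‖v x i - g x i‖ ^ 2 ≤ C ^ 2 := by
  classical
  set V : Lp (En N) 2 mu := (memLp_vec v hv).toLp _ with hV
  have hVc : ∀ᵐ x ∂mu, V x = WithLp.toLp 2 (fun i => starRingEnd ℂ (v x i)) :=
    MemLp.coeFn_toLp (memLp_vec v hv)
  have hVT : ∀ p, ⟪V, TT N p⟫_ℂ =
      ∫ x in Set.Ioc 0 (2 * Real.pi), ∑ i, v x i * (E (x, 0) * (p i).eval (E (x, 0))) := by
    intro p
    rw [L2.inner_def]
    refine integral_congr_ae ?_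
    filter_upwards [hVc, TT_coe p] with x hx1 hx2
    rw [hx1, hx2, PiLp.inner_apply]
    refine Finset.sum_congr rfl fun i _ => ?_
    simp [hh, RCLike.inner_apply, mul_comm]
  have hsnT : ∀ p, sn N (TT N p) = ∫ x in Set.Ioc 0 (2 * Real.pi),
      Real.sqrt (∑ i, ‖E (x, 0) * (p i).eval (E (x, 0))‖ ^ 2) := by
    intro p
    rw [sn_apply]
    refine integral_congr_ae ?_
    filter_upwards [TT_coe p] with x hx
    rw [hx, EuclideanSpace.norm_eq]
    rfl
  set S : Submodule ℂ (Lp (En N) 2 mu) := LinearMap.range (TT N) with hS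
  set f : Module.Dual ℂ S := (innerSL ℂ V).toLinearMap.comp S.subtype with hf
  obtain ⟨Λ, hΛ1, hΛ2⟩ := Module.Dual.exists_continuous_extension_of_le_seminorm S f
    (sn_continuous N C) (by
      rintro ⟨_, p, rfl⟩
      have h1 := H p
      rw [← hVT, ← hsnT, ← snC_apply C hC] at h1
      exact h1)
  set r : Lp (En N) 2 mu := (InnerProductSpace.toDual ℂ (Lp (En N) 2 mu)).symm Λ with hr
  have hrΛ : ∀ h, ⟪r, h⟫_ℂ = Λ h := fun h => InnerProductSpace.toDual_symm_apply
  -- testing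
  have htest : ∀ ξ : En N, ∀ᵐ x ∂mu, RCLike.re (⟪ξ, r x⟫_ℂ) ≤ C * ‖ξ‖ := by
    intro ξ
    have hint : Integrable (fun x => ⟪ξ, r x⟫_ℂ) mu := (integrable_Lp2 r).const_inner ξ
    refine ae_le_of_forall_setIntegral_le hint.re (integrable_const _) ?_
    intro A hA hmA
    have h1 := hΛ2 (indicatorConstLp 2 hA hmA.ne ξ)
    rw [snC_apply C hC, ← hrΛ, ← inner_conj_symm, RCLike.norm_conj,
      L2.inner_indicatorConstLp_eq_setIntegral_inner] at h1
    have h2 : sn N (indicatorConstLp 2 hA hmA.ne ξ) = ‖ξ‖ * mu.real A := by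
      rw [sn_apply]
      have h3 : ∫ x, ‖(indicatorConstLp 2 hA hmA.ne ξ : Lp (En N) 2 mu) x‖ ∂mu =
          ∫ x, A.indicator (fun _ => ‖ξ‖) x ∂mu := by
        refine integral_congr_ae ?_
        filter_upwards [indicatorConstLp_coeFn (p := 2) (hs := hA) (hμs := hmA.ne) (c := ξ)]
          with x hx
        rw [hx, norm_indicator_eq_indicator_norm]
      rw [h3, integral_indicator hA, setIntegral_const, smul_eq_mul, mul_comm]
    have h3 : ‖∫ x in A, ⟪ξ, r x⟫_ℂ ∂mu‖ ≤ C * (‖ξ‖ * mu.real A) := by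
      rw [← h2]; exact h1
    rw [setIntegral_const, smul_eq_mul]
    have h4 : ∫ x in A, RCLike.re (⟪ξ, r x⟫_ℂ) ∂mu = RCLike.re (∫ x in A, ⟪ξ, r x⟫_ℂ ∂mu) :=
      integral_re hint.integrableOn
    rw [h4]
    calc RCLike.re (∫ x in A, ⟪ξ, r x⟫_ℂ ∂mu) ≤ ‖∫ x in A, ⟪ξ, r x⟫_ℂ ∂mu‖ := RCLike.re_le_norm _
      _ ≤ C * (‖ξ‖ * mu.real A) := h3
      _ = mu.real A * (C * ‖ξ‖) := by ring
  have hbd : ∀ᵐ x ∂mu, ‖r x‖ ≤ C := by
    have h1 : ∀ᵐ x ∂mu, ∀ n : ℕ, RCLike.re (⟪TopologicalSpace.denseSeq (En N) n, r x⟫_ℂ) ≤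
        C * ‖TopologicalSpace.denseSeq (En N) n‖ := ae_all_iff.2 fun n => htest _
    filter_upwards [h1] with x hx
    have h2 : ∀ ξ : En N, RCLike.re (⟪ξ, r x⟫_ℂ) ≤ C * ‖ξ‖ := by
      intro ξ
      refine (TopologicalSpace.denseRange_denseSeq (En N)).induction_on ξ ?_ hx
      exact isClosed_le (RCLike.continuous_re.comp (continuous_id.inner continuous_const))
        (continuous_const.mul continuous_norm)
    have h3 := h2 (r x)
    rw [inner_self_eq_norm_sq] at h3
    by_contra hcon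
    push Not at hcon
    have h4 : 0 < ‖r x‖ := lt_of_le_of_lt hC hcon
    nlinarith
  -- the components of `r`
  have hrc : ∀ i, MemLp (fun x => starRingEnd ℂ (r x i)) 2 mu := by
    intro i
    refine (Lp.memLp r).mono ?_ (ae_of_all _ fun x => ?_)
    · exact (Complex.continuous_conj.comp (PiLp.continuous_apply 2 _ i)).comp_aestronglyMeasurable
        (Lp.aestronglyMeasurable r)
    · rw [RCLike.norm_conj]
      exact PiLp.norm_apply_le (r x) i
  refine ⟨fun x i => v x i - starRingEnd ℂ (r x i), fun i => ⟨(hv i).sub (hrc i), ?_⟩, ?_⟩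
  · intro n
    set p : Fin N → Polynomial ℂ := Pi.single i (Polynomial.X ^ n) with hp
    have h1 : ⟪V, TT N p⟫_ℂ = ⟪r, TT N p⟫_ℂ := by
      rw [hrΛ]
      exact (hΛ1 ⟨TT N p, p, rfl⟩).symm
    have hEp : ∀ (x : ℝ) (u : Fin N → ℂ), ∑ j, u j * (E (x, 0) * (p j).eval (E (x, 0))) =
        Complex.exp (((n : ℂ) + 1) * Complex.I * (x : ℂ)) * u i := by
      intro x u
      rw [Finset.sum_eq_single i]
      · have : E (x, 0) * (p i).eval (E (x, 0)) =
            Complex.exp (((n : ℂ) + 1) * Complex.I * (x : ℂ)) := by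
          rw [hp, Pi.single_eq_same, Polynomial.eval_pow, Polynomial.eval_X, E_zero,
            ← pow_succ', ← Complex.exp_nat_mul]
          congr 1
          push_cast; ring
        rw [this, mul_comm]
      · intro j _ hj
        simp [hp, Pi.single_eq_of_ne hj]
      · simp
    rw [hVT] at h1
    have h2 : ⟪r, TT N p⟫_ℂ = ∫ x in Set.Ioc 0 (2 * Real.pi),
        ∑ j, starRingEnd ℂ (r x j) * (E (x, 0) * (p j).eval (E (x, 0))) := by
      rw [L2.inner_def]
      refine integral_congr_ae ?_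
      filter_upwards [TT_coe p] with x hx2
      rw [hx2, PiLp.inner_apply]
      refine Finset.sum_congr rfl fun j _ => ?_
      simp [hh, RCLike.inner_apply, mul_comm]
    rw [h2] at h1
    simp only [hEp] at h1
    have hexp : ∀ w : ℝ → ℂ, MemLp w 2 mu → Integrable
        (fun x : ℝ => Complex.exp (((n : ℂ) + 1) * Complex.I * (x : ℂ)) * w x) mu := by
      intro w hw
      have hc : Continuous (fun x : ℝ => Complex.exp (((n : ℂ) + 1) * Complex.I * (x : ℂ))) := by
        fun_prop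
      refine (hw.integrable (by norm_num)).bdd_mul (c := 1) hc.aestronglyMeasurable
        (ae_of_all _ fun x => ?_)
      rw [Complex.norm_exp]
      simp
    simp only [mul_sub]
    have h3 := integral_sub (hexp _ (hv i)) (hexp _ (hrc i))
    change ∫ x, _ ∂mu = 0
    rw [h3]
    exact sub_eq_zero.2 h1
  · filter_upwards [hbd] with x hx
    have h1 : ∑ i, ‖v x i - (v x i - starRingEnd ℂ (r x i))‖ ^ 2 = ‖r x‖ ^ 2 := by
      rw [EuclideanSpace.norm_sq_eq]
      refine Finset.sum_congr rfl fun i _ => ?_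
      rw [sub_sub_cancel, RCLike.norm_conj]
    rw [h1]
    exact pow_le_pow_left₀ (norm_nonneg _) hx 2

end Pool.H14.SR
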