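import Mathlib

/-!
# MP_e1e648_an : definitions for the proof that `QDA` has Bass stable rank one
(paper proof: /team-store/H14_e1e648.md)
-/

open MeasureTheory Set Filter Topology

noncomputable section

namespace Pool.H14.SR

/-! ## Functions on the circle (functions on `ℝ`, only `(0,2π]` matters) -/

/-- Lebesgue measure on `(0,2π]`. -/
def mu : Measure ℝ := (volume : Measure ℝ).restrict (Set.Ioc 0 (2 * Real.pi))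

instance : IsFiniteMeasure mu := by unfold mu; infer_instance

/-- All negative Fourier coefficients vanish. -/
def HA (f : ℝ → ℂ) : Prop :=
  ∀ n : ℕ, ∫ x in Set.Ioc 0 (2 * Real.pi),
    Complex.exp (((n : ℂ) + 1) * Complex.I * (x : ℂ)) * f x = 0

/-- `‖f‖ ≤ C` almost everywhere. -/
def BD (f : ℝ → ℂ) (C : ℝ) : Prop := ∀ᵐ x ∂mu, ‖f x‖ ≤ C

/-- `H^∞` (boundary functions). -/
structure Hinf (f : ℝ → ℂ) : Prop where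
  mem : MemLp f ⊤ mu
  ha : HA f

/-- `H²` (boundary functions). -/
structure Htwo (f : ℝ → ℂ) : Prop where
  mem : MemLp f 2 mu
  ha : HA f

/-- `n`-th Fourier coefficient (`n ≥ 0`). -/
def coef (f : ℝ → ℂ) (n : ℕ) : ℂ :=
  (1 / (2 * Real.pi) : ℝ) * ∫ x in Set.Ioc 0 (2 * Real.pi),
    Complex.exp (-((n : ℂ) * Complex.I * (x : ℂ))) * f x

/-- Analytic extension to the unit disc of a function with `HA`. -/
def ext (f : ℝ → ℂ) (w : ℂ) : ℂ := ∑' n : ℕ, coef f n * w ^ n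

/-! ## The half plane picture -/

/-- The point `e^{i(x+iy)}`. -/
def E (p : ℝ × ℝ) : ℂ := Complex.exp (Complex.I * ((p.1 : ℂ) + (p.2 : ℂ) * Complex.I))

/-- A function on the disc seen as a function on the half plane. -/
def hp (f : ℂ → ℂ) (p : ℝ × ℝ) : ℂ := f (E p)

/-- `d/dζ` in the half plane coordinate: `hp (Dz f)` is the complex derivative of `ζ ↦ f (e^{iζ})`. -/
def Dz (f : ℂ → ℂ) : ℂ → ℂ := fun w => Complex.I * w * deriv f w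

/-- Upper half plane and fundamental strip, as sets of `ℝ × ℝ`. -/
def HP : Set (ℝ × ℝ) := {p | 0 < p.2}

def ST : Set (ℝ × ℝ) := {p | p.1 ∈ Set.Ioc 0 (2 * Real.pi) ∧ 0 < p.2}

/-- `u` is `C¹` on `y > -σ` with partial derivatives `ux`, `uy`, and `2π`-periodic in `x`. -/
structure C1 {V : Type*} [NormedAddCommGroup V] [NormedSpace ℝ V] (σ : ℝ)
    (u ux uy : ℝ × ℝ → V) : Prop where
  dx : ∀ p : ℝ × ℝ, -σ < p.2 → HasDerivAt (fun x : ℝ => u (x, p.2)) (ux p) p.1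
  dy : ∀ p : ℝ × ℝ, -σ < p.2 → HasDerivAt (fun y : ℝ => u (p.1, y)) (uy p) p.2
  c : ContinuousOn u {p | -σ < p.2}
  cx : ContinuousOn ux {p | -σ < p.2}
  cy : ContinuousOn uy {p | -σ < p.2}
  per : ∀ p : ℝ × ℝ, -σ < p.2 → u (p.1 + 2 * Real.pi, p.2) = u p

/-- `U` is real, has on `y > -σ` continuous first and pure second partial derivatives, and is
`2π`-periodic in `x`. -/
structure P2 (σ : ℝ) (U Ux Uxx Uy Uyy : ℝ × ℝ → ℝ) : Prop where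
  dx : ∀ p : ℝ × ℝ, -σ < p.2 → HasDerivAt (fun x : ℝ => U (x, p.2)) (Ux p) p.1
  dxx : ∀ p : ℝ × ℝ, -σ < p.2 → HasDerivAt (fun x : ℝ => Ux (x, p.2)) (Uxx p) p.1
  dy : ∀ p : ℝ × ℝ, -σ < p.2 → HasDerivAt (fun y : ℝ => U (p.1, y)) (Uy p) p.2
  dyy : ∀ p : ℝ × ℝ, -σ < p.2 → HasDerivAt (fun y : ℝ => Uy (p.1, y)) (Uyy p) p.2
  c : ContinuousOn U {p | -σ < p.2}
  cx : ContinuousOn Ux {p | -σ < p.2}
  cxx : ContinuousOn Uxx {p | -σ < p.2}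
  cy : ContinuousOn Uy {p | -σ < p.2}
  cyy : ContinuousOn Uyy {p | -σ < p.2}
  per : ∀ p : ℝ × ℝ, -σ < p.2 → U (p.1 + 2 * Real.pi, p.2) = U p

/-- The kernel `q_z(ζ) = 4 y_z / |ζ - conj z|²`. -/
def qk (z p : ℝ × ℝ) : ℝ := 4 * z.2 / ((p.1 - z.1) ^ 2 + (p.2 + z.2) ^ 2)

/-- The analytic data of the main analytic theorem, on a disc of radius `ρ > 1`. -/
structure Dat (δ ρ : ℝ) (a b F : ℂ → ℂ) : Prop where
  hδ : 0 < δ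
  hδ2 : δ ≤ 1 / 2
  hρ : 1 < ρ
  ha : DifferentiableOn ℂ a (Metric.ball 0 ρ)
  hb : DifferentiableOn ℂ b (Metric.ball 0 ρ)
  hF : DifferentiableOn ℂ F (Metric.ball 0 ρ)
  ha1 : ∀ w ∈ Metric.ball (0 : ℂ) ρ, ‖a w‖ ≤ 1
  hb1 : ∀ w ∈ Metric.ball (0 : ℂ) ρ, ‖b w‖ ≤ 1
  hab : ∀ w ∈ Metric.ball (0 : ℂ) ρ, 2 * δ ≤ ‖a w‖ ∨ 2 * δ ≤ ‖b w‖
  hO : ∀ w ∈ Metric.ball (0 : ℂ) ρ, ‖a w‖ ^ 2 + ‖b w‖ ^ 2 ≤ (F w).re
  hO2 : ∀ w ∈ Metric.ball (0 : ℂ) ρ, (F w).re ≤ 2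

/-- The oscillation function `O = Re F - |a|² - |b|²`. -/
def Osc (a b F : ℂ → ℂ) (p : ℝ × ℝ) : ℝ :=
  (hp F p).re - ‖hp a p‖ ^ 2 - ‖hp b p‖ ^ 2

/-- `O` as a function on the disc. -/
def OscD (a b F : ℂ → ℂ) (w : ℂ) : ℝ := (F w).re - ‖a w‖ ^ 2 - ‖b w‖ ^ 2

/-- A Douglas algebra (a norm closed subalgebra of `L^∞` containing `H^∞`), as in the frozen
statement. -/
structure Doug (D : Set (ℝ → ℂ)) : Prop where
  mem : ∀ f ∈ D, MemLp f ⊤ mu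
  ae : ∀ f ∈ D, ∀ g : ℝ → ℂ, g =ᵐ[mu] f → g ∈ D
  add : ∀ f ∈ D, ∀ g ∈ D, f + g ∈ D
  mul : ∀ f ∈ D, ∀ g ∈ D, f * g ∈ D
  smul : ∀ c : ℂ, ∀ f ∈ D, c • f ∈ D
  lim : ∀ f : ℝ → ℂ, MemLp f ⊤ mu → ∀ u : ℕ → ℝ → ℂ, (∀ n, u n ∈ D) →
    Tendsto (fun n => eLpNorm (u n - f) ⊤ mu) atTop (𝓝 0) → f ∈ D
  hinf : ∀ f : ℝ → ℂ, Hinf f → f ∈ D

/-- `QD = D ∩ conj D`. -/
def QD (D : Set (ℝ → ℂ)) (f : ℝ → ℂ) : Prop := f ∈ D ∧ (fun t => starRingEnd ℂ (f t)) ∈ D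

/-- `QDA = QD ∩ H^∞`. -/
def QDA (D : Set (ℝ → ℂ)) (f : ℝ → ℂ) : Prop := QD D f ∧ HA f

end Pool.H14.SR
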