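import Pool.Agent.H14.SR.Basic

open MeasureTheory Set Filter Topology
noncomputable section
namespace Pool.H14.SR

namespace E5aAux

/-- Kernels to which differentiation under the integral sign applies. -/
structure GK (K : ℝ × ℝ → ℝ × ℝ → ℝ) : Prop where
  meas : ∀ z, Measurable (K z)
  cont : ∀ p : ℝ × ℝ, 0 < p.2 → ContinuousOn (fun z => K z p) {z | 0 < z.2}
  dom : ∀ z0 : ℝ × ℝ, 0 < z0.2 → ∃ C : ℝ, ∀ z p : ℝ × ℝ, |z.1 - z0.1| < 1 → z0.2 / 2 < z.2 →
    z.2 < 2 * z0.2 → 0 < p.2 → |K z p| ≤ C * (1 / (1 + p.1 ^ 2))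

theorem measHP : MeasurableSet HP := (isOpen_lt continuous_const continuous_snd).measurableSet

theorem int_bound (C Y : ℝ) :
    Integrable (fun p : ℝ × ℝ => (if p.2 < Y then C * (1 / (1 + p.1 ^ 2)) else 0))
      (volume.restrict HP) := by
  have h1 : Integrable (fun p : ℝ × ℝ => (fun x : ℝ => C * (1 / (1 + x ^ 2))) p.1 *
      ((Ioo (0 : ℝ) Y).indicator (fun _ => (1 : ℝ))) p.2) (volume.prod volume) := by
    have i1 : Integrable (fun x : ℝ => C * (1 / (1 + x ^ 2))) := by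
      apply Integrable.const_mul
      simpa [one_div] using integrable_inv_one_add_sq
    have i2 : Integrable ((Ioo (0 : ℝ) Y).indicator (fun _ => (1 : ℝ))) := by
      apply (integrable_indicator_iff measurableSet_Ioo).2
      exact integrableOn_const (by simp)
    exact i1.mul_prod i2
  have h2 := h1.restrict (s := HP)
  refine h2.congr ?_
  refine (ae_restrict_iff' measHP).2 (Eventually.of_forall fun p hp => ?_)
  have hp' : 0 < p.2 := hp
  by_cases h : p.2 < Y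
  · simp [h, indicator, hp']
  · simp [h, indicator]

section
variable {M : ℝ × ℝ → ℝ} (hM : Measurable M) {B Y : ℝ} (hM0 : ∀ p, 0 ≤ M p) (hMB : ∀ p, M p ≤ B)
    (hMY : ∀ p : ℝ × ℝ, Y ≤ p.2 → M p = 0) {K K' : ℝ × ℝ → ℝ × ℝ → ℝ}

include hM0 hMB hMY in
theorem pt_bound {C : ℝ} {k : ℝ} {p : ℝ × ℝ} (hk : |k| ≤ C * (1 / (1 + p.1 ^ 2))) :
    ‖M p * k‖ ≤ (if p.2 < Y then (B * C) * (1 / (1 + p.1 ^ 2)) else 0) := by
  split_ifs with h
  · rw [norm_mul, Real.norm_eq_abs, Real.norm_eq_abs, abs_of_nonneg (hM0 p), mul_assoc]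
    exact mul_le_mul (hMB p) hk (abs_nonneg _) ((hM0 p).trans (hMB p))
  · rw [hMY p (not_lt.1 h)]; simp

include hM in
theorem aesm (hK : GK K) (z : ℝ × ℝ) :
    AEStronglyMeasurable (fun p => M p * K z p) (volume.restrict HP) :=
  (hM.mul (hK.meas z)).aestronglyMeasurable

include hM hM0 hMB hMY in
theorem GK.integrable (hK : GK K) {z : ℝ × ℝ} (hz : 0 < z.2) :
    IntegrableOn (fun p => M p * K z p) HP := by
  obtain ⟨C, hC⟩ := hK.dom z hz
  refine (int_bound (B * C) Y).mono' (aesm hM hK z) ?_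
  refine (ae_restrict_iff' measHP).2 (Eventually.of_forall fun p hp => ?_)
  exact pt_bound hM0 hMB hMY (hC z p (by simp) (by linarith) (by linarith) hp)

theorem nhd {z0 : ℝ × ℝ} (hz : 0 < z0.2) :
    ∀ᶠ z in 𝓝 z0, |z.1 - z0.1| < 1 ∧ z0.2 / 2 < z.2 ∧ z.2 < 2 * z0.2 := by
  have h1 : ∀ᶠ z : ℝ × ℝ in 𝓝 z0, |z.1 - z0.1| < 1 := by
    apply (isOpen_lt (by fun_prop) continuous_const).mem_nhds
    simp
  have h2 : ∀ᶠ z : ℝ × ℝ in 𝓝 z0, z0.2 / 2 < z.2 := by
    apply (isOpen_lt continuous_const continuous_snd).mem_nhds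
    show z0.2 / 2 < z0.2
    linarith
  have h3 : ∀ᶠ z : ℝ × ℝ in 𝓝 z0, z.2 < 2 * z0.2 := by
    apply (isOpen_lt continuous_snd continuous_const).mem_nhds
    show z0.2 < 2 * z0.2
    linarith
  exact h1.and (h2.and h3)

include hM hM0 hMB hMY in
theorem GK.continuous (hK : GK K) :
    ContinuousOn (fun z => ∫ p in HP, M p * K z p) {z | -(0 : ℝ) < z.2} := by
  intro z0 hz0
  have hz : 0 < z0.2 := by simpa using hz0
  apply ContinuousAt.continuousWithinAt
  obtain ⟨C, hC⟩ := hK.dom z0 hz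
  refine continuousAt_of_dominated (bound := fun p => (if p.2 < Y then (B * C) * (1 / (1 + p.1 ^ 2)) else 0))
    (Eventually.of_forall fun z => aesm hM hK z) ?_ (int_bound _ _) ?_
  · filter_upwards [nhd hz] with z hz'
    refine (ae_restrict_iff' measHP).2 (Eventually.of_forall fun p hp => ?_)
    exact pt_bound hM0 hMB hMY (hC z p hz'.1 hz'.2.1 hz'.2.2 hp)
  · refine (ae_restrict_iff' measHP).2 (Eventually.of_forall fun p hp => ?_)
    apply ContinuousAt.mul continuousAt_const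
    exact (hK.cont p hp).continuousAt
      ((isOpen_lt continuous_const continuous_snd).mem_nhds hz)

include hM hM0 hMB hMY in
theorem GK.dx (hK : GK K) (hK' : GK K')
    (hd : ∀ z p : ℝ × ℝ, 0 < z.2 → 0 < p.2 → HasDerivAt (fun x : ℝ => K (x, z.2) p) (K' z p) z.1)
    (z0 : ℝ × ℝ) (hz0 : -(0 : ℝ) < z0.2) :
    HasDerivAt (fun x : ℝ => ∫ p in HP, M p * K (x, z0.2) p) (∫ p in HP, M p * K' z0 p) z0.1 := by
  have hz : 0 < z0.2 := by simpa using hz0
  obtain ⟨C, hC⟩ := hK'.dom z0 hz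
  have hs : Metric.ball z0.1 1 ∈ 𝓝 z0.1 := Metric.ball_mem_nhds _ one_pos
  refine (hasDerivAt_integral_of_dominated_loc_of_deriv_le
    (bound := fun p => (if p.2 < Y then (B * C) * (1 / (1 + p.1 ^ 2)) else 0))
    (F := fun x p => M p * K (x, z0.2) p) (F' := fun x p => M p * K' (x, z0.2) p) hs
    (Eventually.of_forall fun x => aesm hM hK _) (GK.integrable hM hM0 hMB hMY hK hz)
    (aesm hM hK' _) ?_ (int_bound _ _) ?_).2
  · refine (ae_restrict_iff' measHP).2 (Eventually.of_forall fun p hp x hx => ?_)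
    refine pt_bound hM0 hMB hMY (hC (x, z0.2) p ?_ ?_ ?_ hp)
    · simpa [Real.dist_eq] using hx
    · show z0.2 / 2 < z0.2
      linarith
    · show z0.2 < 2 * z0.2
      linarith
  · refine (ae_restrict_iff' measHP).2 (Eventually.of_forall fun p hp x _ => ?_)
    exact (hd (x, z0.2) p hz hp).const_mul (M p)

include hM hM0 hMB hMY in
theorem GK.dy (hK : GK K) (hK' : GK K')
    (hd : ∀ z p : ℝ × ℝ, 0 < z.2 → 0 < p.2 → HasDerivAt (fun y : ℝ => K (z.1, y) p) (K' z p) z.2)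
    (z0 : ℝ × ℝ) (hz0 : -(0 : ℝ) < z0.2) :
    HasDerivAt (fun y : ℝ => ∫ p in HP, M p * K (z0.1, y) p) (∫ p in HP, M p * K' z0 p) z0.2 := by
  have hz : 0 < z0.2 := by simpa using hz0
  obtain ⟨C, hC⟩ := hK'.dom z0 hz
  have hs : Ioo (z0.2 / 2) (2 * z0.2) ∈ 𝓝 z0.2 := Ioo_mem_nhds (by linarith) (by linarith)
  refine (hasDerivAt_integral_of_dominated_loc_of_deriv_le
    (bound := fun p => (if p.2 < Y then (B * C) * (1 / (1 + p.1 ^ 2)) else 0))
    (F := fun y p => M p * K (z0.1, y) p) (F' := fun y p => M p * K' (z0.1, y) p) hs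
    (Eventually.of_forall fun x => aesm hM hK _) (GK.integrable hM hM0 hMB hMY hK hz)
    (aesm hM hK' _) ?_ (int_bound _ _) ?_).2
  · refine (ae_restrict_iff' measHP).2 (Eventually.of_forall fun p hp y hy => ?_)
    exact pt_bound hM0 hMB hMY (hC (z0.1, y) p (by simp) hy.1 hy.2 hp)
  · refine (ae_restrict_iff' measHP).2 (Eventually.of_forall fun p hp y hy => ?_)
    refine (hd (z0.1, y) p ?_ hp).const_mul (M p)
    show 0 < y
    linarith [hy.1]

end

/-! ### the kernels -/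

/-- The denominator. -/
def Dn (z p : ℝ × ℝ) : ℝ := (p.1 - z.1) ^ 2 + (p.2 + z.2) ^ 2

theorem Dn_pos {z p : ℝ × ℝ} (hz : 0 < z.2) (hp : 0 < p.2) : 0 < Dn z p := by
  unfold Dn; positivity

def kx (z p : ℝ × ℝ) : ℝ := 8 * z.2 * (p.1 - z.1) / Dn z p ^ 2
def kxx (z p : ℝ × ℝ) : ℝ := -(8 * z.2) / Dn z p ^ 2 + 32 * z.2 * (p.1 - z.1) ^ 2 / Dn z p ^ 3
def ky (z p : ℝ × ℝ) : ℝ := 4 / Dn z p - 8 * z.2 * (z.2 + p.2) / Dn z p ^ 2
def kyy (z p : ℝ × ℝ) : ℝ :=
  -(8 * (3 * z.2 + 2 * p.2)) / Dn z p ^ 2 + 32 * z.2 * (z.2 + p.2) ^ 2 / Dn z p ^ 3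
def kl (z p : ℝ × ℝ) : ℝ := 16 * p.2 / Dn z p ^ 2

/-- A kernel with `|K| ≤ (c y + c + c/y)/D` is dominated. -/
theorem GK.mk' {K : ℝ × ℝ → ℝ × ℝ → ℝ} (c : ℝ) (hc : 0 ≤ c) (meas : ∀ z, Measurable (K z))
    (cont : ∀ p : ℝ × ℝ, 0 < p.2 → ContinuousOn (fun z => K z p) {z | 0 < z.2})
    (h : ∀ z p : ℝ × ℝ, 0 < z.2 → 0 < p.2 → |K z p| ≤ c * (z.2 + 1 + 1 / z.2) / Dn z p) : GK K where
  meas := meas
  cont := cont
  dom := by
    intro z0 hz0
    set A : ℝ := |z0.1| + 1 with hA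
    have hA0 : 0 ≤ A := by positivity
    set L : ℝ := 2 + (1 + 2 * A ^ 2) / (z0.2 / 2) ^ 2 with hL
    refine ⟨c * (2 * z0.2 + 1 + 1 / (z0.2 / 2)) * L, fun z p h1 h2 h3 hp => ?_⟩
    have hz : 0 < z.2 := by linarith
    have hD := Dn_pos hz hp
    refine (h z p hz hp).trans ?_
    have hN : c * (z.2 + 1 + 1 / z.2) ≤ c * (2 * z0.2 + 1 + 1 / (z0.2 / 2)) := by
      apply mul_le_mul_of_nonneg_left _ hc
      have : 1 / z.2 ≤ 1 / (z0.2 / 2) := one_div_le_one_div_of_le (by linarith) h2.le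
      linarith
    have hN0 : 0 ≤ c * (2 * z0.2 + 1 + 1 / (z0.2 / 2)) := by positivity
    have hDL : 1 / Dn z p ≤ L * (1 / (1 + p.1 ^ 2)) := by
      rw [mul_one_div, div_le_div_iff₀ hD (by positivity), one_mul]
      have hzA : z.1 ^ 2 ≤ A ^ 2 := by
        apply sq_le_sq'
        · have := abs_lt.1 h1
          have := neg_abs_le z0.1
          linarith
        · have := abs_lt.1 h1
          have := le_abs_self z0.1
          linarith
      have e1 : 1 + p.1 ^ 2 ≤ 2 * (p.1 - z.1) ^ 2 + (1 + 2 * A ^ 2) := by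
        nlinarith [sq_nonneg (p.1 - 2 * z.1)]
      have e2 : (z0.2 / 2) ^ 2 ≤ (p.2 + z.2) ^ 2 := by
        apply pow_le_pow_left₀ (by positivity); linarith
      have e3 : (1 + 2 * A ^ 2) ≤ (1 + 2 * A ^ 2) / (z0.2 / 2) ^ 2 * (p.2 + z.2) ^ 2 := by
        rw [div_mul_eq_mul_div, le_div_iff₀ (by positivity)]
        exact mul_le_mul_of_nonneg_left e2 (by positivity)
      have e4 : 0 ≤ (1 + 2 * A ^ 2) / (z0.2 / 2) ^ 2 * (p.1 - z.1) ^ 2 := by positivity
      have e5 : L * Dn z p = 2 * (p.1 - z.1) ^ 2 + 2 * (p.2 + z.2) ^ 2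
          + (1 + 2 * A ^ 2) / (z0.2 / 2) ^ 2 * (p.1 - z.1) ^ 2
          + (1 + 2 * A ^ 2) / (z0.2 / 2) ^ 2 * (p.2 + z.2) ^ 2 := by
        rw [hL]; unfold Dn; ring
      rw [e5]
      have e6 : 0 ≤ 2 * (p.2 + z.2) ^ 2 := by positivity
      linarith
    calc c * (z.2 + 1 + 1 / z.2) / Dn z p = c * (z.2 + 1 + 1 / z.2) * (1 / Dn z p) := by ring
      _ ≤ c * (2 * z0.2 + 1 + 1 / (z0.2 / 2)) * (L * (1 / (1 + p.1 ^ 2))) :=
          mul_le_mul hN hDL (by positivity) hN0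
      _ = _ := by ring

theorem measDn (z : ℝ × ℝ) : Measurable (Dn z) := by
  unfold Dn; fun_prop

theorem contDn (p : ℝ × ℝ) : Continuous (fun z => Dn z p) := by
  unfold Dn; fun_prop

/-- elementary estimates: `y ≤ r`, `|x| ≤ √D`. -/
theorem bx {z p : ℝ × ℝ} (hz : 0 < z.2) (hp : 0 < p.2) : z.2 * |p.1 - z.1| ≤ Dn z p := by
  unfold Dn
  have := sq_abs (p.1 - z.1)
  nlinarith [sq_nonneg (z.2 - |p.1 - z.1|), mul_pos hz hp, sq_nonneg p.2]

theorem by2 {z p : ℝ × ℝ} (hz : 0 < z.2) (hp : 0 < p.2) : z.2 ^ 2 ≤ Dn z p := by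
  unfold Dn
  nlinarith [sq_nonneg (p.1 - z.1), mul_pos hz hp, sq_nonneg p.2]

theorem gk_q : GK qk := by
  refine GK.mk' 4 (by norm_num) (fun z => ?_) (fun p hp => ?_) (fun z p hz hp => ?_)
  · unfold qk; fun_prop
  · unfold qk
    apply ContinuousOn.div (by fun_prop) (by fun_prop)
    intro z hz
    exact (Dn_pos hz hp).ne'
  · have hD := Dn_pos hz hp
    have : qk z p = 4 * z.2 / Dn z p := rfl
    rw [this, abs_of_nonneg (by positivity)]
    apply div_le_div_of_nonneg_right _ hD.le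
    have : 0 < 1 / z.2 := by positivity
    linarith

theorem gk_x : GK kx := by
  refine GK.mk' 8 (by norm_num) (fun z => ?_) (fun p hp => ?_) (fun z p hz hp => ?_)
  · unfold kx Dn; fun_prop
  · unfold kx
    apply ContinuousOn.div (by fun_prop) ((contDn p).pow 2).continuousOn
    intro z hz
    exact (pow_pos (Dn_pos hz hp) 2).ne'
  · have hD := Dn_pos hz hp
    unfold kx
    rw [abs_div, abs_of_pos (pow_pos hD 2), abs_mul, abs_of_nonneg (by positivity : 0 ≤ 8 * z.2),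
      div_le_div_iff₀ (pow_pos hD 2) hD]
    have h1 := bx hz hp
    have h2 : 0 < 1 / z.2 := by positivity
    calc 8 * z.2 * |p.1 - z.1| * Dn z p = 8 * (z.2 * |p.1 - z.1|) * Dn z p := by ring
      _ ≤ 8 * Dn z p * Dn z p := by gcongr
      _ = 8 * 1 * Dn z p ^ 2 := by ring
      _ ≤ 8 * (z.2 + 1 + 1 / z.2) * Dn z p ^ 2 := by gcongr; linarith

theorem gk_xx : GK kxx := by
  refine GK.mk' 40 (by norm_num) (fun z => ?_) (fun p hp => ?_) (fun z p hz hp => ?_)
  · unfold kxx Dn; fun_prop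
  · unfold kxx
    apply ContinuousOn.add
    · apply ContinuousOn.div (by fun_prop) ((contDn p).pow 2).continuousOn
      intro z hz
      exact (pow_pos (Dn_pos hz hp) 2).ne'
    · apply ContinuousOn.div (by fun_prop) ((contDn p).pow 3).continuousOn
      intro z hz
      exact (pow_pos (Dn_pos hz hp) 3).ne'
  · have hD := Dn_pos hz hp
    have h1 := by2 hz hp
    have hi : 0 < 1 / z.2 := by positivity
    have hx : (p.1 - z.1) ^ 2 ≤ Dn z p := by unfold Dn; nlinarith [sq_nonneg (p.2 + z.2)]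
    have key : z.2 ≤ 1 / z.2 * Dn z p := by
      rw [one_div, inv_mul_eq_div, le_div_iff₀ hz]; nlinarith
    unfold kxx
    refine (abs_add_le _ _).trans ?_
    have a1 : |-(8 * z.2) / Dn z p ^ 2| ≤ 8 * (1 / z.2) / Dn z p := by
      rw [abs_div, abs_of_pos (pow_pos hD 2), abs_neg, abs_of_nonneg (by positivity),
        div_le_div_iff₀ (pow_pos hD 2) hD]
      calc 8 * z.2 * Dn z p ≤ 8 * (1 / z.2 * Dn z p) * Dn z p := by gcongr
        _ = _ := by ring
    have a2 : |32 * z.2 * (p.1 - z.1) ^ 2 / Dn z p ^ 3| ≤ 32 * (1 / z.2) / Dn z p := by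
      rw [abs_of_nonneg (by positivity), div_le_div_iff₀ (pow_pos hD 3) hD]
      calc 32 * z.2 * (p.1 - z.1) ^ 2 * Dn z p ≤ 32 * (1 / z.2 * Dn z p) * Dn z p * Dn z p := by
            gcongr
        _ = _ := by ring
    calc _ ≤ 8 * (1 / z.2) / Dn z p + 32 * (1 / z.2) / Dn z p := add_le_add a1 a2
      _ = (40 * (1 / z.2)) / Dn z p := by ring
      _ ≤ _ := by
        apply div_le_div_of_nonneg_right _ hD.le
        apply mul_le_mul_of_nonneg_left _ (by norm_num)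
        linarith

theorem gk_y : GK ky := by
  refine GK.mk' 12 (by norm_num) (fun z => ?_) (fun p hp => ?_) (fun z p hz hp => ?_)
  · unfold ky Dn; fun_prop
  · unfold ky
    apply ContinuousOn.sub
    · apply ContinuousOn.div (by fun_prop) (contDn p).continuousOn
      intro z hz
      exact (Dn_pos hz hp).ne'
    · apply ContinuousOn.div (by fun_prop) ((contDn p).pow 2).continuousOn
      intro z hz
      exact (pow_pos (Dn_pos hz hp) 2).ne'
  · have hD := Dn_pos hz hp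
    have hi : 0 < 1 / z.2 := by positivity
    have hy : z.2 * (z.2 + p.2) ≤ Dn z p := by
      unfold Dn; nlinarith [sq_nonneg (p.1 - z.1), mul_pos hz hp, sq_nonneg p.2]
    unfold ky
    refine (abs_sub _ _).trans ?_
    have a1 : |4 / Dn z p| = 4 / Dn z p := abs_of_pos (by positivity)
    have a2 : |8 * z.2 * (z.2 + p.2) / Dn z p ^ 2| ≤ 8 / Dn z p := by
      rw [abs_of_nonneg (by positivity), div_le_div_iff₀ (pow_pos hD 2) hD]
      calc 8 * z.2 * (z.2 + p.2) * Dn z p = 8 * (z.2 * (z.2 + p.2)) * Dn z p := by ring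
        _ ≤ 8 * Dn z p * Dn z p := by gcongr
        _ = _ := by ring
    calc _ ≤ 4 / Dn z p + 8 / Dn z p := add_le_add a1.le a2
      _ = (12 * 1) / Dn z p := by ring
      _ ≤ _ := by
        apply div_le_div_of_nonneg_right _ hD.le
        apply mul_le_mul_of_nonneg_left _ (by norm_num)
        linarith

theorem gk_yy : GK kyy := by
  refine GK.mk' 56 (by norm_num) (fun z => ?_) (fun p hp => ?_) (fun z p hz hp => ?_)
  · unfold kyy Dn; fun_prop
  · unfold kyy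
    apply ContinuousOn.add
    · apply ContinuousOn.div (by fun_prop) ((contDn p).pow 2).continuousOn
      intro z hz
      exact (pow_pos (Dn_pos hz hp) 2).ne'
    · apply ContinuousOn.div (by fun_prop) ((contDn p).pow 3).continuousOn
      intro z hz
      exact (pow_pos (Dn_pos hz hp) 3).ne'
  · have hD := Dn_pos hz hp
    have hi : 0 < 1 / z.2 := by positivity
    have hw : (z.2 + p.2) ^ 2 ≤ Dn z p := by unfold Dn; nlinarith [sq_nonneg (p.1 - z.1)]
    have key : z.2 + p.2 ≤ 1 / z.2 * Dn z p := by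
      rw [one_div, inv_mul_eq_div, le_div_iff₀ hz]; nlinarith [mul_pos hz hp, sq_nonneg p.2]
    have key2 : z.2 ≤ 1 / z.2 * Dn z p := by linarith
    unfold kyy
    refine (abs_add_le _ _).trans ?_
    have a1 : |-(8 * (3 * z.2 + 2 * p.2)) / Dn z p ^ 2| ≤ 24 * (1 / z.2) / Dn z p := by
      rw [abs_div, abs_of_pos (pow_pos hD 2), abs_neg, abs_of_nonneg (by positivity),
        div_le_div_iff₀ (pow_pos hD 2) hD]
      calc 8 * (3 * z.2 + 2 * p.2) * Dn z p ≤ 24 * (z.2 + p.2) * Dn z p :=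
            mul_le_mul_of_nonneg_right (by linarith) hD.le
        _ ≤ 24 * (1 / z.2 * Dn z p) * Dn z p := by gcongr
        _ = _ := by ring
    have a2 : |32 * z.2 * (z.2 + p.2) ^ 2 / Dn z p ^ 3| ≤ 32 * (1 / z.2) / Dn z p := by
      rw [abs_of_nonneg (by positivity), div_le_div_iff₀ (pow_pos hD 3) hD]
      calc 32 * z.2 * (z.2 + p.2) ^ 2 * Dn z p ≤ 32 * (1 / z.2 * Dn z p) * Dn z p * Dn z p := by
            gcongr
        _ = _ := by ring
    calc _ ≤ 24 * (1 / z.2) / Dn z p + 32 * (1 / z.2) / Dn z p := add_le_add a1 a2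
      _ = (56 * (1 / z.2)) / Dn z p := by ring
      _ ≤ _ := by
        apply div_le_div_of_nonneg_right _ hD.le
        apply mul_le_mul_of_nonneg_left _ (by norm_num)
        linarith

theorem gk_l : GK kl := by
  refine GK.mk' 16 (by norm_num) (fun z => ?_) (fun p hp => ?_) (fun z p hz hp => ?_)
  · unfold kl Dn; fun_prop
  · unfold kl
    apply ContinuousOn.div (by fun_prop) ((contDn p).pow 2).continuousOn
    intro z hz
    exact (pow_pos (Dn_pos hz hp) 2).ne'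
  · have hD := Dn_pos hz hp
    have hi : 0 < 1 / z.2 := by positivity
    have key : p.2 ≤ 1 / z.2 * Dn z p := by
      rw [one_div, inv_mul_eq_div, le_div_iff₀ hz]
      unfold Dn
      nlinarith [mul_pos hz hp, sq_nonneg (p.1 - z.1), sq_nonneg p.2, sq_nonneg z.2]
    unfold kl
    rw [abs_of_nonneg (by positivity), div_le_div_iff₀ (pow_pos hD 2) hD]
    calc 16 * p.2 * Dn z p ≤ 16 * (1 / z.2 * Dn z p) * Dn z p := by gcongr
      _ = 16 * (1 / z.2) * Dn z p ^ 2 := by ring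
      _ ≤ 16 * (z.2 + 1 + 1 / z.2) * Dn z p ^ 2 := by gcongr; linarith

/-! ### derivatives -/

theorem dDx (z p : ℝ × ℝ) :
    HasDerivAt (fun x : ℝ => Dn (x, z.2) p) (-(2 * (p.1 - z.1))) z.1 := by
  unfold Dn
  have h : HasDerivAt (fun x : ℝ => p.1 - x) (-1) z.1 := by
    simpa using (hasDerivAt_id z.1).const_sub p.1
  have h2 := (h.pow 2).add_const ((p.2 + z.2) ^ 2)
  refine h2.congr_deriv ?_
  simp

theorem dDy (z p : ℝ × ℝ) :
    HasDerivAt (fun y : ℝ => Dn (z.1, y) p) (2 * (p.2 + z.2)) z.2 := by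
  unfold Dn
  have h : HasDerivAt (fun y : ℝ => p.2 + y) 1 z.2 := by
    simpa using (hasDerivAt_id z.2).const_add p.2
  have h2 := (h.pow 2).const_add ((p.1 - z.1) ^ 2)
  refine h2.congr_deriv ?_
  simp

theorem dqx (z p : ℝ × ℝ) (hz : 0 < z.2) (hp : 0 < p.2) :
    HasDerivAt (fun x : ℝ => qk (x, z.2) p) (kx z p) z.1 := by
  have hD := Dn_pos hz hp
  have h := ((hasDerivAt_const z.1 (4 * z.2)).div (dDx z p) hD.ne')
  refine h.congr_deriv ?_
  unfold kx
  field_simp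
  ring

theorem dqxx (z p : ℝ × ℝ) (hz : 0 < z.2) (hp : 0 < p.2) :
    HasDerivAt (fun x : ℝ => kx (x, z.2) p) (kxx z p) z.1 := by
  have hD := Dn_pos hz hp
  have hn : HasDerivAt (fun x : ℝ => 8 * z.2 * (p.1 - x)) (-(8 * z.2)) z.1 := by
    have h : HasDerivAt (fun x : ℝ => p.1 - x) (-1) z.1 := by
      simpa using (hasDerivAt_id z.1).const_sub p.1
    simpa using h.const_mul (8 * z.2)
  have h := hn.div ((dDx z p).pow 2) (pow_pos hD 2).ne'
  refine h.congr_deriv ?_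
  unfold kxx
  simp only [Nat.cast_ofNat, Nat.add_one_sub_one, pow_one, Pi.pow_apply]
  have hD' : Dn (z.1, z.2) p = Dn z p := rfl
  rw [hD']
  field_simp
  ring

theorem dqy (z p : ℝ × ℝ) (hz : 0 < z.2) (hp : 0 < p.2) :
    HasDerivAt (fun y : ℝ => qk (z.1, y) p) (ky z p) z.2 := by
  have hD := Dn_pos hz hp
  have hn : HasDerivAt (fun y : ℝ => 4 * y) 4 z.2 := by
    simpa using (hasDerivAt_id z.2).const_mul 4
  have h := hn.div (dDy z p) hD.ne'
  refine h.congr_deriv ?_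
  unfold ky
  have hD' : Dn (z.1, z.2) p = Dn z p := rfl
  rw [hD']
  field_simp
  ring

theorem dqyy (z p : ℝ × ℝ) (hz : 0 < z.2) (hp : 0 < p.2) :
    HasDerivAt (fun y : ℝ => ky (z.1, y) p) (kyy z p) z.2 := by
  have hD := Dn_pos hz hp
  have h1 := (hasDerivAt_const z.2 (4 : ℝ)).div (dDy z p) hD.ne'
  have hn : HasDerivAt (fun y : ℝ => 8 * y * (y + p.2)) (8 * (z.2 + p.2) + 8 * z.2) z.2 := by
    have a : HasDerivAt (fun y : ℝ => 8 * y) 8 z.2 := by
      simpa using (hasDerivAt_id z.2).const_mul 8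
    have b : HasDerivAt (fun y : ℝ => y + p.2) 1 z.2 := by
      simpa using (hasDerivAt_id z.2).add_const p.2
    exact (a.mul b).congr_deriv (by simp)
  have h2 := hn.div ((dDy z p).pow 2) (pow_pos hD 2).ne'
  have h := h1.sub h2
  refine h.congr_deriv ?_
  unfold kyy
  simp only [Nat.cast_ofNat, Nat.add_one_sub_one, pow_one, Pi.pow_apply]
  have hD' : Dn (z.1, z.2) p = Dn z p := rfl
  rw [hD']
  field_simp
  ring

theorem lap (z p : ℝ × ℝ) (hz : 0 < z.2) (hp : 0 < p.2) : kxx z p + kyy z p = -kl z p := by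
  have hD := Dn_pos hz hp
  unfold kxx kyy kl
  have e : Dn z p = (p.1 - z.1) ^ 2 + (z.2 + p.2) ^ 2 := by unfold Dn; ring
  have e3 : 32 * z.2 * (p.1 - z.1) ^ 2 / Dn z p ^ 3 + 32 * z.2 * (z.2 + p.2) ^ 2 / Dn z p ^ 3
      = 32 * z.2 / Dn z p ^ 2 := by
    rw [← add_div, ← mul_add, ← e]
    field_simp
  have : -(8 * z.2) / Dn z p ^ 2 + 32 * z.2 * (p.1 - z.1) ^ 2 / Dn z p ^ 3 +
      (-(8 * (3 * z.2 + 2 * p.2)) / Dn z p ^ 2 + 32 * z.2 * (z.2 + p.2) ^ 2 / Dn z p ^ 3)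
      = -(8 * z.2) / Dn z p ^ 2 + -(8 * (3 * z.2 + 2 * p.2)) / Dn z p ^ 2
        + (32 * z.2 * (p.1 - z.1) ^ 2 / Dn z p ^ 3 + 32 * z.2 * (z.2 + p.2) ^ 2 / Dn z p ^ 3) := by
    ring
  rw [this, e3]
  ring

end E5aAux

open E5aAux in
/-- **(E5a)** The potential `S(z) = ∬_{HP} M q_z` of a bounded density `M ≥ 0` supported in `0 < y ≤ Y` is
`C²` with Laplacian `-∬ M(ζ) 16η/((x_ζ-x_z)²+(η+y_z)²)² dζ` (`η = Im ζ`), by differentiation under the integral
sign: for `K(z) = 4y/D`, `D = (x_z-x_ζ)²+(y_z+η)²`, `∂y K = 4/D - 8y(y+η)/D²`,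
`∂y²K = -8(3y+2η)/D² + 32y(y+η)²/D³`, `∂x K = -8y(x_z-x_ζ)/D²`, `∂x²K = -8y/D²+32y(x_z-x_ζ)²/D³`, `ΔK = -16η/D²`;
all of them are dominated, locally uniformly in `z`, by `C/(1+x_ζ²)`.  Periodicity of `S` follows from that
of `M`. -/
theorem E5a (M : ℝ × ℝ → ℝ) (hM : Measurable M) (B Y : ℝ) (hM0 : ∀ p, 0 ≤ M p) (hMB : ∀ p, M p ≤ B)
    (hMY : ∀ p : ℝ × ℝ, Y ≤ p.2 → M p = 0)
    (hper : ∀ p : ℝ × ℝ, M (p.1 + 2 * Real.pi, p.2) = M p) :
    ∃ Sx Sxx Sy Syy : ℝ × ℝ → ℝ,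
      P2 0 (fun z => ∫ p in HP, M p * qk z p) Sx Sxx Sy Syy ∧
      ∀ z : ℝ × ℝ, 0 < z.2 → IntegrableOn (fun p => M p * qk z p) HP ∧
        IntegrableOn (fun p : ℝ × ℝ =>
          M p * (16 * p.2 / ((p.1 - z.1) ^ 2 + (p.2 + z.2) ^ 2) ^ 2)) HP ∧
        Sxx z + Syy z = -∫ p in HP, M p * (16 * p.2 / ((p.1 - z.1) ^ 2 + (p.2 + z.2) ^ 2) ^ 2) := by
  refine ⟨fun z => ∫ p in HP, M p * kx z p, fun z => ∫ p in HP, M p * kxx z p,
    fun z => ∫ p in HP, M p * ky z p, fun z => ∫ p in HP, M p * kyy z p, ?_, ?_⟩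
  · exact
    { dx := GK.dx hM hM0 hMB hMY gk_q gk_x dqx
      dxx := GK.dx hM hM0 hMB hMY gk_x gk_xx dqxx
      dy := GK.dy hM hM0 hMB hMY gk_q gk_y dqy
      dyy := GK.dy hM hM0 hMB hMY gk_y gk_yy dqyy
      c := GK.continuous hM hM0 hMB hMY gk_q
      cx := GK.continuous hM hM0 hMB hMY gk_x
      cxx := GK.continuous hM hM0 hMB hMY gk_xx
      cy := GK.continuous hM hM0 hMB hMY gk_y
      cyy := GK.continuous hM hM0 hMB hMY gk_yy
      per := by
        intro z _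
        show ∫ p in HP, M p * qk (z.1 + 2 * Real.pi, z.2) p = ∫ p in HP, M p * qk z p
        rw [← integral_indicator measHP, ← integral_indicator measHP,
          ← integral_add_right_eq_self (μ := (volume : Measure (ℝ × ℝ))) _
            ((2 * Real.pi, 0) : ℝ × ℝ)]
        congr 1
        ext p
        have hmem : (p + (2 * Real.pi, 0) ∈ HP) ↔ p ∈ HP := by
          show 0 < p.2 + 0 ↔ 0 < p.2
          rw [add_zero]
        by_cases h : p ∈ HP
        · rw [indicator_of_mem h, indicator_of_mem (hmem.2 h)]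
          have e1 : p + (2 * Real.pi, 0) = (p.1 + 2 * Real.pi, p.2) := by
            ext <;> simp
          rw [e1, hper]
          unfold qk
          simp
        · rw [indicator_of_notMem h, indicator_of_notMem (fun h' => h (hmem.1 h'))] }
  · intro z hz
    refine ⟨GK.integrable hM hM0 hMB hMY gk_q hz, GK.integrable hM hM0 hMB hMY gk_l hz, ?_⟩
    rw [← integral_add (GK.integrable hM hM0 hMB hMY gk_xx hz) (GK.integrable hM hM0 hMB hMY gk_yy hz),
      ← integral_neg]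
    apply setIntegral_congr_fun measHP
    intro p hp
    show M p * kxx z p + M p * kyy z p = -(M p * kl z p)
    rw [← mul_add, lap z p hz hp]
    ring

end Pool.H14.SR
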