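import Pool.Agent.H14.SR.Basic

open MeasureTheory Set Filter Topology
noncomputable section
namespace Pool.H14.SR

namespace G0aux

/-- continuity along horizontal segments -/
theorem cx {f : ℝ × ℝ → ℝ} (hf : ContinuousOn f {p : ℝ × ℝ | 0 < p.2}) {y : ℝ} (hy : 0 < y) :
    Continuous (fun x : ℝ => f (x, y)) := by
  rw [continuous_iff_continuousAt]
  intro x
  have h1 : ContinuousAt f (x, y) :=
    hf.continuousAt ((isOpen_lt continuous_const continuous_snd).mem_nhds hy)
  exact ContinuousAt.comp (f := fun x : ℝ => (x, y)) h1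
    (by fun_prop : Continuous (fun x : ℝ => (x, y))).continuousAt

/-- continuity along vertical segments -/
theorem cy {f : ℝ × ℝ → ℝ} (hf : ContinuousOn f {p : ℝ × ℝ | 0 < p.2}) (x : ℝ) {a b : ℝ}
    (ha : 0 < a) : ContinuousOn (fun y : ℝ => f (x, y)) (Icc a b) := by
  intro y hy
  have h1 : ContinuousAt f (x, y) :=
    hf.continuousAt ((isOpen_lt continuous_const continuous_snd).mem_nhds (lt_of_lt_of_le ha hy.1))
  exact (ContinuousAt.comp (f := fun y : ℝ => (x, y)) h1
    (by fun_prop : Continuous (fun y : ℝ => (x, y))).continuousAt).continuousWithinAt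

theorem intR {f : ℝ × ℝ → ℝ} (hf : ContinuousOn f {p : ℝ × ℝ | 0 < p.2}) {a b : ℝ}
    (ha : 0 < a) : IntegrableOn f (Ioc 0 (2 * Real.pi) ×ˢ Ioc a b) := by
  have h1 : IntegrableOn f (Icc 0 (2 * Real.pi) ×ˢ Icc a b) := by
    apply ContinuousOn.integrableOn_compact
    · exact isCompact_Icc.prod isCompact_Icc
    · apply hf.mono
      rintro ⟨x, y⟩ ⟨_, hy⟩
      exact lt_of_lt_of_le ha hy.1
  exact h1.mono_set (prod_mono Ioc_subset_Icc_self Ioc_subset_Icc_self)

theorem intR' {f : ℝ × ℝ → ℝ} (hf : ContinuousOn f {p : ℝ × ℝ | 0 < p.2}) {a b : ℝ}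
    (ha : 0 < a) : Integrable f (((volume : Measure ℝ).restrict (Ioc 0 (2 * Real.pi))).prod
      ((volume : Measure ℝ).restrict (Ioc a b))) := by
  rw [Measure.prod_restrict]
  exact intR hf ha

theorem fub1 {f : ℝ × ℝ → ℝ} (hf : ContinuousOn f {p : ℝ × ℝ | 0 < p.2}) {a b : ℝ}
    (ha : 0 < a) : ∫ p in Ioc 0 (2 * Real.pi) ×ˢ Ioc a b, f p
      = ∫ x in Ioc 0 (2 * Real.pi), ∫ y in Ioc a b, f (x, y) :=
  setIntegral_prod f (intR hf ha)

theorem fub2 {f : ℝ × ℝ → ℝ} (hf : ContinuousOn f {p : ℝ × ℝ | 0 < p.2}) {a b : ℝ}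
    (ha : 0 < a) : ∫ p in Ioc 0 (2 * Real.pi) ×ˢ Ioc a b, f p
      = ∫ y in Ioc a b, ∫ x in Ioc 0 (2 * Real.pi), f (x, y) := by
  have := integral_prod_symm f (intR' hf ha (b := b))
  rw [Measure.prod_restrict] at this
  exact this

theorem two_pi_nn : (0 : ℝ) ≤ 2 * Real.pi := by positivity

end G0aux

open G0aux in
/-- **(G0)** `U ≥ 0` bounded, `C²`, periodic and subharmonic on `y > 0`:
`∬_{(0,2π)×(e₀,∞)} (ΔU)(y - e₀) ≤ ∫_0^{2π} U(x,e₀) dx`.

Proof: `u(y) = ∫_0^{2π} U(x,y) dx` is `C²` on `y > 0` with `u'' = ∫ (Uxx + Uyy) dx ≥ 0` (`∫ Uxx dx = 0` by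
periodicity; differentiation under the integral sign, everything is continuous), `0 ≤ u ≤ 2πB`.  A bounded
convex function on `(0,∞)` is nonincreasing, `u' ≤ 0`, so
`∫_{e₀}^Y u''(y)(y-e₀)dy = u'(Y)(Y-e₀) - u(Y) + u(e₀) ≤ u(e₀)`; let `Y → ∞` (monotone convergence, Tonelli). -/
theorem G0 (U Ux Uxx Uy Uyy : ℝ × ℝ → ℝ) (h : P2 0 U Ux Uxx Uy Uyy) (B : ℝ)
    (h0 : ∀ p : ℝ × ℝ, 0 < p.2 → 0 ≤ U p) (hB : ∀ p : ℝ × ℝ, 0 < p.2 → U p ≤ B)
    (sub : ∀ p : ℝ × ℝ, 0 < p.2 → 0 ≤ Uxx p + Uyy p) (e0 : ℝ) (he0 : 0 < e0) :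
    ∫⁻ p in Set.Ioc 0 (2 * Real.pi) ×ˢ Set.Ioi e0,
        ENNReal.ofReal ((Uxx p + Uyy p) * (p.2 - e0))
      ≤ ENNReal.ofReal (∫ x in Set.Ioc 0 (2 * Real.pi), U (x, e0)) := by
  have hc : ContinuousOn U {p : ℝ × ℝ | 0 < p.2} := by simpa using h.c
  have hcx : ContinuousOn Ux {p : ℝ × ℝ | 0 < p.2} := by simpa using h.cx
  have hcxx : ContinuousOn Uxx {p : ℝ × ℝ | 0 < p.2} := by simpa using h.cxx
  have hcy : ContinuousOn Uy {p : ℝ × ℝ | 0 < p.2} := by simpa using h.cy
  have hcyy : ContinuousOn Uyy {p : ℝ × ℝ | 0 < p.2} := by simpa using h.cyy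
  -- periodicity of Ux
  have hUxper : ∀ y : ℝ, 0 < y → Ux (2 * Real.pi, y) = Ux (0, y) := by
    intro y hy
    have h1 : HasDerivAt (fun x : ℝ => U (x, y)) (Ux (2 * Real.pi, y)) (0 + 2 * Real.pi) := by
      have := h.dx (2 * Real.pi, y) (by simpa using hy)
      simpa using this
    have h2 : HasDerivAt (fun x : ℝ => U (x + 2 * Real.pi, y)) (Ux (2 * Real.pi, y)) 0 :=
      h1.comp_add_const 0 (2 * Real.pi)
    have h3 : (fun x : ℝ => U (x + 2 * Real.pi, y)) = fun x => U (x, y) := by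
      funext x
      exact h.per (x, y) (by simpa using hy)
    rw [h3] at h2
    have h4 := h.dx (0, y) (by simpa using hy)
    exact h2.unique h4
  -- ∫ Uxx dx = 0
  have hX : ∀ y : ℝ, 0 < y → ∫ x in Ioc 0 (2 * Real.pi), Uxx (x, y) = 0 := by
    intro y hy
    rw [← intervalIntegral.integral_of_le two_pi_nn]
    rw [intervalIntegral.integral_eq_sub_of_hasDerivAt (f := fun x => Ux (x, y))]
    · show Ux (2 * Real.pi, y) - Ux (0, y) = 0
      rw [hUxper y hy, sub_self]
    · intro x _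
      exact h.dxx (x, y) (by simpa using hy)
    · exact (cx hcxx hy).intervalIntegrable _ _
  -- vertical fundamental theorems
  have hY1 : ∀ x a b : ℝ, 0 < a → a ≤ b → ∫ y in Ioc a b, Uyy (x, y) = Uy (x, b) - Uy (x, a) := by
    intro x a b ha hab
    rw [← intervalIntegral.integral_of_le hab]
    rw [intervalIntegral.integral_eq_sub_of_hasDerivAt (f := fun y => Uy (x, y))]
    · intro y hy
      rw [uIcc_of_le hab] at hy
      exact h.dyy (x, y) (by simpa using lt_of_lt_of_le ha hy.1)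
    · apply ContinuousOn.intervalIntegrable
      rw [uIcc_of_le hab]
      exact cy hcyy x ha
  have hY2 : ∀ x a b : ℝ, 0 < a → a ≤ b → ∫ y in Ioc a b, Uy (x, y) = U (x, b) - U (x, a) := by
    intro x a b ha hab
    rw [← intervalIntegral.integral_of_le hab]
    rw [intervalIntegral.integral_eq_sub_of_hasDerivAt (f := fun y => U (x, y))]
    · intro y hy
      rw [uIcc_of_le hab] at hy
      exact h.dy (x, y) (by simpa using lt_of_lt_of_le ha hy.1)
    · apply ContinuousOn.intervalIntegrable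
      rw [uIcc_of_le hab]
      exact cy hcy x ha
  have hY3 : ∀ x b : ℝ, e0 ≤ b → ∫ y in Ioc e0 b, Uyy (x, y) * (y - e0)
      = Uy (x, b) * (b - e0) - U (x, b) + U (x, e0) := by
    intro x b hab
    rw [← intervalIntegral.integral_of_le hab]
    rw [intervalIntegral.integral_eq_sub_of_hasDerivAt
      (f := fun y => Uy (x, y) * (y - e0) - U (x, y))]
    · simp
    · intro y hy
      rw [uIcc_of_le hab] at hy
      have hy0 : 0 < y := lt_of_lt_of_le he0 hy.1
      have h1 := h.dyy (x, y) (by simpa using hy0)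
      have h2 := h.dy (x, y) (by simpa using hy0)
      have h3 : HasDerivAt (fun y : ℝ => y - e0) 1 y := (hasDerivAt_id y).sub_const e0
      have h4 := (h1.mul h3).sub h2
      refine h4.congr_deriv ?_
      show Uyy (x, y) * (y - e0) + Uy (x, y) * 1 - Uy (x, y) = Uyy (x, y) * (y - e0)
      ring
    · apply ContinuousOn.intervalIntegrable
      rw [uIcc_of_le hab]
      exact (cy hcyy x he0).mul (by fun_prop)
  -- integrability along horizontals
  have hI : ∀ (f : ℝ × ℝ → ℝ), ContinuousOn f {p : ℝ × ℝ | 0 < p.2} → ∀ y : ℝ, 0 < y →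
      Integrable (fun x => f (x, y)) ((volume : Measure ℝ).restrict (Ioc 0 (2 * Real.pi))) := by
    intro f hf y hy
    have := (cx hf hy).integrableOn_Icc (μ := volume) (a := 0) (b := 2 * Real.pi)
    exact this.mono_set Ioc_subset_Icc_self
  -- monotonicity of m
  set m : ℝ → ℝ := fun y => ∫ x in Ioc 0 (2 * Real.pi), Uy (x, y) with hm
  have hmono : ∀ a b : ℝ, 0 < a → a ≤ b → m a ≤ m b := by
    intro a b ha hab
    have h1 : m b - m a = ∫ p in Ioc 0 (2 * Real.pi) ×ˢ Ioc a b, Uyy p := by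
      rw [fub1 hcyy ha, hm]
      simp only
      rw [← integral_sub (hI Uy hcy b (ha.trans_le hab)) (hI Uy hcy a ha)]
      apply integral_congr_ae
      filter_upwards with x
      rw [hY1 x a b ha hab]
    have h2 : ∫ p in Ioc 0 (2 * Real.pi) ×ˢ Ioc a b, Uxx p = 0 := by
      rw [fub2 hcxx ha]
      have : ∀ y ∈ Ioc a b, ∫ x in Ioc 0 (2 * Real.pi), Uxx (x, y) = 0 := by
        intro y hy
        exact hX y (ha.trans hy.1)
      rw [setIntegral_congr_fun measurableSet_Ioc this]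
      simp
    have h3 : 0 ≤ ∫ p in Ioc 0 (2 * Real.pi) ×ˢ Ioc a b, (Uxx p + Uyy p) := by
      apply setIntegral_nonneg (measurableSet_Ioc.prod measurableSet_Ioc)
      rintro ⟨x, y⟩ ⟨_, hy⟩
      exact sub (x, y) (ha.trans hy.1)
    rw [integral_add (intR hcxx ha) (intR hcyy ha), h2, zero_add, ← h1] at h3
    linarith
  -- B ≥ 0
  have hB0 : 0 ≤ B := (h0 (0, e0) he0).trans (hB (0, e0) he0)
  -- m ≤ 0
  have hmle : ∀ a : ℝ, 0 < a → m a ≤ 0 := by
    intro a ha
    by_contra hcon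
    push Not at hcon
    set t : ℝ := 2 * Real.pi * B / m a + 1 with ht
    have ht0 : 0 < t := by
      have : 0 ≤ 2 * Real.pi * B / m a := by positivity
      linarith
    have hab : a ≤ a + t := by linarith
    have h1 : ∫ p in Ioc 0 (2 * Real.pi) ×ˢ Ioc a (a + t), Uy p
        = ∫ x in Ioc 0 (2 * Real.pi), (U (x, a + t) - U (x, a)) := by
      rw [fub1 hcy ha]
      apply integral_congr_ae
      filter_upwards with x
      rw [hY2 x a (a + t) ha hab]
    have h2 : ∫ p in Ioc 0 (2 * Real.pi) ×ˢ Ioc a (a + t), Uy p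
        = ∫ y in Ioc a (a + t), m y := by
      rw [fub2 hcy ha]
    have h3 : ∫ x in Ioc 0 (2 * Real.pi), (U (x, a + t) - U (x, a)) ≤ 2 * Real.pi * B := by
      have h4 : ∫ x in Ioc 0 (2 * Real.pi), (U (x, a + t) - U (x, a))
          ≤ ∫ x in Ioc 0 (2 * Real.pi), B := by
        apply integral_mono_ae
        · exact (hI U hc _ (by linarith)).sub (hI U hc a ha)
        · exact integrable_const _
        · filter_upwards with x
          have := hB (x, a + t) (by show (0:ℝ) < a + t; linarith)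
          have := h0 (x, a) ha
          show U (x, a + t) - U (x, a) ≤ B
          linarith
      have h5 : ∫ x in Ioc 0 (2 * Real.pi), B = 2 * Real.pi * B := by
        rw [setIntegral_const, Measure.real, Real.volume_Ioc, sub_zero,
          ENNReal.toReal_ofReal two_pi_nn, smul_eq_mul]
      rw [← h5]
      exact h4
    have h6 : m a * t ≤ ∫ y in Ioc a (a + t), m y := by
      have h7 : ∫ y in Ioc a (a + t), m a = m a * t := by
        rw [setIntegral_const]
        simp [Measure.real, Real.volume_Ioc, ht0.le, mul_comm]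
      rw [← h7]
      apply setIntegral_mono_on
      · exact integrableOn_const (by simp)
      · have := (intR' hcy ha (b := a + t)).integral_prod_right
        exact this
      · exact measurableSet_Ioc
      · intro y hy
        exact hmono a y ha hy.1.le
    have h8 : m a * t ≤ 2 * Real.pi * B := by
      calc m a * t ≤ ∫ y in Ioc a (a + t), m y := h6
        _ = ∫ x in Ioc 0 (2 * Real.pi), (U (x, a + t) - U (x, a)) := by rw [← h2, h1]
        _ ≤ _ := h3
    have h9 : m a * t = 2 * Real.pi * B + m a := by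
      rw [ht]
      field_simp
    linarith
  -- the truncated inequality
  have hcd : ContinuousOn (fun p : ℝ × ℝ => (Uxx p + Uyy p) * (p.2 - e0)) {p : ℝ × ℝ | 0 < p.2} :=
    (hcxx.add hcyy).mul (by fun_prop)
  have htr : ∀ Y : ℝ, e0 ≤ Y → ∫ p in Ioc 0 (2 * Real.pi) ×ˢ Ioc e0 Y,
      (Uxx p + Uyy p) * (p.2 - e0) ≤ ∫ x in Ioc 0 (2 * Real.pi), U (x, e0) := by
    intro Y hY
    have hY0 : 0 < Y := he0.trans_le hY
    have hc1 : ContinuousOn (fun p : ℝ × ℝ => Uxx p * (p.2 - e0)) {p : ℝ × ℝ | 0 < p.2} :=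
      hcxx.mul (by fun_prop)
    have hc2 : ContinuousOn (fun p : ℝ × ℝ => Uyy p * (p.2 - e0)) {p : ℝ × ℝ | 0 < p.2} :=
      hcyy.mul (by fun_prop)
    have e1 : ∫ p in Ioc 0 (2 * Real.pi) ×ˢ Ioc e0 Y, (Uxx p + Uyy p) * (p.2 - e0)
        = (∫ p in Ioc 0 (2 * Real.pi) ×ˢ Ioc e0 Y, Uxx p * (p.2 - e0))
          + ∫ p in Ioc 0 (2 * Real.pi) ×ˢ Ioc e0 Y, Uyy p * (p.2 - e0) := by
      rw [← integral_add (intR hc1 he0) (intR hc2 he0)]
      congr 1
      funext p
      ring
    have e2 : ∫ p in Ioc 0 (2 * Real.pi) ×ˢ Ioc e0 Y, Uxx p * (p.2 - e0) = 0 := by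
      rw [fub2 hc1 he0]
      have : ∀ y ∈ Ioc e0 Y, ∫ x in Ioc 0 (2 * Real.pi), Uxx (x, y) * (y - e0) = 0 := by
        intro y hy
        rw [integral_mul_const, hX y (he0.trans hy.1), zero_mul]
      rw [setIntegral_congr_fun measurableSet_Ioc this]
      simp
    have e3 : ∫ p in Ioc 0 (2 * Real.pi) ×ˢ Ioc e0 Y, Uyy p * (p.2 - e0)
        = ∫ x in Ioc 0 (2 * Real.pi), (Uy (x, Y) * (Y - e0) - U (x, Y) + U (x, e0)) := by
      rw [fub1 hc2 he0]
      apply integral_congr_ae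
      filter_upwards with x
      exact hY3 x Y hY
    have e4 : ∫ x in Ioc 0 (2 * Real.pi), (Uy (x, Y) * (Y - e0) - U (x, Y) + U (x, e0))
        = m Y * (Y - e0) - (∫ x in Ioc 0 (2 * Real.pi), U (x, Y))
          + ∫ x in Ioc 0 (2 * Real.pi), U (x, e0) := by
      have i1 : Integrable (fun x : ℝ => Uy (x, Y) * (Y - e0))
          ((volume : Measure ℝ).restrict (Ioc 0 (2 * Real.pi))) := (hI Uy hcy Y hY0).mul_const _
      have i2 : Integrable (fun x : ℝ => Uy (x, Y) * (Y - e0) - U (x, Y))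
          ((volume : Measure ℝ).restrict (Ioc 0 (2 * Real.pi))) := i1.sub (hI U hc Y hY0)
      rw [integral_add i2 (hI U hc e0 he0),
        integral_sub i1 (hI U hc Y hY0), integral_mul_const]
    have e5 : 0 ≤ ∫ x in Ioc 0 (2 * Real.pi), U (x, Y) := by
      apply integral_nonneg
      intro x
      exact h0 (x, Y) hY0
    have e6 : m Y * (Y - e0) ≤ 0 := mul_nonpos_of_nonpos_of_nonneg (hmle Y hY0) (by linarith)
    rw [e1, e2, e3, e4]
    linarith
  -- monotone limit
  have hU : (Ioc 0 (2 * Real.pi) ×ˢ Ioi e0 : Set (ℝ × ℝ))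
      = ⋃ n : ℕ, Ioc 0 (2 * Real.pi) ×ˢ Ioc e0 (e0 + n) := by
    ext ⟨x, y⟩
    simp only [mem_prod, mem_Ioi, mem_iUnion, mem_Ioc]
    constructor
    · rintro ⟨hx, hy⟩
      obtain ⟨n, hn⟩ := exists_nat_ge (y - e0)
      exact ⟨n, hx, hy, by linarith⟩
    · rintro ⟨n, hx, hy, _⟩
      exact ⟨hx, hy⟩
  rw [hU, setLIntegral_iUnion_of_directed]
  · apply iSup_le
    intro n
    have hn : e0 ≤ e0 + n := by
      have : (0 : ℝ) ≤ n := Nat.cast_nonneg n
      linarith
    rw [← ofReal_integral_eq_lintegral_ofReal (intR hcd he0)]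
    · exact ENNReal.ofReal_le_ofReal (htr _ hn)
    · rw [EventuallyLE, ae_restrict_iff' (measurableSet_Ioc.prod measurableSet_Ioc)]
      filter_upwards with p hp
      exact mul_nonneg (sub p (he0.trans hp.2.1)) (by linarith [hp.2.1])
  · apply Monotone.directed_le
    intro a b hab
    refine Set.prod_mono le_rfl (Ioc_subset_Ioc_right ?_)
    have : (a : ℝ) ≤ b := by exact_mod_cast hab
    linarith

end Pool.H14.SR
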