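import Pool.Agent.H14.SR.Basic
import Pool.Agent.H14.SR.G0
open MeasureTheory Set Filter Topology
noncomputable section
namespace Pool.H14.SR

theorem Uch_meas_ST : MeasurableSet ST := by
  unfold ST
  exact (measurableSet_Ioc.preimage measurable_fst).inter
    (measurableSet_lt measurable_const measurable_snd)

/-- Fatou: passage `e₀ → 0`. -/
theorem Uch_limit (L : ℝ × ℝ → ℝ) (hL : ContinuousOn L {p | 0 < p.2}) (g : ℝ → ℝ) (g0 : ℝ)
    (hg : Tendsto (fun n : ℕ => g (1 / ((n : ℝ) + 1))) atTop (𝓝 g0))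
    (h : ∀ e0 : ℝ, 0 < e0 → ∫⁻ p in Set.Ioc 0 (2 * Real.pi) ×ˢ Set.Ioi e0,
        ENNReal.ofReal (L p * (p.2 - e0)) ≤ ENNReal.ofReal (g e0)) :
    ∫⁻ p in ST, ENNReal.ofReal (L p * p.2) ≤ ENNReal.ofReal g0 := by
  set en : ℕ → ℝ := fun n => 1 / ((n : ℝ) + 1) with hen
  have hen0 : ∀ n, 0 < en n := fun n => by simp only [hen]; positivity
  have hent : Tendsto en atTop (𝓝 0) := tendsto_one_div_add_atTop_nhds_zero_nat
  set f : ℕ → ℝ × ℝ → ENNReal := fun n =>
    (Set.Ioc 0 (2 * Real.pi) ×ˢ Set.Ioi (en n)).indicator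
      (fun p => ENNReal.ofReal (L p * (p.2 - en n))) with hf
  have hsub : ∀ n, (Set.Ioc 0 (2 * Real.pi) ×ˢ Set.Ioi (en n)) ⊆ ST := by
    intro n p hp
    exact ⟨hp.1, (hen0 n).trans hp.2⟩
  have hmeasR : ∀ n, MeasurableSet (Set.Ioc (0 : ℝ) (2 * Real.pi) ×ˢ Set.Ioi (en n)) := fun n =>
    measurableSet_Ioc.prod measurableSet_Ioi
  have hLm : AEMeasurable L (volume.restrict ST) := by
    have : ContinuousOn L ST := hL.mono (fun p hp => hp.2)
    exact this.aemeasurable Uch_meas_ST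
  have hfm : ∀ n, AEMeasurable (f n) (volume.restrict ST) := by
    intro n
    have h1 : AEMeasurable (fun p : ℝ × ℝ => ENNReal.ofReal (L p * (p.2 - en n)))
        (volume.restrict ST) := (hLm.mul (by fun_prop)).ennreal_ofReal
    exact h1.indicator (hmeasR n)
  have hlim : ∀ p ∈ ST, Tendsto (fun n => f n p) atTop (𝓝 (ENNReal.ofReal (L p * p.2))) := by
    intro p hp
    have h1 : Tendsto (fun n => ENNReal.ofReal (L p * (p.2 - en n))) atTop
        (𝓝 (ENNReal.ofReal (L p * p.2))) := by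
      apply ENNReal.tendsto_ofReal
      have := (hent.const_sub p.2).const_mul (L p)
      simpa using this
    have h2 : ∀ᶠ n in atTop, f n p = ENNReal.ofReal (L p * (p.2 - en n)) := by
      filter_upwards [hent.eventually (gt_mem_nhds hp.2)] with n hn
      simp only [hf]
      exact Set.indicator_of_mem (show p ∈ (Set.Ioc 0 (2 * Real.pi) ×ˢ Set.Ioi (en n)) from ⟨hp.1, hn⟩) _
    exact h1.congr' (h2.mono fun n hn => hn.symm)
  have e1 : ∫⁻ p in ST, ENNReal.ofReal (L p * p.2)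
      = ∫⁻ p in ST, liminf (fun n => f n p) atTop := by
    apply setLIntegral_congr_fun Uch_meas_ST
    intro p hp
    exact ((hlim p hp).liminf_eq).symm
  rw [e1]
  refine (lintegral_liminf_le' hfm).trans ?_
  have e2 : ∀ n, ∫⁻ p in ST, f n p ≤ ENNReal.ofReal (g (en n)) := by
    intro n
    simp only [hf]
    rw [setLIntegral_indicator (hmeasR n), Set.inter_eq_left.2 (hsub n)]
    exact h (en n) (hen0 n)
  have e3 : Tendsto (fun n => ENNReal.ofReal (g (en n))) atTop (𝓝 (ENNReal.ofReal g0)) :=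
    ENNReal.tendsto_ofReal hg
  calc liminf (fun n => ∫⁻ p in ST, f n p) atTop
      ≤ liminf (fun n => ENNReal.ofReal (g (en n))) atTop :=
        liminf_le_liminf (Eventually.of_forall e2)
    _ = ENNReal.ofReal g0 := e3.liminf_eq

/-- Continuity of `∫ G(E(x,y)) dx` at `y = 0`. -/
theorem Uch_tendsto (G : ℂ → ℝ) (hG : ContinuousOn G (Metric.closedBall 0 1)) :
    Tendsto (fun n : ℕ => ∫ x in Set.Ioc 0 (2 * Real.pi), G (E (x, 1 / ((n : ℝ) + 1)))) atTop
      (𝓝 (∫ x in Set.Ioc 0 (2 * Real.pi), G (E (x, 0)))) := by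
  obtain ⟨B, hB⟩ := (isCompact_closedBall (0 : ℂ) 1).exists_bound_of_continuousOn hG
  apply tendsto_integral_of_dominated_convergence (fun _ => B)
  · intro n
    have : Continuous (fun x : ℝ => G (E (x, 1 / ((n : ℝ) + 1)))) := by
      apply hG.comp_continuous
      · exact continuous_E.comp (by fun_prop)
      · intro x; exact E_mem_closedBall (by show (0 : ℝ) ≤ 1 / ((n : ℝ) + 1); positivity)
    exact this.aestronglyMeasurable
  · exact integrable_const _
  · intro n
    refine Eventually.of_forall fun x => ?_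
    exact hB _ (E_mem_closedBall (by show (0 : ℝ) ≤ 1 / ((n : ℝ) + 1); positivity))
  · refine Eventually.of_forall fun x => ?_
    have h1 : Tendsto (fun n : ℕ => E (x, 1 / ((n : ℝ) + 1))) atTop
        (𝓝[Metric.closedBall 0 1] (E (x, 0))) := by
      rw [tendsto_nhdsWithin_iff]
      refine ⟨?_, Eventually.of_forall fun n =>
        E_mem_closedBall (by show (0 : ℝ) ≤ 1 / ((n : ℝ) + 1); positivity)⟩
      have h2 : Tendsto (fun n : ℕ => ((x, 1 / ((n : ℝ) + 1)) : ℝ × ℝ)) atTop (𝓝 (x, 0)) :=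
        tendsto_const_nhds.prodMk_nhds tendsto_one_div_add_atTop_nhds_zero_nat
      exact (continuous_E.tendsto (x, 0)).comp h2
    exact (hG (E (x, 0)) (E_mem_closedBall le_rfl)).tendsto.comp h1

/-- derivatives of the real and imaginary parts of an analytic function in half plane coordinates -/
theorem Uch_reim {k : ℂ → ℂ} (hk : DifferentiableOn ℂ k (Metric.ball 0 1)) (p : ℝ × ℝ)
    (hp0 : 0 < p.2) :
    HasDerivAt (fun x : ℝ => (hp k (x, p.2)).re) (hp (Dz k) p).re p.1 ∧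
    HasDerivAt (fun x : ℝ => (hp k (x, p.2)).im) (hp (Dz k) p).im p.1 ∧
    HasDerivAt (fun y : ℝ => (hp k (p.1, y)).re) (-(hp (Dz k) p).im) p.2 ∧
    HasDerivAt (fun y : ℝ => (hp k (p.1, y)).im) (hp (Dz k) p).re p.2 := by
  have hl : -Real.log 1 < p.2 := by simpa using hp0
  have hx := hp_dx one_pos hk p hl
  have hy := hp_dy one_pos hk p hl
  refine ⟨?_, ?_, ?_, ?_⟩
  · exact (Complex.reCLM.hasFDerivAt.comp_hasDerivAt p.1 hx)
  · exact (Complex.imCLM.hasFDerivAt.comp_hasDerivAt p.1 hx)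
  · have := (Complex.reCLM.hasFDerivAt.comp_hasDerivAt p.2 hy)
    refine this.congr_deriv ?_
    simp
  · have := (Complex.imCLM.hasFDerivAt.comp_hasDerivAt p.2 hy)
    refine this.congr_deriv ?_
    simp

theorem Uch_cont {k : ℂ → ℂ} (hk : ContinuousOn k (Metric.ball 0 1)) :
    ContinuousOn (hp k) {p | -(0 : ℝ) < p.2} := by
  have := hp_cont one_pos hk
  simpa using this

/-- `|k|²` has Laplacian `4|k'|²`. -/
theorem Uch_sq {k : ℂ → ℂ} (hk : DifferentiableOn ℂ k (Metric.ball 0 1)) :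
    P2 0 (fun p => (hp k p).re ^ 2 + (hp k p).im ^ 2)
      (fun p => 2 * ((hp k p).re * (hp (Dz k) p).re + (hp k p).im * (hp (Dz k) p).im))
      (fun p => 2 * ((hp (Dz k) p).re ^ 2 + (hp (Dz k) p).im ^ 2
        + (hp k p).re * (hp (Dz (Dz k)) p).re + (hp k p).im * (hp (Dz (Dz k)) p).im))
      (fun p => 2 * (-((hp k p).re * (hp (Dz k) p).im) + (hp k p).im * (hp (Dz k) p).re))
      (fun p => 2 * ((hp (Dz k) p).re ^ 2 + (hp (Dz k) p).im ^ 2
        - (hp k p).re * (hp (Dz (Dz k)) p).re - (hp k p).im * (hp (Dz (Dz k)) p).im)) := by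
  have hk1 := Dz_diff hk
  have hk2 := Dz_diff hk1
  have c0 := Uch_cont hk.continuousOn
  have c1 := Uch_cont hk1.continuousOn
  have c2 := Uch_cont hk2.continuousOn
  have re0 := Complex.continuous_re.comp_continuousOn c0
  have im0 := Complex.continuous_im.comp_continuousOn c0
  have re1 := Complex.continuous_re.comp_continuousOn c1
  have im1 := Complex.continuous_im.comp_continuousOn c1
  have re2 := Complex.continuous_re.comp_continuousOn c2
  have im2 := Complex.continuous_im.comp_continuousOn c2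
  refine ⟨?_, ?_, ?_, ?_, ?_, ?_, ?_, ?_, ?_, ?_⟩
  · intro p h
    have h : 0 < p.2 := by simpa using h
    obtain ⟨a1, a2, -, -⟩ := Uch_reim hk p h
    have := (a1.pow 2).add (a2.pow 2)
    refine this.congr_deriv ?_
    simp only [Prod.mk.eta]
    ring
  · intro p h
    have h : 0 < p.2 := by simpa using h
    obtain ⟨a1, a2, -, -⟩ := Uch_reim hk p h
    obtain ⟨b1, b2, -, -⟩ := Uch_reim hk1 p h
    have := ((a1.mul b1).add (a2.mul b2)).const_mul 2
    refine this.congr_deriv ?_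
    simp only [Prod.mk.eta]
    ring
  · intro p h
    have h : 0 < p.2 := by simpa using h
    obtain ⟨-, -, a1, a2⟩ := Uch_reim hk p h
    have := (a1.pow 2).add (a2.pow 2)
    refine this.congr_deriv ?_
    simp only [Prod.mk.eta]
    ring
  · intro p h
    have h : 0 < p.2 := by simpa using h
    obtain ⟨-, -, a1, a2⟩ := Uch_reim hk p h
    obtain ⟨-, -, b1, b2⟩ := Uch_reim hk1 p h
    have := (((a1.mul b2).neg).add (a2.mul b1)).const_mul 2
    refine this.congr_deriv ?_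
    simp only [Prod.mk.eta]
    ring
  · exact (re0.pow 2).add (im0.pow 2)
  · exact continuousOn_const.mul ((re0.mul re1).add (im0.mul im1))
  · exact continuousOn_const.mul ((((re1.pow 2).add (im1.pow 2)).add (re0.mul re2)).add (im0.mul im2))
  · exact continuousOn_const.mul (((re0.mul im1).neg).add (im0.mul re1))
  · exact continuousOn_const.mul ((((re1.pow 2).add (im1.pow 2)).sub (re0.mul re2)).sub (im0.mul im2))
  · intro p _
    show (hp k (p.1 + 2 * Real.pi, p.2)).re ^ 2 + _ = _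
    rw [hp_per]

theorem Uch_normsq (z : ℂ) : ‖z‖ ^ 2 = z.re ^ 2 + z.im ^ 2 := by
  rw [Complex.sq_norm, Complex.normSq_apply]; ring

/-- **(Uch)** Uchiyama's lemma. -/
theorem Uch (S Sx Sxx Sy Syy : ℝ × ℝ → ℝ) (h : P2 0 S Sx Sxx Sy Syy)
    (h0 : ∀ p : ℝ × ℝ, 0 < p.2 → 0 ≤ S p)
    (sup : ∀ p : ℝ × ℝ, 0 < p.2 → Sxx p + Syy p ≤ 0)
    (k : ℂ → ℂ) (hkc : ContinuousOn k (Metric.closedBall 0 1))
    (hk : DifferentiableOn ℂ k (Metric.ball 0 1)) :
    ∫⁻ p in ST, ENNReal.ofReal (-(Sxx p + Syy p) * Real.exp (-S p) * ‖hp k p‖ ^ 2 * p.2)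
      ≤ ENNReal.ofReal (∫ x in Set.Ioc 0 (2 * Real.pi), ‖k (E (x, 0))‖ ^ 2) := by
  obtain ⟨B, hB0, hB⟩ := hp_bdd hkc
  have hq := Uch_sq hk
  set q : ℝ × ℝ → ℝ := fun p => (hp k p).re ^ 2 + (hp k p).im ^ 2 with hqdef
  set qx : ℝ × ℝ → ℝ :=
    fun p => 2 * ((hp k p).re * (hp (Dz k) p).re + (hp k p).im * (hp (Dz k) p).im) with hqx
  set qxx : ℝ × ℝ → ℝ := (fun p => 2 * ((hp (Dz k) p).re ^ 2 + (hp (Dz k) p).im ^ 2
        + (hp k p).re * (hp (Dz (Dz k)) p).re + (hp k p).im * (hp (Dz (Dz k)) p).im)) with hqxx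
  set qy : ℝ × ℝ → ℝ :=
      (fun p => 2 * (-((hp k p).re * (hp (Dz k) p).im) + (hp k p).im * (hp (Dz k) p).re)) with hqy
  set qyy : ℝ × ℝ → ℝ := (fun p => 2 * ((hp (Dz k) p).re ^ 2 + (hp (Dz k) p).im ^ 2
        - (hp k p).re * (hp (Dz (Dz k)) p).re - (hp k p).im * (hp (Dz (Dz k)) p).im)) with hqyy
  have hqn : ∀ p, q p = ‖hp k p‖ ^ 2 := fun p => (Uch_normsq _).symm
  have hq0 : ∀ p, 0 ≤ q p := fun p => by rw [hqn]; positivity
  set U : ℝ × ℝ → ℝ := fun p => Real.exp (-S p) * q p with hU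
  set Ux : ℝ × ℝ → ℝ := fun p => Real.exp (-S p) * (-Sx p * q p + qx p) with hUx
  set Uxx : ℝ × ℝ → ℝ := fun p => Real.exp (-S p) *
    (Sx p ^ 2 * q p - 2 * Sx p * qx p - Sxx p * q p + qxx p) with hUxx
  set Uy : ℝ × ℝ → ℝ := fun p => Real.exp (-S p) * (-Sy p * q p + qy p) with hUy
  set Uyy : ℝ × ℝ → ℝ := fun p => Real.exp (-S p) *
    (Sy p ^ 2 * q p - 2 * Sy p * qy p - Syy p * q p + qyy p) with hUyy
  have hexpc : ContinuousOn (fun p => Real.exp (-S p)) {p : ℝ × ℝ | -(0 : ℝ) < p.2} :=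
    Real.continuous_exp.comp_continuousOn h.c.neg
  have hUP : P2 0 U Ux Uxx Uy Uyy := by
    refine ⟨?_, ?_, ?_, ?_, ?_, ?_, ?_, ?_, ?_, ?_⟩
    · intro p hp
      have := ((h.dx p hp).neg.exp).mul (hq.dx p hp)
      refine this.congr_deriv ?_
      simp only [hUx, Pi.neg_apply, Prod.mk.eta]; ring
    · intro p hp
      have := ((h.dx p hp).neg.exp).mul ((((h.dxx p hp).neg).mul (hq.dx p hp)).add (hq.dxx p hp))
      refine this.congr_deriv ?_
      simp only [hUxx, Pi.neg_apply, Pi.add_apply, Pi.mul_apply, Prod.mk.eta]; ring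
    · intro p hp
      have := ((h.dy p hp).neg.exp).mul (hq.dy p hp)
      refine this.congr_deriv ?_
      simp only [hUy, Pi.neg_apply, Prod.mk.eta]; ring
    · intro p hp
      have := ((h.dy p hp).neg.exp).mul ((((h.dyy p hp).neg).mul (hq.dy p hp)).add (hq.dyy p hp))
      refine this.congr_deriv ?_
      simp only [hUyy, Pi.neg_apply, Pi.add_apply, Pi.mul_apply, Prod.mk.eta]; ring
    · exact hexpc.mul hq.c
    · exact hexpc.mul ((h.cx.neg.mul hq.c).add hq.cx)
    · exact hexpc.mul (((((h.cx.pow 2).mul hq.c).sub ((continuousOn_const.mul h.cx).mul hq.cx)).sub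
        (h.cxx.mul hq.c)).add hq.cxx)
    · exact hexpc.mul ((h.cy.neg.mul hq.c).add hq.cy)
    · exact hexpc.mul (((((h.cy.pow 2).mul hq.c).sub ((continuousOn_const.mul h.cy).mul hq.cy)).sub
        (h.cyy.mul hq.c)).add hq.cyy)
    · intro p hp
      simp only [hU]
      rw [h.per p hp, hq.per p hp]
  have hkey : ∀ p : ℝ × ℝ, 0 < p.2 →
      -(Sxx p + Syy p) * Real.exp (-S p) * q p ≤ Uxx p + Uyy p := by
    intro p _
    have hE := (Real.exp_pos (-S p)).le
    have e1 : Uxx p + Uyy p - (-(Sxx p + Syy p) * Real.exp (-S p) * q p)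
        = Real.exp (-S p) * ((Sx p ^ 2 + Sy p ^ 2) * q p - 2 * Sx p * qx p - 2 * Sy p * qy p
            + (qxx p + qyy p)) := by
      simp only [hUxx, hUyy]; ring
    have e2 : 0 ≤ (Sx p ^ 2 + Sy p ^ 2) * q p - 2 * Sx p * qx p - 2 * Sy p * qy p
            + (qxx p + qyy p) := by
      simp only [hqdef, hqx, hqy, hqxx, hqyy]
      have : ((Sx p ^ 2 + Sy p ^ 2) * ((hp k p).re ^ 2 + (hp k p).im ^ 2)
          - 2 * Sx p * (2 * ((hp k p).re * (hp (Dz k) p).re + (hp k p).im * (hp (Dz k) p).im))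
          - 2 * Sy p * (2 * (-((hp k p).re * (hp (Dz k) p).im) + (hp k p).im * (hp (Dz k) p).re))
          + (2 * ((hp (Dz k) p).re ^ 2 + (hp (Dz k) p).im ^ 2
              + (hp k p).re * (hp (Dz (Dz k)) p).re + (hp k p).im * (hp (Dz (Dz k)) p).im)
            + 2 * ((hp (Dz k) p).re ^ 2 + (hp (Dz k) p).im ^ 2
              - (hp k p).re * (hp (Dz (Dz k)) p).re - (hp k p).im * (hp (Dz (Dz k)) p).im)))
          = (2 * (hp (Dz k) p).re - Sx p * (hp k p).re - Sy p * (hp k p).im) ^ 2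
            + (2 * (hp (Dz k) p).im - Sx p * (hp k p).im + Sy p * (hp k p).re) ^ 2 := by ring
      rw [this]; positivity
    nlinarith [mul_nonneg hE e2]
  have hLc : ContinuousOn (fun p => Uxx p + Uyy p) {p : ℝ × ℝ | 0 < p.2} := by
    refine (hUP.cxx.add hUP.cyy).mono (fun p hp => ?_)
    simpa using hp
  have hUnn : ∀ p : ℝ × ℝ, 0 < p.2 → 0 ≤ Uxx p + Uyy p := by
    intro p hp
    refine le_trans ?_ (hkey p hp)
    have h1 := sup p hp
    have h2 := (Real.exp_pos (-S p)).le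
    have h3 := hq0 p
    have : 0 ≤ -(Sxx p + Syy p) := by linarith
    positivity
  have hUle : ∀ p : ℝ × ℝ, 0 < p.2 → U p ≤ ‖hp k p‖ ^ 2 := by
    intro p hp
    simp only [hU]
    rw [hqn]
    have : Real.exp (-S p) ≤ 1 := Real.exp_le_one_iff.2 (by linarith [h0 p hp])
    nlinarith [sq_nonneg ‖Pool.H14.SR.hp k p‖]
  have main : ∫⁻ p in ST, ENNReal.ofReal ((Uxx p + Uyy p) * p.2)
      ≤ ENNReal.ofReal (∫ x in Set.Ioc 0 (2 * Real.pi), ‖k (E (x, 0))‖ ^ 2) := by
    apply Uch_limit (fun p => Uxx p + Uyy p) hLc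
      (fun y => ∫ x in Set.Ioc 0 (2 * Real.pi), ‖k (E (x, y))‖ ^ 2)
    · exact Uch_tendsto (fun z => ‖k z‖ ^ 2) (hkc.norm.pow 2)
    · intro e0 he0
      refine (G0 U Ux Uxx Uy Uyy hUP (B ^ 2) (fun p hp => ?_) (fun p hp => ?_) hUnn e0 he0).trans ?_
      · simp only [hU]
        exact mul_nonneg (Real.exp_pos _).le (hq0 p)
      · exact (hUle p hp).trans (pow_le_pow_left₀ (norm_nonneg _) (hB p hp.le) 2)
      · apply ENNReal.ofReal_le_ofReal
        apply setIntegral_mono_on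
        · apply Continuous.integrableOn_Ioc
          exact hUP.c.comp_continuous (by fun_prop) (fun x => show -(0 : ℝ) < e0 by linarith)
        · apply Continuous.integrableOn_Ioc
          have : Continuous (fun x : ℝ => k (E (x, e0))) :=
            hkc.comp_continuous (continuous_E.comp (by fun_prop))
              (fun x => E_mem_closedBall (show (0 : ℝ) ≤ e0 from he0.le))
          exact this.norm.pow 2
        · exact measurableSet_Ioc
        · intro x _
          exact hUle (x, e0) he0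
  refine le_trans ?_ main
  apply setLIntegral_mono_ae'
  · exact Uch_meas_ST
  · refine Eventually.of_forall fun p hp => ?_
    apply ENNReal.ofReal_le_ofReal
    have := hkey p hp.2
    rw [← hqn]
    exact mul_le_mul_of_nonneg_right this hp.2.le

end Pool.H14.SR
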