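import Pool.Agent.H14.SR.Basic
import Pool.Agent.H14.SR.E5a
import Pool.Agent.H14.SR.Uch
open MeasureTheory Set Filter Topology
noncomputable section
namespace Pool.H14.SR

theorem E5_per1 (g : ℝ → ENNReal) (hg : ∀ x, g (x + 2 * Real.pi) = g x) (a : ℝ) :
    ∫⁻ x in Set.Ioc a (a + 2 * Real.pi), g x = ∫⁻ x in Set.Ioc 0 (2 * Real.pi), g x := by
  have h0 : (0:ℝ) < 2 * Real.pi := by positivity
  have h1 := (isAddFundamentalDomain_Ioc h0 a volume).setLIntegral_eq
    (isAddFundamentalDomain_Ioc h0 0 volume) g (by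
      rintro ⟨y, hy⟩ x
      obtain ⟨n, rfl⟩ := AddSubgroup.mem_zmultiples_iff.1 hy
      have hp : Function.Periodic g (2 * Real.pi) := hg
      have := (hp.zsmul n) x
      rw [add_comm] at this
      exact this)
  rw [zero_add] at h1
  exact h1

/-- the periodic strip `x ∈ (0,2π]` -/
def E5_SS : Set (ℝ × ℝ) := Set.Ioc 0 (2 * Real.pi) ×ˢ (Set.univ : Set ℝ)

theorem E5_SS_meas : MeasurableSet E5_SS := measurableSet_Ioc.prod MeasurableSet.univ

theorem E5_int_SS (g : ℝ × ℝ → ENNReal) (hg : Measurable g) (a b : ℝ) :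
    ∫⁻ p in Set.Ioc a b ×ˢ (Set.univ : Set ℝ), g p = ∫⁻ y, ∫⁻ x in Set.Ioc a b, g (x, y) := by
  rw [Measure.volume_eq_prod, ← Measure.prod_restrict, Measure.restrict_univ,
    lintegral_prod_symm _ hg.aemeasurable]

theorem E5_per2 (g : ℝ × ℝ → ENNReal) (hm : Measurable g)
    (hg : ∀ p : ℝ × ℝ, g (p.1 + 2 * Real.pi, p.2) = g p) (u : ℝ × ℝ) :
    ∫⁻ p in E5_SS, g (p - u) = ∫⁻ p in E5_SS, g p := by
  unfold E5_SS
  have hm2 : Measurable (fun p : ℝ × ℝ => g (p - u)) := hm.comp (measurable_sub_const' u)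
  rw [E5_int_SS _ hm, E5_int_SS _ hm2]
  have h1 : ∀ y : ℝ, ∫⁻ x in Set.Ioc 0 (2 * Real.pi), g ((x, y) - u)
      = ∫⁻ x in Set.Ioc 0 (2 * Real.pi), g (x, y - u.2) := by
    intro y
    have e1 : ∫⁻ x in Set.Ioc 0 (2 * Real.pi), g ((x, y) - u)
        = ∫⁻ x in Set.Ioc (-u.1) (-u.1 + 2 * Real.pi), g (x, y - u.2) := by
      have hmp := measurePreserving_sub_right (volume : Measure ℝ) u.1
      have := hmp.setLIntegral_comp_emb (measurableEmbedding_subRight u.1)
        (fun x => g (x, y - u.2)) (Set.Ioc 0 (2 * Real.pi))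
      have e2 : (fun x : ℝ => x - u.1) '' Set.Ioc 0 (2 * Real.pi) = Set.Ioc (-u.1) (-u.1 + 2 * Real.pi) := by
        rw [Set.image_sub_const_Ioc]
        congr 1 <;> ring
      rw [e2] at this
      rw [← this]
      rfl
    rw [e1]
    exact E5_per1 (fun x => g (x, y - u.2)) (fun x => hg (x, y - u.2)) _
  simp_rw [h1]
  exact lintegral_sub_right_eq_self (μ := (volume : Measure ℝ))
    (fun y => ∫⁻ x in Set.Ioc 0 (2 * Real.pi), g (x, y)) u.2

theorem E5_unf (F : ℝ × ℝ → ℝ × ℝ → ENNReal) (hF : Measurable (Function.uncurry F))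
    (hper : ∀ p q : ℝ × ℝ, F (p.1 + 2 * Real.pi, p.2) (q.1 + 2 * Real.pi, q.2) = F p q) :
    ∫⁻ p in E5_SS, ∫⁻ q, F p q = ∫⁻ q in E5_SS, ∫⁻ p, F p q := by
  have hm1 : Measurable (fun r : (ℝ × ℝ) × (ℝ × ℝ) => F r.1 (r.1 + r.2)) :=
    hF.comp (measurable_fst.prodMk (measurable_fst.add measurable_snd))
  have hm2 : Measurable (fun r : (ℝ × ℝ) × (ℝ × ℝ) => F (r.1 - r.2) r.1) :=
    hF.comp ((measurable_fst.sub measurable_snd).prodMk measurable_fst)
  calc ∫⁻ p in E5_SS, ∫⁻ q, F p q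
      = ∫⁻ p in E5_SS, ∫⁻ u, F p (p + u) := by
        refine lintegral_congr fun p => ?_
        exact (lintegral_add_left_eq_self (μ := (volume : Measure (ℝ × ℝ))) (fun q => F p q) p).symm
    _ = ∫⁻ u, ∫⁻ p in E5_SS, F p (p + u) :=
        lintegral_lintegral_swap hm1.aemeasurable
    _ = ∫⁻ u, ∫⁻ p in E5_SS, F (p - u) p := by
        refine lintegral_congr fun u => ?_
        have hmu : Measurable (fun p : ℝ × ℝ => F p (p + u)) :=
          hF.comp (measurable_id.prodMk (measurable_id.add_const u))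
        have := E5_per2 (fun p => F p (p + u)) hmu (fun p => by
          have := hper p (p + u)
          rw [← this]
          congr 1
          ext
          · simp; ring
          · simp) u
        rw [← this]
        refine lintegral_congr fun p => ?_
        simp only [sub_add_cancel]
    _ = ∫⁻ p in E5_SS, ∫⁻ u, F (p - u) p :=
        (lintegral_lintegral_swap hm2.aemeasurable).symm
    _ = ∫⁻ q in E5_SS, ∫⁻ p, F p q := by
        refine lintegral_congr fun q => ?_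
        exact lintegral_sub_left_eq_self (μ := (volume : Measure (ℝ × ℝ))) (fun p => F p q) q

theorem E5_mv (k : ℂ → ℂ) (hk : DifferentiableOn ℂ k (Metric.ball 0 1)) (z : ℝ × ℝ) (r : ℝ)
    (hr : 0 < r) (hrz : r < z.2) :
    ENNReal.ofReal (2 * Real.pi) * ENNReal.ofReal (‖hp k z‖ ^ 2)
      ≤ ∫⁻ θ in Set.Ioo (-Real.pi) Real.pi,
          ENNReal.ofReal (‖hp k (z.1 + r * Real.cos θ, z.2 + r * Real.sin θ)‖ ^ 2) := by
  set c : ℂ := (z.1 : ℂ) + (z.2 : ℂ) * Complex.I with hc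
  set g : ℂ → ℂ := fun w => (k (Complex.exp (Complex.I * w))) ^ 2 with hg
  have him : ∀ w ∈ Metric.closedBall c r, 0 < w.im := by
    intro w hw
    have h1 : |(w - c).im| ≤ r := by
      refine (Complex.abs_im_le_norm _).trans ?_
      simpa [dist_eq_norm] using hw
    have h2 : (w - c).im = w.im - z.2 := by simp [hc]
    rw [h2] at h1
    have := (abs_le.1 h1).1
    linarith
  have hexp : ∀ w ∈ Metric.closedBall c r, Complex.exp (Complex.I * w) ∈ Metric.ball (0:ℂ) 1 := by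
    intro w hw
    rw [mem_ball_zero_iff, Complex.norm_exp]
    have : (Complex.I * w).re = - w.im := by simp
    rw [this, ← Real.exp_zero]
    exact Real.exp_lt_exp.2 (by linarith [him w hw])
  have hdiff : ∀ w ∈ Metric.closedBall c r, DifferentiableAt ℂ g w := by
    intro w hw
    have h1 : DifferentiableAt ℂ k (Complex.exp (Complex.I * w)) :=
      hk.differentiableAt (Metric.isOpen_ball.mem_nhds (hexp w hw))
    have h2 : DifferentiableAt ℂ (fun w : ℂ => Complex.exp (Complex.I * w)) w := by fun_prop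
    exact (DifferentiableAt.comp w h1 h2).pow 2
  have hdc : DiffContOnCl ℂ g (Metric.ball c |r|) := by
    rw [abs_of_pos hr]
    refine DifferentiableOn.diffContOnCl ?_
    rw [closure_ball c hr.ne']
    exact fun w hw => (hdiff w hw).differentiableWithinAt
  have hav := hdc.circleAverage
  rw [Real.circleAverage_eq_integral_add (-Real.pi)] at hav
  rw [intervalIntegral.integral_comp_add_right (fun θ ↦ g (circleMap c r θ))] at hav
  have e1 : (0:ℝ) + -Real.pi = -Real.pi := by ring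
  have e2 : 2 * Real.pi + -Real.pi = Real.pi := by ring
  rw [e1, e2, intervalIntegral.integral_of_le (by linarith [Real.pi_pos])] at hav
  have hgc : ‖g c‖ = ‖hp k z‖ ^ 2 := by
    simp only [hg, norm_pow, hp, E, hc]
  have hpi : (0:ℝ) < 2 * Real.pi := by positivity
  have h3 : (2 * Real.pi) * ‖hp k z‖ ^ 2 = ‖∫ θ in Set.Ioc (-Real.pi) Real.pi, g (circleMap c r θ)‖ := by
    rw [← hgc, ← hav, norm_smul, Real.norm_of_nonneg (by positivity), ← mul_assoc,
      mul_inv_cancel₀ hpi.ne', one_mul]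
  rw [← ENNReal.ofReal_mul hpi.le, h3]
  rw [MeasureTheory.integral_Ioc_eq_integral_Ioo]
  rw [ofReal_norm]
  refine (enorm_integral_le_lintegral_enorm _).trans (le_of_eq ?_)
  refine lintegral_congr fun θ => ?_
  rw [← ofReal_norm]
  congr 1
  simp only [hg, norm_pow, hp, E]
  congr 3
  congr 1
  simp only [circleMap, hc]
  rw [Complex.exp_mul_I]
  push_cast
  ring

theorem E5_disc (k : ℂ → ℂ) (hk : DifferentiableOn ℂ k (Metric.ball 0 1)) (z : ℝ × ℝ)
    (hz : 0 < z.2) (f : ℝ × ℝ → ENNReal)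
    (hf : ∀ p : ℝ × ℝ, (p.1 - z.1) ^ 2 + (p.2 - z.2) ^ 2 ≤ (z.2 / 2) ^ 2 →
      ENNReal.ofReal (‖hp k p‖ ^ 2) ≤ f p) (hfm : Measurable f) :
    ENNReal.ofReal (Real.pi * z.2 ^ 2 / 4 * ‖hp k z‖ ^ 2) ≤ ∫⁻ p, f p := by
  have h1 : ∫⁻ p, f p = ∫⁻ p, f (p + z) :=
    (lintegral_add_right_eq_self (μ := (volume : Measure (ℝ × ℝ))) f z).symm
  rw [h1, ← lintegral_comp_polarCoord_symm]
  have hsub : Set.Ioo (0:ℝ) (z.2 / 2) ×ˢ Set.Ioo (-Real.pi) Real.pi ⊆ polarCoord.target := by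
    rw [polarCoord_target]
    exact Set.prod_mono (fun x hx => hx.1) le_rfl
  refine le_trans ?_ (lintegral_mono_set hsub)
  have hmeas : Measurable (fun p : ℝ × ℝ => ENNReal.ofReal p.1 • f (polarCoord.symm p + z)) := by
    have : Measurable (fun p : ℝ × ℝ => polarCoord.symm p) := by
      simp only [polarCoord_symm_apply]
      fun_prop
    have h2 : Measurable (fun p : ℝ × ℝ => f (polarCoord.symm p + z)) :=
      hfm.comp (this.add_const z)
    exact (ENNReal.measurable_ofReal.comp measurable_fst).smul h2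
  rw [Measure.volume_eq_prod, ← Measure.prod_restrict, lintegral_prod _ hmeas.aemeasurable]
  calc ENNReal.ofReal (Real.pi * z.2 ^ 2 / 4 * ‖hp k z‖ ^ 2)
      = ∫⁻ r in Set.Ioo (0:ℝ) (z.2 / 2), ENNReal.ofReal r *
          (ENNReal.ofReal (2 * Real.pi) * ENNReal.ofReal (‖hp k z‖ ^ 2)) := by
        have hm : Measurable (fun r : ℝ => ENNReal.ofReal r) := ENNReal.measurable_ofReal
        rw [lintegral_mul_const _ hm]
        have h3 : ∫⁻ r in Set.Ioo (0:ℝ) (z.2 / 2), ENNReal.ofReal r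
            = ENNReal.ofReal (∫ r in Set.Ioo (0:ℝ) (z.2 / 2), r) := by
          rw [ofReal_integral_eq_lintegral_ofReal]
          · exact ((continuous_id.integrableOn_Icc).mono_set Set.Ioo_subset_Icc_self)
          · refine (ae_restrict_iff' measurableSet_Ioo).2 (Filter.Eventually.of_forall fun r hr => ?_)
            exact hr.1.le
        have h4 : ∫ r in Set.Ioo (0:ℝ) (z.2 / 2), r = (z.2 / 2) ^ 2 / 2 := by
          rw [← MeasureTheory.integral_Ioc_eq_integral_Ioo,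
            ← intervalIntegral.integral_of_le (by positivity), integral_id]
          ring
        rw [h3, h4, ← ENNReal.ofReal_mul (by positivity), ← ENNReal.ofReal_mul (by positivity)]
        congr 1
        ring
    _ ≤ ∫⁻ r in Set.Ioo (0:ℝ) (z.2 / 2), ∫⁻ θ in Set.Ioo (-Real.pi) Real.pi,
          ENNReal.ofReal r • f (polarCoord.symm (r, θ) + z) := by
        refine setLIntegral_mono' measurableSet_Ioo fun r hr => ?_
        have h5 : ∫⁻ θ in Set.Ioo (-Real.pi) Real.pi,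
            ENNReal.ofReal r • f (polarCoord.symm (r, θ) + z)
            = ENNReal.ofReal r * ∫⁻ θ in Set.Ioo (-Real.pi) Real.pi,
              f (polarCoord.symm (r, θ) + z) := by
          simp_rw [smul_eq_mul]
          rw [lintegral_const_mul' _ _ ENNReal.ofReal_ne_top]
        rw [h5]
        gcongr
        refine (E5_mv k hk z r hr.1 (by linarith [hr.2])).trans ?_
        refine lintegral_mono fun θ => ?_
        have h6 : polarCoord.symm (r, θ) + z = (z.1 + r * Real.cos θ, z.2 + r * Real.sin θ) := by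
          rw [polarCoord_symm_apply]
          ext
          · simp; ring
          · simp; ring
        rw [h6]
        apply hf
        have h7 : (z.1 + r * Real.cos θ - z.1) ^ 2 + (z.2 + r * Real.sin θ - z.2) ^ 2 = r ^ 2 := by
          have := Real.sin_sq_add_cos_sq θ
          nlinarith
        show (z.1 + r * Real.cos θ - z.1) ^ 2 + (z.2 + r * Real.sin θ - z.2) ^ 2 ≤ (z.2 / 2) ^ 2
        rw [h7]
        exact pow_le_pow_left₀ hr.1.le hr.2.le 2

/-- `|k|²` on the half plane, zero elsewhere. -/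
def E5_K (k : ℂ → ℂ) : ℝ × ℝ → ENNReal :=
  HP.indicator (fun p => ENNReal.ofReal (‖hp k p‖ ^ 2))

theorem E5_HP_meas : MeasurableSet HP := measurableSet_lt measurable_const measurable_snd

theorem E5_K_meas (k : ℂ → ℂ) (hk : DifferentiableOn ℂ k (Metric.ball 0 1)) :
    Measurable (E5_K k) := by
  classical
  have h1 : ContinuousOn (fun p => ENNReal.ofReal (‖hp k p‖ ^ 2)) HP := by
    have h2 : ContinuousOn (hp k) HP :=
      hk.continuousOn.comp continuous_E.continuousOn (fun p hp => E_mem_ball_one hp)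
    exact ENNReal.continuous_ofReal.comp_continuousOn (h2.norm.pow 2)
  have h3 := h1.measurable_piecewise (g := fun _ => (0:ENNReal)) continuousOn_const E5_HP_meas
  unfold E5_K
  rw [← Set.piecewise_eq_indicator]
  exact h3

theorem E5_P2_smul {U Ux Uxx Uy Uyy : ℝ × ℝ → ℝ} {σ : ℝ} (h : P2 σ U Ux Uxx Uy Uyy) (c : ℝ) :
    P2 σ (fun p => c * U p) (fun p => c * Ux p) (fun p => c * Uxx p) (fun p => c * Uy p)
      (fun p => c * Uyy p) where
  dx := fun p hp => (h.dx p hp).const_mul c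
  dxx := fun p hp => (h.dxx p hp).const_mul c
  dy := fun p hp => (h.dy p hp).const_mul c
  dyy := fun p hp => (h.dyy p hp).const_mul c
  c := continuousOn_const.mul h.c
  cx := continuousOn_const.mul h.cx
  cxx := continuousOn_const.mul h.cxx
  cy := continuousOn_const.mul h.cy
  cyy := continuousOn_const.mul h.cyy
  per := fun p hp => by rw [h.per p hp]

theorem E5_ST_meas : MeasurableSet ST :=
  (measurableSet_Ioc.preimage measurable_fst).inter E5_HP_meas

/-- (E5) for `ε > 0`. -/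
theorem E5_pos (M : ℝ × ℝ → ℝ) (hM : Measurable M) (B Y : ℝ) (hM0 : ∀ p, 0 ≤ M p) (hMB : ∀ p, M p ≤ B)
    (hMY : ∀ p : ℝ × ℝ, Y ≤ p.2 → M p = 0)
    (hper : ∀ p : ℝ × ℝ, M (p.1 + 2 * Real.pi, p.2) = M p) (ε : ℝ) (hε : 0 < ε)
    (hS : ∀ z : ℝ × ℝ, 0 < z.2 →
      ∫⁻ p in HP, ENNReal.ofReal (M p * qk z p) ≤ ENNReal.ofReal ε)
    (k : ℂ → ℂ) (hkc : ContinuousOn k (Metric.closedBall 0 1))
    (hk : DifferentiableOn ℂ k (Metric.ball 0 1)) :
    ∫⁻ p in ST, ENNReal.ofReal (M p * ‖hp k p‖ ^ 2)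
      ≤ ENNReal.ofReal (18 * ε * ∫ x in Set.Ioc 0 (2 * Real.pi), ‖k (E (x, 0))‖ ^ 2) := by
  obtain ⟨Sx, Sxx, Sy, Syy, hP, hE⟩ := E5a M hM B Y hM0 hMB hMY hper
  set S : ℝ × ℝ → ℝ := fun z => ∫ p in HP, M p * qk z p with hSdef
  set G : ℝ × ℝ → ℝ := fun z => ∫ p in HP, M p * (16 * p.2 / ((p.1 - z.1) ^ 2 + (p.2 + z.2) ^ 2) ^ 2)
    with hGdef
  set J : ℝ := ∫ x in Set.Ioc 0 (2 * Real.pi), ‖k (E (x, 0))‖ ^ 2 with hJ
  have hJ0 : 0 ≤ J := integral_nonneg fun x => by positivity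
  have hqk : ∀ z p : ℝ × ℝ, 0 < z.2 → 0 ≤ qk z p := by
    intro z p hz
    unfold qk
    positivity
  have hS0 : ∀ z : ℝ × ℝ, 0 < z.2 → 0 ≤ S z := fun z hz =>
    integral_nonneg fun p => mul_nonneg (hM0 p) (hqk z p hz)
  have hS1 : ∀ z : ℝ × ℝ, 0 < z.2 → S z ≤ ε := by
    intro z hz
    have h1 := hS z hz
    rw [← ofReal_integral_eq_lintegral_ofReal (hE z hz).1
      (Filter.Eventually.of_forall fun p => mul_nonneg (hM0 p) (hqk z p hz))] at h1
    exact (ENNReal.ofReal_le_ofReal_iff hε.le).1 h1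
  have hG0 : ∀ z : ℝ × ℝ, 0 ≤ G z := by
    intro z
    refine setIntegral_nonneg E5_HP_meas fun p hp => mul_nonneg (hM0 p) ?_
    have : 0 < p.2 := hp
    positivity
  have hLap : ∀ z : ℝ × ℝ, 0 < z.2 → Sxx z + Syy z = -G z := fun z hz => (hE z hz).2.2
  -- Uchiyama
  have hU := Uch (fun p => ε⁻¹ * S p) _ _ _ _ (E5_P2_smul hP ε⁻¹)
    (fun p hp => mul_nonneg (inv_nonneg.2 hε.le) (hS0 p hp))
    (fun p hp => by
      rw [← mul_add, hLap p hp]
      have := mul_nonneg (inv_nonneg.2 hε.le) (hG0 p)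
      linarith) k hkc hk
  have hU2 : ∫⁻ p in ST, ENNReal.ofReal (G p * ‖hp k p‖ ^ 2 * p.2)
      ≤ ENNReal.ofReal (ε * Real.exp 1 * J) := by
    have e1 : ENNReal.ofReal (ε * Real.exp 1 * J) = ENNReal.ofReal (ε * Real.exp 1) * ENNReal.ofReal J :=
      ENNReal.ofReal_mul (by positivity)
    rw [e1]
    refine le_trans ?_ (mul_le_mul_right hU _)
    rw [← lintegral_const_mul' _ _ ENNReal.ofReal_ne_top]
    refine setLIntegral_mono' E5_ST_meas fun p hpS => ?_
    have hp2 : 0 < p.2 := hpS.2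
    rw [← ENNReal.ofReal_mul (by positivity)]
    apply ENNReal.ofReal_le_ofReal
    rw [← mul_add, hLap p hp2]
    have h1 : Real.exp (-1) ≤ Real.exp (-(ε⁻¹ * S p)) := by
      apply Real.exp_le_exp.2
      have : ε⁻¹ * S p ≤ 1 := by
        rw [inv_mul_le_iff₀ hε]
        linarith [hS1 p hp2]
      linarith
    have h2 : (1:ℝ) ≤ Real.exp 1 * Real.exp (-(ε⁻¹ * S p)) := by
      calc (1:ℝ) = Real.exp 1 * Real.exp (-1) := by rw [← Real.exp_add]; simp
        _ ≤ _ := mul_le_mul_of_nonneg_left h1 (Real.exp_pos _).le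
    have h3 : 0 ≤ G p * ‖hp k p‖ ^ 2 * p.2 := by
      have := hG0 p
      positivity
    calc G p * ‖hp k p‖ ^ 2 * p.2 = (G p * ‖hp k p‖ ^ 2 * p.2) * 1 := by ring
      _ ≤ (G p * ‖hp k p‖ ^ 2 * p.2) * (Real.exp 1 * Real.exp (-(ε⁻¹ * S p))) :=
        mul_le_mul_of_nonneg_left h2 h3
      _ = ε * Real.exp 1 * (-(ε⁻¹ * -G p) * Real.exp (-(ε⁻¹ * S p)) * ‖hp k p‖ ^ 2 * p.2) := by
        field_simp
  -- the kernel
  have hKm := E5_K_meas k hk
  set A : Set ((ℝ × ℝ) × (ℝ × ℝ)) :=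
    {r | 0 < r.1.2 ∧ (r.2.1 - r.1.1) ^ 2 + (r.2.2 - r.1.2) ^ 2 ≤ (r.1.2 / 2) ^ 2} with hA
  have hAm : MeasurableSet A := by
    have h1 : MeasurableSet {r : (ℝ × ℝ) × (ℝ × ℝ) | 0 < r.1.2} :=
      measurableSet_lt measurable_const (measurable_snd.comp measurable_fst)
    have h2 : MeasurableSet {r : (ℝ × ℝ) × (ℝ × ℝ) |
        (r.2.1 - r.1.1) ^ 2 + (r.2.2 - r.1.2) ^ 2 ≤ (r.1.2 / 2) ^ 2} :=
      measurableSet_le (by fun_prop) (by fun_prop)
    exact h1.inter h2
  set F : ℝ × ℝ → ℝ × ℝ → ENNReal := fun p q =>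
    A.indicator (fun r => ENNReal.ofReal (4 / (Real.pi * r.1.2 ^ 2) * M r.1) * E5_K k r.2) (p, q) with hF
  have hFm : Measurable (Function.uncurry F) := by
    have : Function.uncurry F = A.indicator (fun r => ENNReal.ofReal (4 / (Real.pi * r.1.2 ^ 2) * M r.1)
        * E5_K k r.2) := by
      ext ⟨p, q⟩
      rfl
    rw [this]
    refine Measurable.indicator ?_ hAm
    have h1 : Measurable (fun r : (ℝ × ℝ) × (ℝ × ℝ) => 4 / (Real.pi * r.1.2 ^ 2) * M r.1) := by
      fun_prop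
    exact (ENNReal.measurable_ofReal.comp h1).mul (hKm.comp measurable_snd)
  have hKper : ∀ q : ℝ × ℝ, E5_K k (q.1 + 2 * Real.pi, q.2) = E5_K k q := by
    intro q
    unfold E5_K
    by_cases h : q ∈ HP
    · have h' : (q.1 + 2 * Real.pi, q.2) ∈ HP := h
      rw [Set.indicator_of_mem h, Set.indicator_of_mem h', hp_per]
    · have h' : (q.1 + 2 * Real.pi, q.2) ∉ HP := h
      rw [Set.indicator_of_notMem h, Set.indicator_of_notMem h']
  have hFper : ∀ p q : ℝ × ℝ, F (p.1 + 2 * Real.pi, p.2) (q.1 + 2 * Real.pi, q.2) = F p q := by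
    intro p q
    simp only [hF]
    have hiff : ((p.1 + 2 * Real.pi, p.2), (q.1 + 2 * Real.pi, q.2)) ∈ A ↔ (p, q) ∈ A := by
      simp only [hA, Set.mem_ofPred_eq]
      have : q.1 + 2 * Real.pi - (p.1 + 2 * Real.pi) = q.1 - p.1 := by ring
      rw [this]
    by_cases h : (p, q) ∈ A
    · rw [Set.indicator_of_mem h, Set.indicator_of_mem (hiff.2 h)]
      simp only
      rw [hper p, hKper q]
    · rw [Set.indicator_of_notMem h, Set.indicator_of_notMem (fun h' => h (hiff.1 h'))]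
  have hunf := E5_unf F hFm hFper
  -- lower bound
  have hlow : ∫⁻ p in ST, ENNReal.ofReal (M p * ‖hp k p‖ ^ 2) ≤ ∫⁻ p in E5_SS, ∫⁻ q, F p q := by
    have hsub : ST ⊆ E5_SS := fun p hp => ⟨hp.1, trivial⟩
    refine le_trans ?_ (lintegral_mono_set hsub)
    refine setLIntegral_mono' E5_ST_meas fun p hpS => ?_
    have hp2 : 0 < p.2 := hpS.2
    have hdisc := E5_disc k hk p hp2 (fun q => {q : ℝ × ℝ | (p, q) ∈ A}.indicator (E5_K k) q) (by
      intro q hq
      have hqA : (p, q) ∈ A := ⟨hp2, hq⟩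
      have hqH : q ∈ HP := by
        show 0 < q.2
        have h1 : (q.2 - p.2) ^ 2 ≤ (p.2 / 2) ^ 2 := by nlinarith [sq_nonneg (q.1 - p.1)]
        have h2 := abs_le_of_sq_le_sq h1 (by positivity)
        linarith [(abs_le.1 h2).1]
      rw [Set.indicator_of_mem (show q ∈ {q : ℝ × ℝ | (p, q) ∈ A} from hqA)]
      unfold E5_K
      rw [Set.indicator_of_mem hqH]) (hKm.indicator (measurable_prodMk_left hAm))
    have hFeq : ∀ q, F p q = ENNReal.ofReal (4 / (Real.pi * p.2 ^ 2) * M p) *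
        {q : ℝ × ℝ | (p, q) ∈ A}.indicator (E5_K k) q := by
      intro q
      simp only [hF]
      by_cases h : (p, q) ∈ A
      · rw [Set.indicator_of_mem h, Set.indicator_of_mem (show q ∈ {q : ℝ × ℝ | (p, q) ∈ A} from h)]
      · rw [Set.indicator_of_notMem h, Set.indicator_of_notMem (show q ∉ {q : ℝ × ℝ | (p, q) ∈ A} from h),
          mul_zero]
    simp_rw [hFeq]
    rw [lintegral_const_mul' _ _ ENNReal.ofReal_ne_top]
    refine le_trans ?_ (mul_le_mul_right hdisc _)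
    rw [← ENNReal.ofReal_mul (mul_nonneg (by positivity) (hM0 p))]
    apply ENNReal.ofReal_le_ofReal
    apply le_of_eq
    field_simp
  -- upper bound
  have hup : ∫⁻ q in E5_SS, ∫⁻ p, F p q ≤
      ENNReal.ofReal 6.4 * ∫⁻ p in ST, ENNReal.ofReal (G p * ‖hp k p‖ ^ 2 * p.2) := by
    rw [← lintegral_const_mul' _ _ ENNReal.ofReal_ne_top]
    have hST : ST = HP ∩ E5_SS := by
      ext p
      simp only [ST, E5_SS, HP, Set.mem_ofPred_eq, Set.mem_inter_iff, Set.mem_prod, Set.mem_univ, and_true]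
      exact and_comm
    rw [hST, ← setLIntegral_indicator E5_HP_meas]
    refine lintegral_mono fun q => ?_
    by_cases hq : q ∈ HP
    · rw [Set.indicator_of_mem hq]
      have hq2 : 0 < q.2 := hq
      have hFle : ∀ p, F p q ≤ HP.indicator (fun p : ℝ × ℝ => ENNReal.ofReal
          (6.4 * q.2 * ‖hp k q‖ ^ 2 * (M p * (16 * p.2 / ((p.1 - q.1) ^ 2 + (p.2 + q.2) ^ 2) ^ 2)))) p := by
        intro p
        simp only [hF]
        by_cases h : (p, q) ∈ A
        · rw [Set.indicator_of_mem h]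
          have hp2 : 0 < p.2 := h.1
          have hd : (q.1 - p.1) ^ 2 + (q.2 - p.2) ^ 2 ≤ (p.2 / 2) ^ 2 := h.2
          rw [Set.indicator_of_mem (show p ∈ HP from hp2)]
          simp only
          unfold E5_K
          rw [Set.indicator_of_mem hq, ← ENNReal.ofReal_mul (mul_nonneg (by positivity) (hM0 p))]
          apply ENNReal.ofReal_le_ofReal
          have hy1 : p.2 / 2 ≤ q.2 := by
            have h1 : (q.2 - p.2) ^ 2 ≤ (p.2 / 2) ^ 2 := by nlinarith [sq_nonneg (q.1 - p.1)]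
            have h2 := abs_le_of_sq_le_sq h1 (by positivity)
            linarith [(abs_le.1 h2).1]
          have hy2 : q.2 ≤ 3 / 2 * p.2 := by
            have h1 : (q.2 - p.2) ^ 2 ≤ (p.2 / 2) ^ 2 := by nlinarith [sq_nonneg (q.1 - p.1)]
            have h2 := abs_le_of_sq_le_sq h1 (by positivity)
            linarith [(abs_le.1 h2).2]
          have hD : (p.1 - q.1) ^ 2 + (p.2 + q.2) ^ 2 ≤ 25 / 4 * p.2 ^ 2 := by
            nlinarith [sq_nonneg (q.1 - p.1)]
          have hD0 : 0 < (p.1 - q.1) ^ 2 + (p.2 + q.2) ^ 2 := by positivity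
          have hD2 : ((p.1 - q.1) ^ 2 + (p.2 + q.2) ^ 2) ^ 2 ≤ 625 / 16 * p.2 ^ 4 := by
            calc ((p.1 - q.1) ^ 2 + (p.2 + q.2) ^ 2) ^ 2 ≤ (25 / 4 * p.2 ^ 2) ^ 2 :=
                  pow_le_pow_left₀ hD0.le hD 2
              _ = _ := by ring
          have hkey : 4 / (Real.pi * p.2 ^ 2) ≤
              6.4 * q.2 * (16 * p.2 / ((p.1 - q.1) ^ 2 + (p.2 + q.2) ^ 2) ^ 2) := by
            calc 4 / (Real.pi * p.2 ^ 2) ≤ 4 / (3.125 * p.2 ^ 2) := by
                  apply div_le_div_of_nonneg_left (by norm_num) (by positivity)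
                  have := Real.pi_gt_d2
                  have : (3.125:ℝ) ≤ Real.pi := by linarith
                  exact mul_le_mul_of_nonneg_right this (by positivity)
              _ ≤ 6.4 * (p.2 / 2) * (16 * p.2 / (625 / 16 * p.2 ^ 4)) := by
                  apply le_of_sub_nonneg
                  have : 6.4 * (p.2 / 2) * (16 * p.2 / (625 / 16 * p.2 ^ 4)) - 4 / (3.125 * p.2 ^ 2)
                      = (0.0307 + 0.00002) / p.2 ^ 2 := by
                    field_simp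
                    norm_num
                  rw [this]
                  positivity
              _ ≤ _ := by
                  gcongr
          calc 4 / (Real.pi * p.2 ^ 2) * M p * ‖hp k q‖ ^ 2
              ≤ 6.4 * q.2 * (16 * p.2 / ((p.1 - q.1) ^ 2 + (p.2 + q.2) ^ 2) ^ 2) * M p * ‖hp k q‖ ^ 2 := by
                have := hM0 p
                gcongr
            _ = _ := by ring
        · rw [Set.indicator_of_notMem h]
          exact bot_le
      refine (lintegral_mono hFle).trans ?_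
      rw [lintegral_indicator E5_HP_meas]
      have h0 : ∀ p : ℝ × ℝ, ENNReal.ofReal
          (6.4 * q.2 * ‖hp k q‖ ^ 2 * (M p * (16 * p.2 / ((p.1 - q.1) ^ 2 + (p.2 + q.2) ^ 2) ^ 2)))
          = ENNReal.ofReal (6.4 * q.2 * ‖hp k q‖ ^ 2) *
            ENNReal.ofReal (M p * (16 * p.2 / ((p.1 - q.1) ^ 2 + (p.2 + q.2) ^ 2) ^ 2)) := fun p =>
        ENNReal.ofReal_mul (by positivity)
      simp_rw [h0]
      rw [lintegral_const_mul' _ _ ENNReal.ofReal_ne_top,
        ← ofReal_integral_eq_lintegral_ofReal (hE q hq2).2.1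
        ((ae_restrict_iff' E5_HP_meas).2 (Filter.Eventually.of_forall fun p hpp => by
          have : 0 < p.2 := hpp
          exact mul_nonneg (hM0 p) (by positivity)))]
      rw [← ENNReal.ofReal_mul (by positivity), ← ENNReal.ofReal_mul (by norm_num)]
      apply ENNReal.ofReal_le_ofReal
      apply le_of_eq
      simp only [hGdef]
      ring
    · rw [Set.indicator_of_notMem hq]
      have hz : ∀ p, F p q = 0 := by
        intro p
        simp only [hF]
        by_cases h : (p, q) ∈ A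
        · rw [Set.indicator_of_mem h]
          simp only
          unfold E5_K
          rw [Set.indicator_of_notMem hq, mul_zero]
        · rw [Set.indicator_of_notMem h]
      simp_rw [hz]
      simp
  refine hlow.trans (hunf.le.trans (hup.trans ?_))
  refine (mul_le_mul_right hU2 _).trans ?_
  rw [← ENNReal.ofReal_mul (by norm_num)]
  apply ENNReal.ofReal_le_ofReal
  have he : Real.exp 1 < 2.7182818286 := Real.exp_one_lt_d9
  have h1 : 0 ≤ ε * J := mul_nonneg hε.le hJ0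
  nlinarith

/-- **(E5)** Embedding from the potential bound: if `∬_{HP} M q_z ≤ ε` for all `z` in the upper half plane then
`∬_{ST} M |k|² ≤ 18 ε ∫_0^{2π} |k|²`.

Proof: `ε > 0` wlog (replace `ε` by `ε + t`, `t → 0`).  `S` = potential, `0 ≤ S ≤ ε`.  `Uch` for `S/ε`:
`∬_{ST} (-ΔS/ε) e^{-1} |k|² y ≤ ∫|k|²`, so `∬_{ST} (-ΔS)|k|² y ≤ e ε ∫ |k|²`.
Sub-mean value property: `|k(ζ)|² ≤ 4/(πη²) ∬_{B(ζ,η/2)} |k|²` (`ζ ↦ hp k ζ` is analytic on `y>0`; mean value over
the disc, Cauchy-Schwarz).  With Tonelli and periodicity (unfolding `ζ ∈ ST, z ∈ ℝ²` to `ζ ∈ ℝ², z ∈ ST`)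
`∬_{ST} M|k|² ≤ ∬_{z ∈ ST} |k(z)|² [∬_{ζ∈HP, |ζ-z|≤η/2} (4/(πη²)) M(ζ) dζ] dz`, and for `|z-ζ| ≤ η/2`:
`y_z ≥ η/2`, `|z - conj ζ| ≤ 5η/2`, `y_z·16η/|z-conj ζ|⁴ ≥ 8η²·16/(625 η⁴)… = 128/(625 η²)·1 ≥ 0.2/η²`, while
`4/(πη²) ≤ 1.28/η²`; so `[…] ≤ 6.4 y_z (-ΔS(z))`; `6.4 e ≤ 18`. -/
theorem E5 (M : ℝ × ℝ → ℝ) (hM : Measurable M) (B Y : ℝ) (hM0 : ∀ p, 0 ≤ M p) (hMB : ∀ p, M p ≤ B)
    (hMY : ∀ p : ℝ × ℝ, Y ≤ p.2 → M p = 0)
    (hper : ∀ p : ℝ × ℝ, M (p.1 + 2 * Real.pi, p.2) = M p) (ε : ℝ) (hε : 0 ≤ ε)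
    (hS : ∀ z : ℝ × ℝ, 0 < z.2 →
      ∫⁻ p in HP, ENNReal.ofReal (M p * qk z p) ≤ ENNReal.ofReal ε)
    (k : ℂ → ℂ) (hkc : ContinuousOn k (Metric.closedBall 0 1))
    (hk : DifferentiableOn ℂ k (Metric.ball 0 1)) :
    ∫⁻ p in ST, ENNReal.ofReal (M p * ‖hp k p‖ ^ 2)
      ≤ ENNReal.ofReal (18 * ε * ∫ x in Set.Ioc 0 (2 * Real.pi), ‖k (E (x, 0))‖ ^ 2) := by
  have h1 : ∀ t : ℝ, 0 < t → ∫⁻ p in ST, ENNReal.ofReal (M p * ‖hp k p‖ ^ 2)
      ≤ ENNReal.ofReal (18 * (ε + t) * ∫ x in Set.Ioc 0 (2 * Real.pi), ‖k (E (x, 0))‖ ^ 2) :=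
    fun t ht => E5_pos M hM B Y hM0 hMB hMY hper (ε + t) (by linarith)
      (fun z hz => (hS z hz).trans (ENNReal.ofReal_le_ofReal (by linarith))) k hkc hk
  have h2 : Tendsto (fun t : ℝ => ENNReal.ofReal
      (18 * (ε + t) * ∫ x in Set.Ioc 0 (2 * Real.pi), ‖k (E (x, 0))‖ ^ 2)) (𝓝[>] 0)
      (𝓝 (ENNReal.ofReal (18 * ε * ∫ x in Set.Ioc 0 (2 * Real.pi), ‖k (E (x, 0))‖ ^ 2))) := by
    have h3 : Continuous (fun t : ℝ => ENNReal.ofReal
      (18 * (ε + t) * ∫ x in Set.Ioc 0 (2 * Real.pi), ‖k (E (x, 0))‖ ^ 2)) := by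
      apply ENNReal.continuous_ofReal.comp
      fun_prop
    have h4 := (h3.tendsto 0).mono_left (nhdsWithin_le_nhds (s := Set.Ioi (0:ℝ)))
    simpa using h4
  refine ge_of_tendsto h2 ?_
  filter_upwards [self_mem_nhdsWithin] with t ht using h1 t ht

end Pool.H14.SR
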