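import Pool.Agent.H14.SR.Basic
import Pool.Agent.H14.SR.DU
import Pool.Agent.H14.SR.A1
import Pool.Agent.H14.SR.A2
import Pool.Agent.H14.SR.HM
import Pool.Agent.H14.SR.HP4
open MeasureTheory Set Filter Topology
noncomputable section
namespace Pool.H14.SR

theorem td_coef_smul (c : ℂ) (f : ℝ → ℂ) (n : ℕ) :
    coef (fun x => c * f x) n = c * coef f n := by
  unfold coef
  have : ∀ x : ℝ, Complex.exp (-((n : ℂ) * Complex.I * (x : ℂ))) * (c * f x)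
      = c * (Complex.exp (-((n : ℂ) * Complex.I * (x : ℂ))) * f x) := by
    intro x; ring
  simp_rw [this]
  rw [integral_const_mul]
  ring

theorem td_ext_smul (c : ℂ) (f : ℝ → ℂ) (z : ℂ) :
    ext (fun x => c * f x) z = c * ext f z := by
  unfold ext
  simp_rw [td_coef_smul]
  rw [← tsum_mul_left]
  congr 1
  funext n
  ring

theorem td_Hinf_pow {f : ℝ → ℂ} (hf : Hinf f) (n : ℕ) : Hinf (fun x => f x ^ n) := by
  induction n with
  | zero => simpa using Hinf_const 1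
  | succ n ih =>
    simp_rw [pow_succ]
    exact ih.mul hf

theorem td_ext_one (z : ℂ) : ext (fun _ => (1 : ℂ)) z = 1 := by
  have hc : ∀ n : ℕ, coef (fun _ => (1 : ℂ)) n = if n = 0 then 1 else 0 := by
    intro n
    unfold coef
    rcases Nat.eq_zero_or_pos n with h | h
    · subst h
      simp only [Nat.cast_zero, zero_mul, neg_zero, Complex.exp_zero, mul_one, if_true]
      rw [setIntegral_const]
      have hpi : (0 : ℝ) < 2 * Real.pi := by positivity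
      rw [Measure.real, Real.volume_Ioc, ENNReal.toReal_ofReal (by linarith)]
      simp only [sub_zero]
      have hpi' : (Real.pi : ℂ) ≠ 0 := by exact_mod_cast Real.pi_ne_zero
      rw [Complex.real_smul]
      push_cast
      field_simp
    · rw [if_neg (Nat.pos_iff_ne_zero.1 h)]
      have hn : (n : ℂ) ≠ 0 := by exact_mod_cast (Nat.pos_iff_ne_zero.1 h)
      have hpi : (0 : ℝ) ≤ 2 * Real.pi := by positivity
      rw [← intervalIntegral.integral_of_le hpi]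
      have hne : -((n : ℂ) * Complex.I) ≠ 0 := by
        simp [hn, Complex.I_ne_zero]
      have h1 : ∀ x : ℝ, Complex.exp (-((n : ℂ) * Complex.I * (x : ℂ))) * 1
          = Complex.exp (-((n : ℂ) * Complex.I) * (x : ℂ)) := by
        intro x; rw [mul_one]; congr 1; ring
      simp_rw [h1]
      rw [integral_exp_mul_complex hne]
      have h2 : -((n : ℂ) * Complex.I) * ((2 * Real.pi : ℝ) : ℂ)
          = ((-(n : ℤ) : ℤ) : ℂ) * (2 * Real.pi * Complex.I) := by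
        push_cast; ring
      rw [h2, Complex.exp_int_mul_two_pi_mul_I]
      simp
  unfold ext
  simp_rw [hc]
  rw [tsum_eq_single 0]
  · simp
  · intro n hn
    simp [hn]

theorem td_ext_pow (f : ℝ → ℂ) (hf : Hinf f) (n : ℕ) :
    ∀ z ∈ Metric.ball (0 : ℂ) 1, ext (fun x => f x ^ n) z = ext f z ^ n := by
  induction n with
  | zero => intro z _; simpa using td_ext_one z
  | succ n ih =>
    intro z hz
    simp_rw [pow_succ]
    rw [ext_mul _ _ (td_Hinf_pow hf n) hf z hz, ih z hz]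

variable {D : Set (ℝ → ℂ)}

theorem td_QDA_const (hD : Doug D) (c : ℂ) : QDA D (fun _ => c) := by
  refine ⟨⟨hD.const c, ?_⟩, (Hinf_const c).ha⟩
  exact hD.const _

theorem td_QDA_pow (hD : Doug D) {f : ℝ → ℂ} (hf : QDA D f) (n : ℕ) :
    QDA D (fun x => f x ^ n) := by
  induction n with
  | zero => simpa using td_QDA_const hD 1
  | succ n ih =>
    simp_rw [pow_succ]
    exact ih.mul hD hf

/-- tail bound for the exponential series, uniform on `[0,t]`. -/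
theorem td_tail (t η : ℝ) (hη : 0 < η) :
    ∃ n : ℕ, ∀ s : ℝ, 0 ≤ s → s ≤ t →
      1 - η ≤ Real.exp (-s) * ∑ i ∈ Finset.range n, s ^ i / (i.factorial : ℝ) := by
  have h0 : Tendsto (fun n : ℕ => t ^ n / (n.factorial : ℝ) * 2) atTop (𝓝 (0 * 2)) :=
    (FloorSemiring.tendsto_pow_div_factorial_atTop t).mul_const 2
  rw [zero_mul] at h0
  have h1 : ∀ᶠ n : ℕ in atTop, t ^ n / (n.factorial : ℝ) * 2 < η :=
    h0.eventually (gt_mem_nhds hη)
  have h2 : ∀ᶠ n : ℕ in atTop, 2 * t ≤ n := by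
    obtain ⟨N, hN⟩ := exists_nat_ge (2 * t)
    filter_upwards [eventually_ge_atTop N] with n hn
    exact hN.trans (by exact_mod_cast hn)
  obtain ⟨n, hn1, hn2⟩ := (h1.and h2).exists
  refine ⟨n, fun s hs hst => ?_⟩
  have hb := Complex.exp_bound' (x := (s : ℂ)) (n := n) (by
    rw [Complex.norm_real, Real.norm_eq_abs, abs_of_nonneg hs]
    rw [div_le_iff₀ (by positivity)]
    push_cast
    linarith)
  have hb2 : ‖Complex.exp (s : ℂ) - ∑ m ∈ Finset.range n, (s : ℂ) ^ m / (m.factorial : ℂ)‖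
      = |Real.exp s - ∑ m ∈ Finset.range n, s ^ m / (m.factorial : ℝ)| := by
    rw [← Real.norm_eq_abs, ← Complex.norm_real]
    push_cast
    rfl
  rw [hb2, Complex.norm_real, Real.norm_eq_abs, abs_of_nonneg hs] at hb
  have hb3 : s ^ n / (n.factorial : ℝ) * 2 ≤ t ^ n / (n.factorial : ℝ) * 2 := by
    gcongr
  have hb4 := (abs_le.1 (hb.trans hb3)).2
  have hE : Real.exp (-s) * Real.exp s = 1 := by rw [← Real.exp_add]; simp
  have hE1 : Real.exp (-s) ≤ 1 := Real.exp_le_one_iff.2 (by linarith)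
  have hE0 : 0 < Real.exp (-s) := Real.exp_pos _
  have : Real.exp (-s) * (Real.exp s - η) ≤
      Real.exp (-s) * ∑ i ∈ Finset.range n, s ^ i / (i.factorial : ℝ) :=
    mul_le_mul_of_nonneg_left (by linarith) hE0.le
  nlinarith

theorem td_head (n : ℕ) (s : ℝ) (hs : 0 ≤ s) :
    Real.exp (-s) * ∑ i ∈ Finset.range n, s ^ i / (i.factorial : ℝ) ≤ 1 := by
  have h := Real.sum_le_exp_of_nonneg hs n
  have hE : Real.exp (-s) * Real.exp s = 1 := by rw [← Real.exp_add]; simp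
  have := mul_le_mul_of_nonneg_left h (Real.exp_pos (-s)).le
  linarith

/-- the weights -/
def tdc (t : ℝ) (i j : ℕ) : ℂ :=
  ((Real.sqrt t ^ (i + j) / Real.sqrt ((i.factorial : ℝ) * (j.factorial : ℝ)) : ℝ) : ℂ)

theorem tdc_norm_sq (t : ℝ) (ht : 0 ≤ t) (i j : ℕ) (u v : ℂ) :
    ‖tdc t i j * (u ^ i * v ^ j)‖ ^ 2
      = ((t * ‖u‖ ^ 2) ^ i / (i.factorial : ℝ)) * ((t * ‖v‖ ^ 2) ^ j / (j.factorial : ℝ)) := by
  unfold tdc
  rw [norm_mul, norm_mul, norm_pow, norm_pow, Complex.norm_real, Real.norm_eq_abs, mul_pow,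
    sq_abs, div_pow, Real.sq_sqrt (by positivity), ← pow_mul, mul_comm (i + j) 2, pow_mul,
    Real.sq_sqrt ht]
  rw [mul_pow, mul_pow, mul_pow, pow_add, ← pow_mul, ← pow_mul, ← pow_mul, ← pow_mul,
    mul_comm i 2, mul_comm j 2]
  field_simp

/-- The sum over the product index set. -/
theorem td_sum (t : ℝ) (ht : 0 ≤ t) (n : ℕ) (u v κ : ℂ) :
    ∑ l : Fin (n * n), ‖κ * (tdc t (finProdFinEquiv.symm l).1 (finProdFinEquiv.symm l).2 *
        (u ^ ((finProdFinEquiv.symm l).1 : ℕ) * v ^ ((finProdFinEquiv.symm l).2 : ℕ)))‖ ^ 2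
      = ‖κ‖ ^ 2 * ((∑ i ∈ Finset.range n, (t * ‖u‖ ^ 2) ^ i / (i.factorial : ℝ)) *
          ∑ j ∈ Finset.range n, (t * ‖v‖ ^ 2) ^ j / (j.factorial : ℝ)) := by
  have h1 : ∀ l : Fin (n * n), ‖κ * (tdc t (finProdFinEquiv.symm l).1 (finProdFinEquiv.symm l).2 *
        (u ^ ((finProdFinEquiv.symm l).1 : ℕ) * v ^ ((finProdFinEquiv.symm l).2 : ℕ)))‖ ^ 2
      = ‖κ‖ ^ 2 * (((t * ‖u‖ ^ 2) ^ ((finProdFinEquiv.symm l).1 : ℕ) /
          (((finProdFinEquiv.symm l).1 : ℕ).factorial : ℝ)) *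
          ((t * ‖v‖ ^ 2) ^ ((finProdFinEquiv.symm l).2 : ℕ) /
          (((finProdFinEquiv.symm l).2 : ℕ).factorial : ℝ))) := by
    intro l
    rw [norm_mul, mul_pow, tdc_norm_sq t ht]
  simp_rw [h1]
  rw [← Finset.mul_sum]
  congr 1
  rw [← Fin.sum_univ_eq_sum_range (fun i => (t * ‖u‖ ^ 2) ^ i / (i.factorial : ℝ)) n,
    ← Fin.sum_univ_eq_sum_range (fun i => (t * ‖v‖ ^ 2) ^ i / (i.factorial : ℝ)) n]
  rw [Finset.sum_mul_sum, ← Finset.sum_product']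
  rw [Equiv.sum_comp (finProdFinEquiv (m := n) (n := n)).symm (fun q : Fin n × Fin n =>
    ((t * ‖u‖ ^ 2) ^ (q.1 : ℕ) / ((q.1 : ℕ).factorial : ℝ)) *
      ((t * ‖v‖ ^ 2) ^ (q.2 : ℕ) / ((q.2 : ℕ).factorial : ℝ)))]
  rfl

theorem td_QD_finsum (hD : Doug D) {N : ℕ} (f : Fin N → ℝ → ℂ) (hf : ∀ i, f i ∈ D)
    (s : Finset (Fin N)) : (fun x => ∑ i ∈ s, f i x) ∈ D := by
  classical
  induction s using Finset.induction_on with
  | empty => simpa using hD.const 0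
  | insert i s hi ih =>
    have := hD.add _ (hf i) _ ih
    convert this using 1
    funext x
    rw [Finset.sum_insert hi]
    rfl

/-- Cauchy-Schwarz for `∑ conj(K) y`. -/
theorem td_cs {N : ℕ} (K y : Fin N → ℂ) (C : ℝ) (hC : 0 ≤ C) (hK : ∑ i, ‖K i‖ ^ 2 ≤ 1)
    (hy : ∑ i, ‖y i‖ ^ 2 ≤ C ^ 2) : ‖∑ i, starRingEnd ℂ (K i) * y i‖ ≤ C := by
  have h1 : ‖∑ i, starRingEnd ℂ (K i) * y i‖ ≤ ∑ i, ‖K i‖ * ‖y i‖ := by
    refine (norm_sum_le _ _).trans (Finset.sum_le_sum fun i _ => ?_)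
    rw [norm_mul, RCLike.norm_conj]
  have h2 : (∑ i, ‖K i‖ * ‖y i‖) ^ 2 ≤ (∑ i, ‖K i‖ ^ 2) * ∑ i, ‖y i‖ ^ 2 :=
    Finset.sum_mul_sq_le_sq_mul_sq _ _ _
  have h3 : 0 ≤ ∑ i, ‖K i‖ * ‖y i‖ := Finset.sum_nonneg fun i _ => by positivity
  have h4 : (∑ i, ‖K i‖ ^ 2) * ∑ i, ‖y i‖ ^ 2 ≤ 1 * C ^ 2 := by
    apply mul_le_mul hK hy (Finset.sum_nonneg fun i _ => by positivity) zero_le_one
  have h5 : ∑ i, ‖K i‖ * ‖y i‖ ≤ C := by
    apply le_of_sq_le_sq _ hC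
    linarith
  exact h1.trans h5

/-- The kernel family `K`. -/
def tdK (t : ℝ) (n : ℕ) (a b F : ℝ → ℂ) (l : Fin (n * n)) (x : ℝ) : ℂ :=
  Complex.exp (-((t : ℂ) / 2) * F x) *
    (tdc t (finProdFinEquiv.symm l).1 (finProdFinEquiv.symm l).2 *
      (a x ^ ((finProdFinEquiv.symm l).1 : ℕ) * b x ^ ((finProdFinEquiv.symm l).2 : ℕ)))

theorem td_k_QDA (hD : Doug D) (a b F : ℝ → ℂ) (ha : QDA D a) (hb : QDA D b)
    (ha1 : BD a 1) (hb1 : BD b 1) (hF : Htwo F)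
    (hFre : ∀ᵐ x ∂mu, (F x).re = ‖a x‖ ^ 2 + ‖b x‖ ^ 2) (t : ℝ) (ht : 0 ≤ t) :
    QDA D (fun x => Complex.exp (-((t : ℂ) / 2) * F x)) ∧
      ∀ z ∈ Metric.ball (0 : ℂ) 1, ext (fun x => Complex.exp (-((t : ℂ) / 2) * F x)) z
        = Complex.exp (-((t : ℂ) / 2) * ext F z) := by
  have hre : ∀ᵐ x ∂mu, 0 ≤ (F x).re ∧ (F x).re ≤ 2 := by
    unfold BD at ha1 hb1
    filter_upwards [hFre, ha1, hb1] with x h1 h2 h3
    rw [h1]
    have h4 : ‖a x‖ ^ 2 ≤ 1 := by nlinarith [norm_nonneg (a x)]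
    have h5 : ‖b x‖ ^ 2 ≤ 1 := by nlinarith [norm_nonneg (b x)]
    constructor
    · positivity
    · linarith
  have hre1 : ∀ x, (-((t : ℂ) / 2) * F x).re = -(t / 2) * (F x).re := by
    intro x
    have : -((t : ℂ) / 2) = ((-(t / 2) : ℝ) : ℂ) := by push_cast; ring
    rw [this, Complex.re_ofReal_mul]
  have hre2 : ∀ x, (((t : ℂ) / 2) * F x).re = (t / 2) * (F x).re := by
    intro x
    have : ((t : ℂ) / 2) = ((t / 2 : ℝ) : ℂ) := by push_cast; ring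
    rw [this, Complex.re_ofReal_mul]
  have hV := hF.smul (-((t : ℂ) / 2))
  have hV' := hF.smul ((t : ℂ) / 2)
  obtain ⟨hk, hke⟩ := ext_exp _ hV (-t) 0 (by
    filter_upwards [hre] with x hx
    rw [hre1]
    constructor <;> nlinarith)
  obtain ⟨hk', -⟩ := ext_exp _ hV' 0 t (by
    filter_upwards [hre] with x hx
    rw [hre2]
    constructor <;> nlinarith)
  refine ⟨?_, ?_⟩
  · refine (A2 hD _ _ hk hk' ?_ ?_).1
    · filter_upwards with x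
      rw [← Complex.exp_add]
      have : -((t : ℂ) / 2) * F x + ((t : ℂ) / 2) * F x = 0 := by ring
      rw [this, Complex.exp_zero]
    · have h1 := hD.fc_norm a ha.1 (fun s => Real.exp (-(t / 2) * s ^ 2)) (by fun_prop)
      have h2 := hD.fc_norm b hb.1 (fun s => Real.exp (-(t / 2) * s ^ 2)) (by fun_prop)
      refine hD.ae _ (hD.mul _ h1 _ h2) _ ?_
      filter_upwards [hFre] with x hx
      rw [Pi.mul_apply, Complex.norm_exp, hre1, hx, ← Complex.ofReal_mul, ← Real.exp_add]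
      congr 2
      ring
  · intro z hz
    rw [hke z hz, td_ext_smul]

theorem tdK_QDA (hD : Doug D) (a b F : ℝ → ℂ) (ha : QDA D a) (hb : QDA D b)
    (ha1 : BD a 1) (hb1 : BD b 1) (hF : Htwo F)
    (hFre : ∀ᵐ x ∂mu, (F x).re = ‖a x‖ ^ 2 + ‖b x‖ ^ 2) (t : ℝ) (ht : 0 ≤ t) (n : ℕ)
    (l : Fin (n * n)) : QDA D (tdK t n a b F l) := by
  have h := (td_k_QDA hD a b F ha hb ha1 hb1 hF hFre t ht).1
  exact h.mul hD ((td_QDA_const hD _).mul hD ((td_QDA_pow hD ha _).mul hD (td_QDA_pow hD hb _)))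

theorem tdK_ext (hD : Doug D) (a b F : ℝ → ℂ) (ha : QDA D a) (hb : QDA D b)
    (ha1 : BD a 1) (hb1 : BD b 1) (hF : Htwo F)
    (hFre : ∀ᵐ x ∂mu, (F x).re = ‖a x‖ ^ 2 + ‖b x‖ ^ 2) (t : ℝ) (ht : 0 ≤ t) (n : ℕ)
    (l : Fin (n * n)) (z : ℂ) (hz : z ∈ Metric.ball (0 : ℂ) 1) :
    ext (tdK t n a b F l) z = Complex.exp (-((t : ℂ) / 2) * ext F z) *
      (tdc t (finProdFinEquiv.symm l).1 (finProdFinEquiv.symm l).2 *
        (ext a z ^ ((finProdFinEquiv.symm l).1 : ℕ) *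
          ext b z ^ ((finProdFinEquiv.symm l).2 : ℕ))) := by
  obtain ⟨h, he⟩ := td_k_QDA hD a b F ha hb ha1 hb1 hF hFre t ht
  have ha' := QDA.hinf hD ha
  have hb' := QDA.hinf hD hb
  have hab := (td_Hinf_pow ha' ((finProdFinEquiv.symm l).1 : ℕ)).mul
    (td_Hinf_pow hb' ((finProdFinEquiv.symm l).2 : ℕ))
  unfold tdK
  rw [ext_mul _ _ (QDA.hinf hD h) (hab.smul _) z hz, he z hz, td_ext_smul,
    ext_mul _ _ (td_Hinf_pow ha' _) (td_Hinf_pow hb' _) z hz, td_ext_pow a ha' _ z hz,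
    td_ext_pow b hb' _ z hz]

theorem tdK_ball (hD : Doug D) (a b F : ℝ → ℂ) (ha : QDA D a) (hb : QDA D b)
    (ha1 : BD a 1) (hb1 : BD b 1) (hF : Htwo F)
    (hFre : ∀ᵐ x ∂mu, (F x).re = ‖a x‖ ^ 2 + ‖b x‖ ^ 2) (t : ℝ) (ht : 0 ≤ t) (n : ℕ)
    (z : ℂ) (hz : z ∈ Metric.ball (0 : ℂ) 1) :
    ∑ l, ‖ext (tdK t n a b F l) z‖ ^ 2
      ≤ Real.exp (-(t * OscD (ext a) (ext b) (ext F) z)) := by
  simp_rw [tdK_ext hD a b F ha hb ha1 hb1 hF hFre t ht n _ z hz]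
  rw [td_sum t ht]
  have hA := td_head n (t * ‖ext a z‖ ^ 2) (by positivity)
  have hB := td_head n (t * ‖ext b z‖ ^ 2) (by positivity)
  set SA := ∑ i ∈ Finset.range n, (t * ‖ext a z‖ ^ 2) ^ i / (i.factorial : ℝ) with hSA
  set SB := ∑ i ∈ Finset.range n, (t * ‖ext b z‖ ^ 2) ^ i / (i.factorial : ℝ) with hSB
  have hSA0 : 0 ≤ SA := Finset.sum_nonneg fun i _ => by positivity
  have hSB0 : 0 ≤ SB := Finset.sum_nonneg fun i _ => by positivity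
  have hk : ‖Complex.exp (-((t : ℂ) / 2) * ext F z)‖ ^ 2
      = Real.exp (-(t * OscD (ext a) (ext b) (ext F) z)) *
        (Real.exp (-(t * ‖ext a z‖ ^ 2)) * Real.exp (-(t * ‖ext b z‖ ^ 2))) := by
    have : -((t : ℂ) / 2) = ((-(t / 2) : ℝ) : ℂ) := by push_cast; ring
    rw [Complex.norm_exp, this, Complex.re_ofReal_mul, ← Real.exp_nat_mul, ← Real.exp_add,
      ← Real.exp_add]
    congr 1
    unfold OscD
    push_cast
    ring
  rw [hk]
  have hprod : (Real.exp (-(t * ‖ext a z‖ ^ 2)) * SA) * (Real.exp (-(t * ‖ext b z‖ ^ 2)) * SB)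
      ≤ 1 * 1 := mul_le_mul hA hB (by positivity) zero_le_one
  have hO := Real.exp_pos (-(t * OscD (ext a) (ext b) (ext F) z))
  calc Real.exp (-(t * OscD (ext a) (ext b) (ext F) z)) *
        (Real.exp (-(t * ‖ext a z‖ ^ 2)) * Real.exp (-(t * ‖ext b z‖ ^ 2))) * (SA * SB)
      = Real.exp (-(t * OscD (ext a) (ext b) (ext F) z)) *
        ((Real.exp (-(t * ‖ext a z‖ ^ 2)) * SA) * (Real.exp (-(t * ‖ext b z‖ ^ 2)) * SB)) := by
        ring
    _ ≤ Real.exp (-(t * OscD (ext a) (ext b) (ext F) z)) * (1 * 1) :=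
        mul_le_mul_of_nonneg_left hprod hO.le
    _ = _ := by ring

theorem tdK_circle (a b F : ℝ → ℂ) (ha1 : BD a 1) (hb1 : BD b 1)
    (hFre : ∀ᵐ x ∂mu, (F x).re = ‖a x‖ ^ 2 + ‖b x‖ ^ 2) (t : ℝ) (ht : 0 ≤ t) (n : ℕ) (η : ℝ)
    (hη0 : 0 ≤ η) (hη1 : η ≤ 1)
    (hn : ∀ s : ℝ, 0 ≤ s → s ≤ t →
      1 - η ≤ Real.exp (-s) * ∑ i ∈ Finset.range n, s ^ i / (i.factorial : ℝ)) :
    ∀ᵐ x ∂mu, 1 - 2 * η ≤ ∑ l, ‖tdK t n a b F l x‖ ^ 2 ∧ ∑ l, ‖tdK t n a b F l x‖ ^ 2 ≤ 1 := by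
  unfold BD at ha1 hb1
  filter_upwards [hFre, ha1, hb1] with x h1 h2 h3
  unfold tdK
  rw [td_sum t ht]
  have hA := td_head n (t * ‖a x‖ ^ 2) (by positivity)
  have hB := td_head n (t * ‖b x‖ ^ 2) (by positivity)
  have h4 : ‖a x‖ ^ 2 ≤ 1 := by nlinarith [norm_nonneg (a x)]
  have h5 : ‖b x‖ ^ 2 ≤ 1 := by nlinarith [norm_nonneg (b x)]
  have hA' := hn (t * ‖a x‖ ^ 2) (by positivity) (by nlinarith)
  have hB' := hn (t * ‖b x‖ ^ 2) (by positivity) (by nlinarith)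
  set SA := ∑ i ∈ Finset.range n, (t * ‖a x‖ ^ 2) ^ i / (i.factorial : ℝ) with hSA
  set SB := ∑ i ∈ Finset.range n, (t * ‖b x‖ ^ 2) ^ i / (i.factorial : ℝ) with hSB
  have hSA0 : 0 ≤ SA := Finset.sum_nonneg fun i _ => by positivity
  have hSB0 : 0 ≤ SB := Finset.sum_nonneg fun i _ => by positivity
  have hk : ‖Complex.exp (-((t : ℂ) / 2) * F x)‖ ^ 2
      = Real.exp (-(t * ‖a x‖ ^ 2)) * Real.exp (-(t * ‖b x‖ ^ 2)) := by
    have : -((t : ℂ) / 2) = ((-(t / 2) : ℝ) : ℂ) := by push_cast; ring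
    rw [Complex.norm_exp, this, Complex.re_ofReal_mul, ← Real.exp_nat_mul, ← Real.exp_add, h1]
    congr 1
    push_cast
    ring
  rw [hk]
  have he : Real.exp (-(t * ‖a x‖ ^ 2)) * Real.exp (-(t * ‖b x‖ ^ 2)) * (SA * SB)
      = (Real.exp (-(t * ‖a x‖ ^ 2)) * SA) * (Real.exp (-(t * ‖b x‖ ^ 2)) * SB) := by ring
  rw [he]
  set PA := Real.exp (-(t * ‖a x‖ ^ 2)) * SA
  set PB := Real.exp (-(t * ‖b x‖ ^ 2)) * SB
  have hPA : 0 ≤ PA := by positivity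
  have hPB : 0 ≤ PB := by positivity
  constructor
  · have : (1 - η) * (1 - η) ≤ PA * PB := mul_le_mul hA' hB' (by linarith) hPA
    nlinarith
  · nlinarith

/-- **(TD)** `w ∈ D`.  `D` a Douglas algebra, `a, b ∈ QDA`, `|a|,|b| ≤ 1`, `F ∈ H²`, `Re F = |a|²+|b|²`, `w ∈ L^∞` with the estimates of `TI`.

Proof: fix `t ≥ 1` and `n`; `k = e^{-tF/2}`, `K_{ij} = k (√t)^{i+j} a^i b^j/√(i! j!)`, `i, j < n`.  `k, 1/k ∈ H^∞` (`ext_exp`),
`|k| = exp(-t(|a|²+|b|²)/2) ∈ D` (`Doug.fc_norm`, products), so `k ∈ QDA` (`A2`), `K_{ij} ∈ QDA`.  In the disc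
(`ext_mul`, `ext_exp`) `Σ|ext K_ij|² ≤ e^{-t Re F}e^{t|a|²}e^{t|b|²} = e^{-tO}`.  `DU` with `v = wK`, `C = ε(t)` (use `max (ε t) 0`):
`G_ij ∈ H²` with `Σ|wK_ij - G_ij|² ≤ ε(t)²`, so `G_ij` is bounded, in `H^∞ ⊂ D`, and
`g := Σ conj(K_ij) G_ij ∈ D`, `|wΣ|K_ij|² - g| ≤ (Σ|K_ij|²)^{1/2} ε(t) ≤ ε(t)`.  On the circle
`1 ≥ Σ|K_ij|² = e^{-t(|a|²+|b|²)} (Σ_{i<n} (t|a|²)^i/i!)(Σ_{j<n}(t|b|²)^j/j!) ≥ 1 - η_n`, `η_n → 0` for fixed `t`
(`|a|,|b| ≤ 1`).  So `|w - g| ≤ ε(t) + Cη_n`; `Doug.approx`. -/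
theorem TD (D : Set (ℝ → ℂ)) (hD : Doug D) (a b F w : ℝ → ℂ) (ha : QDA D a) (hb : QDA D b)
    (ha1 : BD a 1) (hb1 : BD b 1) (hF : Htwo F)
    (hFre : ∀ᵐ x ∂mu, (F x).re = ‖a x‖ ^ 2 + ‖b x‖ ^ 2) (hw : MemLp w ⊤ mu)
    (ε : ℝ → ℝ) (hε : Tendsto ε atTop (𝓝 0))
    (hest : ∀ t : ℝ, 1 ≤ t → ∀ (N : ℕ) (K : Fin N → ℝ → ℂ), (∀ i, Hinf (K i)) →
          (∀ z ∈ Metric.ball (0 : ℂ) 1, ∑ i, ‖ext (K i) z‖ ^ 2
            ≤ Real.exp (-(t * OscD (ext a) (ext b) (ext F) z))) →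
          ∀ p : Fin N → Polynomial ℂ,
          ‖∫ x in Set.Ioc 0 (2 * Real.pi),
              ∑ i, w x * K i x * (E (x, 0) * (p i).eval (E (x, 0)))‖
            ≤ ε t * ∫ x in Set.Ioc 0 (2 * Real.pi),
                Real.sqrt (∑ i, ‖E (x, 0) * (p i).eval (E (x, 0))‖ ^ 2)) :
    w ∈ D := by
  obtain ⟨hwm, M, hM, hwM⟩ := memLp_top_iff.1 hw
  refine hD.approx w hwm ?_
  intro e he
  obtain ⟨t, ht1, hte⟩ : ∃ t : ℝ, 1 ≤ t ∧ ε t < e / 2 :=
    ((eventually_ge_atTop 1).and (hε.eventually (gt_mem_nhds (by positivity)))).exists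
  have ht0 : 0 ≤ t := by linarith
  set η : ℝ := min 1 (e / (4 * (M + 1))) with hηdef
  have hη0 : 0 < η := lt_min one_pos (by positivity)
  have hη1 : η ≤ 1 := min_le_left _ _
  have hηM : 2 * η * M ≤ e / 2 := by
    have h1 : η ≤ e / (4 * (M + 1)) := min_le_right _ _
    have h2 : η * (4 * (M + 1)) ≤ e := by
      rw [le_div_iff₀ (by positivity)] at h1
      exact h1
    nlinarith
  obtain ⟨n, hn⟩ := td_tail t η hη0
  set K := tdK t n a b F with hK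
  have hKQ : ∀ l, QDA D (K l) := tdK_QDA hD a b F ha hb ha1 hb1 hF hFre t ht0 n
  have hKH : ∀ l, Hinf (K l) := fun l => QDA.hinf hD (hKQ l)
  have hKball := tdK_ball hD a b F ha hb ha1 hb1 hF hFre t ht0 n
  have hKc := tdK_circle a b F ha1 hb1 hFre t ht0 n η hη0.le hη1 hn
  have hest' := hest t ht1 (n * n) K hKH hKball
  set C : ℝ := max (ε t) 0 with hC
  have hC0 : 0 ≤ C := le_max_right _ _
  have hCe : C ≤ e / 2 := max_le hte.le (by positivity)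
  have hv : ∀ l, MemLp (fun x => w x * K l x) ⊤ mu := by
    intro l
    obtain ⟨hm, B, hB, hKB⟩ := memLp_top_iff.1 (hKH l).mem
    refine memLp_top_iff.2 ⟨hwm.mul hm, M * B, by positivity, ?_⟩
    unfold BD at *
    filter_upwards [hwM, hKB] with x h1 h2
    rw [norm_mul]
    exact mul_le_mul h1 h2 (norm_nonneg _) hM
  obtain ⟨g, hg, hgC⟩ := DU (n * n) (fun x l => w x * K l x)
    (fun l => (hv l).mono_exponent le_top) C hC0 (by
      intro p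
      refine (hest' p).trans ?_
      exact mul_le_mul_of_nonneg_right (le_max_left _ _)
        (integral_nonneg fun x => Real.sqrt_nonneg _))
  have hgH : ∀ l, Hinf (fun x => g x l) := by
    intro l
    obtain ⟨hm, B, hB, hvB⟩ := memLp_top_iff.1 (hv l)
    refine ⟨memLp_top_iff.2 ⟨(hg l).mem.1, B + C, by positivity, ?_⟩, (hg l).ha⟩
    unfold BD at *
    filter_upwards [hvB, hgC] with x h1 h2
    have h3 : ‖w x * K l x - g x l‖ ^ 2 ≤ C ^ 2 :=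
      (Finset.single_le_sum (f := fun i => ‖w x * K i x - g x i‖ ^ 2)
        (fun i _ => by positivity) (Finset.mem_univ l)).trans h2
    have h4 : ‖w x * K l x - g x l‖ ≤ C := le_of_sq_le_sq h3 hC0
    calc ‖g x l‖ = ‖w x * K l x - (w x * K l x - g x l)‖ := by congr 1; ring
      _ ≤ ‖w x * K l x‖ + ‖w x * K l x - g x l‖ := norm_sub_le _ _
      _ ≤ B + C := add_le_add h1 h4
  refine ⟨fun x => ∑ l, (fun l x => starRingEnd ℂ (K l x) * g x l) l x, ?_, ?_⟩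
  · apply td_QD_finsum hD (fun l x => starRingEnd ℂ (K l x) * g x l)
    intro l
    exact hD.mul _ (hKQ l).1.2 _ (hD.hinf _ (hgH l))
  · unfold BD at *
    filter_upwards [hwM, hgC, hKc] with x h1 h2 h3
    have h4 := td_cs (fun l => K l x) (fun l => w x * K l x - g x l) C hC0 h3.2 h2
    have h5 : ∑ l, starRingEnd ℂ (K l x) * (w x * K l x - g x l)
        = w x * ((∑ l, ‖K l x‖ ^ 2 : ℝ) : ℂ) - ∑ l, starRingEnd ℂ (K l x) * g x l := by
      push_cast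
      rw [Finset.mul_sum, ← Finset.sum_sub_distrib]
      refine Finset.sum_congr rfl fun l _ => ?_
      have : ((‖K l x‖ : ℂ)) ^ 2 = starRingEnd ℂ (K l x) * K l x := by
        rw [mul_comm, Complex.mul_conj, Complex.normSq_eq_norm_sq]
        push_cast; rfl
      rw [this]
      ring
    rw [h5] at h4
    have h6 : ‖w x * (1 - ((∑ l, ‖K l x‖ ^ 2 : ℝ) : ℂ))‖ ≤ M * (2 * η) := by
      rw [norm_mul]
      have h7 : ‖1 - ((∑ l, ‖K l x‖ ^ 2 : ℝ) : ℂ)‖ = |1 - ∑ l, ‖K l x‖ ^ 2| := by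
        rw [← Real.norm_eq_abs, ← Complex.norm_real]
        push_cast
        rfl
      rw [h7]
      refine mul_le_mul h1 ?_ (abs_nonneg _) hM
      rw [abs_le]
      constructor <;> linarith [h3.1, h3.2]
    calc ‖(∑ l, starRingEnd ℂ (K l x) * g x l) - w x‖
        = ‖-(w x * ((∑ l, ‖K l x‖ ^ 2 : ℝ) : ℂ) - ∑ l, starRingEnd ℂ (K l x) * g x l)
            - w x * (1 - ((∑ l, ‖K l x‖ ^ 2 : ℝ) : ℂ))‖ := by congr 1; ring
      _ ≤ ‖-(w x * ((∑ l, ‖K l x‖ ^ 2 : ℝ) : ℂ) - ∑ l, starRingEnd ℂ (K l x) * g x l)‖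
            + ‖w x * (1 - ((∑ l, ‖K l x‖ ^ 2 : ℝ) : ℂ))‖ := norm_sub_le _ _
      _ ≤ C + M * (2 * η) := by rw [norm_neg]; exact add_le_add h4 h6
      _ ≤ e := by nlinarith

end Pool.H14.SR
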