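import Pool.Agent.H14.SR.Basic
import Pool.Agent.H14.SR.PR
open MeasureTheory Set Filter Topology
noncomputable section
namespace Pool.H14.SR

namespace KVaux

theorem norm_E0 (x : ℝ) : ‖E (x, 0)‖ = 1 := by rw [norm_E]; simp

/-- Fourier coefficients of a periodic function and of its derivative. -/
theorem coeff_deriv (hab : (0 : ℝ) < 0 + 2 * Real.pi) (f f' : ℝ → ℂ)
    (hf : ∀ x, HasDerivAt f (f' x) x) (hf' : Continuous f') (hper : f (0 + 2 * Real.pi) = f 0)
    (n : ℤ) (hn : n ≠ 0) :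
    ‖fourierCoeffOn hab f n‖ = ‖fourierCoeffOn hab f' n‖ / |(n : ℝ)| := by
  rw [fourierCoeffOn_of_hasDerivAt hab hn (fun x _ => hf x) (hf'.intervalIntegrable _ _), hper,
    sub_self, mul_zero, zero_sub, norm_mul, norm_neg, norm_mul]
  have h1 : ‖(((0 + 2 * Real.pi : ℝ) : ℂ) - ((0 : ℝ) : ℂ))‖ = 2 * Real.pi := by
    rw [← Complex.ofReal_sub, Complex.norm_real]
    simp [abs_of_pos Real.pi_pos]
  have h2 : ‖1 / (-2 * (Real.pi : ℂ) * Complex.I * (n : ℂ))‖ = 1 / (2 * Real.pi * |(n : ℝ)|) := by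
    rw [norm_div, norm_one, norm_mul, norm_mul, norm_mul, norm_neg, Complex.norm_I,
      Complex.norm_real, Complex.norm_intCast]
    simp [abs_of_pos Real.pi_pos]
  rw [h1, h2]
  have h3 : (0 : ℝ) < |(n : ℝ)| := abs_pos.2 (by exact_mod_cast hn)
  have h4 := Real.pi_pos
  field_simp

theorem coeff_bound (hab : (0 : ℝ) < 0 + 2 * Real.pi) (f : ℝ → ℂ) (hf : Continuous f) :
    ∃ M : ℝ, ∀ n : ℤ, ‖fourierCoeffOn hab f n‖ ≤ M := by
  obtain ⟨B, hB⟩ := (isCompact_Icc (a := (0 : ℝ)) (b := 0 + 2 * Real.pi)).exists_bound_of_continuousOn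
    hf.continuousOn
  refine ⟨B, fun n => ?_⟩
  rw [fourierCoeffOn_eq_integral, norm_smul]
  have h1 : ‖∫ x in (0 : ℝ)..(0 + 2 * Real.pi), fourier (-n) (x : AddCircle (0 + 2 * Real.pi - 0)) • f x‖
      ≤ B * |0 + 2 * Real.pi - 0| := by
    refine intervalIntegral.norm_integral_le_of_norm_le_const fun x hx => ?_
    rw [norm_smul, fourier_apply, Circle.norm_coe, one_mul]
    rw [uIoc_of_le hab.le] at hx
    exact hB x (Ioc_subset_Icc_self hx)
  have h2 : ‖(1 : ℝ) / (0 + 2 * Real.pi - 0)‖ = 1 / (2 * Real.pi) := by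
    rw [Real.norm_of_nonneg]
    · simp
    · have := Real.pi_pos
      positivity
  rw [h2]
  have h3 : |0 + 2 * Real.pi - 0| = 2 * Real.pi := by
    rw [zero_add, sub_zero, abs_of_pos Real.two_pi_pos]
  rw [h3] at h1
  have h4 := Real.two_pi_pos
  calc 1 / (2 * Real.pi) * _ ≤ 1 / (2 * Real.pi) * (B * (2 * Real.pi)) :=
        mul_le_mul_of_nonneg_left h1 (by positivity)
    _ = B := by field_simp

/-- Analytic functions with given smooth real part on the circle. -/
theorem exists_V (u : ℝ → ℝ) (hu : ContDiff ℝ 2 u) (hper : ∀ x, u (x + 2 * Real.pi) = u x) :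
    ∃ V : ℂ → ℂ, ContinuousOn V (Metric.closedBall 0 1) ∧ DifferentiableOn ℂ V (Metric.ball 0 1) ∧
      ∀ x : ℝ, (V (E (x, 0))).re = u x := by
  have hT : Fact (0 < 2 * Real.pi) := ⟨Real.two_pi_pos⟩
  have hab : (0 : ℝ) < 0 + 2 * Real.pi := lt_add_of_pos_right 0 hT.out
  have hu' : ContDiff ℝ 1 (deriv u) := by
    have h2 : ContDiff ℝ (1 + 1) u := by
      have : (1 + 1 : WithTop ℕ∞) = 2 := by norm_num
      rw [this]; exact hu
    exact (contDiff_succ_iff_deriv.1 h2).2.2
  have hd1 : ∀ x, HasDerivAt u (deriv u x) x := fun x =>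
    ((hu.differentiable (by norm_num)) x).hasDerivAt
  have hd2 : ∀ x, HasDerivAt (deriv u) (deriv (deriv u) x) x := fun x =>
    ((hu'.differentiable (by norm_num)) x).hasDerivAt
  have hc2 : Continuous (deriv (deriv u)) := hu'.continuous_deriv (by norm_num)
  have hper1 : ∀ x, deriv u (x + 2 * Real.pi) = deriv u x := by
    intro x
    rw [← deriv_comp_add_const]
    congr 1
    exact funext hper
  set c : ℤ → ℂ := fun n => fourierCoeffOn hab (fun x => (u x : ℂ)) n with hc
  obtain ⟨M, hM⟩ := coeff_bound hab (fun x => ((deriv (deriv u) x : ℝ) : ℂ))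
    (Complex.continuous_ofReal.comp hc2)
  have hcM : ∀ n : ℤ, n ≠ 0 → ‖c n‖ ≤ M * (1 / (n : ℝ) ^ 2) := by
    intro n hn
    have h1 := coeff_deriv hab (fun x => (u x : ℂ)) (fun x => ((deriv u x : ℝ) : ℂ))
      (fun x => (hd1 x).ofReal_comp) (Complex.continuous_ofReal.comp hu'.continuous)
      (by rw [hper]) n hn
    have h2 := coeff_deriv hab (fun x => ((deriv u x : ℝ) : ℂ)) (fun x => ((deriv (deriv u) x : ℝ) : ℂ))
      (fun x => (hd2 x).ofReal_comp) (Complex.continuous_ofReal.comp hc2)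
      (by rw [hper1]) n hn
    rw [hc]
    simp only
    rw [h1, h2, div_div, ← sq, sq_abs, ← mul_one_div]
    exact mul_le_mul_of_nonneg_right (hM n) (by positivity)
  have hsum : Summable (fun n : ℤ => ‖c n‖) := by
    have h1 : Summable (fun n : ℤ => M * (1 / (n : ℝ) ^ 2)) :=
      (Real.summable_one_div_int_pow.2 (by norm_num)).mul_left M
    refine Summable.of_norm_bounded_eventually h1 ?_
    filter_upwards [eventually_cofinite_ne (0 : ℤ)] with n hn
    rw [norm_norm]
    exact hcM n hn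
  set f : C(AddCircle (2 * Real.pi), ℂ) :=
    ⟨AddCircle.liftIco (2 * Real.pi) 0 (fun x => (u x : ℂ)),
      AddCircle.liftIco_continuous (by rw [hper])
        (Complex.continuous_ofReal.comp hu.continuous).continuousOn⟩ with hf
  have hcoef : ∀ n, fourierCoeff f n = c n := fun n => fourierCoeff_liftIco_eq _ n
  have hfs : Summable (fourierCoeff f) := by
    have : fourierCoeff f = c := funext hcoef
    rw [this]
    exact hsum.of_norm
  have hsumN : Summable (fun n : ℕ => ‖c n‖ + ‖c (-(n + 1))‖) := by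
    have := hsum.nat_add_neg_add_one
    exact this
  set F : ℕ → ℂ → ℂ := fun n w => c n * w ^ n + starRingEnd ℂ (c (-(n + 1))) * w ^ (n + 1) with hF
  have hFb : ∀ n, ∀ w ∈ Metric.closedBall (0 : ℂ) 1, ‖F n w‖ ≤ ‖c n‖ + ‖c (-(n + 1))‖ := by
    intro n w hw
    rw [mem_closedBall_zero_iff] at hw
    refine (norm_add_le _ _).trans (add_le_add ?_ ?_)
    · rw [norm_mul, norm_pow]
      exact mul_le_of_le_one_right (norm_nonneg _) (pow_le_one₀ (norm_nonneg _) hw)
    · rw [norm_mul, norm_pow, RCLike.norm_conj]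
      exact mul_le_of_le_one_right (norm_nonneg _) (pow_le_one₀ (norm_nonneg _) hw)
  refine ⟨fun w => ∑' n, F n w, ?_, ?_, ?_⟩
  · refine continuousOn_tsum (fun n => ?_) hsumN hFb
    exact Continuous.continuousOn (by fun_prop)
  · refine Complex.differentiableOn_tsum_of_summable_norm hsumN (fun n => ?_) Metric.isOpen_ball
      (fun n w hw => hFb n w (Metric.ball_subset_closedBall hw))
    exact Differentiable.differentiableOn (by fun_prop)
  · have key : ∀ x ∈ Ico (0 : ℝ) (2 * Real.pi), ((∑' n, F n (E (x, 0)) : ℂ)).re = u x := by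
      intro x hx
      have h1 := has_pointwise_sum_fourier_series_of_summable hfs (x : AddCircle (2 * Real.pi))
      have h2 : f (x : AddCircle (2 * Real.pi)) = (u x : ℂ) := by
        have hx' : x ∈ Ico (0 : ℝ) (0 + 2 * Real.pi) := by rwa [zero_add]
        rw [hf]
        exact AddCircle.liftIco_coe_apply (f := fun x : ℝ => (u x : ℂ)) hx'
      have h3 : ∀ n : ℤ, fourier n (x : AddCircle (2 * Real.pi)) = E (x, 0) ^ n := by
        intro n
        rw [fourier_coe_apply, E_zero, ← Complex.exp_int_mul]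
        congr 1
        push_cast
        have h4 : (Real.pi : ℂ) ≠ 0 := by exact_mod_cast Real.pi_ne_zero
        field_simp
      simp only [hcoef, h3, smul_eq_mul, h2] at h1
      have h5 := h1.nat_add_neg_add_one
      have h6 := Complex.hasSum_re h5
      have h7 : Summable (fun n => F n (E (x, 0))) := by
        refine Summable.of_norm_bounded hsumN fun n => hFb n _ ?_
        rw [mem_closedBall_zero_iff, norm_E0]
      have h8 := Complex.hasSum_re h7.hasSum
      have h9 : (fun n : ℕ => (F n (E (x, 0))).re) =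
          fun n : ℕ => (c n * E (x, 0) ^ (n : ℤ) +
            c (-(n + 1)) * E (x, 0) ^ (-((n : ℤ) + 1))).re := by
        funext n
        rw [hF]
        simp only
        rw [Complex.add_re, Complex.add_re, zpow_natCast]
        congr 1
        rw [zpow_neg, ← inv_zpow, Complex.inv_eq_conj (norm_E0 x)]
        have h10 : (starRingEnd ℂ (E (x, 0))) ^ ((n : ℤ) + 1) =
            starRingEnd ℂ (E (x, 0) ^ (n + 1)) := by
          rw [map_pow]
          exact_mod_cast rfl
        rw [h10, ← Complex.conj_re, map_mul, Complex.conj_conj]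
      rw [h9] at h8
      have h10 := h8.unique h6
      rw [h10, Complex.ofReal_re]
    intro x
    have hp : Function.Periodic (fun x : ℝ => (E (x, 0), u x)) (2 * Real.pi) := by
      intro x
      simp only
      rw [hper, show E (x + 2 * Real.pi, 0) = E (x, 0) from E_per (x, 0)]
    obtain ⟨y, hy, hxy⟩ := hp.exists_mem_Ico₀ Real.two_pi_pos x
    simp only [Prod.mk.injEq] at hxy
    rw [hxy.1, hxy.2]
    exact key y hy

end KVaux

open KVaux in
/-- **(KV)** For analytic polynomials `h_i` and `s > 0` there is `k`, continuous on the closed disc, analytic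
inside, with `|k|⁴ = Σ|h_i|² + s²` on the circle and `Σ|h_i|² ≤ |k|⁴` in the closed disc.

Proof: `u(x) = (1/4) log(Σ|h_i(e^{ix})|²+s²)` is smooth and `2π`-periodic, so its Fourier coefficients are
`O(1/n²)` (Mathlib: `fourierCoeffOn_of_hasDerivAt`) and `u(x) = Σ_{n∈ℤ} û(n)e^{inx}`, absolutely convergent,
`û(-n) = conj û(n)`; `V(w) = û(0) + 2Σ_{n≥1} û(n)w^n` is continuous on the closed disc, analytic inside,
`Re V = u` on the circle; `k = e^V`.  For a unit vector `v ∈ ℂ^N` the function `⟨h(w),v⟩/k(w)²` is analytic in the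
disc, continuous on the closed disc and bounded by `1` on the circle, hence everywhere (maximum modulus). -/
theorem KV (N : ℕ) (h : Fin N → Polynomial ℂ) (s : ℝ) (hs : 0 < s) :
    ∃ k : ℂ → ℂ, ContinuousOn k (Metric.closedBall 0 1) ∧ DifferentiableOn ℂ k (Metric.ball 0 1) ∧
      (∀ w ∈ Metric.closedBall (0 : ℂ) 1, ∑ i, ‖(h i).eval w‖ ^ 2 ≤ ‖k w‖ ^ 4) ∧
      ∀ x : ℝ, ‖k (E (x, 0))‖ ^ 4 = ∑ i, ‖(h i).eval (E (x, 0))‖ ^ 2 + s ^ 2 := by
  set G : ℝ → ℝ := fun x => ∑ i, ‖(h i).eval (E (x, 0))‖ ^ 2 + s ^ 2 with hG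
  have hGpos : ∀ x, 0 < G x := fun x =>
    add_pos_of_nonneg_of_pos (Finset.sum_nonneg fun i _ => by positivity) (by positivity)
  have hE : ContDiff ℝ 2 (fun x : ℝ => E (x, 0)) := by
    have : (fun x : ℝ => E (x, 0)) = fun x : ℝ => Complex.exp (Complex.I * x) := funext E_zero
    rw [this]
    exact (contDiff_const.mul Complex.ofRealCLM.contDiff).cexp
  have hGc : ContDiff ℝ 2 G := by
    refine ContDiff.add (ContDiff.sum fun i _ => ?_) contDiff_const
    refine ContDiff.norm_sq ℝ ?_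
    have h1 : ContDiff ℂ 2 (fun w : ℂ => (h i).eval w) := (h i).differentiable.contDiff
    exact (h1.restrict_scalars ℝ).comp hE
  have hGper : ∀ x, G (x + 2 * Real.pi) = G x := by
    intro x
    rw [hG]
    simp only
    rw [show E (x + 2 * Real.pi, 0) = E (x, 0) from E_per (x, 0)]
  obtain ⟨V, hV1, hV2, hV3⟩ := exists_V (fun x => (1 / 4) * Real.log (G x))
    (contDiff_const.mul (hGc.log fun x => (hGpos x).ne')) (fun x => by rw [hGper])
  have hk4 : ∀ w, ‖Complex.exp (V w)‖ ^ 4 = Real.exp (4 * (V w).re) := by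
    intro w
    rw [Complex.norm_exp, ← Real.exp_nat_mul]
    norm_num
  have hcirc : ∀ x : ℝ, ‖Complex.exp (V (E (x, 0)))‖ ^ 4 = G x := by
    intro x
    rw [hk4, hV3, ← mul_assoc]
    norm_num
    exact Real.exp_log (hGpos x)
  have hk1 : ContinuousOn (fun w => Complex.exp (V w)) (Metric.closedBall 0 1) := hV1.cexp
  have hk2 : DifferentiableOn ℂ (fun w => Complex.exp (V w)) (Metric.ball 0 1) := hV2.cexp
  refine ⟨fun w => Complex.exp (V w), hk1, hk2, fun w0 hw0 => ?_, hcirc⟩
  -- maximum modulus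
  set v : Fin N → ℂ := fun i => starRingEnd ℂ ((h i).eval w0) with hv
  set S : ℝ := ∑ i, ‖(h i).eval w0‖ ^ 2 with hS
  have hS0 : 0 ≤ S := Finset.sum_nonneg fun i _ => by positivity
  set Φ : ℂ → ℂ := fun w => (∑ i, v i * (h i).eval w) / Complex.exp (V w) ^ 2 with hΦ
  have hΦd : DiffContOnCl ℂ Φ (Metric.ball 0 1) := by
    constructor
    · refine DifferentiableOn.div (Differentiable.differentiableOn ?_) (hk2.pow 2)
        (fun w _ => pow_ne_zero 2 (Complex.exp_ne_zero _))
      fun_prop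
    · rw [closure_ball (0 : ℂ) one_ne_zero]
      refine ContinuousOn.div (Continuous.continuousOn ?_) (hk1.pow 2)
        (fun w _ => pow_ne_zero 2 (Complex.exp_ne_zero _))
      fun_prop
  have hb : ∀ w ∈ frontier (Metric.ball (0 : ℂ) 1), ‖Φ w‖ ≤ Real.sqrt S := by
    intro w hw
    rw [frontier_ball (0 : ℂ) one_ne_zero, mem_sphere_zero_iff_norm] at hw
    obtain ⟨x, rfl⟩ : ∃ x : ℝ, E (x, 0) = w := by
      obtain ⟨θ, hθ⟩ := (Complex.norm_eq_one_iff w).1 hw
      exact ⟨θ, by rw [E_zero, mul_comm, hθ]⟩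
    have h1 := hcirc x
    set K : ℝ := ‖Complex.exp (V (E (x, 0)))‖ with hK
    have hKpos : 0 < K := norm_pos_iff.2 (Complex.exp_ne_zero _)
    rw [hΦ]
    simp only
    rw [norm_div, norm_pow, ← hK, div_le_iff₀ (by positivity)]
    have h2 : ‖∑ i, v i * (h i).eval (E (x, 0))‖ ≤
        Real.sqrt S * Real.sqrt (∑ i, ‖(h i).eval (E (x, 0))‖ ^ 2) := by
      refine (norm_sum_le _ _).trans ?_
      simp only [norm_mul]
      have h3 := Finset.sum_mul_sq_le_sq_mul_sq Finset.univ (fun i => ‖v i‖)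
        (fun i => ‖(h i).eval (E (x, 0))‖)
      rw [← Real.sqrt_mul' _ (Finset.sum_nonneg fun i _ => by positivity)]
      apply Real.le_sqrt_of_sq_le
      refine h3.trans (le_of_eq ?_)
      congr 1
      exact Finset.sum_congr rfl fun i _ => by rw [hv]; simp only [RCLike.norm_conj]
    refine h2.trans (mul_le_mul_of_nonneg_left ?_ (Real.sqrt_nonneg _))
    rw [Real.sqrt_le_iff]
    refine ⟨by positivity, ?_⟩
    have h4 : ∑ i, ‖(h i).eval (E (x, 0))‖ ^ 2 ≤ G x := by
      rw [hG]; simp only; nlinarith [sq_nonneg s]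
    calc _ ≤ G x := h4
      _ = K ^ 4 := h1.symm
      _ = (K ^ 2) ^ 2 := by ring
  have h1 := Complex.norm_le_of_forall_mem_frontier_norm_le Metric.isBounded_ball hΦd hb
    (z := w0) (by rwa [closure_ball (0 : ℂ) one_ne_zero])
  set K : ℝ := ‖Complex.exp (V w0)‖ with hK
  have hKpos : 0 < K := norm_pos_iff.2 (Complex.exp_ne_zero _)
  have h2 : ∑ i, v i * (h i).eval w0 = (S : ℂ) := by
    rw [hS]
    push_cast
    refine Finset.sum_congr rfl fun i _ => ?_
    rw [hv]
    simp only
    rw [mul_comm, Complex.mul_conj, Complex.normSq_eq_norm_sq]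
    push_cast; rfl
  rw [hΦ] at h1
  simp only at h1
  rw [h2, norm_div, norm_pow, ← hK, Complex.norm_real, Real.norm_of_nonneg hS0,
    div_le_iff₀ (by positivity)] at h1
  -- S ≤ √S K²
  have h3 : S = Real.sqrt S * Real.sqrt S := (Real.mul_self_sqrt hS0).symm
  by_cases hz : S = 0
  · rw [hz]; positivity
  · have h4 : 0 < Real.sqrt S := Real.sqrt_pos.2 (lt_of_le_of_ne hS0 (Ne.symm hz))
    have h5 : Real.sqrt S ≤ K ^ 2 := by
      have h6 : Real.sqrt S * Real.sqrt S ≤ Real.sqrt S * K ^ 2 := by rw [← h3]; exact h1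
      exact le_of_mul_le_mul_left h6 h4
    calc S = Real.sqrt S ^ 2 := by rw [Real.sq_sqrt hS0]
      _ ≤ (K ^ 2) ^ 2 := pow_le_pow_left₀ h4.le h5 2
      _ = K ^ 4 := by ring

end Pool.H14.SR
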