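import Pool.Agent.H14.SR.Basic

open MeasureTheory Set Filter Topology
noncomputable section
namespace Pool.H14.SR

/-- the rectangle -/
def STKR (Y : ℝ) : Set (ℝ × ℝ) := Set.Ioc 0 (2 * Real.pi) ×ˢ Set.Ioc 0 Y

theorem STKR_int {σ : ℝ} (hσ : 0 < σ) {f : ℝ × ℝ → ℂ} (hf : ContinuousOn f {p | -σ < p.2}) (Y : ℝ) :
    IntegrableOn f (STKR Y) := by
  have h1 : ContinuousOn f (Set.Icc 0 (2 * Real.pi) ×ˢ Set.Icc 0 Y) := by
    apply hf.mono
    rintro ⟨x, y⟩ ⟨_, hy⟩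
    exact lt_of_lt_of_le (by linarith) hy.1
  have h2 : IntegrableOn f (Set.Icc 0 (2 * Real.pi) ×ˢ Set.Icc 0 Y) :=
    h1.integrableOn_compact (isCompact_Icc.prod isCompact_Icc)
  exact h2.mono_set (Set.prod_mono Set.Ioc_subset_Icc_self Set.Ioc_subset_Icc_self)

theorem STKR_fub {f : ℝ × ℝ → ℂ} {Y : ℝ} (hf : IntegrableOn f (STKR Y)) :
    ∫ p in STKR Y, f p = ∫ x in Set.Ioc 0 (2 * Real.pi), ∫ y in Set.Ioc 0 Y, f (x, y) := by
  unfold STKR at *
  rw [Measure.volume_eq_prod] at *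
  exact setIntegral_prod f hf

theorem STKR_fub' {f : ℝ × ℝ → ℂ} {Y : ℝ} (hf : IntegrableOn f (STKR Y)) :
    ∫ p in STKR Y, f p = ∫ y in Set.Ioc 0 Y, ∫ x in Set.Ioc 0 (2 * Real.pi), f (x, y) := by
  unfold STKR at *
  rw [Measure.volume_eq_prod] at *
  rw [IntegrableOn, ← Measure.prod_restrict] at hf
  rw [← Measure.prod_restrict]
  exact integral_prod_symm f hf

theorem STK_x {σ : ℝ} (hσ : 0 < σ) {u ux uy : ℝ × ℝ → ℂ} (h : C1 σ u ux uy) {y : ℝ} (hy : 0 ≤ y) :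
    ∫ x in Set.Ioc 0 (2 * Real.pi), ux (x, y) = 0 := by
  have hpi : (0 : ℝ) ≤ 2 * Real.pi := by positivity
  rw [← intervalIntegral.integral_of_le hpi]
  have hc : Continuous (fun x : ℝ => ux (x, y)) := by
    have := h.cx.comp (f := fun x : ℝ => (x, y)) (s := Set.univ) (by fun_prop)
      (fun x _ => (by show -σ < y; linarith))
    exact continuousOn_univ.1 this
  rw [intervalIntegral.integral_eq_sub_of_hasDerivAt (f := fun x => u (x, y))
    (fun x _ => h.dx (x, y) (by show -σ < y; linarith)) (hc.intervalIntegrable _ _)]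
  have := h.per (0, y) (by show -σ < y; linarith)
  simp only [zero_add] at this
  rw [this, sub_self]

theorem STK_y {σ : ℝ} (hσ : 0 < σ) {u ux uy : ℝ × ℝ → ℂ} (h : C1 σ u ux uy) {Y : ℝ} (hY : 0 ≤ Y) (x : ℝ) :
    ∫ y in Set.Ioc 0 Y, uy (x, y) = u (x, Y) - u (x, 0) := by
  rw [← intervalIntegral.integral_of_le hY]
  have hc : ContinuousOn (fun y : ℝ => uy (x, y)) (Set.uIcc 0 Y) := by
    refine h.cy.comp (f := fun y : ℝ => (x, y)) (by fun_prop) ?_
    intro y hy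
    rw [Set.uIcc_of_le hY] at hy
    show -σ < y
    linarith [hy.1]
  rw [intervalIntegral.integral_eq_sub_of_hasDerivAt (f := fun y => u (x, y)) ?_ hc.intervalIntegrable]
  intro y hy
  rw [Set.uIcc_of_le hY] at hy
  exact h.dy (x, y) (by show -σ < y; linarith [hy.1])

theorem STK_cx {σ : ℝ} (hσ : 0 < σ) {u : ℝ × ℝ → ℂ} (h : ContinuousOn u {p | -σ < p.2}) {y : ℝ} (hy : 0 ≤ y) :
    Continuous (fun x : ℝ => u (x, y)) := by
  have := h.comp (f := fun x : ℝ => (x, y)) (s := Set.univ) (by fun_prop)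
      (fun x _ => (by show -σ < y; linarith))
  exact continuousOn_univ.1 this

theorem STK_rect {σ : ℝ} (hσ : 0 < σ) {u ux uy : ℝ × ℝ → ℂ} (h : C1 σ u ux uy) {Y : ℝ} (hY : 0 ≤ Y) :
    ∫ p in STKR Y, (1 / 2 : ℂ) * (ux p + Complex.I * uy p)
      = (1 / 2 : ℂ) * Complex.I * ((∫ x in Set.Ioc 0 (2 * Real.pi), u (x, Y))
        - ∫ x in Set.Ioc 0 (2 * Real.pi), u (x, 0)) := by
  have h1 : IntegrableOn ux (STKR Y) := STKR_int hσ h.cx Y
  have h2 : IntegrableOn uy (STKR Y) := STKR_int hσ h.cy Y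
  rw [integral_const_mul, integral_add h1 (h2.const_mul _), integral_const_mul, STKR_fub' h1, STKR_fub h2]
  have e1 : ∫ y in Set.Ioc 0 Y, ∫ x in Set.Ioc 0 (2 * Real.pi), ux (x, y) = 0 := by
    rw [setIntegral_congr_fun (g := fun _ => (0 : ℂ)) measurableSet_Ioc (fun y hy => STK_x hσ h hy.1.le)]
    simp
  have e2 : ∫ x in Set.Ioc 0 (2 * Real.pi), ∫ y in Set.Ioc 0 Y, uy (x, y)
      = (∫ x in Set.Ioc 0 (2 * Real.pi), u (x, Y)) - ∫ x in Set.Ioc 0 (2 * Real.pi), u (x, 0) := by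
    rw [setIntegral_congr_fun measurableSet_Ioc (fun x _ => STK_y hσ h hY x)]
    apply integral_sub
    · exact (STK_cx hσ h.c hY).integrableOn_Ioc
    · exact (STK_cx hσ h.c le_rfl).integrableOn_Ioc
  rw [e1, e2]
  ring

theorem STKR_iUnion : ⋃ n : ℕ, STKR n = ST := by
  ext ⟨x, y⟩
  simp only [STKR, ST, Set.mem_iUnion, Set.mem_prod, Set.mem_Ioc, Set.mem_ofPred_eq]
  constructor
  · rintro ⟨n, h1, h2, h3⟩
    exact ⟨h1, h2⟩
  · rintro ⟨h1, h2⟩
    obtain ⟨n, hn⟩ := exists_nat_ge y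
    exact ⟨n, h1, h2, hn⟩

theorem STKR_meas (Y : ℝ) : MeasurableSet (STKR Y) := measurableSet_Ioc.prod measurableSet_Ioc

theorem STKR_lim {f : ℝ × ℝ → ℂ} (hf : IntegrableOn f ST) :
    Tendsto (fun n : ℕ => ∫ p in STKR n, f p) atTop (𝓝 (∫ p in ST, f p)) := by
  have := tendsto_setIntegral_of_monotone (μ := volume) (f := f) (s := fun n : ℕ => STKR n)
    (fun n => STKR_meas n) ?_ (by rw [STKR_iUnion]; exact hf)
  · rwa [STKR_iUnion] at this
  · intro m n hmn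
    apply Set.prod_mono subset_rfl
    exact Set.Ioc_subset_Ioc_right (by exact_mod_cast hmn)

/-- **(STK)** Stokes on the strip: `u` is `C¹`, periodic on `y > -σ`, `|u| ≤ B e^{-y}` on `y ≥ 0`, and
`∂̄u = (1/2)(ux + i uy)` is integrable over the strip.  Then
`∫_0^{2π} u(x,0) dx = 2i ∬_{ST} ∂̄u`.
(`∫ ux dx = 0` by periodicity, `∫_0^∞ uy dy = -u(x,0)`.) -/
theorem STK (σ : ℝ) (hσ : 0 < σ) (u ux uy : ℝ × ℝ → ℂ) (h : C1 σ u ux uy) (B : ℝ)
    (hB : ∀ p : ℝ × ℝ, 0 ≤ p.2 → ‖u p‖ ≤ B * Real.exp (-p.2))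
    (hint : IntegrableOn (fun p => (1 / 2 : ℂ) * (ux p + Complex.I * uy p)) ST) :
    ∫ x in Set.Ioc 0 (2 * Real.pi), u (x, 0)
      = 2 * Complex.I * ∫ p in ST, (1 / 2 : ℂ) * (ux p + Complex.I * uy p) := by
  have h1 := STKR_lim hint
  have h2 : Tendsto (fun n : ℕ => ∫ x in Set.Ioc 0 (2 * Real.pi), u (x, (n : ℝ))) atTop (𝓝 0) := by
    have hb : ∀ n : ℕ, ‖∫ x in Set.Ioc 0 (2 * Real.pi), u (x, (n : ℝ))‖
        ≤ (B * Real.exp (-(n : ℝ))) * (2 * Real.pi) := by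
      intro n
      have := norm_setIntegral_le_of_norm_le_const (μ := volume) (s := Set.Ioc 0 (2 * Real.pi))
        (f := fun x => u (x, (n : ℝ))) (C := B * Real.exp (-(n : ℝ)))
        (by rw [Real.volume_Ioc]; exact ENNReal.ofReal_lt_top)
        (fun x _ => hB (x, (n : ℝ)) (Nat.cast_nonneg n))
      refine this.trans (le_of_eq ?_)
      congr 1
      rw [Real.volume_real_Ioc_of_le (by positivity)]
      ring
    refine squeeze_zero_norm hb ?_
    have h3 : Tendsto (fun n : ℕ => Real.exp (-(n : ℝ))) atTop (𝓝 0) :=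
      Real.tendsto_exp_neg_atTop_nhds_zero.comp tendsto_natCast_atTop_atTop
    have h4 := (h3.const_mul B).mul_const (2 * Real.pi)
    simpa using h4
  have h3 : Tendsto (fun n : ℕ => ∫ p in STKR n, (1 / 2 : ℂ) * (ux p + Complex.I * uy p)) atTop
      (𝓝 ((1 / 2 : ℂ) * Complex.I * (0 - ∫ x in Set.Ioc 0 (2 * Real.pi), u (x, 0)))) := by
    have : (fun n : ℕ => ∫ p in STKR n, (1 / 2 : ℂ) * (ux p + Complex.I * uy p)) = fun n : ℕ =>
      (1 / 2 : ℂ) * Complex.I * ((∫ x in Set.Ioc 0 (2 * Real.pi), u (x, (n : ℝ)))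
        - ∫ x in Set.Ioc 0 (2 * Real.pi), u (x, 0)) := by
      funext n
      exact STK_rect hσ h (Nat.cast_nonneg n)
    rw [this]
    exact (h2.sub_const _).const_mul _
  have h4 := tendsto_nhds_unique h1 h3
  rw [h4]
  linear_combination (∫ x in Set.Ioc 0 (2 * Real.pi), u (x, 0)) * Complex.I_sq

theorem STK_red {f : ℝ × ℝ → ℂ} {Y : ℝ} (hf : ∀ p : ℝ × ℝ, Y < p.2 → f p = 0) :
    ∫ p in ST, f p = ∫ p in STKR Y, f p := by
  apply setIntegral_eq_of_subset_of_forall_sdiff_eq_zero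
  · have : ST = Set.Ioc 0 (2 * Real.pi) ×ˢ Set.Ioi 0 := by
      ext ⟨x, y⟩; simp [ST]
    rw [this]
    exact measurableSet_Ioc.prod measurableSet_Ioi
  · rintro ⟨x, y⟩ ⟨h1, h2⟩
    exact ⟨h1, h2.1⟩
  · rintro ⟨x, y⟩ ⟨⟨h1, h2⟩, h3⟩
    apply hf
    by_contra h4
    push Not at h4
    exact h3 ⟨h1, h2, h4⟩

/-- Weighted version: `g` is `C¹`, periodic on `y > -σ` and zero for `y ≥ Y`:
`∬_{ST} g = -2i ∬_{ST} (∂g) y`, `∂g = (1/2)(gx - i gy)`. -/
theorem STK' (σ : ℝ) (hσ : 0 < σ) (g gx gy : ℝ × ℝ → ℂ) (h : C1 σ g gx gy) (Y : ℝ)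
    (hY : ∀ p : ℝ × ℝ, Y ≤ p.2 → g p = 0) :
    ∫ p in ST, g p
      = -2 * Complex.I * ∫ p in ST, (1 / 2 : ℂ) * (gx p - Complex.I * gy p) * (p.2 : ℂ) := by
  set Z : ℝ := max Y 0 with hZ
  have hZ0 : 0 ≤ Z := le_max_right _ _
  have hZY : Y ≤ Z := le_max_left _ _
  have hgx : ∀ p : ℝ × ℝ, Z < p.2 → gx p = 0 := by
    intro p hp
    have h1 := h.dx p (by linarith)
    have h2 : HasDerivAt (fun x : ℝ => g (x, p.2)) 0 p.1 := by
      have : (fun x : ℝ => g (x, p.2)) = fun _ => 0 := by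
        funext x; exact hY (x, p.2) (by show Y ≤ p.2; linarith)
      rw [this]; exact hasDerivAt_const _ _
    exact h1.unique h2
  have hgy : ∀ p : ℝ × ℝ, Z < p.2 → gy p = 0 := by
    intro p hp
    have h1 := h.dy p (by linarith)
    have h2 : HasDerivAt (fun y : ℝ => g (p.1, y)) 0 p.2 := by
      refine (hasDerivAt_const p.2 (0 : ℂ)).congr_of_eventuallyEq ?_
      filter_upwards [Ioi_mem_nhds hp] with y hy
      exact hY (p.1, y) (by show Y ≤ y; linarith [show Z < y from hy])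
    exact h1.unique h2
  rw [STK_red (Y := Z) (f := g) (fun p hp => hY p (by linarith)),
    STK_red (Y := Z) (f := fun p => (1 / 2 : ℂ) * (gx p - Complex.I * gy p) * (p.2 : ℂ))
      (fun p hp => by rw [hgx p hp, hgy p hp]; simp)]
  have c2 : ContinuousOn (fun p : ℝ × ℝ => (p.2 : ℂ)) {p | -σ < p.2} :=
    (Complex.continuous_ofReal.comp continuous_snd).continuousOn
  have i1 : IntegrableOn (fun p : ℝ × ℝ => gx p * (p.2 : ℂ)) (STKR Z) := STKR_int hσ (h.cx.mul c2) Z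
  have i2 : IntegrableOn (fun p : ℝ × ℝ => gy p * (p.2 : ℂ)) (STKR Z) := STKR_int hσ (h.cy.mul c2) Z
  have i3 : IntegrableOn g (STKR Z) := STKR_int hσ h.c Z
  have e0 : (fun p : ℝ × ℝ => (1 / 2 : ℂ) * (gx p - Complex.I * gy p) * (p.2 : ℂ)) =
      fun p => (1 / 2 : ℂ) * (gx p * (p.2 : ℂ)) - (1 / 2 * Complex.I) * (gy p * (p.2 : ℂ)) := by
    funext p; ring
  rw [e0, integral_sub (i1.const_mul _) (i2.const_mul _), integral_const_mul, integral_const_mul]
  have e1 : ∫ p in STKR Z, gx p * (p.2 : ℂ) = 0 := by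
    rw [STKR_fub' i1]
    rw [setIntegral_congr_fun (g := fun _ => (0 : ℂ)) measurableSet_Ioc]
    · simp
    · intro y hy
      show ∫ x in Set.Ioc 0 (2 * Real.pi), gx (x, y) * (y : ℂ) = 0
      rw [integral_mul_const, STK_x hσ h hy.1.le, zero_mul]
  have e2 : ∫ p in STKR Z, gy p * (p.2 : ℂ) = -∫ p in STKR Z, g p := by
    rw [STKR_fub i2, STKR_fub i3, ← integral_neg]
    apply setIntegral_congr_fun measurableSet_Ioc
    intro x _
    show ∫ y in Set.Ioc 0 Z, gy (x, y) * (y : ℂ) = -∫ y in Set.Ioc 0 Z, g (x, y)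
    rw [← intervalIntegral.integral_of_le hZ0, ← intervalIntegral.integral_of_le hZ0]
    have hc : ContinuousOn (fun y : ℝ => gy (x, y)) (Set.uIcc 0 Z) := by
      refine h.cy.comp (f := fun y : ℝ => (x, y)) (by fun_prop) ?_
      intro y hy
      rw [Set.uIcc_of_le hZ0] at hy
      show -σ < y
      linarith [hy.1]
    have hib := intervalIntegral.integral_mul_deriv_eq_deriv_mul (a := 0) (b := Z)
      (u := fun y : ℝ => (y : ℂ)) (u' := fun _ => 1) (v := fun y : ℝ => g (x, y)) (v' := fun y => gy (x, y))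
      (fun y _ => Complex.ofRealCLM.hasDerivAt (x := y)) (fun y hy => by
        rw [Set.uIcc_of_le hZ0] at hy
        exact h.dy (x, y) (by show -σ < y; linarith [hy.1]))
      (continuous_const.intervalIntegrable _ _) hc.intervalIntegrable
    have hgZ : g (x, Z) = 0 := hY (x, Z) hZY
    simp only [hgZ, mul_zero, Complex.ofReal_zero, zero_mul, sub_zero, one_mul, zero_sub] at hib
    rw [← hib]
    congr 1
    funext y
    ring
  rw [e1, e2]
  linear_combination (∫ p in STKR Z, g p) * Complex.I_sq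

/-- Boundary values of periodic analytic functions have `HA`: `u` is `C¹`, periodic on `y > -σ`,
`ux + i uy = 0`, bounded on `y ≥ 0`.  (Apply `STK` to `u e^{i(n+1)ζ}`.) -/
theorem HA_of_analytic (σ : ℝ) (hσ : 0 < σ) (u ux uy : ℝ × ℝ → ℂ) (h : C1 σ u ux uy) (B : ℝ)
    (hB : ∀ p : ℝ × ℝ, 0 ≤ p.2 → ‖u p‖ ≤ B)
    (han : ∀ p : ℝ × ℝ, -σ < p.2 → ux p + Complex.I * uy p = 0) :
    HA (fun x => u (x, 0)) := by
  intro n
  have hB0 : 0 ≤ B := (norm_nonneg _).trans (hB (0, 0) le_rfl)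
  have hEx : ∀ p : ℝ × ℝ, HasDerivAt (fun x : ℝ => E (x, p.2) ^ (n + 1))
      (((n : ℂ) + 1) * E p ^ n * (Complex.I * E p)) p.1 := by
    intro p
    have := (hasDerivAt_Ex p).pow (n + 1)
    refine this.congr_deriv ?_
    simp
  have hEy : ∀ p : ℝ × ℝ, HasDerivAt (fun y : ℝ => E (p.1, y) ^ (n + 1))
      (((n : ℂ) + 1) * E p ^ n * (-(E p))) p.2 := by
    intro p
    have := (hasDerivAt_Ey p).pow (n + 1)
    refine this.congr_deriv ?_
    simp
  have cE : Continuous E := continuous_E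
  have hC : C1 σ (fun p => u p * E p ^ (n + 1))
      (fun p => ux p * E p ^ (n + 1) + u p * (((n : ℂ) + 1) * E p ^ n * (Complex.I * E p)))
      (fun p => uy p * E p ^ (n + 1) + u p * (((n : ℂ) + 1) * E p ^ n * (-(E p)))) := by
    refine ⟨fun p hp => ?_, fun p hp => ?_, ?_, ?_, ?_, fun p hp => ?_⟩
    · exact (h.dx p hp).mul (hEx p)
    · exact (h.dy p hp).mul (hEy p)
    · exact h.c.mul (by fun_prop)
    · exact (h.cx.mul (by fun_prop)).add (h.c.mul (by fun_prop))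
    · exact (h.cy.mul (by fun_prop)).add (h.c.mul (by fun_prop))
    · simp only [h.per p hp, E_per]
  have hz : ∀ p : ℝ × ℝ, -σ < p.2 → (1 / 2 : ℂ) *
      ((ux p * E p ^ (n + 1) + u p * (((n : ℂ) + 1) * E p ^ n * (Complex.I * E p))) + Complex.I *
      (uy p * E p ^ (n + 1) + u p * (((n : ℂ) + 1) * E p ^ n * (-(E p))))) = 0 := by
    intro p hp
    linear_combination (1 / 2 * E p ^ (n + 1)) * han p hp
  have hzero : ∀ p ∈ ST, (1 / 2 : ℂ) *
      ((ux p * E p ^ (n + 1) + u p * (((n : ℂ) + 1) * E p ^ n * (Complex.I * E p))) + Complex.I *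
      (uy p * E p ^ (n + 1) + u p * (((n : ℂ) + 1) * E p ^ n * (-(E p))))) = 0 :=
    fun p hp => hz p (by linarith [hp.2])
  have hSTm : MeasurableSet ST := by
    have : ST = Set.Ioc 0 (2 * Real.pi) ×ˢ Set.Ioi 0 := by
      ext ⟨x, y⟩; simp [ST]
    rw [this]
    exact measurableSet_Ioc.prod measurableSet_Ioi
  have key := STK σ hσ _ _ _ hC B (fun p hp => ?_) ?_
  · rw [setIntegral_congr_fun hSTm hzero] at key
    simp only [integral_zero, mul_zero] at key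
    rw [← key]
    apply setIntegral_congr_fun measurableSet_Ioc
    intro x _
    show Complex.exp (((n : ℂ) + 1) * Complex.I * (x : ℂ)) * u (x, 0) = u (x, 0) * E (x, 0) ^ (n + 1)
    rw [E_zero, ← Complex.exp_nat_mul, mul_comm]
    congr 2
    push_cast; ring
  · rw [norm_mul, norm_pow, norm_E]
    have h1 : Real.exp (-p.2) ^ (n + 1) ≤ Real.exp (-p.2) := by
      have h2 : Real.exp (-p.2) ≤ 1 := Real.exp_le_one_iff.2 (by linarith)
      exact pow_le_of_le_one (Real.exp_pos _).le h2 (by omega)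
    exact mul_le_mul (hB p hp) h1 (by positivity) hB0
  · refine (integrableOn_zero (μ := volume)).congr_fun (fun p hp => (hzero p hp).symm) hSTm

end Pool.H14.SR
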