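import Pool.Agent.H14.SR.Basic
import Pool.Agent.H14.SR.STK
import Pool.Agent.H14.SR.HB
import Pool.Agent.H14.SR.HM
open MeasureTheory Set Filter Topology
noncomputable section
namespace Pool.H14.SR

namespace MCaux

/-- The point of the half plane. -/
def PP (ζ : ℂ) : ℝ × ℝ := (ζ.re, ζ.im)

theorem continuous_PP : Continuous PP := by unfold PP; fun_prop

/-- `C¹` plus Cauchy-Riemann gives complex differentiability. -/
theorem cdiff_of_C1 {σ : ℝ} {u ux uy : ℝ × ℝ → ℂ} (h : C1 σ u ux uy) (ζ : ℂ) (hp : -σ < ζ.im)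
    (hCR : ux (PP ζ) + Complex.I * uy (PP ζ) = 0) :
    DifferentiableAt ℂ (fun ζ : ℂ => u (PP ζ)) ζ := by
  have hopen : IsOpen {p : ℝ × ℝ | -σ < p.2} := isOpen_lt continuous_const continuous_snd
  have hmem : {p : ℝ × ℝ | -σ < p.2} ∈ 𝓝 (PP ζ) := hopen.mem_nhds hp
  have h1 := hasStrictFDerivAt_uncurry_coprod (𝕜 := ℝ) (u := PP ζ) (f := fun x y => u (x, y))
    (f₁ := fun x y => ContinuousLinearMap.toSpanSingleton ℝ (ux (x, y)))
    (f₂ := fun x y => ContinuousLinearMap.toSpanSingleton ℝ (uy (x, y)))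
    (by
      filter_upwards [hmem] with v hv
      exact (h.dx v hv).hasFDerivAt)
    (by
      filter_upwards [hmem] with v hv
      exact (h.dy v hv).hasFDerivAt)
    (by
      have h2 : ContinuousAt ux (PP ζ) := h.cx.continuousAt hmem
      exact (ContinuousLinearMap.toSpanSingletonCLE (𝕜 := ℝ)).continuous.continuousAt.comp h2)
    (by
      have h2 : ContinuousAt uy (PP ζ) := h.cy.continuousAt hmem
      exact (ContinuousLinearMap.toSpanSingletonCLE (𝕜 := ℝ)).continuous.continuousAt.comp h2)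
  have h3 : HasFDerivAt (fun ζ : ℂ => u (PP ζ))
      (((ContinuousLinearMap.toSpanSingleton ℝ (ux (PP ζ))).coprod
        (ContinuousLinearMap.toSpanSingleton ℝ (uy (PP ζ)))).comp
          (Complex.equivRealProdCLM : ℂ →L[ℝ] ℝ × ℝ)) ζ :=
    HasFDerivAt.comp ζ h1.hasFDerivAt Complex.equivRealProdCLM.hasFDerivAt
  rw [differentiableAt_complex_iff_differentiableAt_real]
  refine ⟨h3.differentiableAt, ?_⟩
  rw [h3.fderiv]
  simp only [ContinuousLinearMap.comp_apply, ContinuousLinearEquiv.coe_coe,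
    Complex.equivRealProdCLM_apply, ContinuousLinearMap.coprod_apply,
    ContinuousLinearMap.toSpanSingleton_apply, Complex.I_re, Complex.I_im, Complex.one_re,
    Complex.one_im, zero_smul, one_smul, zero_add, add_zero, smul_eq_mul]
  have h4 : ux (PP ζ) = -(Complex.I * uy (PP ζ)) := eq_neg_of_add_eq_zero_left hCR
  rw [h4]
  have h5 : Complex.I * -(Complex.I * uy (PP ζ)) = -(Complex.I * Complex.I) * uy (PP ζ) := by ring
  rw [h5, Complex.I_mul_I, neg_neg, one_mul]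

/-- Periodic analytic functions on a half plane are `C¹`. -/
theorem C1_of_cdiff {σ : ℝ} {U : ℂ → ℂ} (hU : ∀ ζ : ℂ, -σ < ζ.im → DifferentiableAt ℂ U ζ)
    (hper : ∀ ζ : ℂ, -σ < ζ.im → U (ζ + 2 * Real.pi) = U ζ) :
    C1 σ (fun p => U ⟨p.1, p.2⟩) (fun p => deriv U ⟨p.1, p.2⟩)
      (fun p => Complex.I * deriv U ⟨p.1, p.2⟩) := by
  have hopen : IsOpen {ζ : ℂ | -σ < ζ.im} := isOpen_lt continuous_const Complex.continuous_im
  have hd : DifferentiableOn ℂ U {ζ : ℂ | -σ < ζ.im} := fun ζ hζ => (hU ζ hζ).differentiableWithinAt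
  have hd' : ContinuousOn (deriv U) {ζ : ℂ | -σ < ζ.im} := (hd.deriv hopen).continuousOn
  have hmk : Continuous (fun p : ℝ × ℝ => (⟨p.1, p.2⟩ : ℂ)) :=
    Complex.equivRealProdCLM.symm.continuous
  have hmaps : MapsTo (fun p : ℝ × ℝ => (⟨p.1, p.2⟩ : ℂ)) {p | -σ < p.2} {ζ : ℂ | -σ < ζ.im} :=
    fun p hp => hp
  refine ⟨fun p hp => ?_, fun p hp => ?_, ?_, ?_, ?_, fun p hp => ?_⟩
  · have h1 : HasDerivAt (fun x : ℝ => (⟨x, p.2⟩ : ℂ)) 1 p.1 := by
      have h2 : (fun x : ℝ => (⟨x, p.2⟩ : ℂ)) = fun x : ℝ => (x : ℂ) + (p.2 : ℂ) * Complex.I := by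
        funext x; exact Complex.mk_eq_add_mul_I x p.2
      rw [h2]
      exact (Complex.ofRealCLM.hasDerivAt (x := p.1)).add_const _
    have h2 := HasDerivAt.comp_of_eq p.1 (hU ⟨p.1, p.2⟩ hp).hasDerivAt h1 rfl
    rw [mul_one] at h2
    exact h2
  · have h1 : HasDerivAt (fun y : ℝ => (⟨p.1, y⟩ : ℂ)) Complex.I p.2 := by
      have h2 : (fun y : ℝ => (⟨p.1, y⟩ : ℂ)) = fun y : ℝ => (p.1 : ℂ) + (y : ℂ) * Complex.I := by
        funext y; exact Complex.mk_eq_add_mul_I p.1 y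
      rw [h2]
      have h3 := ((Complex.ofRealCLM.hasDerivAt (x := p.2)).mul_const Complex.I).const_add (p.1 : ℂ)
      simpa using h3
    have h2 := HasDerivAt.comp_of_eq p.2 (hU ⟨p.1, p.2⟩ hp).hasDerivAt h1 rfl
    rw [mul_comm] at h2
    exact h2
  · exact hd.continuousOn.comp hmk.continuousOn hmaps
  · exact hd'.comp hmk.continuousOn hmaps
  · exact continuousOn_const.mul (hd'.comp hmk.continuousOn hmaps)
  · have h1 : (⟨p.1 + 2 * Real.pi, p.2⟩ : ℂ) = ⟨p.1, p.2⟩ + 2 * Real.pi := by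
      apply Complex.ext <;> simp
    show U ⟨p.1 + 2 * Real.pi, p.2⟩ = U ⟨p.1, p.2⟩
    rw [h1, hper _ hp]

/-- Boundary values of bounded periodic analytic functions are in `H^∞`. -/
theorem Hinf_of_cdiff {σ : ℝ} (hσ : 0 < σ) {U : ℂ → ℂ}
    (hU : ∀ ζ : ℂ, -σ < ζ.im → DifferentiableAt ℂ U ζ)
    (hper : ∀ ζ : ℂ, -σ < ζ.im → U (ζ + 2 * Real.pi) = U ζ) (B : ℝ) (hB : ∀ ζ : ℂ, 0 ≤ ζ.im → ‖U ζ‖ ≤ B) :
    Hinf (fun x : ℝ => U x) := by
  have h1 := C1_of_cdiff hU hper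
  have h2 := HA_of_analytic σ hσ _ _ _ h1 B (fun p hp => hB _ hp) (fun p hp => by
    rw [← mul_assoc, Complex.I_mul_I]; ring)
  have hc : Continuous (fun x : ℝ => U x) := by
    rw [continuous_iff_continuousAt]
    intro x
    exact (hU x (by simpa using hσ)).continuousAt.comp Complex.continuous_ofReal.continuousAt
  refine ⟨memLp_top_of_bound hc.aestronglyMeasurable B (ae_of_all _ fun x => hB _ (by simp)), ?_⟩
  exact h2

/-- The entire function `(e^t - 1)/t`. -/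
def ept (t : ℂ) : ℂ := dslope Complex.exp 0 t

theorem ept_diff : Differentiable ℂ ept := by
  intro t
  have h1 : DifferentiableOn ℂ (dslope Complex.exp 0) univ :=
    (Complex.differentiableOn_dslope univ_mem).2 Complex.differentiable_exp.differentiableOn
  exact (h1 t (mem_univ t)).differentiableAt univ_mem

theorem mul_ept (t : ℂ) : t * ept t = Complex.exp t - 1 := by
  have := sub_smul_dslope Complex.exp 0 t
  simpa [ept] using this

theorem ept_zero : ept 0 = 1 := by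
  unfold ept
  rw [dslope_same]
  simp

theorem norm_exp_sub_one (t : ℂ) : ‖Complex.exp t - 1‖ ≤ ‖t‖ * Real.exp ‖t‖ := by
  have := Complex.norm_exp_sub_sum_le_norm_mul_exp t 1
  simpa using this

theorem norm_ept (t : ℂ) : ‖ept t‖ ≤ Real.exp ‖t‖ := by
  by_cases ht : t = 0
  · rw [ht, ept_zero]; simp
  · have h1 : ‖t‖ * ‖ept t‖ ≤ ‖t‖ * Real.exp ‖t‖ := by
      rw [← norm_mul, mul_ept]
      exact norm_exp_sub_one t
    exact le_of_mul_le_mul_left h1 (norm_pos_iff.2 ht)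

theorem hp_PP_cdiff {ρ σ : ℝ} (hρ : 1 < ρ) (hσρ : σ < Real.log ρ) {a : ℂ → ℂ}
    (ha : DifferentiableOn ℂ a (Metric.ball 0 ρ)) (ζ : ℂ) (hζ : -σ < ζ.im) :
    DifferentiableAt ℂ (fun ζ : ℂ => hp a (PP ζ)) ζ :=
  cdiff_of_C1 (C1_hp (by linarith) ha) ζ (by linarith) (by
    rw [← mul_assoc, Complex.I_mul_I]; ring)

end MCaux

open MCaux in
/-- **(MC)** The quotient.  `φ, w` on the half plane with `∂̄φ = b ∂̄w`, `e^φ = a` and `∂̄w = 0` on `|b| < ε₁`.  Then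
`c₀ = (e^{φ-bw} - a)/b` (`= -a w ε(bw)`, `ε(t) = (1-e^{-t})/t`, where `|b| < ε₁`) is `C¹` with `∂̄c₀ = 0`, bounded, so on `y = 0`
it is in `H^∞` (`HA_of_analytic`); `φ - bw` has boundary values in `H^∞` for the same reason.  If `g ∈ H^∞` and
`|w(x,0) - g(x)| ≤ C` a.e., then with `W = w - g`, `V = φ - bW = φ - bw + bg`:
`e^V = a + b c`, `c = c₀e^{bg} + a g ε̃(bg) ∈ H^∞`, `ε̃(t) = (e^t-1)/t` entire (`Hinf_entire`), and
`|c| ≤ (e^{2C}+1)/ε₁` where `|b| ≥ ε₁` (`|Re φ| ≤ C`), `c = -aWε(bW)`, `|c| ≤ Ce^C` where `|b| < ε₁` (a.e. where `b = 0` use the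
formula `c₀ = -a w ε(bw)` and `(w-g)ε(b(w-g)) = w ε(bw) e^{bg} - g ε̃(bg)`). -/
theorem MC (ρ : ℝ) (hρ : 1 < ρ) (a b : ℂ → ℂ) (ha : DifferentiableOn ℂ a (Metric.ball 0 ρ))
    (hb : DifferentiableOn ℂ b (Metric.ball 0 ρ)) (ha1 : ∀ w ∈ Metric.ball (0 : ℂ) ρ, ‖a w‖ ≤ 1)
    (hb1 : ∀ w ∈ Metric.ball (0 : ℂ) ρ, ‖b w‖ ≤ 1) (ε₁ : ℝ) (hε : 0 < ε₁) (σ : ℝ) (hσ : 0 < σ)
    (hσρ : σ < Real.log ρ) (φ φx φy w wx wy : ℝ × ℝ → ℂ) (hφ : C1 σ φ φx φy) (hw : C1 σ w wx wy)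
    (h1 : ∀ p : ℝ × ℝ, -σ < p.2 → φx p + Complex.I * φy p = hp b p * (wx p + Complex.I * wy p))
    (h2 : ∀ p : ℝ × ℝ, -σ < p.2 → ‖hp b p‖ < ε₁ →
      Complex.exp (φ p) = hp a p ∧ wx p + Complex.I * wy p = 0)
    (B : ℝ) (hB : ∀ p : ℝ × ℝ, 0 ≤ p.2 → ‖φ p‖ ≤ B ∧ ‖w p‖ ≤ B) (C : ℝ) (hC : 0 ≤ C)
    (hre : ∀ x : ℝ, |(φ (x, 0)).re| ≤ C) (g : ℝ → ℂ) (hg : Hinf g)
    (hwg : BD (fun x => w (x, 0) - g x) C) :
    HA (fun x => φ (x, 0) - b (E (x, 0)) * (w (x, 0) - g x)) ∧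
    ∃ c : ℝ → ℂ, Hinf c ∧ BD c ((Real.exp (2 * C) + 1) / ε₁ + C * Real.exp C) ∧
      ∀ᵐ x ∂mu, Complex.exp (φ (x, 0) - b (E (x, 0)) * (w (x, 0) - g x))
        = a (E (x, 0)) + b (E (x, 0)) * c x := by
  have hρ0 : 0 < ρ := by linarith
  -- periodicity
  have hPper : ∀ ζ : ℂ, PP (ζ + 2 * Real.pi) = ((PP ζ).1 + 2 * Real.pi, (PP ζ).2) := by
    intro ζ
    unfold PP
    simp
  -- `hp b`, `hp a`
  have hbn : ∀ p : ℝ × ℝ, -σ < p.2 → ‖hp b p‖ ≤ 1 := fun p hp' =>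
    hb1 _ (E_mem_ball hρ0 (by linarith))
  have han : ∀ p : ℝ × ℝ, -σ < p.2 → ‖hp a p‖ ≤ 1 := fun p hp' =>
    ha1 _ (E_mem_ball hρ0 (by linarith))
  have hb1' := C1_hp hρ0 hb
  -- the function `ψ`
  set ψ : ℝ × ℝ → ℂ := fun p => φ p - hp b p * w p with hψ
  have hψC : C1 σ ψ (fun p => φx p - (hp (Dz b) p * w p + hp b p * wx p))
      (fun p => φy p - (Complex.I * hp (Dz b) p * w p + hp b p * wy p)) := by
    have hsub : {p : ℝ × ℝ | -σ < p.2} ⊆ {p : ℝ × ℝ | -Real.log ρ < p.2} := by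
      intro p hp'
      simp only [Set.mem_ofPred_eq] at hp' ⊢
      linarith
    refine ⟨fun p hp' => ?_, fun p hp' => ?_, ?_, ?_, ?_, fun p hp' => ?_⟩
    · exact (hφ.dx p hp').sub ((hb1'.dx p (hsub hp')).mul (hw.dx p hp'))
    · exact (hφ.dy p hp').sub ((hb1'.dy p (hsub hp')).mul (hw.dy p hp'))
    · exact hφ.c.sub ((hb1'.c.mono hsub).mul hw.c)
    · exact hφ.cx.sub (((hb1'.cx.mono hsub).mul hw.c).add ((hb1'.c.mono hsub).mul hw.cx))
    · exact hφ.cy.sub (((hb1'.cy.mono hsub).mul hw.c).add ((hb1'.c.mono hsub).mul hw.cy))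
    · simp only [hψ]
      rw [hφ.per p hp', hw.per p hp', hp_per]
  have hψd : ∀ ζ : ℂ, -σ < ζ.im → DifferentiableAt ℂ (fun ζ : ℂ => ψ (PP ζ)) ζ := by
    intro ζ hζ
    refine cdiff_of_C1 hψC ζ hζ ?_
    have h3 := h1 (PP ζ) hζ
    have h4 : Complex.I * Complex.I = -1 := Complex.I_mul_I
    linear_combination h3 - hp (Dz b) (PP ζ) * w (PP ζ) * h4
  have had : ∀ ζ : ℂ, -σ < ζ.im → DifferentiableAt ℂ (fun ζ : ℂ => hp a (PP ζ)) ζ :=
    fun ζ hζ => hp_PP_cdiff hρ hσρ ha ζ hζ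
  have hbd : ∀ ζ : ℂ, -σ < ζ.im → DifferentiableAt ℂ (fun ζ : ℂ => hp b (PP ζ)) ζ :=
    fun ζ hζ => hp_PP_cdiff hρ hσρ hb ζ hζ
  have hwd : ∀ ζ : ℂ, -σ < ζ.im → ‖hp b (PP ζ)‖ < ε₁ →
      DifferentiableAt ℂ (fun ζ : ℂ => w (PP ζ)) ζ := fun ζ hζ hb' =>
    cdiff_of_C1 hw ζ hζ (h2 (PP ζ) hζ hb').2
  have hopen : IsOpen {ζ : ℂ | -σ < ζ.im} := isOpen_lt continuous_const Complex.continuous_im
  -- the quotient
  set c0 : ℂ → ℂ := fun ζ => if hp b (PP ζ) = 0 then -(hp a (PP ζ) * w (PP ζ)) else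
    (Complex.exp (ψ (PP ζ)) - hp a (PP ζ)) / hp b (PP ζ) with hc0
  have hc0b : ∀ ζ : ℂ, -σ < ζ.im → Complex.exp (ψ (PP ζ)) =
      hp a (PP ζ) + hp b (PP ζ) * c0 ζ := by
    intro ζ hζ
    simp only [hc0]
    split_ifs with h3
    · rw [h3, zero_mul, add_zero]
      have h4 := (h2 (PP ζ) hζ (by rw [h3, norm_zero]; exact hε)).1
      simp only [hψ]
      rw [h3, zero_mul, sub_zero, h4]
    · field_simp
      ring
  have hc0s : ∀ ζ : ℂ, -σ < ζ.im → ‖hp b (PP ζ)‖ < ε₁ →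
      c0 ζ = -(hp a (PP ζ) * w (PP ζ) * ept (-(hp b (PP ζ) * w (PP ζ)))) := by
    intro ζ hζ hb'
    simp only [hc0]
    split_ifs with h3
    · rw [h3, zero_mul, neg_zero, ept_zero, mul_one]
    · have h4 := (h2 (PP ζ) hζ hb').1
      have h5 := mul_ept (-(hp b (PP ζ) * w (PP ζ)))
      have h6 : Complex.exp (ψ (PP ζ)) =
          hp a (PP ζ) * Complex.exp (-(hp b (PP ζ) * w (PP ζ))) := by
        simp only [hψ]
        rw [sub_eq_add_neg, Complex.exp_add, h4]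
      rw [div_eq_iff h3, h6]
      linear_combination -(hp a (PP ζ)) * h5
  have hc0d : ∀ ζ : ℂ, -σ < ζ.im → DifferentiableAt ℂ c0 ζ := by
    intro ζ hζ
    by_cases hb' : ‖hp b (PP ζ)‖ < ε₁
    · have h3 : c0 =ᶠ[𝓝 ζ] fun ζ =>
          -(hp a (PP ζ) * w (PP ζ) * ept (-(hp b (PP ζ) * w (PP ζ)))) := by
        have h4 : ∀ᶠ z in 𝓝 ζ, ‖hp b (PP z)‖ < ε₁ :=
          (hbd ζ hζ).continuousAt.norm.eventually_lt continuousAt_const hb'
        filter_upwards [h4, hopen.mem_nhds hζ] with z hz1 hz2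
        exact hc0s z hz2 hz1
      refine DifferentiableAt.congr_of_eventuallyEq ?_ h3
      have e1 := had ζ hζ
      have e2 := hbd ζ hζ
      have e3 := hwd ζ hζ hb'
      exact ((e1.mul e3).mul (ept_diff.differentiableAt.comp ζ (e2.mul e3).neg)).neg
    · have hne : hp b (PP ζ) ≠ 0 := by
        intro h3
        apply hb'
        rw [h3, norm_zero]; exact hε
      have h3 : c0 =ᶠ[𝓝 ζ] fun ζ =>
          (Complex.exp (ψ (PP ζ)) - hp a (PP ζ)) / hp b (PP ζ) := by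
        have h4 : ∀ᶠ z in 𝓝 ζ, hp b (PP z) ≠ 0 :=
          (hbd ζ hζ).continuousAt.eventually_ne hne
        filter_upwards [h4] with z hz1
        simp only [hc0]
        rw [if_neg hz1]
      refine DifferentiableAt.congr_of_eventuallyEq ?_ h3
      exact ((hψd ζ hζ).cexp.sub (had ζ hζ)).div (hbd ζ hζ) hne
  have hpb : ∀ ζ : ℂ, hp b (PP (ζ + 2 * Real.pi)) = hp b (PP ζ) := by
    intro ζ; rw [hPper, hp_per]
  have hpa : ∀ ζ : ℂ, hp a (PP (ζ + 2 * Real.pi)) = hp a (PP ζ) := by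
    intro ζ; rw [hPper, hp_per]
  have hB0 : 0 ≤ B := (norm_nonneg _).trans (hB (0, 0) le_rfl).1
  have hψB : ∀ p : ℝ × ℝ, 0 ≤ p.2 → ‖ψ p‖ ≤ 2 * B := by
    intro p hp'
    simp only [hψ]
    refine (norm_sub_le _ _).trans ?_
    rw [norm_mul]
    have e1 := (hB p hp').1
    have e2 := (hB p hp').2
    have e3 := hbn p (by linarith)
    have e4 : ‖hp b p‖ * ‖w p‖ ≤ 1 * B := mul_le_mul e3 e2 (norm_nonneg _) zero_le_one
    linarith
  have hbH : Hinf (fun x : ℝ => b (E (x, 0))) := by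
    have := Hinf_of_cdiff hσ hbd (fun ζ _ => hpb ζ) 1 (fun ζ hζ => hbn _ (by
      show -σ < ζ.im; linarith))
    simpa [PP, hp] using this
  have haH : Hinf (fun x : ℝ => a (E (x, 0))) := by
    have := Hinf_of_cdiff hσ had (fun ζ _ => hpa ζ) 1 (fun ζ hζ => han _ (by
      show -σ < ζ.im; linarith))
    simpa [PP, hp] using this
  have hψH : Hinf (fun x : ℝ => ψ (x, 0)) := by
    have := Hinf_of_cdiff hσ hψd (fun ζ hζ => by
      simp only [hψ]
      rw [hpb, hPper, hφ.per _ hζ, hw.per _ hζ]) (2 * B) (fun ζ hζ => hψB _ hζ)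
    simpa [PP] using this
  have hc0B : ∀ ζ : ℂ, 0 ≤ ζ.im → ‖c0 ζ‖ ≤ (Real.exp (2 * B) + 1) / ε₁ + B * Real.exp B := by
    intro ζ hζ
    have hζ' : -σ < ζ.im := by linarith
    by_cases hb' : ‖hp b (PP ζ)‖ < ε₁
    · rw [hc0s ζ hζ' hb', norm_neg, norm_mul, norm_mul]
      have e1 := han (PP ζ) hζ'
      have e2 := (hB (PP ζ) hζ).2
      have e3 := norm_ept (-(hp b (PP ζ) * w (PP ζ)))
      have e4 : ‖-(hp b (PP ζ) * w (PP ζ))‖ ≤ B := by
        rw [norm_neg, norm_mul]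
        have := mul_le_mul (hbn (PP ζ) hζ') e2 (norm_nonneg _) zero_le_one
        linarith
      have e5 : ‖ept (-(hp b (PP ζ) * w (PP ζ)))‖ ≤ Real.exp B :=
        e3.trans (Real.exp_le_exp.2 e4)
      have e6 : ‖hp a (PP ζ)‖ * ‖w (PP ζ)‖ ≤ 1 * B := mul_le_mul e1 e2 (norm_nonneg _) zero_le_one
      have e7 : 0 ≤ (Real.exp (2 * B) + 1) / ε₁ := by positivity
      have e8 : ‖hp a (PP ζ)‖ * ‖w (PP ζ)‖ * ‖ept (-(hp b (PP ζ) * w (PP ζ)))‖ ≤
          1 * B * Real.exp B := mul_le_mul e6 e5 (norm_nonneg _) (by linarith)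
      linarith
    · have hb'' : ε₁ ≤ ‖hp b (PP ζ)‖ := not_lt.1 hb'
      have hne : hp b (PP ζ) ≠ 0 := by
        intro h3
        apply hb'
        rw [h3, norm_zero]; exact hε
      simp only [hc0]
      rw [if_neg hne, norm_div]
      have e1 : ‖Complex.exp (ψ (PP ζ)) - hp a (PP ζ)‖ ≤ Real.exp (2 * B) + 1 := by
        refine (norm_sub_le _ _).trans (add_le_add ?_ (han _ hζ'))
        rw [Complex.norm_exp]
        exact Real.exp_le_exp.2 ((Complex.re_le_norm _).trans (hψB _ hζ))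
      have e2 : ‖Complex.exp (ψ (PP ζ)) - hp a (PP ζ)‖ / ‖hp b (PP ζ)‖ ≤
          (Real.exp (2 * B) + 1) / ε₁ :=
        div_le_div₀ (by positivity) e1 hε hb''
      have e3 : 0 ≤ B * Real.exp B := by positivity
      linarith
  have hc0H : Hinf (fun x : ℝ => c0 x) := by
    refine Hinf_of_cdiff hσ hc0d (fun ζ hζ => ?_) _ hc0B
    simp only [hc0, hψ]
    rw [hpb, hpa, hPper, hφ.per _ hζ, hw.per _ hζ]
  have hbg : Hinf (fun x => b (E (x, 0)) * g x) := hbH.mul hg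
  have hexp : Hinf (fun x => Complex.exp (b (E (x, 0)) * g x)) :=
    Hinf_entire hbg Complex.exp Complex.differentiable_exp
  have hept : Hinf (fun x => ept (b (E (x, 0)) * g x)) := Hinf_entire hbg ept ept_diff
  have hPx : ∀ x : ℝ, PP (x : ℂ) = (x, 0) := fun x => by simp [PP]
  have hid : ∀ x : ℝ, Complex.exp (φ (x, 0) - b (E (x, 0)) * (w (x, 0) - g x))
      = a (E (x, 0)) + b (E (x, 0)) * (c0 x * Complex.exp (b (E (x, 0)) * g x) +
        a (E (x, 0)) * (g x * ept (b (E (x, 0)) * g x))) := by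
    intro x
    have e1 := hc0b x (by simpa using hσ)
    rw [hPx] at e1
    have e2 : φ (x, 0) - b (E (x, 0)) * (w (x, 0) - g x) = ψ (x, 0) + b (E (x, 0)) * g x := by
      simp only [hψ, hp]; ring
    rw [e2, Complex.exp_add, e1]
    have e3 := mul_ept (b (E (x, 0)) * g x)
    simp only [hp]
    linear_combination -(a (E (x, 0))) * e3
  constructor
  · have e1 := (hψH.add hbg).ha
    have e2 : (fun x => φ (x, 0) - b (E (x, 0)) * (w (x, 0) - g x)) =
        fun x => ψ (x, 0) + b (E (x, 0)) * g x := by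
      funext x
      simp only [hψ, hp]; ring
    rw [e2]
    exact e1
  · refine ⟨fun x => c0 x * Complex.exp (b (E (x, 0)) * g x) +
        a (E (x, 0)) * (g x * ept (b (E (x, 0)) * g x)),
      (hc0H.mul hexp).add (haH.mul (hg.mul hept)), ?_, ae_of_all _ hid⟩
    unfold BD at hwg ⊢
    filter_upwards [hwg] with x hx
    have hid' := hid x
    set c := c0 x * Complex.exp (b (E (x, 0)) * g x) +
        a (E (x, 0)) * (g x * ept (b (E (x, 0)) * g x)) with hc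
    set W := w (x, 0) - g x with hW
    have f1 : ‖b (E (x, 0))‖ ≤ 1 := hbn (x, 0) (by simpa using hσ)
    have f2 : ‖a (E (x, 0))‖ ≤ 1 := han (x, 0) (by simpa using hσ)
    have f3 : ‖b (E (x, 0)) * W‖ ≤ C := by
      rw [norm_mul]
      have := mul_le_mul f1 hx (norm_nonneg _) zero_le_one
      linarith
    by_cases hb' : ‖b (E (x, 0))‖ < ε₁
    · have e1 := h2 (x, 0) (by simpa using hσ) hb'
      have e0 : 0 ≤ (Real.exp (2 * C) + 1) / ε₁ := by positivity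
      by_cases hb0 : b (E (x, 0)) = 0
      · have e2 : c = -(a (E (x, 0)) * W) := by
          rw [hc, hb0, zero_mul, Complex.exp_zero, ept_zero, hW]
          simp only [hc0]
          rw [hPx, if_pos (show hp b (x, 0) = 0 from hb0)]
          simp only [hp]
          ring
        rw [e2, norm_neg, norm_mul]
        have e3 : ‖a (E (x, 0))‖ * ‖W‖ ≤ 1 * C := mul_le_mul f2 hx (norm_nonneg _) zero_le_one
        have e4 : C ≤ C * Real.exp C := le_mul_of_one_le_right hC (Real.one_le_exp hC)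
        linarith
      · have e2 : b (E (x, 0)) * c = a (E (x, 0)) * (Complex.exp (-(b (E (x, 0)) * W)) - 1) := by
          have e3 : Complex.exp (φ (x, 0) - b (E (x, 0)) * W) =
              a (E (x, 0)) * Complex.exp (-(b (E (x, 0)) * W)) := by
            rw [sub_eq_add_neg, Complex.exp_add, e1.1]; rfl
          rw [e3] at hid'
          linear_combination -hid'
        have e3 : ‖b (E (x, 0))‖ * ‖c‖ ≤ ‖b (E (x, 0))‖ * (C * Real.exp C) := by
          rw [← norm_mul, e2, norm_mul]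
          have e4 := norm_exp_sub_one (-(b (E (x, 0)) * W))
          rw [norm_neg] at e4
          calc ‖a (E (x, 0))‖ * ‖Complex.exp (-(b (E (x, 0)) * W)) - 1‖
              ≤ 1 * (‖b (E (x, 0)) * W‖ * Real.exp ‖b (E (x, 0)) * W‖) :=
                mul_le_mul f2 e4 (norm_nonneg _) zero_le_one
            _ ≤ 1 * (‖b (E (x, 0)) * W‖ * Real.exp C) := by gcongr
            _ = ‖b (E (x, 0))‖ * (‖W‖ * Real.exp C) := by rw [norm_mul]; ring
            _ ≤ ‖b (E (x, 0))‖ * (C * Real.exp C) := by gcongr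
        have e4 := le_of_mul_le_mul_left e3 (norm_pos_iff.2 hb0)
        linarith
    · have hb'' : ε₁ ≤ ‖b (E (x, 0))‖ := not_lt.1 hb'
      have hbpos : 0 < ‖b (E (x, 0))‖ := lt_of_lt_of_le hε hb''
      have e1 : ‖b (E (x, 0))‖ * ‖c‖ ≤ Real.exp (2 * C) + 1 := by
        rw [← norm_mul]
        have e2 : b (E (x, 0)) * c = Complex.exp (φ (x, 0) - b (E (x, 0)) * W) - a (E (x, 0)) := by
          rw [hid']; ring
        rw [e2]
        refine (norm_sub_le _ _).trans (add_le_add ?_ f2)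
        rw [Complex.norm_exp]
        apply Real.exp_le_exp.2
        rw [Complex.sub_re]
        have e3 := hre x
        have e4 := (abs_le.1 e3).2
        have e5 := (Complex.abs_re_le_norm (b (E (x, 0)) * W)).trans f3
        have e6 := (abs_le.1 e5).1
        linarith
      have e2 : ‖c‖ ≤ (Real.exp (2 * C) + 1) / ε₁ := by
        rw [le_div_iff₀ hε]
        calc ‖c‖ * ε₁ ≤ ‖c‖ * ‖b (E (x, 0))‖ := mul_le_mul_of_nonneg_left hb'' (norm_nonneg _)
          _ = ‖b (E (x, 0))‖ * ‖c‖ := mul_comm _ _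
          _ ≤ _ := e1
      have e3 : 0 ≤ C * Real.exp C := by positivity
      linarith

end Pool.H14.SR
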