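import Pool.Agent.H14.SR.Basic
import Pool.Agent.H14.SR.CE
open MeasureTheory Set Filter Topology
noncomputable section
namespace Pool.H14.SR

namespace LBaux

/-- clamp the second coordinate from below -/
def cl (c : ℝ) (u : ℝ × ℝ → ℝ) (p : ℝ × ℝ) : ℝ := u (p.1, max p.2 c)

theorem cl_cont {u : ℝ × ℝ → ℝ} {σ c : ℝ} (hc : -σ < c) (hu : ContinuousOn u {p | -σ < p.2}) :
    Continuous (cl c u) := by
  unfold cl
  have h : Continuous fun p : ℝ × ℝ => (p.1, max p.2 c) := by fun_prop
  exact hu.comp_continuous h (fun p => lt_of_lt_of_le hc (le_max_right _ _))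

theorem int_cl (u : ℝ × ℝ → ℝ) {c x y Y : ℝ} (h1 : c ≤ y) (h2 : c ≤ Y) :
    ∫ s in y..Y, u (x, s) = ∫ s in y..Y, cl c u (x, s) := by
  refine intervalIntegral.integral_congr fun s hs => ?_
  have : c ≤ s := (le_min h1 h2).trans hs.1
  simp [cl, max_eq_left this]

theorem param_deriv {u ux : ℝ × ℝ → ℝ} (hu : Continuous u) (hux : Continuous ux)
    (hd : ∀ p : ℝ × ℝ, HasDerivAt (fun x => u (x, p.2)) (ux p) p.1) (a b x : ℝ) :
    HasDerivAt (fun x => ∫ t in a..b, u (x, t)) (∫ t in a..b, ux (x, t)) x := by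
  obtain ⟨C, hC⟩ := ((isCompact_Icc : IsCompact (Icc (x - 1) (x + 1))).prod isCompact_uIcc).exists_bound_of_continuousOn
    (f := ux) (s := Icc (x - 1) (x + 1) ×ˢ uIcc a b) hux.continuousOn
  refine (intervalIntegral.hasDerivAt_integral_of_dominated_loc_of_deriv_le
    (F := fun x t => u (x, t)) (F' := fun x t => ux (x, t)) (bound := fun _ => C)
    (s := Icc (x - 1) (x + 1)) (Icc_mem_nhds (by linarith) (by linarith)) ?_ ?_ ?_ ?_ ?_ ?_).2
  · exact Eventually.of_forall fun x =>
      (hu.comp (continuous_const.prodMk continuous_id)).aestronglyMeasurable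
  · exact (hu.comp (continuous_const.prodMk continuous_id)).intervalIntegrable _ _
  · exact (hux.comp (continuous_const.prodMk continuous_id)).aestronglyMeasurable
  · exact ae_of_all _ fun t ht x hx => hC (x, t) ⟨hx, uIoc_subset_uIcc ht⟩
  · exact intervalIntegrable_const
  · exact ae_of_all _ fun t _ x _ => hd (x, t)

theorem param_cont {u : ℝ × ℝ → ℝ} {σ Y : ℝ} (hY : -σ < Y) (hu : ContinuousOn u {p | -σ < p.2}) :
    ContinuousOn (fun p : ℝ × ℝ => ∫ s in p.2..Y, u (p.1, s)) {p | -σ < p.2} := by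
  intro p hp
  have hp' : -σ < p.2 := hp
  set c : ℝ := (-σ + min p.2 Y) / 2 with hc
  have hm : -σ < min p.2 Y := lt_min hp' hY
  have h1 : -σ < c := by rw [hc]; linarith
  have h2 : c < p.2 := by have := min_le_left p.2 Y; rw [hc]; linarith
  have h3 : c < Y := by have := min_le_right p.2 Y; rw [hc]; linarith
  have hcont : Continuous (fun p : ℝ × ℝ => ∫ s in p.2..Y, cl c u (p.1, s)) := by
    have e : (fun p : ℝ × ℝ => ∫ s in p.2..Y, cl c u (p.1, s)) =
        fun p : ℝ × ℝ => -∫ s in Y..p.2, cl c u (p.1, s) := by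
      funext q
      rw [intervalIntegral.integral_symm]
    rw [e]
    have hF : Continuous (Function.uncurry fun (q : ℝ × ℝ) (t : ℝ) => cl c u (q.1, t)) :=
      (cl_cont h1 hu).comp ((continuous_fst.comp continuous_fst).prodMk continuous_snd)
    exact (intervalIntegral.continuous_parametric_intervalIntegral_of_continuous hF
      continuous_snd).neg
  have hev : (fun p : ℝ × ℝ => ∫ s in p.2..Y, u (p.1, s)) =ᶠ[𝓝 p]
      (fun p : ℝ × ℝ => ∫ s in p.2..Y, cl c u (p.1, s)) := by
    have : ∀ᶠ q : ℝ × ℝ in 𝓝 p, c < q.2 :=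
      (isOpen_lt continuous_const continuous_snd).mem_nhds h2
    filter_upwards [this] with q hq
    exact int_cl u hq.le h3.le
  exact (hcont.continuousAt.congr hev.symm).continuousWithinAt

theorem int_qk (z : ℝ × ℝ) (hz : 0 < z.2) (y : ℝ) (hy : 0 ≤ y) :
    ∫⁻ x : ℝ, ENNReal.ofReal (qk z (x, y)) ≤ ENNReal.ofReal (4 * Real.pi) := by
  have hb : 0 < y + z.2 := by linarith
  have hfun : (fun x : ℝ => qk z (x, y)) = fun x : ℝ =>
      (4 * z.2 / (y + z.2) ^ 2) * (1 + ((x - z.1) / (y + z.2)) ^ 2)⁻¹ := by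
    funext x
    unfold qk
    simp only
    have h1 : 0 < (x - z.1) ^ 2 + (y + z.2) ^ 2 := by positivity
    have h2 : 0 < 1 + ((x - z.1) / (y + z.2)) ^ 2 := by positivity
    field_simp
    ring
  have hint : Integrable (fun x : ℝ => (1 + ((x - z.1) / (y + z.2)) ^ 2)⁻¹) := by
    have h1 := (integrable_inv_one_add_sq.comp_div hb.ne')
    exact h1.comp_sub_right z.1
  have hval : ∫ x : ℝ, (1 + ((x - z.1) / (y + z.2)) ^ 2)⁻¹ = (y + z.2) * Real.pi := by
    have h1 := integral_sub_right_eq_self (μ := volume)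
      (fun x : ℝ => (1 + (x / (y + z.2)) ^ 2)⁻¹) z.1
    rw [h1]
    have h2 := Measure.integral_comp_div (fun x : ℝ => (1 + x ^ 2)⁻¹) (y + z.2)
    rw [h2, integral_univ_inv_one_add_sq, abs_of_pos hb, smul_eq_mul]
  rw [← ofReal_integral_eq_lintegral_ofReal]
  · apply ENNReal.ofReal_le_ofReal
    rw [hfun, integral_const_mul, hval]
    have h3 : 4 * z.2 / (y + z.2) ^ 2 * ((y + z.2) * Real.pi) =
        4 * Real.pi * (z.2 / (y + z.2)) := by
      field_simp
    rw [h3]
    have h4 : z.2 / (y + z.2) ≤ 1 := by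
      rw [div_le_one hb]; linarith
    have hpi := Real.pi_pos
    nlinarith
  · rw [hfun]
    exact hint.const_mul _
  · refine ae_of_all _ fun x => ?_
    unfold qk
    simp only [Pi.zero_apply]
    positivity

theorem meas_qk (z : ℝ × ℝ) : Measurable (qk z) := by
  unfold qk
  fun_prop

end LBaux

open LBaux in
/-- **(LB)** The last band: sources in `y ≤ 2h` (`h` tiny) flow straight down.  `X₂(x,y) = ∫_y^{2h} m(x,s)ds`.
`X₂(p) ≠ 0` gives `s ∈ [p.2, 2h]` with `m(p.1,s) ≠ 0`, `|b(p.1,s)| ≥ 2δ`, and `|b(p)| ≥ 2δ - (2h+σ)/(log ρ - σ) ≥ δ`.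
Potential: `0 ≤ X₂ ≤ 2h·Cm/(log ρ)²` on `y ≥ 0` (`hp_cauchy`), `X₂ = 0` for `y ≥ 2h`,
`∬_{0<y<2h} q_z ≤ 4π·2h`. -/
theorem LB {δ ρ : ℝ} {a b F : ℂ → ℂ} (H : Dat δ ρ a b F) (Cm h σ : ℝ) (hCm : 0 ≤ Cm) (hh : 0 < h)
    (hσ : 0 < σ) (hσρ : σ < Real.log ρ) (hsm : (2 * h + σ) / (Real.log ρ - σ) ≤ δ)
    (m mx my : ℝ × ℝ → ℝ) (hm : C1 σ m mx my) (m0 : ∀ p : ℝ × ℝ, -σ < p.2 → 0 ≤ m p)
    (hma : ∀ p : ℝ × ℝ, 0 < p.2 → m p ≤ Cm * ‖hp (Dz a) p‖ ^ 2)
    (hsupp : ∀ p : ℝ × ℝ, -σ < p.2 → m p ≠ 0 → p.2 ≤ 2 * h ∧ 2 * δ ≤ ‖hp b p‖) :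
    ∃ X2 X2x X2y : ℝ × ℝ → ℝ, C1 σ X2 X2x X2y ∧
      (∀ p : ℝ × ℝ, -σ < p.2 → -X2y p = m p) ∧
      (∀ p : ℝ × ℝ, -σ < p.2 → 0 ≤ X2 p) ∧
      (∀ p : ℝ × ℝ, 2 * h ≤ p.2 → X2 p = 0) ∧
      (∀ p : ℝ × ℝ, -σ < p.2 → ‖hp b p‖ < δ → X2 p = 0) ∧
      (∀ z : ℝ × ℝ, 0 < z.2 →
        ∫⁻ p in HP, ENNReal.ofReal (X2 p * qk z p)
          ≤ ENNReal.ofReal (60 * Cm * h ^ 2 / (Real.log ρ) ^ 2)) := by
  classical
  have hρ := H.hρ
  have hρ0 : 0 < ρ := by linarith
  have hlog : 0 < Real.log ρ := Real.log_pos hρ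
  have hlσ : 0 < Real.log ρ - σ := by linarith
  set X2 : ℝ × ℝ → ℝ := fun p => ∫ s in p.2..(2 * h), m (p.1, s) with hX2
  have hY : -σ < 2 * h := by linarith
  have hsl : ∀ x : ℝ, ContinuousOn (fun s => m (x, s)) (Ioi (-σ)) := by
    intro x
    exact hm.c.comp (by fun_prop) (fun s hs => hs)
  have hX0 : ∀ p : ℝ × ℝ, 2 * h ≤ p.2 → X2 p = 0 := by
    intro p hp
    simp only [hX2]
    rw [intervalIntegral.integral_of_ge hp, setIntegral_eq_zero_of_forall_eq_zero, neg_zero]
    intro s hs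
    by_contra hne
    have := (hsupp (p.1, s) (by have := hs.1; simp only; linarith) hne).1
    simp only at this
    linarith [hs.1]
  refine ⟨X2, fun p => ∫ s in p.2..(2 * h), mx (p.1, s), fun p => -m p, ?_, ?_, ?_, ?_, ?_, ?_⟩
  · refine ⟨?_, ?_, ?_, ?_, ?_, ?_⟩
    · intro p hp
      set c : ℝ := min p.2 (2 * h) with hc
      have h1 : -σ < c := lt_min hp hY
      have h2 : c ≤ p.2 := min_le_left _ _
      have h3 : c ≤ 2 * h := min_le_right _ _
      have e1 : (fun x : ℝ => X2 (x, p.2)) = fun x : ℝ => ∫ s in p.2..(2 * h), cl c m (x, s) := by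
        funext x
        exact int_cl m h2 h3
      rw [e1, int_cl mx h2 h3]
      refine param_deriv (cl_cont h1 hm.c) (cl_cont h1 hm.cx) ?_ _ _ _
      intro q
      exact hm.dx (q.1, max q.2 c) (lt_of_lt_of_le h1 (le_max_right _ _))
    · intro p hp'
      show HasDerivAt (fun y => ∫ s in y..(2 * h), m (p.1, s)) (-m (p.1, p.2)) p.2
      refine intervalIntegral.integral_hasDerivAt_left (f := fun s => m (p.1, s)) ?_ ?_ ?_
      · apply ContinuousOn.intervalIntegrable
        refine (hsl p.1).mono fun s hs => ?_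
        exact lt_of_lt_of_le (lt_min hp' hY) hs.1
      · exact (hsl p.1).stronglyMeasurableAtFilter isOpen_Ioi _ hp'
      · exact (hsl p.1).continuousAt (Ioi_mem_nhds hp')
    · exact param_cont hY hm.c
    · exact param_cont hY hm.cx
    · exact hm.c.neg
    · intro p hp
      refine intervalIntegral.integral_congr fun s hs => ?_
      exact hm.per (p.1, s) (lt_of_lt_of_le (lt_min hp hY) hs.1)
  · intro p _
    simp
  · intro p hp
    rcases le_total p.2 (2 * h) with h1 | h1
    · exact intervalIntegral.integral_nonneg h1 fun s hs => m0 _ (lt_of_lt_of_le hp hs.1)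
    · rw [hX0 p h1]
  · exact hX0
  · intro p hps hb
    by_contra hne
    have hlt : p.2 < 2 * h := by
      by_contra hcon
      exact hne (hX0 p (not_lt.1 hcon))
    have hex : ∃ s ∈ Icc p.2 (2 * h), m (p.1, s) ≠ 0 := by
      by_contra hcon
      push Not at hcon
      apply hne
      simp only [hX2]
      rw [intervalIntegral.integral_congr (g := fun _ => (0 : ℝ))]
      · simp
      · intro s hs
        rw [uIcc_of_le hlt.le] at hs
        exact hcon s hs
    obtain ⟨s, hs, hms⟩ := hex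
    have hσs : -σ < s := lt_of_lt_of_le hps hs.1
    have hbs := (hsupp (p.1, s) hσs hms).2
    have hlip := hp_lip b ρ hρ0 H.hb H.hb1 (-σ) (by linarith) (p.1, s) p hσs.le hps.le
    have e1 : |(p.1, s).1 - p.1| + |(p.1, s).2 - p.2| = s - p.2 := by
      simp only [sub_self, abs_zero, zero_add]
      rw [abs_of_nonneg (by linarith [hs.1])]
    rw [e1] at hlip
    have h3 : (s - p.2) / (-σ + Real.log ρ) ≤ (2 * h + σ) / (Real.log ρ - σ) := by
      rw [show -σ + Real.log ρ = Real.log ρ - σ by ring]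
      apply div_le_div_of_nonneg_right _ hlσ.le
      linarith [hs.2]
    have h4 : ‖hp b (p.1, s)‖ - ‖hp b p‖ ≤ ‖hp b (p.1, s) - hp b p‖ := norm_sub_norm_le _ _
    linarith
  · intro z hz
    set K : ℝ := 2 * h * (Cm / (Real.log ρ) ^ 2) with hK
    have hK0 : 0 ≤ K := by positivity
    have hXle : ∀ p : ℝ × ℝ, 0 < p.2 → X2 p ≤ K := by
      intro p hp0
      rcases le_total p.2 (2 * h) with h1 | h1
      · have h2 : X2 p ≤ ∫ s in p.2..(2 * h), (Cm / (Real.log ρ) ^ 2 : ℝ) := by
          refine intervalIntegral.integral_mono_on h1 ?_ intervalIntegrable_const ?_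
          · apply ContinuousOn.intervalIntegrable
            refine (hsl p.1).mono fun s hs => ?_
            exact lt_of_lt_of_le (lt_min (by linarith) hY) hs.1
          · intro s hs
            have hs0 : 0 < s := lt_of_lt_of_le hp0 hs.1
            refine (hma (p.1, s) hs0).trans ?_
            have h3 := hp_cauchy a ρ hρ0 H.ha H.ha1 (p.1, s) (by simp only; linarith)
            have h4 : 1 / ((p.1, s).2 + Real.log ρ) ≤ 1 / Real.log ρ := by
              apply one_div_le_one_div_of_le hlog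
              simp only
              linarith
            have h5 : ‖hp (Dz a) (p.1, s)‖ ^ 2 ≤ (1 / Real.log ρ) ^ 2 :=
              pow_le_pow_left₀ (norm_nonneg _) (h3.trans h4) 2
            calc Cm * ‖hp (Dz a) (p.1, s)‖ ^ 2 ≤ Cm * (1 / Real.log ρ) ^ 2 :=
                  mul_le_mul_of_nonneg_left h5 hCm
              _ = Cm / (Real.log ρ) ^ 2 := by rw [div_pow]; ring
        rw [intervalIntegral.integral_const, smul_eq_mul] at h2
        refine h2.trans ?_
        rw [hK]
        apply mul_le_mul_of_nonneg_right _ (by positivity)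
        linarith
      · rw [hX0 p h1]
        exact hK0
    have hq0 : ∀ p, 0 ≤ qk z p := by
      intro p
      unfold qk
      positivity
    have hmeas : Measurable fun p : ℝ × ℝ =>
        ({p : ℝ × ℝ | 0 < p.2 ∧ p.2 < 2 * h}).indicator (fun p => ENNReal.ofReal (K * qk z p)) p := by
      apply Measurable.indicator
      · exact ((meas_qk z).const_mul K).ennreal_ofReal
      · exact (measurableSet_lt measurable_const measurable_snd).inter
          (measurableSet_lt measurable_snd measurable_const)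
    have hHP : MeasurableSet HP := measurableSet_lt measurable_const measurable_snd
    calc ∫⁻ p in HP, ENNReal.ofReal (X2 p * qk z p)
        ≤ ∫⁻ p : ℝ × ℝ, ({p : ℝ × ℝ | 0 < p.2 ∧ p.2 < 2 * h}).indicator
            (fun p => ENNReal.ofReal (K * qk z p)) p := by
          rw [← lintegral_indicator hHP]
          refine lintegral_mono fun p => ?_
          by_cases hp : p ∈ HP
          · rw [indicator_of_mem hp]
            by_cases hp2 : p.2 < 2 * h
            · rw [indicator_of_mem (show p ∈ {p : ℝ × ℝ | 0 < p.2 ∧ p.2 < 2 * h} from ⟨hp, hp2⟩)]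
              apply ENNReal.ofReal_le_ofReal
              exact mul_le_mul_of_nonneg_right (hXle p hp) (hq0 p)
            · rw [hX0 p (not_lt.1 hp2)]
              simp
          · rw [indicator_of_notMem hp]
            exact zero_le
      _ = ∫⁻ y : ℝ, ∫⁻ x : ℝ, ({p : ℝ × ℝ | 0 < p.2 ∧ p.2 < 2 * h}).indicator
            (fun p => ENNReal.ofReal (K * qk z p)) (x, y) := by
          rw [Measure.volume_eq_prod, lintegral_prod_symm' _ hmeas]
      _ ≤ ∫⁻ y : ℝ, (Ioo 0 (2 * h)).indicator (fun _ => ENNReal.ofReal (K * (4 * Real.pi))) y := by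
          refine lintegral_mono fun y => ?_
          by_cases hy : y ∈ Ioo 0 (2 * h)
          · rw [indicator_of_mem hy]
            have e : ∀ x : ℝ, ({p : ℝ × ℝ | 0 < p.2 ∧ p.2 < 2 * h}).indicator
                (fun p => ENNReal.ofReal (K * qk z p)) (x, y) =
                ENNReal.ofReal K * ENNReal.ofReal (qk z (x, y)) := by
              intro x
              rw [indicator_of_mem (show (x, y) ∈ {p : ℝ × ℝ | 0 < p.2 ∧ p.2 < 2 * h} from hy),
                ENNReal.ofReal_mul hK0]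
            simp_rw [e]
            rw [lintegral_const_mul _ (by
              exact ((meas_qk z).comp (measurable_id.prodMk measurable_const)).ennreal_ofReal),
              ENNReal.ofReal_mul hK0]
            gcongr
            exact int_qk z hz y hy.1.le
          · have e : ∀ x : ℝ, ({p : ℝ × ℝ | 0 < p.2 ∧ p.2 < 2 * h}).indicator
                (fun p => ENNReal.ofReal (K * qk z p)) (x, y) = 0 := by
              intro x
              exact indicator_of_notMem
                (show (x, y) ∉ {p : ℝ × ℝ | 0 < p.2 ∧ p.2 < 2 * h} from fun hmem => hy hmem) _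
            simp_rw [e]
            simp
      _ = ENNReal.ofReal (K * (4 * Real.pi) * (2 * h)) := by
          rw [lintegral_indicator measurableSet_Ioo, setLIntegral_const, Real.volume_Ioo,
            sub_zero, ← ENNReal.ofReal_mul (by positivity)]
      _ ≤ ENNReal.ofReal (60 * Cm * h ^ 2 / (Real.log ρ) ^ 2) := by
          apply ENNReal.ofReal_le_ofReal
          rw [hK]
          have e : 2 * h * (Cm / Real.log ρ ^ 2) * (4 * Real.pi) * (2 * h) =
              16 * Real.pi * (Cm * h ^ 2 / Real.log ρ ^ 2) := by ring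
          have e2 : 60 * Cm * h ^ 2 / Real.log ρ ^ 2 = 60 * (Cm * h ^ 2 / Real.log ρ ^ 2) := by ring
          rw [e, e2]
          apply mul_le_mul_of_nonneg_right _ (by positivity)
          have := Real.pi_lt_d2
          linarith

end Pool.H14.SR
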