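import Pool.Agent.H14.SR.Basic

open MeasureTheory Set Filter Topology
noncomputable section
namespace Pool.H14.SR

/-- the smooth step at height `Y/2^k` -/
def pa_P (Y : ℝ) (k : ℕ) (y : ℝ) : ℝ := Real.smoothTransition (2 * (y * 2 ^ k / Y) - 1)

theorem pa_P_contDiff (Y : ℝ) (k : ℕ) : ContDiff ℝ 2 (pa_P Y k) := by
  unfold pa_P
  exact (Real.smoothTransition.contDiff (n := 2)).comp (by fun_prop)

theorem pa_P_zero (Y : ℝ) (hY : 0 < Y) (k : ℕ) (y : ℝ) (h : y ≤ Y / 2 ^ k / 2) : pa_P Y k y = 0 := by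
  unfold pa_P
  apply Real.smoothTransition.zero_of_nonpos
  rw [div_div, le_div_iff₀ (by positivity)] at h
  have : y * 2 ^ k / Y ≤ 1 / 2 := by
    rw [div_le_iff₀ hY]
    linarith
  linarith

theorem pa_P_one (Y : ℝ) (hY : 0 < Y) (k : ℕ) (y : ℝ) (h : Y / 2 ^ k ≤ y) : pa_P Y k y = 1 := by
  unfold pa_P
  apply Real.smoothTransition.one_of_one_le
  rw [div_le_iff₀ (by positivity)] at h
  have : 1 ≤ y * 2 ^ k / Y := by
    rw [le_div_iff₀ hY]
    linarith
  linarith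

theorem pa_P_mono (Y : ℝ) (hY : 0 < Y) (k : ℕ) (y : ℝ) : pa_P Y k y ≤ pa_P Y (k + 1) y := by
  rcases le_total y 0 with hy | hy
  · rw [pa_P_zero Y hY k y (hy.trans (by positivity)),
      pa_P_zero Y hY (k + 1) y (hy.trans (by positivity))]
  · unfold pa_P
    apply Real.smoothTransition.monotone
    have : y * 2 ^ k / Y ≤ y * 2 ^ (k + 1) / Y := by
      apply div_le_div_of_nonneg_right _ hY.le
      apply mul_le_mul_of_nonneg_left _ hy
      exact pow_le_pow_right₀ (by norm_num) (by omega)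
    linarith

/-- `0, P_0, …, P_{K-1}, 1, 1, …` -/
def pa_Q (Y : ℝ) (K : ℕ) : ℕ → ℝ → ℝ
  | 0 => fun _ => 0
  | (k + 1) => fun y => if k < K then pa_P Y k y else 1

theorem pa_Q_contDiff (Y : ℝ) (K k : ℕ) : ContDiff ℝ 2 (pa_Q Y K k) := by
  cases k with
  | zero => exact contDiff_const
  | succ k =>
    by_cases h : k < K
    · have : pa_Q Y K (k + 1) = pa_P Y k := by
        funext y; simp [pa_Q, h]
      rw [this]; exact pa_P_contDiff Y k
    · have : pa_Q Y K (k + 1) = fun _ => 1 := by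
        funext y; simp [pa_Q, h]
      rw [this]; exact contDiff_const

theorem pa_Q_mem (Y : ℝ) (K k : ℕ) (y : ℝ) : 0 ≤ pa_Q Y K k y ∧ pa_Q Y K k y ≤ 1 := by
  cases k with
  | zero => simp [pa_Q]
  | succ k =>
    by_cases h : k < K
    · simp only [pa_Q, if_pos h]
      exact ⟨Real.smoothTransition.nonneg _, Real.smoothTransition.le_one _⟩
    · simp [pa_Q, h]

theorem pa_Q_mono (Y : ℝ) (hY : 0 < Y) (K k : ℕ) (y : ℝ) : pa_Q Y K k y ≤ pa_Q Y K (k + 1) y := by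
  cases k with
  | zero =>
    simpa [pa_Q] using (pa_Q_mem Y K 1 y).1
  | succ k =>
    by_cases h : k + 1 < K
    · simp only [pa_Q, if_pos h, if_pos (show k < K by omega)]
      exact pa_P_mono Y hY k y
    · have : pa_Q Y K (k + 1 + 1) y = 1 := by simp only [pa_Q, if_neg h]
      rw [this]
      exact (pa_Q_mem Y K (k + 1) y).2

/-- **(PA)** Partition in height.  `h_k = Y/2^k`.  (`P_k(y) = step(y/h_k)` with a smooth nondecreasing step,
`0` for `u ≤ 1/2`, `1` for `u ≥ 1`; `p_0 = P_0`, `p_k = P_k - P_{k-1}` for `1 ≤ k < K`, `p_K = 1 - P_{K-1}`.) -/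
theorem PA (Y : ℝ) (hY : 0 < Y) (K : ℕ) (hK : 1 ≤ K) :
    ∃ p : ℕ → ℝ → ℝ, (∀ k, ContDiff ℝ 2 (p k)) ∧ (∀ k y, 0 ≤ p k y ∧ p k y ≤ 1) ∧
      (∀ y, ∑ k ∈ Finset.range (K + 1), p k y = 1) ∧
      (∀ k < K, ∀ y, p k y ≠ 0 → Y / 2 ^ k / 2 ≤ y) ∧
      (∀ k < K, 1 ≤ k → ∀ y, p k y ≠ 0 → y ≤ 2 * (Y / 2 ^ k)) ∧
      (∀ y, p K y ≠ 0 → y ≤ 2 * (Y / 2 ^ K)) := by
  refine ⟨fun k y => pa_Q Y K (k + 1) y - pa_Q Y K k y, ?_, ?_, ?_, ?_, ?_, ?_⟩
  · intro k
    exact (pa_Q_contDiff Y K (k + 1)).sub (pa_Q_contDiff Y K k)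
  · intro k y
    have h1 := pa_Q_mem Y K (k + 1) y
    have h2 := pa_Q_mem Y K k y
    have h3 := pa_Q_mono Y hY K k y
    exact ⟨by linarith, by linarith [h1.2, h2.1]⟩
  · intro y
    rw [Finset.sum_range_sub (fun k => pa_Q Y K k y)]
    simp [pa_Q]
  · intro k hk y hne
    by_contra hlt
    push Not at hlt
    apply hne
    have h1 : pa_Q Y K (k + 1) y = 0 := by
      simp only [pa_Q, if_pos hk]
      exact pa_P_zero Y hY k y hlt.le
    have h2 := pa_Q_mono Y hY K k y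
    have h3 := (pa_Q_mem Y K k y).1
    show pa_Q Y K (k + 1) y - pa_Q Y K k y = 0
    linarith
  · intro k hk hk1 y hne
    by_contra hlt
    push Not at hlt
    apply hne
    obtain ⟨l, rfl⟩ : ∃ l, k = l + 1 := ⟨k - 1, by omega⟩
    have e : 2 * (Y / 2 ^ (l + 1)) = Y / 2 ^ l := by
      rw [pow_succ]; field_simp
    rw [e] at hlt
    have h1 : pa_Q Y K (l + 1) y = 1 := by
      simp only [pa_Q, if_pos (show l < K by omega)]
      exact pa_P_one Y hY l y hlt.le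
    have h2 := pa_Q_mono Y hY K (l + 1) y
    have h3 := (pa_Q_mem Y K (l + 1 + 1) y).2
    show pa_Q Y K (l + 1 + 1) y - pa_Q Y K (l + 1) y = 0
    linarith
  · intro y hne
    by_contra hlt
    push Not at hlt
    apply hne
    obtain ⟨l, rfl⟩ : ∃ l, K = l + 1 := ⟨K - 1, by omega⟩
    have e : 2 * (Y / 2 ^ (l + 1)) = Y / 2 ^ l := by
      rw [pow_succ]; field_simp
    rw [e] at hlt
    have h1 : pa_Q Y (l + 1) (l + 1) y = 1 := by
      simp only [pa_Q, if_pos (show l < l + 1 by omega)]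
      exact pa_P_one Y hY l y hlt.le
    have h2 := pa_Q_mono Y hY (l + 1) (l + 1) y
    have h3 := (pa_Q_mem Y (l + 1) (l + 1 + 1) y).2
    show pa_Q Y (l + 1) (l + 1 + 1) y - pa_Q Y (l + 1) (l + 1) y = 0
    linarith

end Pool.H14.SR
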