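import Pool.Agent.H14.SR.Basic
import Pool.Agent.H14.SR.BK
import Pool.Agent.H14.SR.BS
import Pool.Agent.H14.SR.PA
import Pool.Agent.H14.SR.LB
open MeasureTheory Set Filter Topology
noncomputable section
namespace Pool.H14.SR

theorem FLOW_num {δ : ℝ} (hδ : 0 < δ) (hδ2 : δ ≤ 1 / 2) :
    0 < Real.log (16 / δ) ∧ δ * Real.log (16 / δ) ≤ 4 * Real.pi := by
  have h1 : (1 : ℝ) < 16 / δ := by rw [lt_div_iff₀ hδ]; linarith
  refine ⟨Real.log_pos h1, ?_⟩
  have h2 : Real.log (16 / δ) = Real.log 16 + Real.log (1 / δ) := by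
    rw [← Real.log_mul (by norm_num) (by positivity)]
    congr 1; ring
  have h3 : Real.log 16 ≤ 4 := by
    have : (16 : ℝ) = 2 ^ 4 := by norm_num
    rw [this, Real.log_pow]
    have := Real.log_two_lt_d9
    norm_num; linarith
  have h4 : Real.log (1 / δ) ≤ 1 / δ - 1 := Real.log_le_sub_one_of_pos (by positivity)
  have h5 : δ * (1 / δ) = 1 := by field_simp
  have h6 := Real.pi_gt_three
  rw [h2]
  nlinarith

theorem C1_mono {σ σ' : ℝ} {u ux uy : ℝ × ℝ → ℝ} (h : C1 σ u ux uy) (hs : σ' ≤ σ) :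
    C1 σ' u ux uy := by
  have hsub : {p : ℝ × ℝ | -σ' < p.2} ⊆ {p : ℝ × ℝ | -σ < p.2} := by
    intro p hp
    have : -σ' < p.2 := hp
    show -σ < p.2
    linarith
  exact ⟨fun p hp => h.dx p (by linarith), fun p hp => h.dy p (by linarith), h.c.mono hsub,
    h.cx.mono hsub, h.cy.mono hsub, fun p hp => h.per p (by linarith)⟩

theorem C1_sum (K : ℕ) {σ : ℝ} {u ux uy : ℕ → ℝ × ℝ → ℝ}
    (h : ∀ k < K, C1 σ (u k) (ux k) (uy k)) :
    C1 σ (fun p => ∑ k ∈ Finset.range K, u k p) (fun p => ∑ k ∈ Finset.range K, ux k p)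
      (fun p => ∑ k ∈ Finset.range K, uy k p) where
  dx := fun p hp => HasDerivAt.fun_sum (fun k hk => (h k (Finset.mem_range.1 hk)).dx p hp)
  dy := fun p hp => HasDerivAt.fun_sum (fun k hk => (h k (Finset.mem_range.1 hk)).dy p hp)
  c := continuousOn_finsetSum _ (fun k hk => (h k (Finset.mem_range.1 hk)).c)
  cx := continuousOn_finsetSum _ (fun k hk => (h k (Finset.mem_range.1 hk)).cx)
  cy := continuousOn_finsetSum _ (fun k hk => (h k (Finset.mem_range.1 hk)).cy)
  per := fun p hp => Finset.sum_congr rfl (fun k hk => (h k (Finset.mem_range.1 hk)).per p hp)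

theorem C1_add {σ : ℝ} {u ux uy v vx vy : ℝ × ℝ → ℝ} (h : C1 σ u ux uy) (h' : C1 σ v vx vy) :
    C1 σ (fun p => u p + v p) (fun p => ux p + vx p) (fun p => uy p + vy p) where
  dx := fun p hp => (h.dx p hp).add (h'.dx p hp)
  dy := fun p hp => (h.dy p hp).add (h'.dy p hp)
  c := h.c.add h'.c
  cx := h.cx.add h'.cx
  cy := h.cy.add h'.cy
  per := fun p hp => by show u _ + v _ = _; rw [h.per p hp, h'.per p hp]

/-- product with a function of the height. -/
theorem C1_mulh {σ : ℝ} {u ux uy : ℝ × ℝ → ℝ} (h : C1 σ u ux uy) {q : ℝ → ℝ}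
    (hq : ContDiff ℝ 2 q) :
    C1 σ (fun p => q p.2 * u p) (fun p => q p.2 * ux p)
      (fun p => deriv q p.2 * u p + q p.2 * uy p) where
  dx := fun p hp => (h.dx p hp).const_mul (q p.2)
  dy := fun p hp => ((hq.differentiable (by norm_num)) p.2).hasDerivAt.mul (h.dy p hp)
  c := (hq.continuous.comp continuous_snd).continuousOn.mul h.c
  cx := (hq.continuous.comp continuous_snd).continuousOn.mul h.cx
  cy := ((((hq.continuous_deriv (by norm_num)).comp continuous_snd).continuousOn).mul h.c).add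
    ((hq.continuous.comp continuous_snd).continuousOn.mul h.cy)
  per := fun p hp => by show q p.2 * u _ = _; rw [h.per p hp]

/-- extension by zero to `y ≤ 0`. -/
theorem C1_ext {σ₀ : ℝ} {u ux uy : ℝ × ℝ → ℝ} (h : C1 σ₀ u ux uy) (hσ₀ : 0 < σ₀) {q : ℝ → ℝ}
    (hq : ContDiff ℝ 2 q) {y0 : ℝ} (hy0 : 0 < y0) (hz : ∀ y, q y ≠ 0 → y0 ≤ y) (σ : ℝ) :
    C1 σ (fun p : ℝ × ℝ => if 0 < p.2 then q p.2 * u p else 0)
      (fun p : ℝ × ℝ => if 0 < p.2 then q p.2 * ux p else 0)
      (fun p : ℝ × ℝ => if 0 < p.2 then deriv q p.2 * u p + q p.2 * uy p else 0) := by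
  have hP := C1_mulh h hq
  have hq0 : ∀ y, y < y0 → q y = 0 := by
    intro y hy
    by_contra hne
    exact absurd (hz y hne) (not_le.2 hy)
  have hdq0 : ∀ y, y < y0 → deriv q y = 0 := by
    intro y hy
    have : q =ᶠ[𝓝 y] fun _ => 0 := by
      filter_upwards [Iio_mem_nhds hy] with t ht using hq0 t ht
    rw [this.deriv_eq]; simp
  have cont : ∀ (f : ℝ × ℝ → ℝ), ContinuousOn f {p : ℝ × ℝ | -σ₀ < p.2} →
      (∀ p : ℝ × ℝ, p.2 < y0 → f p = 0) →
      Continuous (fun p : ℝ × ℝ => if 0 < p.2 then f p else 0) := by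
    intro f hf hf0
    rw [continuous_iff_continuousAt]
    intro p
    by_cases hp : 0 < p.2
    · have hmem : {p : ℝ × ℝ | 0 < p.2} ∈ 𝓝 p := (isOpen_lt continuous_const continuous_snd).mem_nhds hp
      have hmem2 : {p : ℝ × ℝ | -σ₀ < p.2} ∈ 𝓝 p :=
        (isOpen_lt continuous_const continuous_snd).mem_nhds (show -σ₀ < p.2 by linarith)
      refine (hf.continuousAt hmem2).congr ?_
      filter_upwards [hmem] with r hr
      have : 0 < r.2 := hr
      rw [if_pos this]
    · have hmem : {p : ℝ × ℝ | p.2 < y0} ∈ 𝓝 p :=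
        (isOpen_lt continuous_snd continuous_const).mem_nhds (show p.2 < y0 by linarith)
      refine (continuousAt_const (y := (0 : ℝ))).congr ?_
      filter_upwards [hmem] with r hr
      have : r.2 < y0 := hr
      by_cases h0 : 0 < r.2
      · rw [if_pos h0, hf0 r this]
      · rw [if_neg h0]
  refine ⟨?_, ?_, ?_, ?_, ?_, ?_⟩
  · intro p hp
    by_cases h0 : 0 < p.2
    · simp only [if_pos h0]
      exact hP.dx p (by linarith)
    · simp only [if_neg h0]
      exact hasDerivAt_const _ _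
  · intro p hp
    by_cases h0 : 0 < p.2
    · simp only [if_pos h0]
      have := hP.dy p (by linarith)
      refine this.congr_of_eventuallyEq ?_
      filter_upwards [Ioi_mem_nhds h0] with r hr
      have : 0 < r := hr
      simp only [if_pos this]
    · simp only [if_neg h0]
      refine (hasDerivAt_const p.2 (0 : ℝ)).congr_of_eventuallyEq ?_
      filter_upwards [Iio_mem_nhds (show p.2 < y0 by linarith)] with r hr
      have hr' : r < y0 := hr
      by_cases h1 : 0 < r
      · simp only [if_pos h1, hq0 r hr', zero_mul]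
      · simp only [if_neg h1]
  · exact (cont _ hP.c (fun p hp => by show q p.2 * u p = 0; rw [hq0 _ hp, zero_mul])).continuousOn
  · exact (cont _ hP.cx (fun p hp => by show q p.2 * ux p = 0; rw [hq0 _ hp, zero_mul])).continuousOn
  · exact (cont _ hP.cy (fun p hp => by
      show deriv q p.2 * u p + q p.2 * uy p = 0
      rw [hq0 _ hp, hdq0 _ hp, zero_mul, zero_mul, add_zero])).continuousOn
  · intro p hp
    by_cases h0 : 0 < p.2
    · simp only [if_pos h0]
      rw [h.per p (by linarith)]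
    · simp only [if_neg h0]

theorem FLOW_small (Y L δ Cm e : ℝ) (hY : 0 < Y) (hL : 0 < L) (hδ : 0 < δ)
    (hCm : 0 ≤ Cm) (he : 0 < e) :
    ∃ K : ℕ, 1 ≤ K ∧ Y / 2 ^ K ≤ δ * L / 8 ∧ 60 * Cm * (Y / 2 ^ K) ^ 2 / L ^ 2 ≤ e ∧
      Y / 2 ^ K ≤ Y / 2 := by
  set η : ℝ := min (min (δ * L / 8) 1) (min (e * L ^ 2 / (60 * Cm + 1)) (Y / 2)) with hη
  have hηpos : 0 < η := by
    refine lt_min (lt_min (by positivity) one_pos) (lt_min (by positivity) (by positivity))
  obtain ⟨n, hn⟩ := exists_pow_lt_of_lt_one (div_pos hηpos hY) (by norm_num : (1 / 2 : ℝ) < 1)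
  have h2 : Y / 2 ^ n < η := by
    rw [lt_div_iff₀ hY] at hn
    have : Y / 2 ^ n = (1 / 2) ^ n * Y := by rw [one_div, inv_pow]; field_simp
    rw [this]; exact hn
  have hpow : Y / 2 ^ (n + 1) ≤ Y / 2 ^ n := by
    apply div_le_div_of_nonneg_left hY.le (by positivity)
    exact pow_le_pow_right₀ (by norm_num) (Nat.le_succ n)
  set h : ℝ := Y / 2 ^ (n + 1) with hh
  have hhpos : 0 < h := by positivity
  have hhη : h < η := lt_of_le_of_lt hpow h2
  have e1 : η ≤ δ * L / 8 := (min_le_left _ _).trans (min_le_left _ _)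
  have e2 : η ≤ 1 := (min_le_left _ _).trans (min_le_right _ _)
  have e3 : η ≤ e * L ^ 2 / (60 * Cm + 1) := (min_le_right _ _).trans (min_le_left _ _)
  have e4 : η ≤ Y / 2 := (min_le_right _ _).trans (min_le_right _ _)
  refine ⟨n + 1, by omega, by linarith, ?_, by linarith⟩
  rw [div_le_iff₀ (by positivity)]
  have h3 : h * (60 * Cm + 1) ≤ e * L ^ 2 := by
    have : h ≤ e * L ^ 2 / (60 * Cm + 1) := by linarith
    rwa [le_div_iff₀ (by positivity)] at this
  have h4 : h ^ 2 ≤ h := by nlinarith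
  nlinarith [mul_le_mul_of_nonneg_left h4 (mul_nonneg (by norm_num : (0 : ℝ) ≤ 60) hCm)]

/-- **(FLOW)** The flow theorem.

Proof: `Y = log(16/δ)`, `h_k = Y/2^k`, `N_k = N₀2^k` with `N₀ = ⌈4π/(δY)⌉`, `s_k = 2π/N_k ∈ [δh_k/4, δh_k/2]`
(`4π/(δY) ≥ 1`).  `K` large, then `0 < σ < σ₁ < log ρ` small (`σ₁ ≤ h_K`, `(2h_K+σ)/(log ρ-σ) ≤ δ`,
`60Cm h_K²/(log ρ)² ≤ e`).  `PA`: `m_k = p_k m` for `k < K` (zero for `y ≤ h_k/2`, extended by `0` to `y ≤ 0`; also zero for
`y ≥ Y`, so supported in `[h_k/2, 2h_k]`), `BK`; `m_K = p_K m`, `LB`.  `X₁ = Σ_{k<K} X₁ₖ`,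
`X₂ = Σ_{k<K} X₂ₖ + X₂K`.  Potential: `BS` and `LB`.  Vanishing for `y ≥ Y`: from the bounds on `|X₁|`, `X₂`
(`m = 0` there; `2h_K ≤ Y`).  Periodicity is part of `C1`. -/
theorem FLOW {δ ρ : ℝ} {a b F : ℂ → ℂ} (H : Dat δ ρ a b F) (Cm : ℝ) (hCm : 0 ≤ Cm)
    (m mx my : ℝ × ℝ → ℝ) (hm : C1 (Real.log ρ) m mx my)
    (m0 : ∀ p : ℝ × ℝ, -Real.log ρ < p.2 → 0 ≤ m p)
    (hma : ∀ p : ℝ × ℝ, 0 < p.2 → m p ≤ Cm * ‖hp (Dz a) p‖ ^ 2)
    (hmb : ∀ p : ℝ × ℝ, -Real.log ρ < p.2 → m p ≠ 0 → 2 * δ ≤ ‖hp b p‖)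
    (hmY : ∀ p : ℝ × ℝ, Real.log (16 / δ) ≤ p.2 → m p = 0) (e : ℝ) (he : 0 < e) :
    ∃ σ : ℝ, 0 < σ ∧ σ < Real.log ρ ∧ ∃ X1 X1x X1y X2 X2x X2y : ℝ × ℝ → ℝ,
      C1 σ X1 X1x X1y ∧ C1 σ X2 X2x X2y ∧
      (∀ p : ℝ × ℝ, -σ < p.2 → X1x p - X2y p = m p) ∧
      (∀ p : ℝ × ℝ, -σ < p.2 → ‖hp b p‖ < eps2 δ → X1 p = 0 ∧ X2 p = 0) ∧
      (∀ p : ℝ × ℝ, Real.log (16 / δ) ≤ p.2 → X1 p = 0 ∧ X2 p = 0) ∧
      (∀ t : ℝ, 1 ≤ t → ∀ z : ℝ × ℝ, 0 < z.2 →
        ∫⁻ p in HP, ENNReal.ofReal (Real.exp (-(t * Osc a b F p / 2))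
            * (|X1 p| + |X2 p|) * qk z p)
          ≤ ENNReal.ofReal (250000 * Cm * t ^ (-(1 / 8) : ℝ) + e)) := by
  have hδ := H.hδ
  have hδ2 := H.hδ2
  obtain ⟨hY, hδY⟩ := FLOW_num hδ hδ2
  set Y : ℝ := Real.log (16 / δ) with hYdef
  have hL : 0 < Real.log ρ := Real.log_pos H.hρ
  set L : ℝ := Real.log ρ with hLdef
  have hpi := Real.pi_pos
  obtain ⟨K, hK1, hKδ, hKe, hKY⟩ := FLOW_small Y L δ Cm e hY hL hδ hCm he
  set hK : ℝ := Y / 2 ^ K with hKdef
  have hKpos : 0 < hK := by positivity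
  obtain ⟨pp, ppc, pp01, ppsum, pplow, ppup, ppK⟩ := PA Y hY K hK1
  -- the numbers
  set N0 : ℕ := ⌈4 * Real.pi / (δ * Y)⌉₊ with hN0
  have hδYpos : 0 < δ * Y := by positivity
  have hquot : 1 ≤ 4 * Real.pi / (δ * Y) := by rw [le_div_iff₀ hδYpos]; linarith
  have hN0a : 4 * Real.pi / (δ * Y) ≤ N0 := Nat.le_ceil _
  have hN0b : (N0 : ℝ) < 4 * Real.pi / (δ * Y) + 1 := Nat.ceil_lt_add_one (by positivity)
  have hN0c : (N0 : ℝ) ≤ 8 * Real.pi / (δ * Y) := by
    have : 8 * Real.pi / (δ * Y) = 4 * Real.pi / (δ * Y) + 4 * Real.pi / (δ * Y) := by ring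
    rw [this]; linarith
  have hN0pos : (0 : ℝ) < N0 := by linarith
  have hN0one : 1 ≤ N0 := by exact_mod_cast Nat.pos_of_ne_zero (by
    intro h; rw [h] at hN0pos; simp at hN0pos)
  have hlow : ∀ k < K, hK ≤ Y / 2 ^ k := by
    intro k hk
    apply div_le_div_of_nonneg_left hY.le (by positivity)
    exact pow_le_pow_right₀ (by norm_num) hk.le
  have hs1 : ∀ k : ℕ, δ * (Y / 2 ^ k) / 4 ≤ 2 * Real.pi / ((N0 * 2 ^ k : ℕ) : ℝ) := by
    intro k
    push_cast
    rw [le_div_iff₀ (by positivity)]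
    have h1 : (N0 : ℝ) * (δ * Y) ≤ 8 * Real.pi := by rwa [le_div_iff₀ hδYpos] at hN0c
    have h2 : δ * (Y / 2 ^ k) / 4 * ((N0 : ℝ) * 2 ^ k) = (N0 : ℝ) * (δ * Y) / 4 := by
      field_simp
    rw [h2]; linarith
  have hs2 : ∀ k : ℕ, 2 * Real.pi / ((N0 * 2 ^ k : ℕ) : ℝ) ≤ δ * (Y / 2 ^ k) / 2 := by
    intro k
    push_cast
    rw [div_le_iff₀ (by positivity)]
    have h1 : 4 * Real.pi ≤ (N0 : ℝ) * (δ * Y) := by rwa [div_le_iff₀ hδYpos] at hN0a
    have h2 : δ * (Y / 2 ^ k) / 2 * ((N0 : ℝ) * 2 ^ k) = (N0 : ℝ) * (δ * Y) / 2 := by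
      field_simp
    rw [h2]; linarith
  -- the sources
  set mk : ℕ → ℝ × ℝ → ℝ := fun k p => if 0 < p.2 then pp k p.2 * m p else 0 with hmk
  have mkC1 : ∀ k < K, ∀ σ : ℝ, C1 σ (mk k)
      (fun p : ℝ × ℝ => if 0 < p.2 then pp k p.2 * mx p else 0)
      (fun p : ℝ × ℝ => if 0 < p.2 then deriv (pp k) p.2 * m p + pp k p.2 * my p else 0) := by
    intro k hk σ
    exact C1_ext hm hL (ppc k) (y0 := Y / 2 ^ k / 2) (by positivity) (pplow k hk) σ
  have mk0 : ∀ k, ∀ p, 0 ≤ mk k p := by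
    intro k p
    simp only [hmk]
    split_ifs with h0
    · exact mul_nonneg (pp01 k p.2).1 (m0 p (by linarith))
    · exact le_refl 0
  have mkY : ∀ k, ∀ p : ℝ × ℝ, Y ≤ p.2 → mk k p = 0 := by
    intro k p hp
    simp only [hmk]
    split_ifs
    · rw [hmY p hp, mul_zero]
    · rfl
  have mksupp : ∀ k < K, ∀ p : ℝ × ℝ, mk k p ≠ 0 → Y / 2 ^ k / 2 ≤ p.2 ∧ p.2 ≤ 2 * (Y / 2 ^ k) ∧
      2 * δ ≤ ‖hp b p‖ := by
    intro k hk p hne
    by_cases h0 : 0 < p.2
    · have hne' : pp k p.2 * m p ≠ 0 := by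
        simp only [hmk, if_pos h0] at hne; exact hne
      have h1 : pp k p.2 ≠ 0 := left_ne_zero_of_mul hne'
      have h2 : m p ≠ 0 := right_ne_zero_of_mul hne'
      refine ⟨pplow k hk p.2 h1, ?_, hmb p (by linarith) h2⟩
      rcases Nat.eq_zero_or_pos k with hk0 | hk0
      · subst hk0
        have : p.2 < Y := by
          by_contra hcon
          exact h2 (hmY p (not_lt.1 hcon))
        rw [pow_zero, div_one]; linarith
      · exact ppup k hk hk0 p.2 h1
    · exfalso; apply hne; simp only [hmk, if_neg h0]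
  have hσ : 0 < hK / 2 := by positivity
  have hσ₁ : hK / 2 < hK := by linarith
  have hKL : hK ≤ L / 16 := by
    have : δ * L / 8 ≤ L / 16 := by nlinarith
    linarith
  have hσρ : hK < L := by linarith
  have hBK := fun (k : ℕ) (hk : k < K) =>
    BK H (Y / 2 ^ k) (2 * Real.pi / ((N0 * 2 ^ k : ℕ) : ℝ)) (hK / 2) hK (N0 * 2 ^ k)
      (Nat.mul_pos hN0one (by positivity)) rfl (by positivity) (hs1 k) (hs2 k) hσ hσ₁ hσρ
      (hlow k hk) (mk k) _ _ (mkC1 k hk) (mk0 k) (mksupp k hk)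
  choose! X1 X1x X1y X2 X2x X2y hX using hBK
  set sk : ℕ → ℝ := fun k => 2 * Real.pi / ((N0 * 2 ^ k : ℕ) : ℝ) with hsk
  have hskpos : ∀ k, 0 < sk k := by
    intro k; simp only [hsk]; push_cast; positivity
  -- the last band
  have hmKc : C1 (hK / 2) (fun p => pp K p.2 * m p) (fun p => pp K p.2 * mx p)
      (fun p => deriv (pp K) p.2 * m p + pp K p.2 * my p) :=
    C1_mono (C1_mulh hm (ppc K)) (by linarith)
  have hsm : (2 * hK + hK / 2) / (L - hK / 2) ≤ δ := by
    rw [div_le_iff₀ (by linarith)]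
    nlinarith
  obtain ⟨Z, Zx, Zy, ZC1, Zeq, Z0, Zup, Zb, Zpot⟩ :=
    LB H Cm hK (hK / 2) hCm hKpos hσ (by linarith) hsm (fun p => pp K p.2 * m p) _ _ hmKc
      (fun p hp => mul_nonneg (pp01 K p.2).1 (m0 p (by linarith)))
      (fun p hp => by
        have h1 := (pp01 K p.2).2
        have h2 := m0 p (by linarith)
        have h3 := hma p hp
        show pp K p.2 * m p ≤ _
        nlinarith)
      (fun p hp hne => by
        have h1 : pp K p.2 ≠ 0 := left_ne_zero_of_mul hne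
        have h2 : m p ≠ 0 := right_ne_zero_of_mul hne
        exact ⟨ppK p.2 h1, hmb p (by linarith) h2⟩)
  have hKsum : ∀ y : ℝ, ∑ k ∈ Finset.range K, pp k y + pp K y = 1 := by
    intro y
    rw [← Finset.sum_range_succ]; exact ppsum y
  refine ⟨hK / 2, hσ, by linarith, fun p => ∑ k ∈ Finset.range K, X1 k p,
    fun p => ∑ k ∈ Finset.range K, X1x k p, fun p => ∑ k ∈ Finset.range K, X1y k p,
    fun p => ∑ k ∈ Finset.range K, X2 k p + Z p, fun p => ∑ k ∈ Finset.range K, X2x k p + Zx p,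
    fun p => ∑ k ∈ Finset.range K, X2y k p + Zy p,
    C1_sum K (fun k hk => (hX k hk).1 _), C1_add (C1_sum K (fun k hk => (hX k hk).2.1 _)) ZC1,
    ?_, ?_, ?_, ?_⟩
  · intro p hp
    have h1 : ∑ k ∈ Finset.range K, X1x k p - ∑ k ∈ Finset.range K, X2y k p
        = ∑ k ∈ Finset.range K, mk k p := by
      rw [← Finset.sum_sub_distrib]
      exact Finset.sum_congr rfl (fun k hk => (hX k (Finset.mem_range.1 hk)).2.2.1 p)
    have h2 : -Zy p = pp K p.2 * m p := Zeq p hp
    have h3 : ∑ k ∈ Finset.range K, mk k p + pp K p.2 * m p = m p := by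
      by_cases h0 : 0 < p.2
      · have : ∑ k ∈ Finset.range K, mk k p = (∑ k ∈ Finset.range K, pp k p.2) * m p := by
          rw [Finset.sum_mul]
          refine Finset.sum_congr rfl (fun k hk => ?_)
          simp only [hmk, if_pos h0]
        rw [this, ← add_mul, hKsum, one_mul]
      · have h4 : ∑ k ∈ Finset.range K, mk k p = 0 := by
          refine Finset.sum_eq_zero (fun k hk => ?_)
          simp only [hmk, if_neg h0]
        have h5 : ∑ k ∈ Finset.range K, pp k p.2 = 0 := by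
          refine Finset.sum_eq_zero (fun k hk => ?_)
          by_contra hne
          have := pplow k (Finset.mem_range.1 hk) p.2 hne
          have h6 : 0 < Y / 2 ^ k / 2 := by positivity
          linarith
        have h7 := hKsum p.2
        rw [h5, zero_add] at h7
        rw [h4, h7]; ring
    show ∑ k ∈ Finset.range K, X1x k p - (∑ k ∈ Finset.range K, X2y k p + Zy p) = m p
    linarith
  · intro p hp hb
    have h1 : ∀ k ∈ Finset.range K, X1 k p = 0 ∧ X2 k p = 0 := fun k hk =>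
      (hX k (Finset.mem_range.1 hk)).2.2.2.2.2 p hp hb
    have h2 : Z p = 0 := Zb p hp (lt_trans hb (eps2_lt δ hδ hδ2).1)
    refine ⟨Finset.sum_eq_zero (fun k hk => (h1 k hk).1), ?_⟩
    show ∑ k ∈ Finset.range K, X2 k p + Z p = 0
    rw [Finset.sum_eq_zero (fun k hk => (h1 k hk).2), h2, add_zero]
  · intro p hp
    have h1 : ∀ k ∈ Finset.range K, X1 k p = 0 ∧ X2 k p = 0 := by
      intro k hk
      have hk' := hX k (Finset.mem_range.1 hk)
      constructor
      · have h2 := hk'.2.2.2.1 p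
        have h3 : ∫ t in Set.Icc (p.1 - sk k) (p.1 + sk k), mk k (t, p.2) = 0 := by
          have : ∀ t : ℝ, mk k (t, p.2) = 0 := fun t => mkY k (t, p.2) hp
          simp only [this, integral_zero]
        have h4 : |X1 k p| ≤ 0 := h3 ▸ h2
        exact abs_eq_zero.1 (le_antisymm h4 (abs_nonneg _))
      · have h2 := hk'.2.2.2.2.1 p
        have h3 : ∫ t in Set.Icc (p.1 - sk k) (p.1 + sk k), ∫ y in Set.Ioi p.2, mk k (t, y) = 0 := by
          have : ∀ t : ℝ, ∫ y in Set.Ioi p.2, mk k (t, y) = 0 := by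
            intro t
            have h5 : ∫ y in Set.Ioi p.2, mk k (t, y) = ∫ y in Set.Ioi p.2, (0 : ℝ) := by
              refine setIntegral_congr_fun measurableSet_Ioi (fun y hy => ?_)
              have hy' : p.2 < y := hy
              exact mkY k (t, y) (by show Y ≤ y; linarith)
            rw [h5, integral_zero]
          simp only [this, integral_zero]
        have h4 : X2 k p ≤ 2 / sk k * 0 := h3 ▸ h2.2
        have h5 := h2.1
        linarith
    have h2 : Z p = 0 := Zup p (by linarith)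
    refine ⟨Finset.sum_eq_zero (fun k hk => (h1 k hk).1), ?_⟩
    show ∑ k ∈ Finset.range K, X2 k p + Z p = 0
    rw [Finset.sum_eq_zero (fun k hk => (h1 k hk).2), h2, add_zero]
  · intro t ht z hz
    have mkcont : ∀ k < K, Continuous (mk k) := by
      intro k hk
      rw [← continuousOn_univ]
      intro p _
      have h1 := (mkC1 k hk (1 - p.2)).c
      have h2 : {q : ℝ × ℝ | -(1 - p.2) < q.2} ∈ 𝓝 p :=
        (isOpen_lt continuous_const continuous_snd).mem_nhds (show -(1 - p.2) < p.2 by linarith)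
      exact (h1.continuousAt h2).continuousWithinAt
    have glob : ∀ f fx fy : ℝ × ℝ → ℝ, (∀ σ : ℝ, C1 σ f fx fy) → Measurable f := by
      intro f fx fy hf
      refine Continuous.measurable ?_
      rw [← continuousOn_univ]
      intro p _
      have h1 := (hf (1 - p.2)).c
      have h2 : {q : ℝ × ℝ | -(1 - p.2) < q.2} ∈ 𝓝 p :=
        (isOpen_lt continuous_const continuous_snd).mem_nhds (show -(1 - p.2) < p.2 by linarith)
      exact (h1.continuousAt h2).continuousWithinAt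
    have hBS := BS H Cm Y hCm hY K sk
      (fun k hk => ⟨hskpos k, by
        have h1 := hs2 k
        have h2 : 0 < Y / 2 ^ k := by positivity
        show 2 * Real.pi / ((N0 * 2 ^ k : ℕ) : ℝ) ≤ _
        nlinarith⟩)
      mk mkcont (fun k _ => mk0 k)
      (fun p hp => by
        have h1 : ∑ k ∈ Finset.range K, mk k p = (∑ k ∈ Finset.range K, pp k p.2) * m p := by
          rw [Finset.sum_mul]
          refine Finset.sum_congr rfl (fun k hk => ?_)
          simp only [hmk, if_pos hp]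
        have h2 := hKsum p.2
        have h3 := (pp01 K p.2).1
        have h4 := m0 p (by linarith)
        have h5 := hma p hp
        rw [h1]
        nlinarith)
      (fun k hk p hne => ⟨(mksupp k hk p hne).1, (mksupp k hk p hne).2.1⟩)
      X1 X2 (fun k hk => glob _ _ _ (hX k hk).1) (fun k hk => glob _ _ _ (hX k hk).2.1)
      (fun k hk => (hX k hk).2.2.2.1) (fun k hk => (hX k hk).2.2.2.2.1) t ht z hz
    have hZ := Zpot z hz
    have hHP : MeasurableSet HP := by
      unfold HP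
      exact (isOpen_lt continuous_const continuous_snd).measurableSet
    have hqk : ∀ p : ℝ × ℝ, 0 ≤ qk z p := by
      intro p; unfold qk; positivity
    have hqkm : Measurable (qk z) := by
      unfold qk; fun_prop
    calc ∫⁻ p in HP, ENNReal.ofReal (Real.exp (-(t * Osc a b F p / 2))
            * (|∑ k ∈ Finset.range K, X1 k p| + |∑ k ∈ Finset.range K, X2 k p + Z p|) * qk z p)
        ≤ ∫⁻ p in HP, (ENNReal.ofReal (Real.exp (-(t * Osc a b F p / 2))
            * (∑ k ∈ Finset.range K, (|X1 k p| + X2 k p)) * qk z p)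
            + ENNReal.ofReal (Z p * qk z p)) := by
          refine setLIntegral_mono' hHP (fun p hp => ?_)
          have hp' : 0 < p.2 := hp
          have hZp := Z0 p (by linarith)
          have hO : 0 ≤ Osc a b F p := by
            have hmem : E p ∈ Metric.ball (0 : ℂ) ρ := E_mem_ball (by linarith [H.hρ]) (by linarith)
            have := H.hO _ hmem
            show 0 ≤ (F (E p)).re - ‖a (E p)‖ ^ 2 - ‖b (E p)‖ ^ 2
            linarith
          have hexp : Real.exp (-(t * Osc a b F p / 2)) ≤ 1 := by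
            rw [Real.exp_le_one_iff]
            have : 0 ≤ t * Osc a b F p := mul_nonneg (by linarith) hO
            linarith
          have hexp0 := (Real.exp_pos (-(t * Osc a b F p / 2))).le
          have hX2n : ∀ k ∈ Finset.range K, 0 ≤ X2 k p := fun k hk =>
            ((hX k (Finset.mem_range.1 hk)).2.2.2.2.1 p).1
          have hsum0 : 0 ≤ ∑ k ∈ Finset.range K, (|X1 k p| + X2 k p) :=
            Finset.sum_nonneg (fun k hk => add_nonneg (abs_nonneg _) (hX2n k hk))
          rw [← ENNReal.ofReal_add (mul_nonneg (mul_nonneg hexp0 hsum0) (hqk p))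
            (mul_nonneg hZp (hqk p))]
          apply ENNReal.ofReal_le_ofReal
          have h1 : |∑ k ∈ Finset.range K, X1 k p| + |∑ k ∈ Finset.range K, X2 k p + Z p|
              ≤ ∑ k ∈ Finset.range K, (|X1 k p| + X2 k p) + Z p := by
            rw [Finset.sum_add_distrib, abs_of_nonneg (add_nonneg (Finset.sum_nonneg hX2n) hZp)]
            have := Finset.abs_sum_le_sum_abs (fun k => X1 k p) (Finset.range K)
            linarith
          have h2 : Real.exp (-(t * Osc a b F p / 2))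
              * (|∑ k ∈ Finset.range K, X1 k p| + |∑ k ∈ Finset.range K, X2 k p + Z p|)
              ≤ Real.exp (-(t * Osc a b F p / 2)) * (∑ k ∈ Finset.range K, (|X1 k p| + X2 k p))
                + Z p := by
            have h3 := mul_le_mul_of_nonneg_left h1 hexp0
            have h4 : Real.exp (-(t * Osc a b F p / 2)) * Z p ≤ Z p := by nlinarith
            rw [mul_add] at h3
            linarith
          have h5 := mul_le_mul_of_nonneg_right h2 (hqk p)
          rw [add_mul] at h5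
          exact h5
      _ = (∫⁻ p in HP, ENNReal.ofReal (Real.exp (-(t * Osc a b F p / 2))
            * (∑ k ∈ Finset.range K, (|X1 k p| + X2 k p)) * qk z p))
            + ∫⁻ p in HP, ENNReal.ofReal (Z p * qk z p) := by
          refine lintegral_add_right' _ ?_
          refine AEMeasurable.ennreal_ofReal ?_
          refine AEMeasurable.mul ?_ hqkm.aemeasurable
          refine ContinuousOn.aemeasurable (ZC1.c.mono ?_) hHP
          intro p hp
          have hp' : 0 < p.2 := hp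
          show -(hK / 2) < p.2
          linarith
      _ ≤ ENNReal.ofReal (250000 * Cm * t ^ (-(1 / 8) : ℝ))
            + ENNReal.ofReal (60 * Cm * hK ^ 2 / L ^ 2) := add_le_add hBS hZ
      _ = ENNReal.ofReal (250000 * Cm * t ^ (-(1 / 8) : ℝ) + 60 * Cm * hK ^ 2 / L ^ 2) := by
          rw [ENNReal.ofReal_add]
          · have : 0 ≤ t ^ (-(1 / 8) : ℝ) := Real.rpow_nonneg (by linarith) _
            positivity
          · positivity
      _ ≤ ENNReal.ofReal (250000 * Cm * t ^ (-(1 / 8) : ℝ) + e) := by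
          apply ENNReal.ofReal_le_ofReal
          linarith

end Pool.H14.SR
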