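import Pool.Agent.H14.SR.Basic
import Pool.Agent.H14.SR.E5
open MeasureTheory Set Filter Topology
noncomputable section
namespace Pool.H14.SR

theorem GE_measHP : MeasurableSet HP := measurableSet_lt measurable_const measurable_snd

/-- A periodic `C¹` function vanishing for large `y` is bounded on `y ≥ 0`. -/
theorem GE_bdd {σ : ℝ} (hσ : 0 < σ) {X Xx Xy : ℝ × ℝ → ℝ} (h : C1 σ X Xx Xy) (Y : ℝ)
    (hY : ∀ p : ℝ × ℝ, Y ≤ p.2 → X p = 0) : ∃ B : ℝ, 0 ≤ B ∧ ∀ p : ℝ × ℝ, 0 ≤ p.2 → |X p| ≤ B := by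
  have hK : IsCompact (Set.Icc (0 : ℝ) (2 * Real.pi) ×ˢ Set.Icc (0 : ℝ) Y) :=
    isCompact_Icc.prod isCompact_Icc
  obtain ⟨B, hB⟩ := hK.exists_bound_of_continuousOn (h.c.mono (fun p hp => by
    show -σ < p.2
    have := hp.2.1
    linarith))
  refine ⟨|B|, abs_nonneg _, fun p hp => ?_⟩
  by_cases hpY : Y ≤ p.2
  · rw [hY p hpY]; simp
  · push_neg at hpY
    have hper : Function.Periodic (fun x : ℝ => X (x, p.2)) (2 * Real.pi) := fun x =>
      h.per (x, p.2) (by show -σ < p.2; linarith)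
    obtain ⟨x, hx, hxe⟩ := hper.exists_mem_Ico₀ (by positivity) p.1
    have e : X p = X (x, p.2) := hxe
    rw [e]
    have := hB (x, p.2) ⟨⟨hx.1, hx.2.le⟩, ⟨hp, hpY.le⟩⟩
    exact (this.trans (le_abs_self B))

theorem GE_Osc_cont {δ ρ : ℝ} {a b F : ℂ → ℂ} (H : Dat δ ρ a b F) :
    ContinuousOn (Osc a b F) {p | -Real.log ρ < p.2} := by
  have hρ : 0 < ρ := by linarith [H.hρ]
  unfold Osc
  exact ((Complex.continuous_re.comp_continuousOn (hp_cont hρ H.hF.continuousOn)).sub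
    ((hp_cont hρ H.ha.continuousOn).norm.pow 2)).sub ((hp_cont hρ H.hb.continuousOn).norm.pow 2)

theorem GE_Osc_nonneg {δ ρ : ℝ} {a b F : ℂ → ℂ} (H : Dat δ ρ a b F) (p : ℝ × ℝ)
    (hp : -Real.log ρ < p.2) : 0 ≤ Osc a b F p := by
  have hρ : 0 < ρ := by linarith [H.hρ]
  have := H.hO (E p) (E_mem_ball hρ hp)
  unfold Osc Pool.H14.SR.hp
  linarith

/-- **(GE)** Estimate of the flow part: `|∬_{ST} (X₁-iX₂)/(2b) f| ≤ (9/ε) η ∫|k|²` if
`∬_{HP} e^{-tO/2}(|X₁|+|X₂|)q_z ≤ η` for all `z`, `X = 0` on `|b| < ε` and for `y ≥ Y`.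
(`|(X₁-iX₂)/(2b)| ≤ (|X₁|+|X₂|)/(2ε)`; `E5` for `M = e^{-tO/2}(|X₁|+|X₂|)` on `y > 0`, `0` elsewhere.) -/
theorem GE {δ ρ : ℝ} {a b F : ℂ → ℂ} (H : Dat δ ρ a b F) (σ : ℝ) (hσ : 0 < σ) (ε : ℝ) (hε : 0 < ε)
    (X1 X1x X1y X2 X2x X2y : ℝ × ℝ → ℝ)
    (hX1 : C1 σ X1 X1x X1y) (hX2 : C1 σ X2 X2x X2y)
    (hX : ∀ p : ℝ × ℝ, -σ < p.2 → ‖hp b p‖ < ε → X1 p = 0 ∧ X2 p = 0)
    (Y : ℝ) (hXY : ∀ p : ℝ × ℝ, Y ≤ p.2 → X1 p = 0 ∧ X2 p = 0) (t : ℝ) (ht : 1 ≤ t)
    (η : ℝ) (hη : 0 ≤ η)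
    (hpot : ∀ z : ℝ × ℝ, 0 < z.2 →
        ∫⁻ p in HP, ENNReal.ofReal (Real.exp (-(t * Osc a b F p / 2))
            * (|X1 p| + |X2 p|) * qk z p) ≤ ENNReal.ofReal η)
    (f k : ℂ → ℂ) (ρ' : ℝ) (hρ' : 1 < ρ') (hf : DifferentiableOn ℂ f (Metric.ball 0 ρ'))
    (hkc : ContinuousOn k (Metric.closedBall 0 1)) (hk : DifferentiableOn ℂ k (Metric.ball 0 1))
    (hfk : ∀ w ∈ Metric.closedBall (0 : ℂ) 1,
      ‖f w‖ ≤ Real.exp (-(t * OscD a b F w / 2)) * ‖k w‖ ^ 2) :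
    ‖∫ p in ST, ((X1 p : ℂ) - Complex.I * X2 p) / (2 * hp b p) * hp f p‖
      ≤ 9 / ε * η * ∫ x in Set.Ioc 0 (2 * Real.pi), ‖k (E (x, 0))‖ ^ 2 := by
  classical
  have hlog : 0 < Real.log ρ := Real.log_pos H.hρ
  obtain ⟨B1, hB10, hB1⟩ := GE_bdd hσ hX1 Y (fun p hp => (hXY p hp).1)
  obtain ⟨B2, hB20, hB2⟩ := GE_bdd hσ hX2 Y (fun p hp => (hXY p hp).2)
  set M0 : ℝ × ℝ → ℝ := fun p => Real.exp (-(t * Osc a b F p / 2)) * (|X1 p| + |X2 p|) with hM0
  set M : ℝ × ℝ → ℝ := HP.piecewise M0 (fun _ => 0) with hMdef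
  have hMin : ∀ p, p ∈ HP → M p = M0 p := fun p hp => Set.piecewise_eq_of_mem _ _ _ hp
  have hMout : ∀ p, p ∉ HP → M p = 0 := fun p hp => Set.piecewise_eq_of_notMem _ _ _ hp
  have hM0c : ContinuousOn M0 HP := by
    refine ContinuousOn.mul ?_ ?_
    · apply Real.continuous_exp.comp_continuousOn
      refine (ContinuousOn.div_const (continuousOn_const.mul ((GE_Osc_cont H).mono ?_)) 2).neg
      intro p hp
      show -Real.log ρ < p.2
      have : (0 : ℝ) < p.2 := hp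
      linarith
    · have hsub : HP ⊆ {p : ℝ × ℝ | -σ < p.2} := fun p hp => by
        show -σ < p.2
        have : (0 : ℝ) < p.2 := hp
        linarith
      exact (hX1.c.mono hsub).abs.add (hX2.c.mono hsub).abs
  have hMm : Measurable M := hM0c.measurable_piecewise continuousOn_const GE_measHP
  have hM0nn : ∀ p, 0 ≤ M0 p := fun p => by simp only [hM0]; positivity
  have hMnn : ∀ p, 0 ≤ M p := by
    intro p
    by_cases hp : p ∈ HP
    · rw [hMin p hp]; exact hM0nn p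
    · rw [hMout p hp]
  have hexp1 : ∀ p : ℝ × ℝ, 0 < p.2 → Real.exp (-(t * Osc a b F p / 2)) ≤ 1 := by
    intro p hp
    apply Real.exp_le_one_iff.2
    have := GE_Osc_nonneg H p (by linarith)
    have : 0 ≤ t * Osc a b F p := by positivity
    linarith
  have hMB : ∀ p, M p ≤ B1 + B2 := by
    intro p
    by_cases hp : p ∈ HP
    · rw [hMin p hp]
      have hp' : (0 : ℝ) < p.2 := hp
      have h1 := hB1 p hp'.le
      have h2 := hB2 p hp'.le
      have h3 := hexp1 p hp'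
      simp only [hM0]
      have h4 : 0 ≤ |X1 p| + |X2 p| := by positivity
      calc Real.exp (-(t * Osc a b F p / 2)) * (|X1 p| + |X2 p|) ≤ 1 * (|X1 p| + |X2 p|) :=
            mul_le_mul_of_nonneg_right h3 h4
        _ ≤ B1 + B2 := by linarith
    · rw [hMout p hp]; positivity
  have hMY : ∀ p : ℝ × ℝ, Y ≤ p.2 → M p = 0 := by
    intro p hpY
    by_cases hp : p ∈ HP
    · rw [hMin p hp]
      simp only [hM0]
      rw [(hXY p hpY).1, (hXY p hpY).2]; simp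
    · exact hMout p hp
  have hMper : ∀ p : ℝ × ℝ, M (p.1 + 2 * Real.pi, p.2) = M p := by
    intro p
    by_cases hp : p ∈ HP
    · have hp' : (0 : ℝ) < p.2 := hp
      have hp2 : (p.1 + 2 * Real.pi, p.2) ∈ HP := hp
      rw [hMin p hp, hMin _ hp2]
      simp only [hM0, Osc]
      rw [hp_per, hp_per, hp_per, hX1.per p (by linarith), hX2.per p (by linarith)]
    · have hp2 : (p.1 + 2 * Real.pi, p.2) ∉ HP := hp
      rw [hMout p hp, hMout _ hp2]
  have hMS : ∀ z : ℝ × ℝ, 0 < z.2 →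
      ∫⁻ p in HP, ENNReal.ofReal (M p * qk z p) ≤ ENNReal.ofReal η := by
    intro z hz
    refine le_trans (le_of_eq ?_) (hpot z hz)
    apply setLIntegral_congr_fun GE_measHP
    intro p hp
    simp only []
    rw [hMin p hp]
  have h5 := E5 M hMm (B1 + B2) Y hMnn hMB hMY hMper η hη hMS k hkc hk
  set I : ℝ := ∫ x in Set.Ioc 0 (2 * Real.pi), ‖k (E (x, 0))‖ ^ 2 with hI
  have hI0 : 0 ≤ I := by
    apply setIntegral_nonneg measurableSet_Ioc
    intro x _; positivity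
  have hpt : ∀ p ∈ ST, ‖((X1 p : ℂ) - Complex.I * X2 p) / (2 * hp b p) * hp f p‖
      ≤ 1 / (2 * ε) * (M p * ‖hp k p‖ ^ 2) := by
    intro p hpST
    have hp0 : (0 : ℝ) < p.2 := hpST.2
    rw [hMin p hp0]
    have hfk' := hfk (E p) (E_mem_closedBall hp0.le)
    have hfk2 : ‖hp f p‖ ≤ Real.exp (-(t * Osc a b F p / 2)) * ‖hp k p‖ ^ 2 := hfk'
    by_cases hb : ‖hp b p‖ < ε
    · obtain ⟨e1, e2⟩ := hX p (by linarith) hb
      rw [e1, e2]
      have : 0 ≤ 1 / (2 * ε) * (M0 p * ‖hp k p‖ ^ 2) := by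
        have := hM0nn p
        positivity
      simpa using this
    · push_neg at hb
      rw [norm_mul, norm_div, norm_mul]
      have h1 : ‖(X1 p : ℂ) - Complex.I * X2 p‖ ≤ |X1 p| + |X2 p| := by
        refine (norm_sub_le _ _).trans ?_
        rw [norm_mul, Complex.norm_I, one_mul, Complex.norm_real, Complex.norm_real]
        rfl
      have h2 : ‖(X1 p : ℂ) - Complex.I * X2 p‖ / (‖(2 : ℂ)‖ * ‖hp b p‖)
          ≤ (|X1 p| + |X2 p|) / (2 * ε) := by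
        have h3 : ‖(2 : ℂ)‖ = 2 := by simp
        rw [h3]
        apply div_le_div₀ (by positivity) h1 (by positivity)
        linarith
      calc ‖(X1 p : ℂ) - Complex.I * X2 p‖ / (‖(2 : ℂ)‖ * ‖hp b p‖) * ‖hp f p‖
          ≤ (|X1 p| + |X2 p|) / (2 * ε) * (Real.exp (-(t * Osc a b F p / 2)) * ‖hp k p‖ ^ 2) :=
            mul_le_mul h2 hfk2 (norm_nonneg _) (by positivity)
        _ = 1 / (2 * ε) * (M0 p * ‖hp k p‖ ^ 2) := by
            simp only [hM0]; ring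
  have hl : ∫⁻ p in ST, ENNReal.ofReal
        ‖((X1 p : ℂ) - Complex.I * X2 p) / (2 * hp b p) * hp f p‖
      ≤ ENNReal.ofReal (9 / ε * η * I) := by
    calc ∫⁻ p in ST, ENNReal.ofReal
          ‖((X1 p : ℂ) - Complex.I * X2 p) / (2 * hp b p) * hp f p‖
        ≤ ∫⁻ p in ST, ENNReal.ofReal (1 / (2 * ε)) * ENNReal.ofReal (M p * ‖hp k p‖ ^ 2) := by
          apply setLIntegral_mono_ae'
          · exact Uch_meas_ST
          · refine Eventually.of_forall fun p hpST => ?_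
            rw [← ENNReal.ofReal_mul (by positivity)]
            exact ENNReal.ofReal_le_ofReal (hpt p hpST)
      _ = ENNReal.ofReal (1 / (2 * ε)) * ∫⁻ p in ST, ENNReal.ofReal (M p * ‖hp k p‖ ^ 2) := by
          rw [lintegral_const_mul' _ _ ENNReal.ofReal_ne_top]
      _ ≤ ENNReal.ofReal (1 / (2 * ε)) * ENNReal.ofReal (18 * η * I) := by gcongr
      _ = ENNReal.ofReal (9 / ε * η * I) := by
          rw [← ENNReal.ofReal_mul (by positivity)]
          congr 1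
          field_simp
          ring
  refine (norm_integral_le_lintegral_norm _).trans ?_
  exact ENNReal.toReal_le_of_le_ofReal (by positivity) hl

end Pool.H14.SR
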