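import Pool.Agent.H14.SR.Basic

open MeasureTheory Set Filter Topology
noncomputable section
namespace Pool.H14.SR


/-- A smooth step at scale `d` avoiding the value `v`. -/
structure Step (C0 d v : ℝ) (s s' s'' : ℝ → ℝ) : Prop where
  d1 : ∀ q, HasDerivAt s (s' q) q
  d2 : ∀ q, HasDerivAt s' (s'' q) q
  c2 : Continuous s''
  h0 : ∀ q, 0 ≤ s q ∧ s q ≤ 1
  h1 : ∀ q, 0 ≤ s' q
  low : ∀ q, q ≤ d ^ 2 / 4 → s q = 0
  high : ∀ q, d ^ 2 ≤ q → s q = 1
  b1 : ∀ q, |s' q| ≤ C0 / d ^ 2
  b2 : ∀ q, |s'' q| ≤ C0 / d ^ 4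
  av : ∀ r, 0 ≤ r → |r - v| ≤ d / 8 → s' (r ^ 2) = 0

theorem STEP_T : ∃ (T T' T'' : ℝ → ℝ) (M : ℝ), 0 < M ∧ (∀ q, HasDerivAt T (T' q) q) ∧
    (∀ q, HasDerivAt T' (T'' q) q) ∧ Continuous T'' ∧ (∀ q, 0 ≤ T q ∧ T q ≤ 1) ∧ (∀ q, 0 ≤ T' q) ∧
    (∀ q, q ≤ 0 → T q = 0 ∧ T' q = 0) ∧ (∀ q, 1 ≤ q → T q = 1 ∧ T' q = 0) ∧ (∀ q, |T' q| ≤ M) ∧
    (∀ q, |T'' q| ≤ M) := by
  have hcd : ContDiff ℝ 2 Real.smoothTransition := Real.smoothTransition.contDiff
  have hcd1 : ContDiff ℝ 1 (deriv Real.smoothTransition) := by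
    have : ContDiff ℝ (1 + 1) Real.smoothTransition := by
      norm_num
      exact hcd
    exact ContDiff.deriv' this
  have hcd0 : Continuous (deriv (deriv Real.smoothTransition)) := hcd1.continuous_deriv le_rfl
  have hc1 : Continuous (deriv Real.smoothTransition) := hcd1.continuous
  have z0 : ∀ q : ℝ, q < 0 → deriv Real.smoothTransition q = 0 := by
    intro q hq
    have : Real.smoothTransition =ᶠ[𝓝 q] fun _ => 0 := by
      filter_upwards [Iio_mem_nhds hq] with x hx
      exact Real.smoothTransition.zero_of_nonpos (le_of_lt hx)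
    rw [this.deriv_eq]; simp
  have z1 : ∀ q : ℝ, 1 < q → deriv Real.smoothTransition q = 0 := by
    intro q hq
    have : Real.smoothTransition =ᶠ[𝓝 q] fun _ => 1 := by
      filter_upwards [Ioi_mem_nhds hq] with x hx
      exact Real.smoothTransition.one_of_one_le (le_of_lt hx)
    rw [this.deriv_eq]; simp
  have z0' : ∀ q : ℝ, q ≤ 0 → deriv Real.smoothTransition q = 0 := by
    intro q hq
    have hcl : IsClosed {q | deriv Real.smoothTransition q = 0} := isClosed_eq hc1 continuous_const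
    have : Set.Iic (0 : ℝ) ⊆ {q | deriv Real.smoothTransition q = 0} := by
      rw [← closure_Iio (0 : ℝ)]
      exact hcl.closure_subset_iff.2 (fun x hx => z0 x hx)
    exact this hq
  have z1' : ∀ q : ℝ, 1 ≤ q → deriv Real.smoothTransition q = 0 := by
    intro q hq
    have hcl : IsClosed {q | deriv Real.smoothTransition q = 0} := isClosed_eq hc1 continuous_const
    have : Set.Ici (1 : ℝ) ⊆ {q | deriv Real.smoothTransition q = 0} := by
      rw [← closure_Ioi (1 : ℝ)]
      exact hcl.closure_subset_iff.2 (fun x hx => z1 x hx)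
    exact this hq
  have y0 : ∀ q : ℝ, q < 0 → deriv (deriv Real.smoothTransition) q = 0 := by
    intro q hq
    have : deriv Real.smoothTransition =ᶠ[𝓝 q] fun _ => 0 := by
      filter_upwards [Iio_mem_nhds hq] with x hx
      exact z0 x hx
    rw [this.deriv_eq]; simp
  have y1 : ∀ q : ℝ, 1 < q → deriv (deriv Real.smoothTransition) q = 0 := by
    intro q hq
    have : deriv Real.smoothTransition =ᶠ[𝓝 q] fun _ => 0 := by
      filter_upwards [Ioi_mem_nhds hq] with x hx
      exact z1 x hx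
    rw [this.deriv_eq]; simp
  obtain ⟨M1, hM1⟩ := (isCompact_Icc (a := (0 : ℝ)) (b := 1)).exists_bound_of_continuousOn
    hc1.continuousOn
  obtain ⟨M2, hM2⟩ := (isCompact_Icc (a := (0 : ℝ)) (b := 1)).exists_bound_of_continuousOn
    hcd0.continuousOn
  refine ⟨Real.smoothTransition, deriv Real.smoothTransition, deriv (deriv Real.smoothTransition),
    |M1| + |M2| + 1, by positivity, ?_, ?_, hcd0, ?_, ?_, ?_, ?_, ?_, ?_⟩
  · intro q
    exact (hcd.differentiable (by norm_num) q).hasDerivAt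
  · intro q
    exact (hcd1.differentiable (by norm_num) q).hasDerivAt
  · intro q
    exact ⟨Real.smoothTransition.nonneg q, Real.smoothTransition.le_one q⟩
  · intro q
    exact Real.smoothTransition.monotone.deriv_nonneg
  · intro q hq
    exact ⟨Real.smoothTransition.zero_of_nonpos hq, z0' q hq⟩
  · intro q hq
    exact ⟨Real.smoothTransition.one_of_one_le hq, z1' q hq⟩
  · intro q
    by_cases h0 : q < 0
    · rw [z0 q h0, abs_zero]; positivity
    by_cases h1 : 1 < q
    · rw [z1 q h1, abs_zero]; positivity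
    have := hM1 q ⟨not_lt.1 h0, not_lt.1 h1⟩
    rw [Real.norm_eq_abs] at this
    linarith [le_abs_self M1, abs_nonneg M2]
  · intro q
    by_cases h0 : q < 0
    · rw [y0 q h0, abs_zero]; positivity
    by_cases h1 : 1 < q
    · rw [y1 q h1, abs_zero]; positivity
    have := hM2 q ⟨not_lt.1 h0, not_lt.1 h1⟩
    rw [Real.norm_eq_abs] at this
    linarith [le_abs_self M2, abs_nonneg M1]

/-- **(STEP)** Existence of steps.  `s(q) = S(q/d²)` with `S` one of two fixed smooth nondecreasing steps, rising on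
`[1/4, 25/64]` (i.e. `r ∈ [d/2, 5d/8]`) or on `[49/64, 1]` (`r ∈ [7d/8, d]`); the interval
`[v - d/8, v + d/8]` misses the interior of one of the two `r`-intervals. -/
theorem STEP : ∃ C0 : ℝ, 0 < C0 ∧ ∀ d v : ℝ, 0 < d →
    ∃ s s' s'' : ℝ → ℝ, Step C0 d v s s' s'' := by
  obtain ⟨T, T', T'', M, hM, hT1, hT2, hTc, hT0, hTp, hTl, hTh, hb1, hb2⟩ := STEP_T
  have key : ∀ (d v l r : ℝ), 0 < d → 1 / 4 ≤ l → l + 1 / 8 ≤ r → r ≤ 1 →
      (∀ t, 0 ≤ t → |t - v| ≤ d / 8 → t ^ 2 ≤ l * d ^ 2 ∨ r * d ^ 2 ≤ t ^ 2) →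
      Step (64 * M) d v (fun q => T ((q / d ^ 2 - l) / (r - l)))
        (fun q => T' ((q / d ^ 2 - l) / (r - l)) * (1 / d ^ 2 / (r - l)))
        (fun q => T'' ((q / d ^ 2 - l) / (r - l)) * (1 / d ^ 2 / (r - l)) * (1 / d ^ 2 / (r - l))) := by
    intro d v l r hd hl hlr hr hav
    have hrl : 0 < r - l := by linarith
    have hd2 : 0 < d ^ 2 := by positivity
    have hlin : ∀ q : ℝ, HasDerivAt (fun q : ℝ => (q / d ^ 2 - l) / (r - l)) (1 / d ^ 2 / (r - l)) q := by
      intro q
      exact (((hasDerivAt_id q).div_const _).sub_const _).div_const _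
    have hpos : 0 < 1 / d ^ 2 / (r - l) := by positivity
    have h8 : 1 / d ^ 2 / (r - l) ≤ 8 * (1 / d ^ 2) := by
      rw [div_le_iff₀ hrl]
      have : 0 < 1 / d ^ 2 := by positivity
      nlinarith
    refine ⟨?_, ?_, ?_, ?_, ?_, ?_, ?_, ?_, ?_, ?_⟩
    · intro q
      exact HasDerivAt.comp q (hT1 _) (hlin q)
    · intro q
      exact (HasDerivAt.comp q (hT2 _) (hlin q)).mul_const _
    · have : Continuous (fun q : ℝ => (q / d ^ 2 - l) / (r - l)) := by fun_prop
      exact ((hTc.comp this).mul continuous_const).mul continuous_const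
    · intro q; exact hT0 _
    · intro q; exact mul_nonneg (hTp _) hpos.le
    · intro q hq
      refine (hTl _ ?_).1
      apply div_nonpos_of_nonpos_of_nonneg _ hrl.le
      have : q / d ^ 2 ≤ 1 / 4 := by rw [div_le_iff₀ hd2]; linarith
      linarith
    · intro q hq
      refine (hTh _ ?_).1
      rw [le_div_iff₀ hrl]
      have : 1 ≤ q / d ^ 2 := by rw [le_div_iff₀ hd2]; linarith
      linarith
    · intro q
      rw [abs_mul, abs_of_pos hpos]
      calc |T' ((q / d ^ 2 - l) / (r - l))| * (1 / d ^ 2 / (r - l)) ≤ M * (8 * (1 / d ^ 2)) :=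
            mul_le_mul (hb1 _) h8 hpos.le hM.le
        _ ≤ 64 * M / d ^ 2 := by
            have : 64 * M / d ^ 2 = M * (64 * (1 / d ^ 2)) := by ring
            rw [this]
            have : 0 < 1 / d ^ 2 := by positivity
            apply mul_le_mul_of_nonneg_left _ hM.le
            linarith
    · intro q
      rw [abs_mul, abs_mul, abs_of_pos hpos]
      calc |T'' ((q / d ^ 2 - l) / (r - l))| * (1 / d ^ 2 / (r - l)) * (1 / d ^ 2 / (r - l))
            ≤ M * (8 * (1 / d ^ 2)) * (8 * (1 / d ^ 2)) := by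
              apply mul_le_mul _ h8 hpos.le (by positivity)
              exact mul_le_mul (hb2 _) h8 hpos.le hM.le
        _ = 64 * M / d ^ 4 := by field_simp; ring
    · intro t ht htv
      show T' ((t ^ 2 / d ^ 2 - l) / (r - l)) * (1 / d ^ 2 / (r - l)) = 0
      rcases hav t ht htv with h | h
      · rw [(hTl _ _).2, zero_mul]
        apply div_nonpos_of_nonpos_of_nonneg _ hrl.le
        have : t ^ 2 / d ^ 2 ≤ l := by rw [div_le_iff₀ hd2]; linarith
        linarith
      · rw [(hTh _ _).2, zero_mul]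
        rw [le_div_iff₀ hrl]
        have : r ≤ t ^ 2 / d ^ 2 := by rw [le_div_iff₀ hd2]; linarith
        linarith
  refine ⟨64 * M, by positivity, fun d v hd => ?_⟩
  by_cases hv : v ≤ 3 / 4 * d
  · refine ⟨_, _, _, key d v (49 / 64) 1 hd (by norm_num) (by norm_num) le_rfl ?_⟩
    intro t ht htv
    left
    have h1 := (abs_le.1 htv).2
    have h2 : t ≤ 7 / 8 * d := by linarith
    nlinarith
  · refine ⟨_, _, _, key d v (1 / 4) (25 / 64) hd (by norm_num) (by norm_num) (by norm_num) ?_⟩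
    intro t ht htv
    right
    have h1 := (abs_le.1 htv).1
    have h2 : 5 / 8 * d ≤ t := by linarith
    nlinarith

/-- **(TH)** The truncated logarithm: `Θ' = s(q)/(2q)`, `Θ(q) = (1/2) log q` for `q ≥ δ²`
(`Θ(q) = log δ - ∫_q^{δ²} s(u)/(2u) du`; `Θ` is constant for `q ≤ δ²/4` and `≥ (1/2) log(δ²/4)`). -/
theorem TH (C0 δ v : ℝ) (hδ : 0 < δ) (hδ2 : δ ≤ 1 / 2) (s s' s'' : ℝ → ℝ)
    (h : Step C0 δ v s s' s'') :
    ∃ Θ : ℝ → ℝ, (∀ q, HasDerivAt Θ (s q / (2 * q)) q) ∧
      (∀ q, δ ^ 2 ≤ q → Θ q = Real.log q / 2) ∧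
      (∀ q, 0 ≤ q → q ≤ 1 → -Real.log (2 / δ) ≤ Θ q ∧ Θ q ≤ 0) := by
  have hδ2' : 0 < δ ^ 2 := by positivity
  have hsc : Continuous s := continuous_iff_continuousAt.2 fun q => (h.d1 q).continuousAt
  have hz : ∀ q, q ≤ δ ^ 2 / 4 → s q / (2 * q) = 0 := by
    intro q hq; rw [h.low q hq, zero_div]
  have hfc : Continuous (fun q => s q / (2 * q)) := by
    rw [continuous_iff_continuousAt]
    intro q
    by_cases hq : q < δ ^ 2 / 4
    · have : (fun q => s q / (2 * q)) =ᶠ[𝓝 q] fun _ => 0 := by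
        filter_upwards [Iio_mem_nhds hq] with x hx
        exact hz x (le_of_lt hx)
      exact continuousAt_const.congr this.symm
    · have hq0 : 0 < q := by
        have := not_lt.1 hq
        have h2 : 0 < δ ^ 2 / 4 := by positivity
        linarith
      exact hsc.continuousAt.div (continuousAt_const.mul continuousAt_id) (by positivity)
  have hf0 : ∀ q, 0 ≤ s q / (2 * q) := by
    intro q
    by_cases hq : q ≤ δ ^ 2 / 4
    · rw [hz q hq]
    · have hq0 : 0 < q := by
        have h2 : 0 < δ ^ 2 / 4 := by positivity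
        linarith [not_le.1 hq]
      exact div_nonneg (h.h0 q).1 (by positivity)
  set Θ : ℝ → ℝ := fun q => Real.log δ + ∫ u in (δ ^ 2)..q, s u / (2 * u) with hΘ
  have hd : ∀ q, HasDerivAt Θ (s q / (2 * q)) q := by
    intro q
    exact ((hfc.integral_hasStrictDerivAt (δ ^ 2) q).hasDerivAt).const_add _
  have hmono : Monotone Θ := by
    apply monotone_of_deriv_nonneg (fun q => (hd q).differentiableAt)
    intro q; rw [(hd q).deriv]; exact hf0 q
  have hΘδ : Θ (δ ^ 2) = Real.log δ := by simp [hΘ]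
  have hlog : ∀ q, 0 < q → HasDerivAt (fun q => Real.log q / 2) (1 / (2 * q)) q := by
    intro q hq
    have := (Real.hasDerivAt_log hq.ne').div_const 2
    refine this.congr_deriv ?_
    rw [inv_eq_one_div, div_div, mul_comm]
  have hlδ : Real.log (δ ^ 2) / 2 = Real.log δ := by
    rw [Real.log_pow]; push_cast; ring
  have hhigh : ∀ q, δ ^ 2 ≤ q → Θ q = Real.log q / 2 := by
    intro q hq
    have h1 : ∫ u in (δ ^ 2)..q, s u / (2 * u) = ∫ u in (δ ^ 2)..q, 1 / (2 * u) := by
      apply intervalIntegral.integral_congr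
      intro u hu
      rw [Set.uIcc_of_le hq] at hu
      show s u / (2 * u) = 1 / (2 * u)
      rw [h.high u hu.1]
    have h2 : ∫ u in (δ ^ 2)..q, 1 / (2 * u) = Real.log q / 2 - Real.log (δ ^ 2) / 2 := by
      apply intervalIntegral.integral_eq_sub_of_hasDerivAt (f := fun q => Real.log q / 2)
      · intro u hu
        rw [Set.uIcc_of_le hq] at hu
        exact hlog u (hδ2'.trans_le hu.1)
      · apply ContinuousOn.intervalIntegrable
        intro u hu
        rw [Set.uIcc_of_le hq] at hu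
        have : 0 < u := hδ2'.trans_le hu.1
        have hne : 2 * u ≠ 0 := by positivity
        exact (continuousAt_const.div (continuousAt_const.mul continuousAt_id) hne).continuousWithinAt
    show Real.log δ + ∫ u in (δ ^ 2)..q, s u / (2 * u) = _
    rw [h1, h2, hlδ]; ring
  refine ⟨Θ, hd, hhigh, fun q hq0 hq1 => ⟨?_, ?_⟩⟩
  · -- lower bound
    have hq4 : Θ (δ ^ 2 / 4) ≤ Θ q := by
      by_cases hq : δ ^ 2 / 4 ≤ q
      · exact hmono hq
      · have hq' : q ≤ δ ^ 2 / 4 := (not_le.1 hq).le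
        have e1 : Θ (δ ^ 2 / 4) - Θ q = ∫ u in q..(δ ^ 2 / 4), s u / (2 * u) := by
          have := intervalIntegral.integral_eq_sub_of_hasDerivAt (f := Θ) (f' := fun q => s q / (2 * q))
            (a := q) (b := δ ^ 2 / 4) (fun u _ => hd u) (hfc.intervalIntegrable _ _)
          rw [this]
        have e2 : ∫ u in q..(δ ^ 2 / 4), s u / (2 * u) = ∫ u in q..(δ ^ 2 / 4), (0 : ℝ) := by
          apply intervalIntegral.integral_congr
          intro u hu
          rw [Set.uIcc_of_le hq'] at hu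
          exact hz u hu.2
        rw [e2] at e1
        simp only [intervalIntegral.integral_zero] at e1
        linarith
    have hanti : AntitoneOn (fun q => Θ q - Real.log q / 2) (Set.Icc (δ ^ 2 / 4) (δ ^ 2)) := by
      have hd' : ∀ x ∈ Set.Icc (δ ^ 2 / 4) (δ ^ 2), HasDerivAt (fun q => Θ q - Real.log q / 2)
          (s x / (2 * x) - 1 / (2 * x)) x := by
        intro x hx
        have : 0 < x := by
          have h2 : 0 < δ ^ 2 / 4 := by positivity
          linarith [hx.1]
        exact (hd x).sub (hlog x this)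
      apply antitoneOn_of_deriv_nonpos (convex_Icc _ _)
      · intro x hx
        exact (hd' x hx).continuousAt.continuousWithinAt
      · intro x hx
        exact (hd' x (interior_subset hx)).differentiableAt.differentiableWithinAt
      · intro x hx
        have hx' := interior_subset hx
        rw [(hd' x hx').deriv]
        have : 0 < x := by
          have h2 : 0 < δ ^ 2 / 4 := by positivity
          linarith [hx'.1]
        rw [← sub_div]
        apply div_nonpos_of_nonpos_of_nonneg _ (by positivity)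
        linarith [(h.h0 x).2]
    have h4 := hanti (a := δ ^ 2 / 4) (b := δ ^ 2) ⟨le_rfl, by linarith⟩ ⟨by linarith, le_rfl⟩ (by linarith)
    simp only [hΘδ, hlδ, sub_self] at h4
    have h5 : Real.log (δ ^ 2 / 4) / 2 = -Real.log (2 / δ) := by
      have : δ ^ 2 / 4 = (2 / δ)⁻¹ ^ 2 := by field_simp; norm_num
      rw [this, Real.log_pow, Real.log_inv]; push_cast; ring
    linarith
  · have h1 : Θ 1 = 0 := by
      rw [hhigh 1 (by nlinarith), Real.log_one, zero_div]
    rw [← h1]
    exact hmono hq1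

end Pool.H14.SR
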