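import Pool.Agent.H14.SR.Basic
import Pool.Agent.H14.SR.STEP
import Pool.Agent.H14.SR.CE
open MeasureTheory Set Filter Topology
noncomputable section
namespace Pool.H14.SR


/-! ### auxiliary lemmas for (PH) -/

theorem PH_s1_high {C0 d v : ℝ} {s s' s'' : ℝ → ℝ} (hs : Step C0 d v s s' s'') {q : ℝ}
    (hq : d ^ 2 ≤ q) : s' q = 0 := by
  have h1 : HasDerivWithinAt s (s' q) (Ici q) q := (hs.d1 q).hasDerivWithinAt
  have h2 : HasDerivWithinAt s 0 (Ici q) q :=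
    (hasDerivWithinAt_const q (Ici q) (1 : ℝ)).congr (fun x hx => hs.high x (hq.trans hx))
      (hs.high q hq)
  exact UniqueDiffWithinAt.eq_deriv (Ici q) (uniqueDiffOn_Ici q q self_mem_Ici) h1 h2

theorem PH_s2_high {C0 d v : ℝ} {s s' s'' : ℝ → ℝ} (hs : Step C0 d v s s' s'') {q : ℝ}
    (hq : d ^ 2 ≤ q) : s'' q = 0 := by
  have h1 : HasDerivWithinAt s' (s'' q) (Ici q) q := (hs.d2 q).hasDerivWithinAt
  have h2 : HasDerivWithinAt s' 0 (Ici q) q :=
    (hasDerivWithinAt_const q (Ici q) (0 : ℝ)).congr (fun x hx => PH_s1_high hs (hq.trans hx))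
      (PH_s1_high hs hq)
  exact UniqueDiffWithinAt.eq_deriv (Ici q) (uniqueDiffOn_Ici q q self_mem_Ici) h1 h2

theorem PH_s1_low {C0 d v : ℝ} {s s' s'' : ℝ → ℝ} (hs : Step C0 d v s s' s'') {q : ℝ}
    (hq : q < d ^ 2 / 4) : s' q = 0 := by
  have h2 : HasDerivAt s 0 q := by
    refine (hasDerivAt_const q (0 : ℝ)).congr_of_eventuallyEq ?_
    filter_upwards [Iio_mem_nhds hq] with x hx
    exact hs.low x (le_of_lt hx)
  exact (hs.d1 q).unique h2

/-- continuity of `k * cc` -/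
theorem PH_mul_cont {σ : ℝ} {k : ℝ × ℝ → ℂ} (hk : ContinuousOn k {p | -σ < p.2})
    (cc : ℝ × ℝ → ℝ) (Om : Set (ℝ × ℝ)) (hb : ∀ p, |cc p| ≤ 4)
    (hloc : ∀ p ∈ Om, -σ < p.2 → ∀ᶠ p' in 𝓝 p, cc p' = cc p)
    (h0 : ∀ p : ℝ × ℝ, -σ < p.2 → p ∉ Om → k p = 0) :
    ContinuousOn (fun p => k p * (cc p : ℂ)) {p | -σ < p.2} := by
  intro p hp
  by_cases hpO : p ∈ Om
  · have h1 : ContinuousWithinAt (fun p' => k p' * (cc p : ℂ)) {p | -σ < p.2} p :=
      (hk p hp).mul continuousWithinAt_const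
    refine h1.congr_of_eventuallyEq ?_ rfl
    filter_upwards [mem_nhdsWithin_of_mem_nhds (hloc p hpO hp)] with p' hp'
    rw [hp']
  · have hk0 := h0 p hp hpO
    have h1 : Tendsto k (𝓝[{p | -σ < p.2}] p) (𝓝 0) := by
      have := (hk p hp).tendsto
      rwa [hk0] at this
    have h2 : Tendsto (fun p' => 4 * ‖k p'‖) (𝓝[{p | -σ < p.2}] p) (𝓝 0) := by
      have := (h1.norm).const_mul 4
      simpa using this
    show Tendsto (fun p => k p * (cc p : ℂ)) (𝓝[{p | -σ < p.2}] p) (𝓝 (k p * (cc p : ℂ)))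
    rw [hk0, zero_mul]
    refine squeeze_zero_norm (fun p' => ?_) h2
    rw [norm_mul, Complex.norm_real, Real.norm_eq_abs, mul_comm]
    exact mul_le_mul_of_nonneg_right (hb p') (norm_nonneg _)

theorem PH_mul_deriv (f : ℝ → ℂ) (f' : ℂ) (c : ℝ → ℝ) (x : ℝ) (hf : HasDerivAt f f' x)
    (hc : ∀ t, |c t| ≤ 4) (h : (∀ᶠ t in 𝓝 x, c t = c x) ∨ (f x = 0 ∧ f' = 0)) :
    HasDerivAt (fun t => f t * (c t : ℂ)) (f' * (c x : ℂ)) x := by
  rcases h with h | ⟨h1, h2⟩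
  · refine (hf.mul_const (c x : ℂ)).congr_of_eventuallyEq ?_
    filter_upwards [h] with t ht
    rw [ht]
  · subst h2
    rw [zero_mul]
    rw [hasDerivAt_iff_isLittleO] at hf ⊢
    simp only [h1, sub_zero, smul_zero, zero_mul] at hf ⊢
    have hO : (fun t => (c t : ℂ)) =O[𝓝 x] (fun _ => (1 : ℝ)) := by
      refine Asymptotics.IsBigO.of_bound 4 (Filter.Eventually.of_forall fun t => ?_)
      rw [Complex.norm_real, Real.norm_eq_abs, norm_one, mul_one]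
      exact hc t
    have := hf.mul_isBigO hO
    simpa using this

theorem PH_mul {σ : ℝ} {k kx ky : ℝ × ℝ → ℂ} (hk : C1 σ k kx ky)
    (cc : ℝ × ℝ → ℝ) (Om : Set (ℝ × ℝ)) (hb : ∀ p, |cc p| ≤ 4)
    (hloc : ∀ p ∈ Om, -σ < p.2 → ∀ᶠ p' in 𝓝 p, cc p' = cc p)
    (hper : ∀ p : ℝ × ℝ, -σ < p.2 → cc (p.1 + 2 * Real.pi, p.2) = cc p)
    (h0 : ∀ p : ℝ × ℝ, -σ < p.2 → p ∉ Om → k p = 0 ∧ kx p = 0 ∧ ky p = 0) :
    C1 σ (fun p => k p * (cc p : ℂ)) (fun p => kx p * (cc p : ℂ))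
      (fun p => ky p * (cc p : ℂ)) where
  dx := fun p hp => by
    refine PH_mul_deriv (fun x => k (x, p.2)) (kx p) (fun x => cc (x, p.2)) p.1 (hk.dx p hp)
      (fun t => hb _) ?_
    by_cases hpO : p ∈ Om
    · left
      have hc : Tendsto (fun x : ℝ => (x, p.2)) (𝓝 p.1) (𝓝 p) := by
        have : Continuous (fun x : ℝ => (x, p.2)) := by fun_prop
        exact this.tendsto p.1
      exact hc.eventually (hloc p hpO hp)
    · right
      exact ⟨(h0 p hp hpO).1, (h0 p hp hpO).2.1⟩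
  dy := fun p hp => by
    refine PH_mul_deriv (fun y => k (p.1, y)) (ky p) (fun y => cc (p.1, y)) p.2 (hk.dy p hp)
      (fun t => hb _) ?_
    by_cases hpO : p ∈ Om
    · left
      have hc : Tendsto (fun y : ℝ => (p.1, y)) (𝓝 p.2) (𝓝 p) := by
        have : Continuous (fun y : ℝ => (p.1, y)) := by fun_prop
        exact this.tendsto p.2
      exact hc.eventually (hloc p hpO hp)
    · right
      exact ⟨(h0 p hp hpO).1, (h0 p hp hpO).2.2⟩
  c := PH_mul_cont hk.c cc Om hb hloc (fun p hp hpO => (h0 p hp hpO).1)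
  cx := PH_mul_cont hk.cx cc Om hb hloc (fun p hp hpO => (h0 p hp hpO).2.1)
  cy := PH_mul_cont hk.cy cc Om hb hloc (fun p hp hpO => (h0 p hp hpO).2.2)
  per := fun p hp => by
    rw [hk.per p hp, hper p hp]

/-- monotonicity of `C1` in `σ` -/
theorem PH_C1_mono {V : Type*} [NormedAddCommGroup V] [NormedSpace ℝ V] {σ σ' : ℝ}
    {u ux uy : ℝ × ℝ → V} (h : C1 σ u ux uy) (hs : σ' ≤ σ) : C1 σ' u ux uy where
  dx := fun p hp => h.dx p (by linarith)
  dy := fun p hp => h.dy p (by linarith)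
  c := h.c.mono (fun p (hp : -σ' < p.2) => (by linarith : -σ < p.2))
  cx := h.cx.mono (fun p (hp : -σ' < p.2) => (by linarith : -σ < p.2))
  cy := h.cy.mono (fun p (hp : -σ' < p.2) => (by linarith : -σ < p.2))
  per := fun p hp => h.per p (by linarith)

/-- A function with vanishing partial derivatives on an open box is constant there. -/
theorem PH_const (u : ℝ × ℝ → ℂ) (p : ℝ × ℝ) (r : ℝ)
    (hx : ∀ q : ℝ × ℝ, |q.1 - p.1| < r → |q.2 - p.2| < r →
      HasDerivAt (fun x : ℝ => u (x, q.2)) 0 q.1)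
    (hy : ∀ q : ℝ × ℝ, |q.1 - p.1| < r → |q.2 - p.2| < r →
      HasDerivAt (fun y : ℝ => u (q.1, y)) 0 q.2)
    (q : ℝ × ℝ) (h1 : |q.1 - p.1| < r) (h2 : |q.2 - p.2| < r) : u q = u p := by
  have hr : 0 < r := lt_of_le_of_lt (abs_nonneg _) h1
  have e1 : u (q.1, q.2) = u (p.1, q.2) := by
    refine IsOpen.is_const_of_deriv_eq_zero (s := Ioo (p.1 - r) (p.1 + r)) (f := fun x => u (x, q.2))
      isOpen_Ioo isPreconnected_Ioo ?_ ?_ ?_ ?_
    · intro x hx'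
      have : |x - p.1| < r := by rw [abs_lt]; constructor <;> linarith [hx'.1, hx'.2]
      exact (hx (x, q.2) this h2).differentiableAt.differentiableWithinAt
    · intro x hx'
      have : |x - p.1| < r := by rw [abs_lt]; constructor <;> linarith [hx'.1, hx'.2]
      exact (hx (x, q.2) this h2).deriv
    · rw [abs_lt] at h1; constructor <;> linarith
    · constructor <;> linarith
  have e2 : u (p.1, q.2) = u (p.1, p.2) := by
    have h0 : |p.1 - p.1| < r := by simpa using hr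
    refine IsOpen.is_const_of_deriv_eq_zero (s := Ioo (p.2 - r) (p.2 + r)) (f := fun y => u (p.1, y))
      isOpen_Ioo isPreconnected_Ioo ?_ ?_ ?_ ?_
    · intro y hy'
      have : |y - p.2| < r := by rw [abs_lt]; constructor <;> linarith [hy'.1, hy'.2]
      exact (hy (p.1, y) h0 this).differentiableAt.differentiableWithinAt
    · intro y hy'
      have : |y - p.2| < r := by rw [abs_lt]; constructor <;> linarith [hy'.1, hy'.2]
      exact (hy (p.1, y) h0 this).deriv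
    · rw [abs_lt] at h2; constructor <;> linarith
    · constructor <;> linarith
  exact e1.trans e2

/-- `|f|^2` for a `C1` function. -/
theorem PH_sq {σ : ℝ} {f fx fy : ℝ × ℝ → ℂ} (hf : C1 σ f fx fy) :
    C1 σ (fun p => ‖f p‖ ^ 2) (fun p => 2 * (starRingEnd ℂ (f p) * fx p).re)
      (fun p => 2 * (starRingEnd ℂ (f p) * fy p).re) where
  dx := fun p hp => by
    have h := (hf.dx p hp).norm_sq
    refine h.congr_deriv ?_
    rw [Complex.inner, mul_comm (fx p)]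
  dy := fun p hp => by
    have h := (hf.dy p hp).norm_sq
    refine h.congr_deriv ?_
    rw [Complex.inner, mul_comm (fy p)]
  c := (hf.c.norm).pow 2
  cx := by
    have h1 : ContinuousOn (fun p => starRingEnd ℂ (f p)) {p | -σ < p.2} :=
      Complex.continuous_conj.comp_continuousOn hf.c
    exact continuousOn_const.mul (Complex.continuous_re.comp_continuousOn (h1.mul hf.cx))
  cy := by
    have h1 : ContinuousOn (fun p => starRingEnd ℂ (f p)) {p | -σ < p.2} :=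
      Complex.continuous_conj.comp_continuousOn hf.c
    exact continuousOn_const.mul (Complex.continuous_re.comp_continuousOn (h1.mul hf.cy))
  per := fun p hp => by rw [hf.per p hp]

/-- composition of a real `C1` function with a `C¹` function of one variable. -/
theorem PH_comp {σ : ℝ} {f fx fy : ℝ × ℝ → ℝ} (hf : C1 σ f fx fy) {g g' : ℝ → ℝ}
    (hg : ∀ q, HasDerivAt g (g' q) q) (hg' : Continuous g') :
    C1 σ (fun p => ((g (f p) : ℝ) : ℂ)) (fun p => ((g' (f p) * fx p : ℝ) : ℂ))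
      (fun p => ((g' (f p) * fy p : ℝ) : ℂ)) where
  dx := fun p hp => by
    have h1 : HasDerivAt g (g' (f (p.1, p.2))) (f (p.1, p.2)) := hg _
    have h := HasDerivAt.comp p.1 (h₂ := g) (h := fun x => f (x, p.2)) h1 (hf.dx p hp)
    exact h.ofReal_comp
  dy := fun p hp => by
    have h1 : HasDerivAt g (g' (f (p.1, p.2))) (f (p.1, p.2)) := hg _
    have h := HasDerivAt.comp p.2 (h₂ := g) (h := fun y => f (p.1, y)) h1 (hf.dy p hp)
    exact h.ofReal_comp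
  c := by
    have hgc : Continuous g := continuous_iff_continuousAt.2 (fun q => (hg q).continuousAt)
    exact Complex.continuous_ofReal.comp_continuousOn (hgc.comp_continuousOn hf.c)
  cx := Complex.continuous_ofReal.comp_continuousOn ((hg'.comp_continuousOn hf.c).mul hf.cx)
  cy := Complex.continuous_ofReal.comp_continuousOn ((hg'.comp_continuousOn hf.c).mul hf.cy)
  per := fun p hp => by rw [hf.per p hp]

theorem PH_conj {σ : ℝ} {f fx fy : ℝ × ℝ → ℂ} (hf : C1 σ f fx fy) :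
    C1 σ (fun p => starRingEnd ℂ (f p)) (fun p => starRingEnd ℂ (fx p))
      (fun p => starRingEnd ℂ (fy p)) where
  dx := fun p hp => (Complex.conjCLE : ℂ →L[ℝ] ℂ).hasFDerivAt.comp_hasDerivAt p.1 (hf.dx p hp)
  dy := fun p hp => (Complex.conjCLE : ℂ →L[ℝ] ℂ).hasFDerivAt.comp_hasDerivAt p.2 (hf.dy p hp)
  c := Complex.continuous_conj.comp_continuousOn hf.c
  cx := Complex.continuous_conj.comp_continuousOn hf.cx
  cy := Complex.continuous_conj.comp_continuousOn hf.cy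
  per := fun p hp => by rw [hf.per p hp]

theorem PH_prod {σ : ℝ} {f fx fy g gx gy : ℝ × ℝ → ℂ} (hf : C1 σ f fx fy) (hg : C1 σ g gx gy) :
    C1 σ (fun p => f p * g p) (fun p => fx p * g p + f p * gx p)
      (fun p => fy p * g p + f p * gy p) where
  dx := fun p hp => (hf.dx p hp).mul (hg.dx p hp)
  dy := fun p hp => (hf.dy p hp).mul (hg.dy p hp)
  c := hf.c.mul hg.c
  cx := (hf.cx.mul hg.c).add (hf.c.mul hg.cx)
  cy := (hf.cy.mul hg.c).add (hf.c.mul hg.cy)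
  per := fun p hp => by rw [hf.per p hp, hg.per p hp]

theorem PH_cmul {σ : ℝ} {f fx fy : ℝ × ℝ → ℂ} (c : ℂ) (hf : C1 σ f fx fy) :
    C1 σ (fun p => c * f p) (fun p => c * fx p) (fun p => c * fy p) where
  dx := fun p hp => (hf.dx p hp).const_mul c
  dy := fun p hp => (hf.dy p hp).const_mul c
  c := continuousOn_const.mul hf.c
  cx := continuousOn_const.mul hf.cx
  cy := continuousOn_const.mul hf.cy
  per := fun p hp => by rw [hf.per p hp]

theorem PH_add {σ : ℝ} {f fx fy g gx gy : ℝ × ℝ → ℂ} (hf : C1 σ f fx fy) (hg : C1 σ g gx gy) :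
    C1 σ (fun p => f p + g p) (fun p => fx p + gx p) (fun p => fy p + gy p) where
  dx := fun p hp => (hf.dx p hp).add (hg.dx p hp)
  dy := fun p hp => (hf.dy p hp).add (hg.dy p hp)
  c := hf.c.add hg.c
  cx := hf.cx.add hg.cx
  cy := hf.cy.add hg.cy
  per := fun p hp => by rw [hf.per p hp, hg.per p hp]

theorem PH_real {σ : ℝ} {f fx fy : ℝ × ℝ → ℝ} (hf : C1 σ f fx fy) :
    C1 σ (fun p => ((f p : ℝ) : ℂ)) (fun p => ((fx p : ℝ) : ℂ)) (fun p => ((fy p : ℝ) : ℂ)) where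
  dx := fun p hp => (hf.dx p hp).ofReal_comp
  dy := fun p hp => (hf.dy p hp).ofReal_comp
  c := Complex.continuous_ofReal.comp_continuousOn hf.c
  cx := Complex.continuous_ofReal.comp_continuousOn hf.cx
  cy := Complex.continuous_ofReal.comp_continuousOn hf.cy
  per := fun p hp => by rw [hf.per p hp]

theorem PH_congr {V : Type*} [NormedAddCommGroup V] [NormedSpace ℝ V] {σ : ℝ}
    {u ux uy ux' uy' : ℝ × ℝ → V} (h : C1 σ u ux uy)
    (hx : ∀ p : ℝ × ℝ, -σ < p.2 → ux' p = ux p) (hy : ∀ p : ℝ × ℝ, -σ < p.2 → uy' p = uy p) :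
    C1 σ u ux' uy' where
  dx := fun p hp => by rw [hx p hp]; exact h.dx p hp
  dy := fun p hp => by rw [hy p hp]; exact h.dy p hp
  c := h.c
  cx := h.cx.congr hx
  cy := h.cy.congr hy
  per := h.per

/-- The set where `|b| < ε` is open in the half plane. -/
theorem PH_open {σ ε : ℝ} {f : ℝ × ℝ → ℂ} (hf : ContinuousOn f {p | -σ < p.2}) {p : ℝ × ℝ}
    (hp : -σ < p.2) (h : ‖f p‖ < ε) : ∀ᶠ p' in 𝓝 p, -σ < p'.2 ∧ ‖f p'‖ < ε := by
  have ho : IsOpen {p : ℝ × ℝ | -σ < p.2} := isOpen_lt continuous_const continuous_snd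
  have h1 : ContinuousAt f p := hf.continuousAt (ho.mem_nhds hp)
  have h2 : ∀ᶠ p' in 𝓝 p, ‖f p'‖ < ε := h1.norm.eventually (gt_mem_nhds h)
  filter_upwards [ho.mem_nhds hp, h2] with p' h3 h4 using ⟨h3, h4⟩

/-- `X/b` for `X` vanishing where `|b| < ε`. -/
theorem PH_div {σ ε : ℝ} (hε : 0 < ε) {f fx fy X Xx Xy : ℝ × ℝ → ℂ} (hf : C1 σ f fx fy)
    (hX : C1 σ X Xx Xy) (h0 : ∀ p : ℝ × ℝ, -σ < p.2 → ‖f p‖ < ε → X p = 0) :
    C1 σ (fun p => X p / f p) (fun p => (Xx p * f p - X p * fx p) / f p ^ 2)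
      (fun p => (Xy p * f p - X p * fy p) / f p ^ 2) := by
  have hx0 : ∀ p : ℝ × ℝ, -σ < p.2 → ‖f p‖ < ε → Xx p = 0 := by
    intro p hp hb
    have hc : Tendsto (fun x : ℝ => (x, p.2)) (𝓝 p.1) (𝓝 p) := by
      have : Continuous (fun x : ℝ => (x, p.2)) := by fun_prop
      exact this.tendsto p.1
    have h1 : HasDerivAt (fun x : ℝ => X (x, p.2)) 0 p.1 := by
      refine (hasDerivAt_const p.1 (0 : ℂ)).congr_of_eventuallyEq ?_
      filter_upwards [hc.eventually (PH_open hf.c hp hb)] with x hx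
      exact h0 (x, p.2) hx.1 hx.2
    exact (hX.dx p hp).unique h1
  have hy0 : ∀ p : ℝ × ℝ, -σ < p.2 → ‖f p‖ < ε → Xy p = 0 := by
    intro p hp hb
    have hc : Tendsto (fun y : ℝ => (p.1, y)) (𝓝 p.2) (𝓝 p) := by
      have : Continuous (fun y : ℝ => (p.1, y)) := by fun_prop
      exact this.tendsto p.2
    have h1 : HasDerivAt (fun y : ℝ => X (p.1, y)) 0 p.2 := by
      refine (hasDerivAt_const p.2 (0 : ℂ)).congr_of_eventuallyEq ?_
      filter_upwards [hc.eventually (PH_open hf.c hp hb)] with y hy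
      exact h0 (p.1, y) hy.1 hy.2
    exact (hX.dy p hp).unique h1
  have cont : ∀ Y : ℝ × ℝ → ℂ, ContinuousOn Y {p | -σ < p.2} → ∀ n : ℕ,
      (∀ p : ℝ × ℝ, -σ < p.2 → ‖f p‖ < ε → Y p = 0) →
      ContinuousOn (fun p => Y p / f p ^ n) {p | -σ < p.2} := by
    intro Y hY n hY0 p hp
    by_cases hfp : f p = 0
    · have hb : ‖f p‖ < ε := by rw [hfp, norm_zero]; exact hε
      have h1 : ContinuousWithinAt (fun _ : ℝ × ℝ => (0 : ℂ)) {p | -σ < p.2} p :=
        continuousWithinAt_const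
      refine h1.congr_of_eventuallyEq ?_ ?_
      · filter_upwards [mem_nhdsWithin_of_mem_nhds (PH_open hf.c hp hb)] with p' hp'
        rw [hY0 p' hp'.1 hp'.2, zero_div]
      · rw [hY0 p hp hb, zero_div]
    · exact (hY p hp).div ((hf.c p hp).pow n) (pow_ne_zero _ hfp)
  refine ⟨?_, ?_, ?_, ?_, ?_, ?_⟩
  · intro p hp
    by_cases hfp : f p = 0
    · have hb : ‖f p‖ < ε := by rw [hfp, norm_zero]; exact hε
      have hc : Tendsto (fun x : ℝ => (x, p.2)) (𝓝 p.1) (𝓝 p) := by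
        have : Continuous (fun x : ℝ => (x, p.2)) := by fun_prop
        exact this.tendsto p.1
      have h1 : HasDerivAt (fun x : ℝ => X (x, p.2) / f (x, p.2)) 0 p.1 := by
        refine (hasDerivAt_const p.1 (0 : ℂ)).congr_of_eventuallyEq ?_
        filter_upwards [hc.eventually (PH_open hf.c hp hb)] with x hx
        rw [h0 (x, p.2) hx.1 hx.2, zero_div]
      have h2 : (Xx p * f p - X p * fx p) / f p ^ 2 = 0 := by rw [hfp]; simp
      rw [h2]; exact h1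
    · exact (hX.dx p hp).div (hf.dx p hp) hfp
  · intro p hp
    by_cases hfp : f p = 0
    · have hb : ‖f p‖ < ε := by rw [hfp, norm_zero]; exact hε
      have hc : Tendsto (fun y : ℝ => (p.1, y)) (𝓝 p.2) (𝓝 p) := by
        have : Continuous (fun y : ℝ => (p.1, y)) := by fun_prop
        exact this.tendsto p.2
      have h1 : HasDerivAt (fun y : ℝ => X (p.1, y) / f (p.1, y)) 0 p.2 := by
        refine (hasDerivAt_const p.2 (0 : ℂ)).congr_of_eventuallyEq ?_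
        filter_upwards [hc.eventually (PH_open hf.c hp hb)] with y hy
        rw [h0 (p.1, y) hy.1 hy.2, zero_div]
      have h2 : (Xy p * f p - X p * fy p) / f p ^ 2 = 0 := by rw [hfp]; simp
      rw [h2]; exact h1
    · exact (hX.dy p hp).div (hf.dy p hp) hfp
  · have := cont X hX.c 1 h0
    simpa using this
  · refine cont _ ((hX.cx.mul hf.c).sub (hX.c.mul hf.cx)) 2 ?_
    intro p hp hb
    show Xx p * f p - X p * fx p = 0
    rw [h0 p hp hb, hx0 p hp hb]; simp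
  · refine cont _ ((hX.cy.mul hf.c).sub (hX.c.mul hf.cy)) 2 ?_
    intro p hp hb
    show Xy p * f p - X p * fy p = 0
    rw [h0 p hp hb, hy0 p hp hb]; simp
  · intro p hp
    show X _ / f _ = X p / f p
    rw [hX.per p hp, hf.per p hp]

/-- **(PH)** Phase correction.  On `Ω = {|b| < ε₂}` (where `X = 0`, `ψ(|a|²) = 1`) the function `u = e^φ/a` has modulus one
and is locally constant (`ux = u(φx - a'/a) = 0`, `uy = u(φy - ia'/a) = 0`), so `cc = arg u` is locally constant on `Ω`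
(put `cc = 0` outside).  `φ' = φ - i(1 - s(|b|²)) cc` (`s` = `Step` at scale `ε₂` for `|b(0)|`; `1 - s(|b|²)` vanishes for
`|b| ≥ ε₂`, so `φ'` is `C¹`), `G₂ = i cc s'(|b|²) conj(b')`:
`φ'x + iφ'y = (φx + iφy) + i·cc·s'(|b|²)(qx + i qy)`, `q = |b|²`, `qx + i qy = 2 b conj(b')`, and
`φx + iφy = X₁ - iX₂`.  `G₁ = (X₁ - iX₂)/(2b)` is `C¹` because `X = 0` on `Ω`.
`G₂x - iG₂y = 2 i cc s''(|b|²) conj(b) b' conj(b')` (`∂ conj(b') = 0`). -/
theorem PH {δ ρ : ℝ} {a b F : ℂ → ℂ} (H : Dat δ ρ a b F) (C0 ε : ℝ) (hε : 0 < ε) (hεδ : ε < δ)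
    (ψ : ℝ → ℝ) (hψ1 : ∀ q, δ ^ 2 ≤ q → ψ q = 1) (Θ : ℝ → ℝ)
    (hΘ1 : ∀ q, δ ^ 2 ≤ q → Θ q = Real.log q / 2) (s s' s'' : ℝ → ℝ)
    (hs : Step C0 ε ‖b 0‖ s s' s'')
    (σ : ℝ) (hσ : 0 < σ) (hσρ : σ < Real.log ρ) (X1 X1x X1y X2 X2x X2y : ℝ × ℝ → ℝ)
    (hX1 : C1 σ X1 X1x X1y) (hX2 : C1 σ X2 X2x X2y)
    (hX : ∀ p : ℝ × ℝ, -σ < p.2 → ‖hp b p‖ < ε → X1 p = 0 ∧ X2 p = 0)
    (φ : ℝ × ℝ → ℂ) (hφ : C1 σ φ
        (fun p => (ψ (‖hp a p‖ ^ 2) : ℂ) * hp (Dz a) p / hp a p - Complex.I * X2 p)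
        (fun p => Complex.I * ((ψ (‖hp a p‖ ^ 2) : ℂ) * hp (Dz a) p / hp a p)
          - Complex.I * X1 p))
    (hφre : ∀ p : ℝ × ℝ, -σ < p.2 → (φ p).re = Θ (‖hp a p‖ ^ 2))
    (Bφ : ℝ) (hφB : ∀ p : ℝ × ℝ, 0 ≤ p.2 → ‖φ p‖ ≤ Bφ) :
    ∃ φ' φx φy G1x G1y G2 G2x G2y : ℝ × ℝ → ℂ,
      C1 σ φ' φx φy ∧
      C1 σ (fun p => ((X1 p : ℂ) - Complex.I * X2 p) / (2 * hp b p)) G1x G1y ∧
      C1 σ G2 G2x G2y ∧
      (∀ p : ℝ × ℝ, -σ < p.2 → (φ' p).re = Θ (‖hp a p‖ ^ 2)) ∧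
      (∀ p : ℝ × ℝ, -σ < p.2 → φx p + Complex.I * φy p
        = 2 * hp b p * (((X1 p : ℂ) - Complex.I * X2 p) / (2 * hp b p) + G2 p)) ∧
      (∀ p : ℝ × ℝ, -σ < p.2 → ‖hp b p‖ < ε / 2 → Complex.exp (φ' p) = hp a p ∧ G2 p = 0) ∧
      (∀ p : ℝ × ℝ, 0 ≤ p.2 → ‖G2 p‖ ≤ 4 * C0 / ε ^ 2 * ‖hp (Dz b) p‖) ∧
      (∀ p : ℝ × ℝ, 0 ≤ p.2 → ‖G2x p - Complex.I * G2y p‖
        ≤ 8 * C0 / ε ^ 4 * ‖hp (Dz b) p‖ ^ 2) ∧
      (∀ p : ℝ × ℝ, Real.log (16 / ε) ≤ p.2 → G2 p = 0) ∧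
      ∃ B : ℝ, ∀ p : ℝ × ℝ, 0 ≤ p.2 → ‖φ' p‖ ≤ B := by
  have hρ0 : 0 < ρ := by linarith [H.hρ]
  have hBl : C1 (Real.log ρ) (hp b) (hp (Dz b)) (fun p => Complex.I * hp (Dz b) p) := C1_hp hρ0 H.hb
  have hB : C1 σ (hp b) (hp (Dz b)) (fun p => Complex.I * hp (Dz b) p) := PH_C1_mono hBl hσρ.le
  have hB2l : C1 (Real.log ρ) (hp (Dz b)) (hp (Dz (Dz b)))
      (fun p => Complex.I * hp (Dz (Dz b)) p) := C1_hp hρ0 (Dz_diff H.hb)
  have hB2 : C1 σ (hp (Dz b)) (hp (Dz (Dz b))) (fun p => Complex.I * hp (Dz (Dz b)) p) :=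
    PH_C1_mono hB2l hσρ.le
  have hA : C1 σ (hp a) (hp (Dz a)) (fun p => Complex.I * hp (Dz a) p) :=
    PH_C1_mono (C1_hp hρ0 H.ha) hσρ.le
  have hmem : ∀ p : ℝ × ℝ, -σ < p.2 → E p ∈ Metric.ball (0 : ℂ) ρ := fun p hpp =>
    E_mem_ball hρ0 (by linarith)
  have ha2 : ∀ p : ℝ × ℝ, -σ < p.2 → ‖hp b p‖ < ε → 2 * δ ≤ ‖hp a p‖ := by
    intro p hpp hb
    rcases H.hab _ (hmem p hpp) with h | h
    · exact h
    · exfalso
      have : ‖hp b p‖ = ‖b (E p)‖ := rfl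
      have := H.hδ
      linarith
  have hane : ∀ p : ℝ × ℝ, -σ < p.2 → ‖hp b p‖ < ε → hp a p ≠ 0 := by
    intro p hpp hb h0
    have := ha2 p hpp hb
    rw [h0, norm_zero] at this
    linarith [H.hδ]
  have hasq : ∀ p : ℝ × ℝ, -σ < p.2 → ‖hp b p‖ < ε → δ ^ 2 ≤ ‖hp a p‖ ^ 2 := by
    intro p hpp hb
    have := ha2 p hpp hb
    have h3 := H.hδ
    exact pow_le_pow_left₀ h3.le (by linarith) 2
  set u : ℝ × ℝ → ℂ := fun p => Complex.exp (φ p) / hp a p with hu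
  have hunorm : ∀ p : ℝ × ℝ, -σ < p.2 → ‖hp b p‖ < ε → ‖u p‖ = 1 := by
    intro p hpp hb
    have hpos : 0 < ‖hp a p‖ := norm_pos_iff.2 (hane p hpp hb)
    show ‖Complex.exp (φ p) / hp a p‖ = 1
    rw [norm_div, Complex.norm_exp, hφre p hpp, hΘ1 _ (hasq p hpp hb), Real.log_pow]
    push_cast
    rw [show 2 * Real.log ‖hp a p‖ / 2 = Real.log ‖hp a p‖ by ring, Real.exp_log hpos]
    exact div_self hpos.ne'
  have hux : ∀ p : ℝ × ℝ, -σ < p.2 → ‖hp b p‖ < ε →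
      HasDerivAt (fun x : ℝ => u (x, p.2)) 0 p.1 := by
    intro p hpp hb
    have hne := hane p hpp hb
    have h1 := (hφ.dx p hpp).cexp.div (hA.dx p hpp) (by exact hne)
    refine h1.congr_deriv ?_
    rw [hψ1 _ (hasq p hpp hb), (hX p hpp hb).2]
    show (Complex.exp (φ p) * (((1 : ℝ) : ℂ) * hp (Dz a) p / hp a p - Complex.I * ((0 : ℝ) : ℂ)) * hp a p
      - Complex.exp (φ p) * hp (Dz a) p) / hp a p ^ 2 = 0
    push_cast
    field_simp
    ring
  have huy : ∀ p : ℝ × ℝ, -σ < p.2 → ‖hp b p‖ < ε →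
      HasDerivAt (fun y : ℝ => u (p.1, y)) 0 p.2 := by
    intro p hpp hb
    have hne := hane p hpp hb
    have h1 := (hφ.dy p hpp).cexp.div (hA.dy p hpp) (by exact hne)
    refine h1.congr_deriv ?_
    rw [hψ1 _ (hasq p hpp hb), (hX p hpp hb).1]
    show (Complex.exp (φ p) * (Complex.I * (((1 : ℝ) : ℂ) * hp (Dz a) p / hp a p)
      - Complex.I * ((0 : ℝ) : ℂ)) * hp a p
      - Complex.exp (φ p) * (Complex.I * hp (Dz a) p)) / hp a p ^ 2 = 0
    push_cast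
    field_simp
    ring
  have huloc : ∀ p : ℝ × ℝ, -σ < p.2 → ‖hp b p‖ < ε →
      ∀ᶠ p' in 𝓝 p, u p' = u p ∧ ‖hp b p'‖ < ε := by
    intro p hpp hb
    obtain ⟨r, hr, hr2⟩ := Metric.eventually_nhds_iff.1 (PH_open hB.c hpp hb)
    have hbox : ∀ q : ℝ × ℝ, |q.1 - p.1| < r → |q.2 - p.2| < r → -σ < q.2 ∧ ‖hp b q‖ < ε := by
      intro q h1 h2
      apply hr2
      rw [Prod.dist_eq, Real.dist_eq, Real.dist_eq]
      exact max_lt h1 h2
    refine Metric.eventually_nhds_iff.2 ⟨r, hr, fun q hq => ?_⟩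
    rw [Prod.dist_eq, Real.dist_eq, Real.dist_eq] at hq
    have h1 : |q.1 - p.1| < r := lt_of_le_of_lt (le_max_left _ _) hq
    have h2 : |q.2 - p.2| < r := lt_of_le_of_lt (le_max_right _ _) hq
    refine ⟨PH_const u p r (fun q h3 h4 => ?_) (fun q h3 h4 => ?_) q h1 h2, (hbox q h1 h2).2⟩
    · exact hux q (hbox q h3 h4).1 (hbox q h3 h4).2
    · exact huy q (hbox q h3 h4).1 (hbox q h3 h4).2
  set cc : ℝ × ℝ → ℝ := fun p => if ‖hp b p‖ < ε then (u p).arg else 0 with hcc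
  have hccb : ∀ p, |cc p| ≤ 4 := by
    intro p
    show |if ‖hp b p‖ < ε then (u p).arg else 0| ≤ 4
    split_ifs
    · exact (Complex.abs_arg_le_pi _).trans Real.pi_le_four
    · norm_num
  set Om : Set (ℝ × ℝ) := {p | ‖hp b p‖ < ε} with hOm
  have hloc : ∀ p ∈ Om, -σ < p.2 → ∀ᶠ p' in 𝓝 p, cc p' = cc p := by
    intro p hpO hpp
    filter_upwards [huloc p hpp hpO] with p' hp'
    have h1 : ‖hp b p‖ < ε := hpO
    show (if ‖hp b p'‖ < ε then (u p').arg else 0) = (if ‖hp b p‖ < ε then (u p).arg else 0)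
    rw [if_pos hp'.2, if_pos h1, hp'.1]
  have hccper : ∀ p : ℝ × ℝ, -σ < p.2 → cc (p.1 + 2 * Real.pi, p.2) = cc p := by
    intro p hpp
    show (if ‖hp b (p.1 + 2 * Real.pi, p.2)‖ < ε then
      (Complex.exp (φ (p.1 + 2 * Real.pi, p.2)) / hp a (p.1 + 2 * Real.pi, p.2)).arg else 0)
      = (if ‖hp b p‖ < ε then (Complex.exp (φ p) / hp a p).arg else 0)
    rw [hp_per, hp_per, hφ.per p hpp]
  -- the functions of `q = |b|^2`
  have hq := PH_sq hB
  set qx : ℝ × ℝ → ℝ := fun p => 2 * (starRingEnd ℂ (hp b p) * hp (Dz b) p).re with hqx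
  set qy : ℝ × ℝ → ℝ := fun p => 2 * (starRingEnd ℂ (hp b p) * (Complex.I * hp (Dz b) p)).re with hqy
  have hs'c : Continuous s' := continuous_iff_continuousAt.2 (fun q => (hs.d2 q).continuousAt)
  have hk1 : C1 σ (fun p => (((1 - s (‖hp b p‖ ^ 2)) : ℝ) : ℂ))
      (fun p => ((-(s' (‖hp b p‖ ^ 2)) * qx p : ℝ) : ℂ))
      (fun p => ((-(s' (‖hp b p‖ ^ 2)) * qy p : ℝ) : ℂ)) :=
    PH_comp hq (g := fun q => 1 - s q) (g' := fun q => -(s' q))
      (fun q => by simpa using (hs.d1 q).const_sub 1) hs'c.neg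
  have hk2 : C1 σ (fun p => ((s' (‖hp b p‖ ^ 2) : ℝ) : ℂ))
      (fun p => ((s'' (‖hp b p‖ ^ 2) * qx p : ℝ) : ℂ))
      (fun p => ((s'' (‖hp b p‖ ^ 2) * qy p : ℝ) : ℂ)) :=
    PH_comp hq (g := s') (g' := s'') hs.d2 hs.c2
  have hge : ∀ p : ℝ × ℝ, p ∉ Om → ε ^ 2 ≤ ‖hp b p‖ ^ 2 := by
    intro p hpO
    have : ε ≤ ‖hp b p‖ := not_lt.1 hpO
    exact pow_le_pow_left₀ hε.le this 2
  have hM1 := PH_mul hk1 cc Om hccb hloc hccper (fun p hpp hpO => by
    have h1 := hge p hpO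
    rw [hs.high _ h1, PH_s1_high hs h1]
    simp)
  have hK3 := PH_prod hk2 (PH_conj hB2)
  have hM2 := PH_mul hK3 cc Om hccb hloc hccper (fun p hpp hpO => by
    have h1 := hge p hpO
    simp only [PH_s1_high hs h1, PH_s2_high hs h1]
    simp)
  have hG2 := PH_cmul Complex.I hM2
  have hφ' := PH_add hφ (PH_cmul (-Complex.I) hM1)
  have hXc : C1 σ (fun p => (X1 p : ℂ) - Complex.I * X2 p)
      (fun p => (X1x p : ℂ) - Complex.I * X2x p) (fun p => (X1y p : ℂ) - Complex.I * X2y p) := by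
    have h := PH_add (PH_real hX1) (PH_cmul (-Complex.I) (PH_real hX2))
    have e : ∀ f g : ℝ × ℝ → ℝ, (fun p => ((f p : ℝ) : ℂ) + -Complex.I * ((g p : ℝ) : ℂ))
        = (fun p => (f p : ℂ) - Complex.I * g p) := by
      intro f g; funext p; ring
    rw [e, e, e] at h
    exact h
  have h2B := PH_cmul 2 hB
  have hG1 := PH_div (ε := 2 * ε) (by linarith) h2B hXc (fun p hpp hb => by
    have h1 : ‖hp b p‖ < ε := by
      rw [norm_mul] at hb
      simp only [Complex.norm_ofNat] at hb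
      linarith
    rw [(hX p hpp h1).1, (hX p hpp h1).2]; simp)
  have hlow : ∀ p : ℝ × ℝ, ‖hp b p‖ < ε / 2 → ‖hp b p‖ ^ 2 < ε ^ 2 / 4 := by
    intro p hpp
    have : ‖hp b p‖ ^ 2 < (ε / 2) ^ 2 := pow_lt_pow_left₀ hpp (norm_nonneg _) (by norm_num)
    calc ‖hp b p‖ ^ 2 < (ε / 2) ^ 2 := this
      _ = ε ^ 2 / 4 := by ring
  have hC0 : 0 ≤ C0 / ε ^ 2 := (abs_nonneg _).trans (hs.b1 0)
  have hC04 : 0 ≤ C0 / ε ^ 4 := (abs_nonneg _).trans (hs.b2 0)
  refine ⟨_, _, _, _, _, _, _, _, hφ', hG1, hG2, ?_, ?_, ?_, ?_, ?_, ?_, ?_⟩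
  · intro p hpp
    show (φ p + -Complex.I * ((((1 - s (‖hp b p‖ ^ 2)) : ℝ) : ℂ) * (cc p : ℂ))).re = _
    rw [← Complex.ofReal_mul, Complex.add_re, hφre p hpp]
    simp
  · intro p hpp
    have e1 : (qx p : ℂ) + Complex.I * (qy p : ℂ)
        = 2 * (hp b p * starRingEnd ℂ (hp (Dz b) p)) := by
      apply Complex.ext
      · simp [hqx, hqy]
      · simp [hqx, hqy]
    have e2 : 2 * hp b p * (((X1 p : ℂ) - Complex.I * X2 p) / (2 * hp b p))
        = (X1 p : ℂ) - Complex.I * X2 p := by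
      by_cases hb0 : hp b p = 0
      · have h1 : ‖hp b p‖ < ε := by rw [hb0, norm_zero]; exact hε
        rw [(hX p hpp h1).1, (hX p hpp h1).2]; simp
      · field_simp
    rw [mul_add (2 * hp b p), e2]
    have e3 : ∀ z w x y c q1 q2 t b1 b2 : ℂ, q1 + Complex.I * q2 = 2 * (b1 * b2) →
        (z - Complex.I * y + -Complex.I * (-t * q1 * c))
          + Complex.I * (Complex.I * z - Complex.I * x + -Complex.I * (-t * q2 * c))
        = x - Complex.I * y + 2 * b1 * (Complex.I * (t * b2 * c)) := by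
      intro z w x y c q1 q2 t b1 b2 h
      have hI : Complex.I * Complex.I = -1 := Complex.I_mul_I
      have : (z - Complex.I * y + -Complex.I * (-t * q1 * c))
          + Complex.I * (Complex.I * z - Complex.I * x + -Complex.I * (-t * q2 * c))
          = z + (Complex.I * Complex.I) * z - Complex.I * y - (Complex.I * Complex.I) * x
            + Complex.I * t * c * (q1 + Complex.I * q2) := by ring
      rw [this, h, hI]; ring
    have := e3 ((ψ (‖hp a p‖ ^ 2) : ℂ) * hp (Dz a) p / hp a p) 0 (X1 p) (X2 p) (cc p) (qx p) (qy p)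
      (s' (‖hp b p‖ ^ 2)) (hp b p) (starRingEnd ℂ (hp (Dz b) p)) e1
    push_cast
    exact this
  · intro p hpp hb
    have h1 : ‖hp b p‖ < ε := by linarith
    have hl := hlow p hb
    constructor
    · show Complex.exp (φ p + -Complex.I * ((((1 - s (‖hp b p‖ ^ 2)) : ℝ) : ℂ) * (cc p : ℂ))) = hp a p
      rw [hs.low _ hl.le]
      have hccp : cc p = (u p).arg := if_pos h1
      rw [hccp]
      have hne := hane p hpp h1
      have h2 : u p = Complex.exp (((u p).arg : ℂ) * Complex.I) := by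
        have := Complex.norm_mul_exp_arg_mul_I (u p)
        rw [hunorm p hpp h1] at this
        simpa using this.symm
      have h3 : Complex.exp (φ p) = u p * hp a p := by
        show Complex.exp (φ p) = Complex.exp (φ p) / hp a p * hp a p
        field_simp
      rw [Complex.exp_add, h3]
      nth_rewrite 1 [h2]
      rw [mul_comm (Complex.exp _) (hp a p), mul_assoc, ← Complex.exp_add]
      have : ((u p).arg : ℂ) * Complex.I + -Complex.I * (((1 - 0 : ℝ) : ℂ) * ((u p).arg : ℂ)) = 0 := by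
        push_cast; ring
      rw [this, Complex.exp_zero, mul_one]
    · show Complex.I * ((((s' (‖hp b p‖ ^ 2) : ℝ) : ℂ) * starRingEnd ℂ (hp (Dz b) p)) * (cc p : ℂ)) = 0
      rw [PH_s1_low hs hl]; simp
  · intro p hpp
    show ‖Complex.I * ((((s' (‖hp b p‖ ^ 2) : ℝ) : ℂ) * starRingEnd ℂ (hp (Dz b) p)) * (cc p : ℂ))‖ ≤ _
    rw [norm_mul, norm_mul, norm_mul, Complex.norm_I, one_mul, Complex.norm_real, Complex.norm_real,
      RCLike.norm_conj, Real.norm_eq_abs, Real.norm_eq_abs]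
    have h1 := hs.b1 (‖hp b p‖ ^ 2)
    calc |s' (‖hp b p‖ ^ 2)| * ‖hp (Dz b) p‖ * |cc p|
        ≤ (C0 / ε ^ 2) * ‖hp (Dz b) p‖ * 4 := by
          gcongr
          exact hccb p
      _ = 4 * C0 / ε ^ 2 * ‖hp (Dz b) p‖ := by ring
  · intro p hpp
    have e1 : (qx p : ℂ) - Complex.I * (qy p : ℂ)
        = 2 * (starRingEnd ℂ (hp b p) * hp (Dz b) p) := by
      apply Complex.ext
      · simp [hqx, hqy]
      · simp [hqx, hqy]; ring
    have e2 : Complex.I * ((((s'' (‖hp b p‖ ^ 2) * qx p : ℝ) : ℂ) * starRingEnd ℂ (hp (Dz b) p)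
          + ((s' (‖hp b p‖ ^ 2) : ℝ) : ℂ) * starRingEnd ℂ (hp (Dz (Dz b)) p)) * (cc p : ℂ))
        - Complex.I * (Complex.I * ((((s'' (‖hp b p‖ ^ 2) * qy p : ℝ) : ℂ) * starRingEnd ℂ (hp (Dz b) p)
          + ((s' (‖hp b p‖ ^ 2) : ℝ) : ℂ) * starRingEnd ℂ (Complex.I * hp (Dz (Dz b)) p)) * (cc p : ℂ)))
        = Complex.I * (cc p : ℂ) * ((s'' (‖hp b p‖ ^ 2) : ℝ) : ℂ) * starRingEnd ℂ (hp (Dz b) p)
          * (2 * (starRingEnd ℂ (hp b p) * hp (Dz b) p)) := by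
      rw [← e1]
      rw [map_mul, Complex.conj_I]
      push_cast
      have hI : Complex.I * Complex.I = -1 := Complex.I_mul_I
      have e3 : ∀ s2 q1 q2 b1 s1 b2 c : ℂ,
          Complex.I * ((s2 * q1 * b1 + s1 * b2) * c)
            - Complex.I * (Complex.I * ((s2 * q2 * b1 + s1 * (-Complex.I * b2)) * c))
          = Complex.I * c * s2 * b1 * (q1 - Complex.I * q2) + Complex.I * s1 * b2 * c
            + Complex.I * (Complex.I * Complex.I) * s1 * b2 * c := by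
        intro s2 q1 q2 b1 s1 b2 c; ring
      rw [e3, hI]; ring
    show ‖Complex.I * ((((s'' (‖hp b p‖ ^ 2) * qx p : ℝ) : ℂ) * starRingEnd ℂ (hp (Dz b) p)
          + ((s' (‖hp b p‖ ^ 2) : ℝ) : ℂ) * starRingEnd ℂ (hp (Dz (Dz b)) p)) * (cc p : ℂ))
        - Complex.I * (Complex.I * ((((s'' (‖hp b p‖ ^ 2) * qy p : ℝ) : ℂ) * starRingEnd ℂ (hp (Dz b) p)
          + ((s' (‖hp b p‖ ^ 2) : ℝ) : ℂ) * starRingEnd ℂ (Complex.I * hp (Dz (Dz b)) p)) * (cc p : ℂ)))‖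
        ≤ _
    rw [e2]
    simp only [norm_mul, Complex.norm_I, one_mul, Complex.norm_real, RCLike.norm_conj,
      Real.norm_eq_abs, Complex.norm_ofNat]
    have hb1 : ‖hp b p‖ ≤ 1 := H.hb1 _ (hmem p (by linarith))
    have h2 := hs.b2 (‖hp b p‖ ^ 2)
    calc |cc p| * |s'' (‖hp b p‖ ^ 2)| * ‖hp (Dz b) p‖ * (2 * (‖hp b p‖ * ‖hp (Dz b) p‖))
        ≤ 4 * (C0 / ε ^ 4) * ‖hp (Dz b) p‖ * (2 * (1 * ‖hp (Dz b) p‖)) := by
          gcongr
          exact hccb p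
      _ = 8 * C0 / ε ^ 4 * ‖hp (Dz b) p‖ ^ 2 := by ring
  · intro p hpp
    have hεs : ε < 1 / 2 := by linarith [H.hδ2]
    have h16 : 1 < 16 / ε := by rw [lt_div_iff₀ hε]; linarith
    have hp0 : 0 < p.2 := lt_of_lt_of_le (Real.log_pos h16) hpp
    have hE : ‖E p‖ ≤ ε / 16 := by
      rw [norm_E]
      have h3 : Real.exp (-p.2) ≤ Real.exp (-Real.log (16 / ε)) := Real.exp_le_exp.2 (by linarith)
      rw [Real.exp_neg (Real.log (16 / ε)), Real.exp_log (by linarith)] at h3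
      refine h3.trans (le_of_eq ?_)
      field_simp
    have h1 := near_zero b (H.hb.mono (Metric.ball_subset_ball H.hρ.le))
      (fun w hw => H.hb1 w (Metric.ball_subset_ball H.hρ.le hw)) (E p) (E_mem_ball_one hp0)
    have h2 : |‖hp b p‖ - ‖b 0‖| ≤ ε / 8 := by
      have h3 : |‖b (E p)‖ - ‖b 0‖| ≤ ‖b (E p) - b 0‖ := abs_norm_sub_norm_le _ _
      have : ‖hp b p‖ = ‖b (E p)‖ := rfl
      rw [this]
      linarith
    have h3 := hs.av ‖hp b p‖ (norm_nonneg _) h2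
    show Complex.I * ((((s' (‖hp b p‖ ^ 2) : ℝ) : ℂ) * starRingEnd ℂ (hp (Dz b) p)) * (cc p : ℂ)) = 0
    rw [h3]; simp
  · refine ⟨Bφ + 4, fun p hpp => ?_⟩
    show ‖φ p + -Complex.I * ((((1 - s (‖hp b p‖ ^ 2)) : ℝ) : ℂ) * (cc p : ℂ))‖ ≤ Bφ + 4
    have h0 := hs.h0 (‖hp b p‖ ^ 2)
    have h1 : ‖-Complex.I * ((((1 - s (‖hp b p‖ ^ 2)) : ℝ) : ℂ) * (cc p : ℂ))‖ ≤ 4 := by
      rw [norm_mul, norm_neg, Complex.norm_I, one_mul, norm_mul, Complex.norm_real,
        Complex.norm_real, Real.norm_eq_abs, Real.norm_eq_abs]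
      have h2 : |1 - s (‖hp b p‖ ^ 2)| ≤ 1 := by rw [abs_le]; constructor <;> linarith
      calc |1 - s (‖hp b p‖ ^ 2)| * |cc p| ≤ 1 * 4 := by
            gcongr
            exact hccb p
        _ = 4 := by ring
    exact (norm_add_le _ _).trans (add_le_add (hφB p hpp) h1)

end Pool.H14.SR
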