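import Pool.Agent.H14.SR.Basic

open MeasureTheory Set Filter Topology
noncomputable section
namespace Pool.H14.SR

theorem pot_cy {σ : ℝ} {u : ℝ × ℝ → ℝ} (hu : ContinuousOn u {p | -σ < p.2}) (x : ℝ) :
    ContinuousOn (fun y : ℝ => u (x, y)) (Ioi (-σ)) :=
  hu.comp (by fun_prop) (fun y hy => hy)

theorem pot_cx {σ : ℝ} {u : ℝ × ℝ → ℝ} (hu : ContinuousOn u {p | -σ < p.2}) {y : ℝ}
    (hy : -σ < y) : Continuous (fun x : ℝ => u (x, y)) :=
  hu.comp_continuous (by fun_prop) (fun x => hy)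

theorem pot_sub {σ y1 y2 : ℝ} (h1 : -σ < y1) (h2 : -σ < y2) : uIcc y1 y2 ⊆ Ioi (-σ) := by
  intro s hs
  rw [mem_uIcc] at hs
  show -σ < s
  rcases hs with h | h
  · linarith [h.1]
  · linarith [h.1]

theorem pot_ii {σ : ℝ} {u : ℝ × ℝ → ℝ} (hu : ContinuousOn u {p | -σ < p.2}) (x : ℝ) {y1 y2 : ℝ}
    (h1 : -σ < y1) (h2 : -σ < y2) : IntervalIntegrable (fun s => u (x, s)) volume y1 y2 :=
  ((pot_cy hu x).mono (pot_sub h1 h2)).intervalIntegrable

/-- derivative of the primitive in `y` -/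
theorem pot_dy {σ : ℝ} (hσ : 0 < σ) {Q : ℝ × ℝ → ℝ} (hQ : ContinuousOn Q {p | -σ < p.2})
    (x y : ℝ) (hy : -σ < y) :
    HasDerivAt (fun y : ℝ => ∫ s in (0 : ℝ)..y, Q (x, s)) (Q (x, y)) y := by
  refine intervalIntegral.integral_hasDerivAt_right (pot_ii hQ x (by linarith) hy) ?_ ?_
  · exact (pot_cy hQ x).stronglyMeasurableAtFilter isOpen_Ioi y hy
  · exact (pot_cy hQ x).continuousAt (isOpen_Ioi.mem_nhds hy)

/-- derivative of the `y`-primitive in `x` -/
theorem pot_dx {σ : ℝ} (hσ : 0 < σ) {Q Qx Qy : ℝ × ℝ → ℝ} (hQ : C1 σ Q Qx Qy)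
    (x y : ℝ) (hy : -σ < y) :
    HasDerivAt (fun x : ℝ => ∫ s in (0 : ℝ)..y, Q (x, s)) (∫ s in (0 : ℝ)..y, Qx (x, s)) x := by
  have h0 : -σ < (0 : ℝ) := by linarith
  have hK : IsCompact (Icc (x - 1) (x + 1) ×ˢ uIcc 0 y) := isCompact_Icc.prod isCompact_uIcc
  obtain ⟨B, hB⟩ := hK.exists_bound_of_continuousOn (f := Qx)
    (hQ.cx.mono (fun p hp => pot_sub h0 hy hp.2))
  refine (intervalIntegral.hasDerivAt_integral_of_dominated_loc_of_deriv_le
    (F := fun x s => Q (x, s)) (F' := fun x s => Qx (x, s)) (bound := fun _ => B)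
    (s := Icc (x - 1) (x + 1)) (Icc_mem_nhds (by linarith) (by linarith)) ?_ ?_ ?_ ?_ ?_ ?_).2
  · refine Eventually.of_forall fun z => ?_
    exact (intervalIntegrable_iff.1 (pot_ii hQ.c z h0 hy)).aestronglyMeasurable
  · exact pot_ii hQ.c x h0 hy
  · exact (intervalIntegrable_iff.1 (pot_ii hQ.cx x h0 hy)).aestronglyMeasurable
  · refine Eventually.of_forall fun s hs z hz => ?_
    exact hB (z, s) ⟨hz, uIoc_subset_uIcc hs⟩
  · exact intervalIntegrable_const
  · refine Eventually.of_forall fun s hs z hz => ?_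
    exact hQ.dx (z, s) (pot_sub h0 hy (uIoc_subset_uIcc hs))

/-- **(POT)** Poincaré lemma on the periodic half plane: `P dx + Q dy` closed, `C¹`, periodic, decaying.
There is a periodic bounded `α` with `αx = P`, `αy = Q`.
(`α(x,y) = ∫_0^x P(t,0)dt + ∫_0^y Q(x,s)ds`; `∂xα = P(x,0) + ∫_0^y Qx = P(x,0) + ∫_0^y Py = P(x,y)`;
`α(x+2π,y) - α(x,y) = ∫_x^{x+2π} P(t,y)dt` does not depend on `(x,y)` and tends to `0` as `y → ∞`;
bounded on `y ≥ 0` since `|Q| ≤ B e^{-y}`.) -/
theorem POT (σ : ℝ) (hσ : 0 < σ) (P Px Py Q Qx Qy : ℝ × ℝ → ℝ) (hP : C1 σ P Px Py)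
    (hQ : C1 σ Q Qx Qy) (hcl : ∀ p : ℝ × ℝ, -σ < p.2 → Qx p = Py p) (B : ℝ)
    (hB : ∀ p : ℝ × ℝ, 0 ≤ p.2 → |P p| ≤ B * Real.exp (-p.2) ∧ |Q p| ≤ B * Real.exp (-p.2)) :
    ∃ α : ℝ × ℝ → ℝ, C1 σ α P Q ∧ ∃ B' : ℝ, ∀ p : ℝ × ℝ, 0 ≤ p.2 → |α p| ≤ B' := by
  have h0 : -σ < (0 : ℝ) := by linarith
  set A : ℝ → ℝ := fun x => ∫ t in (0 : ℝ)..x, P (t, 0) with hA
  set α : ℝ × ℝ → ℝ := fun p => A p.1 + ∫ s in (0 : ℝ)..p.2, Q (p.1, s) with hα
  have hPc0 : Continuous fun t : ℝ => P (t, 0) := pot_cx hP.c h0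
  have hAd : ∀ x, HasDerivAt A (P (x, 0)) x := fun x =>
    intervalIntegral.integral_hasDerivAt_right (hPc0.intervalIntegrable _ _)
      (hPc0.stronglyMeasurableAtFilter _ _) hPc0.continuousAt
  have hAc : Continuous A := continuous_iff_continuousAt.2 fun x => (hAd x).continuousAt
  have dx : ∀ p : ℝ × ℝ, -σ < p.2 → HasDerivAt (fun x : ℝ => α (x, p.2)) (P p) p.1 := by
    intro p hp
    have h1 := (hAd p.1).add (pot_dx hσ hQ p.1 p.2 hp)
    refine h1.congr_deriv ?_
    have h2 : ∫ s in (0 : ℝ)..p.2, Qx (p.1, s) = P (p.1, p.2) - P (p.1, 0) := by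
      have h3 : ∫ s in (0 : ℝ)..p.2, Qx (p.1, s) = ∫ s in (0 : ℝ)..p.2, Py (p.1, s) := by
        refine intervalIntegral.integral_congr fun s hs => ?_
        exact hcl (p.1, s) (pot_sub h0 hp hs)
      rw [h3]
      refine intervalIntegral.integral_eq_sub_of_hasDerivAt (f := fun s => P (p.1, s))
        (fun s hs => ?_) (pot_ii hP.cy p.1 h0 hp)
      exact hP.dy (p.1, s) (pot_sub h0 hp hs)
    rw [h2]
    ring
  have dy : ∀ p : ℝ × ℝ, -σ < p.2 → HasDerivAt (fun y : ℝ => α (p.1, y)) (Q p) p.2 :=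
    fun p hp => HasDerivAt.const_add (A p.1) (pot_dy hσ hQ.c p.1 p.2 hp)
  have c : ContinuousOn α {p | -σ < p.2} := by
    intro p0 hp0
    have hp0' : -σ < p0.2 := hp0
    apply ContinuousAt.continuousWithinAt
    obtain ⟨m, hm1, hm2⟩ := exists_between (lt_min h0 hp0')
    have hg : Continuous fun p : ℝ × ℝ => A p.1 + ∫ s in (0 : ℝ)..p.2, Q (p.1, max s m) := by
      refine (hAc.comp continuous_fst).add ?_
      refine intervalIntegral.continuous_parametric_intervalIntegral_of_continuous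
        (f := fun (p : ℝ × ℝ) (s : ℝ) => Q (p.1, max s m)) ?_ continuous_snd
      refine hQ.c.comp_continuous (f := fun q : (ℝ × ℝ) × ℝ => ((q.1.1, max q.2 m) : ℝ × ℝ))
        (by fun_prop) (fun q => ?_)
      exact lt_of_lt_of_le hm1 (le_max_right _ _)
    refine hg.continuousAt.congr ?_
    have ho : {p : ℝ × ℝ | m < p.2} ∈ 𝓝 p0 :=
      (isOpen_lt continuous_const continuous_snd).mem_nhds (lt_of_lt_of_le hm2 (min_le_right _ _))
    filter_upwards [ho] with p hp
    have hp' : m < p.2 := hp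
    show A p.1 + ∫ s in (0 : ℝ)..p.2, Q (p.1, max s m) = A p.1 + ∫ s in (0 : ℝ)..p.2, Q (p.1, s)
    congr 1
    refine intervalIntegral.integral_congr fun s hs => ?_
    have : m ≤ s := by
      have hm0 : m < 0 := lt_of_lt_of_le hm2 (min_le_left _ _)
      rw [mem_uIcc] at hs
      rcases hs with h | h
      · linarith [h.1]
      · linarith [h.1]
    show Q (p.1, max s m) = Q (p.1, s)
    rw [max_eq_left this]
  -- `A` is periodic
  have hD : ∀ x y : ℝ, -σ < y → A (x + 2 * Real.pi) - A x = ∫ t in x..(x + 2 * Real.pi), P (t, y) := by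
    intro x y hy
    have h1 : ∫ t in x..(x + 2 * Real.pi), P (t, y) = α (x + 2 * Real.pi, y) - α (x, y) := by
      refine intervalIntegral.integral_eq_sub_of_hasDerivAt (f := fun t => α (t, y))
        (fun t _ => ?_) ((pot_cx hP.c hy).intervalIntegrable _ _)
      exact dx (t, y) hy
    rw [h1]
    have h2 : ∫ s in (0 : ℝ)..y, Q (x + 2 * Real.pi, s) = ∫ s in (0 : ℝ)..y, Q (x, s) := by
      refine intervalIntegral.integral_congr fun s hs => ?_
      exact hQ.per (x, s) (pot_sub h0 hy hs)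
    show _ = (A (x + 2 * Real.pi) + ∫ s in (0 : ℝ)..y, Q (x + 2 * Real.pi, s)) -
      (A x + ∫ s in (0 : ℝ)..y, Q (x, s))
    rw [h2]
    ring
  have hB0 : 0 ≤ B := by
    have := (hB (0, 0) le_rfl).1
    simp only [neg_zero, Real.exp_zero, mul_one] at this
    exact (abs_nonneg _).trans this
  have hper : ∀ x : ℝ, A (x + 2 * Real.pi) = A x := by
    intro x
    have hb : ∀ y : ℝ, 0 ≤ y → |A (x + 2 * Real.pi) - A x| ≤ B * Real.exp (-y) * (2 * Real.pi) := by
      intro y hy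
      rw [hD x y (by linarith)]
      have := intervalIntegral.norm_integral_le_of_norm_le_const (a := x) (b := x + 2 * Real.pi)
        (f := fun t => P (t, y)) (C := B * Real.exp (-y)) (fun t _ => (hB (t, y) hy).1)
      rw [Real.norm_eq_abs] at this
      refine this.trans (le_of_eq ?_)
      congr 1
      rw [add_sub_cancel_left, abs_of_pos (by positivity)]
    have hlim : Tendsto (fun y : ℝ => B * Real.exp (-y) * (2 * Real.pi)) atTop
        (𝓝 (B * 0 * (2 * Real.pi))) :=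
      ((Real.tendsto_exp_neg_atTop_nhds_zero).const_mul B).mul_const _
    have hle := ge_of_tendsto hlim ((eventually_ge_atTop 0).mono fun y hy => hb y hy)
    rw [mul_zero, zero_mul] at hle
    have := abs_eq_zero.1 (le_antisymm hle (abs_nonneg _))
    linarith
  refine ⟨α, ⟨dx, dy, c, hP.c, hQ.c, ?_⟩, B * (2 * Real.pi) + B, ?_⟩
  · intro p hp
    show A (p.1 + 2 * Real.pi) + ∫ s in (0 : ℝ)..p.2, Q (p.1 + 2 * Real.pi, s)
      = A p.1 + ∫ s in (0 : ℝ)..p.2, Q (p.1, s)
    rw [hper]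
    congr 1
    refine intervalIntegral.integral_congr fun s hs => ?_
    exact hQ.per (p.1, s) (pot_sub h0 hp hs)
  · intro p hp
    have hA1 : |A p.1| ≤ B * (2 * Real.pi) := by
      obtain ⟨x, hx, hx2⟩ := Function.Periodic.exists_mem_Ico₀ (f := A) (c := 2 * Real.pi) hper
        (by positivity) p.1
      rw [hx2]
      have := intervalIntegral.norm_integral_le_of_norm_le_const (a := 0) (b := x)
        (f := fun t => P (t, 0)) (C := B) (fun t _ => by
          have := (hB (t, 0) le_rfl).1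
          simpa using this)
      rw [Real.norm_eq_abs] at this
      refine this.trans ?_
      rw [sub_zero, abs_of_nonneg hx.1]
      exact mul_le_mul_of_nonneg_left hx.2.le hB0
    have hQ1 : |∫ s in (0 : ℝ)..p.2, Q (p.1, s)| ≤ B := by
      have e1 : |∫ s in (0 : ℝ)..p.2, Q (p.1, s)| ≤ ∫ s in (0 : ℝ)..p.2, B * Real.exp (-s) := by
        rw [← Real.norm_eq_abs]
        refine intervalIntegral.norm_integral_le_of_norm_le hp ?_ ?_
        · refine Eventually.of_forall fun s hs => ?_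
          exact (hB (p.1, s) hs.1.le).2
        · exact Continuous.intervalIntegrable (by fun_prop) _ _
      refine e1.trans ?_
      have e2 : ∫ s in (0 : ℝ)..p.2, B * Real.exp (-s) = B * (1 - Real.exp (-p.2)) := by
        have : ∫ s in (0 : ℝ)..p.2, B * Real.exp (-s)
            = (-(B * Real.exp (-p.2))) - (-(B * Real.exp (-0))) := by
          refine intervalIntegral.integral_eq_sub_of_hasDerivAt
            (f := fun s => -(B * Real.exp (-s))) (fun s _ => ?_)
            (Continuous.intervalIntegrable (by fun_prop) _ _)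
          have h1 : HasDerivAt (fun s : ℝ => Real.exp (-s)) (Real.exp (-s) * (-1)) s :=
            (hasDerivAt_neg s).exp
          have h2 := (h1.const_mul B).neg
          refine h2.congr_deriv ?_
          ring
        rw [this, neg_zero, Real.exp_zero]
        ring
      rw [e2]
      have := Real.exp_pos (-p.2)
      nlinarith
    calc |α p| ≤ |A p.1| + |∫ s in (0 : ℝ)..p.2, Q (p.1, s)| := abs_add_le _ _
      _ ≤ B * (2 * Real.pi) + B := add_le_add hA1 hQ1

end Pool.H14.SR
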