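import Pool.Agent.H14.SR.Basic
import Pool.Agent.H14.SR.STEP
import Pool.Agent.H14.SR.CE
open MeasureTheory Set Filter Topology
noncomputable section
namespace Pool.H14.SR

/-- derivative of `g(‖f‖²) * (f1 * conj f)` along a real parameter -/
theorem SRC_aux1 {g g1 : ℝ → ℝ} (hg : ∀ q, HasDerivAt g (g1 q) q) {f f1 : ℝ → ℂ} {f' f1' : ℂ}
    {x : ℝ} (hf : HasDerivAt f f' x) (hf1 : HasDerivAt f1 f1' x) :
    HasDerivAt (fun t => ((g (‖f t‖ ^ 2) : ℝ) : ℂ) * (f1 t * starRingEnd ℂ (f t)))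
      (((g1 (‖f x‖ ^ 2) * (2 * (f' * starRingEnd ℂ (f x)).re) : ℝ) : ℂ) *
          (f1 x * starRingEnd ℂ (f x)) +
        ((g (‖f x‖ ^ 2) : ℝ) : ℂ) * (f1' * starRingEnd ℂ (f x) + f1 x * starRingEnd ℂ f')) x := by
  have h1 : HasDerivAt (fun t => ‖f t‖ ^ 2) (2 * (f' * starRingEnd ℂ (f x)).re) x := by
    have := hf.norm_sq
    rwa [Complex.inner] at this
  have h2 : HasDerivAt (fun t => g (‖f t‖ ^ 2))
      (g1 (‖f x‖ ^ 2) * (2 * (f' * starRingEnd ℂ (f x)).re)) x :=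
    (hg (‖f x‖ ^ 2)).comp x h1
  have h3 := h2.ofReal_comp
  have h4 : HasDerivAt (fun t => starRingEnd ℂ (f t)) (starRingEnd ℂ f') x := hf.star
  exact h3.mul (hf1.mul h4)

/-- derivative of `2 g(‖f‖²) ‖f1‖²` along a real parameter -/
theorem SRC_aux2 {g g1 : ℝ → ℝ} (hg : ∀ q, HasDerivAt g (g1 q) q) {f f1 : ℝ → ℂ} {f' f1' : ℂ}
    {x : ℝ} (hf : HasDerivAt f f' x) (hf1 : HasDerivAt f1 f1' x) :
    HasDerivAt (fun t => 2 * g (‖f t‖ ^ 2) * ‖f1 t‖ ^ 2)
      (2 * (g1 (‖f x‖ ^ 2) * (2 * (f' * starRingEnd ℂ (f x)).re)) * ‖f1 x‖ ^ 2 +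
        2 * g (‖f x‖ ^ 2) * (2 * (f1' * starRingEnd ℂ (f1 x)).re)) x := by
  have h1 : HasDerivAt (fun t => ‖f t‖ ^ 2) (2 * (f' * starRingEnd ℂ (f x)).re) x := by
    have := hf.norm_sq
    rwa [Complex.inner] at this
  have h1' : HasDerivAt (fun t => ‖f1 t‖ ^ 2) (2 * (f1' * starRingEnd ℂ (f1 x)).re) x := by
    have := hf1.norm_sq
    rwa [Complex.inner] at this
  have h2 : HasDerivAt (fun t => g (‖f t‖ ^ 2))
      (g1 (‖f x‖ ^ 2) * (2 * (f' * starRingEnd ℂ (f x)).re)) x :=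
    (hg (‖f x‖ ^ 2)).comp x h1
  exact (h2.const_mul 2).mul h1'

/-- `ψ(q)/q` has a continuous derivative -/
theorem SRC_aux3 {C0 δ v : ℝ} (hδ : 0 < δ) {ψ ψ' ψ'' : ℝ → ℝ} (hψ : Step C0 δ v ψ ψ' ψ'') :
    (∀ q, q < δ ^ 2 / 4 → ψ' q = 0) ∧ (∀ q, δ ^ 2 < q → ψ' q = 0) ∧
    (∀ q, HasDerivAt (fun q => ψ q / q) ((ψ' q * q - ψ q) / q ^ 2) q) ∧
    Continuous (fun q => (ψ' q * q - ψ q) / q ^ 2) := by
  have hlow : ∀ q, q < δ ^ 2 / 4 → ψ' q = 0 := by
    intro q hq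
    have h1 : HasDerivAt ψ 0 q := by
      refine (hasDerivAt_const q (0 : ℝ)).congr_of_eventuallyEq ?_
      filter_upwards [Iio_mem_nhds hq] with r hr
      exact hψ.low r (le_of_lt hr)
    exact (hψ.d1 q).unique h1
  have hhigh : ∀ q, δ ^ 2 < q → ψ' q = 0 := by
    intro q hq
    have h1 : HasDerivAt ψ 0 q := by
      refine (hasDerivAt_const q (1 : ℝ)).congr_of_eventuallyEq ?_
      filter_upwards [Ioi_mem_nhds hq] with r hr
      exact hψ.high r (le_of_lt hr)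
    exact (hψ.d1 q).unique h1
  have hq4 : 0 < δ ^ 2 / 4 := by positivity
  refine ⟨hlow, hhigh, ?_, ?_⟩
  · intro q
    by_cases hq : q < δ ^ 2 / 4
    · have h1 : (ψ' q * q - ψ q) / q ^ 2 = 0 := by
        rw [hlow q hq, hψ.low q hq.le]; simp
      rw [h1]
      refine (hasDerivAt_const q (0 : ℝ)).congr_of_eventuallyEq ?_
      filter_upwards [Iio_mem_nhds hq] with r hr
      rw [hψ.low r (le_of_lt hr), zero_div]
    · have hq0 : q ≠ 0 := by
        intro h; rw [h] at hq; exact hq hq4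
      have := (hψ.d1 q).div (hasDerivAt_id q) hq0
      simp only [id, mul_one] at this
      exact this
  · rw [continuous_iff_continuousAt]
    intro q
    have c' : Continuous ψ' := continuous_iff_continuousAt.2 fun q => (hψ.d2 q).continuousAt
    have c0 : Continuous ψ := continuous_iff_continuousAt.2 fun q => (hψ.d1 q).continuousAt
    by_cases hq : q < δ ^ 2 / 4
    · have : (fun q => (ψ' q * q - ψ q) / q ^ 2) =ᶠ[𝓝 q] fun _ => (0 : ℝ) := by
        filter_upwards [Iio_mem_nhds hq] with r hr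
        rw [hlow r hr, hψ.low r (le_of_lt hr)]; simp
      exact continuousAt_const.congr this.symm
    · have hq0 : q ^ 2 ≠ 0 := by
        have : q ≠ 0 := by
          intro h; rw [h] at hq; exact hq hq4
        positivity
      exact ((c'.mul continuous_id).sub c0).continuousAt.div (continuous_pow 2).continuousAt hq0

/-- **(SRC)** The sources.  `T = ψ(|a|²) a'/a`, `m = 2ψ'(|a|²)|a'|²`: `∂x Re T - ∂y Im T = m`.

Proof: near points with `|a| < δ/2` both are `0`; near points with `a ≠ 0`, `L = a'/a` is analytic in `ζ`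
(`∂x L = L'`, `∂y L = iL'`), `q = |a|²`, `qx = 2q Re L`, `qy = -2q Im L`,
`Tx = ψ'(q)qx L + ψ L'`, `Ty = ψ'(q) qy L + iψL'`, `Re Tx - Im Ty = ψ'(q)(qx Re L - qy Im L) = 2qψ'(q)|L|² = 2ψ'(q)|a'|²`.
`m ≠ 0` implies `|a|² < δ²` hence `|b| ≥ 2δ`; for `y ≥ log(16/δ)`: `||a| - |a(0)|| ≤ 2e^{-y} ≤ δ/8` (`near_zero`), so
`ψ'(|a|²) = 0` (`Step.av`).  Decay of `T`: `hp_decay` and `|a| ≥ δ/2` where `ψ ≠ 0`. -/
theorem SRC {δ ρ : ℝ} {a b F : ℂ → ℂ} (H : Dat δ ρ a b F) (C0 : ℝ) (ψ ψ' ψ'' : ℝ → ℝ)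
    (hψ : Step C0 δ ‖a 0‖ ψ ψ' ψ'') :
    (∃ Tx Ty : ℝ × ℝ → ℂ, C1 (Real.log ρ)
        (fun p => (ψ (‖hp a p‖ ^ 2) : ℂ) * hp (Dz a) p / hp a p) Tx Ty ∧
      ∀ p : ℝ × ℝ, -Real.log ρ < p.2 →
        (Tx p).re - (Ty p).im = 2 * ψ' (‖hp a p‖ ^ 2) * ‖hp (Dz a) p‖ ^ 2) ∧
    (∃ mx my : ℝ × ℝ → ℝ, C1 (Real.log ρ)
        (fun p => 2 * ψ' (‖hp a p‖ ^ 2) * ‖hp (Dz a) p‖ ^ 2) mx my) ∧
    (∃ B : ℝ, ∀ p : ℝ × ℝ, 0 ≤ p.2 →
      ‖(ψ (‖hp a p‖ ^ 2) : ℂ) * hp (Dz a) p / hp a p‖ ≤ B * Real.exp (-p.2)) ∧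
    (∀ p : ℝ × ℝ, -Real.log ρ < p.2 → 2 * ψ' (‖hp a p‖ ^ 2) * ‖hp (Dz a) p‖ ^ 2 ≠ 0 →
      2 * δ ≤ ‖hp b p‖) ∧
    (∀ p : ℝ × ℝ, Real.log (16 / δ) ≤ p.2 →
      2 * ψ' (‖hp a p‖ ^ 2) * ‖hp (Dz a) p‖ ^ 2 = 0) := by
  have hδ := H.hδ
  have hρ0 : 0 < ρ := lt_trans one_pos H.hρ
  obtain ⟨hlow, hhigh, hg, hgc⟩ := SRC_aux3 hδ hψ
  have cψ' : Continuous ψ' := continuous_iff_continuousAt.2 fun q => (hψ.d2 q).continuousAt
  have cψ : Continuous ψ := continuous_iff_continuousAt.2 fun q => (hψ.d1 q).continuousAt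
  have A0 := C1_hp hρ0 H.ha
  have A1 := C1_hp hρ0 (Dz_diff H.ha)
  have hgcont : Continuous (fun q => ψ q / q) :=
    continuous_iff_continuousAt.2 fun q => (hg q).continuousAt
  -- T in the new form
  have hT : (fun p => (ψ (‖hp a p‖ ^ 2) : ℂ) * hp (Dz a) p / hp a p) =
      fun p => (((ψ (‖hp a p‖ ^ 2) / ‖hp a p‖ ^ 2 : ℝ)) : ℂ) *
        (hp (Dz a) p * starRingEnd ℂ (hp a p)) := by
    funext p
    by_cases h0 : hp a p = 0
    · rw [h0]; simp
    · have h1 : (hp a p) * starRingEnd ℂ (hp a p) = ((‖hp a p‖ ^ 2 : ℝ) : ℂ) := by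
        rw [Complex.mul_conj, Complex.normSq_eq_norm_sq]
      have h2 : ((‖hp a p‖ ^ 2 : ℝ) : ℂ) ≠ 0 := by
        rw [Complex.ofReal_ne_zero]; positivity
      have h3 : starRingEnd ℂ (hp a p) = ((‖hp a p‖ ^ 2 : ℝ) : ℂ) / hp a p := by
        rw [← h1]; field_simp
      rw [h3, Complex.ofReal_div]
      field_simp
  -- continuity helpers
  have cA : ContinuousOn (hp a) {p | -Real.log ρ < p.2} := A0.c
  have cA1 : ContinuousOn (hp (Dz a)) {p | -Real.log ρ < p.2} := A0.cx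
  have cA2 : ContinuousOn (hp (Dz (Dz a))) {p | -Real.log ρ < p.2} := A1.cx
  have cn : ContinuousOn (fun p => ‖hp a p‖ ^ 2) {p | -Real.log ρ < p.2} := cA.norm.pow 2
  have cn1 : ContinuousOn (fun p => ‖hp (Dz a) p‖ ^ 2) {p | -Real.log ρ < p.2} := cA1.norm.pow 2
  have ccA : ContinuousOn (fun p => starRingEnd ℂ (hp a p)) {p | -Real.log ρ < p.2} :=
    Complex.continuous_conj.comp_continuousOn cA
  have ccA1 : ContinuousOn (fun p => starRingEnd ℂ (hp (Dz a) p)) {p | -Real.log ρ < p.2} :=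
    Complex.continuous_conj.comp_continuousOn cA1
  refine ⟨?_, ?_, ?_, ?_, ?_⟩
  · refine ⟨fun p => ((((ψ' (‖hp a p‖ ^ 2) * (‖hp a p‖ ^ 2) - ψ (‖hp a p‖ ^ 2)) /
            (‖hp a p‖ ^ 2) ^ 2) * (2 * (hp (Dz a) p * starRingEnd ℂ (hp a p)).re) : ℝ) : ℂ) *
          (hp (Dz a) p * starRingEnd ℂ (hp a p)) +
        ((ψ (‖hp a p‖ ^ 2) / ‖hp a p‖ ^ 2 : ℝ) : ℂ) *
          (hp (Dz (Dz a)) p * starRingEnd ℂ (hp a p) +
            hp (Dz a) p * starRingEnd ℂ (hp (Dz a) p)),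
      fun p => ((((ψ' (‖hp a p‖ ^ 2) * (‖hp a p‖ ^ 2) - ψ (‖hp a p‖ ^ 2)) /
            (‖hp a p‖ ^ 2) ^ 2) *
            (2 * ((Complex.I * hp (Dz a) p) * starRingEnd ℂ (hp a p)).re) : ℝ) : ℂ) *
          (hp (Dz a) p * starRingEnd ℂ (hp a p)) +
        ((ψ (‖hp a p‖ ^ 2) / ‖hp a p‖ ^ 2 : ℝ) : ℂ) *
          ((Complex.I * hp (Dz (Dz a)) p) * starRingEnd ℂ (hp a p) +
            hp (Dz a) p * starRingEnd ℂ (Complex.I * hp (Dz a) p)), ?_, ?_⟩
    · rw [hT]
      refine ⟨?_, ?_, ?_, ?_, ?_, ?_⟩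
      · intro p h
        exact SRC_aux1 hg (A0.dx p h) (A1.dx p h)
      · intro p h
        exact SRC_aux1 hg (A0.dy p h) (A1.dy p h)
      · exact (Complex.continuous_ofReal.comp_continuousOn (hgcont.comp_continuousOn cn)).mul
          (cA1.mul ccA)
      · refine ContinuousOn.add (ContinuousOn.mul ?_ (cA1.mul ccA)) (ContinuousOn.mul ?_ ?_)
        · refine Complex.continuous_ofReal.comp_continuousOn
            ((hgc.comp_continuousOn cn).mul (continuousOn_const.mul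
              (Complex.continuous_re.comp_continuousOn (cA1.mul ccA))))
        · exact Complex.continuous_ofReal.comp_continuousOn (hgcont.comp_continuousOn cn)
        · exact (cA2.mul ccA).add (cA1.mul ccA1)
      · refine ContinuousOn.add (ContinuousOn.mul ?_ (cA1.mul ccA)) (ContinuousOn.mul ?_ ?_)
        · refine Complex.continuous_ofReal.comp_continuousOn
            ((hgc.comp_continuousOn cn).mul (continuousOn_const.mul
              (Complex.continuous_re.comp_continuousOn ((continuousOn_const.mul cA1).mul ccA))))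
        · exact Complex.continuous_ofReal.comp_continuousOn (hgcont.comp_continuousOn cn)
        · exact ((continuousOn_const.mul cA2).mul ccA).add
            (cA1.mul (Complex.continuous_conj.comp_continuousOn (continuousOn_const.mul cA1)))
      · intro p _
        simp only [hp_per]
    · intro p _
      beta_reduce
      set q : ℝ := ‖hp a p‖ ^ 2 with hq
      set w : ℂ := hp (Dz a) p * starRingEnd ℂ (hp a p) with hw
      have e1 : (Complex.I * hp (Dz a) p) * starRingEnd ℂ (hp a p) = Complex.I * w := by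
        rw [hw]; ring
      have e2 : hp (Dz a) p * starRingEnd ℂ (hp (Dz a) p) = ((‖hp (Dz a) p‖ ^ 2 : ℝ) : ℂ) := by
        rw [Complex.mul_conj, Complex.normSq_eq_norm_sq]
      have e3 : hp (Dz a) p * starRingEnd ℂ (Complex.I * hp (Dz a) p) =
          -(Complex.I * ((‖hp (Dz a) p‖ ^ 2 : ℝ) : ℂ)) := by
        rw [map_mul, Complex.conj_I, ← e2]; ring
      have e4 : (Complex.I * hp (Dz (Dz a)) p) * starRingEnd ℂ (hp a p) =
          Complex.I * (hp (Dz (Dz a)) p * starRingEnd ℂ (hp a p)) := by ring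
      have e5 : w.re ^ 2 + w.im ^ 2 = ‖hp (Dz a) p‖ ^ 2 * q := by
        have : ‖w‖ ^ 2 = ‖hp (Dz a) p‖ ^ 2 * q := by
          rw [hw, norm_mul, RCLike.norm_conj, mul_pow]
        rw [← this, ← Complex.normSq_eq_norm_sq, Complex.normSq_apply]; ring
      rw [e1, e2, e3, e4]
      set X : ℂ := hp (Dz (Dz a)) p * starRingEnd ℂ (hp a p) with hX
      set G : ℝ := ψ q / q with hG
      set G1 : ℝ := (ψ' q * q - ψ q) / q ^ 2 with hG1
      set N : ℝ := ‖hp (Dz a) p‖ ^ 2 with hN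
      have key : G1 * q + G = ψ' q := by
        by_cases h0 : q = 0
        · have h1 : q < δ ^ 2 / 4 := by rw [h0]; positivity
          rw [hG1, hG, hlow q h1, hψ.low q h1.le]; simp
        · rw [hG1, hG]; field_simp; ring
      have r1 : (Complex.I * w).re = -w.im := by simp
      rw [r1]
      simp only [Complex.add_re, Complex.add_im, Complex.mul_re, Complex.mul_im,
        Complex.ofReal_re, Complex.ofReal_im, Complex.I_re, Complex.I_im, Complex.neg_im]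
      ring_nf
      have : 2 * ψ' q * N = 2 * (G1 * (N * q) + G * N) := by rw [← key]; ring
      rw [← e5] at this
      linarith [this]
  · refine ⟨fun p => 2 * (ψ'' (‖hp a p‖ ^ 2) * (2 * (hp (Dz a) p * starRingEnd ℂ (hp a p)).re)) *
          ‖hp (Dz a) p‖ ^ 2 +
        2 * ψ' (‖hp a p‖ ^ 2) * (2 * (hp (Dz (Dz a)) p * starRingEnd ℂ (hp (Dz a) p)).re),
      fun p => 2 * (ψ'' (‖hp a p‖ ^ 2) *
          (2 * ((Complex.I * hp (Dz a) p) * starRingEnd ℂ (hp a p)).re)) *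
          ‖hp (Dz a) p‖ ^ 2 +
        2 * ψ' (‖hp a p‖ ^ 2) *
          (2 * ((Complex.I * hp (Dz (Dz a)) p) * starRingEnd ℂ (hp (Dz a) p)).re), ?_⟩
    refine ⟨?_, ?_, ?_, ?_, ?_, ?_⟩
    · intro p h
      exact SRC_aux2 hψ.d2 (A0.dx p h) (A1.dx p h)
    · intro p h
      exact SRC_aux2 hψ.d2 (A0.dy p h) (A1.dy p h)
    · exact (continuousOn_const.mul (cψ'.comp_continuousOn cn)).mul cn1
    · refine ContinuousOn.add (ContinuousOn.mul (continuousOn_const.mul ?_) cn1)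
        (ContinuousOn.mul (continuousOn_const.mul (cψ'.comp_continuousOn cn)) ?_)
      · exact (hψ.c2.comp_continuousOn cn).mul (continuousOn_const.mul
          (Complex.continuous_re.comp_continuousOn (cA1.mul ccA)))
      · exact continuousOn_const.mul
          (Complex.continuous_re.comp_continuousOn (cA2.mul ccA1))
    · refine ContinuousOn.add (ContinuousOn.mul (continuousOn_const.mul ?_) cn1)
        (ContinuousOn.mul (continuousOn_const.mul (cψ'.comp_continuousOn cn)) ?_)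
      · exact (hψ.c2.comp_continuousOn cn).mul (continuousOn_const.mul
          (Complex.continuous_re.comp_continuousOn ((continuousOn_const.mul cA1).mul ccA)))
      · exact continuousOn_const.mul
          (Complex.continuous_re.comp_continuousOn ((continuousOn_const.mul cA2).mul ccA1))
    · intro p _
      simp only [hp_per]
  · obtain ⟨B, hB0, hB⟩ := hp_decay H.hρ H.ha
    refine ⟨B * (2 / δ), fun p hy => ?_⟩
    by_cases hq : ‖hp a p‖ ^ 2 ≤ δ ^ 2 / 4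
    · rw [hψ.low _ hq]
      simp only [Complex.ofReal_zero, zero_mul, zero_div, norm_zero]
      positivity
    · push Not at hq
      have h1 : δ / 2 < ‖hp a p‖ := by
        have : (δ / 2) ^ 2 < ‖hp a p‖ ^ 2 := by nlinarith
        exact lt_of_pow_lt_pow_left₀ 2 (norm_nonneg _) this
      have h2 := hψ.h0 (‖hp a p‖ ^ 2)
      have h3 := hB p hy
      rw [norm_div, norm_mul, Complex.norm_real, Real.norm_of_nonneg h2.1]
      rw [div_le_iff₀ (lt_trans (by positivity) h1)]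
      have h4 : ψ (‖hp a p‖ ^ 2) * ‖hp (Dz a) p‖ ≤ 1 * (B * Real.exp (-p.2)) :=
        mul_le_mul h2.2 h3 (norm_nonneg _) zero_le_one
      have h5 : B * Real.exp (-p.2) ≤ B * (2 / δ) * Real.exp (-p.2) * ‖hp a p‖ := by
        have h6 : 1 ≤ (2 / δ) * ‖hp a p‖ := by
          rw [div_mul_eq_mul_div, le_div_iff₀ hδ]; linarith
        have h7 : 0 ≤ B * Real.exp (-p.2) := mul_nonneg hB0 (Real.exp_pos _).le
        nlinarith [mul_le_mul_of_nonneg_left h6 h7]
      linarith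
  · intro p hp' hm
    have hE := E_mem_ball hρ0 hp'
    rcases H.hab (E p) hE with h | h
    · exfalso
      apply hm
      have h1 : δ ^ 2 < ‖hp a p‖ ^ 2 := by
        have h2 : 2 * δ ≤ ‖hp a p‖ := h
        nlinarith
      rw [hhigh _ h1]; ring
    · exact h
  · intro p hp'
    have h1 : 1 < 16 / δ := by
      rw [lt_div_iff₀ hδ]; linarith [H.hδ2]
    have hy : 0 < p.2 := lt_of_lt_of_le (Real.log_pos h1) hp'
    have hE := E_mem_ball_one hy
    have hsub : Metric.ball (0 : ℂ) 1 ⊆ Metric.ball 0 ρ := Metric.ball_subset_ball H.hρ.le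
    have h2 := near_zero a (H.ha.mono hsub) (fun w hw => H.ha1 w (hsub hw)) (E p) hE
    have h3 : ‖E p‖ ≤ δ / 16 := by
      rw [norm_E]
      calc Real.exp (-p.2) ≤ Real.exp (-Real.log (16 / δ)) := Real.exp_le_exp.2 (by linarith)
        _ = δ / 16 := by rw [Real.exp_neg, Real.exp_log (by positivity)]; field_simp
    have h4 : |‖hp a p‖ - ‖a 0‖| ≤ δ / 8 := by
      have := abs_norm_sub_norm_le (hp a p) (a 0)
      have h5 : ‖hp a p - a 0‖ ≤ 2 * ‖E p‖ := h2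
      linarith
    rw [hψ.av _ (norm_nonneg _) h4]; ring

end Pool.H14.SR
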