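import Pool.Agent.H14.SR.Basic
import Pool.Agent.H14.SR.SRC
import Pool.Agent.H14.SR.POT
open MeasureTheory Set Filter Topology
noncomputable section
namespace Pool.H14.SR

theorem phi_bdd {σ : ℝ} (hσ : 0 < σ) {X : ℝ × ℝ → ℝ} (hc : ContinuousOn X {p | -σ < p.2})
    (hper : ∀ p : ℝ × ℝ, -σ < p.2 → X (p.1 + 2 * Real.pi, p.2) = X p) (L : ℝ)
    (hL : ∀ p : ℝ × ℝ, L ≤ p.2 → X p = 0) :
    ∃ B : ℝ, 0 ≤ B ∧ ∀ p : ℝ × ℝ, 0 ≤ p.2 → |X p| ≤ B * Real.exp (-p.2) := by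
  have hcomp : IsCompact (Set.Icc (0 : ℝ) (2 * Real.pi) ×ˢ Set.Icc (0 : ℝ) L) :=
    isCompact_Icc.prod isCompact_Icc
  have hsub : (Set.Icc (0 : ℝ) (2 * Real.pi) ×ˢ Set.Icc (0 : ℝ) L) ⊆ {p : ℝ × ℝ | -σ < p.2} := by
    rintro ⟨x, y⟩ ⟨_, hy⟩
    have : (0 : ℝ) ≤ y := hy.1
    show -σ < y
    linarith
  obtain ⟨M, hM⟩ := hcomp.exists_bound_of_continuousOn (hc.mono hsub)
  have hperfix : ∀ y : ℝ, -σ < y → Function.Periodic (fun x : ℝ => X (x, y)) (2 * Real.pi) :=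
    fun y hy x => hper (x, y) hy
  have hall : ∀ p : ℝ × ℝ, 0 ≤ p.2 → p.2 ≤ L → |X p| ≤ M := by
    rintro ⟨x, y⟩ h0 h1
    have h0' : (0 : ℝ) ≤ y := h0
    obtain ⟨x', hx', hxx⟩ := (hperfix y (by linarith)).exists_mem_Ico₀ Real.two_pi_pos x
    have h2 := hM (x', y) ⟨⟨hx'.1, hx'.2.le⟩, ⟨h0, h1⟩⟩
    have h3 : X (x, y) = X (x', y) := hxx
    rw [h3]
    exact h2
  refine ⟨|M| * Real.exp |L|, by positivity, fun p hp => ?_⟩
  by_cases hpL : p.2 ≤ L
  · calc |X p| ≤ M := hall p hp hpL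
      _ ≤ |M| := le_abs_self M
      _ = |M| * 1 := (mul_one _).symm
      _ ≤ |M| * (Real.exp |L| * Real.exp (-p.2)) := by
          apply mul_le_mul_of_nonneg_left _ (abs_nonneg M)
          rw [← Real.exp_add]
          apply Real.one_le_exp
          have := le_abs_self L
          linarith
      _ = |M| * Real.exp |L| * Real.exp (-p.2) := by ring
  · rw [hL p (by linarith), abs_zero]
    positivity

/-- **(PHI)** The function `φ = Θ(|a|²) + iα`, `dα = (Im T - X₂)dx + (Re T - X₁)dy`.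

Proof: `POT` with `P = Im T - X₂`, `Q = Re T - X₁`; `Qx = Re Tx - X₁x`, `Py = Im Ty - X₂y`, equal by `SRC` and the
equation for `X`; decay: `T` decays, `X = 0` for `y ≥ log(16/δ)` and `X` is bounded on the compact rest (periodic).
`∂x Θ(|a|²) = Re T`, `∂y Θ(|a|²) = -Im T` (`Θ'(q) = ψ(q)/(2q)`, `qx = 2 Re(conj a a')`, `qy = -2 Im(conj a a')`). -/
theorem PHI {δ ρ : ℝ} {a b F : ℂ → ℂ} (H : Dat δ ρ a b F) (C0 : ℝ) (ψ ψ' ψ'' Θ : ℝ → ℝ)
    (hψ : Step C0 δ ‖a 0‖ ψ ψ' ψ'') (hΘ : ∀ q, HasDerivAt Θ (ψ q / (2 * q)) q)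
    (σ : ℝ) (hσ : 0 < σ) (hσρ : σ < Real.log ρ) (X1 X1x X1y X2 X2x X2y : ℝ × ℝ → ℝ)
    (hX1 : C1 σ X1 X1x X1y) (hX2 : C1 σ X2 X2x X2y)
    (hX : ∀ p : ℝ × ℝ, -σ < p.2 → X1x p - X2y p = 2 * ψ' (‖hp a p‖ ^ 2) * ‖hp (Dz a) p‖ ^ 2)
    (hXY : ∀ p : ℝ × ℝ, Real.log (16 / δ) ≤ p.2 → X1 p = 0 ∧ X2 p = 0) :
    ∃ φ : ℝ × ℝ → ℂ, C1 σ φ
        (fun p => (ψ (‖hp a p‖ ^ 2) : ℂ) * hp (Dz a) p / hp a p - Complex.I * X2 p)
        (fun p => Complex.I * ((ψ (‖hp a p‖ ^ 2) : ℂ) * hp (Dz a) p / hp a p)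
          - Complex.I * X1 p) ∧
      (∀ p : ℝ × ℝ, -σ < p.2 → (φ p).re = Θ (‖hp a p‖ ^ 2)) ∧
      ∃ B : ℝ, ∀ p : ℝ × ℝ, 0 ≤ p.2 → ‖φ p‖ ≤ B := by
  have hρ0 : 0 < ρ := by linarith [H.hρ]
  obtain ⟨⟨Tx, Ty, hT, hTe⟩, -, ⟨BT, hBT⟩, -, -⟩ := SRC H C0 ψ ψ' ψ'' hψ
  set T : ℝ × ℝ → ℂ := fun p => (ψ (‖hp a p‖ ^ 2) : ℂ) * hp (Dz a) p / hp a p with hTdef
  have hsub : {p : ℝ × ℝ | -σ < p.2} ⊆ {p : ℝ × ℝ | -Real.log ρ < p.2} := by
    intro p hp'
    have : -σ < p.2 := hp'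
    show -Real.log ρ < p.2
    linarith
  have hlt : ∀ p : ℝ × ℝ, -σ < p.2 → -Real.log ρ < p.2 := fun p h => by linarith
  have hcT : ContinuousOn T {p | -σ < p.2} := hT.c.mono hsub
  have hcTx : ContinuousOn Tx {p | -σ < p.2} := hT.cx.mono hsub
  have hcTy : ContinuousOn Ty {p | -σ < p.2} := hT.cy.mono hsub
  have him : ∀ {f : ℝ → ℂ} {f' : ℂ} {x : ℝ}, HasDerivAt f f' x →
      HasDerivAt (fun t => (f t).im) f'.im x := fun h =>
    (Complex.imCLM.hasFDerivAt.comp_hasDerivAt _ h)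
  have hre : ∀ {f : ℝ → ℂ} {f' : ℂ} {x : ℝ}, HasDerivAt f f' x →
      HasDerivAt (fun t => (f t).re) f'.re x := fun h =>
    (Complex.reCLM.hasFDerivAt.comp_hasDerivAt _ h)
  have hP : C1 σ (fun p => (T p).im - X2 p) (fun p => (Tx p).im - X2x p)
      (fun p => (Ty p).im - X2y p) :=
    { dx := fun p h => (him (hT.dx p (hlt p h))).sub (hX2.dx p h)
      dy := fun p h => (him (hT.dy p (hlt p h))).sub (hX2.dy p h)
      c := (Complex.continuous_im.comp_continuousOn hcT).sub hX2.c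
      cx := (Complex.continuous_im.comp_continuousOn hcTx).sub hX2.cx
      cy := (Complex.continuous_im.comp_continuousOn hcTy).sub hX2.cy
      per := fun p h => by
        show (T (p.1 + 2 * Real.pi, p.2)).im - X2 (p.1 + 2 * Real.pi, p.2) = _
        rw [hT.per p (hlt p h), hX2.per p h] }
  have hQ : C1 σ (fun p => (T p).re - X1 p) (fun p => (Tx p).re - X1x p)
      (fun p => (Ty p).re - X1y p) :=
    { dx := fun p h => (hre (hT.dx p (hlt p h))).sub (hX1.dx p h)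
      dy := fun p h => (hre (hT.dy p (hlt p h))).sub (hX1.dy p h)
      c := (Complex.continuous_re.comp_continuousOn hcT).sub hX1.c
      cx := (Complex.continuous_re.comp_continuousOn hcTx).sub hX1.cx
      cy := (Complex.continuous_re.comp_continuousOn hcTy).sub hX1.cy
      per := fun p h => by
        show (T (p.1 + 2 * Real.pi, p.2)).re - X1 (p.1 + 2 * Real.pi, p.2) = _
        rw [hT.per p (hlt p h), hX1.per p h] }
  obtain ⟨B1, hB10, hB1⟩ := phi_bdd hσ hX1.c hX1.per _ (fun p h => (hXY p h).1)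
  obtain ⟨B2, hB20, hB2⟩ := phi_bdd hσ hX2.c hX2.per _ (fun p h => (hXY p h).2)
  obtain ⟨α, hα, B', hB'⟩ := POT σ hσ _ _ _ _ _ _ hP hQ
    (fun p h => by
      have h1 := hTe p (hlt p h)
      have h2 := hX p h
      show (Tx p).re - X1x p = (Ty p).im - X2y p
      linarith) (BT + B1 + B2)
    (fun p h => by
      have h0 := hBT p h
      have h1 := hB1 p h
      have h2 := hB2 p h
      have e := (Real.exp_pos (-p.2)).le
      constructor
      · calc |(T p).im - X2 p| ≤ |(T p).im| + |X2 p| := abs_sub _ _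
          _ ≤ BT * Real.exp (-p.2) + B2 * Real.exp (-p.2) :=
            add_le_add ((Complex.abs_im_le_norm _).trans h0) h2
          _ ≤ (BT + B1 + B2) * Real.exp (-p.2) := by nlinarith [mul_nonneg hB10 e]
      · calc |(T p).re - X1 p| ≤ |(T p).re| + |X1 p| := abs_sub _ _
          _ ≤ BT * Real.exp (-p.2) + B1 * Real.exp (-p.2) :=
            add_le_add ((Complex.abs_re_le_norm _).trans h0) h1
          _ ≤ (BT + B1 + B2) * Real.exp (-p.2) := by nlinarith [mul_nonneg hB20 e])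
  have hΘc : Continuous Θ := continuous_iff_continuousAt.mpr fun q => (hΘ q).continuousAt
  have hca : ContinuousOn (hp a) {p | -σ < p.2} := (hp_cont hρ0 H.ha.continuousOn).mono hsub
  -- derivative of `q`
  have key : ∀ (f : ℝ → ℂ) (f' : ℂ) (x : ℝ), HasDerivAt f f' x →
      HasDerivAt (fun t => Θ (‖f t‖ ^ 2)) ((ψ (‖f x‖ ^ 2) : ℂ) * f' / f x).re x := by
    intro f f' x hf
    have h1 : HasDerivAt (fun t => ‖f t‖ ^ 2) (2 * inner ℝ (f x) f') x := hf.norm_sq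
    have h2 := (hΘ (‖f x‖ ^ 2)).comp x h1
    refine h2.congr_deriv ?_
    rw [Complex.inner]
    by_cases h0 : f x = 0
    · simp [h0]
    · have hn : (Complex.normSq (f x)) ≠ 0 := by
        rwa [Ne, Complex.normSq_eq_zero]
      have h3 : ((ψ (‖f x‖ ^ 2) : ℂ) * f' / f x) =
          ((ψ (‖f x‖ ^ 2) / Complex.normSq (f x) : ℝ) : ℂ) * (starRingEnd ℂ (f x) * f') := by
        rw [div_eq_mul_inv, Complex.inv_def]
        push_cast
        field_simp
      rw [h3, Complex.re_ofReal_mul, Complex.normSq_eq_norm_sq]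
      have hn2 : ‖f x‖ ≠ 0 := by simpa using h0
      field_simp
  refine ⟨fun p => (Θ (‖hp a p‖ ^ 2) : ℂ) + Complex.I * (α p : ℂ), ?_, ?_, ?_⟩
  · refine ⟨?_, ?_, ?_, ?_, ?_, ?_⟩
    · intro p h
      have h1 := (key _ _ _ (hp_dx hρ0 H.ha p (hlt p h))).ofReal_comp
      have h2 := ((hα.dx p h).ofReal_comp).const_mul Complex.I
      refine (h1.add h2).congr_deriv ?_
      have h4 : (T p) = ((T p).re : ℂ) + ((T p).im : ℂ) * Complex.I := (Complex.re_add_im _).symm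
      show (((T p).re : ℝ) : ℂ) + Complex.I * (((T p).im - X2 p : ℝ) : ℂ) = T p - Complex.I * X2 p
      conv_rhs => rw [h4]
      push_cast
      ring
    · intro p h
      have h1 := (key _ _ _ (hp_dy hρ0 H.ha p (hlt p h))).ofReal_comp
      have h2 := ((hα.dy p h).ofReal_comp).const_mul Complex.I
      refine (h1.add h2).congr_deriv ?_
      have h3 : ((ψ (‖hp a p‖ ^ 2) : ℂ) * (Complex.I * hp (Dz a) p) / hp a p) =
          Complex.I * T p := by
        rw [hTdef]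
        ring
      have h4 : (T p) = ((T p).re : ℂ) + ((T p).im : ℂ) * Complex.I := (Complex.re_add_im _).symm
      show ((((ψ (‖hp a p‖ ^ 2) : ℂ) * (Complex.I * hp (Dz a) p) / hp a p).re : ℝ) : ℂ) +
        Complex.I * (((T p).re - X1 p : ℝ) : ℂ) = Complex.I * T p - Complex.I * X1 p
      rw [h3]
      have h5 : (Complex.I * T p).re = -(T p).im := by simp
      rw [h5]
      conv_rhs => rw [h4]
      push_cast
      linear_combination -((T p).im : ℂ) * Complex.I_sq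
    · apply ContinuousOn.add
      · exact Complex.continuous_ofReal.comp_continuousOn
          (hΘc.comp_continuousOn ((hca.norm).pow 2))
      · exact continuousOn_const.mul (Complex.continuous_ofReal.comp_continuousOn hα.c)
    · exact hcT.sub (continuousOn_const.mul (Complex.continuous_ofReal.comp_continuousOn hX2.c))
    · exact (continuousOn_const.mul hcT).sub
        (continuousOn_const.mul (Complex.continuous_ofReal.comp_continuousOn hX1.c))
    · intro p h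
      show (Θ (‖hp a (p.1 + 2 * Real.pi, p.2)‖ ^ 2) : ℂ) +
        Complex.I * (α (p.1 + 2 * Real.pi, p.2) : ℂ) = _
      rw [hp_per, hα.per p h]
  · intro p _
    simp
  · obtain ⟨M, hM⟩ := (isCompact_Icc (a := (0 : ℝ)) (b := 1)).exists_bound_of_continuousOn
      hΘc.continuousOn
    refine ⟨M + B', fun p h => ?_⟩
    have hσp : -σ < p.2 := by linarith
    have h1 : ‖hp a p‖ ≤ 1 := H.ha1 _ (E_mem_ball hρ0 (hlt p hσp))
    have h2 : ‖Θ (‖hp a p‖ ^ 2)‖ ≤ M := hM _ ⟨by positivity, by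
      have := norm_nonneg (hp a p)
      nlinarith⟩
    calc ‖(Θ (‖hp a p‖ ^ 2) : ℂ) + Complex.I * (α p : ℂ)‖
        ≤ ‖(Θ (‖hp a p‖ ^ 2) : ℂ)‖ + ‖Complex.I * (α p : ℂ)‖ := norm_add_le _ _
      _ ≤ M + B' := by
          apply add_le_add
          · rw [Complex.norm_real]; exact h2
          · rw [norm_mul, Complex.norm_I, one_mul, Complex.norm_real]
            exact hB' p h

end Pool.H14.SR
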