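import Pool.Agent.H14.SR.Basic
import Pool.Agent.H14.SR.G0
import Pool.Agent.H14.SR.Uch
open MeasureTheory Set Filter Topology
noncomputable section
namespace Pool.H14.SR


/-- **(HS)** Hardy-Stein inequality.  `f` continuous on the closed disc, analytic inside, `s > 0`:
`∬_{ST} |f'|² (|f|²+s²)^{-1/2} y ≤ ∫_0^{2π} (|f|²+s²)^{1/2} dx`. -/
theorem HS (f : ℂ → ℂ) (hfc : ContinuousOn f (Metric.closedBall 0 1))
    (hf : DifferentiableOn ℂ f (Metric.ball 0 1)) (s : ℝ) (hs : 0 < s) :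
    ∫⁻ p in ST, ENNReal.ofReal (‖hp (Dz f) p‖ ^ 2 / Real.sqrt (‖hp f p‖ ^ 2 + s ^ 2) * p.2)
      ≤ ENNReal.ofReal (∫ x in Set.Ioc 0 (2 * Real.pi), Real.sqrt (‖f (E (x, 0))‖ ^ 2 + s ^ 2)) := by
  obtain ⟨B, hB0, hB⟩ := hp_bdd hfc
  have hq := Uch_sq hf
  set q : ℝ × ℝ → ℝ := fun p => (hp f p).re ^ 2 + (hp f p).im ^ 2 with hqdef
  set qx : ℝ × ℝ → ℝ :=
    fun p => 2 * ((hp f p).re * (hp (Dz f) p).re + (hp f p).im * (hp (Dz f) p).im) with hqx
  set qxx : ℝ × ℝ → ℝ := (fun p => 2 * ((hp (Dz f) p).re ^ 2 + (hp (Dz f) p).im ^ 2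
        + (hp f p).re * (hp (Dz (Dz f)) p).re + (hp f p).im * (hp (Dz (Dz f)) p).im)) with hqxx
  set qy : ℝ × ℝ → ℝ :=
      (fun p => 2 * (-((hp f p).re * (hp (Dz f) p).im) + (hp f p).im * (hp (Dz f) p).re)) with hqy
  set qyy : ℝ × ℝ → ℝ := (fun p => 2 * ((hp (Dz f) p).re ^ 2 + (hp (Dz f) p).im ^ 2
        - (hp f p).re * (hp (Dz (Dz f)) p).re - (hp f p).im * (hp (Dz (Dz f)) p).im)) with hqyy
  have hqn : ∀ p, q p = ‖hp f p‖ ^ 2 := fun p => (Uch_normsq _).symm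
  have hq0 : ∀ p, 0 ≤ q p := fun p => by rw [hqn]; positivity
  have hg0 : ∀ p, 0 < q p + s ^ 2 := fun p => by have := hq0 p; positivity
  set R : ℝ × ℝ → ℝ := fun p => Real.sqrt (q p + s ^ 2) with hR
  have hRpos : ∀ p, 0 < R p := fun p => Real.sqrt_pos.2 (hg0 p)
  have hRsq : ∀ p, R p ^ 2 = q p + s ^ 2 := fun p => Real.sq_sqrt (hg0 p).le
  set Rx : ℝ × ℝ → ℝ := fun p => qx p / (2 * R p) with hRx
  set Rxx : ℝ × ℝ → ℝ := fun p => (qxx p * (2 * R p) - qx p * (2 * Rx p)) / (2 * R p) ^ 2 with hRxx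
  set Ry : ℝ × ℝ → ℝ := fun p => qy p / (2 * R p) with hRy
  set Ryy : ℝ × ℝ → ℝ := fun p => (qyy p * (2 * R p) - qy p * (2 * Ry p)) / (2 * R p) ^ 2 with hRyy
  have hRc : ContinuousOn R {p : ℝ × ℝ | -(0 : ℝ) < p.2} :=
    Real.continuous_sqrt.comp_continuousOn (hq.c.add continuousOn_const)
  have h2R : ∀ p ∈ {p : ℝ × ℝ | -(0 : ℝ) < p.2}, 2 * R p ≠ 0 := fun p _ => by
    have := hRpos p; positivity
  have h2R2 : ∀ p ∈ {p : ℝ × ℝ | -(0 : ℝ) < p.2}, (2 * R p) ^ 2 ≠ 0 := fun p _ => by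
    have := hRpos p; positivity
  have hRxc : ContinuousOn Rx {p : ℝ × ℝ | -(0 : ℝ) < p.2} :=
    hq.cx.div (continuousOn_const.mul hRc) h2R
  have hRyc : ContinuousOn Ry {p : ℝ × ℝ | -(0 : ℝ) < p.2} :=
    hq.cy.div (continuousOn_const.mul hRc) h2R
  have dRx : ∀ p : ℝ × ℝ, -(0 : ℝ) < p.2 → HasDerivAt (fun x => R (x, p.2)) (Rx p) p.1 := by
    intro p h
    have := ((hq.dx p h).add_const (s ^ 2)).sqrt (hg0 (p.1, p.2)).ne'
    exact this
  have dRy : ∀ p : ℝ × ℝ, -(0 : ℝ) < p.2 → HasDerivAt (fun y => R (p.1, y)) (Ry p) p.2 := by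
    intro p h
    have := ((hq.dy p h).add_const (s ^ 2)).sqrt (hg0 (p.1, p.2)).ne'
    exact this
  have hUP : P2 0 R Rx Rxx Ry Ryy := by
    refine ⟨dRx, ?_, dRy, ?_, hRc, hRxc, ?_, hRyc, ?_, ?_⟩
    · intro p h
      have := (hq.dxx p h).div ((dRx p h).const_mul 2) (h2R (p.1, p.2) h)
      exact this
    · intro p h
      have := (hq.dyy p h).div ((dRy p h).const_mul 2) (h2R (p.1, p.2) h)
      exact this
    · exact ((hq.cxx.mul (continuousOn_const.mul hRc)).sub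
        (hq.cx.mul (continuousOn_const.mul hRxc))).div ((continuousOn_const.mul hRc).pow 2) h2R2
    · exact ((hq.cyy.mul (continuousOn_const.mul hRc)).sub
        (hq.cy.mul (continuousOn_const.mul hRyc))).div ((continuousOn_const.mul hRc).pow 2) h2R2
    · intro p h
      simp only [hR]
      rw [hq.per p h]
  have hkey : ∀ p : ℝ × ℝ, ‖hp (Dz f) p‖ ^ 2 / Real.sqrt (‖hp f p‖ ^ 2 + s ^ 2)
      ≤ Rxx p + Ryy p := by
    intro p
    have hRp := hRpos p
    have hfq : Real.sqrt (‖hp f p‖ ^ 2 + s ^ 2) = R p := by simp only [hR]; rw [hqn]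
    rw [hfq]
    set d : ℝ := ‖hp (Dz f) p‖ ^ 2 with hd
    have hd' : d = (hp (Dz f) p).re ^ 2 + (hp (Dz f) p).im ^ 2 := Uch_normsq _
    have hd0 : 0 ≤ d := by positivity
    have e1 : qxx p + qyy p = 4 * d := by
      simp only [hqxx, hqyy]; rw [hd']; ring
    have e2 : qx p ^ 2 + qy p ^ 2 = 4 * q p * d := by
      simp only [hqx, hqy, hqdef]; rw [hd']; ring
    have e3 : Rxx p + Ryy p = ((qxx p + qyy p) * (2 * R p) - (qx p ^ 2 + qy p ^ 2) / R p)
        / (2 * R p) ^ 2 := by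
      simp only [hRxx, hRyy, hRx, hRy]
      field_simp
      ring
    rw [e3, e1, e2, div_le_div_iff₀ hRp (by positivity)]
    have e4 : (4 * d * (2 * R p) - 4 * q p * d / R p) * R p = 8 * d * R p ^ 2 - 4 * q p * d := by
      field_simp
      ring
    rw [e4]
    have := hRsq p
    have hs2 : 0 ≤ s ^ 2 := by positivity
    nlinarith [mul_nonneg hd0 hs2]
  have hLc : ContinuousOn (fun p => Rxx p + Ryy p) {p : ℝ × ℝ | 0 < p.2} := by
    refine (hUP.cxx.add hUP.cyy).mono (fun p hp => ?_)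
    simpa using hp
  have hUnn : ∀ p : ℝ × ℝ, 0 < p.2 → 0 ≤ Rxx p + Ryy p := by
    intro p _
    exact le_trans (by positivity) (hkey p)
  have main : ∫⁻ p in ST, ENNReal.ofReal ((Rxx p + Ryy p) * p.2)
      ≤ ENNReal.ofReal (∫ x in Set.Ioc 0 (2 * Real.pi), Real.sqrt (‖f (E (x, 0))‖ ^ 2 + s ^ 2)) := by
    apply Uch_limit (fun p => Rxx p + Ryy p) hLc
      (fun y => ∫ x in Set.Ioc 0 (2 * Real.pi), Real.sqrt (‖f (E (x, y))‖ ^ 2 + s ^ 2))
    · exact Uch_tendsto (fun z => Real.sqrt (‖f z‖ ^ 2 + s ^ 2))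
        (Real.continuous_sqrt.comp_continuousOn ((hfc.norm.pow 2).add continuousOn_const))
    · intro e0 he0
      refine (G0 R Rx Rxx Ry Ryy hUP (Real.sqrt (B ^ 2 + s ^ 2)) (fun p _ => (hRpos p).le)
        (fun p hp => ?_) hUnn e0 he0).trans ?_
      · simp only [hR]
        rw [hqn]
        apply Real.sqrt_le_sqrt
        have := pow_le_pow_left₀ (norm_nonneg _) (hB p hp.le) 2
        linarith
      · apply le_of_eq
        congr 1
        apply setIntegral_congr_fun measurableSet_Ioc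
        intro x _
        simp only [hR]
        rw [hqn]
        rfl
  refine le_trans ?_ main
  apply setLIntegral_mono_ae'
  · exact Uch_meas_ST
  · refine Eventually.of_forall fun p hp => ?_
    apply ENNReal.ofReal_le_ofReal
    exact mul_le_mul_of_nonneg_right (hkey p) hp.2.le

end Pool.H14.SR
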