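import Pool.Agent.H14.SR.Basic
import Pool.Agent.H14.SR.Uch
import Pool.Agent.H14.SR.HS
import Pool.Agent.H14.SR.STK
import Pool.Agent.H14.SR.OS
open MeasureTheory Set Filter Topology
noncomputable section
namespace Pool.H14.SR

theorem wo_ST : ST = Set.Ioc 0 (2 * Real.pi) ×ˢ Set.Ioi (0 : ℝ) := by
  ext p; simp [ST, Set.mem_prod]

theorem wo_meas_ST : MeasurableSet ST := by
  rw [wo_ST]; exact measurableSet_Ioc.prod measurableSet_Ioi

theorem wo_int (B : ℝ) : IntegrableOn (fun p : ℝ × ℝ => B * Real.exp (-p.2)) ST := by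
  rw [wo_ST]
  unfold IntegrableOn
  rw [Measure.volume_eq_prod, ← Measure.prod_restrict]
  have h1 : Integrable (fun _ : ℝ => B) (volume.restrict (Set.Ioc 0 (2 * Real.pi))) :=
    integrable_const _
  have h2 : Integrable (fun y : ℝ => Real.exp (-y)) (volume.restrict (Set.Ioi 0)) := by
    have := exp_neg_integrableOn_Ioi 0 one_pos
    simpa [IntegrableOn] using this
  exact h1.mul_prod h2

/-- `∬ |b'|² y < ∞`. -/
theorem wo_fin {b : ℂ → ℂ} {ρ : ℝ} (hρ : 1 < ρ) (hb : DifferentiableOn ℂ b (Metric.ball 0 ρ)) :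
    (∫⁻ p in ST, ENNReal.ofReal (‖hp (Dz b) p‖ ^ 2 * p.2)) < ⊤ := by
  obtain ⟨B, hB, h⟩ := hp_decay hρ hb
  refine lt_of_le_of_lt ?_ (wo_int (B ^ 2)).lintegral_lt_top
  refine setLIntegral_mono' wo_meas_ST fun p hp' => ENNReal.ofReal_le_ofReal ?_
  have hy : 0 < p.2 := hp'.2
  have h1 := h p hy.le
  have h2 : ‖hp (Dz b) p‖ ^ 2 ≤ (B * Real.exp (-p.2)) ^ 2 := pow_le_pow_left₀ (norm_nonneg _) h1 2
  have h3 : p.2 * Real.exp (-p.2) ≤ 1 := by
    rw [Real.exp_neg]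
    rw [← div_eq_mul_inv, div_le_one (Real.exp_pos _)]
    linarith [Real.add_one_le_exp p.2]
  calc ‖hp (Dz b) p‖ ^ 2 * p.2 ≤ (B * Real.exp (-p.2)) ^ 2 * p.2 :=
        mul_le_mul_of_nonneg_right h2 hy.le
    _ = B ^ 2 * Real.exp (-p.2) * (p.2 * Real.exp (-p.2)) := by ring
    _ ≤ B ^ 2 * Real.exp (-p.2) * 1 := mul_le_mul_of_nonneg_left h3 (by positivity)
    _ = B ^ 2 * Real.exp (-p.2) := by ring

theorem wo_C1 {σ : ℝ} {G Gx Gy : ℝ × ℝ → ℂ} (hG : C1 σ G Gx Gy) {f : ℂ → ℂ} {ρ' : ℝ}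
    (hρ' : 1 < ρ') (hf : DifferentiableOn ℂ f (Metric.ball 0 ρ')) :
    C1 (min σ (Real.log ρ')) (fun p => G p * hp f p)
      (fun p => Gx p * hp f p + G p * hp (Dz f) p)
      (fun p => Gy p * hp f p + G p * (Complex.I * hp (Dz f) p)) := by
  have hF := C1_hp (by linarith : (0 : ℝ) < ρ') hf
  have s1 : {p : ℝ × ℝ | -(min σ (Real.log ρ')) < p.2} ⊆ {p | -σ < p.2} := fun p h => by
    have h' : -(min σ (Real.log ρ')) < p.2 := h
    show -σ < p.2
    linarith [min_le_left σ (Real.log ρ')]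
  have s2 : {p : ℝ × ℝ | -(min σ (Real.log ρ')) < p.2} ⊆ {p | -(Real.log ρ') < p.2} := fun p h => by
    have h' : -(min σ (Real.log ρ')) < p.2 := h
    show -(Real.log ρ') < p.2
    linarith [min_le_right σ (Real.log ρ')]
  exact
    { dx := fun p h => (hG.dx p (s1 h)).mul (hF.dx p (s2 h))
      dy := fun p h => (hG.dy p (s1 h)).mul (hF.dy p (s2 h))
      c := (hG.c.mono s1).mul (hF.c.mono s2)
      cx := ((hG.cx.mono s1).mul (hF.c.mono s2)).add ((hG.c.mono s1).mul (hF.cx.mono s2))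
      cy := ((hG.cy.mono s1).mul (hF.c.mono s2)).add ((hG.c.mono s1).mul (hF.cy.mono s2))
      per := fun p h => by
        show G (p.1 + 2 * Real.pi, p.2) * hp f (p.1 + 2 * Real.pi, p.2) = G p * hp f p
        rw [hG.per p (s1 h), hF.per p (s2 h)] }

theorem wo_P2 {σ : ℝ} (hσ : 0 ≤ σ) {U Ux Uxx Uy Uyy : ℝ × ℝ → ℝ} (h : P2 σ U Ux Uxx Uy Uyy)
    (c : ℝ) : P2 0 (fun p => c * U p) (fun p => c * Ux p) (fun p => c * Uxx p)
      (fun p => c * Uy p) (fun p => c * Uyy p) := by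
  have s : {p : ℝ × ℝ | -0 < p.2} ⊆ {p | -σ < p.2} := fun p h => by
    have h' : -0 < p.2 := h
    show -σ < p.2
    rw [neg_zero] at h'
    linarith
  exact
    { dx := fun p hp => (h.dx p (s hp)).const_mul c
      dxx := fun p hp => (h.dxx p (s hp)).const_mul c
      dy := fun p hp => (h.dy p (s hp)).const_mul c
      dyy := fun p hp => (h.dyy p (s hp)).const_mul c
      c := continuousOn_const.mul (h.c.mono s)
      cx := continuousOn_const.mul (h.cx.mono s)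
      cxx := continuousOn_const.mul (h.cxx.mono s)
      cy := continuousOn_const.mul (h.cy.mono s)
      cyy := continuousOn_const.mul (h.cyy.mono s)
      per := fun p hp => by
        show c * U (p.1 + 2 * Real.pi, p.2) = c * U p
        rw [h.per p (s hp)] }

/-- `∬ |b'|² |f| y ≤ I / (2t)`. -/
theorem wo_A {δ ρ : ℝ} {a b F : ℂ → ℂ} (H : Dat δ ρ a b F) (f k : ℂ → ℂ)
    (hkc : ContinuousOn k (Metric.closedBall 0 1)) (hk : DifferentiableOn ℂ k (Metric.ball 0 1))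
    (t : ℝ) (ht : 1 ≤ t)
    (hfk : ∀ w ∈ Metric.closedBall (0 : ℂ) 1,
      ‖f w‖ ≤ Real.exp (-(t * OscD a b F w / 2)) * ‖k w‖ ^ 2) :
    ∫⁻ p in ST, ENNReal.ofReal (‖hp (Dz b) p‖ ^ 2 * ‖hp f p‖ * p.2)
      ≤ ENNReal.ofReal (1 / (2 * t) * ∫ x in Set.Ioc 0 (2 * Real.pi), ‖k (E (x, 0))‖ ^ 2) := by
  obtain ⟨Ox, Oxx, Oy, Oyy, hP, hL, -⟩ := Osc_P2 H
  have hlog : 0 ≤ Real.log ρ := Real.log_nonneg H.hρ.le
  have t0 : 0 < t := by linarith
  have hU := Uch _ _ _ _ _ (wo_P2 hlog hP (t / 2))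
    (fun p hp' => by
      have := (Osc_nonneg H p (by linarith)).1
      positivity)
    (fun p hp' => by
      have h1 := hL p (by linarith)
      have h2 : t / 2 * Oxx p + t / 2 * Oyy p = t / 2 * (Oxx p + Oyy p) := by ring
      rw [h2, h1]
      nlinarith [sq_nonneg ‖hp (Dz a) p‖, sq_nonneg ‖hp (Dz b) p‖])
    k hkc hk
  rw [ENNReal.ofReal_mul (by positivity)]
  refine le_trans ?_ (mul_le_mul_right hU _)
  rw [← lintegral_const_mul' _ _ ENNReal.ofReal_ne_top]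
  refine setLIntegral_mono' wo_meas_ST fun p hp' => ?_
  have hy : 0 < p.2 := hp'.2
  rw [← ENNReal.ofReal_mul (by positivity)]
  refine ENNReal.ofReal_le_ofReal ?_
  have h1 := hL p (by linarith)
  have h2 : ‖hp f p‖ ≤ Real.exp (-(t / 2 * Osc a b F p)) * ‖hp k p‖ ^ 2 := by
    have := hfk (E p) (E_mem_closedBall hy.le)
    have e : t * OscD a b F (E p) / 2 = t / 2 * Osc a b F p := by
      unfold OscD Osc hp; ring
    rw [e] at this
    exact this
  have h3 : 0 ≤ Real.exp (-(t / 2 * Osc a b F p)) * ‖hp k p‖ ^ 2 := by positivity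
  calc ‖hp (Dz b) p‖ ^ 2 * ‖hp f p‖ * p.2
      ≤ (‖hp (Dz a) p‖ ^ 2 + ‖hp (Dz b) p‖ ^ 2) *
          (Real.exp (-(t / 2 * Osc a b F p)) * ‖hp k p‖ ^ 2) * p.2 := by
        refine mul_le_mul_of_nonneg_right ?_ hy.le
        refine mul_le_mul ?_ h2 (norm_nonneg _) (by positivity)
        linarith [sq_nonneg ‖hp (Dz a) p‖]
    _ = 1 / (2 * t) * (-(t / 2 * Oxx p + t / 2 * Oyy p) * Real.exp (-(t / 2 * Osc a b F p)) *
          ‖hp k p‖ ^ 2 * p.2) := by
        have h4 : t / 2 * Oxx p + t / 2 * Oyy p = t / 2 * (Oxx p + Oyy p) := by ring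
        rw [h4, h1]
        field_simp
        ring

/-- the pointwise inequality -/
theorem wo_pt (β φ φ' s lam y : ℝ) (hφ : 0 ≤ φ) (hs : 0 < s)
    (hl : 0 < lam) (hy : 0 ≤ y) :
    β ^ 2 * φ * y + β * φ' * y ≤ (1 + lam / 2) * (β ^ 2 * φ * y) + (lam * s / 2) * (β ^ 2 * y)
      + (1 / (2 * lam)) * (φ' ^ 2 / Real.sqrt (φ ^ 2 + s ^ 2) * y) := by
  set w := Real.sqrt (φ ^ 2 + s ^ 2) with hw
  have hw0 : 0 < w := Real.sqrt_pos.2 (by positivity)
  have hw1 : w ≤ φ + s := by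
    rw [hw]
    rw [Real.sqrt_le_left (by positivity)]
    nlinarith
  have key : β * φ' ≤ lam / 2 * (β ^ 2 * w) + (1 / (2 * lam)) * (φ' ^ 2 / w) := by
    have : 0 ≤ (lam * w * β - φ') ^ 2 / (2 * lam * w) := by positivity
    have e : (lam * w * β - φ') ^ 2 / (2 * lam * w)
        = lam / 2 * (β ^ 2 * w) + (1 / (2 * lam)) * (φ' ^ 2 / w) - β * φ' := by
      field_simp
      ring
    linarith
  have key2 : lam / 2 * (β ^ 2 * w) ≤ lam / 2 * (β ^ 2 * (φ + s)) := by gcongr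
  calc β ^ 2 * φ * y + β * φ' * y = β ^ 2 * φ * y + (β * φ') * y := by ring
    _ ≤ β ^ 2 * φ * y + (lam / 2 * (β ^ 2 * (φ + s)) + (1 / (2 * lam)) * (φ' ^ 2 / w)) * y := by
        have := mul_le_mul_of_nonneg_right (key.trans (add_le_add_left key2 _)) hy
        linarith
    _ = _ := by ring

/-- **(WO)** Wolff's estimate.  `G` is `C¹` periodic, `0` for `y ≥ Y`, `|G| ≤ C|b'|`, `|∂G| ≤ C|b'|²`;
`f` analytic on a larger disc, `|f| ≤ e^{-tO/2}|k|²` on the closed disc, `t ≥ 1`: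
`|∬_{ST} G f| ≤ (3C/√t) ∫|k|²`.

Proof: `STK'` for `Gf`: `|∬ Gf| ≤ 2∬ (|∂G||f| + |G||f'|) y ≤ 2C(∬|b'|²|f|y + ∬|b'||f'|y)`, (`∂(Gf) = ∂G f + G f'`).
`A := ∬|b'|²|f|y ≤ ∬|b'|²e^{-tO/2}|k|²y ≤ (1/2t) I`, `I = ∫|k|²` (`Uch` with `S = tO/2`,
`-ΔS = 2t(|a'|²+|b'|²)`, `Osc_P2`).  `∬|b'||f'|y ≤ (∬|b'|²(|f|²+s²)^{1/2}y)^{1/2}(∬|f'|²(|f|²+s²)^{-1/2}y)^{1/2}
≤ (A + s∬_{ST}|b'|²y)^{1/2}(∫(|f|²+s²)^{1/2})^{1/2}` (`HS`), `∬|b'|²y < ∞`; `s → 0`: `≤ (A I)^{1/2}`, since `|f| ≤ |k|²` on the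
circle (`O ≥ 0`).  `2(1/(2t) + 1/√(2t)) ≤ 3/√t`. -/
theorem WO {δ ρ : ℝ} {a b F : ℂ → ℂ} (H : Dat δ ρ a b F) (σ : ℝ) (hσ : 0 < σ)
    (G Gx Gy : ℝ × ℝ → ℂ) (hG : C1 σ G Gx Gy) (Y : ℝ) (hY : ∀ p : ℝ × ℝ, Y ≤ p.2 → G p = 0)
    (C : ℝ) (hC : 0 ≤ C) (h1 : ∀ p : ℝ × ℝ, 0 ≤ p.2 → ‖G p‖ ≤ C * ‖hp (Dz b) p‖)
    (h2 : ∀ p : ℝ × ℝ, 0 ≤ p.2 → ‖Gx p - Complex.I * Gy p‖ ≤ 2 * C * ‖hp (Dz b) p‖ ^ 2)
    (f k : ℂ → ℂ) (ρ' : ℝ) (hρ' : 1 < ρ') (hf : DifferentiableOn ℂ f (Metric.ball 0 ρ'))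
    (hkc : ContinuousOn k (Metric.closedBall 0 1)) (hk : DifferentiableOn ℂ k (Metric.ball 0 1))
    (t : ℝ) (ht : 1 ≤ t)
    (hfk : ∀ w ∈ Metric.closedBall (0 : ℂ) 1,
      ‖f w‖ ≤ Real.exp (-(t * OscD a b F w / 2)) * ‖k w‖ ^ 2) :
    ‖∫ p in ST, G p * hp f p‖
      ≤ 3 * C / Real.sqrt t * ∫ x in Set.Ioc 0 (2 * Real.pi), ‖k (E (x, 0))‖ ^ 2 := by
  set I := ∫ x in Set.Ioc 0 (2 * Real.pi), ‖k (E (x, 0))‖ ^ 2 with hI
  have I0 : 0 ≤ I := integral_nonneg fun x => by positivity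
  have t0 : 0 < t := by linarith
  have hlog : 0 < Real.log ρ' := Real.log_pos hρ'
  have hρ0 : (0 : ℝ) < ρ' := by linarith
  have hbρ0 : (0 : ℝ) < ρ := by linarith [H.hρ]
  have hblog : 0 < Real.log ρ := Real.log_pos H.hρ
  have hC1 := wo_C1 hG hρ' hf
  have hst := STK' _ (lt_min hσ hlog) _ _ _ hC1 Y (fun p hp' => by rw [hY p hp', zero_mul])
  rw [hst, norm_mul, norm_mul, norm_neg, Complex.norm_I, mul_one]
  rw [show ‖(2 : ℂ)‖ = 2 by simp]
  -- measurability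
  have mb : AEMeasurable (fun p : ℝ × ℝ => ‖hp (Dz b) p‖) (volume.restrict ST) := by
    refine ContinuousOn.aemeasurable ?_ wo_meas_ST
    exact ((hp_cont hbρ0 (Dz_diff H.hb).continuousOn).mono
      (fun p hp' => by
        have : 0 < p.2 := hp'.2
        show -Real.log ρ < p.2
        linarith)).norm
  have mf : AEMeasurable (fun p : ℝ × ℝ => ‖hp f p‖) (volume.restrict ST) := by
    refine ContinuousOn.aemeasurable ?_ wo_meas_ST
    exact ((hp_cont hρ0 hf.continuousOn).mono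
      (fun p hp' => by
        have : 0 < p.2 := hp'.2
        show -Real.log ρ' < p.2
        linarith)).norm
  have my : AEMeasurable (fun p : ℝ × ℝ => p.2) (volume.restrict ST) :=
    measurable_snd.aemeasurable
  set M := (∫⁻ p in ST, ENNReal.ofReal (‖hp (Dz b) p‖ ^ 2 * p.2)) with hM
  have hMfin : M ≠ ⊤ := (wo_fin H.hρ H.hb).ne
  set m := M.toReal with hm
  have m0 : 0 ≤ m := ENNReal.toReal_nonneg
  have hMm : M = ENNReal.ofReal m := (ENNReal.ofReal_toReal hMfin).symm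
  have hA := wo_A H f k hkc hk t ht hfk
  rw [← hI] at hA
  set lam := Real.sqrt t with hlam
  have lam0 : 0 < lam := Real.sqrt_pos.2 t0
  have lam1 : 1 ≤ lam := by
    rw [hlam]; exact Real.one_le_sqrt.2 ht
  have lam2 : lam * lam = t := Real.mul_self_sqrt t0.le
  -- the boundary integral
  have hkcont : Continuous fun x : ℝ => k (E (x, 0)) :=
    hkc.comp_continuous (continuous_E.comp (by fun_prop)) (fun x => E_mem_closedBall le_rfl)
  have hfcont : Continuous fun x : ℝ => f (E (x, 0)) :=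
    (hf.continuousOn.mono (Metric.closedBall_subset_ball hρ')).comp_continuous
      (continuous_E.comp (by fun_prop)) (fun x => E_mem_closedBall le_rfl)
  have hfk0 : ∀ x : ℝ, ‖f (E (x, 0))‖ ≤ ‖k (E (x, 0))‖ ^ 2 := fun x => by
    have e1 := hfk (E (x, 0)) (E_mem_closedBall le_rfl)
    have e2 : E (x, 0) ∈ Metric.ball (0 : ℂ) ρ :=
      Metric.closedBall_subset_ball H.hρ (E_mem_closedBall le_rfl)
    have e3 : 0 ≤ OscD a b F (E (x, 0)) := by
      unfold OscD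
      linarith [H.hO _ e2]
    have e4 : Real.exp (-(t * OscD a b F (E (x, 0)) / 2)) ≤ 1 := by
      apply Real.exp_le_one_iff.2
      have : 0 ≤ t * OscD a b F (E (x, 0)) / 2 := by positivity
      linarith
    calc _ ≤ _ := e1
      _ ≤ 1 * ‖k (E (x, 0))‖ ^ 2 := mul_le_mul_of_nonneg_right e4 (by positivity)
      _ = _ := one_mul _
  -- the bound for each s
  have key : ∀ s : ℝ, 0 < s →
      ‖∫ p in ST, (1 / 2 : ℂ) * ((Gx p * hp f p + G p * hp (Dz f) p) -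
        Complex.I * (Gy p * hp f p + G p * (Complex.I * hp (Dz f) p))) * (p.2 : ℂ)‖
      ≤ C * ((1 + lam / 2) * (1 / (2 * t) * I) + (lam * s / 2) * m
          + (1 / (2 * lam)) * (I + 2 * Real.pi * s)) := by
    intro s hs
    have hJ : ∫ x in Set.Ioc 0 (2 * Real.pi), Real.sqrt (‖f (E (x, 0))‖ ^ 2 + s ^ 2)
        ≤ I + 2 * Real.pi * s := by
      have e1 : ∫ x in Set.Ioc 0 (2 * Real.pi), (‖k (E (x, 0))‖ ^ 2 + s) = I + 2 * Real.pi * s := by
        rw [integral_add]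
        · rw [← hI]
          congr 1
          rw [setIntegral_const]
          simp [Real.pi_pos.le]
        · exact (hkcont.norm.pow 2).integrableOn_Ioc
        · exact continuous_const.integrableOn_Ioc
      rw [← e1]
      refine setIntegral_mono ?_ ?_ ?_
      · exact ((hfcont.norm.pow 2).add continuous_const).sqrt.integrableOn_Ioc
      · exact ((hkcont.norm.pow 2).add continuous_const).integrableOn_Ioc
      · intro x
        have h5 := hfk0 x
        have h6 := norm_nonneg (f (E (x, 0)))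
        show Real.sqrt (‖f (E (x, 0))‖ ^ 2 + s ^ 2) ≤ ‖k (E (x, 0))‖ ^ 2 + s
        rw [Real.sqrt_le_left (by positivity)]
        nlinarith
    have hHS := HS f (hf.continuousOn.mono (Metric.closedBall_subset_ball hρ'))
      (hf.mono (Metric.ball_subset_ball hρ'.le)) s hs
    have hHS' := hHS.trans (ENNReal.ofReal_le_ofReal hJ)
    refine (norm_integral_le_lintegral_norm _).trans ?_
    refine ENNReal.toReal_le_of_le_ofReal (by positivity) ?_
    -- pointwise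
    have hpt : ∀ p ∈ ST, ENNReal.ofReal ‖(1 / 2 : ℂ) * ((Gx p * hp f p + G p * hp (Dz f) p) -
        Complex.I * (Gy p * hp f p + G p * (Complex.I * hp (Dz f) p))) * (p.2 : ℂ)‖
        ≤ ENNReal.ofReal C * (ENNReal.ofReal (1 + lam / 2) *
            ENNReal.ofReal (‖hp (Dz b) p‖ ^ 2 * ‖hp f p‖ * p.2)
          + ENNReal.ofReal (lam * s / 2) * ENNReal.ofReal (‖hp (Dz b) p‖ ^ 2 * p.2)
          + ENNReal.ofReal (1 / (2 * lam)) *
            ENNReal.ofReal (‖hp (Dz f) p‖ ^ 2 / Real.sqrt (‖hp f p‖ ^ 2 + s ^ 2) * p.2)) := by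
      intro p hp'
      have hy : 0 < p.2 := hp'.2
      rw [← ENNReal.ofReal_mul (by positivity), ← ENNReal.ofReal_mul (by positivity),
        ← ENNReal.ofReal_mul (by positivity), ← ENNReal.ofReal_add (by positivity) (by positivity),
        ← ENNReal.ofReal_add (by positivity) (by positivity), ← ENNReal.ofReal_mul hC]
      refine ENNReal.ofReal_le_ofReal ?_
      have e1 : (Gx p * hp f p + G p * hp (Dz f) p) -
        Complex.I * (Gy p * hp f p + G p * (Complex.I * hp (Dz f) p))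
        = (Gx p - Complex.I * Gy p) * hp f p + 2 * (G p * hp (Dz f) p) := by
        linear_combination (-(G p * hp (Dz f) p)) * Complex.I_mul_I
      rw [e1, norm_mul, norm_mul]
      have e2 : ‖(p.2 : ℂ)‖ = p.2 := by
        rw [Complex.norm_real, Real.norm_eq_abs, abs_of_pos hy]
      have e3 : ‖(1 / 2 : ℂ)‖ = 1 / 2 := by simp
      rw [e2, e3]
      have e4 : ‖(Gx p - Complex.I * Gy p) * hp f p + 2 * (G p * hp (Dz f) p)‖
          ≤ 2 * C * ‖hp (Dz b) p‖ ^ 2 * ‖hp f p‖ + 2 * (C * ‖hp (Dz b) p‖ * ‖hp (Dz f) p‖) := by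
        refine (norm_add_le _ _).trans ?_
        rw [norm_mul, norm_mul, norm_mul]
        rw [show ‖(2 : ℂ)‖ = 2 by simp]
        have := h1 p hy.le
        have := h2 p hy.le
        gcongr
      have e5 := wo_pt ‖hp (Dz b) p‖ ‖hp f p‖ ‖hp (Dz f) p‖ s lam p.2 (norm_nonneg _) hs lam0 hy.le
      calc 1 / 2 * ‖(Gx p - Complex.I * Gy p) * hp f p + 2 * (G p * hp (Dz f) p)‖ * p.2
          ≤ 1 / 2 * (2 * C * ‖hp (Dz b) p‖ ^ 2 * ‖hp f p‖ +
            2 * (C * ‖hp (Dz b) p‖ * ‖hp (Dz f) p‖)) * p.2 := by gcongr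
        _ = C * (‖hp (Dz b) p‖ ^ 2 * ‖hp f p‖ * p.2 + ‖hp (Dz b) p‖ * ‖hp (Dz f) p‖ * p.2) := by
            ring
        _ ≤ _ := mul_le_mul_of_nonneg_left e5 hC
    refine (setLIntegral_mono' wo_meas_ST hpt).trans ?_
    rw [lintegral_const_mul' _ _ ENNReal.ofReal_ne_top, ENNReal.ofReal_mul hC]
    refine mul_le_mul_right ?_ _
    have mA : AEMeasurable (fun p : ℝ × ℝ => ENNReal.ofReal (1 + lam / 2) *
            ENNReal.ofReal (‖hp (Dz b) p‖ ^ 2 * ‖hp f p‖ * p.2)) (volume.restrict ST) :=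
      ((((mb.pow_const 2).mul mf).mul my).ennreal_ofReal).const_mul _
    have mB : AEMeasurable (fun p : ℝ × ℝ => ENNReal.ofReal (lam * s / 2) *
            ENNReal.ofReal (‖hp (Dz b) p‖ ^ 2 * p.2)) (volume.restrict ST) :=
      ((((mb.pow_const 2)).mul my).ennreal_ofReal).const_mul _
    have split : ∫⁻ p in ST, (ENNReal.ofReal (1 + lam / 2) *
            ENNReal.ofReal (‖hp (Dz b) p‖ ^ 2 * ‖hp f p‖ * p.2)
          + ENNReal.ofReal (lam * s / 2) * ENNReal.ofReal (‖hp (Dz b) p‖ ^ 2 * p.2)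
          + ENNReal.ofReal (1 / (2 * lam)) *
            ENNReal.ofReal (‖hp (Dz f) p‖ ^ 2 / Real.sqrt (‖hp f p‖ ^ 2 + s ^ 2) * p.2))
        = (∫⁻ p in ST, ENNReal.ofReal (1 + lam / 2) *
            ENNReal.ofReal (‖hp (Dz b) p‖ ^ 2 * ‖hp f p‖ * p.2))
          + (∫⁻ p in ST, ENNReal.ofReal (lam * s / 2) * ENNReal.ofReal (‖hp (Dz b) p‖ ^ 2 * p.2))
          + ∫⁻ p in ST, ENNReal.ofReal (1 / (2 * lam)) *
            ENNReal.ofReal (‖hp (Dz f) p‖ ^ 2 / Real.sqrt (‖hp f p‖ ^ 2 + s ^ 2) * p.2) := by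
      rw [← lintegral_add_left' mA]
      exact lintegral_add_left' (mA.add mB) _
    have rsplit : ENNReal.ofReal ((1 + lam / 2) * (1 / (2 * t) * I) + (lam * s / 2) * m
          + (1 / (2 * lam)) * (I + 2 * Real.pi * s))
        = ENNReal.ofReal (1 + lam / 2) * ENNReal.ofReal (1 / (2 * t) * I)
          + ENNReal.ofReal (lam * s / 2) * ENNReal.ofReal m
          + ENNReal.ofReal (1 / (2 * lam)) * ENNReal.ofReal (I + 2 * Real.pi * s) := by
      rw [← ENNReal.ofReal_mul (by positivity), ← ENNReal.ofReal_mul (by positivity),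
        ← ENNReal.ofReal_mul (by positivity), ← ENNReal.ofReal_add (by positivity) (by positivity),
        ← ENNReal.ofReal_add (by positivity) (by positivity)]
    rw [split,
      lintegral_const_mul' _ _ ENNReal.ofReal_ne_top, lintegral_const_mul' _ _ ENNReal.ofReal_ne_top,
      lintegral_const_mul' _ _ ENNReal.ofReal_ne_top, rsplit]
    refine add_le_add (add_le_add ?_ ?_) ?_
    · exact mul_le_mul_right hA _
    · refine mul_le_mul_right ?_ _
      rw [← hM, hMm]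
    · exact mul_le_mul_right hHS' _
  -- let s → 0
  set X := ‖∫ p in ST, (1 / 2 : ℂ) * ((Gx p * hp f p + G p * hp (Dz f) p) -
        Complex.I * (Gy p * hp f p + G p * (Complex.I * hp (Dz f) p))) * (p.2 : ℂ)‖ with hX
  have lim : X ≤ C * ((1 + lam / 2) * (1 / (2 * t) * I) + (1 / (2 * lam)) * I) := by
    have hc : Tendsto (fun s : ℝ => C * ((1 + lam / 2) * (1 / (2 * t) * I) + (lam * s / 2) * m
          + (1 / (2 * lam)) * (I + 2 * Real.pi * s))) (𝓝[>] 0)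
        (𝓝 (C * ((1 + lam / 2) * (1 / (2 * t) * I) + (lam * 0 / 2) * m
          + (1 / (2 * lam)) * (I + 2 * Real.pi * 0)))) := by
      refine Tendsto.mono_left (Continuous.tendsto ?_ 0) nhdsWithin_le_nhds
      fun_prop
    have := ge_of_tendsto hc (eventually_nhdsWithin_of_forall fun s hs => key s hs)
    calc X ≤ _ := this
      _ = _ := by ring
  have fin : C * ((1 + lam / 2) * (1 / (2 * t) * I) + (1 / (2 * lam)) * I)
      ≤ C * (5 / (4 * lam) * I) := by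
    refine mul_le_mul_of_nonneg_left ?_ hC
    have e : (1 + lam / 2) * (1 / (2 * t) * I) + (1 / (2 * lam)) * I
        = ((1 / lam) * (1 / 2) + 3 / 4) * (1 / lam) * I := by
      rw [← lam2]
      field_simp
      ring
    rw [e]
    have e2 : 5 / (4 * lam) * I = (1 / 2 + 3 / 4) * (1 / lam) * I := by
      field_simp
      ring
    rw [e2]
    have e3 : 1 / lam ≤ 1 := (div_le_one lam0).2 lam1
    gcongr
    linarith
  calc 2 * X ≤ 2 * (C * (5 / (4 * lam) * I)) := by linarith [lim.trans fin]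
    _ = 5 / 2 * (C / lam * I) := by
        field_simp
        ring
    _ ≤ 3 * (C / lam * I) := by
        have : 0 ≤ C / lam * I := by positivity
        linarith
    _ = 3 * C / lam * I := by ring

end Pool.H14.SR
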