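import Pool.Agent.H14.SR.Basic
import Pool.Agent.H14.SR.FLOW
import Pool.Agent.H14.SR.PHI
import Pool.Agent.H14.SR.PH
import Pool.Agent.H14.SR.WO
import Pool.Agent.H14.SR.GE
import Pool.Agent.H14.SR.DB
import Pool.Agent.H14.SR.STK
open MeasureTheory Set Filter Topology
noncomputable section
namespace Pool.H14.SR

theorem MID_mono {V : Type*} [NormedAddCommGroup V] [NormedSpace ℝ V] {σ σ' : ℝ}
    {u ux uy : ℝ × ℝ → V} (h : C1 σ u ux uy) (hσ : σ' ≤ σ) : C1 σ' u ux uy where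
  dx := fun p hp => h.dx p (by linarith)
  dy := fun p hp => h.dy p (by linarith)
  c := h.c.mono (fun p (hp : -σ' < p.2) => show -σ < p.2 by linarith)
  cx := h.cx.mono (fun p (hp : -σ' < p.2) => show -σ < p.2 by linarith)
  cy := h.cy.mono (fun p (hp : -σ' < p.2) => show -σ < p.2 by linarith)
  per := fun p hp => h.per p (by linarith)

theorem MID_add {σ : ℝ} {u ux uy v vx vy : ℝ × ℝ → ℂ} (h : C1 σ u ux uy) (g : C1 σ v vx vy) :
    C1 σ (fun p => u p + v p) (fun p => ux p + vx p) (fun p => uy p + vy p) where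
  dx := fun p hp => (h.dx p hp).add (g.dx p hp)
  dy := fun p hp => (h.dy p hp).add (g.dy p hp)
  c := h.c.add g.c
  cx := h.cx.add g.cx
  cy := h.cy.add g.cy
  per := fun p hp => by rw [h.per p hp, g.per p hp]

theorem MID_mul {σ : ℝ} {u ux uy v vx vy : ℝ × ℝ → ℂ} (h : C1 σ u ux uy) (g : C1 σ v vx vy) :
    C1 σ (fun p => u p * v p) (fun p => ux p * v p + u p * vx p)
      (fun p => uy p * v p + u p * vy p) where
  dx := fun p hp => (h.dx p hp).mul (g.dx p hp)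
  dy := fun p hp => (h.dy p hp).mul (g.dy p hp)
  c := h.c.mul g.c
  cx := (h.cx.mul g.c).add (h.c.mul g.cx)
  cy := (h.cy.mul g.c).add (h.c.mul g.cy)
  per := fun p hp => by rw [h.per p hp, g.per p hp]

/-- A function continuous on `y > -σ` and vanishing for `y ≥ Y` is integrable on the strip. -/
theorem MID_integrableOn_ST {σ : ℝ} (hσ : 0 < σ) {g : ℝ × ℝ → ℂ} (hg : ContinuousOn g {p | -σ < p.2})
    {Y : ℝ} (hY : ∀ p : ℝ × ℝ, Y ≤ p.2 → g p = 0) : IntegrableOn g ST := by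
  have hK : IsCompact (Set.Icc (0 : ℝ) (2 * Real.pi) ×ˢ Set.Icc (0 : ℝ) Y) :=
    isCompact_Icc.prod isCompact_Icc
  have h1 : IntegrableOn g (Set.Icc (0 : ℝ) (2 * Real.pi) ×ˢ Set.Icc (0 : ℝ) Y) :=
    (hg.mono (fun p hp => show -σ < p.2 by have := hp.2.1; linarith)).integrableOn_compact hK
  have hST : MeasurableSet ST := by
    unfold ST
    exact (measurableSet_Ioc.preimage measurable_fst).inter (measurableSet_lt measurable_const measurable_snd)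
  have h2 : IntegrableOn g (ST ∩ {p | p.2 < Y}) :=
    h1.mono_set (fun p hp => ⟨⟨hp.1.1.1.le, hp.1.1.2⟩, ⟨hp.1.2.le, le_of_lt hp.2⟩⟩)
  have h3 : IntegrableOn g (ST ∩ {p | Y ≤ p.2}) := by
    refine (integrableOn_zero (s := ST ∩ {p | Y ≤ p.2})).congr_fun (fun p hp => ?_)
      (hST.inter (measurableSet_le measurable_const measurable_snd))
    exact (hY p hp.2).symm
  have : ST = (ST ∩ {p | p.2 < Y}) ∪ (ST ∩ {p | Y ≤ p.2}) := by
    ext p; constructor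
    · intro h
      rcases lt_or_ge p.2 Y with h' | h'
      · exact Or.inl ⟨h, h'⟩
      · exact Or.inr ⟨h, h'⟩
    · rintro (h | h) <;> exact h.1
  rw [this]
  exact h2.union h3

theorem MID_norm_le_of_zero {f : ℂ → ℂ} {ρ : ℝ} (hρ : 1 < ρ)
    (hf : DifferentiableOn ℂ f (Metric.ball 0 ρ)) (h0 : f 0 = 0) :
    ∃ B : ℝ, 0 ≤ B ∧ ∀ z ∈ Metric.closedBall (0 : ℂ) 1, ‖f z‖ ≤ B * ‖z‖ := by
  have hc : ContinuousOn (deriv f) (Metric.closedBall 0 1) :=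
    ((hf.deriv Metric.isOpen_ball).continuousOn).mono (Metric.closedBall_subset_ball hρ)
  obtain ⟨B, hB⟩ := (isCompact_closedBall (0 : ℂ) 1).exists_bound_of_continuousOn hc
  refine ⟨|B|, abs_nonneg _, fun z hz => ?_⟩
  have := (convex_closedBall (0 : ℂ) 1).norm_image_sub_le_of_norm_deriv_le (f := f) (C := |B|)
    (fun x hx => hf.differentiableAt (Metric.isOpen_ball.mem_nhds (Metric.closedBall_subset_ball hρ hx)))
    (fun x hx => (hB x hx).trans (le_abs_self B)) (Metric.mem_closedBall_self zero_le_one) hz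
  simpa [h0] using this

theorem MID_eps_tendsto (A B : ℝ) :
    Tendsto (fun t : ℝ => 2 * (A * |t ^ (-(1 / 8) : ℝ)| + B / Real.sqrt t)) atTop (𝓝 0) := by
  have h1 : Tendsto (fun t : ℝ => t ^ (-(1 / 8) : ℝ)) atTop (𝓝 0) :=
    tendsto_rpow_neg_atTop (by norm_num)
  have h2 : Tendsto (fun t : ℝ => |t ^ (-(1 / 8) : ℝ)|) atTop (𝓝 0) := by
    simpa using h1.abs
  have h3 : Tendsto (fun t : ℝ => B / Real.sqrt t) atTop (𝓝 0) :=
    Tendsto.const_div_atTop Real.tendsto_sqrt_atTop _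
  have := ((h2.const_mul A).add h3).const_mul 2
  simpa using this

/-- **(MID)** The `∂̄`-construction on the half plane. -/
theorem MID (δ : ℝ) (hδ : 0 < δ) (hδ2 : δ ≤ 1 / 2) :
    ∃ (C : ℝ) (ε : ℝ → ℝ) (Θ : ℝ → ℝ → ℝ), 0 < C ∧ Tendsto ε atTop (𝓝 0) ∧ (∀ t, 0 ≤ ε t) ∧
      (∀ v, Continuous (Θ v)) ∧ (∀ v q, 0 ≤ q → q ≤ 1 → |Θ v q| ≤ C) ∧
      ∀ (ρ : ℝ) (a b F : ℂ → ℂ), Dat δ ρ a b F → ∀ e : ℝ, 0 < e → e ≤ 1 →
      ∃ (σ : ℝ) (φ φx φy w wx wy : ℝ × ℝ → ℂ), 0 < σ ∧ σ < Real.log ρ ∧ C1 σ φ φx φy ∧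
        C1 σ w wx wy ∧
        (∀ p : ℝ × ℝ, -σ < p.2 → (φ p).re = Θ ‖a 0‖ (‖hp a p‖ ^ 2)) ∧
        (∀ p : ℝ × ℝ, -σ < p.2 →
          φx p + Complex.I * φy p = hp b p * (wx p + Complex.I * wy p)) ∧
        (∀ p : ℝ × ℝ, -σ < p.2 → ‖hp b p‖ < eps2 δ / 2 →
          Complex.exp (φ p) = hp a p ∧ wx p + Complex.I * wy p = 0) ∧
        (∃ B : ℝ, ∀ p : ℝ × ℝ, 0 ≤ p.2 → ‖φ p‖ ≤ B ∧ ‖w p‖ ≤ B) ∧
        ∀ t : ℝ, 1 ≤ t → ∀ (f k : ℂ → ℂ) (ρ' : ℝ), 1 < ρ' →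
          DifferentiableOn ℂ f (Metric.ball 0 ρ') → f 0 = 0 →
          ContinuousOn k (Metric.closedBall 0 1) → DifferentiableOn ℂ k (Metric.ball 0 1) →
          (∀ z ∈ Metric.closedBall (0 : ℂ) 1,
            ‖f z‖ ≤ Real.exp (-(t * OscD a b F z / 2)) * ‖k z‖ ^ 2) →
          ‖∫ x in Set.Ioc 0 (2 * Real.pi), w (x, 0) * f (E (x, 0))‖
            ≤ (ε t + e) * ∫ x in Set.Ioc 0 (2 * Real.pi), ‖k (E (x, 0))‖ ^ 2 := by
  obtain ⟨C0, hC0, hST⟩ := STEP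
  have hex : ∀ v : ℝ, ∃ (ψ ψ' ψ'' Θ : ℝ → ℝ), Step C0 δ v ψ ψ' ψ'' ∧
      (∀ q, HasDerivAt Θ (ψ q / (2 * q)) q) ∧
      (∀ q, δ ^ 2 ≤ q → Θ q = Real.log q / 2) ∧
      (∀ q, 0 ≤ q → q ≤ 1 → -Real.log (2 / δ) ≤ Θ q ∧ Θ q ≤ 0) := by
    intro v
    obtain ⟨ψ, ψ', ψ'', hψ⟩ := hST δ v hδ
    obtain ⟨Θ, h1, h2, h3⟩ := TH C0 δ v hδ hδ2 ψ ψ' ψ'' hψ
    exact ⟨ψ, ψ', ψ'', Θ, hψ, h1, h2, h3⟩
  choose ψ ψ' ψ'' Θ hψ hΘd hΘ1 hΘb using hex
  set e2 := eps2 δ with he2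
  have he2pos : 0 < e2 := eps2_pos δ
  have he2lt : e2 < δ := (eps2_lt δ hδ hδ2).1
  have hL : 0 < Real.log (2 / δ) := Real.log_pos (by rw [lt_div_iff₀ hδ]; linarith)
  set Cm := 2 * C0 / δ ^ 2 with hCm
  have hCm0 : 0 ≤ Cm := by positivity
  set C2 := 4 * C0 / e2 ^ 4 with hC2
  have hC20 : 0 ≤ C2 := by positivity
  refine ⟨Real.log (2 / δ) + 1,
    fun t => 2 * (9 / e2 * (250000 * Cm) * |t ^ (-(1 / 8) : ℝ)| + 3 * C2 / Real.sqrt t), Θ,
    by linarith, MID_eps_tendsto _ _, fun t => by positivity,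
    fun v => continuous_iff_continuousAt.2 fun q => (hΘd v q).continuousAt,
    fun v q h0 h1 => ?_, ?_⟩
  · have := hΘb v q h0 h1
    rw [abs_le]; constructor <;> linarith
  intro ρ a b F H e he he1
  obtain ⟨⟨Tx, Ty, hT, hTm⟩, ⟨mx, my, hm⟩, ⟨BT, hBT⟩, hmb, hmY⟩ := SRC H C0 _ _ _ (hψ ‖a 0‖)
  set v := ‖a 0‖ with hv
  have hm0 : ∀ p : ℝ × ℝ, -Real.log ρ < p.2 →
      0 ≤ 2 * ψ' v (‖hp a p‖ ^ 2) * ‖hp (Dz a) p‖ ^ 2 := by
    intro p _
    have := (hψ v).h1 (‖hp a p‖ ^ 2)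
    positivity
  have hma : ∀ p : ℝ × ℝ, 0 < p.2 →
      2 * ψ' v (‖hp a p‖ ^ 2) * ‖hp (Dz a) p‖ ^ 2 ≤ Cm * ‖hp (Dz a) p‖ ^ 2 := by
    intro p _
    have h1 := (hψ v).b1 (‖hp a p‖ ^ 2)
    have h2 := le_abs_self (ψ' v (‖hp a p‖ ^ 2))
    apply mul_le_mul_of_nonneg_right _ (by positivity)
    rw [hCm]
    calc 2 * ψ' v (‖hp a p‖ ^ 2) ≤ 2 * (C0 / δ ^ 2) := by linarith
      _ = 2 * C0 / δ ^ 2 := by ring
  have he₁ : 0 < e * e2 / 18 := by positivity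
  obtain ⟨σ, hσ, hσρ, X1, X1x, X1y, X2, X2x, X2y, hX1, hX2, hXm, hXb, hXY, hXpot⟩ :=
    FLOW H Cm hCm0 _ mx my hm hm0 hma hmb hmY (e * e2 / 18) he₁
  obtain ⟨φ, hφ, hφre, Bφ, hφB⟩ := PHI H C0 _ _ _ (Θ v) (hψ v) (hΘd v) σ hσ hσρ X1 X1x X1y X2 X2x X2y
    hX1 hX2 hXm hXY
  obtain ⟨s, s', s'', hs⟩ := hST e2 ‖b 0‖ he2pos
  obtain ⟨φ', φx, φy, G1x, G1y, G2, G2x, G2y, hφ', hG1, hG2, hφ're, hφ'b, hφ'e, hG2a, hG2b, hG2Y,
    Bφ', hBφ'⟩ := PH H C0 e2 he2pos he2lt (ψ v) (fun q hq => (hψ v).high q hq) (Θ v) (hΘ1 v)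
      s s' s'' hs σ hσ hσρ X1 X1x X1y X2 X2x X2y hX1 hX2 hXb φ hφ hφre Bφ hφB
  set Y := max (Real.log (16 / δ)) (Real.log (16 / e2)) with hYdef
  set G1 : ℝ × ℝ → ℂ := fun p => ((X1 p : ℂ) - Complex.I * X2 p) / (2 * hp b p) with hG1def
  have hG1Y : ∀ p : ℝ × ℝ, Y ≤ p.2 → G1 p = 0 := by
    intro p hp
    have := hXY p (le_trans (le_max_left _ _) hp)
    simp only [hG1def, this.1, this.2]
    simp
  have hG2Y' : ∀ p : ℝ × ℝ, Y ≤ p.2 → G2 p = 0 := fun p hp =>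
    hG2Y p (le_trans (le_max_right _ _) hp)
  obtain ⟨w, wx, wy, hw, hwG, Bw, hBw⟩ := DB σ hσ (fun p => G1 p + G2 p) _ _ (MID_add hG1 hG2) Y
    (fun p hp => by rw [hG1Y p hp, hG2Y' p hp, add_zero])
  have hσ2 : 0 < σ / 2 := by linarith
  refine ⟨σ / 2, φ', φx, φy, w, wx, wy, hσ2, by linarith, MID_mono hφ' (by linarith), hw,
    fun p hp => hφ're p (by linarith), ?_, ?_, ⟨max Bφ' Bw, fun p hp =>
      ⟨(hBφ' p hp).trans (le_max_left _ _), (hBw p hp).trans (le_max_right _ _)⟩⟩, ?_⟩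
  · intro p hp
    rw [hφ'b p (by linarith), hwG p hp]
    simp only [hG1def]; ring
  · intro p hp hb'
    have h1 := hφ'e p (by linarith) hb'
    have h2 := hXb p (by linarith) (by linarith)
    refine ⟨h1.1, ?_⟩
    rw [hwG p hp, h1.2]
    simp only [hG1def, h2.1, h2.2]
    simp
  · intro t ht f k ρ' hρ' hf hf0 hkc hk hfk
    set I := ∫ x in Set.Ioc 0 (2 * Real.pi), ‖k (E (x, 0))‖ ^ 2 with hI
    have hI0 : 0 ≤ I := integral_nonneg fun x => by positivity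
    -- the two area estimates
    have hη0 : 0 ≤ 250000 * Cm * t ^ (-(1 / 8) : ℝ) + e * e2 / 18 := by positivity
    have est1 := GE H σ hσ e2 he2pos X1 X1x X1y X2 X2x X2y hX1 hX2 hXb _ hXY t ht
      (250000 * Cm * t ^ (-(1 / 8) : ℝ) + e * e2 / 18) hη0 (fun z hz => hXpot t ht z hz)
      f k ρ' hρ' hf hkc hk hfk
    have he21 : e2 ≤ 1 := by linarith
    have hC2a : 4 * C0 / e2 ^ 2 ≤ C2 := by
      rw [hC2]
      apply div_le_div_of_nonneg_left (by positivity) (by positivity)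
      exact pow_le_pow_of_le_one he2pos.le he21 (by norm_num)
    have est2 := WO H σ hσ G2 G2x G2y hG2 Y hG2Y' C2 hC20
      (fun p hp => (hG2a p hp).trans (mul_le_mul_of_nonneg_right hC2a (norm_nonneg _)))
      (fun p hp => (hG2b p hp).trans (le_of_eq (by rw [hC2]; ring)))
      f k ρ' hρ' hf hkc hk t ht hfk
    -- Stokes
    set τ := min (σ / 2) (Real.log ρ') with hτ
    have hlρ' : 0 < Real.log ρ' := Real.log_pos hρ'
    have hτ0 : 0 < τ := lt_min hσ2 hlρ'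
    have hfC : C1 τ (hp f) (hp (Dz f)) (fun p => Complex.I * hp (Dz f) p) :=
      MID_mono (C1_hp (by linarith) hf) (min_le_right _ _)
    have hwC : C1 τ w wx wy := MID_mono hw (min_le_left _ _)
    have hu := MID_mul hwC hfC
    obtain ⟨Bf, hBf0, hBf⟩ := MID_norm_le_of_zero hρ' hf hf0
    have hBw0 : 0 ≤ Bw := (norm_nonneg _).trans (hBw (0, 0) le_rfl)
    have hub : ∀ p : ℝ × ℝ, 0 ≤ p.2 → ‖w p * hp f p‖ ≤ (Bw * Bf) * Real.exp (-p.2) := by
      intro p hp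
      rw [norm_mul]
      have h1 := hBw p hp
      have h2 := hBf (E p) (E_mem_closedBall hp)
      rw [norm_E] at h2
      calc ‖w p‖ * ‖Pool.H14.SR.hp f p‖ ≤ Bw * (Bf * Real.exp (-p.2)) :=
            mul_le_mul h1 h2 (norm_nonneg _) hBw0
        _ = _ := by ring
    have hdb : ∀ p : ℝ × ℝ, -(σ / 2) < p.2 →
        (1 / 2 : ℂ) * ((wx p * hp f p + w p * hp (Dz f) p)
          + Complex.I * (wy p * hp f p + w p * (Complex.I * hp (Dz f) p)))
        = (G1 p + G2 p) * hp f p := by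
      intro p hp
      have h1 := hwG p hp
      have h2 : (1 / 2 : ℂ) * ((wx p * Pool.H14.SR.hp f p + w p * Pool.H14.SR.hp (Dz f) p)
          + Complex.I * (wy p * Pool.H14.SR.hp f p + w p * (Complex.I * Pool.H14.SR.hp (Dz f) p)))
          = 1 / 2 * (wx p + Complex.I * wy p) * Pool.H14.SR.hp f p
            + 1 / 2 * (1 + Complex.I * Complex.I) * (w p * Pool.H14.SR.hp (Dz f) p) := by ring
      rw [h2, h1, Complex.I_mul_I]; ring
    have hcf : ContinuousOn (hp f) {p | -τ < p.2} := hfC.c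
    have hG1i : IntegrableOn (fun p => G1 p * hp f p) ST :=
      MID_integrableOn_ST (Y := Y) hτ0 ((hG1.c.mono (fun p (hp : -τ < p.2) => show -σ < p.2 by
        have : τ ≤ σ / 2 := min_le_left _ _
        linarith)).mul hcf)
        (fun p hp => by simp only [hG1Y p hp, zero_mul])
    have hG2i : IntegrableOn (fun p => G2 p * hp f p) ST :=
      MID_integrableOn_ST (Y := Y) hτ0 ((hG2.c.mono (fun p (hp : -τ < p.2) => show -σ < p.2 by
        have : τ ≤ σ / 2 := min_le_left _ _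
        linarith)).mul hcf)
        (fun p hp => by simp only [hG2Y' p hp, zero_mul])
    have hSTm : MeasurableSet ST := by
      unfold ST
      exact (measurableSet_Ioc.preimage measurable_fst).inter
        (measurableSet_lt measurable_const measurable_snd)
    have hcong : ∀ p ∈ ST, (1 / 2 : ℂ) * ((wx p * hp f p + w p * hp (Dz f) p)
          + Complex.I * (wy p * hp f p + w p * (Complex.I * hp (Dz f) p)))
        = G1 p * hp f p + G2 p * hp f p := by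
      intro p hp
      rw [hdb p (by have := hp.2; linarith)]; ring
    have hint : IntegrableOn (fun p => (1 / 2 : ℂ) * ((wx p * hp f p + w p * hp (Dz f) p)
          + Complex.I * (wy p * hp f p + w p * (Complex.I * hp (Dz f) p)))) ST :=
      (hG1i.add hG2i).congr_fun (fun p hp => (hcong p hp).symm) hSTm
    have hstk := STK τ hτ0 _ _ _ hu (Bw * Bf) hub hint
    have hsum : ∫ p in ST, (1 / 2 : ℂ) * ((wx p * hp f p + w p * hp (Dz f) p)
          + Complex.I * (wy p * hp f p + w p * (Complex.I * hp (Dz f) p)))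
        = (∫ p in ST, G1 p * hp f p) + ∫ p in ST, G2 p * hp f p := by
      rw [← integral_add hG1i hG2i]
      exact setIntegral_congr_fun hSTm hcong
    have hfin : ∫ x in Set.Ioc 0 (2 * Real.pi), w (x, 0) * f (E (x, 0))
        = 2 * Complex.I * ((∫ p in ST, G1 p * hp f p) + ∫ p in ST, G2 p * hp f p) := by
      rw [← hsum, ← hstk]; rfl
    rw [hfin, norm_mul, norm_mul, Complex.norm_I]
    have hn2 : ‖(2 : ℂ)‖ = 2 := by simp
    rw [hn2, mul_one]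
    have habs : |t ^ (-(1 / 8) : ℝ)| = t ^ (-(1 / 8) : ℝ) := abs_of_nonneg (by positivity)
    calc 2 * ‖(∫ p in ST, G1 p * hp f p) + ∫ p in ST, G2 p * hp f p‖
        ≤ 2 * (‖∫ p in ST, G1 p * hp f p‖ + ‖∫ p in ST, G2 p * hp f p‖) := by
          gcongr; exact norm_add_le _ _
      _ ≤ 2 * (9 / e2 * (250000 * Cm * t ^ (-(1 / 8) : ℝ) + e * e2 / 18) * I
            + 3 * C2 / Real.sqrt t * I) := by gcongr
      _ = (2 * (9 / e2 * (250000 * Cm) * |t ^ (-(1 / 8) : ℝ)| + 3 * C2 / Real.sqrt t) + e) * I := by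
          rw [habs]; field_simp; ring

end Pool.H14.SR
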