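import Pool.Agent.H14.SR.Basic
import Pool.Agent.H14.SR.MID
import Pool.Agent.H14.SR.MC
import Pool.Agent.H14.SR.KV
import Pool.Agent.H14.SR.DU
open MeasureTheory Set Filter Topology
noncomputable section
namespace Pool.H14.SR

theorem MAT_cont_E : Continuous (fun x : ℝ => E (x, 0)) :=
  continuous_E.comp (by fun_prop)

theorem MAT_E_mem (x : ℝ) : E (x, 0) ∈ Metric.closedBall (0 : ℂ) 1 := E_mem_closedBall le_rfl

theorem MAT_Hinf_of_cont {g : ℝ → ℂ} (hg : Continuous g) {B : ℝ} (hB : ∀ x, ‖g x‖ ≤ B) (ha : HA g) :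
    Hinf g := by
  refine ⟨?_, ha⟩
  exact MemLp.of_bound hg.aestronglyMeasurable B (Eventually.of_forall hB)

/-- boundary values of a function analytic on a larger disc -/
theorem MAT_Hinf_an {f : ℂ → ℂ} {ρ : ℝ} (hρ : 1 < ρ) (hf : DifferentiableOn ℂ f (Metric.ball 0 ρ)) :
    Hinf (fun x => f (E (x, 0))) := by
  have hfc : ContinuousOn f (Metric.closedBall 0 1) :=
    hf.continuousOn.mono (Metric.closedBall_subset_ball hρ)
  obtain ⟨B, hB0, hB⟩ := hp_bdd hfc
  have h1 := HA_of_analytic (Real.log ρ) (Real.log_pos hρ) (hp f) _ _ (C1_hp (by linarith) hf) B hB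
    (fun p _ => by
      have : hp (Dz f) p + Complex.I * (Complex.I * hp (Dz f) p)
          = (1 + Complex.I * Complex.I) * hp (Dz f) p := by ring
      rw [this, Complex.I_mul_I]; ring)
  refine MAT_Hinf_of_cont ?_ (B := B) (fun x => hB (x, 0) le_rfl) h1
  exact hfc.comp_continuous MAT_cont_E MAT_E_mem

/-- vector version of the main estimate -/
theorem MAT_vec {δ ρ : ℝ} {a b F : ℂ → ℂ} (H : Dat δ ρ a b F) (w : ℝ × ℝ → ℂ) (t A : ℝ)
    (hA : 0 ≤ A)
    (hest : ∀ (f k : ℂ → ℂ) (ρ' : ℝ), 1 < ρ' →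
          DifferentiableOn ℂ f (Metric.ball 0 ρ') → f 0 = 0 →
          ContinuousOn k (Metric.closedBall 0 1) → DifferentiableOn ℂ k (Metric.ball 0 1) →
          (∀ z ∈ Metric.closedBall (0 : ℂ) 1,
            ‖f z‖ ≤ Real.exp (-(t * OscD a b F z / 2)) * ‖k z‖ ^ 2) →
          ‖∫ x in Set.Ioc 0 (2 * Real.pi), w (x, 0) * f (E (x, 0))‖
            ≤ A * ∫ x in Set.Ioc 0 (2 * Real.pi), ‖k (E (x, 0))‖ ^ 2)
    (N : ℕ) (K : Fin N → ℂ → ℂ) (hK : ∀ i, DifferentiableOn ℂ (K i) (Metric.ball 0 ρ))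
    (hKO : ∀ z ∈ Metric.closedBall (0 : ℂ) 1,
      ∑ i, ‖K i z‖ ^ 2 ≤ Real.exp (-(t * OscD a b F z)))
    (p : Fin N → Polynomial ℂ) :
    ‖∫ x in Set.Ioc 0 (2 * Real.pi),
        w (x, 0) * ∑ i, K i (E (x, 0)) * (E (x, 0) * (p i).eval (E (x, 0)))‖
      ≤ A * ∫ x in Set.Ioc 0 (2 * Real.pi),
          Real.sqrt (∑ i, ‖E (x, 0) * (p i).eval (E (x, 0))‖ ^ 2) := by
  have hρ := H.hρ
  set f : ℂ → ℂ := fun z => ∑ i, K i z * (z * (p i).eval z) with hf
  have hfd : DifferentiableOn ℂ f (Metric.ball 0 ρ) := by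
    rw [hf]
    have : DifferentiableOn ℂ (∑ i, fun z => K i z * (z * (p i).eval z)) (Metric.ball 0 ρ) := by
      apply DifferentiableOn.sum
      intro i _
      exact (hK i).mul ((differentiable_id.mul (p i).differentiable).differentiableOn)
    refine this.congr (fun z _ => ?_)
    simp
  have hf0 : f 0 = 0 := by simp [hf]
  have hsc : Continuous (fun x : ℝ => Real.sqrt (∑ i, ‖E (x, 0) * (p i).eval (E (x, 0))‖ ^ 2)) := by
    apply Continuous.sqrt
    refine continuous_finsetSum _ (fun i _ => ?_)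
    exact ((MAT_cont_E.mul ((p i).continuous.comp MAT_cont_E)).norm).pow 2
  have key : ∀ s : ℝ, 0 < s →
      ‖∫ x in Set.Ioc 0 (2 * Real.pi), w (x, 0) * f (E (x, 0))‖
        ≤ A * ((∫ x in Set.Ioc 0 (2 * Real.pi),
          Real.sqrt (∑ i, ‖E (x, 0) * (p i).eval (E (x, 0))‖ ^ 2)) + s * (2 * Real.pi)) := by
    intro s hs
    obtain ⟨k, hkc, hkd, hk1, hk2⟩ := KV N (fun i => Polynomial.X * p i) s hs
    have h1 := hest f k ρ hρ hfd hf0 hkc hkd (by
      intro z hz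
      have e1 : ‖f z‖ ≤ ∑ i, ‖K i z‖ * ‖z * (p i).eval z‖ := by
        rw [hf]
        exact (norm_sum_le _ _).trans (le_of_eq (Finset.sum_congr rfl fun i _ => norm_mul _ _))
      have e2 : (∑ i, ‖K i z‖ * ‖z * (p i).eval z‖) ^ 2
          ≤ (∑ i, ‖K i z‖ ^ 2) * ∑ i, ‖z * (p i).eval z‖ ^ 2 :=
        Finset.sum_mul_sq_le_sq_mul_sq _ _ _
      have e3 : ∑ i, ‖z * (p i).eval z‖ ^ 2 ≤ ‖k z‖ ^ 4 := by
        have := hk1 z hz
        simpa [Polynomial.eval_mul] using this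
      have e4 : ‖f z‖ ^ 2 ≤ (Real.exp (-(t * OscD a b F z / 2)) * ‖k z‖ ^ 2) ^ 2 := by
        calc ‖f z‖ ^ 2 ≤ (∑ i, ‖K i z‖ * ‖z * (p i).eval z‖) ^ 2 := by
              gcongr
          _ ≤ (∑ i, ‖K i z‖ ^ 2) * ∑ i, ‖z * (p i).eval z‖ ^ 2 := e2
          _ ≤ Real.exp (-(t * OscD a b F z)) * ‖k z‖ ^ 4 := by
              gcongr
              exact hKO z hz
          _ = _ := by
              rw [mul_pow, ← Real.exp_nat_mul]
              congr 1
              · congr 1; push_cast; ring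
              · ring
      exact le_of_sq_le_sq e4 (by positivity) )
    refine h1.trans ?_
    gcongr
    have hkk : ∀ x : ℝ, ‖k (E (x, 0))‖ ^ 2
        = Real.sqrt ((∑ i, ‖E (x, 0) * (p i).eval (E (x, 0))‖ ^ 2) + s ^ 2) := by
      intro x
      rw [← Real.sqrt_sq (show (0 : ℝ) ≤ ‖k (E (x, 0))‖ ^ 2 by positivity)]
      congr 1
      have := hk2 x
      simp only [Polynomial.eval_mul, Polynomial.eval_X] at this
      rw [← this]; ring
    simp_rw [hkk]
    have hle : ∀ x : ℝ, Real.sqrt ((∑ i, ‖E (x, 0) * (p i).eval (E (x, 0))‖ ^ 2) + s ^ 2)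
        ≤ Real.sqrt (∑ i, ‖E (x, 0) * (p i).eval (E (x, 0))‖ ^ 2) + s := by
      intro x
      have h0 : 0 ≤ ∑ i, ‖E (x, 0) * (p i).eval (E (x, 0))‖ ^ 2 :=
        Finset.sum_nonneg fun i _ => by positivity
      refine Real.sqrt_le_iff.2 ⟨by positivity, ?_⟩
      have := Real.sq_sqrt h0
      nlinarith [Real.sqrt_nonneg (∑ i, ‖E (x, 0) * (p i).eval (E (x, 0))‖ ^ 2)]
    have hi1 : IntegrableOn (fun x : ℝ =>
        Real.sqrt ((∑ i, ‖E (x, 0) * (p i).eval (E (x, 0))‖ ^ 2) + s ^ 2))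
        (Set.Ioc 0 (2 * Real.pi)) := by
      apply Continuous.integrableOn_Ioc
      apply Continuous.sqrt
      refine (continuous_finsetSum _ (fun i _ => ?_)).add continuous_const
      exact ((MAT_cont_E.mul ((p i).continuous.comp MAT_cont_E)).norm).pow 2
    have hi2 : IntegrableOn (fun x : ℝ =>
        Real.sqrt (∑ i, ‖E (x, 0) * (p i).eval (E (x, 0))‖ ^ 2)) (Set.Ioc 0 (2 * Real.pi)) :=
      hsc.integrableOn_Ioc
    have hi3 : IntegrableOn (fun _ : ℝ => s) (Set.Ioc 0 (2 * Real.pi)) :=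
      continuous_const.integrableOn_Ioc
    calc _ ≤ ∫ x in Set.Ioc 0 (2 * Real.pi),
          (Real.sqrt (∑ i, ‖E (x, 0) * (p i).eval (E (x, 0))‖ ^ 2) + s) :=
          setIntegral_mono hi1 (hi2.add hi3) hle
      _ = _ := by
          rw [integral_add hi2 hi3]
          congr 1
          rw [setIntegral_const]
          simp [Real.pi_pos.le]
          ring
  refine le_of_forall_pos_le_add (fun η hη => ?_)
  have hπ := Real.pi_pos
  have := key (η / ((A + 1) * (2 * Real.pi))) (by positivity)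
  refine this.trans ?_
  have e1 : A * (η / ((A + 1) * (2 * Real.pi)) * (2 * Real.pi)) ≤ η := by
    have : A * (η / ((A + 1) * (2 * Real.pi)) * (2 * Real.pi)) = A / (A + 1) * η := by
      field_simp
    rw [this]
    have : A / (A + 1) ≤ 1 := by rw [div_le_one (by linarith)]; linarith
    nlinarith
  linarith

/-- **(MAT)** Main analytic theorem. -/
theorem MAT (δ : ℝ) (hδ : 0 < δ) (hδ2 : δ ≤ 1 / 2) :
    ∃ (C : ℝ) (ε : ℝ → ℝ) (Θ : ℝ → ℝ → ℝ), 0 < C ∧ Tendsto ε atTop (𝓝 0) ∧ (∀ t, 0 ≤ ε t) ∧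
      (∀ v, Continuous (Θ v)) ∧ (∀ v q, 0 ≤ q → q ≤ 1 → |Θ v q| ≤ C) ∧
      ∀ (ρ : ℝ) (a b F : ℂ → ℂ), Dat δ ρ a b F → ∀ e : ℝ, 0 < e → e ≤ 1 →
      ∃ φ w c : ℝ → ℂ, Continuous φ ∧ MemLp w ⊤ mu ∧ BD w C ∧ Hinf c ∧ BD c C ∧
        (∀ x, (φ x).re = Θ ‖a 0‖ (‖a (E (x, 0))‖ ^ 2)) ∧
        HA (fun x => φ x - b (E (x, 0)) * w x) ∧
        (∀ᵐ x ∂mu, Complex.exp (φ x - b (E (x, 0)) * w x)
          = a (E (x, 0)) + b (E (x, 0)) * c x) ∧
        ∀ t : ℝ, 1 ≤ t → ∀ (N : ℕ) (K : Fin N → ℂ → ℂ),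
          (∀ i, DifferentiableOn ℂ (K i) (Metric.ball 0 ρ)) →
          (∀ z ∈ Metric.closedBall (0 : ℂ) 1,
            ∑ i, ‖K i z‖ ^ 2 ≤ Real.exp (-(t * OscD a b F z))) →
          ∀ p : Fin N → Polynomial ℂ,
          ‖∫ x in Set.Ioc 0 (2 * Real.pi),
              ∑ i, w x * K i (E (x, 0)) * (E (x, 0) * (p i).eval (E (x, 0)))‖
            ≤ (ε t + e) * ∫ x in Set.Ioc 0 (2 * Real.pi),
                Real.sqrt (∑ i, ‖E (x, 0) * (p i).eval (E (x, 0))‖ ^ 2) := by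
  obtain ⟨C₀, ε, Θ, hC₀, hε, hε0, hΘc, hΘb, key⟩ := MID δ hδ hδ2
  set C₁ := Real.exp 1 * (ε 1 + 1) with hC₁
  have hC₁0 : 0 ≤ C₁ := by have := hε0 1; positivity
  set M := max C₀ C₁ with hM
  have hM0 : 0 < M := lt_of_lt_of_le hC₀ (le_max_left _ _)
  have he2 : 0 < eps2 δ := eps2_pos δ
  set Cc := (Real.exp (2 * M) + 1) / (eps2 δ / 2) + M * Real.exp M with hCc
  have hCc0 : 0 ≤ Cc := by positivity
  refine ⟨M + Cc, ε, Θ, by linarith, hε, hε0, hΘc, fun v q h0 h1 => (hΘb v q h0 h1).trans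
    ((le_max_left _ _).trans (by linarith)), ?_⟩
  intro ρ a b F H e he he1
  obtain ⟨σ, φ, φx, φy, w, wx, wy, hσ, hσρ, hφ, hw, hφre, hφw, hφe, ⟨B, hB⟩, hest⟩ :=
    key ρ a b F H e he he1
  have hρ := H.hρ
  have hcts : ∀ {u ux uy : ℝ × ℝ → ℂ}, C1 σ u ux uy → Continuous (fun x : ℝ => u (x, 0)) := by
    intro u ux uy hu
    exact hu.c.comp_continuous (by fun_prop) (fun x => show -σ < (0 : ℝ) by linarith)
  have hwc : Continuous (fun x : ℝ => w (x, 0)) := hcts hw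
  have hwB : ∀ x : ℝ, ‖w (x, 0)‖ ≤ B := fun x => (hB (x, 0) le_rfl).2
  -- vector estimates
  have hvec : ∀ t : ℝ, 1 ≤ t → ∀ (N : ℕ) (K : Fin N → ℂ → ℂ),
      (∀ i, DifferentiableOn ℂ (K i) (Metric.ball 0 ρ)) →
      (∀ z ∈ Metric.closedBall (0 : ℂ) 1,
        ∑ i, ‖K i z‖ ^ 2 ≤ Real.exp (-(t * OscD a b F z))) →
      ∀ p : Fin N → Polynomial ℂ,
      ‖∫ x in Set.Ioc 0 (2 * Real.pi),
          w (x, 0) * ∑ i, K i (E (x, 0)) * (E (x, 0) * (p i).eval (E (x, 0)))‖
        ≤ (ε t + e) * ∫ x in Set.Ioc 0 (2 * Real.pi),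
            Real.sqrt (∑ i, ‖E (x, 0) * (p i).eval (E (x, 0))‖ ^ 2) := by
    intro t ht N K hK hKO p
    exact MAT_vec H w t (ε t + e) (by have := hε0 t; linarith)
      (fun f k ρ' h1 h2 h3 h4 h5 h6 => hest t ht f k ρ' h1 h2 h3 h4 h5 h6) N K hK hKO p
  -- duality
  have hO2 : ∀ z ∈ Metric.closedBall (0 : ℂ) 1, OscD a b F z ≤ 2 := by
    intro z hz
    have h1 := H.hO2 z (Metric.closedBall_subset_ball hρ hz)
    unfold OscD
    nlinarith [sq_nonneg ‖a z‖, sq_nonneg ‖b z‖]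
  have hdu := DU 1 (fun x _ => w (x, 0)) (fun _ => by
      exact (MemLp.of_bound hwc.aestronglyMeasurable B (Eventually.of_forall hwB) : MemLp _ 2 mu))
    C₁ hC₁0 (by
      intro p
      have h1 := hvec 1 le_rfl 1 (fun _ _ => ((Real.exp (-1) : ℝ) : ℂ))
        (fun _ => differentiableOn_const _) (by
          intro z hz
          have := hO2 z hz
          simp only [Finset.univ_unique, Finset.sum_const, Finset.card_singleton, one_smul]
          rw [Complex.norm_real, Real.norm_of_nonneg (Real.exp_pos _).le, ← Real.exp_nat_mul]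
          apply Real.exp_le_exp.2
          push_cast; linarith) p
      have h2 : ∀ x : ℝ, w (x, 0) * ∑ i, ((Real.exp (-1) : ℝ) : ℂ) * (E (x, 0) * (p i).eval (E (x, 0)))
          = ((Real.exp (-1) : ℝ) : ℂ) * ∑ i, w (x, 0) * (E (x, 0) * (p i).eval (E (x, 0))) := by
        intro x
        simp only [Finset.univ_unique, Finset.sum_singleton]; ring
      simp_rw [h2] at h1
      rw [integral_const_mul, norm_mul, Complex.norm_real, Real.norm_of_nonneg (Real.exp_pos _).le] at h1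
      have h3 : 0 ≤ ∫ x in Set.Ioc 0 (2 * Real.pi),
          Real.sqrt (∑ i, ‖E (x, 0) * (p i).eval (E (x, 0))‖ ^ 2) :=
        integral_nonneg fun x => Real.sqrt_nonneg _
      set I := ∫ x in Set.Ioc 0 (2 * Real.pi),
          Real.sqrt (∑ i, ‖E (x, 0) * (p i).eval (E (x, 0))‖ ^ 2)
      set J := ‖∫ x in Set.Ioc 0 (2 * Real.pi), ∑ i, w (x, 0) * (E (x, 0) * (p i).eval (E (x, 0)))‖
      have h4 : J = Real.exp 1 * (Real.exp (-1) * J) := by
        rw [← mul_assoc, ← Real.exp_add]; simp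
      rw [h4, hC₁]
      calc Real.exp 1 * (Real.exp (-1) * J) ≤ Real.exp 1 * ((ε 1 + e) * I) := by gcongr
        _ ≤ Real.exp 1 * ((ε 1 + 1) * I) := by gcongr
        _ = _ := by ring)
  obtain ⟨g', hg', hg'C⟩ := hdu
  set g : ℝ → ℂ := fun x => g' x 0 with hg
  have hwg : BD (fun x => w (x, 0) - g x) C₁ := by
    filter_upwards [hg'C] with x hx
    simp only [Finset.univ_unique, Finset.sum_singleton] at hx
    exact (abs_le_of_sq_le_sq' hx hC₁0).2
  have hgi : Hinf g := by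
    refine ⟨?_, (hg' 0).ha⟩
    refine MemLp.of_bound (hg' 0).mem.1 (C₁ + B) ?_
    filter_upwards [hwg] with x hx
    have : g x = w (x, 0) - (w (x, 0) - g x) := by ring
    rw [this]
    exact (norm_sub_le _ _).trans (by linarith [hwB x])
  have hre : ∀ x : ℝ, |(φ (x, 0)).re| ≤ M := by
    intro x
    rw [hφre (x, 0) (by show -σ < 0; linarith)]
    refine (hΘb _ _ (by positivity) ?_).trans (le_max_left _ _)
    have := H.ha1 (E (x, 0)) (Metric.closedBall_subset_ball hρ (MAT_E_mem x))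
    exact pow_le_one₀ (norm_nonneg _) this
  obtain ⟨hHA, c, hc, hcB, hce⟩ := MC ρ hρ a b H.ha H.hb H.ha1 H.hb1 (eps2 δ / 2) (by linarith) σ hσ hσρ
    φ φx φy w wx wy hφ hw hφw hφe B hB M hM0.le hre g hgi (by
      filter_upwards [hwg] with x hx
      exact hx.trans (le_max_right _ _))
  refine ⟨fun x => φ (x, 0), fun x => w (x, 0) - g x, c, hcts hφ, ?_, ?_, hc, ?_, ?_, hHA, hce, ?_⟩
  · exact (MemLp.of_bound hwc.aestronglyMeasurable B (Eventually.of_forall hwB)).sub hgi.mem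
  · filter_upwards [hwg] with x hx
    exact hx.trans ((le_max_right _ _).trans (by linarith))
  · filter_upwards [hcB] with x hx
    exact hx.trans (by linarith)
  · intro x
    exact hφre (x, 0) (by show -σ < 0; linarith)
  · intro t ht N K hK hKO p
    have h1 := hvec t ht N K hK hKO p
    set f1 : ℂ → ℂ := fun z => ∑ i, K i z * (p i).eval z with hf1
    have hf1d : DifferentiableOn ℂ f1 (Metric.ball 0 ρ) := by
      have : DifferentiableOn ℂ (∑ i, fun z => K i z * (p i).eval z) (Metric.ball 0 ρ) := by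
        apply DifferentiableOn.sum
        intro i _
        exact (hK i).mul ((p i).differentiable.differentiableOn)
      refine this.congr (fun z _ => ?_)
      simp [hf1]
    have hf1i := MAT_Hinf_an hρ hf1d
    have hgf := (Hinf.mul hgi hf1i).ha 0
    have hf1c : Continuous (fun x : ℝ => f1 (E (x, 0))) :=
      (hf1d.continuousOn.mono (Metric.closedBall_subset_ball hρ)).comp_continuous MAT_cont_E MAT_E_mem
    have e1 : ∀ x : ℝ, ∑ i, (w (x, 0) - g x) * K i (E (x, 0)) * (E (x, 0) * (p i).eval (E (x, 0)))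
        = w (x, 0) * (∑ i, K i (E (x, 0)) * (E (x, 0) * (p i).eval (E (x, 0))))
          - Complex.exp ((((0 : ℕ) : ℂ) + 1) * Complex.I * (x : ℂ)) * (g x * f1 (E (x, 0))) := by
      intro x
      have hE : Complex.exp ((((0 : ℕ) : ℂ) + 1) * Complex.I * (x : ℂ)) = E (x, 0) := by
        rw [E_zero]; simp
      rw [hE]
      simp only [hf1, Finset.mul_sum, ← Finset.sum_sub_distrib]
      refine Finset.sum_congr rfl (fun i _ => ?_)
      ring
    have hi1 : IntegrableOn (fun x : ℝ =>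
        w (x, 0) * (∑ i, K i (E (x, 0)) * (E (x, 0) * (p i).eval (E (x, 0)))))
        (Set.Ioc 0 (2 * Real.pi)) := by
      apply Continuous.integrableOn_Ioc
      refine hwc.mul (continuous_finsetSum _ (fun i _ => ?_))
      exact (((hK i).continuousOn.mono (Metric.closedBall_subset_ball hρ)).comp_continuous
        MAT_cont_E MAT_E_mem).mul (MAT_cont_E.mul ((p i).continuous.comp MAT_cont_E))
    have hi2 : IntegrableOn (fun x : ℝ =>
        Complex.exp ((((0 : ℕ) : ℂ) + 1) * Complex.I * (x : ℂ)) * (g x * f1 (E (x, 0))))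
        (Set.Ioc 0 (2 * Real.pi)) := by
      have h2 : MemLp (fun x => g x * f1 (E (x, 0))) ⊤ mu := (Hinf.mul hgi hf1i).mem
      have h3 : Integrable (fun x => g x * f1 (E (x, 0))) mu := h2.integrable (by simp)
      have h4 := h3.bdd_mul (c := 1)
        (f := fun x : ℝ => Complex.exp ((((0 : ℕ) : ℂ) + 1) * Complex.I * (x : ℂ)))
        (by fun_prop) (Eventually.of_forall fun x => by
          rw [Complex.norm_exp]; simp)
      exact h4
    simp_rw [e1]
    rw [integral_sub hi1 hi2, hgf, sub_zero]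
    exact h1

end Pool.H14.SR
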