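import Pool.Agent.H14.SR.Basic
import Pool.Agent.H14.SR.HB
open MeasureTheory Set Filter Topology
noncomputable section
namespace Pool.H14.SR

namespace WLaux

open scoped ENNReal InnerProductSpace

theorem integrable_Lp2 (h : Lp ℂ 2 mu) : Integrable (fun x => h x) mu :=
  (Lp.memLp h).integrable (by norm_num)

/-- The `L¹` norm on `L²`. -/
def sn (h : Lp ℂ 2 mu) : ℝ := ∫ x, ‖h x‖ ∂mu

theorem sn_le (h : Lp ℂ 2 mu) : sn h ≤ ((mu univ ^ (1 / 2 : ℝ)).toReal) * ‖h‖ := by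
  have h1 := eLpNorm_le_eLpNorm_mul_rpow_measure_univ (μ := mu) (p := 1) (q := 2)
    (by norm_num) (Lp.aestronglyMeasurable h)
  have h2 : sn h = (eLpNorm h 1 mu).toReal := by
    rw [sn, integral_norm_eq_lintegral_enorm (Lp.aestronglyMeasurable h),
      eLpNorm_one_eq_lintegral_enorm]
  rw [h2, Lp.norm_def, mul_comm, ← ENNReal.toReal_mul]
  apply ENNReal.toReal_mono
  · apply ENNReal.mul_ne_top (Lp.eLpNorm_ne_top h)
    exact ENNReal.rpow_ne_top_of_nonneg (by norm_num) (measure_ne_top _ _)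
  · refine h1.trans (le_of_eq ?_)
    congr 2
    norm_num

/-- A functional bounded by the `L¹` norm is represented by a bounded function. -/
theorem riesz_bd (Λ : StrongDual ℂ (Lp ℂ 2 mu)) (C : ℝ) (hC : 0 ≤ C)
    (hΛ : ∀ h, ‖Λ h‖ ≤ C * sn h) :
    ∃ r : Lp ℂ 2 mu, (∀ h, ⟪r, h⟫_ℂ = Λ h) ∧ ∀ᵐ x ∂mu, ‖r x‖ ≤ C := by
  set r : Lp ℂ 2 mu := (InnerProductSpace.toDual ℂ (Lp ℂ 2 mu)).symm Λ with hr
  have hrΛ : ∀ h, ⟪r, h⟫_ℂ = Λ h := fun h => InnerProductSpace.toDual_symm_apply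
  have htest : ∀ ξ : ℂ, ∀ᵐ x ∂mu, RCLike.re (⟪ξ, r x⟫_ℂ) ≤ C * ‖ξ‖ := by
    intro ξ
    have hint : Integrable (fun x => ⟪ξ, r x⟫_ℂ) mu := (integrable_Lp2 r).const_inner ξ
    refine ae_le_of_forall_setIntegral_le hint.re (integrable_const _) ?_
    intro A hA hmA
    have h1 := hΛ (indicatorConstLp 2 hA hmA.ne ξ)
    rw [← hrΛ, ← inner_conj_symm, RCLike.norm_conj,
      L2.inner_indicatorConstLp_eq_setIntegral_inner] at h1
    have h2 : sn (indicatorConstLp 2 hA hmA.ne ξ) = ‖ξ‖ * mu.real A := by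
      rw [sn]
      have h3 : ∫ x, ‖(indicatorConstLp 2 hA hmA.ne ξ : Lp ℂ 2 mu) x‖ ∂mu =
          ∫ x, A.indicator (fun _ => ‖ξ‖) x ∂mu := by
        refine integral_congr_ae ?_
        filter_upwards [indicatorConstLp_coeFn (p := 2) (hs := hA) (hμs := hmA.ne) (c := ξ)]
          with x hx
        rw [hx, norm_indicator_eq_indicator_norm]
      rw [h3, integral_indicator hA, setIntegral_const, smul_eq_mul, mul_comm]
    have h3 : ‖∫ x in A, ⟪ξ, r x⟫_ℂ ∂mu‖ ≤ C * (‖ξ‖ * mu.real A) := by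
      rw [← h2]; exact h1
    rw [setIntegral_const, smul_eq_mul]
    have h4 : ∫ x in A, RCLike.re (⟪ξ, r x⟫_ℂ) ∂mu = RCLike.re (∫ x in A, ⟪ξ, r x⟫_ℂ ∂mu) :=
      integral_re hint.integrableOn
    rw [h4]
    calc RCLike.re (∫ x in A, ⟪ξ, r x⟫_ℂ ∂mu) ≤ ‖∫ x in A, ⟪ξ, r x⟫_ℂ ∂mu‖ := RCLike.re_le_norm _
      _ ≤ C * (‖ξ‖ * mu.real A) := h3
      _ = mu.real A * (C * ‖ξ‖) := by ring
  refine ⟨r, hrΛ, ?_⟩
  have h1 : ∀ᵐ x ∂mu, ∀ n : ℕ, RCLike.re (⟪TopologicalSpace.denseSeq ℂ n, r x⟫_ℂ) ≤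
      C * ‖TopologicalSpace.denseSeq ℂ n‖ := ae_all_iff.2 fun n => htest _
  filter_upwards [h1] with x hx
  have h2 : ∀ ξ : ℂ, RCLike.re (⟪ξ, r x⟫_ℂ) ≤ C * ‖ξ‖ := by
    intro ξ
    refine (TopologicalSpace.denseRange_denseSeq ℂ).induction_on ξ ?_ hx
    exact isClosed_le (RCLike.continuous_re.comp (continuous_id.inner continuous_const))
      (continuous_const.mul continuous_norm)
  have h3 := h2 (r x)
  rw [inner_self_eq_norm_sq] at h3
  by_contra hcon
  push Not at hcon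
  have h4 : 0 < ‖r x‖ := lt_of_le_of_lt hC hcon
  nlinarith

theorem integrable_mul {f h : ℝ → ℂ} {C : ℝ} (hf : AEStronglyMeasurable f mu) (hb : BD f C)
    (hh : Integrable h mu) : Integrable (fun x => f x * h x) mu :=
  hh.bdd_mul hf hb

theorem norm_integral_le {f h : ℝ → ℂ} {C : ℝ} (hb : BD f C)
    (hh : Integrable h mu) : ‖∫ x, f x * h x ∂mu‖ ≤ C * ∫ x, ‖h x‖ ∂mu := by
  rw [← integral_const_mul]
  refine norm_integral_le_of_norm_le (hh.norm.const_mul C) ?_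
  filter_upwards [hb] with x hx
  rw [norm_mul]
  exact mul_le_mul_of_nonneg_right hx (norm_nonneg _)

theorem sq_integral_le {w : ℝ → ℝ} (hw : MemLp w 2 mu) :
    (∫ x, w x ∂mu) ^ 2 ≤ mu.real univ * ∫ x, (w x) ^ 2 ∂mu := by
  have h1 : Integrable w mu := hw.integrable (by norm_num)
  have h2 : Integrable (fun x => (w x) ^ 2) mu := hw.integrable_sq
  have key : ∀ m : ℝ, 0 ≤ (∫ x, (w x) ^ 2 ∂mu) - 2 * m * (∫ x, w x ∂mu) + m ^ 2 * mu.real univ := by
    intro m
    have h3 : 0 ≤ ∫ x, (w x - m) ^ 2 ∂mu := integral_nonneg fun x => sq_nonneg _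
    have h4 : ∫ x, (w x - m) ^ 2 ∂mu =
        (∫ x, (w x) ^ 2 ∂mu) - 2 * m * (∫ x, w x ∂mu) + m ^ 2 * mu.real univ := by
      have e : ∀ x, (w x - m) ^ 2 = (w x) ^ 2 - 2 * m * w x + m ^ 2 := fun x => by ring
      simp only [e]
      have e1 : ∫ x, (w x ^ 2 - 2 * m * w x + m ^ 2) ∂mu =
          ∫ x, (w x ^ 2 - 2 * m * w x) ∂mu + ∫ _x, m ^ 2 ∂mu :=
        integral_add (h2.sub (h1.const_mul _)) (integrable_const _)
      have e2 : ∫ x, (w x ^ 2 - 2 * m * w x) ∂mu = ∫ x, w x ^ 2 ∂mu - ∫ x, 2 * m * w x ∂mu :=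
        integral_sub h2 (h1.const_mul _)
      rw [e1, e2, integral_const_mul, integral_const, smul_eq_mul]
      ring
    rw [← h4]; exact h3
  by_cases h0 : mu.real univ = 0
  · have h5 : mu = 0 := by
      rw [← Measure.measure_univ_eq_zero]
      rcases (ENNReal.toReal_eq_zero_iff _).1 h0 with h | h
      · exact h
      · exact absurd h (measure_ne_top _ _)
    simp [h5]
  · have h5 : 0 < mu.real univ := lt_of_le_of_ne measureReal_nonneg (Ne.symm h0)
    have h6 := key ((∫ x, w x ∂mu) / mu.real univ)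
    have h7 : (∫ x, (w x) ^ 2 ∂mu) - 2 * ((∫ x, w x ∂mu) / mu.real univ) * (∫ x, w x ∂mu) +
        ((∫ x, w x ∂mu) / mu.real univ) ^ 2 * mu.real univ =
        (∫ x, (w x) ^ 2 ∂mu) - (∫ x, w x ∂mu) ^ 2 / mu.real univ := by
      field_simp
      ring
    rw [h7, sub_nonneg, div_le_iff₀ h5] at h6
    linarith

end WLaux

open scoped ENNReal InnerProductSpace in
open WLaux in
/-- **(WL)** Weak limits along an ultrafilter: if `|f_n| ≤ C` a.e. for every `n`, there is `g`, `|g| ≤ C` a.e., with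
`∫ f_n h → ∫ g h` along `U` for every `h ∈ L²`.
(The functional `h ↦ lim_U ∫ f_n h` on `L²(mu;ℂ)` is bounded, Riesz; `|g| ≤ C` by testing with indicators times
unimodular constants from a countable dense set.) -/
theorem WL (U : Ultrafilter ℕ) (f : ℕ → ℝ → ℂ) (C : ℝ) (hC : 0 ≤ C)
    (hf : ∀ n, AEStronglyMeasurable (f n) mu) (hb : ∀ n, BD (f n) C) :
    ∃ g : ℝ → ℂ, MemLp g ⊤ mu ∧ BD g C ∧ ∀ h : ℝ → ℂ, MemLp h 2 mu →
      Tendsto (fun n => ∫ x in Set.Ioc 0 (2 * Real.pi), f n x * h x) U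
        (𝓝 (∫ x in Set.Ioc 0 (2 * Real.pi), g x * h x)) := by
  have hbd : ∀ (h : Lp ℂ 2 mu) n, ‖∫ x, f n x * h x ∂mu‖ ≤ C * sn h := fun h n =>
    norm_integral_le (hb n) (integrable_Lp2 h)
  have hlim : ∀ h : Lp ℂ 2 mu, ∃ l : ℂ, Tendsto (fun n => ∫ x, f n x * h x ∂mu) U (𝓝 l) ∧
      ‖l‖ ≤ C * sn h := by
    intro h
    have h1 : ((U.map (fun n => ∫ x, f n x * h x ∂mu) : Ultrafilter ℂ) : Filter ℂ) ≤
        𝓟 (Metric.closedBall 0 (C * sn h)) := by
      rw [le_principal_iff]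
      exact Filter.mem_map.2 (Filter.univ_mem' fun n => mem_closedBall_zero_iff.2 (hbd h n))
    obtain ⟨l, hl1, hl2⟩ := (isCompact_closedBall (0 : ℂ) (C * sn h)).ultrafilter_le_nhds _ h1
    exact ⟨l, hl2, mem_closedBall_zero_iff.1 hl1⟩
  choose L hL1 hL2 using hlim
  set Ll : Lp ℂ 2 mu →ₗ[ℂ] ℂ :=
    { toFun := L
      map_add' := by
        intro h k
        refine tendsto_nhds_unique (hL1 (h + k)) ?_
        have h1 := (hL1 h).add (hL1 k)
        refine h1.congr fun n => ?_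
        rw [← integral_add (integrable_mul (hf n) (hb n) (integrable_Lp2 h))
          (integrable_mul (hf n) (hb n) (integrable_Lp2 k))]
        refine integral_congr_ae ?_
        filter_upwards [Lp.coeFn_add h k] with x hx
        rw [hx, Pi.add_apply, mul_add]
      map_smul' := by
        intro c h
        refine tendsto_nhds_unique (hL1 (c • h)) ?_
        have h1 := (hL1 h).const_smul c
        refine h1.congr fun n => ?_
        rw [← integral_smul]
        refine integral_congr_ae ?_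
        filter_upwards [Lp.coeFn_smul c h] with x hx
        rw [hx, Pi.smul_apply, smul_eq_mul, smul_eq_mul]
        ring } with hLl
  set Λ : StrongDual ℂ (Lp ℂ 2 mu) := Ll.mkContinuous (C * (mu univ ^ (1 / 2 : ℝ)).toReal) (by
    intro h
    refine (hL2 h).trans ?_
    rw [mul_assoc]
    exact mul_le_mul_of_nonneg_left (sn_le h) hC) with hΛ
  obtain ⟨r, hr1, hr2⟩ := riesz_bd Λ C hC (fun h => hL2 h)
  have hrm : AEStronglyMeasurable (fun x => starRingEnd ℂ (r x)) mu :=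
    Complex.continuous_conj.comp_aestronglyMeasurable (Lp.aestronglyMeasurable r)
  have hrb : BD (fun x => starRingEnd ℂ (r x)) C := by
    unfold BD
    filter_upwards [hr2] with x hx
    rw [RCLike.norm_conj]; exact hx
  refine ⟨fun x => starRingEnd ℂ (r x), memLp_top_of_bound hrm C hrb, hrb, fun h hh => ?_⟩
  have h1 := hL1 hh.toLp
  have h2 : L hh.toLp = ∫ x in Set.Ioc 0 (2 * Real.pi), starRingEnd ℂ (r x) * h x := by
    have h3 : L hh.toLp = ⟪r, hh.toLp⟫_ℂ := (hr1 _).symm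
    rw [h3, L2.inner_def]
    refine integral_congr_ae ?_
    filter_upwards [hh.coeFn_toLp] with x hx
    rw [hx, RCLike.inner_apply, mul_comm]
  rw [h2] at h1
  refine h1.congr fun n => ?_
  refine integral_congr_ae ?_
  filter_upwards [hh.coeFn_toLp] with x hx
  rw [hx]

open WLaux in
/-- **(WP)** Weak times strong: `f_n → g` weakly as in `WL`, `k_n → k` in `L²`, then
`∫ f_n k_n h → ∫ g k h` along `U` for every bounded `h`. -/
theorem WP (U : Ultrafilter ℕ) (f : ℕ → ℝ → ℂ) (C : ℝ) (hf : ∀ n, AEStronglyMeasurable (f n) mu)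
    (hb : ∀ n, BD (f n) C) (g : ℝ → ℂ)
    (hg : ∀ h : ℝ → ℂ, MemLp h 2 mu →
      Tendsto (fun n => ∫ x in Set.Ioc 0 (2 * Real.pi), f n x * h x) U
        (𝓝 (∫ x in Set.Ioc 0 (2 * Real.pi), g x * h x)))
    (k : ℕ → ℝ → ℂ) (k' : ℝ → ℂ) (hk : ∀ n, MemLp (k n) 2 mu) (hk' : MemLp k' 2 mu)
    (hkk : Tendsto (fun n => ∫ x in Set.Ioc 0 (2 * Real.pi), ‖k n x - k' x‖ ^ 2) U (𝓝 0))
    (h : ℝ → ℂ) (hh : MemLp h ⊤ mu) :
    Tendsto (fun n => ∫ x in Set.Ioc 0 (2 * Real.pi), f n x * (k n x * h x)) U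
      (𝓝 (∫ x in Set.Ioc 0 (2 * Real.pi), g x * (k' x * h x))) := by
  obtain ⟨M, hM0, hM⟩ : ∃ M : ℝ, 0 ≤ M ∧ BD h M := (memLp_top_iff.1 hh).2
  have hkh : ∀ u : ℝ → ℂ, MemLp u 2 mu → MemLp (fun x => u x * h x) 2 mu := by
    intro u hu
    refine MemLp.of_le_mul (c := M) hu (hu.1.mul hh.1) ?_
    filter_upwards [hM] with x hx
    rw [norm_mul, mul_comm]
    exact mul_le_mul_of_nonneg_right hx (norm_nonneg _)
  have h1 := hg (fun x => k' x * h x) (hkh k' hk')
  have hb' : ∀ n, BD (f n) |C| := fun n => by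
    filter_upwards [hb n] with x hx
    exact hx.trans (le_abs_self C)
  have hdiff : Tendsto (fun n => ∫ x, f n x * ((k n x - k' x) * h x) ∂mu) U (𝓝 0) := by
    have h2 : Tendsto (fun n => |C| * (M * Real.sqrt (mu.real univ *
        ∫ x, ‖k n x - k' x‖ ^ 2 ∂mu))) U (𝓝 0) := by
      have h3 : Tendsto (fun n => mu.real univ * ∫ x, ‖k n x - k' x‖ ^ 2 ∂mu) U (𝓝 0) := by
        have := Tendsto.const_mul (mu.real univ) hkk
        rw [mul_zero] at this
        exact this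
      have h4 := (Real.continuous_sqrt.tendsto 0).comp h3
      rw [Real.sqrt_zero] at h4
      simpa using (h4.const_mul M).const_mul |C|
    refine squeeze_zero_norm (fun n => ?_) h2
    have h5 : MemLp (fun x => k n x - k' x) 2 mu := (hk n).sub hk'
    have h6 := norm_integral_le (hb' n) ((hkh _ h5).integrable (by norm_num))
    refine h6.trans (mul_le_mul_of_nonneg_left ?_ (abs_nonneg C))
    have h7 : ∫ x, ‖(k n x - k' x) * h x‖ ∂mu ≤ M * ∫ x, ‖k n x - k' x‖ ∂mu := by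
      rw [← integral_const_mul]
      refine integral_mono_ae ((hkh _ h5).integrable (by norm_num)).norm
        ((h5.integrable (by norm_num)).norm.const_mul M) ?_
      filter_upwards [hM] with x hx
      rw [norm_mul, mul_comm]
      exact mul_le_mul_of_nonneg_right hx (norm_nonneg _)
    refine h7.trans (mul_le_mul_of_nonneg_left ?_ hM0)
    exact Real.le_sqrt_of_sq_le (sq_integral_le h5.norm)
  have h2 := hdiff.add h1
  rw [zero_add] at h2
  refine h2.congr fun n => ?_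
  have h3 : ∫ x, f n x * (k n x * h x) ∂mu =
      ∫ x, f n x * ((k n x - k' x) * h x) ∂mu + ∫ x, f n x * (k' x * h x) ∂mu := by
    have h5 : MemLp (fun x => k n x - k' x) 2 mu := (hk n).sub hk'
    have h6 := integral_add (integrable_mul (hf n) (hb n) ((hkh _ h5).integrable
      (by norm_num))) (integrable_mul (hf n) (hb n) ((hkh _ hk').integrable (by norm_num)))
    rw [← h6]
    refine integral_congr_ae (ae_of_all _ fun x => ?_)
    simp only
    ring
  exact h3.symm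

end Pool.H14.SR
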