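import Pool.Agent.H14.SR.Basic
import Pool.Agent.H14.SR.MAT
import Pool.Agent.H14.SR.WL
import Pool.Agent.H14.SR.HJ
import Pool.Agent.H14.SR.HX
import Pool.Agent.H14.SR.HM
import Pool.Agent.H14.SR.HP4
open MeasureTheory Set Filter Topology
noncomputable section
namespace Pool.H14.SR

/-! ### radii -/

/-- the radii `1 - 1/(n+2)` -/
def ti_r (n : ℕ) : ℝ := 1 - 1 / ((n : ℝ) + 2)

theorem ti_r_pos (n : ℕ) : 0 < ti_r n := by
  unfold ti_r
  have h0 : (0 : ℝ) ≤ n := Nat.cast_nonneg n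
  have h1 : (0 : ℝ) < (n : ℝ) + 2 := by positivity
  rw [sub_pos, div_lt_one h1]
  linarith

theorem ti_r_lt (n : ℕ) : ti_r n < 1 := by
  unfold ti_r
  have h1 : (0 : ℝ) < (n : ℝ) + 2 := by positivity
  have : 0 < 1 / ((n : ℝ) + 2) := by positivity
  linarith

theorem ti_r_tendsto : Tendsto ti_r atTop (𝓝[<] 1) := by
  rw [tendsto_nhdsWithin_iff]
  constructor
  · have h1 := (tendsto_one_div_add_atTop_nhds_zero_nat (𝕜 := ℝ)).comp (tendsto_add_atTop_nat 1)
    have h2 := h1.const_sub 1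
    rw [sub_zero] at h2
    refine h2.congr fun n => ?_
    simp only [Function.comp_apply, ti_r]
    push_cast
    ring_nf
  · exact Eventually.of_forall fun n => ti_r_lt n

theorem ti_mem {r : ℝ} (hr : 0 < r) {w : ℂ} (hw : w ∈ Metric.ball (0 : ℂ) (1 / r)) :
    (r : ℂ) * w ∈ Metric.ball (0 : ℂ) 1 := by
  rw [mem_ball_zero_iff] at hw ⊢
  rw [norm_mul, Complex.norm_real, Real.norm_of_nonneg hr.le]
  rw [lt_div_iff₀ hr] at hw
  linarith

theorem ti_mem' {r : ℝ} (hr : 0 < r) (hr1 : r < 1) {w : ℂ} (hw : w ∈ Metric.closedBall (0 : ℂ) 1) :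
    (r : ℂ) * w ∈ Metric.ball (0 : ℂ) 1 := by
  rw [mem_closedBall_zero_iff] at hw
  rw [mem_ball_zero_iff, norm_mul, Complex.norm_real, Real.norm_of_nonneg hr.le]
  nlinarith [norm_nonneg w]

theorem ti_diff {f : ℂ → ℂ} (hf : DifferentiableOn ℂ f (Metric.ball 0 1)) {r : ℝ} (hr : 0 < r) :
    DifferentiableOn ℂ (fun w => f ((r : ℂ) * w)) (Metric.ball 0 (1 / r)) :=
  hf.comp (by fun_prop) fun _ hw => ti_mem hr hw

theorem ti_cont {f : ℂ → ℂ} (hf : DifferentiableOn ℂ f (Metric.ball 0 1)) {r : ℝ} (hr : 0 < r)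
    (hr1 : r < 1) : Continuous (fun x : ℝ => f ((r : ℂ) * E (x, 0))) := by
  have h1 : ContinuousOn (fun x : ℝ => f ((r : ℂ) * E (x, 0))) univ := by
    refine hf.continuousOn.comp ?_ fun x _ => ti_mem' hr hr1 (E_mem_closedBall le_rfl)
    have h2 : Continuous fun x : ℝ => (r : ℂ) * E (x, 0) :=
      continuous_const.mul (continuous_E.comp (by fun_prop))
    exact h2.continuousOn
  exact continuousOn_univ.1 h1

theorem ti_memLp_cont {g : ℝ → ℂ} (hg : Continuous g) : MemLp g ⊤ mu := by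
  obtain ⟨C, hC⟩ := (isCompact_Icc (a := (0 : ℝ)) (b := 2 * Real.pi)).exists_bound_of_continuousOn
    hg.continuousOn
  refine memLp_top_of_bound hg.aestronglyMeasurable C ?_
  unfold mu
  refine (ae_restrict_mem measurableSet_Ioc).mono fun x hx => ?_
  exact hC x ⟨hx.1.le, hx.2⟩

theorem ti_top_two {g : ℝ → ℂ} (hg : MemLp g ⊤ mu) : MemLp g 2 mu := hg.mono_exponent le_top

theorem ti_top_int {g : ℝ → ℂ} (hg : MemLp g ⊤ mu) : Integrable g mu :=
  memLp_one_iff_integrable.1 (hg.mono_exponent le_top)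

theorem ti_BD_of_top {g : ℝ → ℂ} (hg : AEStronglyMeasurable g mu) {C : ℝ} (h : BD g C) :
    MemLp g ⊤ mu := memLp_top_of_bound hg C h

/-! ### coefficients -/

/-- the character -/
def ti_h (k : ℕ) (x : ℝ) : ℂ := Complex.exp (-((k : ℂ) * Complex.I * (x : ℂ)))

theorem ti_h_cont (k : ℕ) : Continuous (ti_h k) := by
  unfold ti_h
  fun_prop

theorem ti_h_norm (k : ℕ) (x : ℝ) : ‖ti_h k x‖ = 1 := by
  unfold ti_h
  rw [Complex.norm_exp]
  simp

theorem ti_h_top (k : ℕ) : MemLp (ti_h k) ⊤ mu := ti_memLp_cont (ti_h_cont k)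

theorem ti_conj_top {g : ℝ → ℂ} (hg : MemLp g ⊤ mu) :
    MemLp (fun x => starRingEnd ℂ (g x)) ⊤ mu := by
  have := hg.star
  exact this

theorem ti_mu_real : (mu Set.univ).toReal = 2 * Real.pi := by
  unfold mu
  rw [Measure.restrict_apply MeasurableSet.univ, univ_inter, Real.volume_Ioc, sub_zero,
    ENNReal.toReal_ofReal (by positivity)]

theorem ti_coef_congr {f g : ℝ → ℂ} (h : f =ᵐ[mu] g) (k : ℕ) : coef f k = coef g k := by
  unfold coef
  congr 1
  refine integral_congr_ae ?_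
  have h' : ∀ᵐ x ∂mu, f x = g x := h
  unfold mu at h'
  filter_upwards [h'] with x hx
  rw [hx]

theorem ti_norm_int_le {f : ℝ → ℂ} {C : ℝ} (h : BD f C) (hC : 0 ≤ C) :
    ‖∫ x in Set.Ioc 0 (2 * Real.pi), f x‖ ≤ C * (2 * Real.pi) := by
  have h1 : ‖∫ x, f x ∂mu‖ ≤ C * (mu.real Set.univ) := norm_integral_le_of_norm_le_const h
  have h2 : mu.real Set.univ = 2 * Real.pi := ti_mu_real
  rw [h2] at h1
  exact h1

theorem ti_coef_bd {f : ℝ → ℂ} {C : ℝ} (h : BD f C) (hC : 0 ≤ C) (k : ℕ) : ‖coef f k‖ ≤ C := by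
  unfold coef
  have h1 : BD (fun x => Complex.exp (-((k : ℂ) * Complex.I * (x : ℂ))) * f x) C := by
    filter_upwards [h] with x hx
    rw [norm_mul]
    have := ti_h_norm k x
    unfold ti_h at this
    rw [this, one_mul]
    exact hx
  have h2 := ti_norm_int_le h1 hC
  rw [norm_mul, Complex.norm_real, Real.norm_of_nonneg (by positivity)]
  have hpi : 0 < 2 * Real.pi := by positivity
  calc 1 / (2 * Real.pi) * _ ≤ 1 / (2 * Real.pi) * (C * (2 * Real.pi)) := by gcongr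
    _ = C := by field_simp

/-- convergence of coefficients from convergence of integrals -/
theorem ti_coef_tendsto {U : Filter ℕ} {f : ℕ → ℝ → ℂ} {g : ℝ → ℂ} (k : ℕ)
    (h : Tendsto (fun n => ∫ x in Set.Ioc 0 (2 * Real.pi), ti_h k x * f n x) U
      (𝓝 (∫ x in Set.Ioc 0 (2 * Real.pi), ti_h k x * g x))) :
    Tendsto (fun n => coef (f n) k) U (𝓝 (coef g k)) := by
  unfold coef
  exact h.const_mul _

/-- real parts -/
theorem ti_re_int {h f : ℝ → ℂ} (hh : MemLp h ⊤ mu) (hf : MemLp f ⊤ mu) :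
    ∫ x in Set.Ioc 0 (2 * Real.pi), h x * ((f x).re : ℂ) =
      (1 / 2 : ℂ) * (∫ x in Set.Ioc 0 (2 * Real.pi), h x * f x) +
      (1 / 2 : ℂ) * starRingEnd ℂ (∫ x in Set.Ioc 0 (2 * Real.pi), starRingEnd ℂ (h x) * f x) := by
  have i1 : Integrable (fun x => h x * f x) mu := ti_top_int (hf.mul hh)
  have i2 : Integrable (fun x => starRingEnd ℂ (h x) * f x) mu :=
    ti_top_int (hf.mul (ti_conj_top hh))
  have i3 : Integrable (fun x => starRingEnd ℂ (starRingEnd ℂ (h x) * f x)) mu :=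
    ti_top_int (ti_conj_top (hf.mul (ti_conj_top hh)))
  have e1 : ∀ x, h x * ((f x).re : ℂ) = (1 / 2 : ℂ) * (h x * f x) +
      (1 / 2 : ℂ) * starRingEnd ℂ (starRingEnd ℂ (h x) * f x) := by
    intro x
    rw [map_mul, Complex.conj_conj, Complex.re_eq_add_conj]
    ring
  change ∫ x, h x * ((f x).re : ℂ) ∂mu = _
  simp_rw [e1]
  rw [integral_add (i1.const_mul _) (i3.const_mul _), integral_const_mul, integral_const_mul,
    integral_conj]
  rfl

theorem ti_coef_re_tendsto {U : Filter ℕ} {f : ℕ → ℝ → ℂ} {g : ℝ → ℂ} (k : ℕ)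
    (hf : ∀ n, MemLp (f n) ⊤ mu) (hg : MemLp g ⊤ mu)
    (h : ∀ h : ℝ → ℂ, MemLp h ⊤ mu →
      Tendsto (fun n => ∫ x in Set.Ioc 0 (2 * Real.pi), h x * f n x) U
      (𝓝 (∫ x in Set.Ioc 0 (2 * Real.pi), h x * g x))) :
    Tendsto (fun n => coef (fun x => ((f n x).re : ℂ)) k) U
      (𝓝 (coef (fun x => ((g x).re : ℂ)) k)) := by
  apply ti_coef_tendsto
  rw [ti_re_int (ti_h_top k) hg]
  refine Tendsto.congr (fun n => (ti_re_int (ti_h_top k) (hf n)).symm) ?_
  refine Tendsto.add ((h _ (ti_h_top k)).const_mul _) (Tendsto.const_mul _ ?_)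
  exact (Complex.continuous_conj.tendsto _).comp (h _ (ti_conj_top (ti_h_top k)))

/-- strong convergence -/
theorem ti_strong (U : Ultrafilter ℕ) (k : ℕ → ℝ → ℂ) (k' : ℝ → ℂ) (hk : ∀ n, MemLp (k n) 2 mu)
    (hk' : MemLp k' 2 mu)
    (hkk : Tendsto (fun n => ∫ x in Set.Ioc 0 (2 * Real.pi), ‖k n x - k' x‖ ^ 2) U (𝓝 0))
    (h : ℝ → ℂ) (hh : MemLp h ⊤ mu) :
    Tendsto (fun n => ∫ x in Set.Ioc 0 (2 * Real.pi), h x * k n x) U
      (𝓝 (∫ x in Set.Ioc 0 (2 * Real.pi), h x * k' x)) := by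
  have h1 := WP U (fun _ _ => 1) 1 (fun _ => aestronglyMeasurable_const)
    (fun _ => Eventually.of_forall fun x => by simp) (fun _ => 1)
    (fun h _ => tendsto_const_nhds) k k' hk hk' hkk h hh
  simp only [one_mul] at h1
  simp only [mul_comm (h _)]
  exact h1

/-- weak times strong, product written differently -/
theorem ti_weak (U : Ultrafilter ℕ) (f : ℕ → ℝ → ℂ) (C : ℝ)
    (hf : ∀ n, AEStronglyMeasurable (f n) mu) (hb : ∀ n, BD (f n) C) (g : ℝ → ℂ)
    (hg : ∀ h : ℝ → ℂ, MemLp h 2 mu →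
      Tendsto (fun n => ∫ x in Set.Ioc 0 (2 * Real.pi), f n x * h x) U
        (𝓝 (∫ x in Set.Ioc 0 (2 * Real.pi), g x * h x)))
    (k : ℕ → ℝ → ℂ) (k' : ℝ → ℂ) (hk : ∀ n, MemLp (k n) 2 mu) (hk' : MemLp k' 2 mu)
    (hkk : Tendsto (fun n => ∫ x in Set.Ioc 0 (2 * Real.pi), ‖k n x - k' x‖ ^ 2) U (𝓝 0))
    (h : ℝ → ℂ) (hh : MemLp h ⊤ mu) :
    Tendsto (fun n => ∫ x in Set.Ioc 0 (2 * Real.pi), h x * (k n x * f n x)) U
      (𝓝 (∫ x in Set.Ioc 0 (2 * Real.pi), h x * (k' x * g x))) := by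
  have h1 := WP U f C hf hb g hg k k' hk hk' hkk h hh
  have e1 : ∀ (a b c : ℂ), c * (b * a) = a * (b * c) := fun a b c => by ring
  simp only [e1]
  exact h1

/-! ### continuous functions of `|A_n|²` -/

theorem ti_theta {U : Filter ℕ} (θ : ℝ → ℝ) (hθ : Continuous θ) (C : ℝ) (hC : 0 < C)
    (hθb : ∀ q, 0 ≤ q → q ≤ 1 → |θ q| ≤ C) (A : ℕ → ℝ → ℂ) (a : ℝ → ℂ)
    (hA : ∀ n, AEStronglyMeasurable (A n) mu) (ha : AEStronglyMeasurable a mu)
    (hA1 : ∀ n, BD (A n) 1) (ha1 : BD a 1)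
    (hlim : Tendsto (fun n => ∫ x in Set.Ioc 0 (2 * Real.pi), ‖A n x - a x‖ ^ 2) U (𝓝 0)) :
    Tendsto (fun n => ∫ x in Set.Ioc 0 (2 * Real.pi),
      ‖((θ (‖A n x‖ ^ 2) : ℝ) : ℂ) - ((θ (‖a x‖ ^ 2) : ℝ) : ℂ)‖ ^ 2) U (𝓝 0) := by
  have hpi : 0 < 2 * Real.pi := by positivity
  rw [Metric.tendsto_nhds]
  intro ε hε
  -- choose eta
  obtain ⟨η, hη, hη2⟩ : ∃ η : ℝ, 0 < η ∧ η ^ 2 * (2 * Real.pi) < ε / 2 := by
    refine ⟨min 1 (ε / (4 * (2 * Real.pi))), by positivity, ?_⟩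
    have h1 : min 1 (ε / (4 * (2 * Real.pi))) ≤ 1 := min_le_left _ _
    have h2 : min 1 (ε / (4 * (2 * Real.pi))) ≤ ε / (4 * (2 * Real.pi)) := min_le_right _ _
    have h3 : 0 < min 1 (ε / (4 * (2 * Real.pi))) := by positivity
    have h4 : (min 1 (ε / (4 * (2 * Real.pi)))) ^ 2 ≤ ε / (4 * (2 * Real.pi)) := by nlinarith
    calc (min 1 (ε / (4 * (2 * Real.pi)))) ^ 2 * (2 * Real.pi)
        ≤ ε / (4 * (2 * Real.pi)) * (2 * Real.pi) := by gcongr
      _ = ε / 4 := by field_simp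
      _ < ε / 2 := by linarith
  have huc := (isCompact_Icc (a := (0 : ℝ)) (b := 1)).uniformContinuousOn_of_continuous
    hθ.continuousOn
  rw [Metric.uniformContinuousOn_iff] at huc
  obtain ⟨d, hd, hd2⟩ := huc η hη
  set M : ℝ := 16 * C ^ 2 / d ^ 2 with hM
  have hM0 : 0 ≤ M := by positivity
  -- pointwise bound
  have hpt : ∀ n, ∀ᵐ x ∂mu, ‖((θ (‖A n x‖ ^ 2) : ℝ) : ℂ) - ((θ (‖a x‖ ^ 2) : ℝ) : ℂ)‖ ^ 2 ≤
      η ^ 2 + M * ‖A n x - a x‖ ^ 2 := by
    intro n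
    filter_upwards [hA1 n, ha1] with x h1 h2
    rw [← Complex.ofReal_sub, Complex.norm_real, Real.norm_eq_abs]
    have m1 : ‖A n x‖ ^ 2 ∈ Icc (0 : ℝ) 1 := ⟨by positivity, by
      have := norm_nonneg (A n x)
      nlinarith⟩
    have m2 : ‖a x‖ ^ 2 ∈ Icc (0 : ℝ) 1 := ⟨by positivity, by
      have := norm_nonneg (a x)
      nlinarith⟩
    have hM' : 0 ≤ M * ‖A n x - a x‖ ^ 2 := by positivity
    by_cases hc : dist (‖A n x‖ ^ 2) (‖a x‖ ^ 2) < d
    · have h3 := hd2 _ m1 _ m2 hc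
      rw [Real.dist_eq] at h3
      have h4 : |θ (‖A n x‖ ^ 2) - θ (‖a x‖ ^ 2)| ^ 2 ≤ η ^ 2 := by
        have := abs_nonneg (θ (‖A n x‖ ^ 2) - θ (‖a x‖ ^ 2))
        nlinarith
      linarith
    · rw [not_lt, Real.dist_eq] at hc
      have h3 : |θ (‖A n x‖ ^ 2) - θ (‖a x‖ ^ 2)| ≤ 2 * C := by
        have e1 := hθb _ m1.1 m1.2
        have e2 := hθb _ m2.1 m2.2
        have := abs_sub (θ (‖A n x‖ ^ 2)) (θ (‖a x‖ ^ 2))
        linarith
      have h5 : |‖A n x‖ ^ 2 - ‖a x‖ ^ 2| ≤ 2 * ‖A n x - a x‖ := by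
        have e1 : ‖A n x‖ ^ 2 - ‖a x‖ ^ 2 = (‖A n x‖ - ‖a x‖) * (‖A n x‖ + ‖a x‖) := by ring
        rw [e1, abs_mul]
        have e2 := abs_norm_sub_norm_le (A n x) (a x)
        have e3 : |‖A n x‖ + ‖a x‖| ≤ 2 := by
          rw [abs_of_nonneg (by positivity)]
          linarith
        have e4 := abs_nonneg (‖A n x‖ + ‖a x‖)
        have e5 := norm_nonneg (A n x - a x)
        calc |‖A n x‖ - ‖a x‖| * |‖A n x‖ + ‖a x‖| ≤ ‖A n x - a x‖ * 2 := by gcongr
          _ = 2 * ‖A n x - a x‖ := by ring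
      have h6 : d ^ 2 ≤ 4 * ‖A n x - a x‖ ^ 2 := by
        have e1 : d ≤ 2 * ‖A n x - a x‖ := hc.trans h5
        nlinarith
      have h7 : (2 * C) ^ 2 ≤ M * ‖A n x - a x‖ ^ 2 := by
        rw [hM, div_mul_eq_mul_div, le_div_iff₀ (by positivity)]
        nlinarith [sq_nonneg C]
      have h8 : |θ (‖A n x‖ ^ 2) - θ (‖a x‖ ^ 2)| ^ 2 ≤ (2 * C) ^ 2 := by
        have := abs_nonneg (θ (‖A n x‖ ^ 2) - θ (‖a x‖ ^ 2))
        nlinarith
      nlinarith [sq_nonneg η]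
  have hev : ∀ᶠ n in U, M * ∫ x in Set.Ioc 0 (2 * Real.pi), ‖A n x - a x‖ ^ 2 < ε / 2 := by
    have h1 := hlim.const_mul M
    rw [mul_zero] at h1
    exact h1.eventually (gt_mem_nhds (by positivity))
  filter_upwards [hev] with n hn
  have hint : Integrable (fun x => ‖A n x - a x‖ ^ 2) mu := by
    have h1 : MemLp (fun x => A n x - a x) 2 mu :=
      (ti_top_two (ti_BD_of_top (hA n) (hA1 n))).sub (ti_top_two (ti_BD_of_top ha ha1))
    exact h1.integrable_norm_pow (by norm_num)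
  have hI : ∫ x in Set.Ioc 0 (2 * Real.pi),
      ‖((θ (‖A n x‖ ^ 2) : ℝ) : ℂ) - ((θ (‖a x‖ ^ 2) : ℝ) : ℂ)‖ ^ 2 ≤
      ∫ x, (η ^ 2 + M * ‖A n x - a x‖ ^ 2) ∂mu := by
    refine integral_mono_of_nonneg (Eventually.of_forall fun x => by positivity)
      ((integrable_const _).add (hint.const_mul _)) (hpt n)
  rw [integral_add (integrable_const _) (hint.const_mul _), integral_const, integral_const_mul]
    at hI
  have h9 : mu.real Set.univ = 2 * Real.pi := ti_mu_real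
  rw [h9, smul_eq_mul] at hI
  have h10 : 0 ≤ ∫ x in Set.Ioc 0 (2 * Real.pi),
      ‖((θ (‖A n x‖ ^ 2) : ℝ) : ℂ) - ((θ (‖a x‖ ^ 2) : ℝ) : ℂ)‖ ^ 2 :=
    integral_nonneg fun x => by positivity
  rw [Real.dist_eq, sub_zero, abs_of_nonneg h10]
  have h11 : ∫ x, ‖A n x - a x‖ ^ 2 ∂mu = ∫ x in Set.Ioc 0 (2 * Real.pi), ‖A n x - a x‖ ^ 2 := rfl
  rw [h11] at hI
  linarith

/-! ### the power series -/

theorem ti_geom {z : ℂ} (hz : z ∈ Metric.ball (0 : ℂ) 1) (B : ℝ) :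
    Summable (fun k : ℕ => B * ‖z‖ ^ k) := by
  rw [mem_ball_zero_iff] at hz
  exact (summable_geometric_of_lt_one (norm_nonneg _) hz).mul_left _

theorem ti_ext_re (V : ℝ → ℂ) (hV : Htwo V) (B : ℝ)
    (hB : ∀ k, ‖coef (fun x => ((V x).re : ℂ)) k‖ ≤ B) (z : ℂ) (hz : z ∈ Metric.ball (0 : ℂ) 1) :
    ext V z = (∑' k : ℕ, (if k = 0 then 1 else 2) * coef (fun x => ((V x).re : ℂ)) k * z ^ k) +
      Complex.I * ((coef V 0).im : ℂ) := by
  unfold ext
  have h1 : ∀ k : ℕ, coef V k * z ^ k =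
      (if k = 0 then 1 else 2) * coef (fun x => ((V x).re : ℂ)) k * z ^ k +
      (if k = 0 then Complex.I * ((coef V 0).im : ℂ) else 0) := by
    intro k
    by_cases hk : k = 0
    · subst hk
      rw [if_pos rfl, if_pos rfl, pow_zero, mul_one, mul_one, one_mul, ← coef_zero_re V hV,
        mul_comm Complex.I, Complex.re_add_im]
    · rw [if_neg hk, if_neg hk, add_zero, coef_of_re V hV k hk]
  simp_rw [h1]
  rw [Summable.tsum_add, tsum_ite_eq]
  · refine Summable.of_norm_bounded (ti_geom hz (2 * B)) fun k => ?_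
    rw [norm_mul, norm_mul, norm_pow]
    have h2 : ‖(if k = 0 then 1 else 2 : ℂ)‖ ≤ 2 := by
      split_ifs <;> simp
    have h3 := hB k
    have h4 := norm_nonneg (coef (fun x => ((V x).re : ℂ)) k)
    gcongr
  · exact (hasSum_ite_eq 0 _).summable

theorem ti_tsum_tendsto (U : Filter ℕ) (f : ℕ → ℕ → ℂ) (g : ℕ → ℂ) (B : ℝ) {z : ℂ}
    (hz : z ∈ Metric.ball (0 : ℂ) 1) (hb : ∀ n k, ‖f n k‖ ≤ B)
    (h : ∀ k, Tendsto (fun n => f n k) U (𝓝 (g k))) :
    Tendsto (fun n => ∑' k : ℕ, f n k * z ^ k) U (𝓝 (∑' k : ℕ, g k * z ^ k)) := by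
  refine tendsto_tsum_of_dominated_convergence (ti_geom hz B) (fun k => (h k).mul_const _)
    (Eventually.of_forall fun n k => ?_)
  rw [norm_mul, norm_pow]
  have := hb n k
  gcongr

theorem ti_coef_sub {f g : ℝ → ℂ} (hf : MemLp f ⊤ mu) (hg : MemLp g ⊤ mu) (k : ℕ) :
    coef (fun x => f x - g x) k = coef f k - coef g k := by
  unfold coef
  rw [← mul_sub]
  congr 1
  have i1 : Integrable (fun x => ti_h k x * f x) mu := ti_top_int (hf.mul (ti_h_top k))
  have i2 : Integrable (fun x => ti_h k x * g x) mu := ti_top_int (hg.mul (ti_h_top k))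
  have h1 := integral_sub i1 i2
  simp only [← mul_sub] at h1
  exact h1

theorem ti_coef_add {f g : ℝ → ℂ} (hf : MemLp f 2 mu) (hg : MemLp g 2 mu) (k : ℕ) :
    coef (fun x => f x + g x) k = coef f k + coef g k := by
  unfold coef
  rw [← mul_add]
  congr 1
  have i1 : Integrable (fun x => ti_h k x * f x) mu :=
    memLp_one_iff_integrable.1 ((hf.mul (ti_h_top k) : MemLp _ 2 mu).mono_exponent (by norm_num))
  have i2 : Integrable (fun x => ti_h k x * g x) mu :=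
    memLp_one_iff_integrable.1 ((hg.mul (ti_h_top k) : MemLp _ 2 mu).mono_exponent (by norm_num))
  have h1 := integral_add i1 i2
  simp only [← mul_add] at h1
  exact h1

theorem ti_coef_const (κ : ℂ) : coef (fun _ => κ) 0 = κ := by
  unfold coef
  have h1 : ∀ x : ℝ, Complex.exp (-(((0 : ℕ) : ℂ) * Complex.I * (x : ℂ))) * κ = κ := by
    intro x
    simp
  simp_rw [h1]
  have h2 : ∫ _x in Set.Ioc 0 (2 * Real.pi), κ = (2 * Real.pi : ℝ) • κ := by
    have h3 := integral_const (μ := mu) κ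
    have h9 : mu.real Set.univ = 2 * Real.pi := ti_mu_real
    rw [h9] at h3
    exact h3
  rw [h2, Complex.real_smul, ← mul_assoc, ← Complex.ofReal_mul]
  have h3 : 1 / (2 * Real.pi) * (2 * Real.pi) = 1 := by field_simp
  rw [h3, Complex.ofReal_one, one_mul]

theorem ti_re_top {f : ℝ → ℂ} (hf : MemLp f ⊤ mu) : MemLp (fun x => ((f x).re : ℂ)) ⊤ mu := by
  have h1 : MemLp (fun x => (f x).re) ⊤ mu := hf.re
  exact h1.ofReal

/-- **(TI)** Passage to the limit: Theorem T before the `D`-statement.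

Proof: `r_n = 1 - 1/(n+2)`, `a_n(w) = ext a (r_n w)`, … on `|w| < 1/r_n` satisfy `Dat δ (1/r_n)` (`ext_bd`, `ext_convex`,
`ext_re`).  `MAT` with `e_n = 1/(n+1)`: `φ_n, w_n, c_n`.  `U` = any ultrafilter `≤ atTop`.  `w`, `c` = weak limits (`WL`), `c ∈ H^∞`.
`A_n(x) = a_n(e^{ix}) → a`, `B_n → b` in `L²` (`ext_L2`), so `Θ(|A_n|²) → Θ(|a|²)` in `L²` (uniformly continuous and bounded `Θ` on
`[0,1]`, bounded functions), and `u_n = Re(φ_n - B_nw_n) = Θ(|A_n|²) - Re(B_nw_n) → u = Θ(|a|²) - Re(bw)` weakly (`WP`).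
`V_n = φ_n - B_nw_n ∈ H²` has coefficients `2 coef u_n k` (`k ≥ 1`), `coef u_n 0 + iβ_n` (`HJ`); so
`ext V_n(z) - iβ_n → ext V⁰(z)` for `V⁰` := an `H²` function with real part `u` (`outer`, normalised by `Im coef V⁰ 0 = 0`),
`|z| < 1`.  `e^{iβ_n} → e^{iβ}` along `U`; `V = V⁰ + iβ`.  `ext(e^{V_n}) = e^{ext V_n}` (`ext_exp`) tends to `e^{ext V}`, and
`e^{V_n} = A_n + B_nc_n → a + bc` weakly (`WP`), so `coef (e^V) = coef (a + bc)` (`ext_exp`, `coef_of_ext`), `e^V = a + bc`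
(`coef_inj`).  Estimate: `K^{(n)}_i(z) = ext K_i(r_n z)`, `Σ|K_i^{(n)}|² ≤ e^{-tO(r_n z)}` on the closed disc,
`K_i^{(n)} → K_i` in `L²`, `WP`. -/
theorem TI (δ : ℝ) (hδ : 0 < δ) (hδ2 : δ ≤ 1 / 2) :
    ∃ (C : ℝ) (ε : ℝ → ℝ) (Θ : ℝ → ℝ → ℝ), 0 < C ∧ Tendsto ε atTop (𝓝 0) ∧
      (∀ v, Continuous (Θ v)) ∧
      ∀ (a b F : ℝ → ℂ), Hinf a → Hinf b → BD a 1 → BD b 1 →
        (∀ z ∈ Metric.ball (0 : ℂ) 1, 2 * δ ≤ ‖ext a z‖ ∨ 2 * δ ≤ ‖ext b z‖) → Htwo F →
        (∀ᵐ x ∂mu, (F x).re = ‖a x‖ ^ 2 + ‖b x‖ ^ 2) →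
      ∃ w V c : ℝ → ℂ, MemLp w ⊤ mu ∧ BD w C ∧ Htwo V ∧ Hinf c ∧
        (∀ᵐ x ∂mu, (V x).re = Θ ‖ext a 0‖ (‖a x‖ ^ 2) - (b x * w x).re) ∧
        (∀ᵐ x ∂mu, Complex.exp (V x) = a x + b x * c x) ∧
        ∀ t : ℝ, 1 ≤ t → ∀ (N : ℕ) (K : Fin N → ℝ → ℂ), (∀ i, Hinf (K i)) →
          (∀ z ∈ Metric.ball (0 : ℂ) 1, ∑ i, ‖ext (K i) z‖ ^ 2
            ≤ Real.exp (-(t * OscD (ext a) (ext b) (ext F) z))) →
          ∀ p : Fin N → Polynomial ℂ,
          ‖∫ x in Set.Ioc 0 (2 * Real.pi),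
              ∑ i, w x * K i x * (E (x, 0) * (p i).eval (E (x, 0)))‖
            ≤ ε t * ∫ x in Set.Ioc 0 (2 * Real.pi),
                Real.sqrt (∑ i, ‖E (x, 0) * (p i).eval (E (x, 0))‖ ^ 2) := by
  obtain ⟨C, ε, Θ, hC, hε, hε0, hΘ, hΘb, hM⟩ := MAT δ hδ hδ2
  refine ⟨C, ε, Θ, hC, hε, hΘ, ?_⟩
  intro a b F ha hb ha1 hb1 hab hF hFre
  -- the extensions
  have eda := ext_bd a ha 1 ha1
  have edb := ext_bd b hb 1 hb1
  have edF := ext_diff F hF
  have hFb := ext_re F hF 0 2 (by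
    filter_upwards [hFre, ha1, hb1] with x h1 h2 h3
    rw [h1]
    have h4 := norm_nonneg (a x)
    have h5 := norm_nonneg (b x)
    constructor
    · positivity
    · nlinarith)
  have hcv := ext_convex F a b hF ha hb hFre
  -- data on the larger discs
  have hDat : ∀ n, Dat δ (1 / ti_r n) (fun w => ext a ((ti_r n : ℂ) * w))
      (fun w => ext b ((ti_r n : ℂ) * w)) (fun w => ext F ((ti_r n : ℂ) * w)) := by
    intro n
    have hr := ti_r_pos n
    have hr1 := ti_r_lt n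
    exact
    { hδ := hδ
      hδ2 := hδ2
      hρ := by rw [lt_div_iff₀ hr]; linarith
      ha := ti_diff eda.1 hr
      hb := ti_diff edb.1 hr
      hF := ti_diff edF hr
      ha1 := fun w hw => eda.2 _ (ti_mem hr hw)
      hb1 := fun w hw => edb.2 _ (ti_mem hr hw)
      hab := fun w hw => hab _ (ti_mem hr hw)
      hO := fun w hw => hcv _ (ti_mem hr hw)
      hO2 := fun w hw => (hFb _ (ti_mem hr hw)).2 }
  have hMn := fun n : ℕ => hM (1 / ti_r n) _ _ _ (hDat n) (1 / ((n : ℝ) + 1)) (by positivity)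
    (by rw [div_le_one (by positivity)]; linarith [(Nat.cast_nonneg n : (0 : ℝ) ≤ n)])
  choose φ w c hφ hwm hwC hcI hcC hφre hVHA hVexp hest using hMn
  simp only [mul_zero] at hφre
  set v : ℝ := ‖ext a 0‖ with hv
  let A : ℕ → ℝ → ℂ := fun n x => ext a ((ti_r n : ℂ) * E (x, 0))
  let B : ℕ → ℝ → ℂ := fun n x => ext b ((ti_r n : ℂ) * E (x, 0))
  have hAc : ∀ n, Continuous (A n) := fun n => ti_cont eda.1 (ti_r_pos n) (ti_r_lt n)
  have hBc : ∀ n, Continuous (B n) := fun n => ti_cont edb.1 (ti_r_pos n) (ti_r_lt n)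
  have hA1 : ∀ n x, ‖A n x‖ ≤ 1 := fun n x =>
    eda.2 _ (ti_mem' (ti_r_pos n) (ti_r_lt n) (E_mem_closedBall le_rfl))
  have hB1 : ∀ n x, ‖B n x‖ ≤ 1 := fun n x =>
    edb.2 _ (ti_mem' (ti_r_pos n) (ti_r_lt n) (E_mem_closedBall le_rfl))
  have hAt : ∀ n, MemLp (A n) ⊤ mu := fun n => ti_memLp_cont (hAc n)
  have hBt : ∀ n, MemLp (B n) ⊤ mu := fun n => ti_memLp_cont (hBc n)
  -- the ultrafilter
  let U : Ultrafilter ℕ := Ultrafilter.of atTop
  have hU : (U : Filter ℕ) ≤ atTop := Ultrafilter.of_le atTop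
  obtain ⟨w', hw'1, hw'2, hw'3⟩ := WL U w C hC.le (fun n => (hwm n).1) hwC
  obtain ⟨c', hc'1, hc'2, hc'3⟩ := WL U c C hC.le (fun n => (hcI n).mem.1) hcC
  have hc'I : Hinf c' := by
    refine ⟨hc'1, fun m => ?_⟩
    have hcont : Continuous fun x : ℝ => Complex.exp (((m : ℂ) + 1) * Complex.I * (x : ℂ)) := by
      fun_prop
    have h1 := hc'3 _ (ti_top_two (ti_memLp_cont hcont))
    have h2 : ∀ n, ∫ x in Set.Ioc 0 (2 * Real.pi),
        c n x * Complex.exp (((m : ℂ) + 1) * Complex.I * (x : ℂ)) = 0 := by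
      intro n
      have := (hcI n).ha m
      simp only [mul_comm (c n _)]
      exact this
    simp only [h2] at h1
    have h3 := tendsto_nhds_unique h1 tendsto_const_nhds
    simp only [mul_comm _ (c' _)]
    exact h3
  -- strong limits
  have hL2 : ∀ f, Htwo f → Tendsto (fun n => ∫ x in Set.Ioc 0 (2 * Real.pi),
      ‖ext f ((ti_r n : ℂ) * E (x, 0)) - f x‖ ^ 2) U (𝓝 0) :=
    fun f hf => ((ext_L2 f hf).comp ti_r_tendsto).mono_left hU
  have hAL := hL2 a ha.toHtwo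
  have hBL := hL2 b hb.toHtwo
  -- the functions `V_n`
  let V : ℕ → ℝ → ℂ := fun n x => φ n x - B n x * w n x
  have hBw : ∀ n, MemLp (fun x => B n x * w n x) ⊤ mu := fun n => (hwm n).mul (hBt n)
  have hVt : ∀ n, MemLp (V n) ⊤ mu := fun n => (ti_memLp_cont (hφ n)).sub (hBw n)
  have hV2 : ∀ n, Htwo (V n) := fun n => ⟨ti_top_two (hVt n), hVHA n⟩
  have hVre : ∀ n x, (V n x).re = Θ v (‖A n x‖ ^ 2) - (B n x * w n x).re := by
    intro n x
    change (φ n x - B n x * w n x).re = _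
    rw [Complex.sub_re, hφre n x]
  have hVb : ∀ n, ∀ᵐ x ∂mu, -(2 * C) ≤ (V n x).re ∧ (V n x).re ≤ 2 * C := by
    intro n
    filter_upwards [hwC n] with x hx
    have h1 := hΘb v (‖A n x‖ ^ 2) (by positivity) (by
      have := hA1 n x
      have := norm_nonneg (A n x)
      nlinarith)
    have h2 : |(B n x * w n x).re| ≤ C := by
      refine (Complex.abs_re_le_norm _).trans ?_
      rw [norm_mul]
      have h3 := hB1 n x
      have h4 := norm_nonneg (w n x)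
      nlinarith
    rw [hVre]
    rw [abs_le] at h1 h2
    constructor <;> linarith
  have hVreb : ∀ n k, ‖coef (fun x => ((V n x).re : ℂ)) k‖ ≤ 2 * C := by
    intro n k
    refine ti_coef_bd ?_ (by positivity) k
    filter_upwards [hVb n] with x hx
    rw [Complex.norm_real, Real.norm_eq_abs, abs_le]
    exact hx
  -- the limit
  let u : ℝ → ℝ := fun x => Θ v (‖a x‖ ^ 2) - (b x * w' x).re
  have hbw' : MemLp (fun x => b x * w' x) ⊤ mu := hw'1.mul hb.mem
  have hΘa : AEStronglyMeasurable (fun x => Θ v (‖a x‖ ^ 2)) mu :=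
    (hΘ v).comp_aestronglyMeasurable (ha.mem.1.norm.pow 2)
  have hΘab : ∀ᵐ x ∂mu, |Θ v (‖a x‖ ^ 2)| ≤ C := by
    filter_upwards [ha1] with x hx
    refine hΘb v _ (by positivity) ?_
    have := norm_nonneg (a x)
    nlinarith
  have hum : AEStronglyMeasurable u mu := hΘa.sub hbw'.re.1
  have hub : ∀ᵐ x ∂mu, |u x| ≤ 2 * C := by
    filter_upwards [hΘab, hb1, hw'2] with x h1 h2 h3
    have h4 : |(b x * w' x).re| ≤ C := by
      refine (Complex.abs_re_le_norm _).trans ?_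
      rw [norm_mul]
      have h5 := norm_nonneg (w' x)
      nlinarith
    have h6 := abs_sub (Θ v (‖a x‖ ^ 2)) ((b x * w' x).re)
    change |Θ v (‖a x‖ ^ 2) - (b x * w' x).re| ≤ 2 * C
    linarith
  have hΘaT : MemLp (fun x => ((Θ v (‖a x‖ ^ 2) : ℝ) : ℂ)) ⊤ mu := by
    refine ti_BD_of_top (Complex.continuous_ofReal.comp_aestronglyMeasurable hΘa) (C := C) ?_
    filter_upwards [hΘab] with x hx
    rw [Complex.norm_real]
    exact hx
  have hΘAT : ∀ n, MemLp (fun x => ((Θ v (‖A n x‖ ^ 2) : ℝ) : ℂ)) ⊤ mu := by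
    intro n
    refine ti_memLp_cont (Complex.continuous_ofReal.comp ((hΘ v).comp ((hAc n).norm.pow 2)))
  -- weak convergence of the real parts
  have hcoef : ∀ k, Tendsto (fun n => coef (fun x => ((V n x).re : ℂ)) k) U
      (𝓝 (coef (fun x => ((u x : ℝ) : ℂ)) k)) := by
    intro k
    have e1 : ∀ n, coef (fun x => ((V n x).re : ℂ)) k =
        coef (fun x => ((Θ v (‖A n x‖ ^ 2) : ℝ) : ℂ)) k -
        coef (fun x => (((B n x * w n x).re : ℝ) : ℂ)) k := by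
      intro n
      rw [← ti_coef_sub (hΘAT n) (ti_re_top (hBw n))]
      congr 1
      funext x
      rw [hVre, Complex.ofReal_sub]
    have e2 : coef (fun x => ((u x : ℝ) : ℂ)) k =
        coef (fun x => ((Θ v (‖a x‖ ^ 2) : ℝ) : ℂ)) k -
        coef (fun x => (((b x * w' x).re : ℝ) : ℂ)) k := by
      rw [← ti_coef_sub hΘaT (ti_re_top hbw')]
      congr 1
      funext x
      change (((Θ v (‖a x‖ ^ 2) - (b x * w' x).re : ℝ)) : ℂ) = _
      rw [Complex.ofReal_sub]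
    rw [e2]
    refine Tendsto.congr (fun n => (e1 n).symm) ?_
    refine Tendsto.sub ?_ ?_
    · apply ti_coef_tendsto
      refine ti_strong U _ _ (fun n => ti_top_two (hΘAT n)) (ti_top_two hΘaT) ?_ _ (ti_h_top k)
      exact ti_theta (Θ v) (hΘ v) C hC (hΘb v) A a (fun n => (hAt n).1) ha.mem.1
        (fun n => Eventually.of_forall (hA1 n)) ha1 hAL
    · refine ti_coef_re_tendsto k hBw hbw' fun h hh => ?_
      exact ti_weak U w C (fun n => (hwm n).1) hwC w' hw'3 B b (fun n => ti_top_two (hBt n))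
        (ti_top_two hb.mem) hBL h hh
  -- the argument of the constant
  let β : ℕ → ℝ := fun n => (coef (V n) 0).im
  obtain ⟨ζ, hζ1, hζ2⟩ := (isCompact_sphere (0 : ℂ) 1).ultrafilter_le_nhds
    (U.map fun n => Complex.exp (Complex.I * (β n : ℂ))) (by
      rw [le_principal_iff, Ultrafilter.mem_coe, Ultrafilter.mem_map]
      refine univ_mem' fun n => ?_
      change Complex.exp (Complex.I * (β n : ℂ)) ∈ Metric.sphere (0 : ℂ) 1
      rw [mem_sphere_zero_iff_norm, mul_comm, Complex.norm_exp_ofReal_mul_I])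
  have hζt : Tendsto (fun n => Complex.exp (Complex.I * (β n : ℂ))) U (𝓝 ζ) := hζ2
  obtain ⟨β', hβ'⟩ := (Complex.norm_eq_one_iff ζ).1 (mem_sphere_zero_iff_norm.1 hζ1)
  obtain ⟨V0, hV0, hV0re, -, -⟩ := outer u hum (2 * C) hub
  let κ : ℂ := Complex.I * ((β' - (coef V0 0).im : ℝ) : ℂ)
  let V' : ℝ → ℂ := fun x => V0 x + κ
  have hV' : Htwo V' := hV0.add (Hinf_const κ).toHtwo
  have hκre : κ.re = 0 := by
    change (Complex.I * ((β' - (coef V0 0).im : ℝ) : ℂ)).re = 0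
    simp
  have hκim : κ.im = β' - (coef V0 0).im := by
    change (Complex.I * ((β' - (coef V0 0).im : ℝ) : ℂ)).im = _
    simp
  have hV're : ∀ᵐ x ∂mu, (V' x).re = u x := by
    filter_upwards [hV0re] with x hx
    change (V0 x + κ).re = u x
    rw [Complex.add_re, hκre, add_zero, hx]
  have hV'0 : (coef V' 0).im = β' := by
    have h1 : coef V' 0 = coef V0 0 + κ := by
      change coef (fun x => V0 x + κ) 0 = _
      rw [ti_coef_add hV0.mem (Hinf_const κ).toHtwo.mem, ti_coef_const]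
    rw [h1, Complex.add_im, hκim]
    ring
  have hV'b : ∀ᵐ x ∂mu, -(2 * C) ≤ (V' x).re ∧ (V' x).re ≤ 2 * C := by
    filter_upwards [hV're, hub] with x h1 h2
    rw [h1]
    exact abs_le.1 h2
  have hV'c : ∀ k, coef (fun x => ((V' x).re : ℂ)) k = coef (fun x => ((u x : ℝ) : ℂ)) k := by
    intro k
    refine ti_coef_congr ?_ k
    filter_upwards [hV're] with x hx
    rw [hx]
  have hV'reb : ∀ k, ‖coef (fun x => ((V' x).re : ℂ)) k‖ ≤ 2 * C := by
    intro k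
    refine ti_coef_bd ?_ (by positivity) k
    filter_upwards [hV'b] with x hx
    rw [Complex.norm_real, Real.norm_eq_abs, abs_le]
    exact hx
  obtain ⟨hexpI, hexp⟩ := ext_exp V' hV' (-(2 * C)) (2 * C) hV'b
  -- convergence of the extensions
  have hbc' : Hinf (fun x => a x + b x * c' x) := ha.add (hb.mul hc'I)
  have hBcn : ∀ n, MemLp (fun x => B n x * c n x) ⊤ mu := fun n => (hcI n).mem.mul (hBt n)
  have hkey : ∀ z ∈ Metric.ball (0 : ℂ) 1,
      ext (fun x => Complex.exp (V' x)) z = ext (fun x => a x + b x * c' x) z := by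
    intro z hz
    have l1 : Tendsto (fun n => ext (fun x => A n x + B n x * c n x) z) U
        (𝓝 (Complex.exp (ext V' z))) := by
      have e1 : ∀ n, ext (fun x => A n x + B n x * c n x) z =
          Complex.exp (∑' k : ℕ, (if k = 0 then 1 else 2) *
            coef (fun x => ((V n x).re : ℂ)) k * z ^ k) *
          Complex.exp (Complex.I * (β n : ℂ)) := by
        intro n
        rw [← ext_congr (fun x => Complex.exp (V n x)) _ (hVexp n),
          (ext_exp (V n) (hV2 n) (-(2 * C)) (2 * C) (hVb n)).2 z hz,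
          ti_ext_re (V n) (hV2 n) (2 * C) (hVreb n) z hz, Complex.exp_add]
      rw [ti_ext_re V' hV' (2 * C) hV'reb z hz, hV'0, Complex.exp_add, mul_comm Complex.I,
        hβ']
      refine Tendsto.congr (fun n => (e1 n).symm) (Tendsto.mul ?_ hζt)
      refine (Complex.continuous_exp.tendsto _).comp ?_
      refine ti_tsum_tendsto U _ _ (2 * (2 * C)) hz (fun n k => ?_) fun k => ?_
      · rw [norm_mul]
        have h2 : ‖(if k = 0 then 1 else 2 : ℂ)‖ ≤ 2 := by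
          split_ifs <;> simp
        have h3 := hVreb n k
        gcongr
      · rw [hV'c]
        exact (hcoef k).const_mul _
    have l2 : Tendsto (fun n => ext (fun x => A n x + B n x * c n x) z) U
        (𝓝 (ext (fun x => a x + b x * c' x) z)) := by
      unfold ext
      refine ti_tsum_tendsto U _ _ (1 + C) hz (fun n k => ?_) fun k => ?_
      · refine ti_coef_bd ?_ (by positivity) k
        filter_upwards [hcC n] with x hx
        refine (norm_add_le _ _).trans ?_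
        rw [norm_mul]
        have h3 := hA1 n x
        have h4 := hB1 n x
        have h5 := norm_nonneg (c n x)
        nlinarith
      · have e1 : ∀ n, coef (fun x => A n x + B n x * c n x) k =
            coef (A n) k + coef (fun x => B n x * c n x) k :=
          fun n => ti_coef_add (ti_top_two (hAt n)) (ti_top_two (hBcn n)) k
        rw [ti_coef_add ha.toHtwo.mem (hb.mul hc'I).toHtwo.mem]
        refine Tendsto.congr (fun n => (e1 n).symm) (Tendsto.add ?_ ?_)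
        · apply ti_coef_tendsto
          exact ti_strong U A a (fun n => ti_top_two (hAt n)) ha.toHtwo.mem hAL _ (ti_h_top k)
        · apply ti_coef_tendsto
          exact ti_weak U c C (fun n => (hcI n).mem.1) hcC c' hc'3 B b
            (fun n => ti_top_two (hBt n)) hb.toHtwo.mem hBL _ (ti_h_top k)
    rw [hexp z hz]
    exact tendsto_nhds_unique l1 l2
  have hEq : (fun x => Complex.exp (V' x)) =ᵐ[mu] (fun x => a x + b x * c' x) :=
    coef_inj hexpI.toHtwo hbc'.toHtwo (coef_of_ext _ _ hexpI.toHtwo hbc'.toHtwo hkey)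
  refine ⟨w', V', c', hw'1, hw'2, hV', hc'I, hV're, hEq, ?_⟩
  -- the estimate
  intro t ht N K hK hKb p
  have hKd : ∀ i, DifferentiableOn ℂ (ext (K i)) (Metric.ball 0 1) :=
    fun i => ext_diff _ (hK i).toHtwo
  have hpc : ∀ i, Continuous fun x : ℝ => E (x, 0) * (p i).eval (E (x, 0)) := by
    intro i
    have h1 : Continuous fun x : ℝ => E (x, 0) := continuous_E.comp (by fun_prop)
    exact h1.mul ((p i).continuous.comp h1)
  have hKc : ∀ i n, Continuous fun x : ℝ => ext (K i) ((ti_r n : ℂ) * E (x, 0)) :=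
    fun i n => ti_cont (hKd i) (ti_r_pos n) (ti_r_lt n)
  have hn := fun n : ℕ => hest n t ht N (fun i z => ext (K i) ((ti_r n : ℂ) * z))
    (fun i => ti_diff (hKd i) (ti_r_pos n))
    (fun z hz => hKb _ (ti_mem' (ti_r_pos n) (ti_r_lt n) hz)) p
  have hlim : Tendsto (fun n => ∫ x in Set.Ioc 0 (2 * Real.pi),
      ∑ i, w n x * ext (K i) ((ti_r n : ℂ) * E (x, 0)) * (E (x, 0) * (p i).eval (E (x, 0)))) U
      (𝓝 (∫ x in Set.Ioc 0 (2 * Real.pi),
        ∑ i, w' x * K i x * (E (x, 0) * (p i).eval (E (x, 0))))) := by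
    have e1 : ∀ n, ∫ x in Set.Ioc 0 (2 * Real.pi),
        ∑ i, w n x * ext (K i) ((ti_r n : ℂ) * E (x, 0)) * (E (x, 0) * (p i).eval (E (x, 0))) =
        ∑ i, ∫ x in Set.Ioc 0 (2 * Real.pi),
          w n x * (ext (K i) ((ti_r n : ℂ) * E (x, 0)) * (E (x, 0) * (p i).eval (E (x, 0)))) := by
      intro n
      simp only [mul_assoc (w n _)]
      refine integral_finsetSum _ fun i _ => ?_
      have h1 : MemLp (fun x => ext (K i) ((ti_r n : ℂ) * E (x, 0)) *
          (E (x, 0) * (p i).eval (E (x, 0)))) ⊤ mu := ti_memLp_cont ((hKc i n).mul (hpc i))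
      exact ti_top_int (h1.mul (hwm n))
    have e2 : ∫ x in Set.Ioc 0 (2 * Real.pi),
        ∑ i, w' x * K i x * (E (x, 0) * (p i).eval (E (x, 0))) =
        ∑ i, ∫ x in Set.Ioc 0 (2 * Real.pi),
          w' x * (K i x * (E (x, 0) * (p i).eval (E (x, 0)))) := by
      simp only [mul_assoc (w' _)]
      refine integral_finsetSum _ fun i _ => ?_
      have h1 : MemLp (fun x => K i x * (E (x, 0) * (p i).eval (E (x, 0)))) ⊤ mu :=
        (ti_memLp_cont (hpc i)).mul (hK i).mem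
      exact ti_top_int (h1.mul hw'1)
    rw [e2]
    refine Tendsto.congr (fun n => (e1 n).symm) ?_
    refine tendsto_finsetSum _ fun i _ => ?_
    exact WP U w C (fun n => (hwm n).1) hwC w' hw'3 _ (K i)
      (fun n => ti_top_two (ti_memLp_cont (hKc i n))) (hK i).toHtwo.mem (hL2 (K i) (hK i).toHtwo)
      _ (ti_memLp_cont (hpc i))
  have hr : Tendsto (fun n : ℕ => (ε t + 1 / ((n : ℝ) + 1)) *
      ∫ x in Set.Ioc 0 (2 * Real.pi), Real.sqrt (∑ i, ‖E (x, 0) * (p i).eval (E (x, 0))‖ ^ 2)) U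
      (𝓝 (ε t * ∫ x in Set.Ioc 0 (2 * Real.pi),
        Real.sqrt (∑ i, ‖E (x, 0) * (p i).eval (E (x, 0))‖ ^ 2))) := by
    have h1 := (tendsto_one_div_add_atTop_nhds_zero_nat (𝕜 := ℝ)).mono_left hU
    have h2 := (h1.const_add (ε t)).mul_const (∫ x in Set.Ioc 0 (2 * Real.pi),
      Real.sqrt (∑ i, ‖E (x, 0) * (p i).eval (E (x, 0))‖ ^ 2))
    rw [add_zero] at h2
    exact h2
  exact le_of_tendsto_of_tendsto' hlim.norm hr hn

end Pool.H14.SR
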