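import Pool.Agent.H14.SR.Basic
import Pool.Agent.H14.SR.TI
import Pool.Agent.H14.SR.TD
import Pool.Agent.H14.SR.A8
open MeasureTheory Set Filter Topology
noncomputable section
namespace Pool.H14.SR

theorem FIN_coef_smul (f : ℝ → ℂ) (c : ℂ) (n : ℕ) :
    coef (fun x => c * f x) n = c * coef f n := by
  unfold coef
  have : ∀ x : ℝ, Complex.exp (-((n : ℂ) * Complex.I * (x : ℂ))) * (c * f x)
      = c * (Complex.exp (-((n : ℂ) * Complex.I * (x : ℂ))) * f x) := fun x => by ring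
  simp_rw [this]
  rw [integral_const_mul]; ring

theorem FIN_ext_smul (f : ℝ → ℂ) (c w : ℂ) : ext (fun x => c * f x) w = c * ext f w := by
  unfold ext
  rw [← tsum_mul_left]
  congr 1; ext n
  rw [FIN_coef_smul]; ring

theorem FIN_ext_zero_fun (w : ℂ) : ext (fun _ => 0) w = 0 := by
  unfold ext coef; simp

theorem FIN_ext_one (w : ℂ) (hw : w ∈ Metric.ball (0 : ℂ) 1) : ext (fun _ => 1) w = 1 := by
  have h := (ext_exp (fun _ => 0) (Hinf_const 0).toHtwo 0 0 (by simp)).2 w hw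
  rw [FIN_ext_zero_fun] at h
  simpa using h

theorem FIN_QDA_smul {D : Set (ℝ → ℂ)} (hD : Doug D) {f : ℝ → ℂ} (hf : QDA D f) (c : ℂ) :
    QDA D (fun x => c * f x) := by
  refine ⟨⟨hD.smul c f hf.1.1, ?_⟩, (Hinf.smul (QDA.hinf hD hf) c).ha⟩
  have := hD.smul (starRingEnd ℂ c) _ hf.1.2
  refine hD.ae _ this _ (Eventually.of_forall fun x => ?_)
  simp

/-- **(FIN)** The theorem, for `Doug D`. -/
theorem FIN (D : Set (ℝ → ℂ)) (hD : Doug D) (a b u v : ℝ → ℂ) (ha : QDA D a) (hb : QDA D b)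
    (hu : QDA D u) (hv : QDA D v) (h : ∀ᵐ x ∂mu, u x * a x + v x * b x = 1) :
    ∃ c w : ℝ → ℂ, QDA D c ∧ QDA D w ∧ ∀ᵐ x ∂mu, (a x + c x * b x) * w x = 1 := by
  have hai := QDA.hinf hD ha
  have hbi := QDA.hinf hD hb
  have hui := QDA.hinf hD hu
  have hvi := QDA.hinf hD hv
  obtain ⟨-, Ma, hMa0, hMa⟩ := memLp_top_iff.1 hai.mem
  obtain ⟨-, Mb, hMb0, hMb⟩ := memLp_top_iff.1 hbi.mem
  obtain ⟨-, Mu, hMu0, hMu⟩ := memLp_top_iff.1 hui.mem
  obtain ⟨-, Mv, hMv0, hMv⟩ := memLp_top_iff.1 hvi.mem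
  set M := Ma + Mb + Mu + Mv + 1 with hM
  have hM1 : 1 ≤ M := by linarith
  have hM0 : 0 < M := by linarith
  have hMC : (M : ℂ) ≠ 0 := by exact_mod_cast hM0.ne'
  set a' : ℝ → ℂ := fun x => ((1 / M : ℝ) : ℂ) * a x with ha'
  set b' : ℝ → ℂ := fun x => ((1 / M : ℝ) : ℂ) * b x with hb'
  have ha'Q : QDA D a' := FIN_QDA_smul hD ha _
  have hb'Q : QDA D b' := FIN_QDA_smul hD hb _
  have ha'i := QDA.hinf hD ha'Q
  have hb'i := QDA.hinf hD hb'Q
  have hn : ∀ z : ℂ, ‖((1 / M : ℝ) : ℂ) * z‖ = ‖z‖ / M := by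
    intro z
    rw [norm_mul, Complex.norm_real, Real.norm_of_nonneg (by positivity)]
    field_simp
  have ha'1 : BD a' 1 := by
    filter_upwards [hMa] with x hx
    rw [ha']; simp only [hn]
    rw [div_le_one hM0]; linarith
  have hb'1 : BD b' 1 := by
    filter_upwards [hMb] with x hx
    rw [hb']; simp only [hn]
    rw [div_le_one hM0]; linarith
  -- lower bound in the disc
  set δ := 1 / (4 * M ^ 2) with hδ
  have hδ0 : 0 < δ := by positivity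
  have hδ2 : δ ≤ 1 / 2 := by
    rw [hδ, div_le_div_iff₀ (by positivity) (by norm_num)]
    nlinarith
  have hlow : ∀ z ∈ Metric.ball (0 : ℂ) 1, 2 * δ ≤ ‖ext a' z‖ ∨ 2 * δ ≤ ‖ext b' z‖ := by
    intro z hz
    have e1 : ext (fun x => u x * a x + v x * b x) z = 1 := by
      rw [ext_congr _ (fun _ => 1) h]; exact FIN_ext_one z hz
    rw [ext_add _ _ (hui.mul hai) (hvi.mul hbi) z hz, ext_mul u a hui hai z hz,
      ext_mul v b hvi hbi z hz] at e1
    have hu1 : ‖ext u z‖ ≤ M := ((ext_bd u hui Mu hMu).2 z hz).trans (by linarith)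
    have hv1 : ‖ext v z‖ ≤ M := ((ext_bd v hvi Mv hMv).2 z hz).trans (by linarith)
    have hA : ‖ext a' z‖ = ‖ext a z‖ / M := by
      rw [ha', FIN_ext_smul, hn]
    have hB : ‖ext b' z‖ = ‖ext b z‖ / M := by
      rw [hb', FIN_ext_smul, hn]
    by_contra hcon
    push Not at hcon
    rw [hA, hB] at hcon
    have hA2 : ‖ext a z‖ < 2 * δ * M := by
      have := hcon.1; rwa [div_lt_iff₀ hM0] at this
    have hB2 : ‖ext b z‖ < 2 * δ * M := by
      have := hcon.2; rwa [div_lt_iff₀ hM0] at this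
    have h1 : (1 : ℝ) ≤ ‖ext u z‖ * ‖ext a z‖ + ‖ext v z‖ * ‖ext b z‖ := by
      calc (1 : ℝ) = ‖ext u z * ext a z + ext v z * ext b z‖ := by rw [e1]; simp
        _ ≤ _ := (norm_add_le _ _).trans (by rw [norm_mul, norm_mul])
    have h2 : ‖ext u z‖ * ‖ext a z‖ ≤ M * ‖ext a z‖ := mul_le_mul_of_nonneg_right hu1 (norm_nonneg _)
    have h3 : ‖ext v z‖ * ‖ext b z‖ ≤ M * ‖ext b z‖ := mul_le_mul_of_nonneg_right hv1 (norm_nonneg _)
    have h4 : M * ‖ext a z‖ < M * (2 * δ * M) := mul_lt_mul_of_pos_left hA2 hM0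
    have h5 : M * ‖ext b z‖ < M * (2 * δ * M) := mul_lt_mul_of_pos_left hB2 hM0
    have h6 : M * (2 * δ * M) = 1 / 2 := by rw [hδ]; field_simp; norm_num
    linarith
  -- the outer-type function F
  have hqm : AEStronglyMeasurable (fun x => ‖a' x‖ ^ 2 + ‖b' x‖ ^ 2) mu :=
    (ha'i.mem.1.norm.pow 2).add (hb'i.mem.1.norm.pow 2)
  obtain ⟨F, hF, hFre, -, -⟩ := outer (fun x => ‖a' x‖ ^ 2 + ‖b' x‖ ^ 2) hqm 2 (by
    filter_upwards [ha'1, hb'1] with x h1 h2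
    rw [abs_of_nonneg (by positivity)]
    nlinarith [norm_nonneg (a' x), norm_nonneg (b' x)])
  obtain ⟨C, ε, Θ, hC, hε, hΘ, key⟩ := TI δ hδ0 hδ2
  obtain ⟨w, V, c, hwm, hwC, hV, hc, hVre, hexp, hest⟩ :=
    key a' b' F ha'i hb'i ha'1 hb'1 hlow hF hFre
  have hwD := TD D hD a' b' F w ha'Q hb'Q ha'1 hb'1 hF hFre hwm ε hε hest
  obtain ⟨t, u', ht, hu', htu⟩ := A8 hD a' b' w V c (Θ ‖ext a' 0‖) (hΘ _) ha'Q hb'Q hwD hV hVre hc hexp
  refine ⟨t, fun x => ((1 / M : ℝ) : ℂ) * u' x, ht, FIN_QDA_smul hD hu' _, ?_⟩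
  filter_upwards [htu] with x hx
  rw [← hx]
  simp only [ha', hb']; ring

end Pool.H14.SR
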